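import Pool.Agent.H95.LBD.LawA
import Pool.Agent.H95.LBD.SumA
import Pool.Agent.H95.LBD.Setup

/-!
PROJECT DS (MP_0d9ad5_pr), sharp lower bound. Definitions. Paper proof: note 2700.
-/

namespace H95LBS

open H5DF H95LBD MeasureTheory

variable {d : ℕ}

/-- Union of two configurations. -/
def un (ω η : Cfg d) : Cfg d := fun e => ω e || η e

/-- The joint law of the configuration `ω0` (density `p`) and the sprinkled edges `η` (density `s`). -/
noncomputable def PP (d : ℕ) (p s : ℝ) : Measure (Cfg d × Cfg d) := (perc d p).prod (perc d s)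

/-- The density of the union. -/
def pn (p s : ℝ) : ℝ := 1 - (1 - p) * (1 - s)

/-- `x` is connected to distance at least `r`. -/
def Ar (x : V d) (r : ℕ) : Set (Cfg d) := {ω | ∃ z, r ≤ nm (z - x) ∧ z ∈ cluster ω x}

/-- The cluster of `x` inside `S`. -/
def hub (S : Set (V d)) (ω : Cfg d) (x : V d) : Set (V d) := {y | Cn S ω x y}

/-- The ball as a finite set. -/
noncomputable def BF (z : V d) (n : ℕ) : Finset (V d) := (Box d n).image (fun x => x + z)

/-- The cube `n j + [0,n)^d`. -/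
noncomputable def cube (n : ℕ) (j : V d) : Finset (V d) :=
  Fintype.piFinset fun i => Finset.Ico (j i * n) ((j i + 1) * n)

/-- The critical estimates: two-point function, one arm, intrinsic radius, restricted two-point
function. -/
structure Crit (d : ℕ) (p0 A cM : ℝ) (M : ℕ) : Prop where
  hd : 7 ≤ d
  hp0 : 0 < p0
  hp1 : p0 < 1
  hc : 0 < cM
  hA : 1 ≤ A
  hM : 1 ≤ M
  kb : KB d p0 cM A
  arm : ∀ r : ℕ, 1 ≤ r → (perc d p0).real (Ar 0 r) ≤ A / (r : ℝ) ^ 2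
  intr : ∀ (S : Set (V d)) (x : V d) (r : ℕ), 1 ≤ r →
    (perc d p0).real {ω | ∃ y, Cn S ω x y ∧ r ≤ (G (cut S ω)).dist x y} ≤ A / r
  rest : ∀ (n : ℕ) (x y : V d), 1 ≤ n → nm x ≤ n → nm y ≤ n →
    cM / (n : ℝ) ^ (d - 2) ≤ (perc d p0).real {ω | Cn (Bx 0 (M * n)) ω x y}

lemma mem_BF {z x : V d} {n : ℕ} : x ∈ BF z n ↔ nm (x - z) ≤ n := by
  unfold BF
  rw [Finset.mem_image]
  constructor
  · rintro ⟨y, hy, rfl⟩
    rw [add_sub_cancel_right]
    exact mem_Box'.1 hy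
  · intro h
    exact ⟨x - z, mem_Box'.2 h, sub_add_cancel _ _⟩

lemma coe_BF (z : V d) (n : ℕ) : ((BF z n : Finset (V d)) : Set (V d)) = Bx z n := by
  ext x
  rw [Finset.mem_coe, mem_BF]
  exact Iff.rfl

lemma mem_cube {n : ℕ} {j x : V d} : x ∈ cube n j ↔ ∀ i, j i * n ≤ x i ∧ x i < (j i + 1) * n := by
  simp [cube]

lemma mem_hub {S : Set (V d)} {ω : Cfg d} {x y : V d} : y ∈ hub S ω x ↔ Cn S ω x y := Iff.rfl

lemma mem_hub_self (S : Set (V d)) (ω : Cfg d) (x : V d) : x ∈ hub S ω x := Cn.refl _ _ _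

lemma hub_eq {S : Set (V d)} {ω : Cfg d} {x y : V d} (h : y ∈ hub S ω x) :
    hub S ω y = hub S ω x := by
  ext z
  exact ⟨fun h1 => Cn.trans h h1, fun h1 => Cn.trans (Cn.symm h) h1⟩

lemma hub_mono {S S' : Set (V d)} {ω ω' : Cfg d} (x : V d) (hS : S ⊆ S')
    (hω : ∀ e, ω e = true → ω' e = true) : hub S ω x ⊆ hub S' ω' x := fun _ h => h.mono hS hω

lemma hub_sub {S : Set (V d)} {ω : Cfg d} {x : V d} (hx : x ∈ S) : hub S ω x ⊆ S :=
  fun _ h => h.mem hx

lemma un_left {ω η : Cfg d} : ∀ e, ω e = true → un ω η e = true := by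
  intro e h
  simp [un, h]

lemma un_right {ω η : Cfg d} : ∀ e, η e = true → un ω η e = true := by
  intro e h
  simp [un, h]

lemma un_true {ω η : Cfg d} {e : Ed d} : un ω η e = true ↔ ω e = true ∨ η e = true := by
  simp [un]

lemma Ar_inc (x : V d) (r : ℕ) : Inc (Ar x r) := by
  rintro ω ω' h ⟨z, hz, h1⟩
  exact ⟨z, hz, (Cn_univ.1 ((Cn_univ.2 h1).mono (fun _ h => h) h))⟩

lemma meas_Ar (x : V d) (r : ℕ) : MeasurableSet (Ar x r) := by
  have : Ar x r = ⋃ z ∈ {z : V d | r ≤ nm (z - x)}, {ω : Cfg d | z ∈ cluster ω x} := by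
    ext ω
    simp [Ar]
  rw [this]
  exact MeasurableSet.biUnion (Set.to_countable _) fun z _ => meas_reach x z

lemma pn_ge {p s : ℝ} (hp : p ≤ 1) (hs : 0 ≤ s) : p ≤ pn p s := by
  unfold pn
  nlinarith

lemma pn_le {p s : ℝ} (hp : p ≤ 1) (hs : s ≤ 1) : pn p s ≤ 1 := by
  unfold pn
  nlinarith

lemma Crit.prob {p0 A cM : ℝ} {M : ℕ} (H : Crit d p0 A cM M) : IsProbabilityMeasure (perc d p0) :=
  isProb_perc p0 H.hp0.le H.hp1.le

end H95LBS
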