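import Pool.Agent.H95.LBS.LawP

/-!
PROJECT DS (MP_0d9ad5_pr), JOB DS-Thin. Thinning removes any small set of edges (section 6 of note 2700).
PROOF. `thin_half`: `perc (s/2)` is the law of `η && κ`, `κ ~ perc (1/2)` independent. If `η` without `Hs` is in `Dn`, then on the event
`{κ e = false for all e ∈ Hs}` (probability `2^(-card Hs) >= 2^(-r1)`) `η && κ <= η without Hs`, so `η && κ ∈ Dn` (decreasing). Fubini.
The set on the left is a countable union over `Hs`.
-/

namespace H95LBS

open H5DF H95LBD MeasureTheory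

variable {d : ℕ}

/-- The probability that all edges of a finite set are closed. -/
lemma Thin_closed {q : ℝ} (h0 : 0 ≤ q) (h1 : q ≤ 1) (Hs : Finset (Ed d)) :
    perc d q {κ : Cfg d | ∀ e ∈ Hs, κ e = false} = ENNReal.ofReal (1 - q) ^ Hs.card := by
  have hP := isProb_bern h0 h1
  have hb : bern q {false} = ENNReal.ofReal (1 - q) := by simp [bern]
  have hset : {κ : Cfg d | ∀ e ∈ Hs, κ e = false} =
      ((Hs : Set (Ed d)).pi fun _ => ({false} : Set Bool)) := by
    ext η
    simp
  unfold perc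
  rw [hset, Measure.infinitePi_pi _ (fun i _ => MeasurableSet.of_discrete)]
  simp only [hb]
  rw [Finset.prod_const]

theorem thin_rm {s : ℝ} (hs0 : 0 ≤ s) (hs1 : s ≤ 1) (Dn : Set (Cfg d)) (hm : MeasurableSet Dn)
    (hdec : ∀ η η' : Cfg d, (∀ e, η' e = true → η e = true) → η ∈ Dn → η' ∈ Dn) (r1 : ℕ) :
    (perc d s).real {η | ∃ Hs : Finset (Ed d), Hs.card ≤ r1 ∧
      (fun e => η e && !decide (e ∈ Hs)) ∈ Dn} ≤ 2 ^ r1 * (perc d (s / 2)).real Dn := by
  have hPs := isProb_perc (d := d) s hs0 hs1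
  have hPh := isProb_perc (d := d) (1 / 2) (by norm_num) (by norm_num)
  have hPs2 := isProb_perc (d := d) (s / 2) (by linarith) (by linarith)
  set A : Set (Cfg d) := {η | ∃ Hs : Finset (Ed d), Hs.card ≤ r1 ∧
      (fun e => η e && !decide (e ∈ Hs)) ∈ Dn} with hA
  have hAm : MeasurableSet A := by
    have h1 : A = ⋃ Hs : Finset (Ed d), {η : Cfg d | Hs.card ≤ r1 ∧
        (fun e => η e && !decide (e ∈ Hs)) ∈ Dn} := by
      ext η
      simp [hA]
    rw [h1]
    refine MeasurableSet.iUnion fun Hs => ?_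
    have h2 : Measurable (fun (η : Cfg d) (e : Ed d) => η e && !decide (e ∈ Hs)) := by
      refine measurable_pi_iff.2 fun i => ?_
      exact (measurable_of_countable (fun b : Bool => b && !decide (i ∈ Hs))).comp
        (measurable_pi_apply i)
    exact (MeasurableSet.const _).inter (h2 hm)
  have hmf : Measurable (fun (q : Cfg d × Cfg d) (e : Ed d) => q.1 e && q.2 e) := LawP_meas_and
  have hlaw : perc d (s / 2) Dn = ∫⁻ η, perc d (1 / 2) (Prod.mk η ⁻¹'
      ((fun (q : Cfg d × Cfg d) (e : Ed d) => q.1 e && q.2 e) ⁻¹' Dn)) ∂(perc d s) := by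
    rw [← thin_half hs0 hs1, Measure.map_apply hmf hm, Measure.prod_apply (hmf hm)]
  have hlow : ENNReal.ofReal (1 / 2) ^ r1 * perc d s A ≤ perc d (s / 2) Dn := by
    rw [hlaw, ← setLIntegral_const]
    refine le_trans (setLIntegral_mono' hAm fun η hη => ?_) (setLIntegral_le_lintegral A _)
    obtain ⟨Hs, hc, hD⟩ := hη
    have h3 : {κ : Cfg d | ∀ e ∈ Hs, κ e = false} ⊆ (Prod.mk η ⁻¹'
        ((fun (q : Cfg d × Cfg d) (e : Ed d) => q.1 e && q.2 e) ⁻¹' Dn)) := by
      intro κ hκ
      refine hdec _ _ (fun e he => ?_) hD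
      simp only [Bool.and_eq_true] at he
      have h4 : e ∉ Hs := by
        intro h5
        rw [hκ e h5] at he
        exact absurd he.2 (by simp)
      simp [he.1, h4]
    refine le_trans ?_ (measure_mono h3)
    rw [Thin_closed (by norm_num) (by norm_num)]
    have h5 : (1 : ℝ) - 1 / 2 = 1 / 2 := by norm_num
    rw [h5]
    exact pow_le_pow_of_le_one zero_le (by
      rw [ENNReal.ofReal_le_one]
      norm_num) hc
  have h6 := ENNReal.toReal_mono (measure_ne_top _ _) hlow
  rw [ENNReal.toReal_mul, ENNReal.toReal_pow, ENNReal.toReal_ofReal (by norm_num)] at h6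
  have h7 : (2 : ℝ) ^ r1 * (1 / 2) ^ r1 = 1 := by
    rw [← mul_pow]
    norm_num
  have h8 : (0 : ℝ) ≤ 2 ^ r1 := by positivity
  calc (perc d s).real A = 2 ^ r1 * ((1 / 2) ^ r1 * (perc d s).real A) := by
        rw [← mul_assoc, h7, one_mul]
    _ ≤ 2 ^ r1 * (perc d (s / 2)).real Dn := mul_le_mul_of_nonneg_left h6 h8

end H95LBS
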