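import Pool.Agent.H95.LBS.LawI

/-!
PROJECT DS (MP_0d9ad5_pr), JOB DS-HubX. Exploration of a hub.
PROOF. `hub_dep`: an edge not in `ins Dᶜ` is an edge with an end in `D`; compare with `cluster_congr`
(H5/DG/Indep.lean) applied to `cut S ω`: starting from `x`, induction `Cn.ind` along connections. `hub_off`: a
connection from `y` outside the hub never meets the hub. `explore_pair`: `indep_pair` with
`T1 = T2 = (ins Dᶜ)ᶜ`, and `{hub = D}`, `{q.2 in F}` are independent by the product structure.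
`explore_le`: sum over the finitely many `D ⊆ S` of `explore_pair` with `F = {edge open}`,
`E = {cut Dᶜ (un ..) in B}`; `PP {un q.1 q.2 in B} = perc (pn p s) B` (`map_un`) and `B` increasing.
-/

namespace H95LBS

open H5DF H95LBD MeasureTheory

variable {d : ℕ}

theorem hub_dep {S D : Set (V d)} {ω ω' : Cfg d} {x : V d} (h : ∀ e, e ∉ ins Dᶜ → ω e = ω' e)
    (hD : hub S ω x = D) : hub S ω' x = D := by
  classical
  have h1 : cluster (cut S ω) x = D := hD
  have h2 : cluster (cut S ω') x = D := by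
    refine cluster_congr h1 ?_
    intro u hu s
    have h3 : ω (edge u s) = ω' (edge u s) := by
      refine h _ ?_
      intro h4
      rw [edge_mem_ins] at h4
      exact h4.1 hu
    unfold cut
    simp only [h3]
  exact h2

theorem hub_off {S : Set (V d)} {ω : Cfg d} {x y z : V d} (hy : y ∉ hub S ω x) (h : Cn S ω y z) :
    Cn S (cut (hub S ω x)ᶜ ω) y z := by
  refine Cn.ind (fun z => Cn S (cut (hub S ω x)ᶜ ω) y z) (Cn.refl _ _ _) ?_ h
  intro w s hyw ih hw hs ho
  refine ih.trans (Cn.one ?_ hw hs)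
  rw [cut_edge]
  refine ⟨ho, ?_, ?_⟩
  · intro h1
    exact hy (Cn.trans h1 (Cn.symm hyw))
  · intro h1
    exact hy (Cn.trans h1 (Cn.symm (hyw.trans (Cn.one ho hw hs))))

theorem meas_hub_eq (S D : Set (V d)) (x : V d) : MeasurableSet {ω : Cfg d | hub S ω x = D} :=
  (measurable_cut S) (meas_cluster_eq x D)

theorem explore_pair {p s : ℝ} (h0 : 0 ≤ p) (h1 : p ≤ 1) (hs0 : 0 ≤ s) (hs1 : s ≤ 1)
    (S : Finset (V d)) (x : V d) (D : Set (V d)) (F : Set (Cfg d)) (E : Set (Cfg d × Cfg d))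
    (hF : MeasurableSet F) (hE : MeasurableSet E)
    (hdF : ∀ η η' : Cfg d, (∀ e, e ∉ ins Dᶜ → η e = η' e) → η ∈ F → η' ∈ F)
    (hdE : ∀ q q' : Cfg d × Cfg d, (∀ e ∈ ins Dᶜ, q.1 e = q'.1 e ∧ q.2 e = q'.2 e) →
      q ∈ E → q' ∈ E) :
    (PP d p s).real {q | hub S q.1 x = D ∧ q.2 ∈ F ∧ q ∈ E} =
      (perc d p).real {ω | hub S ω x = D} * (perc d s).real F * (PP d p s).real E := by
  have hPp := isProb_perc (d := d) p h0 h1
  have hPs := isProb_perc (d := d) s hs0 hs1
  have hm : MeasurableSet ({ω : Cfg d | hub S ω x = D} ×ˢ F) := (meas_hub_eq _ D x).prod hF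
  have hset : {q : Cfg d × Cfg d | hub S q.1 x = D ∧ q.2 ∈ F ∧ q ∈ E} =
      ({ω : Cfg d | hub S ω x = D} ×ˢ F) ∩ E := by
    ext q
    constructor
    · rintro ⟨h2, h3, h4⟩
      exact ⟨⟨h2, h3⟩, h4⟩
    · rintro ⟨⟨h2, h3⟩, h4⟩
      exact ⟨h2, h3, h4⟩
  rw [hset, indep_pair h0 h1 hs0 hs1 (ins Dᶜ)ᶜ (ins Dᶜ)ᶜ _ E hm hE (by
      rintro q q' h2 h3 ⟨h4, h5⟩
      exact ⟨hub_dep h2 h4, hdF _ _ h3 h5⟩) (by
      intro q q' h2 h3 h4
      refine hdE q q' (fun e he => ?_) h4
      have he' : e ∉ (ins Dᶜ)ᶜ := fun h5 => h5 he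
      exact ⟨h2 e he', h3 e he'⟩)]
  congr 1
  unfold PP
  rw [measureReal_def, Measure.prod_prod, ENNReal.toReal_mul]
  rfl

/-- The first sprinkled edge out of the hub of `x`. -/
theorem explore_le {p s : ℝ} (h0 : 0 ≤ p) (h1 : p ≤ 1) (hs0 : 0 ≤ s) (hs1 : s ≤ 1)
    (S : Finset (V d)) (x : V d) (hx : x ∈ S) (B : V d → Dir d → Set (Cfg d))
    (hB : ∀ a σ, MeasurableSet (B a σ)) (hI : ∀ a σ, Inc (B a σ)) :
    (PP d p s).real {q | ∃ a σ, a ∈ hub S q.1 x ∧ a + step σ ∉ hub S q.1 x ∧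
      q.2 (edge a σ) = true ∧ cut (hub S q.1 x)ᶜ (un q.1 q.2) ∈ B a σ} ≤
      ∑ a ∈ S, ∑ σ : Dir d, (perc d p).real {ω | Cn S ω x a} * s *
        (perc d (pn p s)).real (B a σ) := by
  classical
  have hPp := isProb_perc (d := d) p h0 h1
  have hPs := isProb_perc (d := d) s hs0 hs1
  have hPP := isProb_PP (d := d) h0 h1 hs0 hs1
  -- a single pair
  have key : ∀ a ∈ S, ∀ σ : Dir d, (PP d p s).real {q | a ∈ hub S q.1 x ∧
      a + step σ ∉ hub S q.1 x ∧ q.2 (edge a σ) = true ∧
      cut (hub S q.1 x)ᶜ (un q.1 q.2) ∈ B a σ} ≤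
      (perc d p).real {ω | Cn S ω x a} * s * (perc d (pn p s)).real (B a σ) := by
    intro a ha σ
    set Q : Finset (Finset (V d)) := S.powerset.filter (fun D => a ∈ D ∧ a + step σ ∉ D) with hQ
    set F : Set (Cfg d) := {η | η (edge a σ) = true} with hF
    have hFm : MeasurableSet F :=
      measurable_pi_apply (X := fun _ : Ed d => Bool) (edge a σ)
        (MeasurableSet.of_discrete (s := {true}))
    have hFs : (perc d s).real F = s := by
      rw [measureReal_def]
      have h2 := bern_coord (ι := Ed d) hs0 hs1 (edge a σ) true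
      rw [bern_true] at h2
      have h3 : perc d s F = ENNReal.ofReal s := h2
      rw [h3, ENNReal.toReal_ofReal hs0]
    let E : Finset (V d) → Set (Cfg d × Cfg d) := fun D =>
      {q | cut ((D : Set (V d)))ᶜ (un q.1 q.2) ∈ B a σ}
    have hEm : ∀ D, MeasurableSet (E D) := fun D =>
      ((measurable_cut _).comp measurable_un) (hB a σ)
    have hsub : {q : Cfg d × Cfg d | a ∈ hub S q.1 x ∧
        a + step σ ∉ hub S q.1 x ∧ q.2 (edge a σ) = true ∧
        cut (hub S q.1 x)ᶜ (un q.1 q.2) ∈ B a σ} ⊆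
        ⋃ D ∈ Q, {q | hub S q.1 x = (D : Set (V d)) ∧ q.2 ∈ F ∧ q ∈ E D} := by
      rintro q ⟨h2, h3, h4, h5⟩
      have hfin : (hub (S : Set (V d)) q.1 x) ⊆ (S : Set (V d)) := hub_sub (by exact_mod_cast hx)
      have h6 : ((S.filter fun y => y ∈ hub (S : Set (V d)) q.1 x : Finset (V d)) : Set (V d)) =
          hub (S : Set (V d)) q.1 x := by
        ext y
        simp only [Finset.coe_filter, Set.mem_ofPred_eq]
        exact ⟨fun h => h.2, fun h => ⟨hfin h, h⟩⟩
      rw [Set.mem_iUnion₂]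
      refine ⟨S.filter fun y => y ∈ hub (S : Set (V d)) q.1 x, ?_, h6.symm, h4, ?_⟩
      · rw [hQ, Finset.mem_filter, Finset.mem_powerset]
        refine ⟨Finset.filter_subset _ _, ?_, ?_⟩
        · rw [Finset.mem_filter]
          exact ⟨ha, h2⟩
        · rw [Finset.mem_filter]
          exact fun h => h3 h.2
      · show cut ((_ : Set (V d)))ᶜ (un q.1 q.2) ∈ B a σ
        rw [h6]
        exact h5
    have hstep : ∀ D ∈ Q, (PP d p s).real {q | hub S q.1 x = (D : Set (V d)) ∧ q.2 ∈ F ∧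
        q ∈ E D} ≤ (perc d p).real {ω | hub S ω x = (D : Set (V d))} *
          (s * (perc d (pn p s)).real (B a σ)) := by
      intro D hD
      rw [hQ, Finset.mem_filter, Finset.mem_powerset] at hD
      rw [explore_pair h0 h1 hs0 hs1 S x D F (E D) hFm (hEm D) (by
        intro η η' h h2
        show η' (edge a σ) = true
        rw [← h (edge a σ) (by
          intro h3
          rw [edge_mem_ins] at h3
          exact h3.1 (by exact_mod_cast hD.2.1))]
        exact h2) (by
        intro q q' h h2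
        have h3 : cut ((D : Set (V d)))ᶜ (un q.1 q.2) = cut ((D : Set (V d)))ᶜ (un q'.1 q'.2) := by
          funext e
          by_cases he : e ∈ ins ((D : Set (V d)))ᶜ
          · unfold cut un
            rw [(h e he).1, (h e he).2]
          · have h4 : ∀ ω : Cfg d, cut ((D : Set (V d)))ᶜ ω e = false := by
              intro ω
              rw [← Bool.not_eq_true, cut_true]
              exact fun h => he h.2
            rw [h4, h4]
        show cut ((D : Set (V d)))ᶜ (un q'.1 q'.2) ∈ B a σ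
        rw [← h3]
        exact h2), hFs, mul_assoc]
      refine mul_le_mul_of_nonneg_left ?_ measureReal_nonneg
      refine mul_le_mul_of_nonneg_left ?_ hs0
      calc (PP d p s).real (E D) ≤ (PP d p s).real {q | un q.1 q.2 ∈ B a σ} := by
            refine measureReal_mono ?_ (measure_ne_top _ _)
            intro q hq
            refine hI a σ _ _ ?_ hq
            intro e he
            rw [cut_true] at he
            exact he.1
        _ = (perc d (pn p s)).real (B a σ) := by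
            rw [← map_un h0 h1 hs0 hs1, map_measureReal_apply measurable_un (hB a σ)]
            rfl
    have hsum : ∑ D ∈ Q, (perc d p).real {ω | hub S ω x = (D : Set (V d))} ≤
        (perc d p).real {ω | Cn S ω x a} := by
      rw [← measureReal_biUnion_finset (f := fun D : Finset (V d) =>
        {ω : Cfg d | hub S ω x = (D : Set (V d))}) ?_ ?_]
      · refine measureReal_mono ?_ (measure_ne_top _ _)
        intro ω hω
        rw [Set.mem_iUnion₂] at hω
        obtain ⟨D, hD, h2⟩ := hω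
        rw [hQ, Finset.mem_filter] at hD
        have h3 : a ∈ hub S ω x := by
          rw [show hub S ω x = (D : Set (V d)) from h2]
          exact_mod_cast hD.2.1
        exact h3
      · intro D _ D' _ hne
        show Disjoint _ _
        rw [Set.disjoint_left]
        intro ω h2 h3
        apply hne
        have h4 : (D : Set (V d)) = (D' : Set (V d)) := by
          rw [← show hub S ω x = (D : Set (V d)) from h2]
          exact h3
        exact_mod_cast h4
      · intro D _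
        exact meas_hub_eq _ _ x
    have hnn : 0 ≤ s * (perc d (pn p s)).real (B a σ) := mul_nonneg hs0 measureReal_nonneg
    calc (PP d p s).real {q | a ∈ hub S q.1 x ∧
      a + step σ ∉ hub S q.1 x ∧ q.2 (edge a σ) = true ∧
      cut (hub S q.1 x)ᶜ (un q.1 q.2) ∈ B a σ}
        ≤ (PP d p s).real (⋃ D ∈ Q, {q | hub S q.1 x = (D : Set (V d)) ∧ q.2 ∈ F ∧ q ∈ E D}) :=
          measureReal_mono hsub (measure_ne_top _ _)
      _ ≤ ∑ D ∈ Q, (PP d p s).real {q | hub S q.1 x = (D : Set (V d)) ∧ q.2 ∈ F ∧ q ∈ E D} :=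
          measureReal_biUnion_finset_le _ _
      _ ≤ ∑ D ∈ Q, (perc d p).real {ω | hub S ω x = (D : Set (V d))} *
          (s * (perc d (pn p s)).real (B a σ)) := Finset.sum_le_sum hstep
      _ = (∑ D ∈ Q, (perc d p).real {ω | hub S ω x = (D : Set (V d))}) *
          (s * (perc d (pn p s)).real (B a σ)) := by rw [Finset.sum_mul]
      _ ≤ (perc d p).real {ω | Cn S ω x a} * (s * (perc d (pn p s)).real (B a σ)) :=
          mul_le_mul_of_nonneg_right hsum hnn
      _ = _ := by rw [mul_assoc]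
  have hsub : {q : Cfg d × Cfg d | ∃ a σ, a ∈ hub S q.1 x ∧ a + step σ ∉ hub S q.1 x ∧
      q.2 (edge a σ) = true ∧ cut (hub S q.1 x)ᶜ (un q.1 q.2) ∈ B a σ} ⊆
      ⋃ a ∈ S, ⋃ σ ∈ (Finset.univ : Finset (Dir d)), {q | a ∈ hub S q.1 x ∧
      a + step σ ∉ hub S q.1 x ∧ q.2 (edge a σ) = true ∧
      cut (hub S q.1 x)ᶜ (un q.1 q.2) ∈ B a σ} := by
    rintro q ⟨a, σ, h2, h3, h4, h5⟩
    rw [Set.mem_iUnion₂]
    have h6 : a ∈ (S : Set (V d)) := hub_sub (by exact_mod_cast hx) h2
    refine ⟨a, by exact_mod_cast h6, ?_⟩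
    rw [Set.mem_iUnion₂]
    exact ⟨σ, Finset.mem_univ _, h2, h3, h4, h5⟩
  calc (PP d p s).real {q | ∃ a σ, a ∈ hub S q.1 x ∧ a + step σ ∉ hub S q.1 x ∧
      q.2 (edge a σ) = true ∧ cut (hub S q.1 x)ᶜ (un q.1 q.2) ∈ B a σ}
      ≤ (PP d p s).real (⋃ a ∈ S, ⋃ σ ∈ (Finset.univ : Finset (Dir d)), {q | a ∈ hub S q.1 x ∧
      a + step σ ∉ hub S q.1 x ∧ q.2 (edge a σ) = true ∧
      cut (hub S q.1 x)ᶜ (un q.1 q.2) ∈ B a σ}) := measureReal_mono hsub (measure_ne_top _ _)
    _ ≤ ∑ a ∈ S, (PP d p s).real (⋃ σ ∈ (Finset.univ : Finset (Dir d)), {q | a ∈ hub S q.1 x ∧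
      a + step σ ∉ hub S q.1 x ∧ q.2 (edge a σ) = true ∧
      cut (hub S q.1 x)ᶜ (un q.1 q.2) ∈ B a σ}) := measureReal_biUnion_finset_le _ _
    _ ≤ ∑ a ∈ S, ∑ σ : Dir d, (PP d p s).real {q | a ∈ hub S q.1 x ∧
      a + step σ ∉ hub S q.1 x ∧ q.2 (edge a σ) = true ∧
      cut (hub S q.1 x)ᶜ (un q.1 q.2) ∈ B a σ} :=
        Finset.sum_le_sum fun a _ => measureReal_biUnion_finset_le _ _
    _ ≤ _ := Finset.sum_le_sum fun a ha => Finset.sum_le_sum fun σ _ => key a ha σ

end H95LBS
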