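import Pool.Agent.H95.LBS.LawP
import Pool.Agent.H95.LBD.LawC
import Pool.Agent.H95.LBD.LawD

/-!
PROJECT DS (MP_0d9ad5_pr), JOB DS-LawI. Independence for pairs of configurations.
PROOF. As in LBD/LawC and LBD/LawD. `indep_pair`: coordinates indexed by `Ed d ⊕ Ed d`
(`lawD_iIndep`, `lawD_indep`), or `indep_gen` twice with Fubini. `indep_manyP`: induction on `n` with
`T = ⋃ i < n, L i`.
-/

namespace H95LBS

open H5DF H95LBD MeasureTheory

section LawI

variable {ι α β : Type*} [MeasurableSpace α] [MeasurableSpace β]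

/-- The coordinates over `T1` in the first and over `T2` in the second family. -/
def LawI_T (T1 T2 : Set ι) : Set (ι ⊕ ι) := {i | Sum.elim (fun e => e ∈ T1) (fun e => e ∈ T2) i}

lemma LawI_meas [Inhabited α] [Inhabited β] (T1 T2 : Set ι) (S : Set ((ι → α) × (ι → β)))
    (hS : MeasurableSet S)
    (hdep : ∀ q q' : (ι → α) × (ι → β), (∀ e ∈ T1, q.1 e = q'.1 e) → (∀ e ∈ T2, q.2 e = q'.2 e) →
      (q ∈ S → q' ∈ S)) :
    MeasurableSet[⨆ i ∈ LawI_T T1 T2, lawD_m i] S := by
  classical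
  let ρ : (ι → α) × (ι → β) → (ι → α) × (ι → β) := fun q =>
    (fun e => if e ∈ T1 then q.1 e else default, fun e => if e ∈ T2 then q.2 e else default)
  have h1 : S = ρ ⁻¹' S := by
    ext q
    constructor
    · exact hdep q (ρ q) (fun e he => by simp [ρ, he]) (fun e he => by simp [ρ, he])
    · exact hdep (ρ q) q (fun e he => by simp [ρ, he]) (fun e he => by simp [ρ, he])
  rw [h1]
  have h2 : @Measurable _ _ (⨆ i ∈ LawI_T T1 T2, lawD_m i) Prod.instMeasurableSpace ρ := by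
    refine @Measurable.prodMk ((ι → α) × (ι → β)) (⨆ i ∈ LawI_T T1 T2, lawD_m i) (ι → α) (ι → β)
      _ _ _ _ ?_ ?_
    · refine @measurable_pi_lambda _ _ _ (⨆ i ∈ LawI_T T1 T2, lawD_m i) _ _ fun e => ?_
      by_cases he : e ∈ T1
      · simp only [he, if_true]
        have h3 : (Sum.inl e : ι ⊕ ι) ∈ LawI_T T1 T2 := he
        have h4 : @Measurable _ _ (lawD_m (Sum.inl e)) _
            (fun q : (ι → α) × (ι → β) => q.1 e) := comap_measurable _
        exact h4.mono (le_iSup₂_of_le _ h3 le_rfl) le_rfl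
      · simp only [he, if_false]
        exact measurable_const
    · refine @measurable_pi_lambda _ _ _ (⨆ i ∈ LawI_T T1 T2, lawD_m i) _ _ fun e => ?_
      by_cases he : e ∈ T2
      · simp only [he, if_true]
        have h3 : (Sum.inr e : ι ⊕ ι) ∈ LawI_T T1 T2 := he
        have h4 : @Measurable _ _ (lawD_m (Sum.inr e)) _
            (fun q : (ι → α) × (ι → β) => q.2 e) := comap_measurable _
        exact h4.mono (le_iSup₂_of_le _ h3 le_rfl) le_rfl
      · simp only [he, if_false]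
        exact measurable_const
  exact h2 hS

/-- Two events depending on complementary sets of coordinates are independent. -/
lemma LawI_indep [Inhabited α] [Inhabited β] (P : ι → Measure α) (Q : ι → Measure β)
    [∀ e, IsProbabilityMeasure (P e)] [∀ e, IsProbabilityMeasure (Q e)] (T1 T2 : Set ι)
    (S A : Set ((ι → α) × (ι → β))) (hS : MeasurableSet S) (hA : MeasurableSet A)
    (hdS : ∀ q q' : (ι → α) × (ι → β), (∀ e ∈ T1, q.1 e = q'.1 e) → (∀ e ∈ T2, q.2 e = q'.2 e) →
      (q ∈ S → q' ∈ S))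
    (hdA : ∀ q q' : (ι → α) × (ι → β), (∀ e ∈ T1ᶜ, q.1 e = q'.1 e) →
      (∀ e ∈ T2ᶜ, q.2 e = q'.2 e) → (q ∈ A → q' ∈ A)) :
    ((Measure.infinitePi P).prod (Measure.infinitePi Q)) (S ∩ A) =
      ((Measure.infinitePi P).prod (Measure.infinitePi Q)) S *
        ((Measure.infinitePi P).prod (Measure.infinitePi Q)) A := by
  have hdj : Disjoint (LawI_T T1 T2) (LawI_T T1ᶜ T2ᶜ) := by
    rw [Set.disjoint_left]
    rintro (e | e) h1 h2
    · exact h2 h1
    · exact h2 h1
  have hI := ProbabilityTheory.indep_iSup_of_disjoint (fun i => lawD_m_le i)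
    (lawD_iIndep P Q) hdj
  exact (ProbabilityTheory.Indep_iff _ _ _).1 hI S A (LawI_meas T1 T2 S hS hdS)
    (LawI_meas T1ᶜ T2ᶜ A hA hdA)

end LawI

variable {d : ℕ}

theorem indep_pair {p s : ℝ} (h0 : 0 ≤ p) (h1 : p ≤ 1) (hs0 : 0 ≤ s) (hs1 : s ≤ 1)
    (T1 T2 : Set (Ed d)) (S A : Set (Cfg d × Cfg d)) (hS : MeasurableSet S) (hA : MeasurableSet A)
    (hdS : ∀ q q' : Cfg d × Cfg d, (∀ e ∈ T1, q.1 e = q'.1 e) → (∀ e ∈ T2, q.2 e = q'.2 e) →
      q ∈ S → q' ∈ S)
    (hdA : ∀ q q' : Cfg d × Cfg d, (∀ e, e ∉ T1 → q.1 e = q'.1 e) →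
      (∀ e, e ∉ T2 → q.2 e = q'.2 e) → q ∈ A → q' ∈ A) :
    (PP d p s).real (S ∩ A) = (PP d p s).real S * (PP d p s).real A := by
  have := isProb_bern h0 h1
  have := isProb_bern hs0 hs1
  have h := LawI_indep (fun _ : Ed d => bern p) (fun _ : Ed d => bern s) T1 T2 S A hS hA hdS hdA
  unfold PP perc
  rw [Measure.real, Measure.real, Measure.real, ← ENNReal.toReal_mul]
  exact congrArg ENNReal.toReal h

theorem indep_manyP {p s : ℝ} (h0 : 0 ≤ p) (h1 : p ≤ 1) (hs0 : 0 ≤ s) (hs1 : s ≤ 1)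
    (n : ℕ) (L : ℕ → Set (Ed d))
    (hL : ∀ i < n, ∀ j < n, i ≠ j → Disjoint (L i) (L j)) (A : ℕ → Set (Cfg d × Cfg d))
    (hA : ∀ i < n, MeasurableSet (A i))
    (hdA : ∀ i < n, ∀ q q' : Cfg d × Cfg d, (∀ e ∈ L i, q.1 e = q'.1 e ∧ q.2 e = q'.2 e) →
      (q ∈ A i → q' ∈ A i)) (δ : ℝ) (hδ : ∀ i < n, (PP d p s).real (A i) ≤ δ) :
    (PP d p s).real {q | ∀ i < n, q ∈ A i} ≤ δ ^ n := by
  have hpp : IsProbabilityMeasure (PP d p s) := isProb_PP h0 h1 hs0 hs1
  induction n with
  | zero =>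
    simp
  | succ n ih =>
    have ih' := ih (fun i hi j hj => hL i (by omega) j (by omega)) (fun i hi => hA i (by omega))
      (fun i hi => hdA i (by omega)) (fun i hi => hδ i (by omega))
    have hset : {q : Cfg d × Cfg d | ∀ i < n + 1, q ∈ A i} =
        {q | ∀ i < n, q ∈ A i} ∩ A n := by
      ext q
      simp only [Set.mem_ofPred_eq, Set.mem_inter_iff]
      constructor
      · intro h
        exact ⟨fun i hi => h i (by omega), h n (by omega)⟩
      · rintro ⟨h2, h3⟩ i hi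
        rcases Nat.lt_succ_iff_lt_or_eq.1 hi with h4 | h4
        · exact h2 i h4
        · exact h4 ▸ h3
    have hm : MeasurableSet {q : Cfg d × Cfg d | ∀ i < n, q ∈ A i} := by
      have h2 : {q : Cfg d × Cfg d | ∀ i < n, q ∈ A i} = ⋂ i, ⋂ (_ : i < n), A i := by
        ext q
        simp
      rw [h2]
      exact MeasurableSet.iInter fun i => MeasurableSet.iInter fun hi => hA i (by omega)
    have hind := indep_pair h0 h1 hs0 hs1 (L n)ᶜ (L n)ᶜ
      {q : Cfg d × Cfg d | ∀ i < n, q ∈ A i} (A n) hm (hA n (by omega)) (by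
        intro q q' h h' hq i hi
        refine hdA i (by omega) q q' (fun e he => ?_) (hq i hi)
        have hne : e ∈ (L n)ᶜ := fun hn =>
          Set.disjoint_left.1 (hL i (by omega) n (by omega) (by omega)) he hn
        exact ⟨h e hne, h' e hne⟩) (by
        intro q q' h h' hq
        refine hdA n (by omega) q q' (fun e he => ?_) hq
        exact ⟨h e (fun hn => hn he), h' e (fun hn => hn he)⟩)
    rw [hset, hind, pow_succ]
    have hδn := hδ n (by omega)
    have hnn : 0 ≤ (PP d p s).real (A n) := measureReal_nonneg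
    have hnn' : 0 ≤ (PP d p s).real {q | ∀ i < n, q ∈ A i} := measureReal_nonneg
    exact mul_le_mul ih' hδn hnn (hnn'.trans ih')

end H95LBS
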