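import Pool.Agent.H95.LBD.Walk

/-!
PROJECT DS (MP_0d9ad5_pr), JOB DS-Dual. The dual walk inequality (section 10 of note 2700).
PROOF. Let `Q` be the measure `∫ dg` on `{0 in an infinite cluster}` (`dg` = degree of `0`), `P` the one-step operator of
the environment seen from the walk (reversible for `dg dP_p`), `ψ_s = (step s)_{i0}`, `φ = P-average of ψ` (bounded).
`b_n` = second moment of the displacement in direction `i0` after `n` steps, `σ_n^2 = ∫ dg b_n`. In H5/DW and LBD/Walk (helper5):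
exact formula `∫ dg b_n = n ‖ψ‖^2 - 2 ∑_{k<n} <φ, a_k>`, `a_k = ∑_{j<k} P^j φ`, moments 4 and `σ_n^2 / n -> D ∫ dg`.
With `(∇g)_s = g∘T_s - g`: `E(ψ + ∇g)^2 = ‖ψ‖^2 - 4<φ,g> + 2<g,g> - 2<g,P g>`. Put `c_m = <φ,P^m φ>`,
`C_k = <φ,a_k> = ∑_{m<k} c_m ≥ 0` and `g = a_N + (1/2) P^N φ`. Then
`E(ψ + ∇g)^2 = ‖ψ‖^2 - (C_{2N} + 2 C_{2N+1} + C_{2N+2}) / 2`; the sum over `N < M` is
`M ‖ψ‖^2 - ∑_{k<2M} C_k - C_{2M} / 2 ≤ (1/2) ∫ dg b_{2M}`. So `2 M c3 ≤ ∫ dg b_{2M}` for every `M`. The
truncation of the square and the fourth moment bound of LBD/Walk give `c3 ≤ D ∫ dg` and `∫ dg ≤ 2 d theta`.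
-/

namespace H95LBS

open H5DF H95LBD MeasureTheory Filter Topology

section DualAbs

variable {Ω : Type*} [MeasurableSpace Ω] {μ : Measure Ω} {S : Type*} [Fintype S] (R : Rev μ S)
  [IsProbabilityMeasure μ] {ψ : S → Ω → ℝ}

omit [IsProbabilityMeasure μ] in
lemma Dual_sq {f : Ω → ℝ} (hf : BM f) : BM (fun ω => f ω ^ 2) := by
  simpa only [sq] using hf.mul hf

lemma Dual_energy {g : Ω → ℝ} (hψ : ∀ s, BM (ψ s))
    (hanti : ∀ s ω, ψ (R.op s) (R.T s ω) = - ψ s ω) (hg : BM g) :
    R.E (fun s ω => (ψ s ω + g (R.T s ω) - g ω) ^ 2) =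
      R.E (fun s ω => ψ s ω ^ 2) - 4 * R.ip (R.av ψ) g + 2 * R.ip g g - 2 * R.ip g (R.P g) := by
  have hgT : ∀ s, BM (fun ω => g (R.T s ω)) := fun s => hg.comp (R.T_meas s)
  have h1 : R.E (fun s ω => g ω * g (R.T s ω)) = R.ip g (R.P g) :=
    (R.ip_av g hg hgT).symm
  have h2 : R.E (fun s ω => g (R.T s ω) * g (R.T s ω)) = R.ip g g := R.E_T (hg.mul hg)
  have h3 : R.E (fun _ ω => g ω * g ω) = R.ip g g := (R.integral_dg_mul (hg.mul hg)).symm
  have h4 : R.E (fun s ω => ψ s ω * g (R.T s ω)) = - R.ip (R.av ψ) g := by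
    rw [R.E_rev (f := fun s ω => ψ s ω * g (R.T s ω)) fun s => (hψ s).mul (hgT s), R.ip_comm,
      R.ip_av _ hg hψ, ← neg_one_mul, ← R.E_smul]
    congr 1
    funext s ω
    rw [hanti, R.T_op]
    ring
  have h5 : R.E (fun s ω => g ω * ψ s ω) = R.ip (R.av ψ) g := by
    rw [R.ip_comm, R.ip_av _ hg hψ]
  have e : (fun s ω => (ψ s ω + g (R.T s ω) - g ω) ^ 2) = fun s ω =>
      ψ s ω ^ 2 + (2 * (ψ s ω * g (R.T s ω)) + ((-2) * (g ω * ψ s ω) +
        (g (R.T s ω) * g (R.T s ω) + ((-2) * (g ω * g (R.T s ω)) + g ω * g ω)))) := by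
    funext s ω
    ring
  have b1 : ∀ s, BM (fun ω => (-2) * (g ω * g (R.T s ω))) := fun s =>
    (BM.const (-2)).mul (hg.mul (hgT s))
  have b2 : ∀ s : S, BM (fun ω => g ω * g ω) := fun _ => hg.mul hg
  have b3 : ∀ s, BM (fun ω => g (R.T s ω) * g (R.T s ω)) := fun s => (hgT s).mul (hgT s)
  have b4 : ∀ s, BM (fun ω => (-2) * (g ω * ψ s ω)) := fun s => (BM.const (-2)).mul (hg.mul (hψ s))
  have b5 : ∀ s, BM (fun ω => 2 * (ψ s ω * g (R.T s ω))) := fun s =>
    (BM.const 2).mul ((hψ s).mul (hgT s))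
  have b6 := fun s => Dual_sq (hψ s)
  have c1 := fun s => (b1 s).add (b2 s)
  have c2 := fun s => (b3 s).add (c1 s)
  have c3 := fun s => (b4 s).add (c2 s)
  have c4 := fun s => (b5 s).add (c3 s)
  rw [e, R.E_add b6 c4, R.E_add b5 c3, R.E_add b4 c2, R.E_add b3 c1, R.E_add b1 b2, R.E_smul,
    R.E_smul, R.E_smul, h1, h2, h3, h4, h5]
  ring

lemma Dual_C (hψ : ∀ s, BM (ψ s)) (n : ℕ) :
    R.ip (R.av ψ) (R.a ψ n) = ∑ m ∈ Finset.range n, R.ip (R.av ψ) (R.P^[m] (R.av ψ)) := by
  have h1 : R.a ψ n = fun ω => ∑ m ∈ Finset.range n, R.P^[m] (R.av ψ) ω :=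
    funext fun ω => R.a_eq n ω
  rw [h1, R.ip_sum_right (R.bm_av hψ) (fun m => R.bm_iter (R.bm_av hψ) m)]

lemma Dual_ai (hψ : ∀ s, BM (ψ s)) (i j : ℕ) :
    R.ip (R.a ψ i) (R.P^[j] (R.av ψ)) =
      ∑ m ∈ Finset.range i, R.ip (R.av ψ) (R.P^[m + j] (R.av ψ)) := by
  have h1 : R.a ψ i = fun ω => ∑ m ∈ Finset.range i, R.P^[m] (R.av ψ) ω :=
    funext fun ω => R.a_eq i ω
  rw [h1, R.ip_comm, R.ip_sum_right (R.bm_iter (R.bm_av hψ) j)
    (fun m => R.bm_iter (R.bm_av hψ) m)]
  refine Finset.sum_congr rfl fun m _ => ?_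
  rw [R.ip_iter (R.bm_av hψ), add_comm]

lemma Dual_ip_add {f h k : Ω → ℝ} (hf : BM f) (hh : BM h) (hk : BM k) :
    R.ip f (fun ω => h ω + k ω) = R.ip f h + R.ip f k := by
  unfold Rev.ip
  rw [← integral_add ((R.bm_dg.mul (hf.mul hh)).integrable μ)
    ((R.bm_dg.mul (hf.mul hk)).integrable μ)]
  refine integral_congr_ae (Filter.Eventually.of_forall fun ω => ?_)
  simp only
  ring

lemma Dual_ip_sub {f h k : Ω → ℝ} (hf : BM f) (hh : BM h) (hk : BM k) :
    R.ip f (fun ω => h ω - k ω) = R.ip f h - R.ip f k := by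
  unfold Rev.ip
  rw [← integral_sub ((R.bm_dg.mul (hf.mul hh)).integrable μ)
    ((R.bm_dg.mul (hf.mul hk)).integrable μ)]
  refine integral_congr_ae (Filter.Eventually.of_forall fun ω => ?_)
  simp only
  ring

lemma Dual_a_succ (n : ℕ) (ω : Ω) :
    R.a ψ (n + 1) ω = R.a ψ n ω + R.P^[n] (R.av ψ) ω := by
  rw [R.a_eq, R.a_eq, Finset.sum_range_succ]

lemma Dual_Pa (n : ℕ) :
    R.P (R.a ψ n) = fun ω => (R.a ψ n ω + R.P^[n] (R.av ψ) ω) - R.av ψ ω := by
  funext ω
  rw [← Dual_a_succ, Rev.a, R.av_add, add_sub_cancel_left]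
  rfl

/-- the energy of the test function -/
lemma Dual_test (hψ : ∀ s, BM (ψ s)) (hanti : ∀ s ω, ψ (R.op s) (R.T s ω) = - ψ s ω) (N : ℕ) :
    ∃ g : Ω → ℝ, BM g ∧ R.E (fun s ω => (ψ s ω + g (R.T s ω) - g ω) ^ 2) =
      R.E (fun s ω => ψ s ω ^ 2) - 2 * R.ip (R.av ψ) (R.a ψ (2 * N)) -
        3 / 2 * R.ip (R.av ψ) (R.P^[2 * N] (R.av ψ)) -
        1 / 2 * R.ip (R.av ψ) (R.P^[2 * N + 1] (R.av ψ)) := by
  set φ := R.av ψ with hφd
  have hφ : BM φ := R.bm_av hψ
  set A := R.a ψ N with hA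
  set q := R.P^[N] φ with hq
  have bA : BM A := R.bm_a hψ N
  have bq : BM q := R.bm_iter hφ N
  have bPA : BM (R.P A) := R.bm_P bA
  have bPq : BM (R.P q) := R.bm_P bq
  set g : Ω → ℝ := fun ω => A ω - (-(1 / 2)) * q ω with hg
  have bg : BM g := bA.sub ((BM.const _).mul bq)
  refine ⟨g, bg, ?_⟩
  rw [Dual_energy R hψ hanti bg]
  have hPg : R.P g = fun ω => R.P A ω - (-(1 / 2)) * R.P q ω := by
    funext ω
    exact R.av_lin (fun s ω => A (R.T s ω)) (fun s ω => q (R.T s ω)) (-(1 / 2)) ω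
  have hPA : R.P A = fun ω => (A ω + q ω) - φ ω := Dual_Pa R N
  have hPq : R.P q = R.P^[N + 1] φ := by
    rw [hq, Function.iterate_succ_apply' (f := R.P)]
  set c : ℕ → ℝ := fun m => R.ip φ (R.P^[m] φ) with hc
  have e1 : R.ip g g = R.ip A A - (-(1 / 2)) * R.ip A q - (-(1 / 2)) * R.ip q A +
      (-(1 / 2)) ^ 2 * R.ip q q := R.ip_lin_lin bA bq bA bq _
  have e2 : R.ip g (R.P g) = R.ip A (R.P A) - (-(1 / 2)) * R.ip A (R.P q) -
      (-(1 / 2)) * R.ip q (R.P A) + (-(1 / 2)) ^ 2 * R.ip q (R.P q) := by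
    rw [hPg]
    exact R.ip_lin_lin bA bq bPA bPq _
  have e3 : R.ip A (R.P A) = R.ip A A + R.ip A q - R.ip A φ := by
    rw [hPA, Dual_ip_sub R bA (bA.add bq) hφ, Dual_ip_add R bA bA bq]
  have e4 : R.ip q (R.P A) = R.ip q A + R.ip q q - R.ip q φ := by
    rw [hPA, Dual_ip_sub R bq (bA.add bq) hφ, Dual_ip_add R bq bA bq]
  have e5 : R.ip φ g = R.ip φ A + 1 / 2 * R.ip φ q := by
    have h := R.ip_lin_lin hφ (BM.const 0) bA bq (-(1 / 2))
    have z : ∀ f : Ω → ℝ, R.ip (fun _ => 0) f = 0 := by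
      intro f
      simp [Rev.ip]
    rw [z, z] at h
    simp only [mul_zero, sub_zero] at h
    rw [h]
    ring
  have f1 : R.ip φ A = ∑ m ∈ Finset.range N, c m := Dual_C R hψ N
  have f2 : R.ip A q = ∑ m ∈ Finset.range N, c (m + N) := Dual_ai R hψ N N
  have f3 : R.ip A (R.P q) = ∑ m ∈ Finset.range N, c (m + (N + 1)) := by
    rw [hPq]
    exact Dual_ai R hψ N (N + 1)
  have f4 : R.ip φ q = c N := rfl
  have f5 : R.ip q q = c (2 * N) := by
    rw [hq, R.ip_iter hφ, ← two_mul]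
  have f6 : R.ip q (R.P q) = c (2 * N + 1) := by
    rw [hPq, hq, R.ip_iter hφ]
    simp only [hc]
    congr 2
    omega
  have f7 : R.ip φ (R.a ψ (2 * N)) = ∑ m ∈ Finset.range (2 * N), c m := Dual_C R hψ (2 * N)
  have g1 : ∑ m ∈ Finset.range (2 * N), c m =
      (∑ m ∈ Finset.range N, c m) + ∑ m ∈ Finset.range N, c (m + N) := by
    rw [two_mul, Finset.sum_range_add]
    simp only [add_comm N]
  have g2 : (∑ m ∈ Finset.range N, c (m + (N + 1))) + c N =
      (∑ m ∈ Finset.range N, c (m + N)) + c (2 * N) := by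
    have h1 := Finset.sum_range_succ' (fun m => c (m + N)) N
    have h2 := Finset.sum_range_succ (fun m => c (m + N)) N
    rw [h2] at h1
    simp only [zero_add] at h1
    rw [two_mul, h1]
    congr 1
    refine Finset.sum_congr rfl fun m _ => ?_
    congr 1
    omega
  have i1 : R.ip q A = R.ip A q := R.ip_comm _ _
  have i2 : R.ip A φ = R.ip φ A := R.ip_comm _ _
  have i3 : R.ip q φ = R.ip φ q := R.ip_comm _ _
  change _ = R.E (fun s ω => ψ s ω ^ 2) - 2 * R.ip φ (R.a ψ (2 * N)) - 3 / 2 * c (2 * N) -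
    1 / 2 * c (2 * N + 1)
  rw [e1, e2, e3, e4, e5, f7, g1, i1, i2, i3, f1, f2, f3, f4, f5, f6]
  linarith

/-- the lower bound of the second moment by the variational constant -/
lemma Dual_low (hψ : ∀ s, BM (ψ s)) (hanti : ∀ s ω, ψ (R.op s) (R.T s ω) = - ψ s ω) (c3 : ℝ)
    (hc : ∀ g : Ω → ℝ, BM g → c3 ≤ R.E (fun s ω => (ψ s ω + g (R.T s ω) - g ω) ^ 2)) (M : ℕ) :
    (2 * M : ℕ) * c3 ≤ ∫ ω, R.dg ω * R.b ψ (2 * M) ω ∂μ := by
  rw [R.b_eq hψ hanti]
  set Ψ := R.E (fun s ω => ψ s ω ^ 2) with hΨ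
  have hN : ∀ N : ℕ, c3 ≤ Ψ - 2 * R.ip (R.av ψ) (R.a ψ (2 * N)) -
        3 / 2 * R.ip (R.av ψ) (R.P^[2 * N] (R.av ψ)) -
        1 / 2 * R.ip (R.av ψ) (R.P^[2 * N + 1] (R.av ψ)) := by
    intro N
    obtain ⟨g, bg, hg⟩ := Dual_test R hψ hanti N
    rw [← hg]
    exact hc g bg
  have hC : ∀ k, R.ip (R.av ψ) (R.a ψ (k + 1)) =
      R.ip (R.av ψ) (R.a ψ k) + R.ip (R.av ψ) (R.P^[k] (R.av ψ)) := by
    intro k
    rw [Dual_C R hψ, Dual_C R hψ, Finset.sum_range_succ]
  have key : ∀ M : ℕ, (M : ℝ) * c3 ≤ M * Ψ - (∑ k ∈ Finset.range (2 * M),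
      R.ip (R.av ψ) (R.a ψ k)) - 1 / 2 * R.ip (R.av ψ) (R.a ψ (2 * M)) := by
    intro M
    induction M with
    | zero =>
      have : R.ip (R.av ψ) (R.a ψ 0) = 0 := by
        rw [Dual_C R hψ]
        simp
      simp [this]
    | succ M ih =>
      have h1 := hN M
      have h2 : 2 * (M + 1) = 2 * M + 1 + 1 := by ring
      rw [h2, Finset.sum_range_succ, Finset.sum_range_succ, hC (2 * M + 1), hC (2 * M)]
      push_cast
      linarith
  have h1 := key M
  have h2 := R.ip_a_nonneg hψ (2 * M)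
  push_cast
  linarith

end DualAbs

variable {d : ℕ}

theorem dual_walk (i0 : Fin d) (p : ℝ) (h0 : 0 ≤ p) (h1 : p ≤ 1) (D : NNReal)
    (hD : HasDiffusivity d p D) (c3 : ℝ)
    (hc : ∀ g : Cfg d → ℝ, Measurable g → (∃ K : ℝ, ∀ ω, |g ω| ≤ K) →
      c3 ≤ ∑ s : Dir d, ∫ ω in {ω : Cfg d | (cluster ω 0).Infinite ∧ ω (edge 0 s) = true},
        ((((step s : V d) i0 : ℤ) : ℝ) + g (shift (step s) ω) - g ω) ^ 2 ∂(perc d p)) :
    c3 ≤ D * (2 * d * theta d p) := by
  have hpb := isProb_bern h0 h1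
  have hpp : IsProbabilityMeasure (perc d p) := by unfold perc; infer_instance
  set R : Rev (perc d p) (Dir d) := RX h0 h1 (perc d p) (fun a => shift a)
    (fun a => measurable_shift a) (fun a => perc_shift p h0 h1 a) shift_zero shift_shift
    (fun ω => ω) measurable_id (fun _ _ => rfl) with hR
  set P0 : Rev (perc d p) (Dir d) := RP p h0 h1 with hP0
  set ψ : Dir d → Cfg d → ℝ := fun s _ => (((step s : V d) i0 : ℤ) : ℝ) with hψd
  have hψ : ∀ s, BM (ψ s) := fun s => BM.const _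
  have hψ1 : ∀ s X, |ψ s X| ≤ 1 := fun s X => step_abs i0 s
  have hψa : ∀ s X, ψ (R.op s) (R.T s X) = - ψ s X := by
    intro s X
    have h := step_opp s
    simp only [hψd]
    change (((step (opp s) : V d) i0 : ℤ) : ℝ) = _
    rw [h]
    simp
  have hwm : ∀ s (f : Cfg d → ℝ) (X : Cfg d), R.w s X * f X = (CO s).indicator f X := by
    intro s f X
    change (RP p h0 h1).w s X * f X = _
    rw [RP_w_eq]
    by_cases h : X ∈ CO s
    · rw [Set.indicator_of_mem h, Set.indicator_of_mem h, one_mul]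
    · rw [Set.indicator_of_notMem h, Set.indicator_of_notMem h, zero_mul]
  have hEf : ∀ f : Dir d → Cfg d → ℝ, R.E f = ∑ s : Dir d, ∫ X in CO s, f s X ∂(perc d p) := by
    intro f
    unfold Rev.E
    refine Finset.sum_congr rfl fun s _ => ?_
    rw [← integral_indicator (meas_CO s)]
    refine integral_congr_ae (Eventually.of_forall fun X => ?_)
    exact hwm s (f s) X
  set Q := ∫ X, R.dg X ∂(perc d p) with hQ
  have hQ0 : 0 ≤ Q := integral_nonneg fun X => R.dg_nonneg X
  -- lower bound for the second moment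
  have hlow : ∀ k : ℕ, (2 * k : ℕ) * c3 ≤ ∫ X, R.dg X * R.b ψ (2 * k) X ∂(perc d p) := by
    intro k
    refine Dual_low R hψ hψa c3 (fun g hg => ?_) k
    rw [hEf]
    exact hc g hg.1 hg.2
  -- truncation
  have hdgi : Integrable R.dg (perc d p) := R.bm_dg.integrable _
  have hmain : ∀ M : ℝ, 0 < M → c3 ≤ Q * D + 243 * Q / M := by
    intro M hM
    set m := ∫ t, min (t ^ 2) M ∂(ProbabilityTheory.gaussianReal 0 D) with hm
    set f : ℕ → V d → ℝ := fun n x => fM i0 M hM.le (fun i => (x i : ℝ) / Real.sqrt n) with hf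
    set F : ℕ → Cfg d → ℝ := fun n ω => P0.dg ω * walkE ω n (f n) 0 with hF
    have hFm : ∀ n, Measurable (F n) := fun n => P0.bm_dg.1.mul (meas_walkE n _ 0)
    have hfM : ∀ y, |fM i0 M hM.le y| ≤ M := by
      intro y
      rw [fM_apply, abs_of_nonneg (le_min (sq_nonneg _) hM.le)]
      exact min_le_right _ _
    have hFb : ∀ n ω, ‖F n ω‖ ≤ P0.dg ω * M := by
      intro n ω
      rw [Real.norm_eq_abs, hF, abs_mul, abs_of_nonneg (P0.dg_nonneg ω)]
      by_cases hω : (cluster ω 0).Infinite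
      · exact mul_le_mul_of_nonneg_left (walk_abs_le M hM.le n hω _ fun y => hfM _)
          (P0.dg_nonneg ω)
      · rw [hP0, RP_dg_zero h0 h1 hω, zero_mul, zero_mul]
    have hdgP : Integrable P0.dg (perc d p) := P0.bm_dg.integrable _
    have hlim : Tendsto (fun n => ∫ ω, F n ω ∂(perc d p)) atTop
        (𝓝 (∫ ω, P0.dg ω * m ∂(perc d p))) := by
      refine tendsto_integral_of_dominated_convergence (fun ω => P0.dg ω * M)
        (fun n => (hFm n).aestronglyMeasurable) (hdgP.mul_const M)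
        (fun n => Eventually.of_forall (hFb n)) ?_
      filter_upwards [hD] with ω hω
      by_cases hinf : (cluster ω 0).Infinite
      · have h2 := hω hinf (fM i0 M hM.le)
        rw [int_fM] at h2
        exact h2.const_mul _
      · have h3 : ∀ n, F n ω = 0 := by
          intro n
          simp only [hF]
          rw [hP0, RP_dg_zero h0 h1 hinf, zero_mul]
        have h4 : P0.dg ω * m = 0 := by
          rw [hP0, RP_dg_zero h0 h1 hinf, zero_mul]
        rw [h4]
        simp only [h3]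
        exact tendsto_const_nhds
    rw [integral_mul_const] at hlim
    have hQP : ∫ ω, P0.dg ω ∂(perc d p) = Q := rfl
    rw [hQP] at hlim
    have hmD : m ≤ D := by
      have hL : MemLp id 2 (ProbabilityTheory.gaussianReal 0 D) :=
        ProbabilityTheory.memLp_id_gaussianReal 2
      have hint : Integrable (fun t : ℝ => t ^ 2) (ProbabilityTheory.gaussianReal 0 D) := by
        simpa using hL.integrable_sq
      have hval : ∫ t, t ^ 2 ∂(ProbabilityTheory.gaussianReal 0 D) = (D : ℝ) := by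
        have h1 := ProbabilityTheory.variance_id_gaussianReal (μ := 0) (v := D)
        rw [ProbabilityTheory.variance_eq_integral measurable_id.aemeasurable] at h1
        simpa using h1
      rw [← hval, hm]
      refine integral_mono_of_nonneg (Eventually.of_forall fun t => le_min (sq_nonneg _) hM.le) hint
        (Eventually.of_forall fun t => min_le_left _ _)
    have hn : ∀ k : ℕ, 0 < k → c3 ≤ ∫ ω, F (2 * k) ω ∂(perc d p) + 243 * Q / M := by
      intro k hk
      have hlk := hlow k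
      have hn0 : 0 < 2 * k := by omega
      set n := 2 * k with hnk
      have hn' : (0 : ℝ) < n := by exact_mod_cast hn0
      have hpt : ∀ X, 1 / n * (R.dg X * R.b ψ n X) ≤
          F n X + 1 / (n ^ 2 * M) * (R.dg X * R.q4 ψ n X) := by
        intro X
        by_cases hX : (cluster X 0).Infinite
        · have hdg : R.dg X ≠ 0 := by
            have e : R.dg X = deg X 0 := RP_dg h0 h1 hX
            rw [e]
            have := one_le_deg hX
            linarith
          obtain ⟨-, e2, -, e4⟩ := R.ex_all ψ n hdg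
          have h5 : R.ex n (fun l => 1 / n * R.sumL ψ l X ^ 2) X ≤ R.ex n (fun l =>
              f n (ssum l) + 1 / (n ^ 2 * M) * R.sumL ψ l X ^ 4) X := by
            refine R.ex_mono n (fun l => ?_) X
            have e5 : R.sumL ψ l X = ((ssum l i0 : ℤ) : ℝ) :=
              sumL_ssum h0 h1 _ _ _ _ _ _ _ _ _ i0 l X
            rw [e5, hf]
            simp only [fM_apply]
            exact trunc_ineq hn' hM
          rw [R.ex_smul, R.ex_add, R.ex_smul, e2, e4] at h5
          have e6 : R.ex n (fun l => f n (ssum l)) X = walkE X n (f n) 0 :=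
            (walk_ex h0 h1 (perc d p) (fun a => shift a)
              (fun a => measurable_shift a) (fun a => perc_shift p h0 h1 a) shift_zero shift_shift
              (fun ω => ω) measurable_id (fun _ _ => rfl) n (f n) hX).symm
          rw [e6] at h5
          have h7 := mul_le_mul_of_nonneg_left h5 (R.dg_nonneg X)
          have e8 : F n X = R.dg X * walkE X n (f n) 0 := rfl
          rw [e8]
          linarith
        · have e : R.dg X = 0 := RP_dg_zero h0 h1 hX
          have e8 : F n X = R.dg X * walkE X n (f n) 0 := rfl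
          rw [e8, e]
          simp
      have i1 : Integrable (fun X => R.dg X * R.b ψ n X) (perc d p) :=
        (R.bm_dg.mul (R.bm_b hψ n)).integrable _
      have i2 : Integrable (fun X => R.dg X * R.q4 ψ n X) (perc d p) :=
        (R.bm_dg.mul (R.bm_q4 hψ n)).integrable _
      have i3 : Integrable (F n) (perc d p) := by
        refine Integrable.mono' (hdgP.mul_const M) (hFm n).aestronglyMeasurable ?_
        exact Eventually.of_forall fun X => hFb n X
      have h9 : ∫ X, 1 / n * (R.dg X * R.b ψ n X) ∂(perc d p) ≤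
          ∫ X, (F n X + 1 / (n ^ 2 * M) * (R.dg X * R.q4 ψ n X)) ∂(perc d p) :=
        integral_mono (i1.const_mul _) (i3.add (i2.const_mul _)) hpt
      rw [integral_add i3 (i2.const_mul _), integral_const_mul, integral_const_mul] at h9
      have h10 := R.fourth hψ hψ1 hψa hn0
      have h12 : c3 ≤ 1 / n * ∫ X, R.dg X * R.b ψ n X ∂(perc d p) := by
        rw [one_div, inv_mul_eq_div, le_div_iff₀ hn']
        linarith
      have h13 : 1 / (n ^ 2 * M) * ∫ X, R.dg X * R.q4 ψ n X ∂(perc d p) ≤ 243 * Q / M := by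
        calc 1 / (n ^ 2 * M) * ∫ X, R.dg X * R.q4 ψ n X ∂(perc d p) ≤
              1 / (n ^ 2 * M) * (243 * n ^ 2 * Q) :=
              mul_le_mul_of_nonneg_left h10 (by positivity)
          _ = 243 * Q / M := by
              field_simp
      linarith
    have h2k : Tendsto (fun k : ℕ => 2 * k) atTop atTop :=
      tendsto_id.const_mul_atTop' two_pos
    have hge : c3 ≤ Q * m + 243 * Q / M := by
      refine ge_of_tendsto ((hlim.comp h2k).add_const (243 * Q / M)) ?_
      filter_upwards [eventually_gt_atTop 0] with n hn0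
      exact hn n hn0
    have h14 : Q * m ≤ Q * D := mul_le_mul_of_nonneg_left hmD hQ0
    linarith
  have hlimM : Tendsto (fun k : ℕ => Q * D + 243 * Q / k) atTop (𝓝 (Q * D + 0)) :=
    tendsto_const_nhds.add (tendsto_const_div_atTop_nhds_zero_nat _)
  rw [add_zero] at hlimM
  have hfin : c3 ≤ Q * D := by
    refine ge_of_tendsto hlimM ?_
    filter_upwards [eventually_gt_atTop 0] with k hk
    exact hmain k (by exact_mod_cast hk)
  have hQd : Q ≤ 2 * d * theta d p := by
    have h15 : ∀ X, R.dg X ≤ {ω : Cfg d | (cluster ω 0).Infinite}.indicator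
        (fun _ => (2 * d : ℝ)) X := by
      intro X
      by_cases hX : (cluster X 0).Infinite
      · rw [Set.indicator_of_mem (show X ∈ {ω : Cfg d | (cluster ω 0).Infinite} from hX)]
        unfold Rev.dg
        refine (Finset.sum_le_sum fun s _ => R.w_le s X).trans (le_of_eq ?_)
        simp [Fintype.card_prod]
        ring
      · rw [Set.indicator_of_notMem (show X ∉ {ω : Cfg d | (cluster ω 0).Infinite} from hX)]
        exact (RP_dg_zero h0 h1 hX).le
    calc Q ≤ ∫ X, {ω : Cfg d | (cluster ω 0).Infinite}.indicator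
          (fun _ => (2 * d : ℝ)) X ∂(perc d p) :=
          integral_mono hdgi ((integrable_const _).indicator (meas_inf 0)) h15
      _ = 2 * d * theta d p := by
          rw [integral_indicator_const _ (meas_inf 0), smul_eq_mul, mul_comm]
          rfl
  have hfin2 := mul_le_mul_of_nonneg_right hQd D.coe_nonneg
  linarith

end H95LBS
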