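import Pool.Agent.H95.LBS.Def
import Pool.Agent.H95.LBD.DecA
import Pool.Agent.H5.DF.Energy2
import Pool.Agent.H95.LBD.DecC
import Pool.Agent.H95.LBD.TreeB

/-!
PROJECT DS (MP_0d9ad5_pr), JOB DS-ArmDec. Decomposition of two arms (deterministic, section 1c of note 2700).
PROOF. `P` a path (no repeated vertex) from `y1` to `z`, `nm (z - y1) >= N`; `Q` a path from `y2` to `z'`;
`v` = first vertex of `Q` on `P` (none: the two paths are edge-disjoint). `Q1` = part of `Q` before `v` (edge-disjoint
from `P`), `P1`, `P2` = parts of `P` before and after `v`. If `Q1` leaves `Bx y1 (2n)`: `Q1` is an arm of `y2`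
(length `>= n`), `P` an arm of `y1`. If `Q1` stays and `P1` leaves `Bx y1 (2n)`: `P1` is an arm of `y1` and
`Q1 P2` an arm of `y2`, edge-disjoint. Otherwise the tree term. See `tree_dec` (LBD/DecA) for the way to
produce the witness `c`. `arm_far`: `c e := e in ins (Bx y1 n)`; an arm contains an arm of length exactly `n` inside
the ball of radius `n`.
-/

namespace H95LBS

open H5DF H95LBD MeasureTheory

variable {d : ℕ}

/-- A long arm contains an arm of length exactly `n` inside the ball of radius `n`. -/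
lemma armDec_in {ω : Cfg d} {y z : V d} (n : ℕ) (h : z ∈ cluster ω y) (hz : n ≤ nm (z - y)) :
    ∃ w, nm (w - y) = n ∧ Cn (Bx y n) ω y w := by
  have hy : y ∈ Bx y n := by rw [mem_Bx, sub_self, nm_zero]; exact Nat.zero_le _
  have key : Cn (Bx y n) ω y z ∨ ∃ w, nm (w - y) = n ∧ Cn (Bx y n) ω y w := by
    refine Cn.ind (S := Set.univ) (ω := ω) (x := y)
      (fun z => Cn (Bx y n) ω y z ∨ ∃ w, nm (w - y) = n ∧ Cn (Bx y n) ω y w)
      (Or.inl (Cn.refl _ _ _)) ?_ (Cn_univ.2 h)
    intro v s _ hv _ _ ho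
    rcases hv with hv | hv
    · have hvB : nm (v - y) ≤ n := hv.mem hy
      by_cases hs : v + step s ∈ Bx y n
      · exact Or.inl (hv.trans (Cn.one ho hvB hs))
      · refine Or.inr ⟨v, le_antisymm hvB ?_, hv⟩
        rw [mem_Bx, not_le] at hs
        have h1 := nm_add_step (v - y) s
        have h2 : v - y + step s = v + step s - y := by abel
        rw [h2] at h1
        omega
    · exact Or.inr hv
  rcases key with h1 | h1
  · exact ⟨z, le_antisymm (h1.mem hy) hz, h1⟩
  · exact h1

lemma armDec_tr {S : Set (V d)} {ω ω' : Cfg d} {x y : V d} (R : (G ω).Walk x y)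
    (hS : ∀ u ∈ R.support, u ∈ S)
    (h : ∀ e : Ed d, ω e = true → decA_sym e ∈ R.edges → ω' e = true) : Cn S ω' x y := by
  refine decA_tr (ω' := cut S ω') R ?_
  intro e h1 h2
  rw [cut_true]
  exact ⟨h e h1 h2, hS _ (R.fst_mem_support_of_mem_edges h2),
    hS _ (R.snd_mem_support_of_mem_edges h2)⟩

lemma armDec_ar {ω ω' : Cfg d} {x y u : V d} {n : ℕ} (R : (G ω).Walk x y) (hu : u ∈ R.support)
    (hn : n ≤ nm (u - x)) (h : ∀ e : Ed d, ω e = true → decA_sym e ∈ R.edges → ω' e = true) :
    ω' ∈ Ar x n := by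
  classical
  refine ⟨u, hn, decA_tr (R.takeUntil u hu) ?_⟩
  intro e h1 h2
  exact h e h1 (R.edges_takeUntil_subset_edges hu h2)

theorem arm_dec (y1 y2 : V d) (n N : ℕ) (hn : 1 ≤ n) (hN : 4 * n ≤ N) (h : nm (y1 - y2) ≤ n) :
    Ar y1 N ∩ Ar y2 N ⊆ disj (Ar y1 n) (Ar y2 n) ∪
      ⋃ v ∈ BF y1 (2 * n), disj (SCn {y1} (Bx y1 (2 * n)) v)
        (disj (SCn {y2} (Bx y1 (2 * n)) v) (Ar v n)) := by
  classical
  rintro ω ⟨⟨z, hz, h1⟩, ⟨z', hz', h2⟩⟩
  obtain ⟨P, hP⟩ := SimpleGraph.Reachable.exists_isPath (G := G ω) h1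
  obtain ⟨Q⟩ : (G ω).Reachable y2 z' := h2
  have hPz : n ≤ nm (z - y1) := by omega
  by_cases hQ : ∃ v ∈ Q.support, v ∈ P.support
  swap
  · -- `Q` does not meet `P`
    push Not at hQ
    refine Or.inl ⟨fun e => decide (decA_sym e ∈ P.edges), ?_, ?_⟩
    · refine armDec_ar P P.end_mem_support hPz ?_
      intro e h1 h2
      simp [h1, h2]
    · refine armDec_ar Q Q.end_mem_support (n := n) (by omega) ?_
      intro e h1 h2
      have h3 : decA_sym e ∉ P.edges := fun h3 =>
        hQ _ (Q.fst_mem_support_of_mem_edges h2) (P.fst_mem_support_of_mem_edges h3)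
      simp [h1, h3]
  · obtain ⟨v0, hv0, hv0'⟩ := hQ
    obtain ⟨v, hv, R, hR⟩ := decA_first {z | z ∈ P.support} (Q.takeUntil v0 hv0) hv0'
    have hv' : v ∈ P.support := hv
    have hRP : ∀ e ∈ R.edges, e ∉ P.edges := by
      intro e he heP
      obtain ⟨a, ha, haS⟩ := hR e he
      exact haS (SimpleGraph.Walk.mem_support_of_mem_edges heP ha)
    have hspec := P.take_spec hv'
    have hnd : ((P.takeUntil v hv').edges ++ (P.dropUntil v hv').edges).Nodup := by
      rw [← SimpleGraph.Walk.edges_append, hspec]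
      exact hP.isTrail.edges_nodup
    have hdis : ∀ e ∈ (P.takeUntil v hv').edges, e ∉ (P.dropUntil v hv').edges := by
      intro e he he'
      exact (List.disjoint_of_nodup_append hnd) he he'
    have hsubT : ∀ e ∈ (P.takeUntil v hv').edges, e ∈ P.edges := by
      intro e he
      rw [← hspec, SimpleGraph.Walk.edges_append]
      exact List.mem_append_left _ he
    have hsubD : ∀ e ∈ (P.dropUntil v hv').edges, e ∈ P.edges := by
      intro e he
      rw [← hspec, SimpleGraph.Walk.edges_append]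
      exact List.mem_append_right _ he
    by_cases hRB : ∀ u ∈ R.support, u ∈ Bx y1 (2 * n)
    swap
    · push Not at hRB
      obtain ⟨u, hu, huB⟩ := hRB
      rw [mem_Bx, not_le] at huB
      refine Or.inl ⟨fun e => decide (decA_sym e ∈ P.edges), ?_, ?_⟩
      · refine armDec_ar P P.end_mem_support hPz ?_
        intro e h1 h2
        simp [h1, h2]
      · have h3 : n ≤ nm (u - y2) := by
          have := nm_tri u y2 y1
          rw [nm_sub_comm y2 y1] at this
          omega
        refine armDec_ar R hu h3 ?_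
        intro e h1 h2
        simp [h1, hRP _ h2]
    · by_cases hPB : ∀ u ∈ (P.takeUntil v hv').support, u ∈ Bx y1 (2 * n)
      swap
      · push Not at hPB
        obtain ⟨u, hu, huB⟩ := hPB
        rw [mem_Bx, not_le] at huB
        refine Or.inl ⟨fun e => decide (decA_sym e ∈ (P.takeUntil v hv').edges), ?_, ?_⟩
        · refine armDec_ar (P.takeUntil v hv') hu (by omega) ?_
          intro e h1 h2
          simp [h1, h2]
        · have h3 : n ≤ nm (z - y2) := by
            have := nm_tri z y2 y1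
            rw [nm_sub_comm y2 y1] at this
            omega
          refine armDec_ar (R.append (P.dropUntil v hv')) (SimpleGraph.Walk.end_mem_support _) h3 ?_
          intro e h1 h2
          rw [SimpleGraph.Walk.edges_append, List.mem_append] at h2
          have h4 : decA_sym e ∉ (P.takeUntil v hv').edges := by
            intro h5
            rcases h2 with h2 | h2
            · exact hRP _ h2 (hsubT _ h5)
            · exact hdis _ h5 h2
          simp [h1, h4]
      · have hvB : nm (v - y1) ≤ 2 * n := hRB v R.end_mem_support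
        refine Or.inr ?_
        simp only [Set.mem_iUnion]
        refine ⟨v, mem_BF.2 hvB, fun e => decide (decA_sym e ∈ (P.takeUntil v hv').edges), ?_, ?_⟩
        · refine ⟨_, Finset.mem_singleton_self _, armDec_tr (P.takeUntil v hv') hPB ?_⟩
          intro e h1 h2
          simp [h1, h2]
        · refine ⟨fun e => decide (decA_sym e ∈ R.edges), ?_, ?_⟩
          · refine ⟨_, Finset.mem_singleton_self _, armDec_tr R hRB ?_⟩
            intro e h1 h2
            have h3 : decA_sym e ∉ (P.takeUntil v hv').edges := fun h => hRP _ h2 (hsubT _ h)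
            simp [h1, h2, h3]
          · have h3 : n ≤ nm (z - v) := by
              have := nm_tri z v y1
              omega
            refine armDec_ar (P.dropUntil v hv') (SimpleGraph.Walk.end_mem_support _) h3 ?_
            intro e h1 h2
            have h4 : decA_sym e ∉ (P.takeUntil v hv').edges := fun h => hdis _ h h2
            have h5 : decA_sym e ∉ R.edges := fun h => hRP _ h (hsubD _ h2)
            simp [h1, h4, h5]

theorem arm_far (y1 y2 : V d) (n N : ℕ) (hN : n ≤ N) (h : 2 * n < nm (y1 - y2)) :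
    Ar y1 N ∩ Ar y2 N ⊆ disj (Ar y1 n) (Ar y2 n) := by
  classical
  rintro ω ⟨⟨z1, hz1, h1⟩, ⟨z2, hz2, h2⟩⟩
  obtain ⟨w1, hw1, g1⟩ := armDec_in n h1 (hN.trans hz1)
  obtain ⟨w2, hw2, g2⟩ := armDec_in n h2 (hN.trans hz2)
  refine ⟨fun e => decide (e ∈ ins (Bx y1 n)), ⟨w1, hw1.ge, ?_⟩, ⟨w2, hw2.ge, ?_⟩⟩
  · refine Cn.cluster (S := Bx y1 n) (g1.congr ?_)
    intro e he
    simp [he]
  · refine Cn.cluster (S := Bx y2 n) (g2.congr ?_)
    intro e he
    have : e ∉ ins (Bx y1 n) := by
      intro he'
      have a1 : nm (e.1 - y1) ≤ n := he'.1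
      have a2 : nm (e.1 - y2) ≤ n := he.1
      have a3 := nm_tri y1 e.1 y2
      rw [nm_sub_comm y1 e.1] at a3
      omega
    simp [this]

theorem Ar_fw (x : V d) (r : ℕ) : Fw (Ar x r) := by
  rintro ω ⟨z, hz, h⟩
  obtain ⟨n, u, hu, hn⟩ := SCn_fw {x} Set.univ z ω ⟨x, Finset.mem_singleton_self _, Cn_univ.2 h⟩
  rw [Finset.mem_singleton] at hu
  subst hu
  exact ⟨n, z, hz, Cn_univ.1 hn⟩

end H95LBS
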