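import Pool.Agent.H95.LBS.Def
import Pool.Agent.H95.LBD.SumB
import Pool.Agent.H95.LBD.SumC
import Pool.Agent.H95.LBD.SumD
import Pool.Agent.H5.DF.Energy2
import Pool.Agent.H95.LBD.DecC
import Pool.Agent.H95.LBD.TreeB

/-!
PROJECT DS (MP_0d9ad5_pr), JOB DS-SumK. Lattice sums.
PROOF. `card_shell` and sums over shells; `sk1` from `sum_ball` (if `w` is far from `z` bound the kernel by a
constant times its value at the distance, else enlarge the ball around `w`); `sk2` from `conv2`; `sk3`: from `sk2`,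
`(1+|u-w|)^2 <= (1+2n)^2`; the other ones by shells.
-/

namespace H95LBS

open H5DF H95LBD MeasureTheory

variable {d : ℕ}

/-- sum over shells -/
lemma SumK_shell {C : ℝ}
    (h : ∀ n : ℕ, (((Box d n).filter fun v => nm v = n).card : ℝ) ≤ C * (1 + n) ^ (d - 1))
    (f : ℕ → ℝ) (hf : ∀ k, 0 ≤ f k) (n : ℕ) :
    ∑ v ∈ Box d n, f (nm v) ≤ ∑ k ∈ Finset.range (n + 1), C * (1 + (k : ℝ)) ^ (d - 1) * f k := by
  classical
  have h1 : ∑ v ∈ Box d n, f (nm v) =
      ∑ k ∈ Finset.range (n + 1), ∑ v ∈ (Box d n).filter (fun v => nm v = k), f (nm v) := by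
    rw [Finset.sum_fiberwise_of_maps_to]
    intro v hv
    rw [mem_Box'] at hv
    exact Finset.mem_range.2 (by omega)
  rw [h1]
  refine Finset.sum_le_sum fun k hk => ?_
  have hkn : k ≤ n := by
    have := Finset.mem_range.1 hk
    omega
  have h3 : (Box d n).filter (fun v => nm v = k) = (Box d k).filter (fun v => nm v = k) := by
    ext v
    simp only [Finset.mem_filter, mem_Box']
    constructor
    · rintro ⟨-, h⟩
      exact ⟨h.le, h⟩
    · rintro ⟨-, h⟩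
      exact ⟨by omega, h⟩
  have h4 : ∑ v ∈ (Box d n).filter (fun v => nm v = k), f (nm v) =
      ((Box d k).filter (fun v => nm v = k)).card • f k := by
    rw [h3]
    apply Finset.sum_eq_card_nsmul
    intro v hv
    rw [(Finset.mem_filter.1 hv).2]
  rw [h4, nsmul_eq_mul]
  exact mul_le_mul_of_nonneg_right (h k) (hf k)

lemma SumK_tele (r : ℝ) (hr : 1 ≤ r) (n : ℕ) :
    ∑ k ∈ Finset.range n, 1 / (r + (k : ℝ)) ^ 2 ≤ 2 * (1 / r - 1 / (r + n)) := by
  induction n with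
  | zero => simp
  | succ n ih =>
    rw [Finset.sum_range_succ]
    have hn : (0 : ℝ) ≤ n := Nat.cast_nonneg n
    have h1 : 1 / (r + (n : ℝ)) ^ 2 ≤ 2 * (1 / (r + n) - 1 / (r + (n + 1))) := by
      have e : 2 * (1 / (r + (n : ℝ)) - 1 / (r + (n + 1))) = 2 / ((r + n) * (r + (n + 1))) := by
        have h2 : r + (n : ℝ) ≠ 0 := by positivity
        have h3 : r + ((n : ℝ) + 1) ≠ 0 := by positivity
        field_simp
        ring
      rw [e, div_le_div_iff₀ (by positivity) (by positivity)]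
      nlinarith
    push_cast
    linarith

lemma SumK_sum2 (r : ℝ) (hr : 1 ≤ r) (n : ℕ) :
    ∑ k ∈ Finset.range n, 1 / (r + (k : ℝ)) ^ 2 ≤ 2 / r := by
  have h := SumK_tele r hr n
  have h1 : (0 : ℝ) ≤ 1 / (r + n) := by positivity
  have h2 : 2 / r = 2 * (1 / r) := by ring
  rw [h2]
  linarith

lemma SumK_card (z : V d) (n : ℕ) : ((BF z n).card : ℝ) ≤ 2 ^ d * (1 + (n : ℝ)) ^ d := by
  have h1 : (BF z n).card ≤ (Box d n).card := Finset.card_image_le
  have h2 : ((BF z n).card : ℝ) ≤ ((2 * n + 1) ^ d : ℕ) := by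
    rw [← card_Box]
    exact_mod_cast h1
  refine h2.trans ?_
  push_cast
  rw [← mul_pow]
  exact pow_le_pow_left₀ (by positivity) (by linarith) _

theorem sk1 (hd : 5 ≤ d) : ∃ C : ℝ, 0 < C ∧ ∀ (n : ℕ) (z w : V d),
    ∑ y ∈ BF z n, kr (y - w) ≤ C * (1 + (n : ℝ)) ^ 2 := by
  classical
  obtain ⟨C, hC, h⟩ := sum_ball (d := d) hd
  refine ⟨9 * C + 2 ^ d, by positivity, fun n z w => ?_⟩
  by_cases hc : nm (w - z) ≤ 2 * n
  · have h1 : ∑ y ∈ BF z n, kr (y - w) = ∑ v ∈ (BF z n).image (fun y => y - w), kr v := by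
      rw [Finset.sum_image]
      intro x _ y _ hxy
      exact sub_left_injective hxy
    have h2 : (BF z n).image (fun y => y - w) ⊆ Box d (3 * n) := by
      intro v hv
      rw [Finset.mem_image] at hv
      obtain ⟨y, hy, rfl⟩ := hv
      rw [mem_BF] at hy
      rw [mem_Box']
      have h3 := nm_tri y z w
      have h4 := nm_sub_comm z w
      omega
    rw [h1]
    refine (Finset.sum_le_sum_of_subset_of_nonneg h2 fun v _ _ => (kr_pos v).le).trans ?_
    refine (h (3 * n)).trans ?_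
    have hn : (0 : ℝ) ≤ n := Nat.cast_nonneg n
    push_cast
    have h5 : C * (1 + 3 * (n : ℝ)) ^ 2 ≤ C * (9 * (1 + (n : ℝ)) ^ 2) := by
      apply mul_le_mul_of_nonneg_left _ hC.le
      nlinarith
    have h6 : (0 : ℝ) ≤ 2 ^ d * (1 + (n : ℝ)) ^ 2 := by positivity
    nlinarith
  · push Not at hc
    have h1 : ∀ y ∈ BF z n, kr (y - w) ≤ 1 / (1 + (n : ℝ)) ^ (d - 2) := by
      intro y hy
      rw [mem_BF] at hy
      have h3 := nm_tri w y z
      have h4 := nm_sub_comm w y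
      have h5 : n ≤ nm (y - w) := by omega
      have h6 : (n : ℝ) ≤ nm (y - w) := by exact_mod_cast h5
      unfold kr
      apply one_div_le_one_div_of_le (by positivity)
      exact pow_le_pow_left₀ (by positivity) (by linarith) _
    refine (Finset.sum_le_sum h1).trans ?_
    rw [Finset.sum_const, nsmul_eq_mul]
    have h2 := SumK_card (d := d) z n
    have hpos : (0 : ℝ) < 1 + (n : ℝ) := by positivity
    calc ((BF z n).card : ℝ) * (1 / (1 + (n : ℝ)) ^ (d - 2))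
        ≤ (2 ^ d * (1 + (n : ℝ)) ^ d) * (1 / (1 + (n : ℝ)) ^ (d - 2)) :=
          mul_le_mul_of_nonneg_right h2 (by positivity)
      _ = 2 ^ d * (1 + (n : ℝ)) ^ 2 := by
          have e : d = (d - 2) + 2 := by omega
          have e2 : (1 + (n : ℝ)) ^ d = (1 + (n : ℝ)) ^ (d - 2) * (1 + (n : ℝ)) ^ 2 := by
            rw [← pow_add, ← e]
          rw [e2]
          field_simp
      _ ≤ (9 * C + 2 ^ d) * (1 + (n : ℝ)) ^ 2 := by
          apply mul_le_mul_of_nonneg_right _ (by positivity)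
          linarith

theorem sk2 (hd : 5 ≤ d) : ∃ C : ℝ, 0 < C ∧ ∀ (T : Finset (V d)) (u w : V d),
    ∑ y ∈ T, kr (y - u) * kr (y - w) ≤ C / (1 + (nm (u - w) : ℝ)) ^ (d - 4) := by
  obtain ⟨C, hC, h⟩ := conv2 (d := d) hd
  refine ⟨C, hC, fun T u w => ?_⟩
  have h1 := h u w
  have h2 : ∑ y ∈ T, ENNReal.ofReal (kr (y - u) * kr (y - w)) ≤
      ENNReal.ofReal (C / (1 + (nm (u - w) : ℝ)) ^ (d - 4)) :=
    (ENNReal.sum_le_tsum T).trans h1
  rw [← ENNReal.ofReal_sum_of_nonneg fun y _ => (mul_pos (kr_pos _) (kr_pos _)).le] at h2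
  exact (ENNReal.ofReal_le_ofReal_iff (by positivity)).1 h2

theorem sk3 (hd : 5 ≤ d) : ∃ C : ℝ, 0 < C ∧ ∀ (T : Finset (V d)) (n : ℕ) (u w : V d),
    nm (u - w) ≤ n → ∑ y ∈ T, kr (y - u) * kr (y - w) ≤ C * (1 + (n : ℝ)) ^ 2 * kr (u - w) := by
  obtain ⟨C, hC, h⟩ := sk2 (d := d) hd
  refine ⟨C, hC, fun T n u w hn => (h T u w).trans ?_⟩
  have hn' : (nm (u - w) : ℝ) ≤ n := by exact_mod_cast hn
  have e : C / (1 + (nm (u - w) : ℝ)) ^ (d - 4) =
      C * (1 + (nm (u - w) : ℝ)) ^ 2 * kr (u - w) := by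
    unfold kr
    have e5 : d - 2 = (d - 4) + 2 := by omega
    rw [e5, pow_add]
    have : (0 : ℝ) < 1 + (nm (u - w) : ℝ) := by positivity
    field_simp
  rw [e]
  apply mul_le_mul_of_nonneg_right _ (kr_pos _).le
  apply mul_le_mul_of_nonneg_left _ hC.le
  exact pow_le_pow_left₀ (by positivity) (by linarith) _

theorem sk4 (hd : 7 ≤ d) : ∃ C : ℝ, 0 < C ∧ ∀ n : ℕ,
    ∑ h ∈ Box d n, kr h / (1 + (nm h : ℝ)) ^ (d - 4) ≤ C := by
  obtain ⟨C, hC, h⟩ := card_shell (d := d) (by omega)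
  refine ⟨C * 2, by positivity, fun n => ?_⟩
  have h1 := SumK_shell h (fun k => 1 / (1 + (k : ℝ)) ^ (d - 2) / (1 + (k : ℝ)) ^ (d - 4))
    (fun k => by positivity) n
  refine h1.trans ?_
  have h2 : ∀ k ∈ Finset.range (n + 1), C * (1 + (k : ℝ)) ^ (d - 1) *
      (1 / (1 + (k : ℝ)) ^ (d - 2) / (1 + (k : ℝ)) ^ (d - 4)) ≤ C * (1 / (1 + (k : ℝ)) ^ 2) := by
    intro k _
    have hk : (0 : ℝ) ≤ k := Nat.cast_nonneg k
    have e1 : d - 1 = (d - 2) + 1 := by omega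
    have e2 : d - 4 = (d - 7) + 3 := by omega
    have e3 : C * (1 + (k : ℝ)) ^ (d - 1) *
      (1 / (1 + (k : ℝ)) ^ (d - 2) / (1 + (k : ℝ)) ^ (d - 4)) =
        C * (1 / ((1 + (k : ℝ)) ^ (d - 7) * (1 + (k : ℝ)) ^ 2)) := by
      rw [e1, e2]
      have : (0 : ℝ) < 1 + (k : ℝ) := by positivity
      field_simp
      ring
    rw [e3]
    apply mul_le_mul_of_nonneg_left _ hC.le
    apply one_div_le_one_div_of_le (by positivity)
    have : (1 : ℝ) ≤ (1 + (k : ℝ)) ^ (d - 7) := one_le_pow₀ (by linarith)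
    nlinarith [sq_nonneg (1 + (k : ℝ))]
  refine (Finset.sum_le_sum h2).trans ?_
  rw [← Finset.mul_sum]
  apply mul_le_mul_of_nonneg_left _ hC.le
  have := SumK_sum2 1 le_rfl (n + 1)
  simpa using this

theorem sk5 (hd : 5 ≤ d) : ∃ C : ℝ, 0 < C ∧ ∀ n : ℕ,
    ∑ h ∈ Box d n, 1 / (1 + (nm h : ℝ)) ^ (d - 4) ≤ C * (1 + (n : ℝ)) ^ 4 := by
  obtain ⟨C, hC, h⟩ := card_shell (d := d) (by omega)
  refine ⟨C, hC, fun n => ?_⟩
  have h1 := SumK_shell h (fun k => 1 / (1 + (k : ℝ)) ^ (d - 4)) (fun k => by positivity) n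
  refine h1.trans ?_
  have h2 : ∀ k ∈ Finset.range (n + 1), C * (1 + (k : ℝ)) ^ (d - 1) *
      (1 / (1 + (k : ℝ)) ^ (d - 4)) ≤ C * (1 + (n : ℝ)) ^ 3 := by
    intro k hk
    have hkn : k ≤ n := by
      have := Finset.mem_range.1 hk
      omega
    have hkn' : (k : ℝ) ≤ n := by exact_mod_cast hkn
    have e1 : d - 1 = (d - 4) + 3 := by omega
    have e3 : C * (1 + (k : ℝ)) ^ (d - 1) * (1 / (1 + (k : ℝ)) ^ (d - 4)) =
        C * (1 + (k : ℝ)) ^ 3 := by
      rw [e1]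
      have : (0 : ℝ) < 1 + (k : ℝ) := by positivity
      field_simp
      ring
    rw [e3]
    apply mul_le_mul_of_nonneg_left _ hC.le
    exact pow_le_pow_left₀ (by positivity) (by linarith) _
  refine (Finset.sum_le_sum h2).trans ?_
  rw [Finset.sum_const, Finset.card_range, nsmul_eq_mul]
  push_cast
  apply le_of_eq
  ring

theorem sk6 (hd : 7 ≤ d) : ∃ C : ℝ, 0 < C ∧ ∀ n : ℕ,
    ∑ h ∈ Box d n, 1 / (1 + (nm h : ℝ)) ^ (2 * (d - 4)) ≤ C * (1 + (n : ℝ)) := by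
  obtain ⟨C, hC, h⟩ := card_shell (d := d) (by omega)
  refine ⟨C, hC, fun n => ?_⟩
  have h1 := SumK_shell h (fun k => 1 / (1 + (k : ℝ)) ^ (2 * (d - 4))) (fun k => by positivity) n
  refine h1.trans ?_
  have h2 : ∀ k ∈ Finset.range (n + 1), C * (1 + (k : ℝ)) ^ (d - 1) *
      (1 / (1 + (k : ℝ)) ^ (2 * (d - 4))) ≤ C := by
    intro k _
    have hk : (0 : ℝ) ≤ k := Nat.cast_nonneg k
    have e1 : 2 * (d - 4) = (d - 1) + (d - 7) := by omega
    have e3 : C * (1 + (k : ℝ)) ^ (d - 1) * (1 / (1 + (k : ℝ)) ^ (2 * (d - 4))) =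
        C * (1 / (1 + (k : ℝ)) ^ (d - 7)) := by
      rw [e1, pow_add]
      have : (0 : ℝ) < 1 + (k : ℝ) := by positivity
      field_simp
    rw [e3]
    have h4 : 1 / (1 + (k : ℝ)) ^ (d - 7) ≤ 1 := by
      rw [div_le_one (by positivity)]
      exact one_le_pow₀ (by linarith)
    nlinarith
  refine (Finset.sum_le_sum h2).trans ?_
  rw [Finset.sum_const, Finset.card_range, nsmul_eq_mul]
  push_cast
  apply le_of_eq
  ring

theorem sk7 (hd : 7 ≤ d) : ∃ C : ℝ, 0 < C ∧ ∀ n r : ℕ, 1 ≤ r →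
    ∑ h ∈ Box d n, 1 / (1 + (nm h : ℝ)) ^ (d - 4) * (1 / ((r : ℝ) + nm h) ^ (d - 2)) ≤
      C / (r : ℝ) ^ (d - 6) := by
  obtain ⟨C, hC, h⟩ := card_shell (d := d) (by omega)
  refine ⟨C * 2, by positivity, fun n r hr => ?_⟩
  have hr' : (1 : ℝ) ≤ r := by exact_mod_cast hr
  have h1 := SumK_shell h (fun k => 1 / (1 + (k : ℝ)) ^ (d - 4) * (1 / ((r : ℝ) + k) ^ (d - 2)))
    (fun k => by positivity) n
  refine h1.trans ?_
  have h2 : ∀ k ∈ Finset.range (n + 1), C * (1 + (k : ℝ)) ^ (d - 1) *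
      (1 / (1 + (k : ℝ)) ^ (d - 4) * (1 / ((r : ℝ) + k) ^ (d - 2))) ≤
      C * (1 / (r : ℝ) ^ (d - 7)) * (1 / ((r : ℝ) + k) ^ 2) := by
    intro k _
    have hk : (0 : ℝ) ≤ k := Nat.cast_nonneg k
    have e1 : d - 1 = (d - 4) + 3 := by omega
    have e2 : d - 2 = (d - 7) + 2 + 3 := by omega
    have e3 : C * (1 + (k : ℝ)) ^ (d - 1) *
      (1 / (1 + (k : ℝ)) ^ (d - 4) * (1 / ((r : ℝ) + k) ^ (d - 2))) =
        C * ((1 + (k : ℝ)) ^ 3 / ((r : ℝ) + k) ^ 3) *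
          (1 / (((r : ℝ) + k) ^ (d - 7) * ((r : ℝ) + k) ^ 2)) := by
      rw [e1, e2]
      have : (0 : ℝ) < 1 + (k : ℝ) := by positivity
      have : (0 : ℝ) < (r : ℝ) + (k : ℝ) := by positivity
      field_simp
      ring
    rw [e3]
    have h3 : (1 + (k : ℝ)) ^ 3 / ((r : ℝ) + k) ^ 3 ≤ 1 := by
      rw [div_le_one (by positivity)]
      exact pow_le_pow_left₀ (by positivity) (by linarith) _
    have h4 : 1 / (((r : ℝ) + k) ^ (d - 7) * ((r : ℝ) + k) ^ 2) ≤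
        1 / ((r : ℝ) ^ (d - 7) * ((r : ℝ) + k) ^ 2) := by
      apply one_div_le_one_div_of_le (by positivity)
      apply mul_le_mul_of_nonneg_right _ (by positivity)
      exact pow_le_pow_left₀ (by positivity) (by linarith) _
    calc C * ((1 + (k : ℝ)) ^ 3 / ((r : ℝ) + k) ^ 3) *
          (1 / (((r : ℝ) + k) ^ (d - 7) * ((r : ℝ) + k) ^ 2))
        ≤ C * 1 * (1 / ((r : ℝ) ^ (d - 7) * ((r : ℝ) + k) ^ 2)) := by
          apply mul_le_mul _ h4 (by positivity) (by positivity)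
          exact mul_le_mul_of_nonneg_left h3 hC.le
      _ = C * (1 / (r : ℝ) ^ (d - 7)) * (1 / ((r : ℝ) + k) ^ 2) := by
          have : (0 : ℝ) < (r : ℝ) := by linarith
          have : (0 : ℝ) < (r : ℝ) + (k : ℝ) := by positivity
          field_simp
  refine (Finset.sum_le_sum h2).trans ?_
  rw [← Finset.mul_sum]
  have h5 := SumK_sum2 (r : ℝ) hr' (n + 1)
  calc C * (1 / (r : ℝ) ^ (d - 7)) * ∑ k ∈ Finset.range (n + 1), 1 / ((r : ℝ) + (k : ℝ)) ^ 2
      ≤ C * (1 / (r : ℝ) ^ (d - 7)) * (2 / r) := mul_le_mul_of_nonneg_left h5 (by positivity)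
    _ = C * 2 / (r : ℝ) ^ (d - 6) := by
        have e : d - 6 = (d - 7) + 1 := by omega
        rw [e, pow_succ]
        have : (0 : ℝ) < (r : ℝ) := by linarith
        field_simp

end H95LBS
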