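import Pool.Agent.H95.LBS.HubX
import Pool.Agent.H95.LBS.SumK

/-!
PROJECT DS (MP_0d9ad5_pr), JOB DS-Near1. Near-critical one-arm bound (section 1a of note 2700).
PROOF. `pi(r) := perc (pn p0 s) (Ar 0 r)` = `PP {un q.1 q.2 in Ar 0 r}` (`map_un`). Step:
`pi(2r) <= A/r^2 + C r^2 s pi(r)`: explore the hub `D` of `0` in `BF 0 r` under `q.1`. If `q.1` is not in
`Ar 0 r` then `D` is inside `Bx 0 (r-1)` and there is no open `q.1`-edge leaving `D`; a path from `0` to distance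
`2r` in `un q.1 q.2`: last point `a` in `D`, next point `y = a + step σ` not in `D`, the edge is open in `q.2`, the
rest of the path avoids `D` and goes from `y` (norm `<= r`) to norm `>= 2r`, so
`cut Dᶜ (un ..) in Ar y r`. Apply `explore_le` (`B a σ = Ar (a + step σ) r`, translation invariance
`perc_shift`), `∑ tau <= A ∑ kr <= C r^2` (`H.kb`, `sk1`). Then iterate along `r = 2^k`
(`x_k = 4^k pi(2^k)`, `x_{k+1} <= 4 A + x_k / 2`), and for general `r` take `2^k <= r < 2^{k+1}`.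
-/

namespace H95LBS

open H5DF H95LBD MeasureTheory

variable {d : ℕ}

theorem perc_Ar (p : ℝ) (h0 : 0 ≤ p) (h1 : p ≤ 1) (x : V d) (r : ℕ) :
    (perc d p).real (Ar x r) = (perc d p).real (Ar 0 r) := by
  have h2 : shift x ⁻¹' (Ar 0 r) = (Ar x r : Set (Cfg d)) := by
    ext ω
    simp only [Ar, Set.mem_preimage, Set.mem_ofPred_eq, cluster_shift, zero_add, sub_zero]
    constructor
    · rintro ⟨z, hz, h3⟩
      exact ⟨z + x, by rwa [add_sub_cancel_right], h3⟩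
    · rintro ⟨z, hz, h3⟩
      exact ⟨z - x, hz, by rwa [sub_add_cancel]⟩
  have hm : Measurable (shift x : Cfg d → Cfg d) :=
    measurable_pi_lambda _ fun e => measurable_pi_apply _
  calc (perc d p).real (Ar x r) = (perc d p).real (shift x ⁻¹' (Ar 0 r)) := by rw [h2]
    _ = ((perc d p).map (shift x)).real (Ar 0 r) := by
        rw [map_measureReal_apply hm (meas_Ar 0 r)]
    _ = (perc d p).real (Ar 0 r) := by rw [perc_shift p h0 h1 x]

/-- The last exit from the hub. -/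
lemma Near1_incl (r : ℕ) (hr : 1 ≤ r) (ω η : Cfg d) (h1 : ω ∉ Ar (0 : V d) r)
    (h2 : un ω η ∈ Ar (0 : V d) (2 * r)) :
    ∃ a σ, a ∈ hub (BF (0 : V d) r : Finset (V d)) ω 0 ∧
      a + step σ ∉ hub (BF (0 : V d) r : Finset (V d)) ω 0 ∧
      η (edge a σ) = true ∧
      cut (hub (BF (0 : V d) r : Finset (V d)) ω 0)ᶜ (un ω η) ∈ Ar (a + step σ) r := by
  set D := hub (BF (0 : V d) r : Finset (V d)) ω 0 with hD
  have hDn : ∀ y ∈ D, nm y < r := by
    intro y hy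
    by_contra hc
    exact h1 ⟨y, by rw [sub_zero]; omega, (mem_hub.1 hy).cluster⟩
  obtain ⟨z, hz, hz2⟩ := h2
  rw [sub_zero] at hz
  have key : z ∈ D ∨ (z ∉ D ∧ ∃ a σ, a ∈ D ∧ a + step σ ∉ D ∧ un ω η (edge a σ) = true ∧
      Cn Dᶜ (un ω η) (a + step σ) z) := by
    refine Cn.ind (S := Set.univ) (ω := un ω η) (x := 0) (fun y => y ∈ D ∨ (y ∉ D ∧ ∃ a σ, a ∈ D ∧
      a + step σ ∉ D ∧ un ω η (edge a σ) = true ∧ Cn Dᶜ (un ω η) (a + step σ) y))
      (Or.inl (mem_hub_self _ _ _)) ?_ (Cn_univ.2 hz2)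
    rintro y s - hP - - ho
    by_cases hys : y + step s ∈ D
    · exact Or.inl hys
    right
    refine ⟨hys, ?_⟩
    rcases hP with hP | ⟨hyD, a, σ, ha, hb, hc, he⟩
    · exact ⟨y, s, hP, hys, ho, Cn.refl _ _ _⟩
    · exact ⟨a, σ, ha, hb, hc, he.trans (Cn.one ho hyD hys)⟩
  rcases key with hk | ⟨-, a, σ, ha, hb, hc, he⟩
  · have := hDn z hk
    omega
  have han := hDn a ha
  have hbn := nm_add_step a σ
  refine ⟨a, σ, ha, hb, ?_, z, ?_, he⟩
  · rcases un_true.1 hc with h | h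
    · exfalso
      apply hb
      refine Cn.trans ha (Cn.one h ?_ ?_)
      · rw [coe_BF, mem_Bx0]
        omega
      · rw [coe_BF, mem_Bx0]
        omega
    · exact h
  · have := nm_le_add z (a + step σ)
    omega

/-- One step of the recursion. -/
lemma Near1_step {p0 A cM : ℝ} {M : ℕ} (H : Crit d p0 A cM M) : ∃ C : ℝ, 1 ≤ C ∧
    ∀ (s : ℝ) (r : ℕ), 0 ≤ s → s ≤ 1 → 1 ≤ r →
      (perc d (pn p0 s)).real (Ar 0 (2 * r)) ≤ A / (r : ℝ) ^ 2 +
        C * (r : ℝ) ^ 2 * s * (perc d (pn p0 s)).real (Ar 0 r) := by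
  obtain ⟨C1, hC1, hs1⟩ := sk1 (d := d) (by have := H.hd; omega)
  have hA := H.hA
  have hp0 := H.hp0.le
  have hp1 := H.hp1.le
  refine ⟨1 + 2 * d * (A * (C1 * 4)), by
    have : 0 ≤ 2 * (d : ℝ) * (A * (C1 * 4)) := by positivity
    linarith, ?_⟩
  intro s r hs0 hsl hr
  have hr' : (1 : ℝ) ≤ r := by exact_mod_cast hr
  have := isProb_PP (d := d) hp0 hp1 hs0 hsl
  have := isProb_perc (d := d) p0 hp0 hp1
  have := isProb_perc (d := d) s hs0 hsl
  have hq0 : 0 ≤ pn p0 s := hp0.trans (pn_ge hp1 hs0)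
  have hq1 : pn p0 s ≤ 1 := pn_le hp1 hsl
  have := isProb_perc (d := d) (pn p0 s) hq0 hq1
  set π : ℝ := (perc d (pn p0 s)).real (Ar 0 r) with hπ
  have hπ0 : 0 ≤ π := measureReal_nonneg
  have e1 : (perc d (pn p0 s)).real (Ar 0 (2 * r)) =
      (PP d p0 s).real {q | un q.1 q.2 ∈ Ar (0 : V d) (2 * r)} := by
    rw [← map_un hp0 hp1 hs0 hsl, map_measureReal_apply measurable_un (meas_Ar _ _)]
    rfl
  have e2 : (PP d p0 s).real {q | un q.1 q.2 ∈ Ar (0 : V d) (2 * r)} ≤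
      (PP d p0 s).real {q | q.1 ∈ Ar (0 : V d) r} +
      (PP d p0 s).real {q | ∃ a σ, a ∈ hub (BF (0 : V d) r : Finset (V d)) q.1 0 ∧
        a + step σ ∉ hub (BF (0 : V d) r : Finset (V d)) q.1 0 ∧ q.2 (edge a σ) = true ∧
        cut (hub (BF (0 : V d) r : Finset (V d)) q.1 0)ᶜ (un q.1 q.2) ∈ Ar (a + step σ) r} := by
    refine (measureReal_mono ?_ (measure_ne_top _ _)).trans (measureReal_union_le _ _)
    intro q hq
    by_cases h : q.1 ∈ Ar (0 : V d) r
    · exact Or.inl h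
    · exact Or.inr (Near1_incl r hr q.1 q.2 h hq)
  have e3 : (PP d p0 s).real {q | q.1 ∈ Ar (0 : V d) r} ≤ A / (r : ℝ) ^ 2 := by
    have h3 : (PP d p0 s).real {q | q.1 ∈ Ar (0 : V d) r} = (perc d p0).real (Ar 0 r) := by
      have h4 : {q : Cfg d × Cfg d | q.1 ∈ Ar (0 : V d) r} = (Ar 0 r) ×ˢ Set.univ := by
        ext q
        simp
      unfold PP
      rw [h4, measureReal_def, Measure.prod_prod, measure_univ, mul_one]
      rfl
    rw [h3]
    exact H.arm r hr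
  have e4 := explore_le (d := d) hp0 hp1 hs0 hsl (BF (0 : V d) r) 0
    (by rw [mem_BF, sub_zero, nm_zero]; omega) (fun a σ => Ar (a + step σ) r)
    (fun a σ => meas_Ar _ _) (fun a σ => Ar_inc _ _)
  have e5 : ∑ a ∈ BF (0 : V d) r, ∑ σ : Dir d,
      (perc d p0).real {ω | Cn (BF (0 : V d) r : Finset (V d)) ω 0 a} * s *
        (perc d (pn p0 s)).real (Ar (a + step σ) r) ≤
      ∑ a ∈ BF (0 : V d) r, (2 * d) * (A * kr (a - 0) * s * π) := by
    refine Finset.sum_le_sum fun a _ => ?_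
    have h6 : (perc d p0).real {ω | Cn (BF (0 : V d) r : Finset (V d)) ω 0 a} ≤
        A * kr (a - 0) := by
      have h7 : (perc d p0).real {ω | Cn (BF (0 : V d) r : Finset (V d)) ω 0 a} ≤
          (perc d p0).real {ω | a ∈ cluster ω 0} :=
        measureReal_mono (fun ω h => h.cluster) (measure_ne_top _ _)
      refine h7.trans ?_
      rw [sub_zero]
      have h8 := (H.kb a).2
      have h9 : 0 ≤ A * kr a := mul_nonneg (by linarith) (kr_pos a).le
      rw [measureReal_def]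
      exact ENNReal.toReal_le_of_le_ofReal h9 h8
    have h10 : ∑ σ : Dir d, (perc d p0).real {ω | Cn (BF (0 : V d) r : Finset (V d)) ω 0 a} * s *
        (perc d (pn p0 s)).real (Ar (a + step σ) r) ≤ ∑ _σ : Dir d, A * kr (a - 0) * s * π := by
      refine Finset.sum_le_sum fun σ _ => ?_
      rw [perc_Ar (pn p0 s) hq0 hq1 (a + step σ) r, ← hπ]
      exact mul_le_mul_of_nonneg_right (mul_le_mul_of_nonneg_right h6 hs0) hπ0
    refine h10.trans (le_of_eq ?_)
    rw [Finset.sum_const, Finset.card_univ, Fintype.card_prod, Fintype.card_fin, Fintype.card_bool,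
      nsmul_eq_mul]
    push_cast
    ring
  have e6 : ∑ a ∈ BF (0 : V d) r, (2 * d) * (A * kr (a - 0) * s * π) =
      (2 * d) * (A * s * π) * ∑ a ∈ BF (0 : V d) r, kr (a - 0) := by
    rw [Finset.mul_sum]
    exact Finset.sum_congr rfl fun a _ => by ring
  have e7 : (2 * d) * (A * s * π) * ∑ a ∈ BF (0 : V d) r, kr (a - 0) ≤
      (2 * d) * (A * s * π) * (C1 * (4 * (r : ℝ) ^ 2)) := by
    refine mul_le_mul_of_nonneg_left ?_ (by positivity)
    refine (hs1 r 0 0).trans (mul_le_mul_of_nonneg_left ?_ hC1.le)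
    nlinarith
  have e8 : 0 ≤ (r : ℝ) ^ 2 * s * π := by positivity
  rw [e1]
  calc (PP d p0 s).real {q | un q.1 q.2 ∈ Ar (0 : V d) (2 * r)}
      ≤ A / (r : ℝ) ^ 2 + (2 * d) * (A * s * π) * (C1 * (4 * (r : ℝ) ^ 2)) :=
        e2.trans (add_le_add e3 (e4.trans (e5.trans (e6.le.trans e7))))
    _ ≤ A / (r : ℝ) ^ 2 + (1 + 2 * d * (A * (C1 * 4))) * (r : ℝ) ^ 2 * s * π := by
        nlinarith

theorem near_arm {p0 A cM : ℝ} {M : ℕ} (H : Crit d p0 A cM M) : ∃ κ0 C : ℝ, 0 < κ0 ∧ 1 ≤ C ∧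
    ∀ (s : ℝ) (r : ℕ) (x : V d), 0 ≤ s → s ≤ 1 → 1 ≤ r → s * (r : ℝ) ^ 2 ≤ κ0 →
      (perc d (pn p0 s)).real (Ar x r) ≤ C / (r : ℝ) ^ 2 := by
  obtain ⟨C', hC', hstep⟩ := Near1_step H
  have hA := H.hA
  have hp0 := H.hp0.le
  have hp1 := H.hp1.le
  refine ⟨1 / (8 * C'), 32 * A, by positivity, by linarith, ?_⟩
  intro s r x hs0 hsl hr hsr
  have hr' : (1 : ℝ) ≤ r := by exact_mod_cast hr
  have hq0 : 0 ≤ pn p0 s := hp0.trans (pn_ge hp1 hs0)
  have hq1 : pn p0 s ≤ 1 := pn_le hp1 hsl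
  have := isProb_perc (d := d) (pn p0 s) hq0 hq1
  rw [perc_Ar (pn p0 s) hq0 hq1 x r]
  set π : ℕ → ℝ := fun n => (perc d (pn p0 s)).real (Ar 0 n) with hπ
  have hmono : ∀ a b : ℕ, a ≤ b → π b ≤ π a := by
    intro a b hab
    refine measureReal_mono ?_ (measure_ne_top _ _)
    rintro ω ⟨z, hz, h⟩
    exact ⟨z, hab.trans hz, h⟩
  have hπ0 : ∀ n, 0 ≤ π n := fun n => measureReal_nonneg
  have hind : ∀ k : ℕ, 2 ^ k ≤ r → (4 : ℝ) ^ k * π (2 ^ k) ≤ 8 * A := by
    intro k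
    induction k with
    | zero =>
      intro _
      have h1 : π (2 ^ 0) ≤ 1 := measureReal_le_one
      simp only [pow_zero, one_mul] at h1 ⊢
      linarith
    | succ k ih =>
      intro hk
      have hk2 : 2 * 2 ^ k ≤ r := by rw [pow_succ] at hk; omega
      have h1 : 2 ^ k ≤ r := by omega
      have h2 := ih h1
      have h3 := hstep s (2 ^ k) hs0 hsl Nat.one_le_two_pow
      have h4 : 2 * 2 ^ k = 2 ^ (k + 1) := by rw [pow_succ]; ring
      rw [h4] at h3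
      have h5 : ((2 ^ k : ℕ) : ℝ) ^ 2 = (4 : ℝ) ^ k := by
        push_cast
        rw [← pow_mul, mul_comm, pow_mul]
        norm_num
      rw [h5] at h3
      have h6 : (4 : ℝ) ^ k ≤ (r : ℝ) ^ 2 := by
        rw [← h5]
        have : ((2 ^ k : ℕ) : ℝ) ≤ r := by exact_mod_cast h1
        exact pow_le_pow_left₀ (by positivity) this 2
      have h7 : s * (4 : ℝ) ^ k ≤ 1 / (8 * C') :=
        (mul_le_mul_of_nonneg_left h6 hs0).trans hsr
      have h8 : C' * (s * (4 : ℝ) ^ k) ≤ 1 / 8 := by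
        have h9 := mul_le_mul_of_nonneg_left h7 (by linarith : (0 : ℝ) ≤ C')
        have h10 : C' * (1 / (8 * C')) = 1 / 8 := by field_simp
        linarith
      have h4p : (0 : ℝ) < 4 ^ k := by positivity
      have h11 : (4 : ℝ) ^ (k + 1) * (A / (4 : ℝ) ^ k) = 4 * A := by
        rw [pow_succ]
        field_simp
      calc (4 : ℝ) ^ (k + 1) * π (2 ^ (k + 1))
          ≤ (4 : ℝ) ^ (k + 1) * (A / (4 : ℝ) ^ k + C' * (4 : ℝ) ^ k * s * π (2 ^ k)) :=
            mul_le_mul_of_nonneg_left h3 (by positivity)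
        _ = 4 * A + 4 * (C' * (s * (4 : ℝ) ^ k)) * ((4 : ℝ) ^ k * π (2 ^ k)) := by
            rw [mul_add, h11, pow_succ]
            ring
        _ ≤ 4 * A + 4 * (1 / 8) * (8 * A) := by
            have h12 : 0 ≤ (4 : ℝ) ^ k * π (2 ^ k) := mul_nonneg h4p.le (hπ0 _)
            have h13 : 4 * (C' * (s * (4 : ℝ) ^ k)) * ((4 : ℝ) ^ k * π (2 ^ k)) ≤
                4 * (1 / 8) * (8 * A) :=
              mul_le_mul (by linarith) h2 h12 (by norm_num)
            linarith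
        _ = 8 * A := by ring
  have hr0 : r ≠ 0 := by omega
  set k := Nat.log 2 r with hk
  have hk1 : 2 ^ k ≤ r := Nat.pow_log_le_self 2 hr0
  have hk2 : r < 2 ^ (k + 1) := Nat.lt_pow_succ_log_self (by norm_num) r
  have h1 := hind k hk1
  have h2 := hmono (2 ^ k) r hk1
  have h3 : (r : ℝ) ^ 2 ≤ 4 * (4 : ℝ) ^ k := by
    have h4 : (r : ℝ) ≤ 2 * 2 ^ k := by
      have : (r : ℝ) < ((2 ^ (k + 1) : ℕ) : ℝ) := by exact_mod_cast hk2
      push_cast at this
      rw [pow_succ] at this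
      linarith
    have h5 : (2 * 2 ^ k : ℝ) ^ 2 = 4 * (4 : ℝ) ^ k := by
      rw [mul_pow, ← pow_mul, mul_comm k 2, pow_mul]
      norm_num
    rw [← h5]
    exact pow_le_pow_left₀ (by linarith) h4 2
  change π r ≤ _
  rw [le_div_iff₀ (by positivity)]
  calc π r * (r : ℝ) ^ 2 ≤ π (2 ^ k) * (4 * (4 : ℝ) ^ k) :=
        mul_le_mul h2 h3 (by positivity) (hπ0 _)
    _ = 4 * ((4 : ℝ) ^ k * π (2 ^ k)) := by ring
    _ ≤ 4 * (8 * A) := by linarith
    _ = 32 * A := by ring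

end H95LBS
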