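import Pool.Agent.H95.LBS.HubX
import Pool.Agent.H95.LBS.SumK

/-!
PROJECT DS (MP_0d9ad5_pr), JOB DS-Near2. Near-critical two-point function in a box (section 1b of note 2700).
PROOF. `T(x,y) := perc (pn p0 s) {Cn (Bx z r) x y}`. For `x` in the box: explore the hub `D` of `x` in
`BF z r` under `q.1`: either `y` is in `D` or (last point `a` of the path in `D`) `explore_le` with
`B a σ = {Cn (Bx z r) (a + step σ) y}`: `T(x,y) <= A kr (x-y) + s ∑_a A kr (x-a) ∑_σ T(a + step σ, y)`. With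
`Θ = max T/kr` over the finite box (`kr (a + step σ - y) <= 2^(d-2) kr (a - y)`) and `sk3`:
`Θ <= A + C s r^2 Θ`. If `x` or `y` is not in the box then `Cn` is equality.
-/

namespace H95LBS

open H5DF H95LBD MeasureTheory

variable {d : ℕ}

lemma Near2_kr_step (a y : V d) (σ : Dir d) :
    kr (a + step σ - y) ≤ 2 ^ (d - 2) * kr (a - y) := by
  refine SumD_kr_le (by norm_num) ?_
  have h := le_nm_add_step (a - y) σ
  have e : a - y + step σ = a + step σ - y := by abel
  rw [e] at h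
  have h' : (nm (a - y) : ℝ) ≤ nm (a + step σ - y) + 1 := by exact_mod_cast h
  have h0 : (0 : ℝ) ≤ nm (a + step σ - y) := Nat.cast_nonneg _
  linarith

lemma Near2_notMem {S : Set (V d)} {ω : Cfg d} {x y : V d} (h : Cn S ω x y) (hx : x ∉ S) :
    y = x := by
  refine Cn.ind (fun y => y = x) rfl ?_ h
  rintro y s - rfl hy _ _
  exact absurd hy hx

/-- The last point of a path in the hub. -/
lemma Near2_dec {S : Set (V d)} {ω η : Cfg d} {x y : V d} (h : Cn S (un ω η) x y) :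
    Cn S ω x y ∨ ∃ a σ, a ∈ hub S ω x ∧ a + step σ ∉ hub S ω x ∧ η (edge a σ) = true ∧
      Cn S (cut (hub S ω x)ᶜ (un ω η)) (a + step σ) y := by
  have key : y ∈ hub S ω x ∨ (y ∉ hub S ω x ∧ ∃ a σ, a ∈ hub S ω x ∧ a + step σ ∉ hub S ω x ∧
      η (edge a σ) = true ∧ Cn S (cut (hub S ω x)ᶜ (un ω η)) (a + step σ) y) := by
    refine Cn.ind (fun y => y ∈ hub S ω x ∨ (y ∉ hub S ω x ∧ ∃ a σ, a ∈ hub S ω x ∧
      a + step σ ∉ hub S ω x ∧ η (edge a σ) = true ∧
      Cn S (cut (hub S ω x)ᶜ (un ω η)) (a + step σ) y)) (Or.inl (mem_hub_self S ω x)) ?_ h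
    intro y τ _ hP hy hyτ ho
    by_cases hτ : y + step τ ∈ hub S ω x
    · exact Or.inl hτ
    · right
      refine ⟨hτ, ?_⟩
      rcases hP with hP | ⟨hP, a, σ, ha, hσ, hη, hc⟩
      · refine ⟨y, τ, hP, hτ, ?_, Cn.refl _ _ _⟩
        rcases un_true.1 ho with h1 | h1
        · exact absurd (Cn.trans hP (Cn.one h1 hy hyτ)) hτ
        · exact h1
      · refine ⟨a, σ, ha, hσ, hη, hc.trans (Cn.one ?_ hy hyτ)⟩
        exact cut_edge.2 ⟨ho, hP, hτ⟩
  rcases key with h1 | ⟨-, h1⟩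
  · exact Or.inl h1
  · exact Or.inr h1

/-- Comparison of the restricted two-point function with the kernel. -/
lemma Near2_tau {p0 A cM : ℝ} {M : ℕ} (H : Crit d p0 A cM M) (S : Set (V d)) (x y : V d) :
    (perc d p0).real {ω | Cn S ω x y} ≤ A * kr (x - y) := by
  have := H.prob
  have h1 : perc d p0 {ω | Cn S ω x y} ≤ ENNReal.ofReal (A * kr (y - x)) := by
    refine le_trans ?_ (H.kb (y - x)).2
    rw [← prob_cluster_mem p0 H.hp0.le H.hp1.le x y]
    exact measure_mono fun ω h => Cn.cluster h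
  rw [kr_sub_comm]
  have hA := H.hA
  have hk := kr_pos (y - x)
  exact ENNReal.toReal_le_of_le_ofReal (by positivity) h1

/-- The one-step inequality. -/
lemma Near2_step {p0 A cM : ℝ} {M : ℕ} (H : Crit d p0 A cM M) {s : ℝ} (hs0 : 0 ≤ s) (hs1 : s ≤ 1)
    (z : V d) (r : ℕ) (x y : V d) (hx : x ∈ BF z r) :
    (perc d (pn p0 s)).real {ω | Cn (Bx z r) ω x y} ≤ A * kr (x - y) +
      ∑ a ∈ BF z r, ∑ σ : Dir d, (A * kr (x - a)) * s *
        (perc d (pn p0 s)).real {ω | Cn (Bx z r) ω (a + step σ) y} := by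
  have := H.prob
  have hP := isProb_PP (d := d) H.hp0.le H.hp1.le hs0 hs1
  have hA := H.hA
  have hS : ((BF z r : Finset (V d)) : Set (V d)) = Bx z r := coe_BF z r
  have e1 : (perc d (pn p0 s)).real {ω | Cn (Bx z r) ω x y} =
      (PP d p0 s).real {q | Cn (Bx z r) (un q.1 q.2) x y} := by
    rw [← map_un H.hp0.le H.hp1.le hs0 hs1,
      map_measureReal_apply measurable_un (meas_Cn _ _ _)]
    rfl
  set B : V d → Dir d → Set (Cfg d) := fun a σ => {ω | Cn (Bx z r) ω (a + step σ) y} with hB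
  have h1 := explore_le H.hp0.le H.hp1.le hs0 hs1 (BF z r) x hx B
    (fun a σ => meas_Cn _ _ _) (fun a σ ω ω' h hc => Cn.mono hc (fun _ h => h) h)
  rw [hS] at h1
  have e2 : (PP d p0 s).real {q | Cn (Bx z r) q.1 x y} ≤ A * kr (x - y) := by
    have h2 : (PP d p0 s).real {q | Cn (Bx z r) q.1 x y} =
        (perc d p0).real {ω | Cn (Bx z r) ω x y} := by
      have hs' := isProb_perc (d := d) s hs0 hs1
      have e3 : {q : Cfg d × Cfg d | Cn (Bx z r) q.1 x y} =
          {ω : Cfg d | Cn (Bx z r) ω x y} ×ˢ Set.univ := by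
        ext q
        simp
      rw [e3, PP, measureReal_prod_prod, probReal_univ, mul_one]
    rw [h2]
    exact Near2_tau H _ x y
  rw [e1]
  have hsub : {q : Cfg d × Cfg d | Cn (Bx z r) (un q.1 q.2) x y} ⊆
      {q | Cn (Bx z r) q.1 x y} ∪ {q | ∃ a σ, a ∈ hub (Bx z r) q.1 x ∧
        a + step σ ∉ hub (Bx z r) q.1 x ∧ q.2 (edge a σ) = true ∧
        cut (hub (Bx z r) q.1 x)ᶜ (un q.1 q.2) ∈ B a σ} := by
    intro q hq
    exact Near2_dec hq
  refine (measureReal_mono hsub (measure_ne_top _ _)).trans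
    ((measureReal_union_le _ _).trans (add_le_add e2 (h1.trans ?_)))
  refine Finset.sum_le_sum fun a _ => Finset.sum_le_sum fun σ _ => ?_
  have h3 := Near2_tau H (Bx z r) x a
  have h4 : (0 : ℝ) ≤ (perc d (pn p0 s)).real (B a σ) := measureReal_nonneg
  exact mul_le_mul_of_nonneg_right (mul_le_mul_of_nonneg_right h3 hs0) h4

theorem near_two {p0 A cM : ℝ} {M : ℕ} (H : Crit d p0 A cM M) : ∃ κ0 C : ℝ, 0 < κ0 ∧ 1 ≤ C ∧
    ∀ (s : ℝ) (r : ℕ) (z x y : V d), 0 ≤ s → s ≤ 1 → s * (r : ℝ) ^ 2 ≤ κ0 →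
      (perc d (pn p0 s)).real {ω | Cn (Bx z r) ω x y} ≤ C * kr (x - y) := by
  obtain ⟨C3, hC3, h3⟩ := sk3 (d := d) (by have := H.hd; omega)
  have hA := H.hA
  set K : ℝ := A * (2 * d) * 2 ^ (d - 2) * C3 * 9 with hK
  have hd0 : (0 : ℝ) < d := by
    have := H.hd
    exact_mod_cast (by omega : 0 < d)
  have hK0 : 0 < K := by positivity
  refine ⟨1 / (2 * K), 2 * A, by positivity, by linarith, ?_⟩
  intro s r z x y hs0 hs1 hsr
  have hp0' : 0 ≤ pn p0 s := H.hp0.le.trans (pn_ge H.hp1.le hs0)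
  have hp1' : pn p0 s ≤ 1 := pn_le H.hp1.le hs1
  have hprob := isProb_perc (d := d) (pn p0 s) hp0' hp1'
  have hk1 : kr (0 : V d) = 1 := by simp [kr, nm_zero]
  -- points outside of the box
  by_cases hx : x ∈ BF z r
  swap
  · by_cases hxy : y = x
    · subst hxy
      rw [sub_self, hk1, mul_one]
      exact (measureReal_le_one).trans (by linarith)
    · have : {ω : Cfg d | Cn (Bx z r) ω x y} = ∅ := by
        rw [Set.eq_empty_iff_forall_notMem]
        intro ω h
        exact hxy (Near2_notMem h (by rw [← coe_BF]; exact_mod_cast hx))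
      rw [this, measureReal_empty]
      have := kr_pos (x - y)
      positivity
  by_cases hy : y ∈ BF z r
  swap
  · have : {ω : Cfg d | Cn (Bx z r) ω x y} = ∅ := by
      rw [Set.eq_empty_iff_forall_notMem]
      intro ω h
      have h2 : y ∈ Bx z r := Cn.mem h (by rw [← coe_BF]; exact_mod_cast hx)
      rw [← coe_BF] at h2
      exact hy (by exact_mod_cast h2)
    rw [this, measureReal_empty]
    have := kr_pos (x - y)
    positivity
  -- the case r = 0
  rcases Nat.eq_zero_or_pos r with hr | hr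
  · subst hr
    have h1 : x = z := by
      have := mem_BF.1 hx
      exact sub_eq_zero.1 (nm_eq_zero.1 (by omega))
    have h2 : y = z := by
      have := mem_BF.1 hy
      exact sub_eq_zero.1 (nm_eq_zero.1 (by omega))
    rw [h1, h2, sub_self, hk1, mul_one]
    exact (measureReal_le_one).trans (by linarith)
  have hr1 : (1 : ℝ) ≤ r := by exact_mod_cast hr
  -- the maximum of the ratio
  set T : V d → V d → ℝ := fun x y => (perc d (pn p0 s)).real {ω | Cn (Bx z r) ω x y} with hT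
  have hne : ((BF z r) ×ˢ (BF z r)).Nonempty := ⟨(x, y), Finset.mem_product.2 ⟨hx, hy⟩⟩
  obtain ⟨q, hq, hmax⟩ := Finset.exists_max_image ((BF z r) ×ˢ (BF z r))
    (fun q => T q.1 q.2 / kr (q.1 - q.2)) hne
  rw [Finset.mem_product] at hq
  set Θ : ℝ := T q.1 q.2 / kr (q.1 - q.2) with hΘ
  have hT0 : ∀ x y, 0 ≤ T x y := fun _ _ => measureReal_nonneg
  have hΘ0 : 0 ≤ Θ := div_nonneg (hT0 _ _) (kr_pos _).le
  have hle : ∀ x' ∈ BF z r, ∀ y' ∈ BF z r, T x' y' ≤ Θ * kr (x' - y') := by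
    intro x' hx' y' hy'
    have := hmax (x', y') (Finset.mem_product.2 ⟨hx', hy'⟩)
    exact (div_le_iff₀ (kr_pos _)).1 this
  have hle' : ∀ x', ∀ y' ∈ BF z r, T x' y' ≤ Θ * kr (x' - y') := by
    intro x' y' hy'
    by_cases hx' : x' ∈ BF z r
    · exact hle x' hx' y' hy'
    · have hxy : y' ≠ x' := fun h => hx' (h ▸ hy')
      have : {ω : Cfg d | Cn (Bx z r) ω x' y'} = ∅ := by
        rw [Set.eq_empty_iff_forall_notMem]
        intro ω h
        exact hxy (Near2_notMem h (by rw [← coe_BF]; exact_mod_cast hx'))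
      have h0 : T x' y' = 0 := by
        simp only [hT]
        rw [this, measureReal_empty]
      rw [h0]
      exact mul_nonneg hΘ0 (kr_pos _).le
  have hstep := Near2_step H hs0 hs1 z r q.1 q.2 hq.1
  have hsum : ∑ a ∈ BF z r, ∑ σ : Dir d, (A * kr (q.1 - a)) * s * T (a + step σ) q.2 ≤
      (1 / 2) * Θ * kr (q.1 - q.2) := by
    have h4 : ∀ a ∈ BF z r, ∑ σ : Dir d, (A * kr (q.1 - a)) * s * T (a + step σ) q.2 ≤
        (A * s * Θ * 2 ^ (d - 2) * (2 * d)) * (kr (a - q.1) * kr (a - q.2)) := by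
      intro a _
      have h5 : ∀ σ : Dir d, (A * kr (q.1 - a)) * s * T (a + step σ) q.2 ≤
          (A * kr (q.1 - a)) * s * (Θ * (2 ^ (d - 2) * kr (a - q.2))) := by
        intro σ
        have h6 : T (a + step σ) q.2 ≤ Θ * (2 ^ (d - 2) * kr (a - q.2)) :=
          (hle' (a + step σ) q.2 hq.2).trans
            (mul_le_mul_of_nonneg_left (Near2_kr_step a q.2 σ) hΘ0)
        have h7 : (0 : ℝ) ≤ (A * kr (q.1 - a)) * s := by
          have := kr_pos (q.1 - a)
          positivity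
        exact mul_le_mul_of_nonneg_left h6 h7
      refine (Finset.sum_le_sum fun σ _ => h5 σ).trans (le_of_eq ?_)
      rw [Finset.sum_const, Finset.card_univ, nsmul_eq_mul, kr_sub_comm q.1 a]
      have hc : (Fintype.card (Dir d) : ℝ) = 2 * d := by
        have : Fintype.card (Dir d) = d * 2 := by
          simp [Dir]
        rw [this]
        push_cast
        ring
      rw [hc]
      ring
    refine (Finset.sum_le_sum h4).trans ?_
    rw [← Finset.mul_sum]
    have h8 : nm (q.1 - q.2) ≤ 2 * r := by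
      have e1 := mem_BF.1 hq.1
      have e2 := mem_BF.1 hq.2
      have e3 := nm_tri q.1 z q.2
      rw [nm_sub_comm z q.2] at e3
      omega
    have h9 := h3 (BF z r) (2 * r) q.1 q.2 h8
    have h10 : (0 : ℝ) ≤ A * s * Θ * 2 ^ (d - 2) * (2 * d) := by positivity
    refine (mul_le_mul_of_nonneg_left h9 h10).trans ?_
    have h11 : (1 + ((2 * r : ℕ) : ℝ)) ^ 2 ≤ 9 * (r : ℝ) ^ 2 := by
      push_cast
      nlinarith
    have h12 : K * (s * (r : ℝ) ^ 2) ≤ 1 / 2 := by
      have h13 := mul_le_mul_of_nonneg_left hsr hK0.le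
      refine h13.trans (le_of_eq ?_)
      field_simp
    have hk := (kr_pos (q.1 - q.2)).le
    calc A * s * Θ * 2 ^ (d - 2) * (2 * d) * (C3 * (1 + ((2 * r : ℕ) : ℝ)) ^ 2 * kr (q.1 - q.2))
        ≤ A * s * Θ * 2 ^ (d - 2) * (2 * d) * (C3 * (9 * (r : ℝ) ^ 2) * kr (q.1 - q.2)) := by
          gcongr
      _ = (K * (s * (r : ℝ) ^ 2)) * (Θ * kr (q.1 - q.2)) := by
          rw [hK]
          ring
      _ ≤ (1 / 2) * (Θ * kr (q.1 - q.2)) :=
          mul_le_mul_of_nonneg_right h12 (mul_nonneg hΘ0 hk)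
      _ = (1 / 2) * Θ * kr (q.1 - q.2) := by ring
  have hfin : Θ ≤ 2 * A := by
    have hk := kr_pos (q.1 - q.2)
    have h14 : T q.1 q.2 ≤ A * kr (q.1 - q.2) + (1 / 2) * Θ * kr (q.1 - q.2) :=
      hstep.trans (by linarith)
    have h15 : Θ ≤ A + (1 / 2) * Θ := by
      rw [hΘ, div_le_iff₀ hk]
      have : (A + 1 / 2 * Θ) * kr (q.1 - q.2) =
          A * kr (q.1 - q.2) + (1 / 2) * Θ * kr (q.1 - q.2) := by ring
      rw [← hΘ, this]
      exact h14
    linarith
  exact (hle x hx y hy).trans (mul_le_mul_of_nonneg_right hfin (kr_pos _).le)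

end H95LBS
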