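import Pool.Agent.H95.LBS.ArmDec
import Pool.Agent.H95.LBS.Near1
import Pool.Agent.H95.LBS.Near2

/-!
PROJECT DS (MP_0d9ad5_pr), JOB DS-ArmTwo. Two arms, near-critical (section 1c of note 2700).
PROOF. `n = N / 8` (for `N < 32` the bound is trivial with `C >= 32^4`). If `nm (y1 - y2) <= n`: `arm_dec`,
`bk_inf` (twice for the tree term; `disj_inc`, `disj_fw`, `SCn_inc`, `SCn_fw`, `Ar_inc`, `Ar_fw`), `near_arm`,
`near_two` with radius `2n` and `sk2`. If `nm (y1 - y2) > n`: `arm_far` with `n' = N / 32`.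
-/

namespace H95LBS

open H5DF H95LBD MeasureTheory

variable {d : ℕ}

/-- BK inequality for real valued probabilities. -/
lemma ArmTwo_bk {p : ℝ} (h0 : 0 ≤ p) (h1 : p ≤ 1) {A B : Set (Cfg d)} (hA : Inc A) (hB : Inc B)
    (fA : Fw A) (fB : Fw B) :
    (perc d p).real (disj A B) ≤ (perc d p).real A * (perc d p).real B := by
  have := isProb_perc (d := d) p h0 h1
  have h := bk_inf p h0 h1 A B hA hB fA fB
  rw [measureReal_def, measureReal_def, measureReal_def, ← ENNReal.toReal_mul]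
  exact ENNReal.toReal_mono (ENNReal.mul_ne_top (measure_ne_top _ _) (measure_ne_top _ _)) h

lemma ArmTwo_SCn (S : Set (V d)) (u v : V d) : SCn {u} S v = {ω : Cfg d | Cn S ω u v} := by
  ext ω
  simp [SCn]

/-- Two edge-disjoint arms. -/
lemma ArmTwo_disj {p : ℝ} (h0 : 0 ≤ p) (h1 : p ≤ 1) (y1 y2 : V d) (n N : ℕ) {C1 B : ℝ}
    (hC : 0 ≤ C1) (hn : 1 ≤ n) (hB : 0 < B) (hN : (N : ℝ) ≤ B * n) (hN1 : 1 ≤ N)
    (h : ∀ x : V d, (perc d p).real (Ar x n) ≤ C1 / (n : ℝ) ^ 2) :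
    (perc d p).real (disj (Ar y1 n) (Ar y2 n)) ≤ B ^ 4 * C1 ^ 2 / (N : ℝ) ^ 4 := by
  have hn0 : (0 : ℝ) < n := by exact_mod_cast hn
  have hN0 : (0 : ℝ) < N := by exact_mod_cast hN1
  calc (perc d p).real (disj (Ar y1 n) (Ar y2 n))
      ≤ (perc d p).real (Ar y1 n) * (perc d p).real (Ar y2 n) :=
        ArmTwo_bk h0 h1 (Ar_inc _ _) (Ar_inc _ _) (Ar_fw _ _) (Ar_fw _ _)
    _ ≤ C1 / (n : ℝ) ^ 2 * (C1 / (n : ℝ) ^ 2) :=
        mul_le_mul (h y1) (h y2) measureReal_nonneg (by positivity)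
    _ = C1 ^ 2 / (n : ℝ) ^ 4 := by field_simp
    _ ≤ B ^ 4 * C1 ^ 2 / (N : ℝ) ^ 4 := by
        rw [div_le_div_iff₀ (by positivity) (by positivity)]
        have h4 : (N : ℝ) ^ 4 ≤ (B * n) ^ 4 := pow_le_pow_left₀ hN0.le hN 4
        calc C1 ^ 2 * (N : ℝ) ^ 4 ≤ C1 ^ 2 * (B * n) ^ 4 :=
              mul_le_mul_of_nonneg_left h4 (by positivity)
          _ = B ^ 4 * C1 ^ 2 * (n : ℝ) ^ 4 := by ring

/-- The tree term. -/
lemma ArmTwo_tree {p : ℝ} (h0 : 0 ≤ p) (h1 : p ≤ 1) (y1 y2 : V d) (n : ℕ) {C1 C2 C3 : ℝ}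
    (hC1 : 0 ≤ C1) (hC2 : 0 ≤ C2) (hn : 1 ≤ n)
    (ha : ∀ x : V d, (perc d p).real (Ar x n) ≤ C1 / (n : ℝ) ^ 2)
    (ht : ∀ x y : V d, (perc d p).real {ω | Cn (Bx y1 (2 * n)) ω x y} ≤ C2 * kr (x - y))
    (hs : ∀ (T : Finset (V d)) (u w : V d),
      ∑ y ∈ T, kr (y - u) * kr (y - w) ≤ C3 / (1 + (nm (u - w) : ℝ)) ^ (d - 4)) :
    (perc d p).real (⋃ v ∈ BF y1 (2 * n), disj (SCn {y1} (Bx y1 (2 * n)) v)
        (disj (SCn {y2} (Bx y1 (2 * n)) v) (Ar v n))) ≤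
      C1 * C2 ^ 2 * C3 / (n : ℝ) ^ 2 / (1 + (nm (y1 - y2) : ℝ)) ^ (d - 4) := by
  have hP := isProb_perc (d := d) p h0 h1
  have hn0 : (0 : ℝ) < n := by exact_mod_cast hn
  have hterm : ∀ v : V d, (perc d p).real (disj (SCn {y1} (Bx y1 (2 * n)) v)
      (disj (SCn {y2} (Bx y1 (2 * n)) v) (Ar v n))) ≤
      C1 * C2 ^ 2 / (n : ℝ) ^ 2 * (kr (v - y1) * kr (v - y2)) := by
    intro v
    have k1 := (kr_pos (v - y1)).le
    have k2 := (kr_pos (v - y2)).le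
    have e1 : (perc d p).real (SCn {y1} (Bx y1 (2 * n)) v) ≤ C2 * kr (v - y1) := by
      rw [ArmTwo_SCn, kr_sub_comm]
      exact ht y1 v
    have e2 : (perc d p).real (SCn {y2} (Bx y1 (2 * n)) v) ≤ C2 * kr (v - y2) := by
      rw [ArmTwo_SCn, kr_sub_comm]
      exact ht y2 v
    calc (perc d p).real (disj (SCn {y1} (Bx y1 (2 * n)) v)
          (disj (SCn {y2} (Bx y1 (2 * n)) v) (Ar v n)))
        ≤ (perc d p).real (SCn {y1} (Bx y1 (2 * n)) v) *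
          (perc d p).real (disj (SCn {y2} (Bx y1 (2 * n)) v) (Ar v n)) :=
          ArmTwo_bk h0 h1 (SCn_inc _ _ _) (disj_inc (SCn_inc _ _ _) (Ar_inc _ _))
            (SCn_fw _ _ _) (disj_fw (SCn_inc _ _ _) (Ar_inc _ _) (SCn_fw _ _ _) (Ar_fw _ _))
      _ ≤ (perc d p).real (SCn {y1} (Bx y1 (2 * n)) v) *
          ((perc d p).real (SCn {y2} (Bx y1 (2 * n)) v) * (perc d p).real (Ar v n)) :=
          mul_le_mul_of_nonneg_left (ArmTwo_bk h0 h1 (SCn_inc _ _ _) (Ar_inc _ _)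
            (SCn_fw _ _ _) (Ar_fw _ _)) measureReal_nonneg
      _ ≤ (C2 * kr (v - y1)) * ((C2 * kr (v - y2)) * (C1 / (n : ℝ) ^ 2)) := by
          refine mul_le_mul e1 (mul_le_mul e2 (ha v) measureReal_nonneg (by positivity))
            (by positivity) (by positivity)
      _ = C1 * C2 ^ 2 / (n : ℝ) ^ 2 * (kr (v - y1) * kr (v - y2)) := by ring
  calc (perc d p).real (⋃ v ∈ BF y1 (2 * n), disj (SCn {y1} (Bx y1 (2 * n)) v)
        (disj (SCn {y2} (Bx y1 (2 * n)) v) (Ar v n)))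
      ≤ ∑ v ∈ BF y1 (2 * n), (perc d p).real (disj (SCn {y1} (Bx y1 (2 * n)) v)
        (disj (SCn {y2} (Bx y1 (2 * n)) v) (Ar v n))) := measureReal_biUnion_finset_le _ _
    _ ≤ ∑ v ∈ BF y1 (2 * n), C1 * C2 ^ 2 / (n : ℝ) ^ 2 * (kr (v - y1) * kr (v - y2)) :=
        Finset.sum_le_sum fun v _ => hterm v
    _ = C1 * C2 ^ 2 / (n : ℝ) ^ 2 * ∑ v ∈ BF y1 (2 * n), kr (v - y1) * kr (v - y2) := by
        rw [Finset.mul_sum]
    _ ≤ C1 * C2 ^ 2 / (n : ℝ) ^ 2 * (C3 / (1 + (nm (y1 - y2) : ℝ)) ^ (d - 4)) :=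
        mul_le_mul_of_nonneg_left (hs _ _ _) (by positivity)
    _ = C1 * C2 ^ 2 * C3 / (n : ℝ) ^ 2 / (1 + (nm (y1 - y2) : ℝ)) ^ (d - 4) := by ring

theorem arm_two {p0 A cM : ℝ} {M : ℕ} (H : Crit d p0 A cM M) : ∃ κ0 C : ℝ, 0 < κ0 ∧ 1 ≤ C ∧
    ∀ (s : ℝ) (N : ℕ) (y1 y2 : V d), 0 ≤ s → s ≤ 1 → 1 ≤ N → s * (N : ℝ) ^ 2 ≤ κ0 →
      (perc d (pn p0 s)).real (Ar y1 N ∩ Ar y2 N) ≤
        C / (N : ℝ) ^ 2 / (1 + (nm (y1 - y2) : ℝ)) ^ (d - 4) + C / (N : ℝ) ^ 4 := by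
  obtain ⟨κ1, C1, hκ1, hC1, h1⟩ := near_arm H
  obtain ⟨κ2, C2, hκ2, hC2, h2⟩ := near_two H
  obtain ⟨C3, hC3, h3⟩ := sk2 (d := d) (by have := H.hd; omega)
  have hC10 : 0 ≤ C1 := by linarith
  have hC20 : 0 ≤ C2 := by linarith
  have hC1sq : 1 ≤ C1 ^ 2 := one_le_pow₀ hC1
  have hK0 : 0 ≤ 256 * (C1 * C2 ^ 2 * C3) := by positivity
  have hK1 : (1 : ℝ) ≤ 64 ^ 4 * C1 ^ 2 := by linarith
  have hK2 : (32 : ℝ) ^ 4 ≤ 64 ^ 4 * C1 ^ 2 + 256 * (C1 * C2 ^ 2 * C3) := by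
    have : (32 : ℝ) ^ 4 ≤ 64 ^ 4 := by norm_num
    nlinarith
  refine ⟨min κ1 κ2, 64 ^ 4 * C1 ^ 2 + 256 * (C1 * C2 ^ 2 * C3), lt_min hκ1 hκ2, by linarith, ?_⟩
  intro s N y1 y2 hs0 hs1 hN hsN
  set C : ℝ := 64 ^ 4 * C1 ^ 2 + 256 * (C1 * C2 ^ 2 * C3) with hCdef
  have hp0 : 0 ≤ pn p0 s := H.hp0.le.trans (pn_ge H.hp1.le hs0)
  have hp1 : pn p0 s ≤ 1 := pn_le H.hp1.le hs1
  have hP := isProb_perc (d := d) (pn p0 s) hp0 hp1
  have hN0 : (0 : ℝ) < N := by exact_mod_cast hN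
  have hC0 : 0 ≤ C := by linarith
  have hT1 : 0 ≤ C / (N : ℝ) ^ 2 / (1 + (nm (y1 - y2) : ℝ)) ^ (d - 4) := by positivity
  have hT2 : 0 ≤ C / (N : ℝ) ^ 4 := by positivity
  -- smaller radii are allowed
  have hrad : ∀ r : ℕ, r ≤ N → s * (r : ℝ) ^ 2 ≤ κ1 ∧ s * (r : ℝ) ^ 2 ≤ κ2 := by
    intro r hr
    have hr' : (r : ℝ) ≤ N := by exact_mod_cast hr
    have h4 : s * (r : ℝ) ^ 2 ≤ s * (N : ℝ) ^ 2 :=
      mul_le_mul_of_nonneg_left (pow_le_pow_left₀ (Nat.cast_nonneg r) hr' 2) hs0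
    exact ⟨h4.trans (hsN.trans (min_le_left _ _)), h4.trans (hsN.trans (min_le_right _ _))⟩
  rcases lt_or_ge N 32 with hsm | hbig
  · -- trivial case
    have hN32 : (N : ℝ) ≤ 32 := by exact_mod_cast hsm.le
    have h5 : (N : ℝ) ^ 4 ≤ C := (pow_le_pow_left₀ hN0.le hN32 4).trans hK2
    have h6 : 1 ≤ C / (N : ℝ) ^ 4 := by
      rw [le_div_iff₀ (by positivity), one_mul]
      exact h5
    have h7 : (perc d (pn p0 s)).real (Ar y1 N ∩ Ar y2 N) ≤ 1 := measureReal_le_one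
    linarith
  · rcases le_or_gt (nm (y1 - y2)) (N / 8) with hnear | hfar
    · have hn1 : 1 ≤ N / 8 := by omega
      have hNn : (N : ℝ) ≤ 16 * ((N / 8 : ℕ) : ℝ) := by
        have : N ≤ 16 * (N / 8) := by omega
        exact_mod_cast this
      have hn0 : (0 : ℝ) < ((N / 8 : ℕ) : ℝ) := by exact_mod_cast hn1
      have ha : ∀ x : V d, (perc d (pn p0 s)).real (Ar x (N / 8)) ≤
          C1 / ((N / 8 : ℕ) : ℝ) ^ 2 := fun x =>
        h1 s (N / 8) x hs0 hs1 hn1 (hrad (N / 8) (by omega)).1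
      have ht : ∀ x y : V d, (perc d (pn p0 s)).real {ω | Cn (Bx y1 (2 * (N / 8))) ω x y} ≤
          C2 * kr (x - y) := fun x y =>
        h2 s (2 * (N / 8)) y1 x y hs0 hs1 (hrad (2 * (N / 8)) (by omega)).2
      have e1 := ArmTwo_disj hp0 hp1 y1 y2 (N / 8) N (B := 16) hC10 hn1 (by norm_num) hNn hN ha
      have e2 := ArmTwo_tree hp0 hp1 y1 y2 (N / 8) hC10 hC20 hn1 ha ht h3
      have e3 : (perc d (pn p0 s)).real (Ar y1 N ∩ Ar y2 N) ≤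
          (perc d (pn p0 s)).real (disj (Ar y1 (N / 8)) (Ar y2 (N / 8))) +
          (perc d (pn p0 s)).real (⋃ v ∈ BF y1 (2 * (N / 8)),
            disj (SCn {y1} (Bx y1 (2 * (N / 8))) v)
              (disj (SCn {y2} (Bx y1 (2 * (N / 8))) v) (Ar v (N / 8)))) :=
        (measureReal_mono (arm_dec y1 y2 (N / 8) N hn1 (by omega) hnear)
          (measure_ne_top _ _)).trans (measureReal_union_le _ _)
      have hden : (0 : ℝ) < (1 + (nm (y1 - y2) : ℝ)) ^ (d - 4) := by positivity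
      have e4 : C1 * C2 ^ 2 * C3 / ((N / 8 : ℕ) : ℝ) ^ 2 / (1 + (nm (y1 - y2) : ℝ)) ^ (d - 4) ≤
          C / (N : ℝ) ^ 2 / (1 + (nm (y1 - y2) : ℝ)) ^ (d - 4) := by
        refine div_le_div_of_nonneg_right ?_ hden.le
        rw [div_le_div_iff₀ (by positivity) (by positivity)]
        have h8 : (N : ℝ) ^ 2 ≤ (16 * ((N / 8 : ℕ) : ℝ)) ^ 2 := pow_le_pow_left₀ hN0.le hNn 2
        calc C1 * C2 ^ 2 * C3 * (N : ℝ) ^ 2
            ≤ C1 * C2 ^ 2 * C3 * (16 * ((N / 8 : ℕ) : ℝ)) ^ 2 :=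
              mul_le_mul_of_nonneg_left h8 (by positivity)
          _ = 256 * (C1 * C2 ^ 2 * C3) * ((N / 8 : ℕ) : ℝ) ^ 2 := by ring
          _ ≤ C * ((N / 8 : ℕ) : ℝ) ^ 2 := by
              refine mul_le_mul_of_nonneg_right ?_ (by positivity)
              rw [hCdef]
              linarith
      have e5 : 16 ^ 4 * C1 ^ 2 / (N : ℝ) ^ 4 ≤ C / (N : ℝ) ^ 4 := by
        refine div_le_div_of_nonneg_right ?_ (by positivity)
        rw [hCdef]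
        nlinarith
      linarith
    · have hn1 : 1 ≤ N / 32 := by omega
      have hNn : (N : ℝ) ≤ 64 * ((N / 32 : ℕ) : ℝ) := by
        have : N ≤ 64 * (N / 32) := by omega
        exact_mod_cast this
      have ha : ∀ x : V d, (perc d (pn p0 s)).real (Ar x (N / 32)) ≤
          C1 / ((N / 32 : ℕ) : ℝ) ^ 2 := fun x =>
        h1 s (N / 32) x hs0 hs1 hn1 (hrad (N / 32) (by omega)).1
      have e1 := ArmTwo_disj hp0 hp1 y1 y2 (N / 32) N (B := 64) hC10 hn1 (by norm_num) hNn hN ha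
      have e3 : (perc d (pn p0 s)).real (Ar y1 N ∩ Ar y2 N) ≤
          (perc d (pn p0 s)).real (disj (Ar y1 (N / 32)) (Ar y2 (N / 32))) :=
        measureReal_mono (arm_far y1 y2 (N / 32) N (by omega) (by omega)) (measure_ne_top _ _)
      have e5 : 64 ^ 4 * C1 ^ 2 / (N : ℝ) ^ 4 ≤ C / (N : ℝ) ^ 4 := by
        refine div_le_div_of_nonneg_right ?_ (by positivity)
        rw [hCdef]
        linarith
      linarith

end H95LBS
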