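import Pool.Agent.H95.LBS.MsDef
import Pool.Agent.H95.LBS.LawI

/-!
PROJECT DS (MP_0d9ad5_pr), JOB DS-MsC. Probability of bad boxes (section 8 of note 2700).
PROOF. `gq` = good blocks of the pair `q`. `bad (gq ..) K k j` depends on the edges inside the union of the
boxes `Bx (L z) (R L)`, `z ∈ cube (K^k) j`. Put `r = 2R+1 >= 3`. If `i ≠ i'` are congruent mod `r` in all coordinates
then some coordinate differs by at least `r`, blocks of the two boxes have distance `>= (r-1) K^k + 1 >= 2R+1`, so the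
edge sets are disjoint (`nm (L z - L z') > 2 R L`). Induction on `k`: if the box `j` is bad at scale `k+1`, at least
`K/4 > 3 r^d` sub-boxes are bad (pigeonhole over the `r^d` classes): four different bad sub-boxes in one class;
union bound over the `(K^d)^4` 4-tuples with `indep_manyP` (`n = 4`):
`<= K^(4d) (K^(-8d(k+1)))^4 <= K^(-8d(k+2))`. `hk_prob`: union over `K^d` sub-boxes (the bound for the probability is
uniform in the index).
-/

namespace H95LBS

open H5DF H95LBD MeasureTheory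

variable {d : ℕ}

/-- The good blocks. -/
def gq (E : Set (Cfg d × Cfg d)) (L : ℕ) (q : Cfg d × Cfg d) (z : V d) : Prop :=
  (shift ((L : ℤ) • z) q.1, shift ((L : ℤ) • z) q.2) ∈ E

/-- The edges on which the box `j` of scale `k` depends. -/
def MsC_U (R L K k : ℕ) (j : V d) : Set (Ed d) :=
  {e | ∃ z ∈ cube (K ^ k) j, e ∈ ins (Bx ((L : ℤ) • z) (R * L))}

lemma MsC_gq_dep (E : Set (Cfg d × Cfg d)) (R L : ℕ)
    (hdep : ∀ q q' : Cfg d × Cfg d, (∀ e ∈ ins (Bx (0 : V d) (R * L)), q.1 e = q'.1 e ∧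
      q.2 e = q'.2 e) → q ∈ E → q' ∈ E) (z : V d) (q q' : Cfg d × Cfg d)
    (h : ∀ e ∈ ins (Bx ((L : ℤ) • z) (R * L)), q.1 e = q'.1 e ∧ q.2 e = q'.2 e)
    (hg : gq E L q z) : gq E L q' z := by
  refine hdep _ _ ?_ hg
  rintro ⟨x, a⟩ ⟨h1, h2⟩
  refine h (x + (L : ℤ) • z, a) ⟨?_, ?_⟩
  · rw [mem_Bx] at h1 ⊢
    simpa using h1
  · rw [mem_Bx] at h2 ⊢
    have : x + (L : ℤ) • z + Pi.single a 1 - (L : ℤ) • z = x + Pi.single a 1 - 0 := by abel
    rw [this]
    exact h2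

lemma MsC_cube_sub {K k : ℕ} {i j z : V d} (hi : i ∈ cube K j) (hz : z ∈ cube (K ^ k) i) :
    z ∈ cube (K ^ (k + 1)) j := by
  rw [mem_cube] at hi hz ⊢
  intro a
  obtain ⟨h1, h2⟩ := hi a
  obtain ⟨h3, h4⟩ := hz a
  have hk : (0 : ℤ) ≤ ((K ^ k : ℕ) : ℤ) := Int.natCast_nonneg _
  have hK : ((K ^ (k + 1) : ℕ) : ℤ) = (K : ℤ) * ((K ^ k : ℕ) : ℤ) := by
    push_cast
    ring
  rw [hK]
  constructor
  · calc j a * ((K : ℤ) * ((K ^ k : ℕ) : ℤ)) = (j a * K) * ((K ^ k : ℕ) : ℤ) := by ring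
      _ ≤ i a * ((K ^ k : ℕ) : ℤ) := mul_le_mul_of_nonneg_right h1 hk
      _ ≤ z a := h3
  · calc z a < (i a + 1) * ((K ^ k : ℕ) : ℤ) := h4
      _ ≤ ((j a + 1) * K) * ((K ^ k : ℕ) : ℤ) := mul_le_mul_of_nonneg_right (by omega) hk
      _ = (j a + 1) * ((K : ℤ) * ((K ^ k : ℕ) : ℤ)) := by ring

lemma MsC_bad_dep (E : Set (Cfg d × Cfg d)) (R L K : ℕ)
    (hdep : ∀ q q' : Cfg d × Cfg d, (∀ e ∈ ins (Bx (0 : V d) (R * L)), q.1 e = q'.1 e ∧
      q.2 e = q'.2 e) → q ∈ E → q' ∈ E) (k : ℕ) : ∀ (j : V d) (q q' : Cfg d × Cfg d),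
    (∀ e ∈ MsC_U R L K k j, q.1 e = q'.1 e ∧ q.2 e = q'.2 e) →
    (bad (gq E L q) K k j ↔ bad (gq E L q') K k j) := by
  classical
  induction k with
  | zero =>
    intro j q q' h
    have hj : j ∈ cube (K ^ 0) j := by
      rw [mem_cube]
      intro a
      simp
    have h1 : ∀ e ∈ ins (Bx ((L : ℤ) • j) (R * L)), q.1 e = q'.1 e ∧ q.2 e = q'.2 e :=
      fun e he => h e ⟨j, hj, he⟩
    have h2 : gq E L q j ↔ gq E L q' j :=
      ⟨MsC_gq_dep E R L hdep j q q' h1, MsC_gq_dep E R L hdep j q' q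
        (fun e he => ⟨(h1 e he).1.symm, (h1 e he).2.symm⟩)⟩
    simp only [bad, h2]
  | succ k ih =>
    intro j q q' h
    have h1 : ∀ i ∈ cube K j, (bad (gq E L q) K k i ↔ bad (gq E L q') K k i) := by
      intro i hi
      refine ih i q q' fun e he => ?_
      obtain ⟨z, hz, hze⟩ := he
      exact h e ⟨z, MsC_cube_sub hi hz, hze⟩
    have h2 : (cube K j).filter (fun i => bad (gq E L q) K k i) =
        (cube K j).filter (fun i => bad (gq E L q') K k i) := Finset.filter_congr h1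
    simp only [bad]
    rw [h2]

lemma MsC_meas (E : Set (Cfg d × Cfg d)) (hE : MeasurableSet E) (L K k : ℕ) : ∀ j : V d,
    MeasurableSet {q : Cfg d × Cfg d | bad (gq E L q) K k j} := by
  classical
  induction k with
  | zero =>
    intro j
    have h1 : Measurable fun q : Cfg d × Cfg d =>
        ((shift ((L : ℤ) • j) q.1, shift ((L : ℤ) • j) q.2) : Cfg d × Cfg d) :=
      ((measurable_shift _).comp measurable_fst).prodMk ((measurable_shift _).comp measurable_snd)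
    have h2 : {q : Cfg d × Cfg d | bad (gq E L q) K 0 j} =
        (fun q : Cfg d × Cfg d =>
        ((shift ((L : ℤ) • j) q.1, shift ((L : ℤ) • j) q.2) : Cfg d × Cfg d)) ⁻¹' Eᶜ := by
      ext q
      simp [bad, gq]
    rw [h2]
    exact h1 hE.compl
  | succ k ih =>
    intro j
    have h1 : Measurable fun q : Cfg d × Cfg d =>
        ((cube K j).filter (fun i => bad (gq E L q) K k i)).card := by
      simp only [Finset.card_filter]
      refine Finset.measurable_sum _ fun i _ => ?_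
      exact Measurable.ite (ih i) measurable_const measurable_const
    have h2 : {q : Cfg d × Cfg d | bad (gq E L q) K (k + 1) j} =
        (fun q : Cfg d × Cfg d => ((cube K j).filter (fun i => bad (gq E L q) K k i)).card) ⁻¹'
          {m | K ≤ 4 * m} := by
      ext q
      simp [bad]
    rw [h2]
    exact h1 (MeasurableSet.of_discrete)

/-- Two different congruent boxes depend on disjoint sets of edges. -/
lemma MsC_disj (R L K k : ℕ) (hL : 1 ≤ L) (hK : 1 ≤ K) {i i' : V d} (hne : i ≠ i')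
    (hmod : ∀ a, i a % ((2 * R + 1 : ℕ) : ℤ) = i' a % ((2 * R + 1 : ℕ) : ℤ)) :
    Disjoint (MsC_U R L K k i) (MsC_U R L K k i') := by
  rw [Set.disjoint_left]
  rintro e ⟨z, hz, h1, -⟩ ⟨z', hz', h2, -⟩
  obtain ⟨a, ha⟩ := Function.ne_iff.1 hne
  have h3 := nm_le.1 (mem_Bx.1 h1) a
  have h4 := nm_le.1 (mem_Bx.1 h2) a
  simp only [Pi.sub_apply, Pi.smul_apply, smul_eq_mul] at h3 h4
  have h5 := (mem_cube.1 hz) a
  have h6 := (mem_cube.1 hz') a
  have hKk : (1 : ℤ) ≤ ((K ^ k : ℕ) : ℤ) := by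
    exact_mod_cast Nat.one_le_pow _ _ hK
  have hdvd : ((2 * R + 1 : ℕ) : ℤ) ∣ i a - i' a := Int.ModEq.dvd (hmod a).symm
  obtain ⟨c, hc⟩ := hdvd
  have hc0 : c ≠ 0 := by
    rintro rfl
    apply ha
    rw [mul_zero] at hc
    omega
  have hLz : (L : ℤ) * |z a - z' a| ≤ (L : ℤ) * (2 * R) := by
    have e1 : (L : ℤ) * |z a - z' a| = |(e.1 a - L * z' a) - (e.1 a - L * z a)| := by
      have : (e.1 a - L * z' a) - (e.1 a - L * z a) = (L : ℤ) * (z a - z' a) := by ring
      rw [this, abs_mul, abs_of_nonneg (Int.natCast_nonneg L)]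
    have e2 : |e.1 a - L * z a| ≤ ((R * L : ℕ) : ℤ) := by
      rw [Int.abs_eq_natAbs]
      exact_mod_cast h3
    have e3 : |e.1 a - L * z' a| ≤ ((R * L : ℕ) : ℤ) := by
      rw [Int.abs_eq_natAbs]
      exact_mod_cast h4
    rw [e1]
    calc |(e.1 a - L * z' a) - (e.1 a - L * z a)| ≤ |e.1 a - L * z' a| + |e.1 a - L * z a| :=
          abs_sub _ _
      _ ≤ ((R * L : ℕ) : ℤ) + ((R * L : ℕ) : ℤ) := add_le_add e3 e2
      _ = (L : ℤ) * (2 * R) := by push_cast; ring
  have hzz : |z a - z' a| ≤ 2 * R := le_of_mul_le_mul_left hLz (by exact_mod_cast hL)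
  have hr : (1 : ℤ) ≤ |c| := Int.one_le_abs hc0
  -- the other bound
  obtain ⟨h51, h52⟩ := h5
  obtain ⟨h61, h62⟩ := h6
  set N : ℤ := ((K ^ k : ℕ) : ℤ) with hN
  rcases lt_or_gt_of_ne hc0 with hneg | hpos
  · -- i a < i' a
    have e1 : i' a - i a ≥ 2 * R + 1 := by
      have : i' a - i a = ((2 * R + 1 : ℕ) : ℤ) * (-c) := by rw [mul_neg, ← hc]; ring
      rw [this]
      push_cast
      nlinarith
    have e2 : z' a - z a ≥ (i' a - (i a + 1)) * N + 1 := by
      have : (i' a - (i a + 1)) * N = i' a * N - (i a + 1) * N := by ring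
      rw [this]
      linarith
    have e3 : (i' a - (i a + 1)) * N ≥ 2 * R := by nlinarith
    have e4 := abs_le.1 hzz
    linarith [e4.1]
  · have e1 : i a - i' a ≥ 2 * R + 1 := by
      rw [hc]
      push_cast
      nlinarith
    have e2 : z a - z' a ≥ (i a - (i' a + 1)) * N + 1 := by
      have : (i a - (i' a + 1)) * N = i a * N - (i' a + 1) * N := by ring
      rw [this]
      linarith
    have e3 : (i a - (i' a + 1)) * N ≥ 2 * R := by nlinarith
    have e4 := abs_le.1 hzz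
    linarith [e4.2]

lemma MsC_card_cube (K : ℕ) (j : V d) : (cube K j).card = K ^ d := by
  unfold cube
  rw [Fintype.card_piFinset]
  have : ∀ i : Fin d, (Finset.Ico (j i * (K : ℤ)) ((j i + 1) * K)).card = K := by
    intro i
    rw [Int.card_Ico]
    have : (j i + 1) * (K : ℤ) - j i * K = K := by ring
    rw [this]
    simp
  simp [this]

/-- Four different bad sub-boxes in one class. -/
lemma MsC_four (R K : ℕ) (hK : 12 * (2 * R + 1) ^ d + 4 ≤ K) (S : Finset (V d))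
    (hS : K ≤ 4 * S.card) : ∃ t : Fin 4 → V d, (∀ m, t m ∈ S) ∧ Function.Injective t ∧
      ∀ m m' a, t m a % ((2 * R + 1 : ℕ) : ℤ) = t m' a % ((2 * R + 1 : ℕ) : ℤ) := by
  classical
  set r : ℕ := 2 * R + 1 with hr
  let f : V d → V d := fun i a => i a % (r : ℤ)
  let T : Finset (V d) := Fintype.piFinset fun _ => Finset.Ico (0 : ℤ) r
  have hrpos : (0 : ℤ) < (r : ℤ) := by omega
  have hf : ∀ i ∈ S, f i ∈ T := by
    intro i _
    rw [Fintype.mem_piFinset]
    intro a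
    rw [Finset.mem_Ico]
    exact ⟨Int.emod_nonneg _ hrpos.ne', Int.emod_lt_of_pos _ hrpos⟩
  have hT : T.card = r ^ d := by
    simp [T, Fintype.card_piFinset]
  have hlt : T.card * 3 < S.card := by
    rw [hT]
    omega
  obtain ⟨y, -, hy⟩ := Finset.exists_lt_card_fiber_of_mul_lt_card_of_maps_to hf hlt
  have h4 : 4 ≤ (S.filter fun x => f x = y).card := hy
  obtain ⟨U, hU, hUc⟩ := Finset.exists_subset_card_eq h4
  let e := U.equivFinOfCardEq hUc
  refine ⟨fun m => (e.symm m : V d), fun m => ?_, ?_, fun m m' a => ?_⟩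
  · exact (Finset.mem_filter.1 (hU (e.symm m).2)).1
  · intro m m' h
    exact e.symm.injective (Subtype.ext h)
  · have h1 := (Finset.mem_filter.1 (hU (e.symm m).2)).2
    have h2 := (Finset.mem_filter.1 (hU (e.symm m').2)).2
    exact congrFun (h1.trans h2.symm) a

lemma MsC_step {p s : ℝ} (h0 : 0 ≤ p) (h1 : p ≤ 1) (hs0 : 0 ≤ s) (hs1 : s ≤ 1)
    (E : Set (Cfg d × Cfg d)) (hE : MeasurableSet E) (R L K : ℕ) (hL : 1 ≤ L)
    (hdep : ∀ q q' : Cfg d × Cfg d, (∀ e ∈ ins (Bx (0 : V d) (R * L)), q.1 e = q'.1 e ∧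
      q.2 e = q'.2 e) → q ∈ E → q' ∈ E)
    (hK : 12 * (2 * R + 1) ^ d + 4 ≤ K) (k : ℕ) (δ : ℝ)
    (hδ : ∀ j : V d, (PP d p s).real {q | bad (gq E L q) K k j} ≤ δ) (j : V d) :
    (PP d p s).real {q | bad (gq E L q) K (k + 1) j} ≤ (K : ℝ) ^ (4 * d) * δ ^ 4 := by
  classical
  have hpp : IsProbabilityMeasure (PP d p s) := isProb_PP h0 h1 hs0 hs1
  let good : (Fin 4 → V d) → Prop := fun t => Function.Injective t ∧
      ∀ m m' a, t m a % ((2 * R + 1 : ℕ) : ℤ) = t m' a % ((2 * R + 1 : ℕ) : ℤ)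
  let T : Finset (Fin 4 → V d) := (Fintype.piFinset fun _ => cube K j).filter good
  let u : ℕ → Fin 4 := fun m => ⟨m % 4, Nat.mod_lt _ (by norm_num)⟩
  have hsub : {q : Cfg d × Cfg d | bad (gq E L q) K (k + 1) j} ⊆
      ⋃ t ∈ T, {q | ∀ m < 4, q ∈ {q : Cfg d × Cfg d | bad (gq E L q) K k (t (u m))}} := by
    intro q hq
    have hq' : K ≤ 4 * ((cube K j).filter (fun i => bad (gq E L q) K k i)).card := by
      simpa [bad] using hq
    obtain ⟨t, ht1, ht2, ht3⟩ := MsC_four R K hK _ hq'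
    rw [Set.mem_iUnion₂]
    refine ⟨t, ?_, fun m _ => ?_⟩
    · rw [Finset.mem_filter]
      refine ⟨?_, ht2, ht3⟩
      rw [Fintype.mem_piFinset]
      intro m
      exact (Finset.mem_filter.1 (ht1 m)).1
    · exact (Finset.mem_filter.1 (ht1 (u m))).2
  have hcard : (T.card : ℝ) ≤ (K : ℝ) ^ (4 * d) := by
    have h2 : T.card ≤ (Fintype.piFinset fun _ : Fin 4 => cube K j).card := Finset.card_filter_le _ _
    have h3 : (Fintype.piFinset fun _ : Fin 4 => cube K j).card = K ^ (4 * d) := by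
      rw [Fintype.card_piFinset]
      simp only [MsC_card_cube, Finset.prod_const, Finset.card_univ, Fintype.card_fin]
      rw [← pow_mul, mul_comm]
    rw [h3] at h2
    exact_mod_cast h2
  have hδ0 : 0 ≤ δ := measureReal_nonneg.trans (hδ j)
  calc (PP d p s).real {q | bad (gq E L q) K (k + 1) j}
      ≤ (PP d p s).real (⋃ t ∈ T,
          {q | ∀ m < 4, q ∈ {q : Cfg d × Cfg d | bad (gq E L q) K k (t (u m))}}) :=
        measureReal_mono hsub (measure_ne_top _ _)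
    _ ≤ ∑ t ∈ T, (PP d p s).real
          {q | ∀ m < 4, q ∈ {q : Cfg d × Cfg d | bad (gq E L q) K k (t (u m))}} :=
        measureReal_biUnion_finset_le _ _
    _ ≤ ∑ t ∈ T, δ ^ 4 := by
        refine Finset.sum_le_sum fun t ht => ?_
        obtain ⟨-, ht1, ht2⟩ := Finset.mem_filter.1 ht
        refine indep_manyP h0 h1 hs0 hs1 4 (fun m => MsC_U R L K k (t (u m))) ?_
          (fun m => {q : Cfg d × Cfg d | bad (gq E L q) K k (t (u m))})
          (fun m _ => MsC_meas E hE L K k _) ?_ δ (fun m _ => hδ _)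
        · intro a ha b hb hab
          refine MsC_disj R L K k hL (by omega) ?_ (fun c => ht2 _ _ c)
          intro h
          have h3 := ht1 h
          simp only [u, Fin.mk.injEq] at h3
          omega
        · intro m _ q q' h hq
          exact (MsC_bad_dep E R L K hdep k _ q q' h).1 hq
    _ = (T.card : ℝ) * δ ^ 4 := by rw [Finset.sum_const, nsmul_eq_mul]
    _ ≤ (K : ℝ) ^ (4 * d) * δ ^ 4 := mul_le_mul_of_nonneg_right hcard (by positivity)

theorem bad_prob {p s : ℝ} (h0 : 0 ≤ p) (h1 : p ≤ 1) (hs0 : 0 ≤ s) (hs1 : s ≤ 1)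
    (E : Set (Cfg d × Cfg d)) (hE : MeasurableSet E) (R L K : ℕ) (hR : 1 ≤ R) (hL : 1 ≤ L)
    (hd : 1 ≤ d)
    (hdep : ∀ q q' : Cfg d × Cfg d, (∀ e ∈ ins (Bx (0 : V d) (R * L)), q.1 e = q'.1 e ∧
      q.2 e = q'.2 e) → q ∈ E → q' ∈ E)
    (hK : 12 * (2 * R + 1) ^ d + 4 ≤ K)
    (hp : (PP d p s).real Eᶜ ≤ 1 / (K : ℝ) ^ (8 * d)) (k : ℕ) (j : V d) :
    (PP d p s).real {q | bad (gq E L q) K k j} ≤ 1 / (K : ℝ) ^ (8 * d * (k + 1)) := by
  induction k generalizing j with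
  | zero =>
    have h2 : {q : Cfg d × Cfg d | bad (gq E L q) K 0 j} =
        (fun q : Cfg d × Cfg d =>
        ((shift ((L : ℤ) • j) q.1, shift ((L : ℤ) • j) q.2) : Cfg d × Cfg d)) ⁻¹' Eᶜ := by
      ext q
      simp [bad, gq]
    have h3 : Measurable fun q : Cfg d × Cfg d =>
        ((shift ((L : ℤ) • j) q.1, shift ((L : ℤ) • j) q.2) : Cfg d × Cfg d) :=
      ((measurable_shift _).comp measurable_fst).prodMk ((measurable_shift _).comp measurable_snd)
    have h4 := map_shP h0 h1 hs0 hs1 ((L : ℤ) • j)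
    have h5 : (PP d p s).real {q | bad (gq E L q) K 0 j} = (PP d p s).real Eᶜ := by
      rw [h2, ← map_measureReal_apply h3 hE.compl, h4]
    rw [h5]
    simpa using hp
  | succ k ih =>
    have hK1 : (1 : ℝ) ≤ K := by
      have : 1 ≤ K := by omega
      exact_mod_cast this
    refine (MsC_step h0 h1 hs0 hs1 E hE R L K hL hdep hK k _ ih j).trans ?_
    have hKpos : (0 : ℝ) < K := by linarith
    rw [div_pow, one_pow, ← pow_mul, mul_one_div, div_le_div_iff₀ (by positivity) (by positivity),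
      one_mul, ← pow_add]
    exact pow_le_pow_right₀ hK1 (by nlinarith)

theorem hk_prob {p s : ℝ} (h0 : 0 ≤ p) (h1 : p ≤ 1) (hs0 : 0 ≤ s) (hs1 : s ≤ 1)
    (E : Set (Cfg d × Cfg d)) (hE : MeasurableSet E) (R L K : ℕ) (hR : 1 ≤ R) (hL : 1 ≤ L)
    (hd : 1 ≤ d)
    (hdep : ∀ q q' : Cfg d × Cfg d, (∀ e ∈ ins (Bx (0 : V d) (R * L)), q.1 e = q'.1 e ∧
      q.2 e = q'.2 e) → q ∈ E → q' ∈ E)
    (hK : 12 * (2 * R + 1) ^ d + 4 ≤ K)
    (hp : (PP d p s).real Eᶜ ≤ 1 / (K : ℝ) ^ (8 * d)) (k : ℕ) (z : V d) :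
    (PP d p s).real {q | ¬ ∀ i, k ≤ i → Hk (gq E L q) K i z} ≤ 2 / (K : ℝ) ^ (7 * d * (k + 1)) := by
  classical
  have hpp : IsProbabilityMeasure (PP d p s) := isProb_PP h0 h1 hs0 hs1
  have hK2 : (2 : ℝ) ≤ K := by
    have : 2 ≤ K := by omega
    exact_mod_cast this
  have hK1 : (1 : ℝ) ≤ K := by linarith
  have hKpos : (0 : ℝ) < K := by linarith
  set a : ℝ := 1 / (K : ℝ) ^ (7 * d * (k + 1)) with ha
  have ha0 : 0 ≤ a := by positivity
  have hone : ∀ i : ℕ, (PP d p s) {q | ¬ Hk (gq E L q) K (k + i) z} ≤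
      ENNReal.ofReal (a * (1 / 2) ^ i) := by
    intro i
    have hsub : {q : Cfg d × Cfg d | ¬ Hk (gq E L q) K (k + i) z} ⊆
        ⋃ j ∈ cube K (gi K (k + i + 1) z), {q | bad (gq E L q) K (k + i) j} := by
      intro q hq
      simp only [Hk, Set.mem_ofPred_eq, not_forall, not_not, exists_prop] at hq
      obtain ⟨j, hj, hb⟩ := hq
      rw [Set.mem_iUnion₂]
      exact ⟨j, hj, hb⟩
    have hreal : (PP d p s).real {q | ¬ Hk (gq E L q) K (k + i) z} ≤ a * (1 / 2) ^ i := by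
      calc (PP d p s).real {q | ¬ Hk (gq E L q) K (k + i) z}
          ≤ (PP d p s).real (⋃ j ∈ cube K (gi K (k + i + 1) z),
              {q | bad (gq E L q) K (k + i) j}) := measureReal_mono hsub (measure_ne_top _ _)
        _ ≤ ∑ j ∈ cube K (gi K (k + i + 1) z), (PP d p s).real {q | bad (gq E L q) K (k + i) j} :=
            measureReal_biUnion_finset_le _ _
        _ ≤ ∑ j ∈ cube K (gi K (k + i + 1) z), 1 / (K : ℝ) ^ (8 * d * (k + i + 1)) :=
            Finset.sum_le_sum fun j _ =>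
              bad_prob h0 h1 hs0 hs1 E hE R L K hR hL hd hdep hK hp (k + i) j
        _ = (K : ℝ) ^ d * (1 / (K : ℝ) ^ (8 * d * (k + i + 1))) := by
            rw [Finset.sum_const, nsmul_eq_mul, MsC_card_cube]
            push_cast
            rfl
        _ ≤ a * (1 / 2) ^ i := by
            have e1 : a * (1 / 2) ^ i = 1 / ((K : ℝ) ^ (7 * d * (k + 1)) * 2 ^ i) := by
              rw [ha, one_div_pow, one_div_mul_one_div]
            rw [e1, mul_one_div, div_le_div_iff₀ (by positivity) (by positivity), one_mul]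
            calc (K : ℝ) ^ d * ((K : ℝ) ^ (7 * d * (k + 1)) * 2 ^ i)
                ≤ (K : ℝ) ^ d * ((K : ℝ) ^ (7 * d * (k + 1)) * (K : ℝ) ^ i) := by
                  gcongr
              _ = (K : ℝ) ^ (d + (7 * d * (k + 1) + i)) := by rw [← pow_add, ← pow_add]
              _ ≤ (K : ℝ) ^ (8 * d * (k + i + 1)) := by
                  apply pow_le_pow_right₀ hK1
                  nlinarith
    rw [← ofReal_measureReal]
    exact ENNReal.ofReal_le_ofReal hreal
  have hsub : {q : Cfg d × Cfg d | ¬ ∀ i, k ≤ i → Hk (gq E L q) K i z} ⊆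
      ⋃ i : ℕ, {q | ¬ Hk (gq E L q) K (k + i) z} := by
    intro q hq
    simp only [Set.mem_ofPred_eq, not_forall, exists_prop] at hq
    obtain ⟨i, hi, hh⟩ := hq
    rw [Set.mem_iUnion]
    refine ⟨i - k, ?_⟩
    have : k + (i - k) = i := by omega
    rw [Set.mem_ofPred_eq, this]
    exact hh
  have hsum : Summable fun i : ℕ => a * (1 / 2 : ℝ) ^ i :=
    summable_geometric_two.mul_left a
  have htot : (PP d p s) {q | ¬ ∀ i, k ≤ i → Hk (gq E L q) K i z} ≤ ENNReal.ofReal (a * 2) := by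
    calc (PP d p s) {q | ¬ ∀ i, k ≤ i → Hk (gq E L q) K i z}
        ≤ (PP d p s) (⋃ i : ℕ, {q | ¬ Hk (gq E L q) K (k + i) z}) := measure_mono hsub
      _ ≤ ∑' i : ℕ, (PP d p s) {q | ¬ Hk (gq E L q) K (k + i) z} := measure_iUnion_le _
      _ ≤ ∑' i : ℕ, ENNReal.ofReal (a * (1 / 2) ^ i) := ENNReal.tsum_le_tsum hone
      _ = ENNReal.ofReal (∑' i : ℕ, a * (1 / 2) ^ i) :=
          (ENNReal.ofReal_tsum_of_nonneg (fun i => by positivity) hsum).symm
      _ = ENNReal.ofReal (a * 2) := by rw [tsum_mul_left, tsum_geometric_two]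
  have h3 : (PP d p s).real {q | ¬ ∀ i, k ≤ i → Hk (gq E L q) K i z} ≤ a * 2 :=
    ENNReal.toReal_le_of_le_ofReal (by positivity) htot
  calc (PP d p s).real {q | ¬ ∀ i, k ≤ i → Hk (gq E L q) K i z} ≤ a * 2 := h3
    _ = 2 / (K : ℝ) ^ (7 * d * (k + 1)) := by rw [ha]; ring

end H95LBS
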