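import Pool.Agent.H95.LBS.Block
import Pool.Agent.H95.LBS.MsC

/-!
PROJECT DS (MP_0d9ad5_pr). Assembly: definitions (section 9 of note 2700).
-/

namespace H95LBS

open H5DF H95LBD MeasureTheory

variable {d : ℕ}

/-- Points of infinite clusters. -/
def InfS (ω : Cfg d) : Set (V d) := {x | (cluster ω x).Infinite}

/-- The function `x_{i0} + g (T_x ω)`. -/
noncomputable def hf (i0 : Fin d) (g : Cfg d → ℝ) (ω : Cfg d) (x : V d) : ℝ :=
  ((x i0 : ℤ) : ℝ) + g (shift x ω)

/-- Translation of pairs. -/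
def shq (a : V d) (q : Cfg d × Cfg d) : Cfg d × Cfg d := (shift a q.1, shift a q.2)

open Classical in
/-- The energy of `hf` at the points of infinite clusters in `B`. -/
noncomputable def En (i0 : Fin d) (g : Cfg d → ℝ) (B : Finset (V d)) (q : Cfg d × Cfg d) : ℝ :=
  ∑ x ∈ B, ∑ σ : Dir d, if x ∈ InfS (un q.1 q.2) ∧ un q.1 q.2 (edge x σ) = true then
    (hf i0 g (un q.1 q.2) (x + step σ) - hf i0 g (un q.1 q.2) x) ^ 2 else 0

open Classical in
/-- Big points of the cube `z` in infinite clusters. -/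
noncomputable def Tz (M L : ℕ) (c1 b1 : ℝ) (q : Cfg d × Cfg d) (z : V d) : Finset (V d) :=
  (cube L z).filter fun x => x ∈ BG M L c1 b1 q.1 ∧ x ∈ InfS (un q.1 q.2)

open Classical in
/-- `μ` is a median of `h` on `T`, attained. -/
def IsMd (T : Finset (V d)) (h : V d → ℝ) (μ : ℝ) : Prop :=
  (∃ x ∈ T, μ = h x) ∧ T.card ≤ 2 * (T.filter (fun x => h x ≤ μ)).card ∧
    T.card ≤ 2 * (T.filter (fun x => μ ≤ h x)).card

/-- The energy density of the corrector `g`. -/
noncomputable def sg (i0 : Fin d) (g : Cfg d → ℝ) (p : ℝ) : ℝ :=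
  ∑ s : Dir d, ∫ ω in {ω : Cfg d | (cluster ω 0).Infinite ∧ ω (edge 0 s) = true},
    ((((step s : V d) i0 : ℤ) : ℝ) + g (shift (step s) ω) - g ω) ^ 2 ∂(perc d p)

end H95LBS
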