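import Pool.Agent.H95.LBS.Def
import Pool.Agent.H5.DF.Energy2
import Pool.Agent.H95.LBD.DecC
import Pool.Agent.H95.LBD.TreeB

/-!
PROJECT DS (MP_0d9ad5_pr), JOB DS-AsmE. Taking expectations (abstract; section 9 of note 2700).
PROOF. Integrate `hineq` (each `k j` is finite everywhere; `E K^(k j) <= 1 + ∑_{k>=0} K^(k+1) 2/K^(7d(k+1)) <= 3`). Right side: with
`κ = max (k j) (k (j+1))`, `t_i = sqrt(E1) K^(3di)/2`, `sqrt (F b) <= (t_i + F b / t_i)/2` on `κ = i`, and `P(κ = i) <= 4/K^(6di)`, so the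
expectation of the sum over the ball is at most `∑_i (4K^i+1)^d 2 sqrt(E1)/K^(3di) <= 4 5^d sqrt(E1)` for every `E1 > E0`.
So `L N - 5L - 2|G| <= N 4 5^d sqrt(E1)` for all `N`; divide by `N`; finally `E1 -> E0`. Everything with `lintegral`.
-/

namespace H95LBS

open H5DF H95LBD MeasureTheory

variable {d : ℕ}

private lemma AsmE_pow (K n : ℕ) : ((K : ENNReal)) ^ n ≤
    1 + ∑' i : ℕ, (if i + 1 ≤ n then (K : ENNReal) ^ (i + 1) else 0) := by
  rcases Nat.eq_zero_or_pos n with rfl | hn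
  · simp
  · refine le_trans ?_ le_add_self
    refine le_trans ?_ (ENNReal.le_tsum (n - 1))
    rw [if_pos (by omega), Nat.sub_add_cancel hn]

private lemma AsmE_real {Ω : Type*} [MeasurableSpace Ω] (μ : Measure Ω) [IsProbabilityMeasure μ]
    (A : Set Ω) (c : ℝ) (h : μ.real A ≤ c) : μ A ≤ ENNReal.ofReal c := by
  rw [← ENNReal.ofReal_toReal (measure_ne_top μ A)]
  exact ENNReal.ofReal_le_ofReal h

private lemma AsmE_meas {Ω : Type*} [MeasurableSpace Ω] (κ : Ω → ℕ) (hκ : Measurable κ)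
    (f : ℕ → Ω → ENNReal) (hf : ∀ n, Measurable (f n)) : Measurable (fun w => f (κ w) w) := by
  have h8 : Measurable (fun p : Ω × ℕ => f p.2 p.1) := measurable_from_prod_countable_left hf
  exact h8.comp (measurable_id.prodMk hκ)

private lemma AsmE_Epow {Ω : Type*} [MeasurableSpace Ω] (μ : Measure Ω) [IsProbabilityMeasure μ]
    (hd : 1 ≤ d) (K : ℕ) (hK : 4 ≤ K) (k : Ω → ℕ) (hk : Measurable k)
    (hkp : ∀ i : ℕ, μ.real {w | i + 1 ≤ k w} ≤ 2 / (K : ℝ) ^ (7 * d * (i + 1))) :
    ∫⁻ w, ((K : ENNReal)) ^ (k w) ∂μ ≤ ENNReal.ofReal 2 := by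
  have hK0 : (0 : ℝ) < K := by
    have : 0 < K := by omega
    exact_mod_cast this
  have hK4 : (4 : ℝ) ≤ K := by exact_mod_cast hK
  have hm : ∀ i : ℕ, MeasurableSet {w | i + 1 ≤ k w} := fun i => hk (measurableSet_Ici (a := i + 1))
  calc ∫⁻ w, ((K : ENNReal)) ^ (k w) ∂μ
      ≤ ∫⁻ w, (1 + ∑' i : ℕ, ({w | i + 1 ≤ k w}.indicator (fun _ => (K : ENNReal) ^ (i + 1)) w)) ∂μ := by
        refine lintegral_mono fun w => (AsmE_pow K (k w)).trans (le_of_eq ?_)
        refine congrArg (1 + ·) (tsum_congr fun i => ?_)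
        rw [Set.indicator_apply]
        rfl
    _ = 1 + ∑' i : ℕ, (K : ENNReal) ^ (i + 1) * μ {w | i + 1 ≤ k w} := by
        rw [lintegral_add_left measurable_const, lintegral_const, measure_univ, mul_one,
          lintegral_tsum fun i => (measurable_const.indicator (hm i)).aemeasurable]
        congr 1
        refine tsum_congr fun i => ?_
        rw [lintegral_indicator_const (hm i)]
    _ ≤ 1 + ∑' i : ℕ, ENNReal.ofReal ((1 / 2 : ℝ) * (1 / 2) ^ i) := by
        refine add_le_add le_rfl (ENNReal.tsum_le_tsum fun i => ?_)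
        have h1 := AsmE_real μ _ _ (hkp i)
        refine (mul_le_mul_right h1 _).trans ?_
        rw [← ENNReal.ofReal_natCast, ← ENNReal.ofReal_pow (by positivity), ← ENNReal.ofReal_mul (by positivity)]
        refine ENNReal.ofReal_le_ofReal ?_
        rw [← mul_div_assoc, div_le_iff₀ (by positivity)]
        have h2 : (K : ℝ) ^ (7 * (i + 1)) ≤ (K : ℝ) ^ (7 * d * (i + 1)) :=
          pow_le_pow_right₀ (by linarith) (by nlinarith)
        have h3 : (4 : ℝ) ^ (i + 1) ≤ (K : ℝ) ^ (i + 1) := pow_le_pow_left₀ (by norm_num) hK4 _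
        have h4 : (K : ℝ) ^ (7 * (i + 1)) = (K : ℝ) ^ (i + 1) * (K : ℝ) ^ (5 * (i + 1)) * (K : ℝ) ^ (i + 1) := by
          rw [← pow_add, ← pow_add]
          congr 1
          ring
        have h5 : (1 : ℝ) ≤ (K : ℝ) ^ (5 * (i + 1)) := one_le_pow₀ (by linarith)
        have h6 : (4 : ℝ) ^ (i + 1) * ((1 / 2 : ℝ) * (1 / 2) ^ i) = 2 ^ (i + 1) := by
          rw [← pow_succ', ← mul_pow]
          norm_num
        have h7 : (2 : ℝ) ≤ 2 ^ (i + 1) := by
          calc (2 : ℝ) = 2 ^ 1 := by norm_num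
            _ ≤ 2 ^ (i + 1) := pow_le_pow_right₀ (by norm_num) (by omega)
        have h8 : (0 : ℝ) < (K : ℝ) ^ (i + 1) := by positivity
        calc (K : ℝ) ^ (i + 1) * 2 ≤ (K : ℝ) ^ (i + 1) * 2 ^ (i + 1) := by gcongr
          _ = (K : ℝ) ^ (i + 1) * ((4 : ℝ) ^ (i + 1) * ((1 / 2 : ℝ) * (1 / 2) ^ i)) := by rw [h6]
          _ ≤ (K : ℝ) ^ (i + 1) * ((K : ℝ) ^ (i + 1) * ((1 / 2 : ℝ) * (1 / 2) ^ i)) := by gcongr
          _ ≤ (K : ℝ) ^ (i + 1) * ((K : ℝ) ^ (i + 1) * ((1 / 2 : ℝ) * (1 / 2) ^ i)) *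
                (K : ℝ) ^ (5 * (i + 1)) := le_mul_of_one_le_right (by positivity) h5
          _ = (1 / 2 : ℝ) * (1 / 2) ^ i * (K : ℝ) ^ (7 * (i + 1)) := by
              rw [h4]
              ring
          _ ≤ (1 / 2 : ℝ) * (1 / 2) ^ i * (K : ℝ) ^ (7 * d * (i + 1)) := by gcongr
    _ = ENNReal.ofReal 2 := by
        rw [← ENNReal.ofReal_tsum_of_nonneg (fun i => by positivity)
          ((summable_geometric_two).mul_left _), tsum_mul_left, tsum_geometric_two,
          ← ENNReal.ofReal_one, ← ENNReal.ofReal_add (by norm_num) (by norm_num)]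
        norm_num

private lemma AsmE_card (z : V d) (K i : ℕ) (hK : 1 ≤ K) :
    ((BF z (2 * K ^ i)).card : ℝ) ≤ 5 ^ d * (K : ℝ) ^ (d * i) := by
  have h1 : (BF z (2 * K ^ i)).card ≤ (Box d (2 * K ^ i)).card := Finset.card_image_le
  have h2 : ((Box d (2 * K ^ i)).card : ℝ) = (2 * (2 * K ^ i) + 1 : ℝ) ^ d := by
    rw [card_Box]
    push_cast
    rfl
  have h3 : (1 : ℝ) ≤ (K : ℝ) ^ i := one_le_pow₀ (by exact_mod_cast hK)
  calc ((BF z (2 * K ^ i)).card : ℝ) ≤ ((Box d (2 * K ^ i)).card : ℝ) := by exact_mod_cast h1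
    _ = (2 * (2 * K ^ i) + 1 : ℝ) ^ d := h2
    _ ≤ (5 * (K : ℝ) ^ i) ^ d := by
        refine pow_le_pow_left₀ (by positivity) ?_ _
        linarith
    _ = 5 ^ d * (K : ℝ) ^ (d * i) := by rw [mul_pow, ← pow_mul, mul_comm i d]

private lemma AsmE_U {Ω : Type*} [MeasurableSpace Ω] (μ : Measure Ω) [IsProbabilityMeasure μ]
    (hd : 1 ≤ d) (K : ℕ) (hK : 4 ≤ K) (z : V d) (κ : Ω → ℕ) (hk : Measurable κ)
    (hkp : ∀ i : ℕ, μ.real {w | i + 1 ≤ κ w} ≤ 4 / (K : ℝ) ^ (7 * d * (i + 1)))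
    (F : V d → Ω → ℝ) (hF : ∀ b, Measurable (F b)) (hF0 : ∀ b w, 0 ≤ F b w) (E1 : ℝ) (hE1 : 0 < E1)
    (hFE : ∀ b, ∫⁻ w, ENNReal.ofReal (F b w) ∂μ ≤ ENNReal.ofReal E1) :
    ∫⁻ w, ENNReal.ofReal (∑ b ∈ BF z (2 * K ^ (κ w)), Real.sqrt (F b w)) ∂μ ≤
      ENNReal.ofReal (4 * 5 ^ d * Real.sqrt E1) := by
  have hK0 : (0 : ℝ) < K := by
    have : 0 < K := by omega
    exact_mod_cast this
  have hK4 : (4 : ℝ) ≤ K := by exact_mod_cast hK
  have hs : 0 < Real.sqrt E1 := Real.sqrt_pos.2 hE1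
  set t : ℕ → ℝ := fun i => Real.sqrt E1 * (K : ℝ) ^ (3 * d * i) / 2 with ht
  have ht0 : ∀ i, 0 < t i := fun i => by positivity
  have hm : ∀ i : ℕ, MeasurableSet {w | κ w = i} := fun i => hk (measurableSet_singleton i)
  have hP : ∀ i : ℕ, μ {w | κ w = i} ≤ ENNReal.ofReal (4 / (K : ℝ) ^ (6 * d * i)) := by
    intro i
    rcases i with _ | i
    · refine (prob_le_one).trans ?_
      rw [← ENNReal.ofReal_one]
      refine ENNReal.ofReal_le_ofReal ?_
      simp
    · refine AsmE_real μ _ _ ?_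
      refine (measureReal_mono (fun w hw => ?_)).trans ((hkp i).trans ?_)
      · exact (show κ w = i + 1 from hw).ge
      · refine div_le_div_of_nonneg_left (by norm_num) (by positivity) ?_
        refine pow_le_pow_right₀ (by linarith) ?_
        have : 6 * d ≤ 7 * d := by omega
        exact Nat.mul_le_mul_right _ this
  have hpt : ∀ w, ENNReal.ofReal (∑ b ∈ BF z (2 * K ^ (κ w)), Real.sqrt (F b w)) ≤
      ∑' i : ℕ, ({w | κ w = i}.indicator
          (fun _ => ENNReal.ofReal (((BF z (2 * K ^ i)).card : ℝ) * (t i / 2))) w +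
        ∑ b ∈ BF z (2 * K ^ i), ENNReal.ofReal (1 / (2 * t i)) * ENNReal.ofReal (F b w)) := by
    intro w
    refine le_trans ?_ (ENNReal.le_tsum (κ w))
    rw [Set.indicator_of_mem (by exact rfl)]
    have h1 : ∀ b : V d, ENNReal.ofReal (1 / (2 * t (κ w))) * ENNReal.ofReal (F b w) =
        ENNReal.ofReal (1 / (2 * t (κ w)) * F b w) := fun b =>
      (ENNReal.ofReal_mul (by have := ht0 (κ w); positivity)).symm
    rw [Finset.sum_congr rfl fun b _ => h1 b, ← ENNReal.ofReal_sum_of_nonneg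
      (fun b _ => mul_nonneg (by have := ht0 (κ w); positivity) (hF0 b w)),
      ← ENNReal.ofReal_add (by have := ht0 (κ w); positivity)
      (Finset.sum_nonneg fun b _ => mul_nonneg (by have := ht0 (κ w); positivity) (hF0 b w))]
    refine ENNReal.ofReal_le_ofReal ?_
    rw [← nsmul_eq_mul, ← Finset.sum_const, ← Finset.sum_add_distrib]
    refine Finset.sum_le_sum fun b _ => ?_
    have h2 := ht0 (κ w)
    have h3 : 0 ≤ F b w := hF0 b w
    have h4 : Real.sqrt (F b w) ^ 2 = F b w := Real.sq_sqrt h3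
    have h5 : t (κ w) / 2 + 1 / (2 * t (κ w)) * F b w - Real.sqrt (F b w) =
        (t (κ w) - Real.sqrt (F b w)) ^ 2 / (2 * t (κ w)) := by
      field_simp
      nlinarith [h4]
    have h6 : 0 ≤ (t (κ w) - Real.sqrt (F b w)) ^ 2 / (2 * t (κ w)) := by positivity
    linarith
  calc ∫⁻ w, ENNReal.ofReal (∑ b ∈ BF z (2 * K ^ (κ w)), Real.sqrt (F b w)) ∂μ
      ≤ ∫⁻ w, ∑' i : ℕ, ({w | κ w = i}.indicator
          (fun _ => ENNReal.ofReal (((BF z (2 * K ^ i)).card : ℝ) * (t i / 2))) w +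
        ∑ b ∈ BF z (2 * K ^ i), ENNReal.ofReal (1 / (2 * t i)) * ENNReal.ofReal (F b w)) ∂μ :=
        lintegral_mono hpt
    _ = ∑' i : ℕ, (ENNReal.ofReal (((BF z (2 * K ^ i)).card : ℝ) * (t i / 2)) * μ {w | κ w = i} +
        ∑ b ∈ BF z (2 * K ^ i), ENNReal.ofReal (1 / (2 * t i)) *
          ∫⁻ w, ENNReal.ofReal (F b w) ∂μ) := by
        have hms : ∀ i : ℕ, Measurable (fun w => ∑ b ∈ BF z (2 * K ^ i),
            ENNReal.ofReal (1 / (2 * t i)) * ENNReal.ofReal (F b w)) := fun i =>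
          Finset.measurable_fun_sum _ fun b _ => ((hF b).ennreal_ofReal).const_mul _
        refine (lintegral_tsum fun i =>
          ((measurable_const.indicator (hm i)).add (hms i)).aemeasurable).trans ?_
        refine tsum_congr fun i => ?_
        refine (lintegral_add_right _ (hms i)).trans ?_
        rw [lintegral_indicator_const (hm i)]
        congr 1
        rw [lintegral_finsetSum' _ (fun b _ => (((hF b).ennreal_ofReal).const_mul _).aemeasurable)]
        refine Finset.sum_congr rfl fun b _ => ?_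
        rw [lintegral_const_mul _ (hF b).ennreal_ofReal]
    _ ≤ ∑' i : ℕ, ENNReal.ofReal (2 * 5 ^ d * Real.sqrt E1 * (1 / 2) ^ i) := by
        refine ENNReal.tsum_le_tsum fun i => ?_
        have h2 := ht0 i
        have h1 : ENNReal.ofReal (((BF z (2 * K ^ i)).card : ℝ) * (t i / 2)) * μ {w | κ w = i} ≤
            ENNReal.ofReal (((BF z (2 * K ^ i)).card : ℝ) * (t i / 2) *
              (4 / (K : ℝ) ^ (6 * d * i))) := by
          rw [ENNReal.ofReal_mul (p := ((BF z (2 * K ^ i)).card : ℝ) * (t i / 2)) (by positivity)]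
          exact mul_le_mul_right (hP i) _
        have h3 : ∑ b ∈ BF z (2 * K ^ i), ENNReal.ofReal (1 / (2 * t i)) *
            ∫⁻ w, ENNReal.ofReal (F b w) ∂μ ≤
            ENNReal.ofReal (((BF z (2 * K ^ i)).card : ℝ) * (1 / (2 * t i) * E1)) := by
          refine (Finset.sum_le_sum fun b _ => mul_le_mul_right (hFE b) _).trans ?_
          rw [Finset.sum_const, nsmul_eq_mul, ENNReal.ofReal_mul (by positivity),
            ENNReal.ofReal_natCast, ENNReal.ofReal_mul (by positivity)]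
        refine (add_le_add h1 h3).trans ?_
        rw [← ENNReal.ofReal_add (by positivity) (by positivity)]
        refine ENNReal.ofReal_le_ofReal ?_
        have h4 := AsmE_card z K i (by omega)
        have h5 : t i / 2 * (4 / (K : ℝ) ^ (6 * d * i)) = Real.sqrt E1 / (K : ℝ) ^ (3 * d * i) := by
          rw [ht]
          have : (K : ℝ) ^ (6 * d * i) = (K : ℝ) ^ (3 * d * i) * (K : ℝ) ^ (3 * d * i) := by
            rw [← pow_add]
            congr 1
            ring
          simp only [this]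
          field_simp
          norm_num
        have h6 : 1 / (2 * t i) * E1 = Real.sqrt E1 / (K : ℝ) ^ (3 * d * i) := by
          rw [ht]
          have hE : Real.sqrt E1 * Real.sqrt E1 = E1 := Real.mul_self_sqrt hE1.le
          field_simp
          nlinarith [hE]
        have h7 : (2 : ℝ) ^ i ≤ (K : ℝ) ^ (2 * d * i) := by
          calc (2 : ℝ) ^ i ≤ (K : ℝ) ^ i := pow_le_pow_left₀ (by norm_num) (by linarith) _
            _ ≤ (K : ℝ) ^ (2 * d * i) := pow_le_pow_right₀ (by linarith) (by nlinarith)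
        have h8 : (K : ℝ) ^ (3 * d * i) = (K : ℝ) ^ (d * i) * (K : ℝ) ^ (2 * d * i) := by
          rw [← pow_add]
          congr 1
          ring
        calc ((BF z (2 * K ^ i)).card : ℝ) * (t i / 2) * (4 / (K : ℝ) ^ (6 * d * i)) +
              ((BF z (2 * K ^ i)).card : ℝ) * (1 / (2 * t i) * E1)
            = ((BF z (2 * K ^ i)).card : ℝ) * (2 * (Real.sqrt E1 / (K : ℝ) ^ (3 * d * i))) := by
              rw [mul_assoc, h5, h6]
              ring
          _ ≤ (5 ^ d * (K : ℝ) ^ (d * i)) * (2 * (Real.sqrt E1 / (K : ℝ) ^ (3 * d * i))) := by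
              gcongr
          _ = 2 * 5 ^ d * Real.sqrt E1 * (1 / (K : ℝ) ^ (2 * d * i)) := by
              rw [h8]
              field_simp
          _ ≤ 2 * 5 ^ d * Real.sqrt E1 * (1 / 2 ^ i) := by
              gcongr
          _ = 2 * 5 ^ d * Real.sqrt E1 * (1 / 2) ^ i := by
              rw [one_div_pow]
    _ = ENNReal.ofReal (4 * 5 ^ d * Real.sqrt E1) := by
        rw [← ENNReal.ofReal_tsum_of_nonneg (fun i => by positivity)
          ((summable_geometric_two).mul_left _), tsum_mul_left, tsum_geometric_two]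
        congr 1
        ring

theorem asm_exp {Ω : Type*} [MeasurableSpace Ω] (μ : Measure Ω) [IsProbabilityMeasure μ]
    (hd : 1 ≤ d) (K : ℕ) (hK : 4 ≤ K) (z : ℕ → V d) (k : ℕ → Ω → ℕ) (hk : ∀ j, Measurable (k j))
    (hkp : ∀ j i : ℕ, μ.real {w | i + 1 ≤ k j w} ≤ 2 / (K : ℝ) ^ (7 * d * (i + 1)))
    (F : V d → Ω → ℝ) (hF : ∀ b, Measurable (F b)) (hF0 : ∀ b w, 0 ≤ F b w) (E0 : ℝ)
    (hFi : ∀ b, Integrable (F b) μ) (hFE : ∀ b, ∫ w, F b w ∂μ ≤ E0) (L G : ℝ) (hL : 0 ≤ L)
    (hineq : ∀ᵐ w ∂μ, ∀ N : ℕ, L * ((N : ℝ) - (K : ℝ) ^ (k 0 w) - (K : ℝ) ^ (k N w) - 1) - 2 * G ≤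
      ∑ j ∈ Finset.range N, ∑ b ∈ BF (z j) (2 * K ^ (max (k j w) (k (j + 1) w))),
        Real.sqrt (F b w)) :
    L ≤ 4 * 5 ^ d * Real.sqrt E0 := by
  have hE00 : 0 ≤ E0 := (integral_nonneg (hF0 0)).trans (hFE 0)
  -- the bound for every `E1 > E0`
  have key : ∀ E1 : ℝ, E0 < E1 → L ≤ 4 * 5 ^ d * Real.sqrt E1 := by
    intro E1 hE
    have hE1 : 0 < E1 := lt_of_le_of_lt hE00 hE
    have hFE' : ∀ b, ∫⁻ w, ENNReal.ofReal (F b w) ∂μ ≤ ENNReal.ofReal E1 := by
      intro b
      rw [← ofReal_integral_eq_lintegral_ofReal (hFi b) (Filter.Eventually.of_forall (hF0 b))]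
      exact ENNReal.ofReal_le_ofReal ((hFE b).trans hE.le)
    have hU : ∀ j : ℕ, ∫⁻ w, ENNReal.ofReal (∑ b ∈ BF (z j) (2 * K ^ (max (k j w) (k (j + 1) w))),
        Real.sqrt (F b w)) ∂μ ≤ ENNReal.ofReal (4 * 5 ^ d * Real.sqrt E1) := by
      intro j
      refine AsmE_U μ hd K hK (z j) (fun w => max (k j w) (k (j + 1) w)) ((hk j).max (hk (j + 1)))
        (fun i => ?_) F hF hF0 E1 hE1 hFE'
      have hsub : {w | i + 1 ≤ max (k j w) (k (j + 1) w)} ⊆
          {w | i + 1 ≤ k j w} ∪ {w | i + 1 ≤ k (j + 1) w} := by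
        intro w hw
        rcases le_max_iff.1 (show i + 1 ≤ max (k j w) (k (j + 1) w) from hw) with h | h
        · exact Or.inl h
        · exact Or.inr h
      calc μ.real {w | i + 1 ≤ max (k j w) (k (j + 1) w)}
          ≤ μ.real ({w | i + 1 ≤ k j w} ∪ {w | i + 1 ≤ k (j + 1) w}) := measureReal_mono hsub
        _ ≤ μ.real {w | i + 1 ≤ k j w} + μ.real {w | i + 1 ≤ k (j + 1) w} :=
            measureReal_union_le _ _
        _ ≤ 2 / (K : ℝ) ^ (7 * d * (i + 1)) + 2 / (K : ℝ) ^ (7 * d * (i + 1)) :=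
            add_le_add (hkp j i) (hkp (j + 1) i)
        _ = 4 / (K : ℝ) ^ (7 * d * (i + 1)) := by ring
    have hN : ∀ N : ℕ, L * N ≤ L * 5 + 2 * |G| + N * (4 * 5 ^ d * Real.sqrt E1) := by
      intro N
      have hpt : ∀ᵐ w ∂μ, ENNReal.ofReal (L * N) ≤
          (ENNReal.ofReal L * ((K : ENNReal) ^ (k 0 w) + (K : ENNReal) ^ (k N w) + 1) +
            ENNReal.ofReal (2 * |G|)) +
          ∑ j ∈ Finset.range N, ENNReal.ofReal (∑ b ∈ BF (z j) (2 * K ^ (max (k j w) (k (j + 1) w))),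
            Real.sqrt (F b w)) := by
        filter_upwards [hineq] with w hw
        have h1 := hw N
        have h2 : ∀ j ∈ Finset.range N, (0 : ℝ) ≤ ∑ b ∈ BF (z j) (2 * K ^ (max (k j w) (k (j + 1) w))),
            Real.sqrt (F b w) := fun j _ => Finset.sum_nonneg fun b _ => Real.sqrt_nonneg _
        have h3 : (ENNReal.ofReal L * ((K : ENNReal) ^ (k 0 w) + (K : ENNReal) ^ (k N w) + 1)) =
            ENNReal.ofReal (L * ((K : ℝ) ^ (k 0 w) + (K : ℝ) ^ (k N w) + 1)) := by
          rw [ENNReal.ofReal_mul hL, ENNReal.ofReal_add (by positivity) (by norm_num),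
            ENNReal.ofReal_add (by positivity) (by positivity), ENNReal.ofReal_one,
            ENNReal.ofReal_pow (by positivity), ENNReal.ofReal_pow (by positivity),
            ENNReal.ofReal_natCast]
        rw [h3, ← ENNReal.ofReal_sum_of_nonneg h2, ← ENNReal.ofReal_add (by positivity) (by positivity),
          ← ENNReal.ofReal_add (by positivity) (Finset.sum_nonneg h2)]
        refine ENNReal.ofReal_le_ofReal ?_
        have h4 := le_abs_self G
        nlinarith [h1, h4]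
      have h5 : ENNReal.ofReal (L * N) ≤ (ENNReal.ofReal L * (ENNReal.ofReal 2 + ENNReal.ofReal 2 + 1) +
            ENNReal.ofReal (2 * |G|)) + N * ENNReal.ofReal (4 * 5 ^ d * Real.sqrt E1) := by
        have h6 : ENNReal.ofReal (L * N) = ∫⁻ _w, ENNReal.ofReal (L * N) ∂μ := by simp
        rw [h6]
        refine (lintegral_mono_ae hpt).trans ?_
        have hmK : ∀ j : ℕ, Measurable (fun w => (K : ENNReal) ^ (k j w)) := fun j =>
          (measurable_from_top (f := fun n : ℕ => (K : ENNReal) ^ n)).comp (hk j)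
        have hmL : Measurable (fun w => ENNReal.ofReal L *
            ((K : ENNReal) ^ (k 0 w) + (K : ENNReal) ^ (k N w) + 1) + ENNReal.ofReal (2 * |G|)) :=
          ((((hmK 0).add (hmK N)).add measurable_const).const_mul _).add measurable_const
        have h7 : ∫⁻ w, (ENNReal.ofReal L * ((K : ENNReal) ^ (k 0 w) + (K : ENNReal) ^ (k N w) + 1) +
            ENNReal.ofReal (2 * |G|)) ∂μ ≤
            ENNReal.ofReal L * (ENNReal.ofReal 2 + ENNReal.ofReal 2 + 1) + ENNReal.ofReal (2 * |G|) := by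
          have h71 : ∫⁻ w, ((K : ENNReal) ^ (k 0 w) + (K : ENNReal) ^ (k N w) + 1) ∂μ ≤
              ENNReal.ofReal 2 + ENNReal.ofReal 2 + 1 := by
            refine (lintegral_add_right _ measurable_const).le.trans ?_
            refine add_le_add ?_ (by simp)
            refine (lintegral_add_left (hmK 0) _).le.trans ?_
            exact add_le_add (AsmE_Epow μ hd K hK (k 0) (hk 0) (hkp 0))
              (AsmE_Epow μ hd K hK (k N) (hk N) (hkp N))
          refine (lintegral_add_right _ measurable_const).le.trans ?_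
          refine add_le_add ?_ (by simp)
          refine (lintegral_const_mul _ (((hmK 0).add (hmK N)).add measurable_const)).le.trans ?_
          exact mul_le_mul_right h71 _
        refine (lintegral_add_left hmL _).le.trans ?_
        refine add_le_add h7 ?_
        -- measurability of the sums over random balls
        have hmU : ∀ j : ℕ, Measurable (fun w => ENNReal.ofReal
            (∑ b ∈ BF (z j) (2 * K ^ (max (k j w) (k (j + 1) w))), Real.sqrt (F b w))) := by
          intro j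
          exact AsmE_meas (fun w => max (k j w) (k (j + 1) w)) ((hk j).max (hk (j + 1)))
            (fun n w => ENNReal.ofReal (∑ b ∈ BF (z j) (2 * K ^ n), Real.sqrt (F b w)))
            (fun n => (Finset.measurable_fun_sum _ fun b _ => (hF b).sqrt).ennreal_ofReal)
        rw [lintegral_finsetSum' _ (fun j _ => (hmU j).aemeasurable)]
        refine (Finset.sum_le_sum fun j _ => hU j).trans ?_
        rw [Finset.sum_const, Finset.card_range, nsmul_eq_mul]
      have h9 : (ENNReal.ofReal L * (ENNReal.ofReal 2 + ENNReal.ofReal 2 + 1) +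
            ENNReal.ofReal (2 * |G|)) + N * ENNReal.ofReal (4 * 5 ^ d * Real.sqrt E1) =
          ENNReal.ofReal (L * 5 + 2 * |G| + N * (4 * 5 ^ d * Real.sqrt E1)) := by
        rw [ENNReal.ofReal_add (by positivity) (by positivity),
          ENNReal.ofReal_add (by positivity) (by positivity), ENNReal.ofReal_mul hL,
          ENNReal.ofReal_mul (p := (N : ℝ)) (by positivity), ENNReal.ofReal_natCast]
        congr 3
        rw [← ENNReal.ofReal_one, ← ENNReal.ofReal_add (by norm_num) (by norm_num),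
          ← ENNReal.ofReal_add (by norm_num) (by norm_num)]
        norm_num
      rw [h9] at h5
      exact (ENNReal.ofReal_le_ofReal_iff (by positivity)).1 h5
    by_contra hcon
    push Not at hcon
    obtain ⟨N, hN'⟩ := exists_nat_gt ((L * 5 + 2 * |G|) / (L - 4 * 5 ^ d * Real.sqrt E1))
    rw [div_lt_iff₀ (by linarith)] at hN'
    have := hN N
    nlinarith
  have h1 : (L / (4 * 5 ^ d)) ^ 2 ≤ E0 := by
    refine le_of_forall_gt fun E1 hE => ?_
    have h2 := key ((E0 + E1) / 2) (by linarith)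
    have h3 : L / (4 * 5 ^ d) ≤ Real.sqrt ((E0 + E1) / 2) := by
      rw [div_le_iff₀ (by positivity)]
      linarith
    have h4 : (L / (4 * 5 ^ d)) ^ 2 ≤ (E0 + E1) / 2 := by
      have h5 := Real.sq_sqrt (show 0 ≤ (E0 + E1) / 2 by linarith)
      rw [← h5]
      exact pow_le_pow_left₀ (by positivity) h3 2
    linarith
  have h2 : L / (4 * 5 ^ d) ≤ Real.sqrt E0 := Real.le_sqrt_of_sq_le h1
  rw [div_le_iff₀ (by positivity)] at h2
  linarith

end H95LBS
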