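import Pool.Agent.H95.LBS.Vol

/-!
PROJECT DS (MP_0d9ad5_pr), JOB DS-BigP. Probability of big points (section 2b of note 2700).
PROOF. Translation invariance (`Cn_shift_Bx`, `perc_shift`) reduces to `x = 0`. `big_lo`: `N = bigN`;
`E N >= (10 L)^d * cM / (10 L)^(d-2)` (`H.rest` with `n = 10 L`; there are at least `(10L)^d` points with
`L <= nm y <= 10 L` and `c1 <= 1`), `E N^2 <= C L^6` (`vol2`), and
`E N <= b1 L^4 P(N > 0) + (E N^2)^(1/2) P(BG)^(1/2)`, `P(N > 0) <= P(arm of length ⌈c1 L⌉) <= A/(c1 L)^2`. With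
`b10 = cM c1^2 / (2A)`. `big_hi`: `b1 > 0` so a big point has an arm of length `⌈c1 L⌉` (`H.arm`).
`BG_loc`, `BG_inc`, `meas_BG`: `x ∈ BG ω` is increasing, depends on the edges inside `Bx x (10 M L)`, and is
determined by the open edges inside the hub of `x` in any `S ⊇ Bx x (10 M L)`.
-/

namespace H95LBS

open H5DF H95LBD MeasureTheory

variable {d : ℕ}

/-- Membership in the set counted by `bigN`. -/
lemma BigP_mono {M L : ℕ} {c1 : ℝ} {ω ω' : Cfg d} {x x' : V d} (a : V d)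
    (h : ∀ y, nm (y - x) ≤ 10 * L → c1 * L ≤ nm (y - x) → Cn (Bx x (10 * M * L)) ω x y →
      nm (y + a - x') ≤ 10 * L ∧ c1 * L ≤ nm (y + a - x') ∧
        Cn (Bx x' (10 * M * L)) ω' x' (y + a)) :
    bigN M L c1 ω x ≤ bigN M L c1 ω' x' := by
  classical
  unfold bigN
  refine Finset.card_le_card_of_injOn (fun y => y + a) ?_ ?_
  · intro y hy
    simp only [Finset.coe_filter, Set.mem_setOf_eq, mem_BF] at hy ⊢
    obtain ⟨h1, h2, h3⟩ := hy
    exact h y h1 h2 h3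
  · intro y _ z _ hyz
    exact add_right_cancel hyz

lemma BigP_mono0 {M L : ℕ} {c1 : ℝ} {ω ω' : Cfg d} {x : V d}
    (h : ∀ y, Cn (Bx x (10 * M * L)) ω x y → Cn (Bx x (10 * M * L)) ω' x y) :
    bigN M L c1 ω x ≤ bigN M L c1 ω' x := by
  refine BigP_mono 0 fun y h1 h2 h3 => ?_
  rw [add_zero]
  exact ⟨h1, h2, h y h3⟩

theorem BG_inc (M L : ℕ) (c1 b1 : ℝ) (x : V d) : Inc {ω : Cfg d | x ∈ BG M L c1 b1 ω} := by
  intro ω ω' h hx
  have h1 : b1 * (L : ℝ) ^ 4 ≤ bigN M L c1 ω x := hx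
  have h2 : bigN M L c1 ω x ≤ bigN M L c1 ω' x :=
    BigP_mono0 fun y hy => hy.mono (fun _ hz => hz) h
  have h3 : (bigN M L c1 ω x : ℝ) ≤ bigN M L c1 ω' x := by exact_mod_cast h2
  exact le_trans h1 h3

open Classical in
lemma BigP_eq (M L : ℕ) (c1 : ℝ) (x : V d) (ω : Cfg d) :
    (bigN M L c1 ω x : ℝ) = ∑ y ∈ (BF x (10 * L)).filter (fun y => c1 * L ≤ nm (y - x)),
      ({ω : Cfg d | Cn (Bx x (10 * M * L)) ω x y}.indicator (fun _ => (1 : ℝ)) ω) := by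
  unfold bigN
  have h1 : ((BF x (10 * L)).filter fun y => c1 * L ≤ nm (y - x) ∧
      Cn (Bx x (10 * M * L)) ω x y) =
      ((BF x (10 * L)).filter (fun y => c1 * L ≤ nm (y - x))).filter
        (fun y => Cn (Bx x (10 * M * L)) ω x y) := by
    ext y
    simp only [Finset.mem_filter, and_assoc]
  rw [h1, Finset.card_filter, Nat.cast_sum]
  refine Finset.sum_congr rfl fun y _ => ?_
  by_cases hy : Cn (Bx x (10 * M * L)) ω x y
  · rw [if_pos hy, Set.indicator_of_mem (by exact hy)]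
    simp
  · rw [if_neg hy, Set.indicator_of_notMem (by exact hy)]
    simp

lemma BigP_meas (M L : ℕ) (c1 : ℝ) (x : V d) :
    Measurable (fun ω : Cfg d => (bigN M L c1 ω x : ℝ)) := by
  classical
  have h1 : (fun ω : Cfg d => (bigN M L c1 ω x : ℝ)) = fun ω : Cfg d =>
      ∑ y ∈ (BF x (10 * L)).filter (fun y => c1 * L ≤ nm (y - x)),
      ({ω : Cfg d | Cn (Bx x (10 * M * L)) ω x y}.indicator (fun _ => (1 : ℝ)) ω) := by
    funext ω
    exact BigP_eq M L c1 x ω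
  rw [h1]
  refine Finset.measurable_sum _ fun y _ => ?_
  exact measurable_const.indicator (meas_Cn _ _ _)

theorem meas_BG (M L : ℕ) (c1 b1 : ℝ) (x : V d) :
    MeasurableSet {ω : Cfg d | x ∈ BG M L c1 b1 ω} :=
  measurableSet_le measurable_const (BigP_meas M L c1 x)

theorem BG_loc (M L : ℕ) (c1 b1 : ℝ) (S : Set (V d)) (x : V d) (hS : Bx x (10 * M * L) ⊆ S)
    (ω : Cfg d) : x ∈ BG M L c1 b1 ω ↔ x ∈ BG M L c1 b1 (cut (hub S ω x) ω) := by
  have h1 : bigN M L c1 ω x ≤ bigN M L c1 (cut (hub S ω x) ω) x := by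
    refine BigP_mono0 fun y hy => ?_
    have key : Cn (Bx x (10 * M * L)) ω x y ∧ Cn (Bx x (10 * M * L)) (cut (hub S ω x) ω) x y := by
      refine Cn.ind (fun y => Cn (Bx x (10 * M * L)) ω x y ∧
        Cn (Bx x (10 * M * L)) (cut (hub S ω x) ω) x y) ⟨Cn.refl _ _ _, Cn.refl _ _ _⟩ ?_ hy
      rintro z s - ⟨hz1, hz2⟩ hz3 hz4 hz5
      have h2 : Cn (Bx x (10 * M * L)) ω x (z + step s) := hz1.trans (Cn.one hz5 hz3 hz4)
      refine ⟨h2, hz2.trans (Cn.one (cut_edge.2 ⟨hz5, ?_, ?_⟩) hz3 hz4)⟩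
      · exact hz1.mono hS fun _ h => h
      · exact h2.mono hS fun _ h => h
    exact key.2
  have h2 : bigN M L c1 (cut (hub S ω x) ω) x ≤ bigN M L c1 ω x :=
    BigP_mono0 fun y hy => hy.mono (fun _ hz => hz) fun e he => (cut_true.1 he).1
  have h3 : bigN M L c1 ω x = bigN M L c1 (cut (hub S ω x) ω) x := le_antisymm h1 h2
  show b1 * (L : ℝ) ^ 4 ≤ bigN M L c1 ω x ↔
    b1 * (L : ℝ) ^ 4 ≤ bigN M L c1 (cut (hub S ω x) ω) x
  rw [h3]

lemma BigP_shift (M L : ℕ) (c1 : ℝ) (a x : V d) (ω : Cfg d) :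
    bigN M L c1 (shift a ω) x = bigN M L c1 ω (x + a) := by
  apply le_antisymm
  · refine BigP_mono a fun y h1 h2 h3 => ?_
    rw [add_sub_add_right_eq_sub]
    exact ⟨h1, h2, (Cn_shift_Bx _ _ _ _ _ _).1 h3⟩
  · refine BigP_mono (-a) fun y h1 h2 h3 => ?_
    have h4 : y + -a - x = y - (x + a) := by abel
    rw [h4]
    refine ⟨h1, h2, (Cn_shift_Bx _ _ _ _ _ _).2 ?_⟩
    rwa [neg_add_cancel_right]

theorem BG_shift (M L : ℕ) (c1 b1 : ℝ) (a x : V d) (ω : Cfg d) :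
    x ∈ BG M L c1 b1 (shift a ω) ↔ x + a ∈ BG M L c1 b1 ω := by
  show b1 * (L : ℝ) ^ 4 ≤ bigN M L c1 (shift a ω) x ↔ b1 * (L : ℝ) ^ 4 ≤ bigN M L c1 ω (x + a)
  rw [BigP_shift]

lemma BigP_perc {p : ℝ} (h0 : 0 ≤ p) (h1 : p ≤ 1) (M L : ℕ) (c1 b1 : ℝ) (x : V d) :
    (perc d p).real {ω | x ∈ BG M L c1 b1 ω} = (perc d p).real {ω | (0 : V d) ∈ BG M L c1 b1 ω} := by
  have h2 : shift x ⁻¹' {ω | (0 : V d) ∈ BG M L c1 b1 ω} = {ω : Cfg d | x ∈ BG M L c1 b1 ω} := by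
    ext ω
    show (0 : V d) ∈ BG M L c1 b1 (shift x ω) ↔ x ∈ BG M L c1 b1 ω
    rw [BG_shift, zero_add]
  have hm : Measurable (shift x : Cfg d → Cfg d) :=
    measurable_pi_lambda _ fun e => measurable_pi_apply _
  calc (perc d p).real {ω | x ∈ BG M L c1 b1 ω}
      = (perc d p).real (shift x ⁻¹' {ω | (0 : V d) ∈ BG M L c1 b1 ω}) := by rw [h2]
    _ = ((perc d p).map (shift x)).real {ω | (0 : V d) ∈ BG M L c1 b1 ω} := by
        rw [map_measureReal_apply hm (meas_BG _ _ _ _ _)]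
    _ = (perc d p).real {ω | (0 : V d) ∈ BG M L c1 b1 ω} := by rw [perc_shift p h0 h1 x]

/-- A point with `bigN > 0` has an arm. -/
lemma BigP_arm {M L : ℕ} {c1 : ℝ} {ω : Cfg d} {x : V d} (h : 0 < bigN M L c1 ω x) :
    ω ∈ Ar x ⌈c1 * L⌉₊ := by
  classical
  unfold bigN at h
  obtain ⟨y, hy⟩ := Finset.card_pos.1 h
  rw [Finset.mem_filter] at hy
  exact ⟨y, Nat.ceil_le.2 hy.2.1, hy.2.2.cluster⟩

lemma BigP_armP {p0 A cM : ℝ} {M : ℕ} (H : Crit d p0 A cM M) (c1 : ℝ)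
    (L : ℕ) (x : V d) (hL : 1 ≤ c1 * L) :
    (perc d p0).real (Ar x ⌈c1 * L⌉₊) ≤ A / (c1 * L) ^ 2 := by
  have h1 : 1 ≤ ⌈c1 * L⌉₊ := Nat.one_le_ceil_iff.2 (by linarith)
  rw [perc_Ar p0 H.hp0.le H.hp1.le x]
  refine (H.arm _ h1).trans ?_
  have h2 : c1 * L ≤ (⌈c1 * L⌉₊ : ℝ) := Nat.le_ceil _
  have hA : 0 ≤ A := by linarith [H.hA]
  apply div_le_div_of_nonneg_left hA
  · positivity
  · exact pow_le_pow_left₀ (by linarith) h2 2

/-- Pointwise inequality. -/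
lemma BigP_pt {M L : ℕ} {c1 b1 t : ℝ} (ht : 0 < t) (hb : 0 < b1) (x : V d) (ω : Cfg d) :
    (bigN M L c1 ω x : ℝ) ≤ b1 * (L : ℝ) ^ 4 * (Ar x ⌈c1 * L⌉₊).indicator (fun _ => (1 : ℝ)) ω +
      t / 2 * (bigN M L c1 ω x : ℝ) ^ 2 + 1 / (2 * t) *
      ({ω : Cfg d | x ∈ BG M L c1 b1 ω}.indicator (fun _ => (1 : ℝ)) ω) := by
  have hL : 0 ≤ b1 * (L : ℝ) ^ 4 := by positivity
  have hN : 0 ≤ (bigN M L c1 ω x : ℝ) := Nat.cast_nonneg _
  have hi : 0 ≤ (Ar x ⌈c1 * L⌉₊).indicator (fun _ => (1 : ℝ)) ω :=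
    Set.indicator_nonneg (fun _ _ => zero_le_one) _
  have hj : 0 ≤ ({ω : Cfg d | x ∈ BG M L c1 b1 ω}.indicator (fun _ => (1 : ℝ)) ω) :=
    Set.indicator_nonneg (fun _ _ => zero_le_one) _
  by_cases h1 : x ∈ BG M L c1 b1 ω
  · rw [Set.indicator_of_mem (s := {ω : Cfg d | x ∈ BG M L c1 b1 ω}) (by exact h1)]
    have h2 : (bigN M L c1 ω x : ℝ) ≤ t / 2 * (bigN M L c1 ω x : ℝ) ^ 2 + 1 / (2 * t) * 1 := by
      have h3 : 0 ≤ (t * (bigN M L c1 ω x : ℝ) - 1) ^ 2 / (2 * t) := by positivity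
      have h4 : (t * (bigN M L c1 ω x : ℝ) - 1) ^ 2 / (2 * t) =
          t / 2 * (bigN M L c1 ω x : ℝ) ^ 2 + 1 / (2 * t) * 1 - (bigN M L c1 ω x : ℝ) := by
        field_simp
        ring
      linarith
    have h5 := mul_nonneg hL hi
    linarith
  · have h2 : (bigN M L c1 ω x : ℝ) < b1 * (L : ℝ) ^ 4 := not_le.1 h1
    have h3 : 0 ≤ t / 2 * (bigN M L c1 ω x : ℝ) ^ 2 := by positivity
    have h4 : 0 ≤ 1 / (2 * t) *
        ({ω : Cfg d | x ∈ BG M L c1 b1 ω}.indicator (fun _ => (1 : ℝ)) ω) := by positivity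
    by_cases h5 : 0 < bigN M L c1 ω x
    · rw [Set.indicator_of_mem (BigP_arm h5)]
      linarith
    · have h6 : bigN M L c1 ω x = 0 := by omega
      have h7 := mul_nonneg hL hi
      rw [h6] at h3 ⊢
      simp only [Nat.cast_zero] at h3 ⊢
      linarith

/-- First moment. -/
lemma BigP_first {p0 A cM : ℝ} {M : ℕ} (H : Crit d p0 A cM M) {c1 : ℝ} (hc : c1 ≤ 1) (L : ℕ)
    (hL : 1 ≤ L) :
    cM / 10 ^ (d - 2) * (L : ℝ) ^ 2 ≤ ∫ ω, (bigN M L c1 ω 0 : ℝ) ∂(perc d p0) := by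
  classical
  have := H.prob
  have hL0 : (0 : ℝ) < L := by exact_mod_cast hL
  have hc0 := H.hc
  have hd := H.hd
  have h1 : ∫ ω, (bigN M L c1 ω 0 : ℝ) ∂(perc d p0) =
      ∑ y ∈ (BF (0 : V d) (10 * L)).filter (fun y => c1 * L ≤ nm (y - 0)),
        (perc d p0).real {ω : Cfg d | Cn (Bx 0 (10 * M * L)) ω 0 y} := by
    have h2 : (fun ω : Cfg d => (bigN M L c1 ω 0 : ℝ)) = fun ω : Cfg d =>
        ∑ y ∈ (BF (0 : V d) (10 * L)).filter (fun y => c1 * L ≤ nm (y - 0)),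
        ({ω : Cfg d | Cn (Bx 0 (10 * M * L)) ω 0 y}.indicator (fun _ => (1 : ℝ)) ω) := by
      funext ω
      exact BigP_eq M L c1 0 ω
    rw [h2, integral_finset_sum]
    · refine Finset.sum_congr rfl fun y _ => ?_
      exact integral_indicator_one (meas_Cn _ _ _)
    · intro y _
      exact (integrable_const (1 : ℝ)).indicator (meas_Cn _ _ _)
  rw [h1]
  set T : Finset (V d) := Fintype.piFinset fun _ => Finset.Icc (L : ℤ) (10 * L) with hT
  have hmem : ∀ y ∈ T, L ≤ nm y ∧ nm y ≤ 10 * L := by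
    intro y hy
    rw [hT, Fintype.mem_piFinset] at hy
    simp only [Finset.mem_Icc] at hy
    constructor
    · have h3 := natAbs_le_nm y (⟨0, by omega⟩ : Fin d)
      have h4 := (hy ⟨0, by omega⟩).1
      omega
    · rw [nm_le]
      intro i
      have h4 := hy i
      omega
  have hsub : T ⊆ (BF (0 : V d) (10 * L)).filter (fun y => c1 * L ≤ nm (y - 0)) := by
    intro y hy
    obtain ⟨h3, h4⟩ := hmem y hy
    rw [Finset.mem_filter, mem_BF, sub_zero]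
    refine ⟨h4, ?_⟩
    have h5 : (L : ℝ) ≤ nm y := by exact_mod_cast h3
    nlinarith
  have hcard : (L : ℝ) ^ d ≤ (T.card : ℝ) := by
    have h3 : T.card = (10 * (L : ℤ) + 1 - L).toNat ^ d := by
      rw [hT, Fintype.card_piFinset]
      simp
    have h4 : L ≤ (10 * (L : ℤ) + 1 - L).toNat := by omega
    rw [h3]
    exact_mod_cast Nat.pow_le_pow_left h4 d
  calc cM / 10 ^ (d - 2) * (L : ℝ) ^ 2
      = (L : ℝ) ^ d * (cM / ((10 * L : ℕ) : ℝ) ^ (d - 2)) := by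
        have h3 : (L : ℝ) ^ d = (L : ℝ) ^ (d - 2) * (L : ℝ) ^ 2 := by
          rw [← pow_add]
          congr 1
          omega
        rw [h3]
        push_cast
        rw [mul_pow]
        field_simp
    _ ≤ (T.card : ℝ) * (cM / ((10 * L : ℕ) : ℝ) ^ (d - 2)) := by
        apply mul_le_mul_of_nonneg_right hcard
        positivity
    _ = ∑ y ∈ T, (cM / ((10 * L : ℕ) : ℝ) ^ (d - 2)) := by
        rw [Finset.sum_const, nsmul_eq_mul]
    _ ≤ ∑ y ∈ T, (perc d p0).real {ω : Cfg d | Cn (Bx 0 (10 * M * L)) ω 0 y} := by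
        refine Finset.sum_le_sum fun y hy => ?_
        have h3 := H.rest (10 * L) 0 y (by omega) (by rw [nm_zero]; omega) (hmem y hy).2
        have h4 : M * (10 * L) = 10 * M * L := by ring
        rwa [h4] at h3
    _ ≤ _ := Finset.sum_le_sum_of_subset_of_nonneg hsub fun _ _ _ => measureReal_nonneg

lemma BigP_le_cn (M L : ℕ) (c1 : ℝ) (ω : Cfg d) (x : V d) :
    bigN M L c1 ω x ≤ cn (hub (Bx x (10 * M * L)) ω x) (BF x (10 * L)) := by
  classical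
  unfold bigN cn
  apply Finset.card_le_card
  intro y hy
  rw [Finset.mem_filter] at hy ⊢
  exact ⟨hy.1, hy.2.2⟩

lemma BigP_cn_meas (S : Set (V d)) (x : V d) (T : Finset (V d)) :
    Measurable (fun ω : Cfg d => (cn (hub S ω x) T : ℝ)) := by
  classical
  have h1 : (fun ω : Cfg d => (cn (hub S ω x) T : ℝ)) = fun ω : Cfg d =>
      ∑ y ∈ T, ({ω : Cfg d | Cn S ω x y}.indicator (fun _ => (1 : ℝ)) ω) := by
    funext ω
    unfold cn
    rw [Finset.card_filter, Nat.cast_sum]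
    refine Finset.sum_congr rfl fun y _ => ?_
    by_cases hy : Cn S ω x y
    · rw [if_pos (by exact hy), Set.indicator_of_mem (by exact hy)]
      simp
    · rw [if_neg (by exact hy), Set.indicator_of_notMem (by exact hy)]
      simp
  rw [h1]
  refine Finset.measurable_sum _ fun y _ => ?_
  exact measurable_const.indicator (meas_Cn _ _ _)

/-- Second moment. -/
lemma BigP_second {p0 A cM : ℝ} {M : ℕ} (H : Crit d p0 A cM M) (c1 : ℝ) (L : ℕ) (x : V d) :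
    ∫ ω, (bigN M L c1 ω x : ℝ) ^ 2 ∂(perc d p0) ≤
      ∫ ω, (cn (hub (Bx x (10 * M * L)) ω x) (BF x (10 * L)) : ℝ) ^ 2 ∂(perc d p0) := by
  have := H.prob
  have hi : Integrable (fun ω : Cfg d =>
      (cn (hub (Bx x (10 * M * L)) ω x) (BF x (10 * L)) : ℝ) ^ 2) (perc d p0) := by
    refine Integrable.of_bound ((BigP_cn_meas _ _ _).pow_const 2).aestronglyMeasurable
      (((BF x (10 * L)).card : ℝ) ^ 2) (Filter.Eventually.of_forall fun ω => ?_)
    rw [Real.norm_of_nonneg (by positivity)]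
    apply pow_le_pow_left₀ (Nat.cast_nonneg _)
    exact_mod_cast cn_le _ _
  refine integral_mono_of_nonneg (Filter.Eventually.of_forall fun ω => by positivity) hi
    (Filter.Eventually.of_forall fun ω => ?_)
  apply pow_le_pow_left₀ (Nat.cast_nonneg _)
  exact_mod_cast BigP_le_cn M L c1 ω x

lemma BigP_bd (M L : ℕ) (c1 : ℝ) (ω : Cfg d) (x : V d) :
    (bigN M L c1 ω x : ℝ) ≤ ((BF x (10 * L)).card : ℝ) := by
  exact_mod_cast (BigP_le_cn M L c1 ω x).trans (cn_le _ _)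

theorem big_lo {p0 A cM : ℝ} {M : ℕ} (H : Crit d p0 A cM M) : ∃ cB : ℝ, 0 < cB ∧
    ∀ c1 : ℝ, 0 < c1 → c1 ≤ 1 → ∃ b10 : ℝ, 0 < b10 ∧ ∀ b1 : ℝ, 0 < b1 → b1 ≤ b10 →
      ∀ (L : ℕ) (x : V d), 1 ≤ c1 * L →
        cB / (L : ℝ) ^ 2 ≤ (perc d p0).real {ω | x ∈ BG M L c1 b1 ω} := by
  have := H.prob
  have hcM := H.hc
  have hA : 0 < A := by linarith [H.hA]
  obtain ⟨C, hC, hv⟩ := vol2 H
  set κ : ℝ := cM / 10 ^ (d - 2) with hκ
  have hκ0 : 0 < κ := by positivity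
  set C6 : ℝ := C * 10 ^ 6 with hC6
  have hC60 : 0 < C6 := by positivity
  refine ⟨κ ^ 2 / (4 * C6), by positivity, fun c1 hc1 hc1' => ?_⟩
  refine ⟨κ * c1 ^ 2 / (2 * A), by positivity, fun b1 hb1 hb1' L x hL => ?_⟩
  rw [BigP_perc H.hp0.le H.hp1.le]
  have hL1 : 1 ≤ L := by
    rcases Nat.eq_zero_or_pos L with h | h
    · rw [h] at hL
      simp at hL
      linarith
    · exact h
  have hL0 : (0 : ℝ) < L := by exact_mod_cast hL1
  set P : ℝ := (perc d p0).real {ω | (0 : V d) ∈ BG M L c1 b1 ω} with hP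
  set t : ℝ := κ / (2 * C6 * (L : ℝ) ^ 4) with ht
  have ht0 : 0 < t := by positivity
  have h1 := BigP_first H hc1' L hL1
  have h2 : ∫ ω, (bigN M L c1 ω 0 : ℝ) ^ 2 ∂(perc d p0) ≤ C6 * (L : ℝ) ^ 6 := by
    refine (BigP_second H c1 L 0).trans ((hv _ _ (10 * L) (by omega)).trans (le_of_eq ?_))
    rw [hC6]
    push_cast
    ring
  have h3 := BigP_armP H c1 L 0 hL
  -- integrability
  have i2 : Integrable (fun ω : Cfg d => t / 2 * (bigN M L c1 ω 0 : ℝ) ^ 2) (perc d p0) := by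
    refine Integrable.const_mul ?_ _
    refine Integrable.of_bound ((BigP_meas M L c1 0).pow_const 2).aestronglyMeasurable
      (((BF (0 : V d) (10 * L)).card : ℝ) ^ 2) (Filter.Eventually.of_forall fun ω => ?_)
    rw [Real.norm_of_nonneg (by positivity)]
    exact pow_le_pow_left₀ (Nat.cast_nonneg _) (BigP_bd M L c1 ω 0) 2
  have i1 : Integrable (fun ω : Cfg d => b1 * (L : ℝ) ^ 4 *
      (Ar (0 : V d) ⌈c1 * L⌉₊).indicator (fun _ => (1 : ℝ)) ω) (perc d p0) :=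
    ((integrable_const (1 : ℝ)).indicator (meas_Ar _ _)).const_mul _
  have i3 : Integrable (fun ω : Cfg d => 1 / (2 * t) *
      ({ω : Cfg d | (0 : V d) ∈ BG M L c1 b1 ω}.indicator (fun _ => (1 : ℝ)) ω)) (perc d p0) :=
    ((integrable_const (1 : ℝ)).indicator (meas_BG _ _ _ _ _)).const_mul _
  have i12 : Integrable (fun ω : Cfg d => b1 * (L : ℝ) ^ 4 *
      (Ar (0 : V d) ⌈c1 * L⌉₊).indicator (fun _ => (1 : ℝ)) ω +
      t / 2 * (bigN M L c1 ω 0 : ℝ) ^ 2) (perc d p0) := i1.add i2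
  have h4 : ∫ ω, (bigN M L c1 ω 0 : ℝ) ∂(perc d p0) ≤
      b1 * (L : ℝ) ^ 4 * (perc d p0).real (Ar (0 : V d) ⌈c1 * L⌉₊) +
        t / 2 * ∫ ω, (bigN M L c1 ω 0 : ℝ) ^ 2 ∂(perc d p0) + 1 / (2 * t) * P := by
    have h5 : ∫ ω, (b1 * (L : ℝ) ^ 4 * (Ar (0 : V d) ⌈c1 * L⌉₊).indicator (fun _ => (1 : ℝ)) ω +
      t / 2 * (bigN M L c1 ω 0 : ℝ) ^ 2 + 1 / (2 * t) *
      ({ω : Cfg d | (0 : V d) ∈ BG M L c1 b1 ω}.indicator (fun _ => (1 : ℝ)) ω)) ∂(perc d p0) =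
      b1 * (L : ℝ) ^ 4 * (perc d p0).real (Ar (0 : V d) ⌈c1 * L⌉₊) +
        t / 2 * ∫ ω, (bigN M L c1 ω 0 : ℝ) ^ 2 ∂(perc d p0) + 1 / (2 * t) * P := by
      rw [integral_add i12 i3, integral_add i1 i2, integral_const_mul,
        integral_const_mul, integral_const_mul]
      have e1 : ∫ ω, (Ar (0 : V d) ⌈c1 * L⌉₊).indicator (fun _ => (1 : ℝ)) ω ∂(perc d p0) =
          (perc d p0).real (Ar (0 : V d) ⌈c1 * L⌉₊) := integral_indicator_one (meas_Ar _ _)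
      have e2 : ∫ ω, ({ω : Cfg d | (0 : V d) ∈ BG M L c1 b1 ω}.indicator
          (fun _ => (1 : ℝ)) ω) ∂(perc d p0) = P := integral_indicator_one (meas_BG _ _ _ _ _)
      rw [e1, e2]
    rw [← h5]
    refine integral_mono_of_nonneg (Filter.Eventually.of_forall fun ω => by positivity)
      (i12.add i3) (Filter.Eventually.of_forall fun ω => ?_)
    exact BigP_pt ht0 hb1 0 ω
  have h6 : b1 * (L : ℝ) ^ 4 * (perc d p0).real (Ar (0 : V d) ⌈c1 * L⌉₊) ≤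
      κ / 2 * (L : ℝ) ^ 2 := by
    calc b1 * (L : ℝ) ^ 4 * (perc d p0).real (Ar (0 : V d) ⌈c1 * L⌉₊)
        ≤ b1 * (L : ℝ) ^ 4 * (A / (c1 * L) ^ 2) := by
          apply mul_le_mul_of_nonneg_left h3
          positivity
      _ ≤ κ * c1 ^ 2 / (2 * A) * (L : ℝ) ^ 4 * (A / (c1 * L) ^ 2) := by
          apply mul_le_mul_of_nonneg_right
          · apply mul_le_mul_of_nonneg_right hb1'
            positivity
          · positivity
      _ = κ / 2 * (L : ℝ) ^ 2 := by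
          field_simp
  have h7 : t / 2 * ∫ ω, (bigN M L c1 ω 0 : ℝ) ^ 2 ∂(perc d p0) ≤ κ / 4 * (L : ℝ) ^ 2 := by
    calc t / 2 * ∫ ω, (bigN M L c1 ω 0 : ℝ) ^ 2 ∂(perc d p0)
        ≤ t / 2 * (C6 * (L : ℝ) ^ 6) := by
          apply mul_le_mul_of_nonneg_left h2
          positivity
      _ = κ / 4 * (L : ℝ) ^ 2 := by
          rw [ht]
          field_simp
          ring
  have h8 : κ / 4 * (L : ℝ) ^ 2 ≤ 1 / (2 * t) * P := by linarith
  have h9 : 1 / (2 * t) * P = C6 * (L : ℝ) ^ 4 / κ * P := by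
    rw [ht]
    field_simp
  rw [h9] at h8
  have h10 : κ ^ 2 / (4 * C6) / (L : ℝ) ^ 2 =
      (κ / (C6 * (L : ℝ) ^ 4)) * (κ / 4 * (L : ℝ) ^ 2) := by
    field_simp
  have h11 : P = (κ / (C6 * (L : ℝ) ^ 4)) * (C6 * (L : ℝ) ^ 4 / κ * P) := by
    field_simp
  rw [h10, h11]
  apply mul_le_mul_of_nonneg_left h8
  positivity

theorem big_hi {p0 A cM : ℝ} {M : ℕ} (H : Crit d p0 A cM M) (c1 b1 : ℝ) (hc1 : 0 < c1)
    (hb1 : 0 < b1) (L : ℕ) (x : V d) (hL : 1 ≤ c1 * L) :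
    (perc d p0).real {ω | x ∈ BG M L c1 b1 ω} ≤ A / (c1 * L) ^ 2 := by
  have := H.prob
  have hL1 : 1 ≤ L := by
    rcases Nat.eq_zero_or_pos L with h | h
    · rw [h] at hL
      simp at hL
      linarith
    · exact h
  have hL0 : (0 : ℝ) < L := by exact_mod_cast hL1
  refine le_trans (measureReal_mono ?_ (measure_ne_top _ _)) (BigP_armP H c1 L x hL)
  intro ω hω
  have h1 : b1 * (L : ℝ) ^ 4 ≤ bigN M L c1 ω x := hω
  have h2 : 0 < b1 * (L : ℝ) ^ 4 := by positivity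
  apply BigP_arm (M := M)
  have h3 : (0 : ℝ) < bigN M L c1 ω x := by linarith
  exact_mod_cast h3

end H95LBS
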