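import Pool.Agent.H95.LBS.AsmP
import Pool.Agent.H95.LBS.AsmE
import Pool.Agent.H95.LBS.BigP

/-!
PROJECT DS (MP_0d9ad5_pr), JOB DS-AsmF. Lower bound for the energy density of every corrector
(section 9 of note 2700).
PROOF. `R = 10M+3`, `K = 12 (2R+1)^d + 4`, `η0 = 1/K^(8d)`; `block` with this `η0`. Fix `lam, s`, `E = {q | BlkOK ..}` (measurable
and local by `blk_dep`, `meas_dep2`), `gq E L q` = the good blocks. `k j q` = least `k` such that `Hk .. i (z j)` for all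
`i >= k` (0 if there is none; a.s. it exists by `hk_prob`), `P(k j >= i+1) <= P(not for all i' >= i Hk) <= 2/K^(7d(i+1))`.
`path_ineq` gives the inequality a.s.; `F b q = C1 L^2/L^(d-6) En (shq (L b) q)`; `∫ En = card BB * sg i0 g (pn p0 s)` by stationarity
(`map_shP`, `map_un`, `perc_shift`; each term of `En` is bounded by `(1 + 2G)^2`). `asm_exp`:
`L <= 4 5^d sqrt(C1 L^2/L^(d-6) card BB sg)`, `card BB <= (2(10M+3)+1)^d L^d`: so `sg >= c/L^6`.
-/

namespace H95LBS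

open H5DF H95LBD MeasureTheory Filter Topology

variable {d : ℕ}

/-- `0` is in an infinite cluster and the edge `σ` at `0` is open. -/
def AsmF_C (σ : Dir d) : Set (Cfg d) := {ω | (cluster ω 0).Infinite ∧ ω (edge 0 σ) = true}

/-- The squared increment of the corrector. -/
noncomputable def AsmF_psi (i0 : Fin d) (g : Cfg d → ℝ) (σ : Dir d) (ω : Cfg d) : ℝ :=
  ((((step σ : V d) i0 : ℤ) : ℝ) + g (shift (step σ) ω) - g ω) ^ 2

lemma AsmF_ss (a b : V d) (ω : Cfg d) : shift a (shift b ω) = shift (a + b) ω := by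
  funext e
  simp [shift, add_assoc]

lemma AsmF_meas_C (σ : Dir d) : MeasurableSet (AsmF_C σ) := (meas_inf 0).inter (meas_open _)

lemma AsmF_meas_psi {i0 : Fin d} {g : Cfg d → ℝ} (hg : Measurable g) (σ : Dir d) :
    Measurable (AsmF_psi i0 g σ) :=
  (((measurable_const.add (hg.comp (measurable_shift _))).sub hg).pow_const 2)

lemma AsmF_psi_nonneg (i0 : Fin d) (g : Cfg d → ℝ) (σ : Dir d) (ω : Cfg d) :
    0 ≤ AsmF_psi i0 g σ ω := sq_nonneg _

lemma AsmF_psi_le {i0 : Fin d} {g : Cfg d → ℝ} {G : ℝ} (hG : ∀ ω, |g ω| ≤ G) (σ : Dir d)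
    (ω : Cfg d) : AsmF_psi i0 g σ ω ≤ (1 + 2 * G) ^ 2 := by
  have h1 : |(((step σ : V d) i0 : ℤ) : ℝ)| ≤ 1 := by
    obtain ⟨i, b⟩ := σ
    by_cases hi : i0 = i
    · subst hi
      cases b <;> simp [step]
    · have : (step (i, b) : V d) i0 = 0 := by simp [step, hi]
      rw [this]
      simp
  have h2 := abs_le.1 h1
  have h3 := abs_le.1 (hG (shift (step σ) ω))
  have h4 := abs_le.1 (hG ω)
  unfold AsmF_psi
  refine sq_le_sq' ?_ ?_
  · linarith [h2.1, h2.2, h3.1, h3.2, h4.1, h4.2]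
  · linarith [h2.1, h2.2, h3.1, h3.2, h4.1, h4.2]

lemma AsmF_En (i0 : Fin d) (g : Cfg d → ℝ) (B : Finset (V d)) (a : V d) (q : Cfg d × Cfg d) :
    En i0 g B (shq a q) = ∑ x ∈ B, ∑ σ : Dir d,
      (AsmF_C σ).indicator (AsmF_psi i0 g σ) (shift (x + a) (un q.1 q.2)) := by
  classical
  unfold En
  refine Finset.sum_congr rfl fun x _ => Finset.sum_congr rfl fun σ _ => ?_
  have hun : un (shq a q).1 (shq a q).2 = shift a (un q.1 q.2) := rfl
  rw [hun]
  set ω : Cfg d := un q.1 q.2 with hω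
  have h1 : shift (x + a) ω = shift x (shift a ω) := (AsmF_ss x a ω).symm
  rw [h1]
  have hi : x ∈ InfS (shift a ω) ↔ (cluster (shift x (shift a ω)) 0).Infinite := by
    rw [inf_shift x 0, zero_add]
    rfl
  have he : shift a ω (edge x σ) = true ↔ shift x (shift a ω) (edge 0 σ) = true := by
    rw [edge_shift x 0, zero_add]
  have hp : (hf i0 g (shift a ω) (x + step σ) - hf i0 g (shift a ω) x) ^ 2 =
      AsmF_psi i0 g σ (shift x (shift a ω)) := by
    unfold hf AsmF_psi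
    rw [AsmF_ss (step σ) x, add_comm (step σ) x]
    congr 1
    push_cast [Pi.add_apply]
    ring
  by_cases hc : x ∈ InfS (shift a ω) ∧ shift a ω (edge x σ) = true
  · rw [if_pos hc, Set.indicator_of_mem, hp]
    exact ⟨hi.1 hc.1, he.1 hc.2⟩
  · rw [if_neg hc, Set.indicator_of_notMem]
    rintro ⟨h2, h3⟩
    exact hc ⟨hi.2 h2, he.2 h3⟩

lemma AsmF_map {p s : ℝ} (h0 : 0 ≤ p) (h1 : p ≤ 1) (hs0 : 0 ≤ s) (hs1 : s ≤ 1) (y : V d) :
    (PP d p s).map (fun q => shift y (un q.1 q.2)) = perc d (pn p s) := by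
  have h := Measure.map_map (μ := PP d p s) (measurable_shift y) (measurable_un (d := d))
  rw [map_un h0 h1 hs0 hs1, perc_shift _ (h0.trans (pn_ge h1 hs0)) (pn_le h1 hs1)] at h
  exact h.symm

lemma AsmF_one {p s : ℝ} (h0 : 0 ≤ p) (h1 : p ≤ 1) (hs0 : 0 ≤ s) (hs1 : s ≤ 1) (i0 : Fin d)
    (g : Cfg d → ℝ) (hg : Measurable g) (G : ℝ) (hG : ∀ ω, |g ω| ≤ G) (σ : Dir d) (y : V d) :
    Integrable (fun q : Cfg d × Cfg d =>
      (AsmF_C σ).indicator (AsmF_psi i0 g σ) (shift y (un q.1 q.2))) (PP d p s) ∧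
    ∫ q, (AsmF_C σ).indicator (AsmF_psi i0 g σ) (shift y (un q.1 q.2)) ∂(PP d p s) =
      ∫ ω in AsmF_C σ, AsmF_psi i0 g σ ω ∂(perc d (pn p s)) := by
  have hPP : IsProbabilityMeasure (PP d p s) := isProb_PP h0 h1 hs0 hs1
  have hm : Measurable ((AsmF_C σ).indicator (AsmF_psi i0 g σ)) :=
    (AsmF_meas_psi hg σ).indicator (AsmF_meas_C σ)
  have hsh : Measurable (fun q : Cfg d × Cfg d => shift y (un q.1 q.2)) :=
    (measurable_shift y).comp measurable_un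
  constructor
  · refine Integrable.of_bound (hm.comp hsh).aestronglyMeasurable ((1 + 2 * G) ^ 2)
      (Eventually.of_forall fun q => ?_)
    rw [Real.norm_eq_abs, abs_of_nonneg
      (Set.indicator_nonneg (fun ω _ => AsmF_psi_nonneg i0 g σ ω) _)]
    exact Set.indicator_apply_le' (fun _ => AsmF_psi_le hG σ _) (fun _ => sq_nonneg _)
  · rw [← AsmF_map h0 h1 hs0 hs1 y, ← integral_indicator (AsmF_meas_C σ),
      integral_map hsh.aemeasurable hm.aestronglyMeasurable]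

lemma AsmF_int {p s : ℝ} (h0 : 0 ≤ p) (h1 : p ≤ 1) (hs0 : 0 ≤ s) (hs1 : s ≤ 1) (i0 : Fin d)
    (g : Cfg d → ℝ) (hg : Measurable g) (G : ℝ) (hG : ∀ ω, |g ω| ≤ G) (B : Finset (V d))
    (a : V d) :
    Integrable (fun q : Cfg d × Cfg d => En i0 g B (shq a q)) (PP d p s) ∧
    ∫ q, En i0 g B (shq a q) ∂(PP d p s) = B.card * sg i0 g (pn p s) := by
  have h2 : (fun q : Cfg d × Cfg d => En i0 g B (shq a q)) = fun q => ∑ x ∈ B, ∑ σ : Dir d,
      (AsmF_C σ).indicator (AsmF_psi i0 g σ) (shift (x + a) (un q.1 q.2)) :=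
    funext fun q => AsmF_En i0 g B a q
  have h3 : ∀ x : V d, ∀ σ : Dir d, Integrable (fun q : Cfg d × Cfg d =>
      (AsmF_C σ).indicator (AsmF_psi i0 g σ) (shift (x + a) (un q.1 q.2))) (PP d p s) :=
    fun x σ => (AsmF_one h0 h1 hs0 hs1 i0 g hg G hG σ (x + a)).1
  have h4 : ∀ x : V d, Integrable (fun q : Cfg d × Cfg d => ∑ σ : Dir d,
      (AsmF_C σ).indicator (AsmF_psi i0 g σ) (shift (x + a) (un q.1 q.2))) (PP d p s) :=
    fun x => integrable_finsetSum _ fun σ _ => h3 x σ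
  rw [h2]
  constructor
  · exact integrable_finsetSum _ fun x _ => h4 x
  · rw [integral_finsetSum _ fun x _ => h4 x]
    have h5 : ∀ x ∈ B, ∫ q : Cfg d × Cfg d, ∑ σ : Dir d,
        (AsmF_C σ).indicator (AsmF_psi i0 g σ) (shift (x + a) (un q.1 q.2)) ∂(PP d p s) =
        sg i0 g (pn p s) := by
      intro x _
      rw [integral_finsetSum _ fun σ _ => h3 x σ]
      unfold sg
      refine Finset.sum_congr rfl fun σ _ => ?_
      rw [(AsmF_one h0 h1 hs0 hs1 i0 g hg G hG σ (x + a)).2]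
      rfl
    rw [Finset.sum_congr rfl h5, Finset.sum_const, nsmul_eq_mul]

lemma AsmF_En_meas (i0 : Fin d) (g : Cfg d → ℝ) (hg : Measurable g) (B : Finset (V d))
    (a : V d) : Measurable (fun q : Cfg d × Cfg d => En i0 g B (shq a q)) := by
  have h2 : (fun q : Cfg d × Cfg d => En i0 g B (shq a q)) = fun q => ∑ x ∈ B, ∑ σ : Dir d,
      (AsmF_C σ).indicator (AsmF_psi i0 g σ) (shift (x + a) (un q.1 q.2)) :=
    funext fun q => AsmF_En i0 g B a q
  rw [h2]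
  refine Finset.measurable_fun_sum _ fun x _ => Finset.measurable_fun_sum _ fun σ _ => ?_
  exact ((AsmF_meas_psi hg σ).indicator (AsmF_meas_C σ)).comp
    ((measurable_shift (x + a)).comp measurable_un)

lemma AsmF_En_nonneg (i0 : Fin d) (g : Cfg d → ℝ) (B : Finset (V d)) (q : Cfg d × Cfg d) :
    0 ≤ En i0 g B q := by
  classical
  unfold En
  refine Finset.sum_nonneg fun x _ => Finset.sum_nonneg fun σ _ => ?_
  split_ifs
  · exact sq_nonneg _
  · exact le_rfl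

/-- The first index after which an increasing family of events holds. -/
lemma AsmF_k {Ω : Type*} [MeasurableSpace Ω] (μ : Measure Ω) [IsProbabilityMeasure μ]
    (A : ℕ → Set Ω) (hA : ∀ k, MeasurableSet (A k)) (hmono : ∀ k l, k ≤ l → A k ⊆ A l)
    (ε : ℕ → ℝ) (hε : Tendsto ε atTop (𝓝 0)) (hp : ∀ k, μ.real (A k)ᶜ ≤ ε k) :
    ∃ κ : Ω → ℕ, Measurable κ ∧ (∀ i, μ.real {w | i + 1 ≤ κ w} ≤ ε i) ∧
      ∀ᵐ w ∂μ, w ∈ A (κ w) := by
  have hsub : ∀ i, {w | i + 1 ≤ sInf {k | w ∈ A k}} ⊆ (A i)ᶜ := by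
    intro i w hw hwi
    have h1 : sInf {k | w ∈ A k} ≤ i := Nat.sInf_le hwi
    have h2 : i + 1 ≤ sInf {k | w ∈ A k} := hw
    omega
  refine ⟨fun w => sInf {k | w ∈ A k}, ?_, fun i => (measureReal_mono (hsub i)).trans (hp i), ?_⟩
  · refine measurable_of_Ici fun x => ?_
    rcases x with _ | i
    · have : (fun w => sInf {k | w ∈ A k}) ⁻¹' Set.Ici 0 = Set.univ := by
        ext w
        simp
      rw [this]
      exact MeasurableSet.univ
    · have : (fun w => sInf {k | w ∈ A k}) ⁻¹' Set.Ici (i + 1) = (A i)ᶜ ∩ ⋃ k, A k := by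
        ext w
        constructor
        · intro hw
          refine ⟨hsub i hw, ?_⟩
          by_contra hne
          have h1 : {k | w ∈ A k} = ∅ := by
            ext k
            simp only [Set.mem_empty_iff_false, iff_false]
            intro hk
            exact hne (Set.mem_iUnion.2 ⟨k, hk⟩)
          have h2 : i + 1 ≤ sInf {k | w ∈ A k} := hw
          rw [h1, Nat.sInf_empty] at h2
          omega
        · rintro ⟨h1, h2⟩
          obtain ⟨k, hk⟩ := Set.mem_iUnion.1 h2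
          have h3 : sInf {k | w ∈ A k} ∈ {k | w ∈ A k} := Nat.sInf_mem ⟨k, hk⟩
          show i + 1 ≤ sInf {k | w ∈ A k}
          by_contra h4
          exact h1 (hmono _ i (by omega) h3)
      rw [this]
      exact (hA i).compl.inter (MeasurableSet.iUnion hA)
  · have h0 : μ.real (⋃ k, A k)ᶜ ≤ 0 := by
      refine ge_of_tendsto' hε fun k => ?_
      refine (measureReal_mono ?_).trans (hp k)
      exact Set.compl_subset_compl.2 (Set.subset_iUnion A k)
    have h1 : μ (⋃ k, A k)ᶜ = 0 := by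
      have := le_antisymm h0 measureReal_nonneg
      exact (measureReal_eq_zero_iff).1 this
    have h2 : ∀ᵐ w ∂μ, w ∈ ⋃ k, A k := by
      rw [ae_iff]
      exact h1
    filter_upwards [h2] with w hw
    obtain ⟨k, hk⟩ := Set.mem_iUnion.1 hw
    have h3 : sInf {k | w ∈ A k} ∈ {k | w ∈ A k} := Nat.sInf_mem ⟨k, hk⟩
    exact h3

lemma AsmF_card {M L : ℕ} (hL : 1 ≤ L) :
    ((BB d M L).card : ℝ) ≤ (3 * (10 * M + 3 : ℕ) : ℝ) ^ d * (L : ℝ) ^ d := by
  have h1 : (BB d M L).card ≤ (Box d ((10 * M + 3) * L)).card := Finset.card_image_le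
  have h2 : (1 : ℝ) ≤ L := by exact_mod_cast hL
  have h3 : (1 : ℝ) ≤ ((10 * M + 3 : ℕ) : ℝ) := by
    have : 1 ≤ 10 * M + 3 := by omega
    exact_mod_cast this
  calc ((BB d M L).card : ℝ) ≤ ((Box d ((10 * M + 3) * L)).card : ℝ) := by exact_mod_cast h1
    _ = (2 * (((10 * M + 3 : ℕ) : ℝ) * L) + 1) ^ d := by
        rw [card_Box]
        push_cast
        ring
    _ ≤ (3 * (10 * M + 3 : ℕ) * L : ℝ) ^ d := by
        refine pow_le_pow_left₀ (by positivity) ?_ _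
        have h4 : (1 : ℝ) ≤ ((10 * M + 3 : ℕ) : ℝ) * L := by nlinarith
        linarith
    _ = (3 * (10 * M + 3 : ℕ) : ℝ) ^ d * (L : ℝ) ^ d := by rw [← mul_pow]

theorem asm_final {p0 A cM : ℝ} {M : ℕ} (H : Crit d p0 A cM M) (i0 : Fin d) :
    ∃ (κ c4 : ℝ) (lam0 : ℕ), 0 < κ ∧ 0 < c4 ∧ ∀ (lam : ℕ) (s : ℝ), lam0 ≤ lam →
      κ ^ 2 / 2 ≤ s * (lam : ℝ) ^ 2 → s * (lam : ℝ) ^ 2 ≤ κ ^ 2 →
      ∀ g : Cfg d → ℝ, Measurable g → (∃ G : ℝ, ∀ ω, |g ω| ≤ G) →
        c4 / (lam : ℝ) ^ 6 ≤ sg i0 g (pn p0 s) := by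
  classical
  have hd := H.hd
  have hp0 := H.hp0
  have hp1 := H.hp1
  have hM := H.hM
  set R : ℕ := 10 * M + 3 with hR
  set K : ℕ := 12 * (2 * R + 1) ^ d + 4 with hKdef
  have hK4 : 4 ≤ K := by omega
  have hKr : (4 : ℝ) ≤ K := by exact_mod_cast hK4
  obtain ⟨κ, c1, b1, C1, m, lam0, hκ, hc1, hb1, hC1, hm, hlam0, hblk⟩ :=
    block H (1 / (K : ℝ) ^ (8 * d)) (by positivity)
  set D : ℝ := (4 * 5 ^ d) ^ 2 * C1 * (3 * (10 * M + 3 : ℕ) : ℝ) ^ d with hD
  have hDpos : 0 < D := by positivity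
  have hmr : (0 : ℝ) < m := by exact_mod_cast hm
  refine ⟨κ, 1 / (D * (m : ℝ) ^ 6), max lam0 (⌈κ⌉₊ + 1), hκ, by positivity, ?_⟩
  intro lam s hlam hs1 hs2 g hg hG'
  obtain ⟨G, hG⟩ := hG'
  have hl0 : lam0 ≤ lam := (le_max_left _ _).trans hlam
  have hl1 : ⌈κ⌉₊ + 1 ≤ lam := (le_max_right _ _).trans hlam
  have hlam1 : 1 ≤ lam := by omega
  have hlamr : (0 : ℝ) < lam := by exact_mod_cast hlam1
  have hκl : κ ≤ lam := by
    have h1 : κ ≤ ⌈κ⌉₊ := Nat.le_ceil κ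
    have h2 : ((⌈κ⌉₊ : ℕ) : ℝ) ≤ lam := by
      have : ⌈κ⌉₊ ≤ lam := by omega
      exact_mod_cast this
    linarith
  have hs0 : 0 ≤ s := by
    by_contra hneg
    push Not at hneg
    have : s * (lam : ℝ) ^ 2 < 0 := mul_neg_of_neg_of_pos hneg (by positivity)
    nlinarith [sq_nonneg κ]
  have hsle : s ≤ 1 := by
    have h1 : s * (lam : ℝ) ^ 2 ≤ 1 * (lam : ℝ) ^ 2 := by
      rw [one_mul]
      exact hs2.trans (pow_le_pow_left₀ hκ.le hκl 2)
    exact le_of_mul_le_mul_right h1 (by positivity)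
  have hPP : IsProbabilityMeasure (PP d p0 s) := isProb_PP hp0.le hp1.le hs0 hsle
  set L : ℕ := m * lam with hLdef
  have hL1 : 1 ≤ L := Nat.mul_pos hm hlam1
  have hLr : (0 : ℝ) < (L : ℝ) := by exact_mod_cast hL1
  set E : Set (Cfg d × Cfg d) := {q | BlkOK M m lam c1 b1 C1 q} with hE
  have hdep : ∀ q q' : Cfg d × Cfg d, (∀ e ∈ ins (Bx (0 : V d) (R * L)), q.1 e = q'.1 e ∧
      q.2 e = q'.2 e) → q ∈ E → q' ∈ E := fun q q' h hq => blk_dep hM q q' h hq
  have hEm : MeasurableSet E := by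
    refine meas_dep2 ((Box d (R * L)) ×ˢ (Finset.univ : Finset (Fin d))) E fun q q' h hq =>
      hdep q q' (fun e he => h e ?_) hq
    rw [Finset.mem_product]
    exact ⟨mem_Box'.2 (mem_Bx0.1 he.1), Finset.mem_univ _⟩
  have hEp : (PP d p0 s).real Eᶜ ≤ 1 / (K : ℝ) ^ (8 * d) := hblk lam s hl0 hs1 hs2
  -- the random scales
  have hkex : ∀ j : ℕ, ∃ kj : Cfg d × Cfg d → ℕ, Measurable kj ∧
      (∀ i : ℕ, (PP d p0 s).real {q | i + 1 ≤ kj q} ≤ 2 / (K : ℝ) ^ (7 * d * (i + 1))) ∧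
      ∀ᵐ q ∂(PP d p0 s), q ∈ {q : Cfg d × Cfg d | ∀ i, kj q ≤ i →
        Hk (gq E L q) K i (Pi.single i0 (j : ℤ))} := by
    intro j
    obtain ⟨kj, h1, h2, h3⟩ := AsmF_k (PP d p0 s)
      (fun k => {q : Cfg d × Cfg d | ∀ i, k ≤ i → Hk (gq E L q) K i (Pi.single i0 (j : ℤ))})
      (fun k => by
        have : {q : Cfg d × Cfg d | ∀ i, k ≤ i → Hk (gq E L q) K i (Pi.single i0 (j : ℤ))} =
            ⋂ i : ℕ, ⋂ _ : k ≤ i, ⋂ i' ∈ cube K (gi K (i + 1) (Pi.single i0 (j : ℤ) : V d)),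
              {q : Cfg d × Cfg d | bad (gq E L q) K i i'}ᶜ := by
          ext q
          simp only [Set.mem_iInter]
          rfl
        rw [this]
        exact MeasurableSet.iInter fun i => MeasurableSet.iInter fun _ =>
          Finset.measurableSet_biInter _ fun i' _ => (MsC_meas E hEm L K i i').compl)
      (fun k l hkl q hq i hi => hq i (hkl.trans hi))
      (fun k => 2 / (K : ℝ) ^ (7 * d * (k + 1)))
      (by
        have h1 : Tendsto (fun k : ℕ => 7 * d * (k + 1)) atTop atTop := by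
          refine tendsto_atTop_mono (fun k => ?_) tendsto_id
          show k ≤ 7 * d * (k + 1)
          nlinarith
        have h2 := (tendsto_pow_atTop_atTop_of_one_lt (r := (K : ℝ)) (by linarith)).comp h1
        exact h2.const_div_atTop 2)
      (fun k => hk_prob hp0.le hp1.le hs0 hsle E hEm R L K (by omega) hL1 (by omega) hdep le_rfl
        hEp k _)
    exact ⟨kj, h1, h2, h3⟩
  choose k hk1 hk2 hk3 using hkex
  have hCn : 0 ≤ C1 * (L : ℝ) ^ 2 / (L : ℝ) ^ (d - 6) := by positivity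
  have key := asm_exp (PP d p0 s) (d := d) (by omega) K hK4
    (fun j => (Pi.single i0 (j : ℤ) : V d)) k hk1 hk2
    (fun b q => C1 * (L : ℝ) ^ 2 / (L : ℝ) ^ (d - 6) *
      En i0 g (BB d M L) (shq (((L : ℕ) : ℤ) • b) q))
    (fun b => (AsmF_En_meas i0 g hg _ _).const_mul _)
    (fun b q => mul_nonneg hCn (AsmF_En_nonneg i0 g _ _))
    (C1 * (L : ℝ) ^ 2 / (L : ℝ) ^ (d - 6) * ((BB d M L).card * sg i0 g (pn p0 s)))
    (fun b => ((AsmF_int hp0.le hp1.le hs0 hsle i0 g hg G hG _ _).1).const_mul _)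
    (fun b => by
      rw [integral_const_mul, (AsmF_int hp0.le hp1.le hs0 hsle i0 g hg G hG _ _).2])
    (L : ℝ) G hLr.le
    (by
      have hall : ∀ᵐ q ∂(PP d p0 s), ∀ j : ℕ, q ∈ {q : Cfg d × Cfg d | ∀ i, k j q ≤ i →
        Hk (gq E L q) K i (Pi.single i0 (j : ℤ))} := ae_all_iff.2 hk3
      filter_upwards [hall] with q hq N
      exact path_ineq (by omega) hm hlam1 hK4 hC1.le i0 g hG q (fun j => k j q)
        (fun j i hi => hq j i hi) N)
  -- conclusion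
  set S : ℝ := sg i0 g (pn p0 s) with hS
  have hcard := AsmF_card (d := d) (M := M) hL1
  have hLd : (L : ℝ) ^ d = (L : ℝ) ^ (d - 6) * (L : ℝ) ^ 6 := by
    rw [← pow_add]
    congr 1
    omega
  have hS0 : 0 ≤ S := by
    rw [hS]
    unfold sg
    exact Finset.sum_nonneg fun σ _ => integral_nonneg fun ω => sq_nonneg _
  have h1 : (L : ℝ) ^ 2 ≤ (4 * 5 ^ d) ^ 2 * (C1 * (L : ℝ) ^ 2 / (L : ℝ) ^ (d - 6) *
      ((BB d M L).card * S)) := by
    have h2 := pow_le_pow_left₀ hLr.le key 2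
    rw [mul_pow, Real.sq_sqrt (by positivity)] at h2
    exact h2
  have h2 : (4 * 5 ^ d) ^ 2 * (C1 * (L : ℝ) ^ 2 / (L : ℝ) ^ (d - 6) *
      ((BB d M L).card * S)) ≤ (L : ℝ) ^ 2 * (D * (L : ℝ) ^ 6 * S) := by
    calc (4 * 5 ^ d) ^ 2 * (C1 * (L : ℝ) ^ 2 / (L : ℝ) ^ (d - 6) * ((BB d M L).card * S))
        ≤ (4 * 5 ^ d) ^ 2 * (C1 * (L : ℝ) ^ 2 / (L : ℝ) ^ (d - 6) *
          (((3 * (10 * M + 3 : ℕ) : ℝ) ^ d * (L : ℝ) ^ d) * S)) := by gcongr
      _ = (L : ℝ) ^ 2 * (D * (L : ℝ) ^ 6 * S) := by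
          rw [hLd, hD]
          field_simp
  have h3 : 1 ≤ D * (L : ℝ) ^ 6 * S := by
    have h4 : (L : ℝ) ^ 2 * 1 ≤ (L : ℝ) ^ 2 * (D * (L : ℝ) ^ 6 * S) := by linarith [h1.trans h2]
    exact le_of_mul_le_mul_left h4 (by positivity)
  have hL6 : (L : ℝ) ^ 6 = (m : ℝ) ^ 6 * (lam : ℝ) ^ 6 := by
    rw [hLdef]
    push_cast
    ring
  rw [div_div, div_le_iff₀ (by positivity)]
  calc (1 : ℝ) ≤ D * (L : ℝ) ^ 6 * S := h3
    _ = S * (D * (m : ℝ) ^ 6 * (lam : ℝ) ^ 6) := by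
        rw [hL6]
        ring

end H95LBS
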