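import Pool.Agent.H95.LBS.AsmDef
import Pool.Agent.H95.LBS.BigP

/-!
PROJECT DS (MP_0d9ad5_pr), JOB DS-AsmG. Good blocks attached to infinity lie in infinite clusters
(section 9 of note 2700).
PROOF. `gg z := BlkOK .. (shq (L z) q)`, `L = m lam`. `GG_z` = translate by `L z` of the hub given by `BlkOK` (choose it, or
state everything for any choice). For adjacent good `z, z' = z + step σ`: `BG` is translation covariant (`BG_shift`), the
cube `z` is `cube L 0` for `z` and `cube L (-step σ)` for `z'`; `GG_z` and `GG_z'` both contain at least `7/8` of the positive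
number of big points in it: they share a point, so they are in the same cluster of `un q.1 q.2` (`cut_shift`, `Cn_shift_Bx`).
By induction along `gc` all `GG_b` for `b` in the component of `z` are in one cluster; each of them has a point in the cube
`b`, infinitely many `b`: the cluster is infinite. `md_ex`: sort the values.
-/

namespace H95LBS

open H5DF H95LBD MeasureTheory

variable {d : ℕ}

theorem md_ex (T : Finset (V d)) (hT : T.Nonempty) (h : V d → ℝ) : ∃ μ : ℝ, IsMd T h μ := by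
  classical
  have hne : (T.filter fun x => T.card ≤ 2 * (T.filter (fun y => h y ≤ h x)).card).Nonempty := by
    obtain ⟨x, hx, hmax⟩ := T.exists_max_image h hT
    refine ⟨x, Finset.mem_filter.2 ⟨hx, ?_⟩⟩
    have h1 : T.filter (fun y => h y ≤ h x) = T := by
      apply Finset.filter_true_of_mem
      intro y hy
      exact hmax y hy
    rw [h1]
    omega
  obtain ⟨x, hx, hmin⟩ := Finset.exists_min_image _ h hne
  rw [Finset.mem_filter] at hx
  have key : T.card ≤ 2 * (T.filter (fun y => h x ≤ h y)).card := by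
    by_contra hcon
    push Not at hcon
    have hsplit : (T.filter (fun y => h x ≤ h y)).card + (T.filter (fun y => ¬ h x ≤ h y)).card =
        T.card := Finset.card_filter_add_card_filter_not _
    have hne2 : (T.filter (fun y => ¬ h x ≤ h y)).Nonempty := by
      rw [← Finset.card_pos]
      omega
    obtain ⟨z, hz, hzmax⟩ := Finset.exists_max_image _ h hne2
    rw [Finset.mem_filter] at hz
    have hsub : T.filter (fun y => ¬ h x ≤ h y) ⊆ T.filter (fun y => h y ≤ h z) := by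
      intro y hy
      have hy2 := Finset.mem_filter.1 hy
      exact Finset.mem_filter.2 ⟨hy2.1, hzmax y hy⟩
    have hc := Finset.card_le_card hsub
    have hz2 : z ∈ T.filter fun x => T.card ≤ 2 * (T.filter (fun y => h y ≤ h x)).card := by
      refine Finset.mem_filter.2 ⟨hz.1, ?_⟩
      omega
    exact hz.2 (hmin z hz2)
  refine ⟨h x, ⟨x, hx.1, rfl⟩, ?_, ?_⟩
  · have h1 := hx.2
    convert h1
  · convert key

/-- The first half of the block property, for a given base point. -/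
def AsmG_H (M L : ℕ) (c1 b1 : ℝ) (q : Cfg d × Cfg d) (z x0 : V d) : Prop :=
  ∀ w : V d, nm w ≤ 1 → 0 < cn (BG M L c1 b1 (shq ((L : ℤ) • z) q).1) (cube L w) ∧
    8 * cn (BG M L c1 b1 (shq ((L : ℤ) • z) q).1 \
      hub (BB d M L : Set (V d)) (un (shq ((L : ℤ) • z) q).1 (shq ((L : ℤ) • z) q).2) x0)
      (cube L w) ≤ cn (BG M L c1 b1 (shq ((L : ℤ) • z) q).1) (cube L w)

/-- The hub in absolute coordinates. -/
def AsmG_AH (M L : ℕ) (q : Cfg d × Cfg d) (z x0 : V d) : Set (V d) :=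
  {u | u - (L : ℤ) • z ∈
    hub (BB d M L : Set (V d)) (un (shq ((L : ℤ) • z) q).1 (shq ((L : ℤ) • z) q).2) x0}

lemma AsmG_cube_add {L : ℕ} {x w z : V d} (hx : x ∈ cube L w) :
    x + (L : ℤ) • z ∈ cube L (w + z) := by
  rw [mem_cube] at hx ⊢
  intro i
  have h := hx i
  have e1 : (x + (L : ℤ) • z) i = x i + L * z i := by simp
  have e2 : (w + z) i = w i + z i := rfl
  rw [e1, e2]
  constructor <;> nlinarith

lemma AsmG_cube_sub {L : ℕ} {x w z : V d} (hx : x ∈ cube L (w + z)) :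
    x - (L : ℤ) • z ∈ cube L w := by
  rw [mem_cube] at hx ⊢
  intro i
  have h := hx i
  have e1 : (x - (L : ℤ) • z) i = x i - L * z i := by simp
  have e2 : (w + z) i = w i + z i := rfl
  rw [e2] at h
  rw [e1]
  constructor <;> nlinarith

lemma AsmG_cn_shift (X : Set (V d)) (L : ℕ) (w z : V d) :
    cn X (cube L w) = cn {u | u - (L : ℤ) • z ∈ X} (cube L (w + z)) := by
  classical
  unfold cn
  refine Finset.card_nbij' (fun x => x + (L : ℤ) • z) (fun x => x - (L : ℤ) • z) ?_ ?_ ?_ ?_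
  · intro x hx
    have hx2 := Finset.mem_filter.1 (Finset.mem_coe.1 hx)
    refine Finset.mem_coe.2 (Finset.mem_filter.2 ⟨AsmG_cube_add hx2.1, ?_⟩)
    show x + (L : ℤ) • z - (L : ℤ) • z ∈ X
    rw [add_sub_cancel_right]
    exact hx2.2
  · intro x hx
    have hx2 := Finset.mem_filter.1 (Finset.mem_coe.1 hx)
    exact Finset.mem_coe.2 (Finset.mem_filter.2 ⟨AsmG_cube_sub hx2.1, hx2.2⟩)
  · intro x _
    exact add_sub_cancel_right _ _
  · intro x _
    exact sub_add_cancel _ _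

lemma AsmG_abs {M L : ℕ} {c1 b1 : ℝ} {q : Cfg d × Cfg d} {z x0 : V d}
    (h : AsmG_H M L c1 b1 q z x0) (w : V d) (hw : nm w ≤ 1) :
    0 < cn (BG M L c1 b1 q.1) (cube L (w + z)) ∧
    8 * cn (BG M L c1 b1 q.1 \ AsmG_AH M L q z x0) (cube L (w + z)) ≤
      cn (BG M L c1 b1 q.1) (cube L (w + z)) := by
  have h1 := h w hw
  rw [AsmG_cn_shift _ L w z, AsmG_cn_shift (_ \ _) L w z] at h1
  have e1 : {u : V d | u - (L : ℤ) • z ∈ BG M L c1 b1 (shq ((L : ℤ) • z) q).1} =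
      BG M L c1 b1 q.1 := by
    ext u
    show u - (L : ℤ) • z ∈ BG M L c1 b1 (shift ((L : ℤ) • z) q.1) ↔ _
    rw [BG_shift, sub_add_cancel]
  have e2 : {u : V d | u - (L : ℤ) • z ∈ BG M L c1 b1 (shq ((L : ℤ) • z) q).1 \
      hub (BB d M L : Set (V d)) (un (shq ((L : ℤ) • z) q).1 (shq ((L : ℤ) • z) q).2) x0} =
      BG M L c1 b1 q.1 \ AsmG_AH M L q z x0 := by
    ext u
    constructor
    · rintro ⟨h2, h3⟩
      refine ⟨?_, h3⟩
      have h4 : u ∈ {u : V d | u - (L : ℤ) • z ∈ BG M L c1 b1 (shq ((L : ℤ) • z) q).1} := h2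
      rwa [e1] at h4
    · rintro ⟨h2, h3⟩
      refine ⟨?_, h3⟩
      have h4 : u ∈ {u : V d | u - (L : ℤ) • z ∈ BG M L c1 b1 (shq ((L : ℤ) • z) q).1} := by
        rw [e1]
        exact h2
      exact h4
  rw [e1, e2] at h1
  exact h1

lemma AsmG_AH_cluster {M L : ℕ} {q : Cfg d × Cfg d} {z x0 u : V d}
    (h : u ∈ AsmG_AH M L q z x0) : u ∈ cluster (un q.1 q.2) (x0 + (L : ℤ) • z) := by
  have h1 : Cn (BB d M L : Set (V d)) (un (shq ((L : ℤ) • z) q).1 (shq ((L : ℤ) • z) q).2) x0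
      (u - (L : ℤ) • z) := h
  have h2 : u - (L : ℤ) • z ∈ cluster (shift ((L : ℤ) • z) (un q.1 q.2)) x0 := h1.cluster
  rw [cluster_shift] at h2
  have h3 : u - (L : ℤ) • z + (L : ℤ) • z ∈ cluster (un q.1 q.2) (x0 + (L : ℤ) • z) := h2
  rwa [sub_add_cancel] at h3

lemma AsmG_cn_le {X Y Z : Set (V d)} {T : Finset (V d)}
    (h : ∀ u ∈ T, u ∈ X → u ∈ Y ∨ u ∈ Z) : cn X T ≤ cn Y T + cn Z T := by
  classical
  unfold cn
  refine le_trans (Finset.card_le_card ?_) (Finset.card_union_le _ _)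
  intro u hu
  have hu2 := Finset.mem_filter.1 hu
  rcases h u hu2.1 hu2.2 with h1 | h1
  · exact Finset.mem_union_left _ (Finset.mem_filter.2 ⟨hu2.1, h1⟩)
  · exact Finset.mem_union_right _ (Finset.mem_filter.2 ⟨hu2.1, h1⟩)

lemma AsmG_share {M L : ℕ} {c1 b1 : ℝ} {q : Cfg d × Cfg d} {z z' x0 x0' : V d}
    (h : AsmG_H M L c1 b1 q z x0) (h' : AsmG_H M L c1 b1 q z' x0') (hzz : nm (z - z') ≤ 1) :
    ∃ u ∈ cube L z, u ∈ BG M L c1 b1 q.1 ∧ u ∈ AsmG_AH M L q z x0 ∧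
      u ∈ AsmG_AH M L q z' x0' := by
  classical
  have h1 := AsmG_abs h 0 (by rw [nm_zero]; omega)
  have h2 := AsmG_abs h' (z - z') hzz
  rw [zero_add] at h1
  rw [sub_add_cancel] at h2
  by_contra hcon
  push Not at hcon
  have h4 : cn (BG M L c1 b1 q.1) (cube L z) ≤
      cn (BG M L c1 b1 q.1 \ AsmG_AH M L q z x0) (cube L z) +
      cn (BG M L c1 b1 q.1 \ AsmG_AH M L q z' x0') (cube L z) := by
    apply AsmG_cn_le
    intro u hu hB
    by_cases h3 : u ∈ AsmG_AH M L q z x0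
    · exact Or.inr ⟨hB, hcon u hu hB h3⟩
    · exact Or.inl ⟨hB, h3⟩
  omega

lemma AsmG_of_Blk {M m lam : ℕ} {c1 b1 C1 : ℝ} {q : Cfg d × Cfg d} {z : V d}
    (hz : BlkOK M m lam c1 b1 C1 (shq (((m * lam : ℕ) : ℤ) • z) q)) :
    ∃ x0, AsmG_H M (m * lam) c1 b1 q z x0 := by
  obtain ⟨x0, _, h1, _⟩ := hz
  exact ⟨x0, h1⟩

lemma AsmG_reach {ω : Cfg d} {a b u : V d} (h1 : u ∈ cluster ω a) (h2 : u ∈ cluster ω b) :
    b ∈ cluster ω a := by
  have h3 : (G ω).Reachable a u := h1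
  have h4 : (G ω).Reachable b u := h2
  exact h3.trans h4.symm

lemma AsmG_conn {M m lam : ℕ} {c1 b1 C1 : ℝ} {q : Cfg d × Cfg d} {z x0 : V d}
    (hx0 : AsmG_H M (m * lam) c1 b1 q z x0) {b : V d}
    (hb : gc (fun z => BlkOK M m lam c1 b1 C1 (shq (((m * lam : ℕ) : ℤ) • z) q))
      Set.univ z b) :
    ∀ y0, AsmG_H M (m * lam) c1 b1 q b y0 →
      y0 + ((m * lam : ℕ) : ℤ) • b ∈
        cluster (un q.1 q.2) (x0 + ((m * lam : ℕ) : ℤ) • z) := by
  unfold gc at hb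
  induction hb with
  | refl =>
    intro y0 hy0
    obtain ⟨u, _, _, h1, h2⟩ := AsmG_share hx0 hy0 (by rw [sub_self, nm_zero]; omega)
    exact AsmG_reach (AsmG_AH_cluster h1) (AsmG_AH_cluster h2)
  | @tail b b' _ h ih =>
    intro y0 hy0
    obtain ⟨⟨s, hs⟩, h1, _, _, _⟩ := h
    obtain ⟨x1, hx1⟩ := AsmG_of_Blk h1
    have h3 := ih x1 hx1
    have h4 : nm (b - b') ≤ 1 := by
      rw [hs, sub_add_cancel_left, nm_neg, nm_step]
    obtain ⟨u, _, _, h5, h6⟩ := AsmG_share hx1 hy0 h4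
    have h7 := AsmG_reach (AsmG_AH_cluster h5) (AsmG_AH_cluster h6)
    have h8 : (G (un q.1 q.2)).Reachable (x0 + ((m * lam : ℕ) : ℤ) • z)
      (x1 + ((m * lam : ℕ) : ℤ) • b) := h3
    exact h8.trans h7

lemma AsmG_cube_inj {L : ℕ} (hL : 1 ≤ L) {b b' u : V d} (h : u ∈ cube L b) (h' : u ∈ cube L b') :
    b = b' := by
  rw [mem_cube] at h h'
  have hL' : (0 : ℤ) < L := by exact_mod_cast hL
  funext i
  have h1 := h i
  have h2 := h' i
  have h3 : b i < b' i + 1 := lt_of_mul_lt_mul_right (lt_of_le_of_lt h1.1 h2.2) hL'.le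
  have h4 : b' i < b i + 1 := lt_of_mul_lt_mul_right (lt_of_le_of_lt h2.1 h1.2) hL'.le
  omega

theorem giant_inf {M m lam : ℕ} {c1 b1 C1 : ℝ} (hm : 1 ≤ m) (hlam : 1 ≤ lam) (q : Cfg d × Cfg d)
    (z : V d) (hz : BlkOK M m lam c1 b1 C1 (shq (((m * lam : ℕ) : ℤ) • z) q))
    (hinf : {b | gc (fun z => BlkOK M m lam c1 b1 C1 (shq (((m * lam : ℕ) : ℤ) • z) q))
      Set.univ z b}.Infinite) (x0 : V d)
    (hx0 : ∀ w : V d, nm w ≤ 1 → 0 < cn (BG M (m * lam) c1 b1 (shq (((m * lam : ℕ) : ℤ) • z) q).1)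
        (cube (m * lam) w) ∧
      8 * cn (BG M (m * lam) c1 b1 (shq (((m * lam : ℕ) : ℤ) • z) q).1 \
        hub (BB d M (m * lam) : Set (V d)) (un (shq (((m * lam : ℕ) : ℤ) • z) q).1
          (shq (((m * lam : ℕ) : ℤ) • z) q).2) x0) (cube (m * lam) w) ≤
        cn (BG M (m * lam) c1 b1 (shq (((m * lam : ℕ) : ℤ) • z) q).1) (cube (m * lam) w)) :
    ∀ x ∈ hub (BB d M (m * lam) : Set (V d)) (un (shq (((m * lam : ℕ) : ℤ) • z) q).1
      (shq (((m * lam : ℕ) : ℤ) • z) q).2) x0,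
      (cluster (un q.1 q.2) (x + ((m * lam : ℕ) : ℤ) • z)).Infinite := by
  have hL : 1 ≤ m * lam := Nat.mul_pos hm hlam
  have hH : AsmG_H M (m * lam) c1 b1 q z x0 := hx0
  -- a point in every cube of the component
  have hpt : ∀ b ∈ {b | gc (fun z => BlkOK M m lam c1 b1 C1 (shq (((m * lam : ℕ) : ℤ) • z) q))
      Set.univ z b}, ∃ u ∈ cube (m * lam) b, u ∈
        cluster (un q.1 q.2) (x0 + ((m * lam : ℕ) : ℤ) • z) := by
    intro b hb
    have hb1 : gc (fun z => BlkOK M m lam c1 b1 C1 (shq (((m * lam : ℕ) : ℤ) • z) q))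
      Set.univ z b := hb
    have hokb : ∃ y0, AsmG_H M (m * lam) c1 b1 q b y0 := by
      unfold gc at hb1
      rcases Relation.ReflTransGen.cases_tail hb1 with h | ⟨c, _, h⟩
      · rw [h]
        exact ⟨x0, hH⟩
      · exact AsmG_of_Blk h.2.2.1
    obtain ⟨y0, hy0⟩ := hokb
    have h1 := AsmG_conn hH hb1 y0 hy0
    obtain ⟨u, hu, _, h2, _⟩ := AsmG_share hy0 hy0 (by rw [sub_self, nm_zero]; omega)
    refine ⟨u, hu, ?_⟩
    have h3 : (G (un q.1 q.2)).Reachable (x0 + ((m * lam : ℕ) : ℤ) • z)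
      (y0 + ((m * lam : ℕ) : ℤ) • b) := h1
    have h4 : (G (un q.1 q.2)).Reachable (y0 + ((m * lam : ℕ) : ℤ) • b) u := AsmG_AH_cluster h2
    exact h3.trans h4
  choose! f hf1 hf2 using hpt
  have hinj : Set.InjOn f {b | gc (fun z => BlkOK M m lam c1 b1 C1
      (shq (((m * lam : ℕ) : ℤ) • z) q)) Set.univ z b} := by
    intro b hb b' hb' hff
    have h1 := hf1 b hb
    have h2 := hf1 b' hb'
    rw [hff] at h1
    exact AsmG_cube_inj hL h1 h2
  have hinf0 : (cluster (un q.1 q.2) (x0 + ((m * lam : ℕ) : ℤ) • z)).Infinite :=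
    Set.infinite_of_injOn_mapsTo hinj (fun b hb => hf2 b hb) hinf
  intro x hx
  have hxa : x + ((m * lam : ℕ) : ℤ) • z ∈ AsmG_AH M (m * lam) q z x0 := by
    unfold AsmG_AH
    rw [Set.mem_ofPred_eq, add_sub_cancel_right]
    exact hx
  have h5 : (G (un q.1 q.2)).Reachable (x0 + ((m * lam : ℕ) : ℤ) • z)
    (x + ((m * lam : ℕ) : ℤ) • z) := AsmG_AH_cluster hxa
  refine hinf0.mono ?_
  intro y hy
  have h6 : (G (un q.1 q.2)).Reachable (x0 + ((m * lam : ℕ) : ℤ) • z) y := hy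
  exact h5.symm.trans h6

theorem Tz_ne {M m lam : ℕ} {c1 b1 C1 : ℝ} (hm : 1 ≤ m) (hlam : 1 ≤ lam) (q : Cfg d × Cfg d)
    (z : V d) (hz : BlkOK M m lam c1 b1 C1 (shq (((m * lam : ℕ) : ℤ) • z) q))
    (hinf : {b | gc (fun z => BlkOK M m lam c1 b1 C1 (shq (((m * lam : ℕ) : ℤ) • z) q))
      Set.univ z b}.Infinite) : (Tz M (m * lam) c1 b1 q z).Nonempty := by
  classical
  obtain ⟨x0, hx0⟩ := AsmG_of_Blk hz
  have h1 := giant_inf hm hlam q z hz hinf x0 hx0
  obtain ⟨u, hu, hB, h2, _⟩ := AsmG_share hx0 hx0 (by rw [sub_self, nm_zero]; omega)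
  have h3 := h1 _ h2
  rw [sub_add_cancel] at h3
  exact ⟨u, Finset.mem_filter.2 ⟨hu, hB, h3⟩⟩

end H95LBS
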