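import Pool.Agent.H95.LBS.MsA

/-!
PROJECT DS (MP_0d9ad5_pr), JOB DS-MsB. Nested boxes around a point (deterministic; section 8 of note 2700).
PROOF. `gi K (k+1) z = gi K 1 (gi K k z)` (integer division), so `gi K k z ∈ cube K (gi K (k+1) z)` and
`z ∈ cube (K^k) (gi K k z)`. For `z' = z + step s`: `gi K k z' = gi K k z` or it differs by `step s`.
`ms_nest`: all sub-boxes not bad: every hyperplane is free. `ms_path`: `sk_conn` at scale `k`, and
`cube (K^k) (gi K k z) ⊆ Bx z (K^k)`, `cube (K^k) (gi K k z') ⊆ Bx z (2 K^k)`. `ms_inf`: the skeletons of the nested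
boxes increase; the one at scale `j+1` contains the nonempty skeletons of all `K^d >= 2` disjoint sub-boxes, so it
has more points than the one at scale `j`; all its points are connected to `a` by `sk_conn`.
-/

namespace H95LBS

open H5DF H95LBD MeasureTheory

variable {d : ℕ}

lemma MsB_pow_pos {K : ℕ} (hK : 1 ≤ K) (k : ℕ) : 0 < K ^ k := Nat.pos_of_ne_zero (by positivity)

theorem gi_mem (K k : ℕ) (hK : 1 ≤ K) (z : V d) : z ∈ cube (K ^ k) (gi K k z) := by
  rw [mem_cube]
  intro i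
  have hp : (0 : ℤ) < ((K ^ k : ℕ) : ℤ) := by exact_mod_cast MsB_pow_pos hK k
  exact ⟨Int.ediv_mul_le _ hp.ne', Int.lt_ediv_add_one_mul_self _ hp⟩

theorem gi_sub (K k : ℕ) (hK : 1 ≤ K) (z : V d) : gi K k z ∈ cube K (gi K (k + 1) z) := by
  rw [mem_cube]
  intro i
  have hp : (0 : ℤ) < (K : ℤ) := by exact_mod_cast hK
  have hq : (0 : ℤ) ≤ ((K ^ k : ℕ) : ℤ) := by positivity
  have h : gi K (k + 1) z i = gi K k z i / (K : ℤ) := by
    unfold gi
    rw [Int.ediv_ediv_of_nonneg hq, pow_succ]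
    push_cast
    rfl
  rw [h]
  exact ⟨Int.ediv_mul_le _ hp.ne', Int.lt_ediv_add_one_mul_self _ hp⟩

lemma MsB_div_succ {N : ℤ} (hN : 0 < N) (a : ℤ) : (a + 1) / N = a / N ∨ (a + 1) / N = a / N + 1 := by
  have h1 : a / N ≤ (a + 1) / N := Int.ediv_le_ediv hN (by omega)
  have h2 : (a + 1) / N ≤ (a + N) / N := Int.ediv_le_ediv hN (by omega)
  have h3 : (a + N) / N = a / N + 1 := Int.add_ediv_of_dvd_right (dvd_refl N) |>.trans (by
    rw [Int.ediv_self hN.ne'])
  omega

theorem gi_step (K k : ℕ) (hK : 1 ≤ K) (z : V d) (s : Dir d) :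
    gi K k (z + step s) = gi K k z ∨ gi K k (z + step s) = gi K k z + step s := by
  have hp : (0 : ℤ) < ((K ^ k : ℕ) : ℤ) := by exact_mod_cast MsB_pow_pos hK k
  obtain ⟨i, b⟩ := s
  have hother : ∀ j, j ≠ i → gi K k (z + step (i, b)) j = gi K k z j := by
    intro j hj
    simp [gi, step, hj]
  have hcase : gi K k (z + step (i, b)) i = gi K k z i ∨
      gi K k (z + step (i, b)) i = gi K k z i + (step (i, b) : V d) i := by
    unfold gi
    rw [Pi.add_apply]
    cases b
    · have hs : (step (i, false) : V d) i = -1 := by simp [step]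
      rw [hs]
      rcases MsB_div_succ hp (z i + -1) with h | h
      · left
        rw [neg_add_cancel_right] at h
        exact h.symm
      · right
        rw [neg_add_cancel_right] at h
        omega
    · have hs : (step (i, true) : V d) i = 1 := by simp [step]
      rw [hs]
      exact MsB_div_succ hp (z i)
  rcases hcase with h | h
  · left
    funext j
    by_cases hj : j = i
    · subst hj
      exact h
    · exact hother j hj
  · right
    funext j
    by_cases hj : j = i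
    · subst hj
      exact h
    · rw [hother j hj]
      simp [step, hj]

lemma MsB_sub (hd : 1 ≤ d) (g : V d → Prop) (K : ℕ) (k : ℕ) (z : V d)
    (h : Hk g K k z) {i : V d} (hi : i ∈ cube K (gi K (k + 1) z)) :
    Sk g K k i ⊆ Sk g K (k + 1) (gi K (k + 1) z) := by
  intro x hx
  exact ⟨⟨0, hd⟩, i, hi, fun i' hi' _ => h i' hi', hx⟩

theorem ms_nest (hd : 1 ≤ d) (g : V d → Prop) (K : ℕ) (k : ℕ) (z : V d) (hK : 1 ≤ K)
    (h : Hk g K k z) : Sk g K k (gi K k z) ⊆ Sk g K (k + 1) (gi K (k + 1) z) :=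
  MsB_sub hd g K k z h (gi_sub K k hK z)

lemma MsB_gc_mono {g : V d → Prop} {T T' : Set (V d)} (hT : T ⊆ T') {a b : V d}
    (h : gc g T a b) : gc g T' a b := by
  refine Relation.ReflTransGen.mono ?_ _ _ h
  rintro x y ⟨h1, h2, h3, h4, h5⟩
  exact ⟨h1, h2, h3, hT h4, hT h5⟩

lemma MsB_cube_near {n : ℕ} {j x z : V d} (hx : x ∈ cube n j) (hz : z ∈ cube n j) :
    nm (x - z) ≤ n := by
  rw [mem_cube] at hx hz
  rw [nm_le]
  intro i
  have h1 := hx i
  have h2 := hz i
  have h3 : (j i + 1) * (n : ℤ) = j i * n + n := by ring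
  rw [h3] at h1 h2
  rw [Pi.sub_apply]
  omega

lemma MsB_cube_inj {n : ℕ} {j j' x : V d} (hx : x ∈ cube n j) (hx' : x ∈ cube n j') :
    j = j' := by
  rw [mem_cube] at hx hx'
  funext i
  have h1 := hx i
  have h2 := hx' i
  by_contra hne
  rcases lt_or_gt_of_ne hne with h | h
  · have h3 : (j i + 1) * (n : ℤ) ≤ j' i * n :=
      mul_le_mul_of_nonneg_right (by omega) (by positivity)
    omega
  · have h3 : (j' i + 1) * (n : ℤ) ≤ j i * n :=
      mul_le_mul_of_nonneg_right (by omega) (by positivity)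
    omega

lemma MsB_not_bad {g : V d → Prop} {K k : ℕ} (hK : 1 ≤ K) {z : V d} (h : Hk g K k z) :
    ¬ bad g K k (gi K k z) := h _ (gi_sub K k hK z)

theorem ms_path (hd : 2 ≤ d) (g : V d → Prop) (K : ℕ) (hK : 4 ≤ K) (k : ℕ) (z : V d) (s : Dir d)
    (h : Hk g K k z) (h' : Hk g K k (z + step s)) (a a' : V d) (ha : a ∈ Sk g K k (gi K k z))
    (ha' : a' ∈ Sk g K k (gi K k (z + step s))) : gc g (Bx z (2 * K ^ k)) a a' := by
  have hK1 : 1 ≤ K := by omega
  have hpos := MsB_pow_pos hK1 k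
  have hj : gi K k (z + step s) = gi K k z ∨
      ∃ s' : Dir d, gi K k (z + step s) = gi K k z + step s' := by
    rcases gi_step K k hK1 z s with h1 | h1
    · exact Or.inl h1
    · exact Or.inr ⟨s, h1⟩
  have hc := sk_conn hd g K hK k (gi K k z) (gi K k (z + step s)) hj (MsB_not_bad hK1 h)
    (MsB_not_bad hK1 h') a a' ha ha'
  refine MsB_gc_mono ?_ hc
  rintro x (hx | hx)
  · rw [Finset.mem_coe] at hx
    have h1 := MsB_cube_near hx (gi_mem K k hK1 z)
    rw [mem_Bx]
    omega
  · rw [Finset.mem_coe] at hx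
    have h1 := MsB_cube_near hx (gi_mem K k hK1 (z + step s))
    rw [mem_Bx]
    have h2 := nm_tri x (z + step s) z
    rw [add_sub_cancel_left, nm_step] at h2
    omega

theorem ms_inf (hd : 2 ≤ d) (g : V d → Prop) (K : ℕ) (hK : 4 ≤ K) (k : ℕ) (z : V d)
    (h : ∀ j, k ≤ j → Hk g K j z) (a : V d) (ha : a ∈ Sk g K k (gi K k z)) :
    {b | gc g Set.univ a b}.Infinite := by
  have hK1 : 1 ≤ K := by omega
  intro hfin
  have hmono : ∀ j, k ≤ j → a ∈ Sk g K j (gi K j z) := by
    intro j hj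
    induction j, hj using Nat.le_induction with
    | base => exact ha
    | succ j hj ih => exact ms_nest (by omega) g K j z hK1 (h j hj) ih
  have hsub : ∀ j, k ≤ j → Sk g K j (gi K j z) ⊆ {b | gc g Set.univ a b} := by
    intro j hj b hb
    exact MsB_gc_mono (Set.subset_univ _) (sk_conn hd g K hK j (gi K j z) (gi K j z) (Or.inl rfl)
      (MsB_not_bad hK1 (h j hj)) (MsB_not_bad hK1 (h j hj)) a b (hmono j hj) hb)
  have hstrict : ∀ j, k ≤ j →
      (Sk g K j (gi K j z)).ncard < (Sk g K (j + 1) (gi K (j + 1) z)).ncard := by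
    intro j hj
    refine Set.ncard_lt_ncard ?_ (hfin.subset (hsub (j + 1) (by omega)))
    refine ⟨ms_nest (by omega) g K j z hK1 (h j hj), ?_⟩
    intro hle
    -- another sub-box
    have hm := gi_sub K j hK1 z
    rw [mem_cube] at hm
    obtain ⟨v, hv1, hv2, hv3⟩ : ∃ v : ℤ, gi K (j + 1) z ⟨0, by omega⟩ * (K : ℤ) ≤ v ∧
        v < (gi K (j + 1) z ⟨0, by omega⟩ + 1) * (K : ℤ) ∧ v ≠ gi K j z ⟨0, by omega⟩ := by
      have h3 : (gi K (j + 1) z ⟨0, by omega⟩ + 1) * (K : ℤ) =
        gi K (j + 1) z ⟨0, by omega⟩ * (K : ℤ) + K := by ring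
      rw [h3]
      by_cases hc : gi K j z ⟨0, by omega⟩ = gi K (j + 1) z ⟨0, by omega⟩ * (K : ℤ)
      · exact ⟨gi K (j + 1) z ⟨0, by omega⟩ * (K : ℤ) + 1, by omega, by omega, by omega⟩
      · exact ⟨gi K (j + 1) z ⟨0, by omega⟩ * (K : ℤ), le_refl _, by omega, fun hh => hc hh.symm⟩
    have hi' : Function.update (gi K j z) ⟨0, by omega⟩ v ∈ cube K (gi K (j + 1) z) := by
      rw [mem_cube]
      intro i
      by_cases hi : i = ⟨0, by omega⟩
      · subst hi
        rw [Function.update_self]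
        exact ⟨hv1, hv2⟩
      · rw [Function.update_of_ne hi]
        exact hm i
    have hnb := h j hj _ hi'
    obtain ⟨b, hb⟩ := sk_ne hd g K hK j _ hnb
    have hb2 := hle (MsB_sub (by omega) g K j z (h j hj) hi' hb)
    have e1 := (sk_sub g K hK1 j _ hnb b hb).2
    have e2 := (sk_sub g K hK1 j _ (MsB_not_bad hK1 (h j hj)) b hb2).2
    have e3 := congrFun (MsB_cube_inj e1 e2) ⟨0, by omega⟩
    rw [Function.update_self] at e3
    exact hv3 e3
  have hlow : ∀ n, n ≤ (Sk g K (k + n) (gi K (k + n) z)).ncard := by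
    intro n
    induction n with
    | zero => exact Nat.zero_le _
    | succ n ih =>
      have := hstrict (k + n) (by omega)
      rw [← add_assoc]
      omega
  have h1 := hlow ({b | gc g Set.univ a b}.ncard + 1)
  have h2 := Set.ncard_le_ncard (hsub (k + ({b | gc g Set.univ a b}.ncard + 1)) (by omega)) hfin
  omega

end H95LBS
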