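import Pool.Agent.H95.LBS.AsmS
import Pool.Agent.H95.LBS.MsB

/-!
PROJECT DS (MP_0d9ad5_pr), JOB DS-AsmP. The pathwise inequality (section 9 of note 2700).
PROOF. `gc_sum`: shortest path, no repeated site. `path_ineq`: `gg` = good blocks, `z j = j • e_{i0}`. For every `j` let
`rep j` be a point of `Sk gg K (k j) (gi K (k j) (z j))` (`sk_ne`; the box is not bad by `Hk` and `gi_sub`); it is good, in an infinite
`gc`-component (`ms_inf`), within `K^(k j)` of `z j`. With `κ = max (k j) (k (j+1))` both `rep j`, `rep (j+1)` are in the skeletons of scale `κ`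
(`ms_nest`), connected by `gc` inside `Bx (z j) (2 K^κ)` (`ms_path`). All sites on the way are in the infinite component: choose
medians `μ b` (`md_ex`, `Tz_ne`), `one_step`, `gc_sum`: `|μ(rep j) - μ(rep (j+1))| <= ∑_{b ∈ BF (z j) (2K^κ)} sqrt(..)`. Telescoping.
`μ(rep j) = hf` at a point `x` of the cube `rep j`: `L (rep j)_{i0} <= x_{i0} < L (rep j)_{i0} + L`, `|g| <= G`.
-/

namespace H95LBS

open H5DF H95LBD MeasureTheory

variable {d : ℕ}

lemma AsmP_step_ne (a : V d) (s : Dir d) : a + step s ≠ a := by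
  intro h
  have h1 : (a + step s) s.1 = a s.1 := by rw [h]
  rw [Pi.add_apply] at h1
  have h2 : (step s : V d) s.1 = if s.2 then 1 else -1 := by simp [step]
  rw [h2] at h1
  split_ifs at h1 <;> omega

lemma AsmP_leave (g : V d → Prop) (T : Finset (V d)) (a a' : V d) (hne : a ≠ a') (x : V d)
    (hp : gc g (T : Set (V d)) x a') :
    (x ≠ a ∧ gc g ((T.erase a : Finset (V d)) : Set (V d)) x a') ∨
      ∃ s : Dir d, g a ∧ g (a + step s) ∧ a ∈ T ∧ a + step s ∈ T ∧
        gc g ((T.erase a : Finset (V d)) : Set (V d)) (a + step s) a' := by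
  unfold gc at hp
  induction hp using Relation.ReflTransGen.head_induction_on with
  | refl => exact Or.inl ⟨fun h => hne h.symm, Relation.ReflTransGen.refl⟩
  | @head x y hxy _ ih =>
    rcases ih with ⟨hy, ih⟩ | ih
    · obtain ⟨⟨s, hs⟩, h1, h2, h3, h4⟩ := hxy
      by_cases hx : x = a
      · right
        subst hx
        subst hs
        exact ⟨s, h1, h2, h3, h4, ih⟩
      · left
        refine ⟨hx, Relation.ReflTransGen.head ⟨⟨s, hs⟩, h1, h2, ?_, ?_⟩ ih⟩
        · rw [Finset.mem_coe]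
          exact Finset.mem_erase.2 ⟨hx, h3⟩
        · rw [Finset.mem_coe]
          exact Finset.mem_erase.2 ⟨hy, h4⟩
    · exact Or.inr ih

theorem gc_sum (g : V d → Prop) (T : Finset (V d)) (μ c : V d → ℝ) (hc : ∀ b, 0 ≤ c b)
    (h : ∀ (b : V d) (s : Dir d), g b → g (b + step s) → b ∈ T → b + step s ∈ T →
      |μ b - μ (b + step s)| ≤ c b) (a a' : V d) (hp : gc g (T : Set (V d)) a a') :
    |μ a - μ a'| ≤ ∑ b ∈ T, c b := by
  induction T using Finset.strongInduction generalizing a with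
  | H T ih =>
    by_cases hne : a = a'
    · subst hne
      rw [sub_self, abs_zero]
      exact Finset.sum_nonneg fun b _ => hc b
    · rcases AsmP_leave g T a a' hne a hp with ⟨h1, _⟩ | ⟨s, h1, h2, h3, h4, h5⟩
      · exact absurd rfl h1
      · have h6 := ih (T.erase a) (Finset.erase_ssubset h3)
          (fun b s hb hb' hbT hbT' => h b s hb hb' (Finset.mem_of_mem_erase hbT)
            (Finset.mem_of_mem_erase hbT')) (a + step s) h5
        have h7 := h a s h1 h2 h3 h4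
        rw [← Finset.add_sum_erase T c h3]
        calc |μ a - μ a'| = |(μ a - μ (a + step s)) + (μ (a + step s) - μ a')| := by ring_nf
          _ ≤ |μ a - μ (a + step s)| + |μ (a + step s) - μ a'| := abs_add_le _ _
          _ ≤ c a + ∑ x ∈ T.erase a, c x := add_le_add h7 h6

lemma AsmP_mono (hd : 1 ≤ d) (g : V d → Prop) (K : ℕ) (hK : 1 ≤ K) (k : ℕ) (z : V d)
    (h : ∀ j, k ≤ j → Hk g K j z) (a : V d) (ha : a ∈ Sk g K k (gi K k z)) :
    ∀ j, k ≤ j → a ∈ Sk g K j (gi K j z) := by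
  intro j hj
  induction j, hj using Nat.le_induction with
  | base => exact ha
  | succ j hj ih => exact ms_nest hd g K j z hK (h j hj) ih

lemma AsmP_inf {g : V d → Prop} {T : Set (V d)} {a b : V d} (hab : gc g T a b)
    (ha : {c | gc g Set.univ a c}.Infinite) : {c | gc g Set.univ b c}.Infinite := by
  refine ha.mono ?_
  intro c hc
  exact MsA_gc_trans (MsA_gc_symm (MsA_gc_mono (Set.subset_univ _) hab)) hc

lemma AsmP_up {g : V d → Prop} {T : Set (V d)} {a b : V d} (hab : gc g T a b)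
    (ha : {c | gc g Set.univ a c}.Infinite) :
    gc (fun b => g b ∧ {c | gc g Set.univ b c}.Infinite) T a b := by
  unfold gc at hab
  induction hab with
  | refl => exact Relation.ReflTransGen.refl
  | @tail x y hax hxy ih =>
    obtain ⟨h0, h1, h2, h3, h4⟩ := hxy
    have hx : {c | gc g Set.univ x c}.Infinite := AsmP_inf (T := T) (a := a) hax ha
    have hy : {c | gc g Set.univ y c}.Infinite :=
      AsmP_inf (T := T) (a := a) (Relation.ReflTransGen.tail hax ⟨h0, h1, h2, h3, h4⟩) ha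
    exact Relation.ReflTransGen.tail ih ⟨h0, ⟨h1, hx⟩, ⟨h2, hy⟩, h3, h4⟩

lemma AsmP_tele (N : ℕ) (u : ℕ → ℝ) (v : ℕ → ℝ) (h : ∀ j, j < N → |u j - u (j + 1)| ≤ v j) :
    u N - u 0 ≤ ∑ j ∈ Finset.range N, v j := by
  rw [← Finset.sum_range_sub u N]
  refine Finset.sum_le_sum fun j hj => ?_
  have h1 := h j (Finset.mem_range.1 hj)
  rw [abs_sub_comm] at h1
  exact (le_abs_self _).trans h1

theorem path_ineq {M m lam K : ℕ} {c1 b1 C1 G : ℝ} (hd : 2 ≤ d) (hm : 1 ≤ m) (hlam : 1 ≤ lam)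
    (hK : 4 ≤ K) (hC1 : 0 ≤ C1) (i0 : Fin d) (g : Cfg d → ℝ) (hg : ∀ ω, |g ω| ≤ G)
    (q : Cfg d × Cfg d) (k : ℕ → ℕ)
    (hk : ∀ j i : ℕ, k j ≤ i → Hk (fun z => BlkOK M m lam c1 b1 C1 (shq (((m * lam : ℕ) : ℤ) • z) q))
      K i (Pi.single i0 (j : ℤ))) (N : ℕ) :
    ((m * lam : ℕ) : ℝ) * ((N : ℝ) - (K : ℝ) ^ (k 0) - (K : ℝ) ^ (k N) - 1) - 2 * G ≤
      ∑ j ∈ Finset.range N, ∑ b ∈ BF (Pi.single i0 (j : ℤ) : V d) (2 * K ^ (max (k j) (k (j + 1)))),
        Real.sqrt (C1 * ((m * lam : ℕ) : ℝ) ^ 2 / ((m * lam : ℕ) : ℝ) ^ (d - 6) *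
          En i0 g (BB d M (m * lam)) (shq (((m * lam : ℕ) : ℤ) • b) q)) := by
  classical
  have hK1 : 1 ≤ K := by omega
  set gg : V d → Prop := fun z => BlkOK M m lam c1 b1 C1 (shq (((m * lam : ℕ) : ℤ) • z) q) with hgg
  set L : ℕ := m * lam with hL
  have hLpos : 1 ≤ L := Nat.mul_pos hm hlam
  set c : V d → ℝ := fun b => Real.sqrt (C1 * (L : ℝ) ^ 2 / (L : ℝ) ^ (d - 6) *
          En i0 g (BB d M L) (shq ((L : ℤ) • b) q)) with hc
  -- representatives
  have hrep : ∀ j : ℕ, ∃ a : V d, a ∈ Sk gg K (k j) (gi K (k j) (Pi.single i0 (j : ℤ))) := by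
    intro j
    exact sk_ne hd gg K hK (k j) _ (MsB_not_bad hK1 (hk j (k j) le_rfl))
  choose rep hrep using hrep
  have hgood : ∀ j, gg (rep j) := fun j =>
    (sk_sub gg K hK1 (k j) _ (MsB_not_bad hK1 (hk j (k j) le_rfl)) _ (hrep j)).1
  have hcube : ∀ j, rep j ∈ cube (K ^ (k j)) (gi K (k j) (Pi.single i0 (j : ℤ))) := fun j =>
    (sk_sub gg K hK1 (k j) _ (MsB_not_bad hK1 (hk j (k j) le_rfl)) _ (hrep j)).2
  have hinf : ∀ j, {b | gc gg Set.univ (rep j) b}.Infinite := fun j =>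
    ms_inf hd gg K hK (k j) _ (fun i hi => hk j i hi) (rep j) (hrep j)
  -- medians
  set P : V d → ℝ → Prop := fun b x =>
    IsMd (Tz M L c1 b1 q b) (hf i0 g (un q.1 q.2)) x with hP
  set μ : V d → ℝ := fun b => if h : ∃ x, P b x then h.choose else 0 with hμ
  have hmed : ∀ b, gg b → {c | gc gg Set.univ b c}.Infinite → P b (μ b) := by
    intro b h1 h2
    have h3 : ∃ x, P b x := md_ex _ (Tz_ne hm hlam q b h1 h2) _
    rw [hμ]
    simp only [dif_pos h3]
    exact h3.choose_spec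
  -- steps
  have hstep : ∀ j : ℕ, |μ (rep j) - μ (rep (j + 1))| ≤
      ∑ b ∈ BF (Pi.single i0 (j : ℤ) : V d) (2 * K ^ (max (k j) (k (j + 1)))), c b := by
    intro j
    have hz : (Pi.single i0 ((j + 1 : ℕ) : ℤ) : V d) =
        (Pi.single i0 (j : ℤ) : V d) + step (i0, true) := by
      unfold step
      rw [← Pi.single_add]
      simp
    have h1 : rep j ∈ Sk gg K (max (k j) (k (j + 1)))
        (gi K (max (k j) (k (j + 1))) (Pi.single i0 (j : ℤ))) :=
      AsmP_mono (by omega) gg K hK1 (k j) _ (fun i hi => hk j i hi) _ (hrep j) _ (le_max_left _ _)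
    have h2 : rep (j + 1) ∈ Sk gg K (max (k j) (k (j + 1)))
        (gi K (max (k j) (k (j + 1))) ((Pi.single i0 (j : ℤ) : V d) + step (i0, true))) := by
      rw [← hz]
      exact AsmP_mono (by omega) gg K hK1 (k (j + 1)) _ (fun i hi => hk (j + 1) i hi) _
        (hrep (j + 1)) _ (le_max_right _ _)
    have h3 := ms_path hd gg K hK (max (k j) (k (j + 1))) (Pi.single i0 (j : ℤ)) (i0, true)
      (hk j _ (le_max_left _ _)) (by
        rw [← hz]
        exact hk (j + 1) _ (le_max_right _ _)) (rep j) (rep (j + 1)) h1 h2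
    have h4 := AsmP_up h3 (hinf j)
    refine gc_sum (fun b => gg b ∧ {c | gc gg Set.univ b c}.Infinite) _ μ c
      (fun b => Real.sqrt_nonneg _) ?_ (rep j) (rep (j + 1)) ?_
    · intro b s hb hb' _ _
      exact one_step hm hlam i0 g q b s hb.1 hb'.1 hb.2 _ _ (hmed b hb.1 hb.2)
        (hmed (b + step s) hb'.1 hb'.2)
    · refine MsA_gc_mono ?_ h4
      intro x hx
      rw [Finset.mem_coe, mem_BF]
      exact hx
  have htele := AsmP_tele N (fun j => μ (rep j)) _ (fun j _ => hstep j)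
  refine le_trans ?_ htele
  -- end points
  have hpt : ∀ j : ℕ, (L : ℝ) * ((j : ℝ) - (K : ℝ) ^ (k j)) - G ≤ μ (rep j) ∧
      μ (rep j) ≤ (L : ℝ) * ((j : ℝ) + (K : ℝ) ^ (k j) + 1) + G := by
    intro j
    obtain ⟨⟨x, hx, hxe⟩, -, -⟩ := hmed (rep j) (hgood j) (hinf j)
    have hxc : x ∈ cube L (rep j) := by
      unfold Tz at hx
      exact (Finset.mem_filter.1 hx).1
    rw [mem_cube] at hxc
    obtain ⟨e1, e2⟩ := hxc i0
    have hn := MsB_cube_near (hcube j) (gi_mem K (k j) hK1 (Pi.single i0 (j : ℤ)))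
    have hn0 := (nm_le.1 hn) i0
    rw [Pi.sub_apply, Pi.single_eq_same] at hn0
    have hn1 : (rep j) i0 - (j : ℤ) ≤ ((K ^ k j : ℕ) : ℤ) ∧
        -((K ^ k j : ℕ) : ℤ) ≤ (rep j) i0 - (j : ℤ) := by omega
    have hgb := abs_le.1 (hg (shift x (un q.1 q.2)))
    have f1 : ((rep j i0 : ℤ) : ℝ) * (L : ℝ) ≤ ((x i0 : ℤ) : ℝ) := by exact_mod_cast e1
    have f2 : ((x i0 : ℤ) : ℝ) ≤ (((rep j i0 : ℤ) : ℝ) + 1) * (L : ℝ) := by
      exact_mod_cast e2.le
    have f3 : ((rep j i0 : ℤ) : ℝ) - (j : ℝ) ≤ (K : ℝ) ^ k j := by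
      have := hn1.1
      have h5 : (((rep j) i0 - (j : ℤ) : ℤ) : ℝ) ≤ (((K ^ k j : ℕ) : ℤ) : ℝ) := by
        exact_mod_cast this
      push_cast at h5
      exact h5
    have f4 : -(K : ℝ) ^ k j ≤ ((rep j i0 : ℤ) : ℝ) - (j : ℝ) := by
      have := hn1.2
      have h5 : ((-((K ^ k j : ℕ) : ℤ) : ℤ) : ℝ) ≤ (((rep j) i0 - (j : ℤ) : ℤ) : ℝ) := by
        exact_mod_cast this
      push_cast at h5
      exact h5
    have hLr : (0 : ℝ) ≤ (L : ℝ) := by positivity
    have hv : μ (rep j) = ((x i0 : ℤ) : ℝ) + g (shift x (un q.1 q.2)) := hxe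
    rw [hv]
    constructor
    · nlinarith [hgb.1, f1, f4, mul_le_mul_of_nonneg_left f4 hLr]
    · nlinarith [hgb.2, f2, f3, mul_le_mul_of_nonneg_left f3 hLr]
  have p0 := (hpt 0).2
  have pN := (hpt N).1
  rw [Nat.cast_zero, zero_add] at p0
  show (L : ℝ) * ((N : ℝ) - (K : ℝ) ^ k 0 - (K : ℝ) ^ k N - 1) - 2 * G ≤
    μ (rep N) - μ (rep 0)
  nlinarith [p0, pN]

end H95LBS
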