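import Pool.Agent.H95.LBS.AsmG

/-!
PROJECT DS (MP_0d9ad5_pr), JOB DS-AsmS. One step between adjacent good blocks (section 9 of note 2700).
PROOF. `μ` and `μ'` medians for `z` and `z' = z + step σ`. If `μ < μ'`: `BlkOK` for `q' = shq (L z) q`, with
`h x = hf i0 g (un q'.1 q'.2) x = hf i0 g (un q.1 q.2) (x + L z) - L z_{i0}` (`shift x (shift a ω) = shift (x + a) ω`), `w = 0`, `w' = step σ`, levels
`μ - L z_{i0}`, `μ' - L z_{i0}`. `GG ⊆` infinite clusters (`giant_inf`), so on the cube `z`: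
`#(BG ∩ GG ∩ {h <= μ}) >= #(Tz ∩ {h <= μ}) - #(BG \ GG) >= (1/2)(7/8) #BG - (1/8) #BG = (5/16) #BG`; same at `z'`. `EG <= En i0 g BB q'`.
If `μ' < μ` exchange the roles of `w` and `w'` (same block `z`).
-/

namespace H95LBS

open H5DF H95LBD MeasureTheory

variable {d : ℕ}

lemma AsmS_cn (L : ℕ) (z w : V d) (X X' : Set (V d))
    (h : ∀ x, x ∈ X' ↔ x + ((L : ℤ) • z) ∈ X) : cn X' (cube L w) = cn X (cube L (z + w)) := by
  classical
  have hc : ∀ x : V d, x ∈ cube L w ↔ x + ((L : ℤ) • z) ∈ cube L (z + w) := by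
    intro x
    rw [mem_cube, mem_cube]
    refine forall_congr' fun i => ?_
    have e1 : (x + ((L : ℤ) • z)) i = x i + L * z i := by
      simp
    have e2 : (z + w) i = z i + w i := rfl
    rw [e1, e2]
    have e3 : (z i + w i) * (L : ℤ) = w i * L + L * z i := by ring
    have e4 : (z i + w i + 1) * (L : ℤ) = (w i + 1) * L + L * z i := by ring
    rw [e3, e4]
    constructor
    · rintro ⟨h1, h2⟩
      exact ⟨by linarith, by linarith⟩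
    · rintro ⟨h1, h2⟩
      exact ⟨by linarith, by linarith⟩
  unfold cn
  refine Finset.card_bij (fun x _ => x + ((L : ℤ) • z)) ?_ ?_ ?_
  · intro x hx
    rw [Finset.mem_filter] at hx ⊢
    exact ⟨(hc x).1 hx.1, (h x).1 hx.2⟩
  · intro x _ y _ hxy
    exact add_right_cancel hxy
  · intro y hy
    rw [Finset.mem_filter] at hy
    refine ⟨y - ((L : ℤ) • z), ?_, sub_add_cancel _ _⟩
    rw [Finset.mem_filter]
    constructor
    · rw [hc, sub_add_cancel]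
      exact hy.1
    · rw [h, sub_add_cancel]
      exact hy.2

lemma AsmS_union {X X1 X2 : Set (V d)} {T : Finset (V d)}
    (h : ∀ y ∈ T, y ∈ X → y ∈ X1 ∨ y ∈ X2) : cn X T ≤ cn X1 T + cn X2 T := by
  classical
  unfold cn
  refine (Finset.card_le_card ?_).trans (Finset.card_union_le _ _)
  intro y hy
  rw [Finset.mem_filter] at hy
  rw [Finset.mem_union, Finset.mem_filter, Finset.mem_filter]
  rcases h y hy.1 hy.2 with h1 | h1
  · left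
    exact ⟨hy.1, h1⟩
  · right
    exact ⟨hy.1, h1⟩

/-- A median on the big points of infinite clusters is a quartile on the big points of the giant. -/
lemma AsmS_count (T : Finset (V d)) (B I Hb P : Set (V d)) (hI : ∀ x ∈ Hb, x ∈ I)
    (h8 : 8 * cn (B \ Hb) T ≤ cn B T) (hm : cn (B ∩ I) T ≤ 2 * cn (B ∩ I ∩ P) T) :
    (cn B T : ℝ) ≤ 4 * cn (B ∩ Hb ∩ P) T := by
  classical
  have h1 : cn B T ≤ cn (B ∩ I) T + cn (B \ Hb) T := by
    refine AsmS_union fun y _ hy => ?_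
    by_cases h : y ∈ Hb
    · exact Or.inl ⟨hy, hI y h⟩
    · exact Or.inr ⟨hy, h⟩
  have h2 : cn (B ∩ I ∩ P) T ≤ cn (B ∩ Hb ∩ P) T + cn (B \ Hb) T := by
    refine AsmS_union fun y _ hy => ?_
    by_cases h : y ∈ Hb
    · exact Or.inl ⟨⟨hy.1.1, h⟩, hy.2⟩
    · exact Or.inr ⟨hy.1.1, h⟩
  have h3 : cn B T ≤ 4 * cn (B ∩ Hb ∩ P) T := by omega
  exact_mod_cast h3

lemma AsmS_card {T S : Finset (V d)} {X : Set (V d)} (h : ∀ x, x ∈ S ↔ x ∈ T ∧ x ∈ X) :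
    S.card = cn X T := by
  classical
  unfold cn
  congr 1
  ext x
  rw [Finset.mem_filter]
  exact h x

lemma AsmS_Tz (M L : ℕ) (c1 b1 : ℝ) (q : Cfg d × Cfg d) (z : V d) :
    (Tz M L c1 b1 q z).card = cn (BG M L c1 b1 q.1 ∩ InfS (un q.1 q.2)) (cube L z) := by
  classical
  refine AsmS_card fun x => ?_
  unfold Tz
  rw [Finset.mem_filter]
  exact Iff.rfl

lemma AsmS_le {M L : ℕ} {c1 b1 : ℝ} {q : Cfg d × Cfg d} {z : V d} {h : V d → ℝ} {μ : ℝ}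
    (hμ : IsMd (Tz M L c1 b1 q z) h μ) :
    cn (BG M L c1 b1 q.1 ∩ InfS (un q.1 q.2)) (cube L z) ≤
      2 * cn (BG M L c1 b1 q.1 ∩ InfS (un q.1 q.2) ∩ {x | h x ≤ μ}) (cube L z) := by
  classical
  rw [← AsmS_Tz]
  refine hμ.2.1.trans (le_of_eq ?_)
  congr 1
  refine AsmS_card fun x => ?_
  unfold Tz
  rw [Finset.mem_filter, Finset.mem_filter, and_assoc]
  exact Iff.rfl

lemma AsmS_ge {M L : ℕ} {c1 b1 : ℝ} {q : Cfg d × Cfg d} {z : V d} {h : V d → ℝ} {μ : ℝ}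
    (hμ : IsMd (Tz M L c1 b1 q z) h μ) :
    cn (BG M L c1 b1 q.1 ∩ InfS (un q.1 q.2)) (cube L z) ≤
      2 * cn (BG M L c1 b1 q.1 ∩ InfS (un q.1 q.2) ∩ {x | μ ≤ h x}) (cube L z) := by
  classical
  rw [← AsmS_Tz]
  refine hμ.2.2.trans (le_of_eq ?_)
  congr 1
  refine AsmS_card fun x => ?_
  unfold Tz
  rw [Finset.mem_filter, Finset.mem_filter, and_assoc]
  exact Iff.rfl

lemma AsmS_un (a : V d) (q : Cfg d × Cfg d) :
    un (shq a q).1 (shq a q).2 = shift a (un q.1 q.2) := rfl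

lemma AsmS_shift (a b : V d) (ω : Cfg d) : shift a (shift b ω) = shift (a + b) ω := by
  funext e
  simp [shift, add_assoc]

lemma AsmS_hf (i0 : Fin d) (g : Cfg d → ℝ) (a : V d) (q : Cfg d × Cfg d) (x : V d) :
    hf i0 g (un (shq a q).1 (shq a q).2) x =
      hf i0 g (un q.1 q.2) (x + a) - ((a i0 : ℤ) : ℝ) := by
  rw [AsmS_un]
  unfold hf
  rw [AsmS_shift, Pi.add_apply]
  push_cast
  ring

/-- Passing from the cube of the block to the shifted picture. -/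
lemma AsmS_tr (M L : ℕ) (c1 b1 : ℝ) (q : Cfg d × Cfg d) (z w : V d) (P P' : Set (V d))
    (hP : ∀ x, x ∈ P' ↔ x + ((L : ℤ) • z) ∈ P)
    (h : cn (BG M L c1 b1 q.1 ∩ InfS (un q.1 q.2)) (cube L (z + w)) ≤
      2 * cn (BG M L c1 b1 q.1 ∩ InfS (un q.1 q.2) ∩ P) (cube L (z + w))) :
    cn (BG M L c1 b1 (shq ((L : ℤ) • z) q).1 ∩
        InfS (un (shq ((L : ℤ) • z) q).1 (shq ((L : ℤ) • z) q).2)) (cube L w) ≤
      2 * cn (BG M L c1 b1 (shq ((L : ℤ) • z) q).1 ∩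
        InfS (un (shq ((L : ℤ) • z) q).1 (shq ((L : ℤ) • z) q).2) ∩ P') (cube L w) := by
  have e1 : ∀ x, x ∈ BG M L c1 b1 (shq ((L : ℤ) • z) q).1 ∩
      InfS (un (shq ((L : ℤ) • z) q).1 (shq ((L : ℤ) • z) q).2) ↔
      x + ((L : ℤ) • z) ∈ BG M L c1 b1 q.1 ∩ InfS (un q.1 q.2) := by
    intro x
    refine and_congr (BG_shift _ _ _ _ _ _ _) ?_
    rw [AsmS_un]
    exact inf_shift _ _ _
  have e2 : ∀ x, x ∈ BG M L c1 b1 (shq ((L : ℤ) • z) q).1 ∩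
      InfS (un (shq ((L : ℤ) • z) q).1 (shq ((L : ℤ) • z) q).2) ∩ P' ↔
      x + ((L : ℤ) • z) ∈ BG M L c1 b1 q.1 ∩ InfS (un q.1 q.2) ∩ P :=
    fun x => and_congr (e1 x) (hP x)
  rw [AsmS_cn L z w _ _ e1, AsmS_cn L z w _ _ e2]
  exact h

lemma AsmS_En (i0 : Fin d) (g : Cfg d → ℝ) (B : Finset (V d)) (q : Cfg d × Cfg d)
    (GG : Set (V d)) (hG : ∀ x ∈ GG, x ∈ InfS (un q.1 q.2)) :
    EG B q GG (hf i0 g (un q.1 q.2)) ≤ En i0 g B q := by
  classical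
  unfold EG En
  refine Finset.sum_le_sum fun x _ => Finset.sum_le_sum fun σ _ => ?_
  by_cases h : x ∈ GG ∧ x + step σ ∈ B ∧ un q.1 q.2 (edge x σ) = true
  · rw [if_pos h, if_pos ⟨hG x h.1, h.2.2⟩]
  · rw [if_neg h]
    split_ifs
    · positivity
    · exact le_rfl

theorem one_step {M m lam : ℕ} {c1 b1 C1 : ℝ} (hm : 1 ≤ m) (hlam : 1 ≤ lam) (i0 : Fin d)
    (g : Cfg d → ℝ) (q : Cfg d × Cfg d) (z : V d) (σ : Dir d)
    (hz : BlkOK M m lam c1 b1 C1 (shq (((m * lam : ℕ) : ℤ) • z) q))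
    (hz' : BlkOK M m lam c1 b1 C1 (shq (((m * lam : ℕ) : ℤ) • (z + step σ)) q))
    (hinf : {b | gc (fun z => BlkOK M m lam c1 b1 C1 (shq (((m * lam : ℕ) : ℤ) • z) q))
      Set.univ z b}.Infinite) (μ μ' : ℝ)
    (hμ : IsMd (Tz M (m * lam) c1 b1 q z) (hf i0 g (un q.1 q.2)) μ)
    (hμ' : IsMd (Tz M (m * lam) c1 b1 q (z + step σ)) (hf i0 g (un q.1 q.2)) μ') :
    |μ - μ'| ≤ Real.sqrt (C1 * ((m * lam : ℕ) : ℝ) ^ 2 / ((m * lam : ℕ) : ℝ) ^ (d - 6) *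
      En i0 g (BB d M (m * lam)) (shq (((m * lam : ℕ) : ℤ) • z) q)) := by
  classical
  set L : ℕ := m * lam with hL
  obtain ⟨x0, _, hx0, hmain⟩ := id hz
  have hginf := giant_inf hm hlam q z hz hinf x0 hx0
  set a : V d := (L : ℤ) • z with ha
  set Hb : Set (V d) := hub (BB d M L : Set (V d)) (un (shq a q).1 (shq a q).2) x0 with hHb
  have hsub : ∀ x ∈ Hb, x ∈ InfS (un (shq a q).1 (shq a q).2) := by
    intro x hx
    show (cluster (un (shq a q).1 (shq a q).2) x).Infinite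
    rw [AsmS_un, inf_shift]
    exact hginf x hx
  set h : V d → ℝ := hf i0 g (un (shq a q).1 (shq a q).2) with hh
  set c0 : ℝ := ((a i0 : ℤ) : ℝ) with hc0
  have hP1 : ∀ ν : ℝ, ∀ x, x ∈ {x | h x ≤ ν - c0} ↔
      x + a ∈ {x | hf i0 g (un q.1 q.2) x ≤ ν} := by
    intro ν x
    show h x ≤ ν - c0 ↔ hf i0 g (un q.1 q.2) (x + a) ≤ ν
    rw [hh, AsmS_hf]
    exact sub_le_sub_iff_right _
  have hP2 : ∀ ν : ℝ, ∀ x, x ∈ {x | ν - c0 ≤ h x} ↔
      x + a ∈ {x | ν ≤ hf i0 g (un q.1 q.2) x} := by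
    intro ν x
    show ν - c0 ≤ h x ↔ ν ≤ hf i0 g (un q.1 q.2) (x + a)
    rw [hh, AsmS_hf]
    exact sub_le_sub_iff_right _
  have n0 : nm (0 : V d) ≤ 1 := by
    rw [nm_zero]
    exact Nat.zero_le 1
  have n1 : nm (step σ : V d) ≤ 1 := (nm_step σ).le
  have hμ0 : IsMd (Tz M L c1 b1 q (z + 0)) (hf i0 g (un q.1 q.2)) μ := by
    rw [add_zero]
    exact hμ
  have f1 := AsmS_count (cube L 0) _ _ Hb _ hsub (hx0 0 n0).2
    (AsmS_tr M L c1 b1 q z 0 _ _ (hP1 μ) (AsmS_le hμ0))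
  have f2 := AsmS_count (cube L 0) _ _ Hb _ hsub (hx0 0 n0).2
    (AsmS_tr M L c1 b1 q z 0 _ _ (hP2 μ) (AsmS_ge hμ0))
  have f3 := AsmS_count (cube L (step σ)) _ _ Hb _ hsub (hx0 (step σ) n1).2
    (AsmS_tr M L c1 b1 q z (step σ) _ _ (hP1 μ') (AsmS_le hμ'))
  have f4 := AsmS_count (cube L (step σ)) _ _ Hb _ hsub (hx0 (step σ) n1).2
    (AsmS_tr M L c1 b1 q z (step σ) _ _ (hP2 μ') (AsmS_ge hμ'))
  have hEG : EG (BB d M L) (shq a q) Hb h ≤ En i0 g (BB d M L) (shq a q) :=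
    AsmS_En i0 g (BB d M L) (shq a q) Hb hsub
  have hEG0 : 0 ≤ EG (BB d M L) (shq a q) Hb h := Med_EG_nonneg _ _ _ _
  have hfin : ∀ D : ℝ, 0 < D → D ^ 2 ≤ C1 * (L : ℝ) ^ 2 / (L : ℝ) ^ (d - 6) *
      EG (BB d M L) (shq a q) Hb h → D ^ 2 ≤ C1 * (L : ℝ) ^ 2 / (L : ℝ) ^ (d - 6) *
      En i0 g (BB d M L) (shq a q) := by
    intro D hD h1
    have h2 : 0 < C1 * (L : ℝ) ^ 2 / (L : ℝ) ^ (d - 6) * EG (BB d M L) (shq a q) Hb h :=
      lt_of_lt_of_le (by positivity) h1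
    have h3 : 0 < C1 * (L : ℝ) ^ 2 / (L : ℝ) ^ (d - 6) := pos_of_mul_pos_left h2 hEG0
    exact h1.trans (mul_le_mul_of_nonneg_left hEG h3.le)
  rcases lt_trichotomy μ μ' with hlt | heq | hgt
  · refine Real.abs_le_sqrt ?_
    have h1 := hmain h 0 (step σ) (μ - c0) (μ' - c0) n0 n1 (by linarith) f1 f4
    have h2 : μ' - c0 - (μ - c0) = μ' - μ := by ring
    rw [h2] at h1
    have h3 := hfin (μ' - μ) (by linarith) h1
    have h4 : (μ - μ') ^ 2 = (μ' - μ) ^ 2 := by ring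
    rw [h4]
    exact h3
  · rw [heq, sub_self, abs_zero]
    exact Real.sqrt_nonneg _
  · refine Real.abs_le_sqrt ?_
    have h1 := hmain h (step σ) 0 (μ' - c0) (μ - c0) n1 n0 (by linarith) f3 f2
    have h2 : μ - c0 - (μ' - c0) = μ - μ' := by ring
    rw [h2] at h1
    exact hfin (μ - μ') (by linarith) h1

end H95LBS
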