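import Pool.Agent.H95.LBS.Def
import Pool.Agent.H5.DF.Energy2
import Pool.Agent.H95.LBD.DecC
import Pool.Agent.H95.LBD.TreeB

/-!
PROJECT DS (MP_0d9ad5_pr). Definitions for one block: windows, big points, hub-closed sets, bichromatic
pairs, sampled hubs, regular points, live edges. `L = m * lam`.
-/

namespace H95LBS

open H5DF H95LBD MeasureTheory

variable {d : ℕ}

open Classical in
/-- Number of points of the finite set `T` in `X`. -/
noncomputable def cn (X : Set (V d)) (T : Finset (V d)) : ℕ := (T.filter (fun x => x ∈ X)).card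

/-- Indices of the small boxes of the window. -/
noncomputable def JJ (d m : ℕ) : Finset (V d) := Fintype.piFinset fun _ => Finset.Ico (-(m : ℤ)) (2 * m)

/-- The window `[-L,2L)^d`. -/
noncomputable def WW (d L : ℕ) : Finset (V d) := Fintype.piFinset fun _ => Finset.Ico (-(L : ℤ)) (2 * L)

/-- The block box. -/
noncomputable def BB (d M L : ℕ) : Finset (V d) := BF 0 ((10 * M + 3) * L)

open Classical in
/-- The volume of the cluster of `x` (inside a box around `x`) in an annulus around `x`. -/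
noncomputable def bigN (M L : ℕ) (c1 : ℝ) (ω : Cfg d) (x : V d) : ℕ :=
  ((BF x (10 * L)).filter fun y => c1 * L ≤ nm (y - x) ∧ Cn (Bx x (10 * M * L)) ω x y).card

/-- Big points. -/
def BG (M L : ℕ) (c1 b1 : ℝ) (ω : Cfg d) : Set (V d) := {x | b1 * (L : ℝ) ^ 4 ≤ bigN M L c1 ω x}

/-- The typical number of big points in a small box, up to constants. -/
noncomputable def vol (d m lam : ℕ) : ℝ := (lam : ℝ) ^ d / ((m * lam : ℕ) : ℝ) ^ 2

/-- Volume of the hub of `x` in `B`. -/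
noncomputable def hs (B : Finset (V d)) (ω : Cfg d) (x : V d) : ℕ := cn (hub (B : Set (V d)) ω x) B

/-- Hub-closed subsets of `B`. -/
def HubCl (B : Finset (V d)) (ω : Cfg d) (X : Set (V d)) : Prop :=
  X ⊆ (B : Set (V d)) ∧ ∀ x ∈ X, ∀ y, Cn (B : Set (V d)) ω x y → y ∈ X

/-- Every hub of `X` meets `Y`. -/
def Colr (B : Finset (V d)) (ω : Cfg d) (Y X : Set (V d)) : Prop :=
  ∀ x ∈ X, ∃ y ∈ Y, Cn (B : Set (V d)) ω x y

open Classical in
/-- The pair `X, X'` is bichromatic: both occupy a positive proportion of the points of `Y` in a positive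
proportion of the small boxes. -/
def Bich (m lam : ℕ) (Y : Set (V d)) (η1 η2 : ℝ) (X X' : Set (V d)) : Prop :=
  η2 * (m : ℝ) ^ d ≤ ((JJ d m).filter fun j => η1 * vol d m lam ≤ cn (X ∩ Y) (cube lam j) ∧
    η1 * vol d m lam ≤ cn (X' ∩ Y) (cube lam j)).card

/-- Static typicality of the critical configuration. -/
structure MixOK (M m lam : ℕ) (c1 b1 cB CB η1 η2 : ℝ) (ω : Cfg d) : Prop where
  lo : ∀ j ∈ JJ d m, cB / 2 * vol d m lam ≤ cn (BG M (m * lam) c1 b1 ω) (cube lam j)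
  hi : ∀ j ∈ JJ d m, (cn (BG M (m * lam) c1 b1 ω) (cube lam j) : ℝ) ≤ 2 * CB * vol d m lam
  mix : ∀ X X' : Set (V d), HubCl (BB d M (m * lam)) ω X → HubCl (BB d M (m * lam)) ω X' →
    Disjoint X X' → (∀ x ∈ WW d (m * lam), x ∈ BG M (m * lam) c1 b1 ω → x ∈ X ∨ x ∈ X') →
    cB / 16 * ((m * lam : ℕ) : ℝ) ^ (d - 2) ≤ cn (X ∩ BG M (m * lam) c1 b1 ω) (WW d (m * lam)) →
    cB / 16 * ((m * lam : ℕ) : ℝ) ^ (d - 2) ≤ cn (X' ∩ BG M (m * lam) c1 b1 ω) (WW d (m * lam)) →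
    Bich m lam (BG M (m * lam) c1 b1 ω) η1 η2 X X'

/-- The law of the seeds. -/
noncomputable def seedM (d : ℕ) (ρ : ℝ) : Measure (V d → Bool) := Measure.infinitePi fun _ => bern ρ

open Classical in
/-- The union of the hubs of the seeds. -/
noncomputable def FS (B : Finset (V d)) (ω : Cfg d) (b : V d → Bool) : Finset (V d) :=
  B.filter fun y => ∃ x ∈ B, b x = true ∧ Cn (B : Set (V d)) ω x y

open Classical in
/-- The regular points of the colour `A ⊆ F`. -/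
noncomputable def RegA (r0 N1 : ℕ) (ηr : ℝ) (F A : Finset (V d)) : Finset (V d) :=
  A.filter fun u => (∀ w ∈ F, nm (w - u) ≤ 2 * r0 → w ∈ A) ∧
    ∑ w ∈ F.filter (fun w => nm (w - u) ≤ N1), 1 / ((r0 : ℝ) + nm (w - u)) ^ (d - 2) ≤ ηr

/-- The energy of `F` in a small box. -/
noncomputable def enr (F T : Finset (V d)) : ℝ :=
  ∑ u ∈ F ∩ T, ∑ u' ∈ F ∩ T, 1 / (1 + (nm (u - u') : ℝ)) ^ (d - 4)

/-- Good colourings. -/
def Good (M m lam r0 : ℕ) (ηr η3 η4 C4 : ℝ) (F A A' : Finset (V d)) : Prop :=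
  F ⊆ BB d M (m * lam) ∧ A ⊆ F ∧ A' ⊆ F ∧ Disjoint A A' ∧ ∃ Jg ⊆ JJ d m,
    η4 * (m : ℝ) ^ d ≤ Jg.card ∧ ∀ j ∈ Jg,
      η3 * vol d m lam ≤ (RegA r0 ((4 * M + 4) * lam) ηr F A ∩ cube lam j).card ∧
      η3 * vol d m lam ≤ (RegA r0 ((4 * M + 4) * lam) ηr F A' ∩ cube lam j).card ∧
      enr F (cube lam j) ≤ C4 * (lam : ℝ) ^ (d + 4) / ((m * lam : ℕ) : ℝ) ^ 4

open Classical in
/-- Robust connection of bichromatic pairs: they stay connected after the removal of `r1` sprinkled edges. -/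
def ROBok (M m lam : ℕ) (c1 b1 η1 η2 : ℝ) (r1 : ℕ) (q : Cfg d × Cfg d) : Prop :=
  ∀ X X' : Set (V d), HubCl (BB d M (m * lam)) q.1 X → HubCl (BB d M (m * lam)) q.1 X' →
    Colr (BB d M (m * lam)) q.1 (BG M (m * lam) c1 b1 q.1 ∩ WW d (m * lam)) X →
    Colr (BB d M (m * lam)) q.1 (BG M (m * lam) c1 b1 q.1 ∩ WW d (m * lam)) X' →
    Disjoint X X' → Bich m lam (BG M (m * lam) c1 b1 q.1) (η1 / 2) (η2 / 2) X X' →
    ∀ Hs : Finset (Ed d), Hs.card ≤ r1 → ∃ x ∈ X, ∃ y ∈ X',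
      Cn (BB d M (m * lam) : Set (V d)) (un q.1 (fun e => q.2 e && !decide (e ∈ Hs))) x y

/-- The other end of an edge. -/
def oth (e : Ed d) : V d := e.1 + Pi.single e.2 1

/-- Live edges: sprinkled edges between different hubs with arms on both sides. -/
def Lv (B : Finset (V d)) (N : ℕ) (q : Cfg d × Cfg d) (e : Ed d) : Prop :=
  q.2 e = true ∧ e ∈ ins (B : Set (V d)) ∧ ¬ Cn (B : Set (V d)) q.1 e.1 (oth e) ∧
  Function.update (cut (B : Set (V d)) (un q.1 q.2)) e false ∈ disj (Ar e.1 N) (Ar (oth e) N) ∧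
  cut (hub (B : Set (V d)) q.1 e.1)ᶜ (cut (B : Set (V d)) (un q.1 q.2)) ∈ Ar (oth e) N ∧
  cut (hub (B : Set (V d)) q.1 (oth e))ᶜ (cut (B : Set (V d)) (un q.1 q.2)) ∈ Ar e.1 N

open Classical in
/-- The set of live edges. -/
noncomputable def LS (B : Finset (V d)) (N : ℕ) (q : Cfg d × Cfg d) : Finset (Ed d) :=
  ((B ×ˢ (Finset.univ : Finset (Fin d)))).filter fun e => Lv B N q e

open Classical in
/-- The hub as a finite set. -/
noncomputable def hubF (B : Finset (V d)) (ω : Cfg d) (x : V d) : Finset (V d) :=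
  B.filter fun y => Cn (B : Set (V d)) ω x y

open Classical in
/-- The set of hubs. -/
noncomputable def HF (B : Finset (V d)) (ω : Cfg d) : Finset (Finset (V d)) := B.image (hubF B ω)

open Classical in
/-- The number of live edges with an end in `D`. -/
noncomputable def el (B : Finset (V d)) (N : ℕ) (q : Cfg d × Cfg d) (D : Finset (V d)) : ℕ :=
  ((LS B N q).filter fun e => e.1 ∈ D ∨ oth e ∈ D).card

/-- The hub of `x` has intrinsic diameter larger than `ℓ`. -/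
def Long (B : Finset (V d)) (ω : Cfg d) (ℓ : ℝ) (x : V d) : Prop :=
  ∃ y y', Cn (B : Set (V d)) ω x y ∧ Cn (B : Set (V d)) ω x y' ∧
    ℓ < (G (cut (B : Set (V d)) ω)).dist y y'

lemma mem_JJ {m : ℕ} {j : V d} : j ∈ JJ d m ↔ ∀ i, -(m : ℤ) ≤ j i ∧ j i < 2 * m := by
  simp [JJ]

lemma mem_WW {L : ℕ} {x : V d} : x ∈ WW d L ↔ ∀ i, -(L : ℤ) ≤ x i ∧ x i < 2 * L := by
  simp [WW]

lemma WW_sub_BB {M L : ℕ} : WW d L ⊆ BB d M L := by
  intro x hx
  rw [mem_WW] at hx
  unfold BB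
  rw [mem_BF, sub_zero, nm_le]
  intro i
  have h1 := hx i
  have h2 : (2 * L : ℕ) ≤ (10 * M + 3) * L := by nlinarith
  omega

lemma cn_mono {X Y : Set (V d)} (h : X ⊆ Y) (T : Finset (V d)) : cn X T ≤ cn Y T := by
  classical
  unfold cn
  apply Finset.card_le_card
  intro x hx
  rw [Finset.mem_filter] at hx ⊢
  exact ⟨hx.1, h hx.2⟩

lemma cn_le (X : Set (V d)) (T : Finset (V d)) : cn X T ≤ T.card := by
  classical
  exact Finset.card_filter_le _ _

lemma mem_hubF {B : Finset (V d)} {ω : Cfg d} {x y : V d} :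
    y ∈ hubF B ω x ↔ y ∈ B ∧ Cn (B : Set (V d)) ω x y := by
  classical
  simp [hubF]

end H95LBS
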