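import Pool.Agent.H95.LBS.CutDef

/-!
PROJECT DS (MP_0d9ad5_pr), JOB DS-Coar. Coarea inequalities (section 7(iii) of note 2700).
PROOF. For every `a`: `card HaS <= #{e ∈ LS, e.1 ∈ GG, a between h e.1 and h (oth e)} + ∑_{D ∈ HF, Nrm, Crs h a D} el D
+ #{e ∈ LS long}`: a live edge with an end in `CrS` and no long end has this end in a hub `D ⊆ GG` with `Nrm`, `Crs`
(`hGG`). All terms are finite sums of indicators of intervals `[α,β)` in `a` (`{a : Crs h a D}` is
`[min, max)`, of length `osc h D`); integrate over `(μ, μ')` term by term.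
-/

namespace H95LBS

open H5DF H95LBD MeasureTheory

variable {d : ℕ}

lemma Coar_ind {S : Set ℝ} (hS : MeasurableSet S) (μ μ' : ℝ) :
    IntervalIntegrable (S.indicator (fun _ => (1 : ℝ))) volume μ μ' := by
  rw [intervalIntegrable_iff]
  have h : IntegrableOn (fun _ : ℝ => (1 : ℝ)) (Set.uIoc μ μ') volume := by
    rw [← intervalIntegrable_iff]
    exact intervalIntegrable_const
  exact h.indicator hS

lemma Coar_le {S : Set ℝ} (hS : MeasurableSet S) {α β : ℝ} (hαβ : α ≤ β) (hsub : S ⊆ Set.Ico α β)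
    {μ μ' : ℝ} (hμ : μ ≤ μ') :
    ∫ a in μ..μ', S.indicator (fun _ => (1 : ℝ)) a ≤ β - α := by
  rw [intervalIntegral.integral_of_le hμ, integral_indicator hS, setIntegral_const, smul_eq_mul,
    mul_one]
  have h1 : (volume.restrict (Set.Ioc μ μ')).real S ≤ (volume : Measure ℝ).real (Set.Ico α β) := by
    have h2 : (volume.restrict (Set.Ioc μ μ')) S ≤ volume (Set.Ico α β) :=
      (Measure.restrict_apply_le _ _).trans (measure_mono hsub)
    exact ENNReal.toReal_mono (by rw [Real.volume_Ico]; exact ENNReal.ofReal_ne_top) h2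
  rwa [Real.volume_real_Ico_of_le hαβ] at h1

/-- The levels between `h x` and `h y`. -/
def Coar_bt (h : V d → ℝ) (x y : V d) : Set ℝ :=
  {a | (h x ≤ a ∧ a < h y) ∨ (h y ≤ a ∧ a < h x)}

lemma Coar_bt_meas (h : V d → ℝ) (x y : V d) : MeasurableSet (Coar_bt h x y) :=
  (measurableSet_Ici.inter measurableSet_Iio).union (measurableSet_Ici.inter measurableSet_Iio)

lemma Coar_bt_le (h : V d → ℝ) (x y : V d) {μ μ' : ℝ} (hμ : μ ≤ μ') :
    ∫ a in μ..μ', (Coar_bt h x y).indicator (fun _ => (1 : ℝ)) a ≤ |h y - h x| := by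
  have h1 := Coar_le (Coar_bt_meas h x y) (α := min (h x) (h y)) (β := max (h x) (h y))
    (min_le_max) (by
      rintro a (⟨h1, h2⟩ | ⟨h1, h2⟩)
      · exact ⟨(min_le_left _ _).trans h1, h2.trans_le (le_max_right _ _)⟩
      · exact ⟨(min_le_right _ _).trans h1, h2.trans_le (le_max_left _ _)⟩) hμ
  rwa [max_sub_min_eq_abs] at h1

/-- The levels crossed by `D`. -/
def Coar_cr (h : V d → ℝ) (D : Finset (V d)) : Set ℝ := {a | Crs h a D}

lemma Coar_cr_meas (h : V d → ℝ) (D : Finset (V d)) : MeasurableSet (Coar_cr h D) := by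
  have h1 : Coar_cr h D = (⋃ x ∈ D, Set.Ici (h x)) ∩ ⋃ x ∈ D, Set.Iio (h x) := by
    ext a
    simp [Coar_cr, Crs]
  rw [h1]
  exact (Finset.measurableSet_biUnion _ fun _ _ => measurableSet_Ici).inter
    (Finset.measurableSet_biUnion _ fun _ _ => measurableSet_Iio)

lemma Coar_osc {h : V d → ℝ} {D : Finset (V d)} {x y : V d} (hx : x ∈ D) (hy : y ∈ D) :
    h x - h y ≤ osc h D := by
  have h1 : (h x - h y).toNNReal ≤ (D ×ˢ D).sup fun p => (h p.1 - h p.2).toNNReal :=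
    Finset.le_sup (f := fun p : V d × V d => (h p.1 - h p.2).toNNReal)
      (Finset.mk_mem_product hx hy)
  have h2 : ((h x - h y).toNNReal : ℝ) ≤ osc h D := by
    unfold osc
    exact_mod_cast h1
  exact (Real.le_coe_toNNReal _).trans h2

lemma Coar_osc_nn (h : V d → ℝ) (D : Finset (V d)) : 0 ≤ osc h D := by
  unfold osc
  exact NNReal.coe_nonneg _

lemma Coar_cr_le (h : V d → ℝ) (D : Finset (V d)) {μ μ' : ℝ} (hμ : μ ≤ μ') :
    ∫ a in μ..μ', (Coar_cr h D).indicator (fun _ => (1 : ℝ)) a ≤ osc h D := by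
  by_cases hD : D.Nonempty
  · obtain ⟨x, hx, hxm⟩ := D.exists_min_image h hD
    obtain ⟨y, hy, hym⟩ := D.exists_max_image h hD
    refine (Coar_le (Coar_cr_meas h D) (α := h x) (β := h y) (hxm y hy) ?_ hμ).trans
      (Coar_osc hy hx)
    rintro a ⟨⟨u, hu, h1⟩, ⟨v, hv, h2⟩⟩
    exact ⟨(hxm u hu).trans h1, h2.trans_le (hym v hv)⟩
  · rw [Finset.not_nonempty_iff_eq_empty] at hD
    have h1 : Coar_cr h D = ∅ := by
      ext a
      simp [Coar_cr, Crs, hD]
    rw [h1]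
    simp only [Set.indicator_empty, intervalIntegral.integral_zero]
    exact Coar_osc_nn h D

lemma Coar_card {ι : Type*} (s : Finset ι) (P : ι → ℝ → Prop) (a : ℝ)
    [DecidablePred fun i => P i a] :
    ((s.filter fun i => P i a).card : ℝ) =
      ∑ i ∈ s, ({b | P i b} : Set ℝ).indicator (fun _ => (1 : ℝ)) a := by
  rw [Finset.card_filter, Nat.cast_sum]
  refine Finset.sum_congr rfl fun i _ => ?_
  by_cases hi : P i a
  · simp [hi]
  · simp [hi]

lemma Coar_card_int {ι : Type*} (s : Finset ι) (P : ι → ℝ → Prop)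
    [∀ a, DecidablePred fun i => P i a]
    (hP : ∀ i ∈ s, MeasurableSet {b | P i b}) (μ μ' : ℝ) :
    IntervalIntegrable (fun a => ((s.filter fun i => P i a).card : ℝ)) volume μ μ' := by
  have h1 : (fun a => ((s.filter fun i => P i a).card : ℝ)) =
      ∑ i ∈ s, ({b | P i b} : Set ℝ).indicator (fun _ => (1 : ℝ)) := by
    funext a
    rw [Coar_card, Finset.sum_apply]
  rw [h1]
  exact IntervalIntegrable.sum _ fun i hi => Coar_ind (hP i hi) μ μ'

lemma Coar_CrS_meas (B : Finset (V d)) (ω : Cfg d) (GG : Set (V d)) (h : V d → ℝ) (x : V d) :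
    MeasurableSet {a : ℝ | x ∈ CrS B ω GG h a} := by
  have h1 : {a : ℝ | x ∈ CrS B ω GG h a} = {_a : ℝ | x ∈ B ∧ x ∈ GG} ∩
      ((⋃ y ∈ {y | Cn (B : Set (V d)) ω x y}, Set.Ici (h y)) ∩
        ⋃ y ∈ {y | Cn (B : Set (V d)) ω x y}, Set.Iio (h y)) := by
    ext a
    simp only [CrS, Set.mem_setOf_eq, Set.mem_inter_iff, Set.mem_iUnion, Set.mem_Ici,
      Set.mem_Iio, exists_prop]
    tauto
  rw [h1]
  exact (MeasurableSet.const _).inter
    ((MeasurableSet.biUnion (Set.to_countable _) fun _ _ => measurableSet_Ici).inter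
      (MeasurableSet.biUnion (Set.to_countable _) fun _ _ => measurableSet_Iio))

lemma Coar_HaS_meas (B : Finset (V d)) (q : Cfg d × Cfg d) (ℓ : ℝ) (GG : Set (V d))
    (h : V d → ℝ) (e : Ed d) : MeasurableSet {a : ℝ |
    (e.1 ∈ GG ∧ ((h e.1 ≤ a ∧ a < h (oth e)) ∨ (h (oth e) ≤ a ∧ a < h e.1))) ∨
    e.1 ∈ CrS B q.1 GG h a ∨ oth e ∈ CrS B q.1 GG h a ∨ Long B q.1 ℓ e.1 ∨
      Long B q.1 ℓ (oth e)} := by
  have h1 := Coar_bt_meas h e.1 (oth e)
  have h2 := Coar_CrS_meas B q.1 GG h e.1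
  have h3 := Coar_CrS_meas B q.1 GG h (oth e)
  have h4 : MeasurableSet {_a : ℝ | Long B q.1 ℓ e.1 ∨ Long B q.1 ℓ (oth e)} :=
    MeasurableSet.const _
  have h5 : MeasurableSet {_a : ℝ | e.1 ∈ GG} := MeasurableSet.const _
  exact (h5.inter h1).union (h2.union (h3.union h4))

lemma Coar_Long {B : Finset (V d)} {ω : Cfg d} {ℓ : ℝ} {x y : V d}
    (hxy : Cn (B : Set (V d)) ω x y) (h : Long B ω ℓ y) : Long B ω ℓ x := by
  obtain ⟨u, v, h1, h2, h3⟩ := h
  exact ⟨u, v, Cn.trans hxy h1, Cn.trans hxy h2, h3⟩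

open Classical in
lemma Coar_hub {B : Finset (V d)} {ω : Cfg d} {ℓ : ℝ} {GG : Set (V d)} {h : V d → ℝ}
    (hGG : ∀ x ∈ GG, ∀ y, Cn (B : Set (V d)) ω x y → y ∈ GG) {a : ℝ} {x : V d}
    (hx : x ∈ CrS B ω GG h a) (hl : ¬ Long B ω ℓ x) :
    hubF B ω x ∈ (HF B ω).filter (fun D => Nrm B ω ℓ GG D ∧ Crs h a D) ∧ x ∈ hubF B ω x := by
  obtain ⟨hB, hG, ⟨y, hy1, hy2⟩, ⟨z, hz1, hz2⟩⟩ := hx
  have hmem : ∀ u, Cn (B : Set (V d)) ω x u → u ∈ hubF B ω x := by
    intro u hu
    unfold hubF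
    rw [Finset.mem_filter]
    exact ⟨Finset.mem_coe.1 (hu.mem (Finset.mem_coe.2 hB)), hu⟩
  refine ⟨?_, hmem x (Cn.refl _ _ _)⟩
  rw [Finset.mem_filter]
  refine ⟨?_, ⟨?_, ?_⟩, ⟨y, hmem y hy1, hy2⟩, ⟨z, hmem z hz1, hz2⟩⟩
  · unfold HF
    exact Finset.mem_image_of_mem _ hB
  · intro u hu
    unfold hubF at hu
    rw [Finset.mem_filter] at hu
    exact hGG x hG u hu.2
  · intro u hu hlu
    unfold hubF at hu
    rw [Finset.mem_filter] at hu
    exact hl (Coar_Long hu.2 hlu)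

open Classical in
lemma Coar_pt (B : Finset (V d)) (N : ℕ) (q : Cfg d × Cfg d) (ℓ : ℝ) (GG : Set (V d))
    (h : V d → ℝ) (hGG : ∀ x ∈ GG, ∀ y, Cn (B : Set (V d)) q.1 x y → y ∈ GG) (a : ℝ) :
    ((HaS B N q ℓ GG h a).card : ℝ) ≤
      ∑ e ∈ (LS B N q).filter (fun e => e.1 ∈ GG),
        (Coar_bt h e.1 (oth e)).indicator (fun _ => (1 : ℝ)) a +
      ∑ D ∈ (HF B q.1).filter (fun D => Nrm B q.1 ℓ GG D),
        (el B N q D : ℝ) * (Coar_cr h D).indicator (fun _ => (1 : ℝ)) a +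
      ((LS B N q).filter (fun e => Long B q.1 ℓ e.1 ∨ Long B q.1 ℓ (oth e))).card := by
  have hsub : HaS B N q ℓ GG h a ⊆
      (((LS B N q).filter (fun e => e.1 ∈ GG)).filter (fun e => a ∈ Coar_bt h e.1 (oth e))) ∪
      (((HF B q.1).filter (fun D => Nrm B q.1 ℓ GG D ∧ Crs h a D)).biUnion fun D =>
        (LS B N q).filter fun e => e.1 ∈ D ∨ oth e ∈ D) ∪
      ((LS B N q).filter (fun e => Long B q.1 ℓ e.1 ∨ Long B q.1 ℓ (oth e))) := by
    intro e he
    unfold HaS at he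
    rw [Finset.mem_filter] at he
    obtain ⟨heL, he⟩ := he
    by_cases hl : Long B q.1 ℓ e.1 ∨ Long B q.1 ℓ (oth e)
    · exact Finset.mem_union_right _ (Finset.mem_filter.2 ⟨heL, hl⟩)
    · push Not at hl
      refine Finset.mem_union_left _ ?_
      rcases he with he | he | he | he | he
      · refine Finset.mem_union_left _ ?_
        rw [Finset.mem_filter, Finset.mem_filter]
        exact ⟨⟨heL, he.1⟩, he.2⟩
      · refine Finset.mem_union_right _ ?_
        rw [Finset.mem_biUnion]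
        have h1 := Coar_hub hGG he hl.1
        exact ⟨_, h1.1, Finset.mem_filter.2 ⟨heL, Or.inl h1.2⟩⟩
      · refine Finset.mem_union_right _ ?_
        rw [Finset.mem_biUnion]
        have h1 := Coar_hub hGG he hl.2
        exact ⟨_, h1.1, Finset.mem_filter.2 ⟨heL, Or.inr h1.2⟩⟩
      · exact absurd he hl.1
      · exact absurd he hl.2
  have hcard := (Finset.card_le_card hsub).trans ((Finset.card_union_le _ _).trans
    (Nat.add_le_add_right ((Finset.card_union_le _ _).trans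
      (Nat.add_le_add_left Finset.card_biUnion_le _)) _))
  have e1 : (((((LS B N q).filter (fun e => e.1 ∈ GG)).filter
      (fun e => a ∈ Coar_bt h e.1 (oth e))).card : ℕ) : ℝ) =
      ∑ e ∈ (LS B N q).filter (fun e => e.1 ∈ GG),
        (Coar_bt h e.1 (oth e)).indicator (fun _ => (1 : ℝ)) a :=
    Coar_card _ (fun e a => a ∈ Coar_bt h e.1 (oth e)) a
  have e2 : ((∑ D ∈ (HF B q.1).filter (fun D => Nrm B q.1 ℓ GG D ∧ Crs h a D),
      ((LS B N q).filter fun e => e.1 ∈ D ∨ oth e ∈ D).card : ℕ) : ℝ) =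
      ∑ D ∈ (HF B q.1).filter (fun D => Nrm B q.1 ℓ GG D),
        (el B N q D : ℝ) * (Coar_cr h D).indicator (fun _ => (1 : ℝ)) a := by
    rw [← Finset.filter_filter, Finset.sum_filter, Nat.cast_sum]
    refine Finset.sum_congr rfl fun D _ => ?_
    by_cases hD : Crs h a D
    · rw [if_pos hD, Set.indicator_of_mem (show a ∈ Coar_cr h D from hD), mul_one]
      rfl
    · rw [if_neg hD, Set.indicator_of_notMem (show a ∉ Coar_cr h D from hD), mul_zero,
        Nat.cast_zero]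
  rw [← e1, ← e2]
  exact_mod_cast hcard

/-- A finite sum of interval integrable functions, pointwise form. -/
lemma Coar_sum {ι : Type*} (s : Finset ι) (f : ι → ℝ → ℝ) {μ μ' : ℝ}
    (hf : ∀ i ∈ s, IntervalIntegrable (f i) volume μ μ') :
    IntervalIntegrable (fun a => ∑ i ∈ s, f i a) volume μ μ' := by
  have h1 : (fun a => ∑ i ∈ s, f i a) = ∑ i ∈ s, f i := by
    funext a
    rw [Finset.sum_apply]
  rw [h1]
  exact IntervalIntegrable.sum _ hf

open Classical in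
lemma Coar_int1 (B : Finset (V d)) (N : ℕ) (q : Cfg d × Cfg d) (ℓ : ℝ) (GG : Set (V d))
    (h : V d → ℝ) (μ μ' : ℝ) :
    IntervalIntegrable (fun a => ((HaS B N q ℓ GG h a).card : ℝ)) volume μ μ' := by
  unfold HaS
  exact Coar_card_int (LS B N q) _ (fun e _ => Coar_HaS_meas B q ℓ GG h e) μ μ'

open Classical in
theorem coar1 (B : Finset (V d)) (N : ℕ) (q : Cfg d × Cfg d) (ℓ : ℝ) (GG : Set (V d))
    (h : V d → ℝ) (hGG : ∀ x ∈ GG, ∀ y, Cn (B : Set (V d)) q.1 x y → y ∈ GG) (μ μ' : ℝ)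
    (hμ : μ ≤ μ') :
    ∫ a in μ..μ', ((HaS B N q ℓ GG h a).card : ℝ) ≤
      ∑ e ∈ (LS B N q).filter (fun e => e.1 ∈ GG), |h (oth e) - h e.1| +
      ∑ D ∈ (HF B q.1).filter (fun D => Nrm B q.1 ℓ GG D), (el B N q D : ℝ) * osc h D +
      (μ' - μ) * ((LS B N q).filter (fun e => Long B q.1 ℓ e.1 ∨ Long B q.1 ℓ (oth e))).card := by
  have hi1 : ∀ e : Ed d, IntervalIntegrable
      ((Coar_bt h e.1 (oth e)).indicator (fun _ => (1 : ℝ))) volume μ μ' :=
    fun e => Coar_ind (Coar_bt_meas h e.1 (oth e)) μ μ'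
  have hi2 : ∀ D : Finset (V d), IntervalIntegrable
      (fun a => (el B N q D : ℝ) * (Coar_cr h D).indicator (fun _ => (1 : ℝ)) a) volume μ μ' :=
    fun D => (Coar_ind (Coar_cr_meas h D) μ μ').const_mul _
  have hs1 : IntervalIntegrable (fun a => ∑ e ∈ (LS B N q).filter (fun e => e.1 ∈ GG),
        (Coar_bt h e.1 (oth e)).indicator (fun _ => (1 : ℝ)) a) volume μ μ' :=
    Coar_sum _ _ fun e _ => hi1 e
  have hs2 : IntervalIntegrable (fun a => ∑ D ∈ (HF B q.1).filter (fun D => Nrm B q.1 ℓ GG D),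
        (el B N q D : ℝ) * (Coar_cr h D).indicator (fun _ => (1 : ℝ)) a) volume μ μ' :=
    Coar_sum _ (fun D a => (el B N q D : ℝ) * (Coar_cr h D).indicator (fun _ => (1 : ℝ)) a)
      fun D _ => hi2 D
  have hs3 : IntervalIntegrable (fun _ : ℝ =>
      (((LS B N q).filter (fun e => Long B q.1 ℓ e.1 ∨ Long B q.1 ℓ (oth e))).card : ℝ))
      volume μ μ' := intervalIntegrable_const
  have h1 := intervalIntegral.integral_mono_on hμ (Coar_int1 B N q ℓ GG h μ μ')
    ((hs1.add hs2).add hs3) (fun a _ => Coar_pt B N q ℓ GG h hGG a)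
  refine h1.trans ?_
  rw [intervalIntegral.integral_add (hs1.add hs2) hs3, intervalIntegral.integral_add hs1 hs2,
    intervalIntegral.integral_finsetSum fun e _ => hi1 e,
    intervalIntegral.integral_finsetSum fun D _ => hi2 D, intervalIntegral.integral_const,
    smul_eq_mul]
  refine add_le_add (add_le_add ?_ ?_) le_rfl
  · exact Finset.sum_le_sum fun e _ => Coar_bt_le h e.1 (oth e) hμ
  · refine Finset.sum_le_sum fun D _ => ?_
    rw [intervalIntegral.integral_const_mul]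
    exact mul_le_mul_of_nonneg_left (Coar_cr_le h D hμ) (Nat.cast_nonneg _)

open Classical in
theorem coar2 (B : Finset (V d)) (q : Cfg d × Cfg d) (ℓ : ℝ) (GG : Set (V d)) (W : Finset (V d))
    (Y : Set (V d)) (h : V d → ℝ) (μ μ' : ℝ) (hμ : μ ≤ μ') :
    ∫ a in μ..μ', (((HF B q.1).filter (fun D => Colb W Y D ∧ Nrm B q.1 ℓ GG D ∧
      Crs h a D)).card : ℝ) ≤
      ∑ D ∈ (HF B q.1).filter (fun D => Colb W Y D ∧ Nrm B q.1 ℓ GG D), osc h D := by
  have h1 : (fun a => (((HF B q.1).filter (fun D => Colb W Y D ∧ Nrm B q.1 ℓ GG D ∧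
      Crs h a D)).card : ℝ)) = fun a =>
      ∑ D ∈ (HF B q.1).filter (fun D => Colb W Y D ∧ Nrm B q.1 ℓ GG D),
        (Coar_cr h D).indicator (fun _ => (1 : ℝ)) a := by
    funext a
    have h2 : (HF B q.1).filter (fun D => Colb W Y D ∧ Nrm B q.1 ℓ GG D ∧ Crs h a D) =
        ((HF B q.1).filter (fun D => Colb W Y D ∧ Nrm B q.1 ℓ GG D)).filter
          (fun D => Crs h a D) := by
      rw [Finset.filter_filter]
      refine Finset.filter_congr fun D _ => ?_
      tauto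
    rw [h2]
    exact Coar_card _ (fun D a => Crs h a D) a
  rw [h1, intervalIntegral.integral_finsetSum fun D _ => Coar_ind (Coar_cr_meas h D) μ μ']
  exact Finset.sum_le_sum fun D _ => Coar_cr_le h D hμ

open Classical in
theorem coar_int (B : Finset (V d)) (N : ℕ) (q : Cfg d × Cfg d) (ℓ : ℝ) (GG : Set (V d))
    (W : Finset (V d)) (Y : Set (V d)) (h : V d → ℝ) (μ μ' : ℝ) :
    IntervalIntegrable (fun a => ((HaS B N q ℓ GG h a).card : ℝ)) volume μ μ' ∧
    IntervalIntegrable (fun a => (((HF B q.1).filter (fun D => Colb W Y D ∧ Nrm B q.1 ℓ GG D ∧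
      Crs h a D)).card : ℝ)) volume μ μ' := by
  refine ⟨Coar_int1 B N q ℓ GG h μ μ', ?_⟩
  refine Coar_card_int (HF B q.1) (fun D a => Colb W Y D ∧ Nrm B q.1 ℓ GG D ∧ Crs h a D)
    (fun D _ => ?_) μ μ'
  have h1 := Coar_cr_meas h D
  have h2 : MeasurableSet {_a : ℝ | Colb W Y D} := MeasurableSet.const _
  have h3 : MeasurableSet {_a : ℝ | Nrm B q.1 ℓ GG D} := MeasurableSet.const _
  exact h2.inter (h3.inter h1)

end H95LBS
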