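import Pool.Agent.H95.LBS.CutDef

/-!
PROJECT DS (MP_0d9ad5_pr), JOB DS-CutC. Crossing volume and number of crossing hubs; oscillation and energy
(deterministic, section 7(iii) of note 2700).
PROOF. `cross_cnt`: remove from the points counted those with `hs > b2 L^4` or `Long`: at least `cx/2 L^(d-2)` remain;
they lie in the hubs counted on the right, each of which has at most `b2 L^4` points. `osc_le`: `dist x y <= ℓ` for
`x, y ∈ D` (not long): a geodesic of `G (cut B q.1)` from `x` to `y` stays in the hub `D ⊆ GG`; its edges are distinct;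
Cauchy-Schwarz `(h x - h y)^2 <= length * sum of squares`; the sum over its edges is at most
the part of `EG` from `x ∈ D`. Sum over disjoint hubs. `osc_mem`, `osc_attain`: properties of `osc`.
-/

namespace H95LBS

open H5DF H95LBD MeasureTheory

variable {d : ℕ}

theorem osc_mem (h : V d → ℝ) (D : Finset (V d)) (x y : V d) (hx : x ∈ D) (hy : y ∈ D) :
    h x - h y ≤ osc h D := by
  unfold osc
  have h1 : (h x - h y).toNNReal ≤ (D ×ˢ D).sup fun p : V d × V d => (h p.1 - h p.2).toNNReal :=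
    Finset.le_sup (f := fun p : V d × V d => (h p.1 - h p.2).toNNReal)
      (Finset.mk_mem_product hx hy)
  exact (Real.le_coe_toNNReal _).trans (by exact_mod_cast h1)

theorem osc_attain (h : V d → ℝ) (D : Finset (V d)) (hD : D.Nonempty) :
    ∃ x ∈ D, ∃ y ∈ D, osc h D = h x - h y := by
  obtain ⟨p, hp, hs⟩ := Finset.exists_mem_eq_sup (D ×ˢ D) (hD.product hD)
    (fun p : V d × V d => (h p.1 - h p.2).toNNReal)
  rw [Finset.mem_product] at hp
  by_cases h0 : 0 ≤ h p.1 - h p.2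
  · refine ⟨p.1, hp.1, p.2, hp.2, ?_⟩
    unfold osc
    rw [hs]
    exact Real.coe_toNNReal _ h0
  · refine ⟨p.1, hp.1, p.1, hp.1, ?_⟩
    unfold osc
    rw [hs, sub_self, Real.toNNReal_of_nonpos (not_le.1 h0).le]
    rfl

lemma CutC_hs (B : Finset (V d)) (ω : Cfg d) (x : V d) : hs B ω x = (hubF B ω x).card := by
  classical
  unfold hs cn hubF
  refine congrArg Finset.card ?_
  ext y
  simp only [Finset.mem_filter, mem_hub]

lemma CutC_hubF_eq {B : Finset (V d)} {ω : Cfg d} {x y : V d}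
    (h : Cn (B : Set (V d)) ω x y) : hubF B ω x = hubF B ω y := by
  ext z
  rw [mem_hubF, mem_hubF]
  exact ⟨fun h1 => ⟨h1.1, h.symm.trans h1.2⟩, fun h1 => ⟨h1.1, h.trans h1.2⟩⟩

lemma CutC_long {B : Finset (V d)} {ω : Cfg d} {ℓ : ℝ} {x y : V d}
    (h : Cn (B : Set (V d)) ω x y) (hl : Long B ω ℓ y) : Long B ω ℓ x := by
  obtain ⟨z, z', h1, h2, h3⟩ := hl
  exact ⟨z, z', h.trans h1, h.trans h2, h3⟩

open Classical in
theorem cross_cnt {M m lam : ℕ} {c1 b1 b2 cx ℓ : ℝ} {q : Cfg d × Cfg d} (hb2 : 0 < b2)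
    (hL : 1 ≤ m * lam) (GG : Set (V d)) (h : V d → ℝ) (a : ℝ) (hd : 6 ≤ d)
    (hGG : ∀ x ∈ GG, ∀ y, Cn (BB d M (m * lam) : Set (V d)) q.1 x y → y ∈ GG)
    (hfat : (cn {x | b2 * ((m * lam : ℕ) : ℝ) ^ 4 < hs (BB d M (m * lam)) q.1 x}
      (WW d (m * lam)) : ℝ) ≤ cx / 4 * ((m * lam : ℕ) : ℝ) ^ (d - 2))
    (hlong : (cn {x | Long (BB d M (m * lam)) q.1 ℓ x} (WW d (m * lam)) : ℝ) ≤
      cx / 4 * ((m * lam : ℕ) : ℝ) ^ (d - 2))
    (hc : cx * ((m * lam : ℕ) : ℝ) ^ (d - 2) < cn (CrS (BB d M (m * lam)) q.1 GG h a ∩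
        BG M (m * lam) c1 b1 q.1) (WW d (m * lam))) :
    cx / (2 * b2) * ((m * lam : ℕ) : ℝ) ^ (d - 6) ≤ ((HF (BB d M (m * lam)) q.1).filter
      (fun D => Colb (WW d (m * lam)) (BG M (m * lam) c1 b1 q.1) D ∧
        Nrm (BB d M (m * lam)) q.1 ℓ GG D ∧ Crs h a D)).card := by
  generalize hLe : m * lam = L at *
  set B := BB d M L with hB
  set F := (HF B q.1).filter (fun D => Colb (WW d L) (BG M L c1 b1 q.1) D ∧
    Nrm B q.1 ℓ GG D ∧ Crs h a D) with hF
  set T0 := (WW d L).filter (fun x => x ∈ CrS B q.1 GG h a ∩ BG M L c1 b1 q.1) with hT0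
  set T1 := (WW d L).filter (fun x => x ∈ {x | b2 * (L : ℝ) ^ 4 < hs B q.1 x}) with hT1
  set T2 := (WW d L).filter (fun x => x ∈ {x | Long B q.1 ℓ x}) with hT2
  have hT0c : cn (CrS B q.1 GG h a ∩ BG M L c1 b1 q.1) (WW d L) = T0.card := by
    unfold cn
    refine congrArg Finset.card ?_
    ext y
    rw [hT0]
    simp only [Finset.mem_filter]
  have hT1c : cn {x | b2 * (L : ℝ) ^ 4 < hs B q.1 x} (WW d L) = T1.card := by
    unfold cn
    rfl
  have hT2c : cn {x | Long B q.1 ℓ x} (WW d L) = T2.card := by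
    unfold cn
    rfl
  rw [hT0c] at hc
  rw [hT1c] at hfat
  rw [hT2c] at hlong
  set T' := T0 \ (T1 ∪ T2) with hT'
  have hcard : (T0.card : ℝ) ≤ T'.card + T1.card + T2.card := by
    have e1 : T0.card ≤ T'.card + (T1 ∪ T2).card := by
      have := Finset.card_le_card (Finset.subset_union_left (s₁ := T0) (s₂ := T1 ∪ T2))
      rw [← Finset.sdiff_union_self_eq_union] at this
      exact this.trans (Finset.card_union_le _ _)
    have e2 := Finset.card_union_le T1 T2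
    exact_mod_cast (by omega : T0.card ≤ T'.card + T1.card + T2.card)
  have hT'low : cx / 2 * (L : ℝ) ^ (d - 2) ≤ T'.card := by linarith
  have hmem : ∀ x ∈ T', x ∈ WW d L ∧ x ∈ B ∧ x ∈ CrS B q.1 GG h a ∧ x ∈ BG M L c1 b1 q.1 ∧
      (hs B q.1 x : ℝ) ≤ b2 * (L : ℝ) ^ 4 ∧ ¬ Long B q.1 ℓ x := by
    intro x hx
    rw [hT', Finset.mem_sdiff, Finset.mem_union, not_or] at hx
    obtain ⟨hx0, hx1, hx2⟩ := hx
    rw [hT0, Finset.mem_filter] at hx0
    refine ⟨hx0.1, WW_sub_BB hx0.1, hx0.2.1, hx0.2.2, ?_, ?_⟩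
    · by_contra hcon
      exact hx1 (Finset.mem_filter.2 ⟨hx0.1, not_le.1 hcon⟩)
    · intro hcon
      exact hx2 (Finset.mem_filter.2 ⟨hx0.1, hcon⟩)
  have hmaps : ∀ x ∈ T', hubF B q.1 x ∈ F := by
    intro x hx
    obtain ⟨hW, hxB, hCr, hBG, hsz, hnl⟩ := hmem x hx
    have hself : x ∈ hubF B q.1 x := mem_hubF.2 ⟨hxB, Cn.refl _ _ _⟩
    rw [hF, Finset.mem_filter]
    refine ⟨Finset.mem_image.2 ⟨x, hxB, rfl⟩, ⟨x, hself, hW, hBG⟩, ⟨?_, ?_⟩, ?_, ?_⟩
    · intro y hy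
      exact hGG x hCr.2.1 y (mem_hubF.1 hy).2
    · intro y hy hl
      exact hnl (CutC_long (mem_hubF.1 hy).2 hl)
    · obtain ⟨y, hy1, hy2⟩ := hCr.2.2.1
      exact ⟨y, mem_hubF.2 ⟨by exact_mod_cast hy1.mem (by exact_mod_cast hxB), hy1⟩, hy2⟩
    · obtain ⟨y, hy1, hy2⟩ := hCr.2.2.2
      exact ⟨y, mem_hubF.2 ⟨by exact_mod_cast hy1.mem (by exact_mod_cast hxB), hy1⟩, hy2⟩
  have hcnt : T'.card ≤ ⌊b2 * (L : ℝ) ^ 4⌋₊ * F.card := by
    refine Finset.card_le_mul_card_image_of_maps_to hmaps _ ?_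
    intro D _
    by_cases hne : (T'.filter (fun x => hubF B q.1 x = D)).Nonempty
    · obtain ⟨x, hx⟩ := hne
      rw [Finset.mem_filter] at hx
      obtain ⟨hxT, rfl⟩ := hx
      have hsz := (hmem x hxT).2.2.2.2.1
      refine Nat.le_floor (le_trans ?_ hsz)
      rw [CutC_hs]
      have hsub : T'.filter (fun y => hubF B q.1 y = hubF B q.1 x) ⊆ hubF B q.1 x := by
        intro y hy
        rw [Finset.mem_filter] at hy
        rw [← hy.2]
        exact mem_hubF.2 ⟨(hmem y hy.1).2.1, Cn.refl _ _ _⟩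
      exact_mod_cast Finset.card_le_card hsub
    · rw [Finset.not_nonempty_iff_eq_empty] at hne
      rw [hne]
      simp
  have hLpos : (0 : ℝ) < L := by exact_mod_cast hL
  have hpow : (L : ℝ) ^ (d - 2) = (L : ℝ) ^ (d - 6) * (L : ℝ) ^ 4 := by
    rw [← pow_add]
    congr 1
    omega
  have hb4 : 0 < b2 * (L : ℝ) ^ 4 := by positivity
  have hcnt' : (T'.card : ℝ) ≤ b2 * (L : ℝ) ^ 4 * F.card := by
    calc (T'.card : ℝ) ≤ ((⌊b2 * (L : ℝ) ^ 4⌋₊ * F.card : ℕ) : ℝ) := by exact_mod_cast hcnt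
      _ = (⌊b2 * (L : ℝ) ^ 4⌋₊ : ℝ) * F.card := by push_cast; ring
      _ ≤ b2 * (L : ℝ) ^ 4 * F.card :=
        mul_le_mul_of_nonneg_right (Nat.floor_le hb4.le) (Nat.cast_nonneg _)
  have h5 : cx / 2 * ((L : ℝ) ^ (d - 6) * (L : ℝ) ^ 4) ≤ b2 * (L : ℝ) ^ 4 * F.card := by
    rw [← hpow]
    exact hT'low.trans hcnt'
  have h6 : cx / (2 * b2) * (L : ℝ) ^ (d - 6) * (b2 * (L : ℝ) ^ 4) =
      cx / 2 * ((L : ℝ) ^ (d - 6) * (L : ℝ) ^ 4) := by
    field_simp
  refine le_of_mul_le_mul_right ?_ hb4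
  rw [h6]
  linarith

/-- Cauchy-Schwarz along a walk. -/
lemma CutC_walk {G' : SimpleGraph (V d)} (h : V d → ℝ) {x y : V d} (P : G'.Walk x y) :
    (h x - h y) ^ 2 ≤ P.length * (P.darts.map fun e => (h e.snd - h e.fst) ^ 2).sum := by
  induction P with
  | nil => simp
  | @cons u v w hadj P ih =>
    simp only [SimpleGraph.Walk.length_cons, SimpleGraph.Walk.darts_cons, List.map_cons,
      List.sum_cons]
    set S := (P.darts.map fun e => (h e.snd - h e.fst) ^ 2).sum with hS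
    have hS0 : 0 ≤ S := by
      apply List.sum_nonneg
      intro z hz
      rw [List.mem_map] at hz
      obtain ⟨e, -, rfl⟩ := hz
      exact sq_nonneg _
    set n : ℝ := (P.length : ℝ) with hn
    have hn0 : 0 ≤ n := Nat.cast_nonneg _
    set a := h v - h u with ha
    set b := h v - h w with hb
    have e1 : h u - h w = b - a := by rw [ha, hb]; ring
    have hg : (b - a) ^ 2 ≤ (n + 1) * (a ^ 2 + S) := by
      rcases Nat.eq_zero_or_pos P.length with h0 | h0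
      · have hn' : n = 0 := by rw [hn, h0]; simp
        rw [hn'] at ih ⊢
        have hb0 : b = 0 := by
          have : b ^ 2 ≤ 0 := by linarith
          exact pow_eq_zero_iff (two_ne_zero) |>.1 (le_antisymm this (sq_nonneg b))
        rw [hb0]
        nlinarith
      · have hn1 : 1 ≤ n := by rw [hn]; exact_mod_cast h0
        have k1 : 0 ≤ n * (n * a ^ 2 + S + 2 * a * b) := by
          nlinarith [sq_nonneg (n * a + b)]
        have k2 : 0 ≤ n * a ^ 2 + S + 2 * a * b := by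
          by_contra hcon
          have := mul_neg_of_pos_of_neg (by linarith : 0 < n) (not_le.1 hcon)
          linarith
        nlinarith
    rw [e1]
    push_cast
    exact hg

open Classical in
/-- The local energy. -/
noncomputable def CutC_F (B : Finset (V d)) (q : Cfg d × Cfg d) (GG : Set (V d)) (h : V d → ℝ)
    (x : V d) : ℝ :=
  ∑ σ : Dir d, if x ∈ GG ∧ x + step σ ∈ B ∧ un q.1 q.2 (edge x σ) = true then
    (h (x + step σ) - h x) ^ 2 else 0

lemma CutC_F_nonneg (B : Finset (V d)) (q : Cfg d × Cfg d) (GG : Set (V d)) (h : V d → ℝ)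
    (x : V d) : 0 ≤ CutC_F B q GG h x := by
  classical
  unfold CutC_F
  refine Finset.sum_nonneg fun σ _ => ?_
  split_ifs
  · exact sq_nonneg _
  · exact le_rfl

/-- The energy along a path. -/
lemma CutC_path (B : Finset (V d)) (q : Cfg d × Cfg d) (GG : Set (V d)) (h : V d → ℝ) {x y : V d}
    (P : (G (cut (B : Set (V d)) q.1)).Walk x y) (hP : P.IsPath) (hG : ∀ z ∈ P.support, z ∈ GG) :
    (P.darts.map fun e => (h e.snd - h e.fst) ^ 2).sum ≤
      ∑ z ∈ P.support.toFinset, CutC_F B q GG h z := by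
  classical
  induction P with
  | nil => simpa using CutC_F_nonneg B q GG h _
  | @cons u v w hadj P ih =>
    rw [SimpleGraph.Walk.cons_isPath_iff] at hP
    simp only [SimpleGraph.Walk.darts_cons, List.map_cons, List.sum_cons,
      SimpleGraph.Walk.support_cons, List.toFinset_cons]
    rw [Finset.sum_insert (by simpa using hP.2)]
    refine add_le_add ?_ (ih hP.1 fun z hz => hG z (by simp [hz]))
    obtain ⟨σ, rfl, hσ⟩ := hadj
    rw [cut_edge] at hσ
    unfold CutC_F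
    have h1 : (h (u + step σ) - h u) ^ 2 =
        if u ∈ GG ∧ u + step σ ∈ B ∧ un q.1 q.2 (edge u σ) = true then
          (h (u + step σ) - h u) ^ 2 else 0 := by
      rw [if_pos ⟨hG u (by simp), by exact_mod_cast hσ.2.2, un_left _ hσ.1⟩]
    show (h (u + step σ) - h u) ^ 2 ≤ _
    rw [h1]
    refine Finset.single_le_sum (f := fun σ : Dir d =>
      if u ∈ GG ∧ u + step σ ∈ B ∧ un q.1 q.2 (edge u σ) = true then
          (h (u + step σ) - h u) ^ 2 else 0) ?_ (Finset.mem_univ σ)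
    intro τ _
    show 0 ≤ (if u ∈ GG ∧ u + step τ ∈ B ∧ un q.1 q.2 (edge u τ) = true then
          (h (u + step τ) - h u) ^ 2 else 0)
    split_ifs
    · exact sq_nonneg _
    · exact le_rfl

/-- The oscillation on one hub. -/
lemma CutC_one (B : Finset (V d)) (q : Cfg d × Cfg d) (ℓ : ℝ) (GG : Set (V d)) (h : V d → ℝ)
    (x0 : V d) (hx0 : x0 ∈ B) (hN : Nrm B q.1 ℓ GG (hubF B q.1 x0)) :
    osc h (hubF B q.1 x0) ^ 2 ≤ ℓ * ∑ z ∈ hubF B q.1 x0, CutC_F B q GG h z := by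
  classical
  have hself : x0 ∈ hubF B q.1 x0 := mem_hubF.2 ⟨hx0, Cn.refl _ _ _⟩
  obtain ⟨x, hx, y, hy, hxy⟩ := osc_attain h (hubF B q.1 x0) ⟨x0, hself⟩
  rw [hxy]
  have hx1 := mem_hubF.1 hx
  have hy1 := mem_hubF.1 hy
  have hreach : (G (cut (B : Set (V d)) q.1)).Reachable x y := hx1.2.symm.trans hy1.2
  obtain ⟨P, hlen⟩ := hreach.exists_walk_length_eq_dist
  have hPath : P.IsPath := P.isPath_of_length_eq_dist hlen
  have hdist : ((G (cut (B : Set (V d)) q.1)).dist x y : ℝ) ≤ ℓ := by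
    by_contra hcon
    exact hN.2 x0 hself ⟨x, y, hx1.2, hy1.2, not_le.1 hcon⟩
  have hsupp : ∀ z ∈ P.support, z ∈ hubF B q.1 x0 := by
    intro z hz
    have h1 : Cn (B : Set (V d)) q.1 x z := (P.takeUntil z hz).reachable
    exact mem_hubF.2 ⟨by exact_mod_cast h1.mem (by exact_mod_cast hx1.1), hx1.2.trans h1⟩
  have k1 := CutC_walk h P
  have k2 := CutC_path B q GG h P hPath fun z hz => hN.1 z (hsupp z hz)
  have k3 : ∑ z ∈ P.support.toFinset, CutC_F B q GG h z ≤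
      ∑ z ∈ hubF B q.1 x0, CutC_F B q GG h z := by
    refine Finset.sum_le_sum_of_subset_of_nonneg ?_ fun z _ _ => CutC_F_nonneg B q GG h z
    intro z hz
    exact hsupp z (by simpa using hz)
  have k4 : 0 ≤ ∑ z ∈ hubF B q.1 x0, CutC_F B q GG h z :=
    Finset.sum_nonneg fun z _ => CutC_F_nonneg B q GG h z
  calc (h x - h y) ^ 2 ≤ P.length * (P.darts.map fun e => (h e.snd - h e.fst) ^ 2).sum := k1
    _ ≤ P.length * ∑ z ∈ hubF B q.1 x0, CutC_F B q GG h z :=
        mul_le_mul_of_nonneg_left (k2.trans k3) (Nat.cast_nonneg _)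
    _ ≤ ℓ * ∑ z ∈ hubF B q.1 x0, CutC_F B q GG h z := by
        refine mul_le_mul_of_nonneg_right ?_ k4
        rw [hlen]
        exact hdist

open Classical in
theorem osc_le (B : Finset (V d)) (q : Cfg d × Cfg d) (ℓ : ℝ) (GG : Set (V d)) (h : V d → ℝ)
    (hℓ : 0 ≤ ℓ) : ∑ D ∈ (HF B q.1).filter (fun D => Nrm B q.1 ℓ GG D), osc h D ^ 2 ≤
      ℓ * EG B q GG h := by
  set K := (HF B q.1).filter (fun D => Nrm B q.1 ℓ GG D) with hK
  have hform : ∀ D ∈ K, ∃ x0 ∈ B, hubF B q.1 x0 = D := by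
    intro D hD
    rw [hK, Finset.mem_filter] at hD
    obtain ⟨x0, hx0, h1⟩ := Finset.mem_image.1 hD.1
    exact ⟨x0, hx0, h1⟩
  have hstep : ∀ D ∈ K, osc h D ^ 2 ≤ ℓ * ∑ z ∈ D, CutC_F B q GG h z := by
    intro D hD
    obtain ⟨x0, hx0, rfl⟩ := hform D hD
    rw [hK, Finset.mem_filter] at hD
    exact CutC_one B q ℓ GG h x0 hx0 hD.2
  have hdisj : (K : Set (Finset (V d))).PairwiseDisjoint id := by
    intro D hD D' hD' hne
    obtain ⟨x0, hx0, rfl⟩ := hform D hD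
    obtain ⟨x1, hx1, rfl⟩ := hform D' hD'
    show Disjoint (hubF B q.1 x0) (hubF B q.1 x1)
    rw [Finset.disjoint_left]
    intro z hz hz'
    apply hne
    rw [CutC_hubF_eq (mem_hubF.1 hz).2, CutC_hubF_eq (mem_hubF.1 hz').2]
  calc ∑ D ∈ K, osc h D ^ 2 ≤ ∑ D ∈ K, ℓ * ∑ z ∈ D, CutC_F B q GG h z :=
        Finset.sum_le_sum hstep
    _ = ℓ * ∑ D ∈ K, ∑ z ∈ D, CutC_F B q GG h z := by rw [Finset.mul_sum]
    _ = ℓ * ∑ z ∈ K.biUnion id, CutC_F B q GG h z := by
        rw [Finset.sum_biUnion hdisj]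
        rfl
    _ ≤ ℓ * ∑ z ∈ B, CutC_F B q GG h z := by
        refine mul_le_mul_of_nonneg_left ?_ hℓ
        refine Finset.sum_le_sum_of_subset_of_nonneg ?_ fun z _ _ => CutC_F_nonneg B q GG h z
        intro z hz
        rw [Finset.mem_biUnion] at hz
        obtain ⟨D, hD, hz⟩ := hz
        obtain ⟨x0, hx0, rfl⟩ := hform D hD
        exact (mem_hubF.1 hz).1
    _ = ℓ * EG B q GG h := rfl

end H95LBS
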