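import Pool.Agent.H95.LBS.BDef

/-!
PROJECT DS (MP_0d9ad5_pr), JOB DS-Giant. The giant component of a block (deterministic, section 7(ii) of
note 2700).
PROOF. `om = un q.1 q.2`, components = hubs `hub BB om x`. Splitting claim (*): there is no set `X ⊆ BB` closed
under `Cn BB om` such that `X` and `X' = BB \ X` both have at least `cB/16 L^(d-2)` points of `BG` in the window: by
`MixOK.mix` (`X`, `X'` are hub-closed for `q.1`) they are `Bich η1 η2`; pass to the unions `Xc`, `Xc'` of the hubs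
meeting `BG ∩ WW` (same intersection with `BG` in the window, `Bich` with `η1/2, η2/2` too), `ROBok` with `Hs = ∅`
connects them in `om`: contradiction. `cn BG (cube L w) >= cB/2 L^(d-2)` for `nm w <= 1` (`MixOK.lo`, `cube L w` is the
disjoint union of `m^d` boxes `cube lam j`, `j ∈ JJ`; `m^d vol = L^(d-2)`). For each `w`: if no component
contains `7/8` of `BG ∩ cube L w`, some union of components contains between `1/8` and `7/8` of it (one component with at
least `1/8`, or add components of size `< 1/8` one by one): contradicts (*) (`1/8 * cB/2 = cB/16`). For `w, w'` the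
components are the same, otherwise take `X` = the first one in (*).
-/

namespace H95LBS

open H5DF H95LBD MeasureTheory

variable {d : ℕ}

lemma Giant_cube_card (n : ℕ) (w : V d) : (cube n w).card = n ^ d := by
  unfold cube
  rw [Fintype.card_piFinset]
  have h : ∀ i, (Finset.Ico (w i * (n : ℤ)) ((w i + 1) * n)).card = n := by
    intro i
    rw [Int.card_Ico]
    have h1 : (w i + 1) * (n : ℤ) - w i * n = n := by ring
    rw [h1, Int.toNat_natCast]
  rw [Finset.prod_congr rfl fun i _ => h i, Finset.prod_const, Finset.card_univ, Fintype.card_fin]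

lemma Giant_cube_disj {lam : ℕ} {j j' x : V d} (h : x ∈ cube lam j) (h' : x ∈ cube lam j') :
    j = j' := by
  rw [mem_cube] at h h'
  funext i
  have h1 := h i
  have h2 := h' i
  have hl : (0 : ℤ) < (lam : ℤ) := by nlinarith
  have h3 : j i < j' i + 1 := by
    by_contra hc
    push Not at hc
    nlinarith [mul_le_mul_of_nonneg_right hc hl.le]
  have h4 : j' i < j i + 1 := by
    by_contra hc
    push Not at hc
    nlinarith [mul_le_mul_of_nonneg_right hc hl.le]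
  omega

lemma Giant_cube_sub {m lam : ℕ} {j w : V d} (hj : j ∈ cube m w) :
    cube lam j ⊆ cube (m * lam) w := by
  intro x hx
  rw [mem_cube] at hj hx ⊢
  intro i
  have h1 := hj i
  have h2 := hx i
  have hl : (0 : ℤ) ≤ (lam : ℤ) := Int.natCast_nonneg _
  push_cast
  constructor
  · calc w i * ((m : ℤ) * lam) = (w i * m) * lam := by ring
      _ ≤ j i * lam := mul_le_mul_of_nonneg_right h1.1 hl
      _ ≤ x i := h2.1
  · calc x i < (j i + 1) * lam := h2.2
      _ ≤ ((w i + 1) * m) * lam := mul_le_mul_of_nonneg_right (by omega) hl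
      _ = (w i + 1) * ((m : ℤ) * lam) := by ring

lemma Giant_cube_WW {L : ℕ} {w : V d} (hw : nm w ≤ 1) : cube L w ⊆ WW d L := by
  intro x hx
  rw [mem_cube] at hx
  rw [mem_WW]
  intro i
  have h1 := hx i
  have h2 := nm_le.1 hw i
  have hl : (0 : ℤ) ≤ (L : ℤ) := Int.natCast_nonneg _
  have h3 : -1 ≤ w i := by omega
  have h4 : w i + 1 ≤ 2 := by omega
  constructor
  · nlinarith [mul_le_mul_of_nonneg_right h3 hl]
  · nlinarith [mul_le_mul_of_nonneg_right h4 hl]

lemma Giant_cube_JJ {m : ℕ} {w : V d} (hw : nm w ≤ 1) : cube m w ⊆ JJ d m := by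
  intro x hx
  exact mem_JJ.2 (mem_WW.1 (Giant_cube_WW hw hx))

lemma Giant_box_WW {m lam : ℕ} {j : V d} (hj : j ∈ JJ d m) : cube lam j ⊆ WW d (m * lam) := by
  intro x hx
  rw [mem_cube] at hx
  rw [mem_JJ] at hj
  rw [mem_WW]
  intro i
  have h1 := hx i
  have h2 := hj i
  have hl : (0 : ℤ) ≤ (lam : ℤ) := Int.natCast_nonneg _
  have h4 : j i + 1 ≤ 2 * m := by omega
  push_cast
  constructor
  · nlinarith [mul_le_mul_of_nonneg_right h2.1 hl]
  · nlinarith [mul_le_mul_of_nonneg_right h4 hl]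

lemma Giant_cn_sum (X : Set (V d)) {lam : ℕ} (J T : Finset (V d))
    (h : ∀ j ∈ J, cube lam j ⊆ T) : ∑ j ∈ J, cn X (cube lam j) ≤ cn X T := by
  classical
  unfold cn
  rw [← Finset.card_biUnion]
  · apply Finset.card_le_card
    intro x hx
    rw [Finset.mem_biUnion] at hx
    obtain ⟨j, hj, hx⟩ := hx
    rw [Finset.mem_filter] at hx ⊢
    exact ⟨h j hj hx.1, hx.2⟩
  · intro j _ j' _ hne
    show Disjoint _ _
    rw [Finset.disjoint_left]
    intro x hx hx'
    rw [Finset.mem_filter] at hx hx'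
    exact hne (Giant_cube_disj hx.1 hx'.1)

lemma Giant_vol {m lam : ℕ} (hm : 1 ≤ m) (hlam : 1 ≤ lam) (hd : 3 ≤ d) :
    (m : ℝ) ^ d * vol d m lam = ((m * lam : ℕ) : ℝ) ^ (d - 2) := by
  have h1 : (0 : ℝ) < m := by exact_mod_cast hm
  have h2 : (0 : ℝ) < lam := by exact_mod_cast hlam
  have h3 : ((m * lam : ℕ) : ℝ) = (m : ℝ) * lam := by push_cast; ring
  unfold vol
  rw [h3]
  have h4 : ((m : ℝ) * lam) ^ d = ((m : ℝ) * lam) ^ (d - 2) * ((m : ℝ) * lam) ^ 2 := by
    rw [← pow_add]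
    congr 1
    omega
  have h5 : ((m : ℝ) * lam) ^ 2 ≠ 0 := by positivity
  rw [← mul_div_assoc, div_eq_iff h5, ← h4, mul_pow]

lemma Giant_cn_le {X Y : Set (V d)} {T S : Finset (V d)} (h : ∀ x ∈ T, x ∈ X → x ∈ S ∧ x ∈ Y) :
    cn X T ≤ cn Y S := by
  classical
  unfold cn
  apply Finset.card_le_card
  intro x hx
  rw [Finset.mem_filter] at hx ⊢
  exact h x hx.1 hx.2

lemma Giant_cn_add {X Y Z : Set (V d)} {T : Finset (V d)} (h : ∀ x ∈ T, x ∈ X → x ∈ Y ∨ x ∈ Z) :
    cn X T ≤ cn Y T + cn Z T := by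
  classical
  unfold cn
  refine le_trans (Finset.card_le_card ?_) (Finset.card_union_le _ _)
  intro x hx
  rw [Finset.mem_filter] at hx
  rw [Finset.mem_union, Finset.mem_filter, Finset.mem_filter]
  rcases h x hx.1 hx.2 with h1 | h1
  · exact Or.inl ⟨hx.1, h1⟩
  · exact Or.inr ⟨hx.1, h1⟩

theorem win_lo {M m lam : ℕ} {c1 b1 cB CB η1 η2 : ℝ} {ω : Cfg d} (hm : 1 ≤ m) (hlam : 1 ≤ lam)
    (hd : 3 ≤ d) (h : MixOK M m lam c1 b1 cB CB η1 η2 ω) (w : V d) (hw : nm w ≤ 1) :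
    cB / 2 * ((m * lam : ℕ) : ℝ) ^ (d - 2) ≤ cn (BG M (m * lam) c1 b1 ω) (cube (m * lam) w) := by
  have h1 := Giant_cn_sum (BG M (m * lam) c1 b1 ω) (lam := lam) (cube m w) (cube (m * lam) w)
    fun j hj => Giant_cube_sub hj
  have h2 : ∑ j ∈ cube m w, cB / 2 * vol d m lam ≤
      ∑ j ∈ cube m w, (cn (BG M (m * lam) c1 b1 ω) (cube lam j) : ℝ) :=
    Finset.sum_le_sum fun j hj => h.lo j (Giant_cube_JJ hw hj)
  rw [Finset.sum_const, Giant_cube_card, nsmul_eq_mul] at h2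
  have h3 : (∑ j ∈ cube m w, (cn (BG M (m * lam) c1 b1 ω) (cube lam j) : ℝ)) ≤
      cn (BG M (m * lam) c1 b1 ω) (cube (m * lam) w) := by exact_mod_cast h1
  have h4 := Giant_vol (d := d) hm hlam hd
  calc cB / 2 * ((m * lam : ℕ) : ℝ) ^ (d - 2) = ((m ^ d : ℕ) : ℝ) * (cB / 2 * vol d m lam) := by
        rw [← h4]
        push_cast
        ring
    _ ≤ _ := h2.trans h3

/-- The splitting claim. -/
lemma Giant_split {M m lam : ℕ} {c1 b1 cB CB η1 η2 : ℝ} {r1 : ℕ} {q : Cfg d × Cfg d} (hm : 1 ≤ m)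
    (hlam : 1 ≤ lam) (hη1 : 0 ≤ η1) (hη2 : 0 ≤ η2)
    (h : MixOK M m lam c1 b1 cB CB η1 η2 q.1) (hr : ROBok M m lam c1 b1 η1 η2 r1 q)
    (X : Set (V d)) (hXB : X ⊆ (BB d M (m * lam) : Set (V d)))
    (hX : ∀ x ∈ X, ∀ y, Cn (BB d M (m * lam) : Set (V d)) (un q.1 q.2) x y → y ∈ X) :
    (cn (X ∩ BG M (m * lam) c1 b1 q.1) (WW d (m * lam)) : ℝ) <
        cB / 16 * ((m * lam : ℕ) : ℝ) ^ (d - 2) ∨
    (cn (((BB d M (m * lam) : Set (V d)) \ X) ∩ BG M (m * lam) c1 b1 q.1) (WW d (m * lam)) : ℝ) <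
        cB / 16 * ((m * lam : ℕ) : ℝ) ^ (d - 2) := by
  classical
  by_contra hcon
  push Not at hcon
  obtain ⟨ha, hb⟩ := hcon
  set B : Finset (V d) := BB d M (m * lam) with hBdef
  set Y : Set (V d) := BG M (m * lam) c1 b1 q.1 with hY
  set X' : Set (V d) := (B : Set (V d)) \ X with hX'
  have c1' : HubCl B q.1 X := ⟨hXB, fun x hx y hxy => hX x hx y (hxy.mono (fun _ h => h) un_left)⟩
  have c2' : HubCl B q.1 X' := by
    refine ⟨fun x hx => hx.1, fun x hx y hxy => ⟨hxy.mem hx.1, fun hy => hx.2 ?_⟩⟩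
    exact hX y hy x (hxy.symm.mono (fun _ h => h) un_left)
  have hdis : Disjoint X X' := by
    rw [Set.disjoint_left]
    intro x hx hx'
    exact hx'.2 hx
  have hcov : ∀ x ∈ WW d (m * lam), x ∈ Y → x ∈ X ∨ x ∈ X' := by
    intro x hx _
    by_cases hxX : x ∈ X
    · exact Or.inl hxX
    · exact Or.inr ⟨WW_sub_BB (M := M) hx, hxX⟩
  have hbich := h.mix X X' c1' c2' hdis hcov ha hb
  have hvol : 0 ≤ vol d m lam := by
    unfold vol
    positivity
  -- coloured parts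
  have key : ∀ Z : Set (V d), HubCl B q.1 Z →
      HubCl B q.1 {x ∈ Z | ∃ y ∈ Y ∩ (WW d (m * lam) : Set (V d)), Cn (B : Set (V d)) q.1 x y} := by
    intro Z hZ
    refine ⟨fun x hx => hZ.1 hx.1, fun x hx y hxy => ⟨hZ.2 x hx.1 y hxy, ?_⟩⟩
    obtain ⟨-, z, hz, hxz⟩ := hx
    exact ⟨z, hz, hxy.symm.trans hxz⟩
  have key2 : ∀ Z : Set (V d), ∀ j ∈ JJ d m, cn (Z ∩ Y) (cube lam j) ≤
      cn ({x ∈ Z | ∃ y ∈ Y ∩ (WW d (m * lam) : Set (V d)), Cn (B : Set (V d)) q.1 x y} ∩ Y)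
        (cube lam j) := by
    intro Z j hj
    refine Giant_cn_le fun x hx hxZ => ⟨hx, ⟨hxZ.1, x, ⟨hxZ.2, ?_⟩, Cn.refl _ _ _⟩, hxZ.2⟩
    exact Giant_box_WW hj hx
  have hdis2 : Disjoint
      {x ∈ X | ∃ y ∈ Y ∩ (WW d (m * lam) : Set (V d)), Cn (B : Set (V d)) q.1 x y}
      {x ∈ X' | ∃ y ∈ Y ∩ (WW d (m * lam) : Set (V d)), Cn (B : Set (V d)) q.1 x y} :=
    Set.disjoint_of_subset (fun x hx => hx.1) (fun x hx => hx.1) hdis
  have hb2 : Bich m lam Y (η1 / 2) (η2 / 2)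
      {x ∈ X | ∃ y ∈ Y ∩ (WW d (m * lam) : Set (V d)), Cn (B : Set (V d)) q.1 x y}
      {x ∈ X' | ∃ y ∈ Y ∩ (WW d (m * lam) : Set (V d)), Cn (B : Set (V d)) q.1 x y} := by
    unfold Bich at hbich ⊢
    have hm0 : (0 : ℝ) ≤ (m : ℝ) ^ d := by positivity
    refine le_trans (by nlinarith) (hbich.trans ?_)
    have hsub : ((JJ d m).filter fun j => η1 * vol d m lam ≤ cn (X ∩ Y) (cube lam j) ∧
        η1 * vol d m lam ≤ cn (X' ∩ Y) (cube lam j)) ⊆
        ((JJ d m).filter fun j => η1 / 2 * vol d m lam ≤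
          cn ({x ∈ X | ∃ y ∈ Y ∩ (WW d (m * lam) : Set (V d)), Cn (B : Set (V d)) q.1 x y} ∩ Y)
            (cube lam j) ∧ η1 / 2 * vol d m lam ≤
          cn ({x ∈ X' | ∃ y ∈ Y ∩ (WW d (m * lam) : Set (V d)), Cn (B : Set (V d)) q.1 x y} ∩ Y)
            (cube lam j)) := by
      intro j hj
      rw [Finset.mem_filter] at hj ⊢
      obtain ⟨hj, h1, h2⟩ := hj
      have h3 : (cn (X ∩ Y) (cube lam j) : ℝ) ≤
          cn ({x ∈ X | ∃ y ∈ Y ∩ (WW d (m * lam) : Set (V d)), Cn (B : Set (V d)) q.1 x y} ∩ Y)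
            (cube lam j) := by exact_mod_cast key2 X j hj
      have h4 : (cn (X' ∩ Y) (cube lam j) : ℝ) ≤
          cn ({x ∈ X' | ∃ y ∈ Y ∩ (WW d (m * lam) : Set (V d)), Cn (B : Set (V d)) q.1 x y} ∩ Y)
            (cube lam j) := by exact_mod_cast key2 X' j hj
      have h5 : η1 / 2 * vol d m lam ≤ η1 * vol d m lam :=
        mul_le_mul_of_nonneg_right (by linarith) hvol
      exact ⟨hj, h5.trans (h1.trans h3), h5.trans (h2.trans h4)⟩
    exact_mod_cast Finset.card_le_card hsub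
  obtain ⟨x, hx, y, hy, hxy⟩ := hr _ _ (key X c1') (key X' c2') (fun x hx => hx.2)
    (fun x hx => hx.2) hdis2 hb2 ∅ (by simp)
  have h6 : Cn (B : Set (V d)) (un q.1 q.2) x y := by
    refine hxy.mono (fun _ h => h) fun e he => ?_
    rw [un_true] at he ⊢
    rcases he with he | he
    · exact Or.inl he
    · right
      simpa using he
  exact hy.1.2 (hX x hx.1 y h6)

theorem giant {M m lam : ℕ} {c1 b1 cB CB η1 η2 : ℝ} {r1 : ℕ} {q : Cfg d × Cfg d} (hm : 1 ≤ m)
    (hlam : 1 ≤ lam) (hM : 1 ≤ M) (hd : 3 ≤ d) (hcB : 0 < cB) (hη1 : 0 ≤ η1) (hη2 : 0 ≤ η2)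
    (h : MixOK M m lam c1 b1 cB CB η1 η2 q.1) (hr : ROBok M m lam c1 b1 η1 η2 r1 q) :
    ∃ x0 ∈ BB d M (m * lam), ∀ w : V d, nm w ≤ 1 →
      8 * cn (BG M (m * lam) c1 b1 q.1 \ hub (BB d M (m * lam) : Set (V d)) (un q.1 q.2) x0)
        (cube (m * lam) w) ≤ cn (BG M (m * lam) c1 b1 q.1) (cube (m * lam) w) := by
  classical
  set B : Finset (V d) := BB d M (m * lam) with hBdef
  set Y : Set (V d) := BG M (m * lam) c1 b1 q.1 with hY
  set om : Cfg d := un q.1 q.2 with hom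
  set t : ℝ := cB / 16 * ((m * lam : ℕ) : ℝ) ^ (d - 2) with ht
  have hL : (0 : ℝ) < ((m * lam : ℕ) : ℝ) := by exact_mod_cast Nat.mul_pos hm hlam
  have ht0 : 0 < t := by positivity
  have hwin : ∀ w : V d, nm w ≤ 1 → 8 * t ≤ cn Y (cube (m * lam) w) := by
    intro w hw
    have h1 := win_lo hm hlam hd h w hw
    calc 8 * t = cB / 2 * ((m * lam : ℕ) : ℝ) ^ (d - 2) := by rw [ht]; ring
      _ ≤ _ := h1
  have hW : 8 * t ≤ cn Y (WW d (m * lam)) := by
    refine (hwin 0 (by rw [nm_zero]; exact Nat.zero_le _)).trans ?_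
    exact_mod_cast Giant_cn_le fun x hx hxY =>
      ⟨Giant_cube_WW (by rw [nm_zero]; exact Nat.zero_le _) hx, hxY⟩
  have hsplit := Giant_split hm hlam hη1 hη2 h hr
  -- there is a large hub
  have hex : ∃ x0 ∈ B, (cn (((B : Set (V d)) \ hub (B : Set (V d)) om x0) ∩ Y)
      (WW d (m * lam)) : ℝ) < t := by
    by_contra hcon
    push Not at hcon
    have hsmall : ∀ x ∈ B, (cn (hub (B : Set (V d)) om x ∩ Y) (WW d (m * lam)) : ℝ) < t := by
      intro x hx
      rcases hsplit (hub (B : Set (V d)) om x) (hub_sub hx)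
        (fun y hy z hyz => Cn.trans hy hyz) with h1 | h1
      · exact h1
      · exact absurd h1 (not_lt.2 (hcon x hx))
    have hind : ∀ S : Finset (V d), S ⊆ B →
        (cn ({y | ∃ x ∈ S, y ∈ hub (B : Set (V d)) om x} ∩ Y) (WW d (m * lam)) : ℝ) < t := by
      intro S
      induction S using Finset.induction_on with
      | empty =>
        intro _
        have h0 : cn ({y | ∃ x ∈ (∅ : Finset (V d)), y ∈ hub (B : Set (V d)) om x} ∩ Y)
            (WW d (m * lam)) ≤ cn Y ∅ := by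
          refine Giant_cn_le ?_
          rintro x - ⟨⟨z, hz, -⟩, -⟩
          exact absurd hz (Finset.notMem_empty z)
        have h00 : cn Y ∅ ≤ 0 := cn_le Y ∅
        have h000 : cn ({y | ∃ x ∈ (∅ : Finset (V d)), y ∈ hub (B : Set (V d)) om x} ∩ Y)
            (WW d (m * lam)) = 0 := Nat.le_zero.1 (h0.trans h00)
        rw [h000]
        exact_mod_cast ht0
      | insert a S ha ih =>
        intro hS
        have haB : a ∈ B := hS (Finset.mem_insert_self _ _)
        have hSB : S ⊆ B := fun x hx => hS (Finset.mem_insert_of_mem hx)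
        have h1 := ih hSB
        have h2 := hsmall a haB
        have h3 : cn ({y | ∃ x ∈ insert a S, y ∈ hub (B : Set (V d)) om x} ∩ Y)
            (WW d (m * lam)) ≤
            cn ({y | ∃ x ∈ S, y ∈ hub (B : Set (V d)) om x} ∩ Y) (WW d (m * lam)) +
            cn (hub (B : Set (V d)) om a ∩ Y) (WW d (m * lam)) := by
          refine Giant_cn_add ?_
          rintro x - ⟨⟨z, hz, hxz⟩, hxY⟩
          rcases Finset.mem_insert.1 hz with rfl | hz
          · exact Or.inr ⟨hxz, hxY⟩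
          · exact Or.inl ⟨⟨z, hz, hxz⟩, hxY⟩
        have h3' : (cn ({y | ∃ x ∈ insert a S, y ∈ hub (B : Set (V d)) om x} ∩ Y)
            (WW d (m * lam)) : ℝ) ≤
            cn ({y | ∃ x ∈ S, y ∈ hub (B : Set (V d)) om x} ∩ Y) (WW d (m * lam)) +
            cn (hub (B : Set (V d)) om a ∩ Y) (WW d (m * lam)) := by exact_mod_cast h3
        rcases hsplit {y | ∃ x ∈ insert a S, y ∈ hub (B : Set (V d)) om x}
          (by
            rintro y ⟨x, hx, hxy⟩
            exact hub_sub (hS hx) hxy)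
          (by
            rintro y ⟨x, hx, hxy⟩ z hyz
            exact ⟨x, hx, Cn.trans hxy hyz⟩) with h4 | h4
        · exact h4
        · exfalso
          have h5 : cn Y (WW d (m * lam)) ≤
              cn ({y | ∃ x ∈ insert a S, y ∈ hub (B : Set (V d)) om x} ∩ Y) (WW d (m * lam)) +
              cn (((B : Set (V d)) \ {y | ∃ x ∈ insert a S, y ∈ hub (B : Set (V d)) om x}) ∩ Y)
                (WW d (m * lam)) := by
            refine Giant_cn_add ?_
            intro x hx hxY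
            by_cases hxU : x ∈ {y | ∃ x ∈ insert a S, y ∈ hub (B : Set (V d)) om x}
            · exact Or.inl ⟨hxU, hxY⟩
            · exact Or.inr ⟨⟨WW_sub_BB (M := M) hx, hxU⟩, hxY⟩
          have h5' : (cn Y (WW d (m * lam)) : ℝ) ≤
              cn ({y | ∃ x ∈ insert a S, y ∈ hub (B : Set (V d)) om x} ∩ Y) (WW d (m * lam)) +
              cn (((B : Set (V d)) \ {y | ∃ x ∈ insert a S, y ∈ hub (B : Set (V d)) om x}) ∩ Y)
                (WW d (m * lam)) := by exact_mod_cast h5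
          linarith
    have h7 := hind B (Finset.Subset.refl _)
    have h8 : cn Y (WW d (m * lam)) ≤
        cn ({y | ∃ x ∈ B, y ∈ hub (B : Set (V d)) om x} ∩ Y) (WW d (m * lam)) :=
      Giant_cn_le fun x hx hxY =>
        ⟨hx, ⟨x, WW_sub_BB (M := M) hx, mem_hub_self _ _ _⟩, hxY⟩
    have h8' : (cn Y (WW d (m * lam)) : ℝ) ≤
        cn ({y | ∃ x ∈ B, y ∈ hub (B : Set (V d)) om x} ∩ Y) (WW d (m * lam)) := by
      exact_mod_cast h8
    linarith
  obtain ⟨x0, hx0, hlt⟩ := hex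
  refine ⟨x0, hx0, fun w hw => ?_⟩
  have h9 : cn (Y \ hub (B : Set (V d)) om x0) (cube (m * lam) w) ≤
      cn (((B : Set (V d)) \ hub (B : Set (V d)) om x0) ∩ Y) (WW d (m * lam)) :=
    Giant_cn_le fun x hx hxY =>
      ⟨Giant_cube_WW hw hx, ⟨WW_sub_BB (M := M) (Giant_cube_WW hw hx), hxY.2⟩, hxY.1⟩
  have h9' : (cn (Y \ hub (B : Set (V d)) om x0) (cube (m * lam) w) : ℝ) ≤
      cn (((B : Set (V d)) \ hub (B : Set (V d)) om x0) ∩ Y) (WW d (m * lam)) := by
    exact_mod_cast h9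
  have h10 := hwin w hw
  have h11 : (8 * cn (Y \ hub (B : Set (V d)) om x0) (cube (m * lam) w) : ℝ) ≤
      cn Y (cube (m * lam) w) := by linarith
  exact_mod_cast h11

end H95LBS
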