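import Pool.Agent.H95.LBS.CutA
import Pool.Agent.H95.LBS.CutC
import Pool.Agent.H95.LBS.Coar
import Pool.Agent.H95.LBS.Giant

/-!
PROJECT DS (MP_0d9ad5_pr), JOB DS-Med. The median inequality (section 7(iii) of note 2700).
PROOF. `n = L^(d-6)`, `L = m lam`, `ℓ = b3 L^2`, `cx = η1 η2/4`, `cN = cx/(2 b2)`. For every `a ∈ [μ, μ')`: `cut_low` and
`cross_cnt` give `r1 <= card HaS a + r1/(cN n) * N_a`, `N_a` the number of colourable normal crossing hubs.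
Integrate (`coar1`, `coar2`, `coar_int`): `r1 Δ <= ∑ |grad| + ∑ el osc + Δ r1/4 + r1/(cN n) ∑_{Colb,Nrm} osc`,
`Δ = μ' - μ`. Cauchy-Schwarz: `∑ |grad| <= sqrt(C2 n) sqrt(EG)` (each live edge in GG is a term of `EG`),
`∑ el osc <= sqrt(C3 n) sqrt(b3 L^2 EG)` (`osc_le`), `∑_{Colb,Nrm} osc <= sqrt(CH n) sqrt(b3 L^2 EG)`. With `r1 <= cR n`,
`r1 >= cR n/2`, `L >= 1`: `(3/8) cR n Δ <= S sqrt(n L^2 EG)`, `S = sqrt C2 + sqrt(C3 b3) + (cR/cN) sqrt(CH b3)`.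
-/

namespace H95LBS

open H5DF H95LBD MeasureTheory

variable {d : ℕ}

/-- The constant of the median inequality. -/
noncomputable def medC (C2 C3 CH b2 b3 cR cx : ℝ) : ℝ :=
  (8 * (Real.sqrt C2 + Real.sqrt (C3 * b3) + cR / (cx / (2 * b2)) * Real.sqrt (CH * b3)) /
    (3 * cR)) ^ 2

open Classical in
/-- The live-edge and volume conditions on a block. -/
structure CntOK (M m lam : ℕ) (c1 b1 η1 η2 C2 C3 CH b2 b3 : ℝ) (r1 : ℕ) (q : Cfg d × Cfg d) :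
    Prop where
  cnt : ((LS (BB d M (m * lam)) (8 * lam) q).card : ℝ) ≤ C2 * ((m * lam : ℕ) : ℝ) ^ (d - 6)
  sq : ∑ D ∈ HF (BB d M (m * lam)) q.1, (el (BB d M (m * lam)) (8 * lam) q D : ℝ) ^ 2 ≤
    C3 * ((m * lam : ℕ) : ℝ) ^ (d - 6)
  long : (((LS (BB d M (m * lam)) (8 * lam) q).filter (fun e =>
    Long (BB d M (m * lam)) q.1 (b3 * ((m * lam : ℕ) : ℝ) ^ 2) e.1 ∨
    Long (BB d M (m * lam)) q.1 (b3 * ((m * lam : ℕ) : ℝ) ^ 2) (oth e))).card : ℝ) ≤ r1 / 4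
  fat : (cn {x | b2 * ((m * lam : ℕ) : ℝ) ^ 4 < hs (BB d M (m * lam)) q.1 x}
    (WW d (m * lam)) : ℝ) ≤ η1 * η2 / 16 * ((m * lam : ℕ) : ℝ) ^ (d - 2)
  lv : (cn {x | Long (BB d M (m * lam)) q.1 (b3 * ((m * lam : ℕ) : ℝ) ^ 2) x}
    (WW d (m * lam)) : ℝ) ≤ η1 * η2 / 16 * ((m * lam : ℕ) : ℝ) ^ (d - 2)
  col : (((HF (BB d M (m * lam)) q.1).filter (fun D => ∃ x ∈ D, x ∈ WW d (m * lam) ∧
    x ∈ BG M (m * lam) c1 b1 q.1)).card : ℝ) ≤ CH * ((m * lam : ℕ) : ℝ) ^ (d - 6)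

open Classical in
theorem Med_grad (B : Finset (V d)) (N : ℕ) (q : Cfg d × Cfg d) (GG : Set (V d)) (h : V d → ℝ) :
    ∑ e ∈ (LS B N q).filter (fun e => e.1 ∈ GG), (h (oth e) - h e.1) ^ 2 ≤ EG B q GG h := by
  set g : V d → Dir d → ℝ := fun x σ =>
    if x ∈ GG ∧ x + step σ ∈ B ∧ un q.1 q.2 (edge x σ) = true then
      (h (x + step σ) - h x) ^ 2 else 0 with hgdef
  have hg : ∀ x σ, 0 ≤ g x σ := by
    intro x σ
    simp only [hgdef]
    split_ifs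
    · positivity
    · exact le_rfl
  calc ∑ e ∈ (LS B N q).filter (fun e => e.1 ∈ GG), (h (oth e) - h e.1) ^ 2
      ≤ ∑ e ∈ (LS B N q).filter (fun e => e.1 ∈ GG), g e.1 (e.2, true) := by
        refine Finset.sum_le_sum fun e he => ?_
        rw [Finset.mem_filter, LS, Finset.mem_filter, Finset.mem_product] at he
        obtain ⟨⟨⟨hB, -⟩, hL⟩, hG⟩ := he
        have h1 : e.1 + step (e.2, true) = oth e := by simp [step, oth]
        have h2 : oth e ∈ B := by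
          have := hL.2.1
          exact this.2
        have h3 : un q.1 q.2 (edge e.1 (e.2, true)) = true := by
          rw [un_true]
          right
          have : edge e.1 (e.2, true) = e := by simp [edge]
          rw [this]
          exact hL.1
        simp only [hgdef]
        rw [if_pos ⟨hG, by rw [h1]; exact h2, h3⟩, h1]
    _ ≤ ∑ e ∈ B ×ˢ (Finset.univ : Finset (Fin d)), g e.1 (e.2, true) := by
        refine Finset.sum_le_sum_of_subset_of_nonneg ?_ fun e _ _ => hg _ _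
        intro e he
        rw [Finset.mem_filter, LS, Finset.mem_filter] at he
        exact he.1.1
    _ = ∑ x ∈ B, ∑ i : Fin d, g x (i, true) := by rw [Finset.sum_product]
    _ ≤ ∑ x ∈ B, ∑ σ : Dir d, g x σ := by
        refine Finset.sum_le_sum fun x _ => ?_
        rw [Fintype.sum_prod_type]
        refine Finset.sum_le_sum fun i _ => ?_
        rw [Fintype.sum_bool]
        have := hg x (i, false)
        linarith
    _ = EG B q GG h := rfl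

theorem Med_EG_nonneg (B : Finset (V d)) (q : Cfg d × Cfg d) (GG : Set (V d)) (h : V d → ℝ) :
    0 ≤ EG B q GG h := by
  classical
  unfold EG
  refine Finset.sum_nonneg fun x _ => Finset.sum_nonneg fun σ _ => ?_
  split_ifs
  · positivity
  · exact le_rfl

/-- Cauchy-Schwarz for finite sums with bounds. -/
theorem Med_cs {ι : Type*} (s : Finset ι) (f g : ι → ℝ) {A C X : ℝ} (hA : ∑ i ∈ s, f i ^ 2 ≤ A)
    (hC : ∑ i ∈ s, g i ^ 2 ≤ C) (hX : A * C ≤ X) (hC0 : 0 ≤ C) :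
    ∑ i ∈ s, f i * g i ≤ Real.sqrt X := by
  apply Real.le_sqrt_of_sq_le
  have h0 : 0 ≤ ∑ i ∈ s, f i ^ 2 := Finset.sum_nonneg fun i _ => sq_nonneg _
  have h1 : 0 ≤ ∑ i ∈ s, g i ^ 2 := Finset.sum_nonneg fun i _ => sq_nonneg _
  calc (∑ i ∈ s, f i * g i) ^ 2 ≤ (∑ i ∈ s, f i ^ 2) * ∑ i ∈ s, g i ^ 2 :=
        Finset.sum_mul_sq_le_sq_mul_sq s f g
    _ ≤ A * C := mul_le_mul hA hC h1 (h0.trans hA)
    _ ≤ X := hX

/-- The final computation. -/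
theorem Med_alg {n Lr E Δ r1 cR cN C2 C3 CH b3 G1 G2 G3 : ℝ} (hn : 0 < n) (hL : 1 ≤ Lr)
    (hE : 0 ≤ E) (hΔ : 0 < Δ) (hcR : 0 < cR) (hcN : 0 < cN) (hC2 : 0 < C2) (hC3 : 0 < C3)
    (hCH : 0 < CH) (hb3 : 0 < b3) (hr1 : cR / 2 * n ≤ r1) (hr2 : r1 ≤ cR * n)
    (h1 : G1 ≤ Real.sqrt (C2 * (n * Lr ^ 2 * E)))
    (h2 : G2 ≤ Real.sqrt (C3 * b3 * (n * Lr ^ 2 * E)))
    (h3 : G3 ≤ Real.sqrt (CH * b3 * (n * Lr ^ 2 * E)))
    (hmain : r1 * Δ ≤ G1 + G2 + Δ * (r1 / 4) + r1 / (cN * n) * G3) :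
    Δ ^ 2 ≤ (8 * (Real.sqrt C2 + Real.sqrt (C3 * b3) + cR / cN * Real.sqrt (CH * b3)) /
      (3 * cR)) ^ 2 * Lr ^ 2 / n * E := by
  set X := Real.sqrt (n * Lr ^ 2 * E) with hX
  have hX0 : 0 ≤ X := Real.sqrt_nonneg _
  have hXX : X ^ 2 = n * Lr ^ 2 * E := Real.sq_sqrt (by positivity)
  rw [Real.sqrt_mul hC2.le] at h1
  rw [Real.sqrt_mul (by positivity)] at h2 h3
  rw [← hX] at h1 h2 h3
  set S := Real.sqrt C2 + Real.sqrt (C3 * b3) + cR / cN * Real.sqrt (CH * b3) with hS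
  have hr0 : 0 < r1 := lt_of_lt_of_le (by positivity) hr1
  have h4 : r1 / (cN * n) * G3 ≤ cR / cN * (Real.sqrt (CH * b3) * X) := by
    have ha : r1 / (cN * n) ≤ cR / cN := by
      rw [div_le_div_iff₀ (by positivity) hcN]
      nlinarith
    have hb : 0 ≤ r1 / (cN * n) := by positivity
    calc r1 / (cN * n) * G3 ≤ r1 / (cN * n) * (Real.sqrt (CH * b3) * X) :=
          mul_le_mul_of_nonneg_left h3 hb
      _ ≤ cR / cN * (Real.sqrt (CH * b3) * X) :=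
          mul_le_mul_of_nonneg_right ha (by positivity)
  have h5 : 3 / 8 * cR * n * Δ ≤ S * X := by
    have : 3 / 4 * r1 * Δ ≤ S * X := by
      rw [hS]
      nlinarith
    have h6 : 3 / 8 * cR * n * Δ ≤ 3 / 4 * r1 * Δ := by
      have : 3 / 8 * cR * n ≤ 3 / 4 * r1 := by linarith
      exact mul_le_mul_of_nonneg_right this hΔ.le
    linarith
  have h7 : Δ ≤ 8 * S / (3 * cR) * (X / n) := by
    rw [div_mul_div_comm, le_div_iff₀ (by positivity)]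
    linarith
  calc Δ ^ 2 ≤ (8 * S / (3 * cR) * (X / n)) ^ 2 := by
        exact pow_le_pow_left₀ hΔ.le h7 2
    _ = (8 * S / (3 * cR)) ^ 2 * (X ^ 2 / n ^ 2) := by rw [mul_pow, div_pow X]
    _ = (8 * S / (3 * cR)) ^ 2 * Lr ^ 2 / n * E := by
        rw [hXX]
        field_simp

theorem med {M m lam : ℕ} {c1 b1 cB CB η1 η2 C2 C3 CH b2 b3 cR : ℝ} {r1 : ℕ}
    {q : Cfg d × Cfg d} (hm : 1 ≤ m) (hlam : 1 ≤ lam) (hM : 1 ≤ M) (hd : 7 ≤ d) (hcB : 0 < cB)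
    (hb1 : 0 < b1) (hη1 : 0 < η1) (hη2 : 0 < η2) (hη : η1 * η2 ≤ cB / 4) (hc1 : 16 ≤ c1 * m)
    (hC2 : 0 < C2) (hC3 : 0 < C3) (hCH : 0 < CH) (hb2 : 0 < b2) (hb3 : 0 < b3) (hcR : 0 < cR)
    (hr1 : cR / 2 * ((m * lam : ℕ) : ℝ) ^ (d - 6) ≤ r1)
    (hr2 : (r1 : ℝ) ≤ cR * ((m * lam : ℕ) : ℝ) ^ (d - 6))
    (hmix : MixOK M m lam c1 b1 cB CB η1 η2 q.1) (hr : ROBok M m lam c1 b1 η1 η2 r1 q)
    (hcnt : CntOK M m lam c1 b1 η1 η2 C2 C3 CH b2 b3 r1 q) (x0 : V d) (h : V d → ℝ)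
    (w w' : V d) (hw : nm w ≤ 1) (hw' : nm w' ≤ 1) (μ μ' : ℝ) (hμ : μ < μ')
    (h1 : (cn (BG M (m * lam) c1 b1 q.1) (cube (m * lam) w) : ℝ) ≤
      4 * cn (BG M (m * lam) c1 b1 q.1 ∩ hub (BB d M (m * lam) : Set (V d)) (un q.1 q.2) x0 ∩
        {x | h x ≤ μ}) (cube (m * lam) w))
    (h2 : (cn (BG M (m * lam) c1 b1 q.1) (cube (m * lam) w') : ℝ) ≤
      4 * cn (BG M (m * lam) c1 b1 q.1 ∩ hub (BB d M (m * lam) : Set (V d)) (un q.1 q.2) x0 ∩
        {x | μ' ≤ h x}) (cube (m * lam) w')) :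
    (μ' - μ) ^ 2 ≤ medC C2 C3 CH b2 b3 cR (η1 * η2 / 4) * ((m * lam : ℕ) : ℝ) ^ 2 /
      ((m * lam : ℕ) : ℝ) ^ (d - 6) *
      EG (BB d M (m * lam)) q (hub (BB d M (m * lam) : Set (V d)) (un q.1 q.2) x0) h := by
  classical
  have hL1 : 1 ≤ m * lam := Nat.mul_pos hm hlam
  have hLr : (1 : ℝ) ≤ ((m * lam : ℕ) : ℝ) := by exact_mod_cast hL1
  have hcs : ((HF (BB d M (m * lam)) q.1).filter (fun D =>
      Colb (WW d (m * lam)) (BG M (m * lam) c1 b1 q.1) D ∧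
      Nrm (BB d M (m * lam)) q.1 (b3 * ((m * lam : ℕ) : ℝ) ^ 2)
        (hub (BB d M (m * lam) : Set (V d)) (un q.1 q.2) x0) D)).card ≤
      ((HF (BB d M (m * lam)) q.1).filter (fun D => ∃ x ∈ D, x ∈ WW d (m * lam) ∧
        x ∈ BG M (m * lam) c1 b1 q.1)).card := by
    refine Finset.card_le_card fun D hD => ?_
    rw [Finset.mem_filter] at hD ⊢
    exact ⟨hD.1, hD.2.1⟩
  obtain ⟨hcnt1, hsq, hlong, hfat, hlv, hcol⟩ := hcnt
  have hcol' := (Nat.cast_le (α := ℝ).2 hcs).trans hcol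
  clear hcs hcol
  set Lr : ℝ := ((m * lam : ℕ) : ℝ) with hLrdef
  set B := BB d M (m * lam) with hB
  set GG := hub (B : Set (V d)) (un q.1 q.2) x0 with hGGdef
  set ℓ : ℝ := b3 * Lr ^ 2 with hℓ
  have hLr0 : 0 < Lr := by linarith
  have hn : 0 < Lr ^ (d - 6) := by positivity
  have hGG : ∀ x ∈ GG, ∀ y, Cn (B : Set (V d)) q.1 x y → y ∈ GG := fun x hx y hxy =>
    Cn.trans hx (hxy.mono (fun _ h => h) un_left)
  have hcx : 0 < η1 * η2 / 4 := by positivity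
  have hcN : 0 < η1 * η2 / 4 / (2 * b2) := by positivity
  have hE : 0 ≤ EG B q GG h := Med_EG_nonneg _ _ _ _
  have hr10 : (0 : ℝ) ≤ r1 := Nat.cast_nonneg _
  have key : ∀ a, μ ≤ a → a < μ' → (r1 : ℝ) ≤ ((HaS B (8 * lam) q ℓ GG h a).card : ℝ) +
      r1 / (η1 * η2 / 4 / (2 * b2) * Lr ^ (d - 6)) * (((HF B q.1).filter (fun D =>
        Colb (WW d (m * lam)) (BG M (m * lam) c1 b1 q.1) D ∧ Nrm B q.1 ℓ GG D ∧
        Crs h a D)).card : ℝ) := by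
    intro a ha ha'
    have hcoef : 0 ≤ r1 / (η1 * η2 / 4 / (2 * b2) * Lr ^ (d - 6)) := by positivity
    rcases cut_low hm hlam hM (by omega) hcB hb1 hη1 hη2 hη hc1 hmix hr ℓ x0 h w w' hw hw' μ μ'
      a ha ha' h1 h2 with hc | hc
    · have h5 := cross_cnt (b2 := b2) (cx := η1 * η2 / 4) (ℓ := ℓ) hb2 hL1 GG h a (by omega) hGG
        (by refine hfat.trans (le_of_eq ?_); ring) (by refine hlv.trans (le_of_eq ?_); ring) hc
      have h6 := mul_le_mul_of_nonneg_left h5 hcoef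
      have h7 : r1 / (η1 * η2 / 4 / (2 * b2) * Lr ^ (d - 6)) *
          (η1 * η2 / 4 / (2 * b2) * Lr ^ (d - 6)) = r1 := by
        field_simp
      have h8 : (0 : ℝ) ≤ ((HaS B (8 * lam) q ℓ GG h a).card : ℝ) := Nat.cast_nonneg _
      rw [← hLrdef] at h6
      rw [h7] at h6
      linarith
    · have h5 : (r1 : ℝ) < ((HaS B (8 * lam) q ℓ GG h a).card : ℝ) := by exact_mod_cast hc
      have h6 : 0 ≤ r1 / (η1 * η2 / 4 / (2 * b2) * Lr ^ (d - 6)) * (((HF B q.1).filter (fun D =>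
        Colb (WW d (m * lam)) (BG M (m * lam) c1 b1 q.1) D ∧ Nrm B q.1 ℓ GG D ∧
        Crs h a D)).card : ℝ) := mul_nonneg hcoef (Nat.cast_nonneg _)
      linarith
  obtain ⟨hI1, hI2⟩ := coar_int B (8 * lam) q ℓ GG (WW d (m * lam))
    (BG M (m * lam) c1 b1 q.1) h μ μ'
  have hint := intervalIntegral.integral_mono_on_of_le_Ioo hμ.le intervalIntegrable_const
    (hI1.add (hI2.const_mul (r1 / (η1 * η2 / 4 / (2 * b2) * Lr ^ (d - 6)))))
    (fun a ha => key a ha.1.le ha.2)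
  rw [intervalIntegral.integral_const, intervalIntegral.integral_add hI1
    (hI2.const_mul _), intervalIntegral.integral_const_mul, smul_eq_mul] at hint
  have hc1' := coar1 B (8 * lam) q ℓ GG h hGG μ μ' hμ.le
  have hc2' := coar2 B q ℓ GG (WW d (m * lam)) (BG M (m * lam) c1 b1 q.1) h μ μ' hμ.le
  have hosc := osc_le B q ℓ GG h (by positivity)
  have hmain : r1 * (μ' - μ) ≤
      (∑ e ∈ (LS B (8 * lam) q).filter (fun e => e.1 ∈ GG), 1 * |h (oth e) - h e.1|) +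
      (∑ D ∈ (HF B q.1).filter (fun D => Nrm B q.1 ℓ GG D), (el B (8 * lam) q D : ℝ) * osc h D) +
      (μ' - μ) * (r1 / 4) + r1 / (η1 * η2 / 4 / (2 * b2) * Lr ^ (d - 6)) *
      (∑ D ∈ (HF B q.1).filter (fun D => Colb (WW d (m * lam)) (BG M (m * lam) c1 b1 q.1) D ∧
        Nrm B q.1 ℓ GG D), 1 * osc h D) := by
    have h5 := mul_le_mul_of_nonneg_left hc2'
      (show 0 ≤ r1 / (η1 * η2 / 4 / (2 * b2) * Lr ^ (d - 6)) by positivity)
    have h6 := mul_le_mul_of_nonneg_left hlong (show 0 ≤ μ' - μ by linarith)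
    simp only [one_mul]
    linarith
  unfold medC
  refine Med_alg hn hLr hE (by linarith) hcR hcN hC2 hC3 hCH hb3 hr1 hr2 ?_ ?_ ?_ hmain
  · refine Med_cs _ _ _ (A := C2 * Lr ^ (d - 6)) (C := EG B q GG h) ?_ ?_ ?_ hE
    · simp only [one_pow, Finset.sum_const, nsmul_eq_mul, mul_one]
      refine le_trans ?_ hcnt1
      exact_mod_cast Finset.card_filter_le _ _
    · simp only [sq_abs]
      exact Med_grad B (8 * lam) q GG h
    · have : 1 ≤ Lr ^ 2 := one_le_pow₀ hLr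
      have h6 : 0 ≤ C2 * Lr ^ (d - 6) * EG B q GG h := by positivity
      nlinarith
  · refine Med_cs _ _ _ (A := C3 * Lr ^ (d - 6)) (C := ℓ * EG B q GG h) ?_ hosc ?_ (by positivity)
    · refine le_trans (Finset.sum_le_sum_of_subset_of_nonneg (Finset.filter_subset _ _)
        fun _ _ _ => sq_nonneg _) hsq
    · rw [hℓ]
      apply le_of_eq
      ring
  · refine Med_cs _ _ _ (A := CH * Lr ^ (d - 6)) (C := ℓ * EG B q GG h) ?_ ?_ ?_ (by positivity)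
    · simp only [one_pow, Finset.sum_const, nsmul_eq_mul, mul_one]
      exact hcol'
    · refine le_trans (Finset.sum_le_sum_of_subset_of_nonneg ?_ fun _ _ _ => sq_nonneg _) hosc
      intro D hD
      rw [Finset.mem_filter] at hD ⊢
      exact ⟨hD.1, hD.2.2⟩
    · rw [hℓ]
      apply le_of_eq
      ring

end H95LBS
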