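import Pool.Agent.H95.LBS.RobU
import Pool.Agent.H95.LBS.Thin
import Pool.Agent.H95.LBS.BigP

/-!
PROJECT DS (MP_0d9ad5_pr), JOB DS-Rob. Robust connection (ROB), section 6 of note 2700.
PROOF. `κ1, ηr` of `fresh`; `sampling` with `η0/2` and this `ηr` gives `r0, C4, Ch, m0`; `fresh` with `η3 = b1 η1/16`,
`η4 = η2/4` gives `c'`; `cR = c'/4`, `r1 = floor (cR m^2 n)`, `n = L^(d-6)`. For `ω ∈ SampOK` put `Dn_ω = {η : some pair X, X' as in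
ROBok with no connection in un ω η}` (decreasing, finite dependence). `thin_rm`: `P(SampOK, not ROBok) <= 2^r1 ∫_{SampOK} P_{s/2}(Dn_ω)`;
for `η ∈ Dn_ω` the seeds satisfy `(ω,η) ∈ Vio b` with probability `>= 1/2` (`A = FS ∩ X`, hub-closed, points of
colourable hubs have `hs >= b1 L^4`), so `<= 2^(r1+1) sup_b PP(s/2)(Vio b) <= 2 exp(r1 + 2 Ch n - c' m^2 n)` (`rob_union`). For
`m^2 c' >= 8 Ch` this is `<= 2 exp(-(c'/2) m^2 n) <= η0/2` for `lam` large (`n >= lam`).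
-/

namespace H95LBS

open H5DF H95LBD MeasureTheory

variable {d : ℕ}

lemma Rob_Cn {B : Finset (V d)} {ω ω' : Cfg d} (h : ∀ e ∈ EB B, ω e = ω' e) :
    Cn (B : Set (V d)) ω = Cn (B : Set (V d)) ω' := by
  funext x y
  exact propext ⟨fun hc => hc.congr fun e he => h e (mem_EB.2 he),
    fun hc => hc.congr fun e he => (h e (mem_EB.2 he)).symm⟩

lemma Rob_sub {M L : ℕ} {x : V d} (hx : x ∈ WW d L) :
    Bx x (10 * M * L) ⊆ (BB d M L : Set (V d)) := by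
  intro y hy
  rw [mem_Bx] at hy
  rw [Finset.mem_coe]
  unfold BB
  rw [mem_BF, sub_zero]
  have h1 : nm x ≤ 2 * L := by
    rw [nm_le]
    intro i
    have := mem_WW.1 hx i
    omega
  have h2 := nm_le_add y x
  have h3 : (10 * M + 3) * L = 10 * M * L + 3 * L := by ring
  omega

lemma Rob_big {M L : ℕ} {c1 : ℝ} {ω ω' : Cfg d} {x : V d} (hx : x ∈ WW d L)
    (h : ∀ e ∈ EB (BB d M L), ω e = ω' e) : bigN M L c1 ω x ≤ bigN M L c1 ω' x := by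
  refine BigP_mono0 fun y hy => hy.congr fun e he => h e (mem_EB.2 ?_)
  exact ⟨Rob_sub hx he.1, Rob_sub hx he.2⟩

lemma Rob_BG {M L : ℕ} {c1 b1 : ℝ} {ω ω' : Cfg d} {x : V d} (hx : x ∈ WW d L)
    (h : ∀ e ∈ EB (BB d M L), ω e = ω' e) : x ∈ BG M L c1 b1 ω ↔ x ∈ BG M L c1 b1 ω' := by
  have h1 : bigN M L c1 ω x = bigN M L c1 ω' x :=
    le_antisymm (Rob_big hx h) (Rob_big hx fun e he => (h e he).symm)
  show b1 * (L : ℝ) ^ 4 ≤ bigN M L c1 ω x ↔ b1 * (L : ℝ) ^ 4 ≤ bigN M L c1 ω' x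
  rw [h1]

lemma Rob_BGW {M L : ℕ} {c1 b1 : ℝ} {ω ω' : Cfg d} (h : ∀ e ∈ EB (BB d M L), ω e = ω' e) :
    (BG M L c1 b1 ω ∩ WW d L : Set (V d)) = BG M L c1 b1 ω' ∩ WW d L := by
  ext x
  constructor
  · rintro ⟨h1, h2⟩
    exact ⟨(Rob_BG (Finset.mem_coe.1 h2) h).1 h1, h2⟩
  · rintro ⟨h1, h2⟩
    exact ⟨(Rob_BG (Finset.mem_coe.1 h2) h).2 h1, h2⟩

lemma Rob_cube {m lam : ℕ} {j x : V d} (hj : j ∈ JJ d m) (hx : x ∈ cube lam j) :
    x ∈ WW d (m * lam) := by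
  rw [mem_WW]
  intro i
  have h1 := mem_JJ.1 hj i
  have h2 := mem_cube.1 hx i
  have h3 : (0 : ℤ) ≤ (lam : ℤ) := by positivity
  push_cast
  constructor
  · nlinarith
  · nlinarith

lemma Rob_cn_congr {X Y : Set (V d)} {T : Finset (V d)} (h : ∀ x ∈ T, (x ∈ X ↔ x ∈ Y)) :
    cn X T = cn Y T := by
  unfold cn
  congr 1
  ext x
  simp only [Finset.mem_filter]
  constructor
  · rintro ⟨h1, h2⟩
    exact ⟨h1, (h x h1).1 h2⟩
  · rintro ⟨h1, h2⟩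
    exact ⟨h1, (h x h1).2 h2⟩

lemma Rob_cn {M m lam : ℕ} {c1 b1 : ℝ} {ω ω' : Cfg d} {j : V d} (hj : j ∈ JJ d m)
    (h : ∀ e ∈ EB (BB d M (m * lam)), ω e = ω' e) (X : Set (V d)) :
    cn (X ∩ BG M (m * lam) c1 b1 ω) (cube lam j) = cn (X ∩ BG M (m * lam) c1 b1 ω') (cube lam j) := by
  refine Rob_cn_congr fun x hx => ?_
  have h1 := Rob_BG (c1 := c1) (b1 := b1) (Rob_cube hj hx) h
  constructor
  · rintro ⟨h2, h3⟩
    exact ⟨h2, h1.1 h3⟩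
  · rintro ⟨h2, h3⟩
    exact ⟨h2, h1.2 h3⟩

/-- The pairs considered in `ROBok`. -/
def RobP (M m lam : ℕ) (c1 b1 η1 η2 : ℝ) (ω : Cfg d) (X X' : Set (V d)) : Prop :=
  HubCl (BB d M (m * lam)) ω X ∧ HubCl (BB d M (m * lam)) ω X' ∧
    Colr (BB d M (m * lam)) ω (BG M (m * lam) c1 b1 ω ∩ WW d (m * lam)) X ∧
    Colr (BB d M (m * lam)) ω (BG M (m * lam) c1 b1 ω ∩ WW d (m * lam)) X' ∧
    Disjoint X X' ∧ Bich m lam (BG M (m * lam) c1 b1 ω) (η1 / 2) (η2 / 2) X X'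

lemma Rob_P {M m lam : ℕ} {c1 b1 η1 η2 : ℝ} {ω ω' : Cfg d}
    (h : ∀ e ∈ EB (BB d M (m * lam)), ω e = ω' e) {X X' : Set (V d)}
    (hP : RobP M m lam c1 b1 η1 η2 ω X X') : RobP M m lam c1 b1 η1 η2 ω' X X' := by
  classical
  have hC := Rob_Cn h
  have hB := Rob_BGW (c1 := c1) (b1 := b1) h
  obtain ⟨h1, h2, h3, h4, h5, h6⟩ := hP
  refine ⟨?_, ?_, ?_, ?_, h5, ?_⟩
  · unfold HubCl at h1 ⊢
    rw [← hC]
    exact h1
  · unfold HubCl at h2 ⊢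
    rw [← hC]
    exact h2
  · unfold Colr at h3 ⊢
    rw [← hC, ← hB]
    exact h3
  · unfold Colr at h4 ⊢
    rw [← hC, ← hB]
    exact h4
  · unfold Bich at h6 ⊢
    refine le_trans h6 (le_of_eq ?_)
    congr 2
    refine Finset.filter_congr fun j hj => ?_
    rw [Rob_cn hj h X, Rob_cn hj h X']

lemma Rob_hs_congr {B : Finset (V d)} {ω ω' : Cfg d} (h : ∀ e ∈ EB B, ω e = ω' e) :
    hs B ω = hs B ω' := by
  funext x
  unfold hs hub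
  rw [Rob_Cn h]

lemma Rob_FS {B : Finset (V d)} {ω ω' : Cfg d} {b b' : V d → Bool}
    (h : ∀ e ∈ EB B, ω e = ω' e) (hb : ∀ x ∈ B, b x = b' x) : FS B ω b = FS B ω' b' := by
  classical
  unfold FS
  rw [Rob_Cn h]
  refine Finset.filter_congr fun y _ => ?_
  constructor
  · rintro ⟨x, hx, h1, h2⟩
    exact ⟨x, hx, (hb x hx) ▸ h1, h2⟩
  · rintro ⟨x, hx, h1, h2⟩
    exact ⟨x, hx, (hb x hx).symm ▸ h1, h2⟩

lemma Rob_cnb {B : Finset (V d)} {ω ω' : Cfg d} {b b' : V d → Bool} (t : ℝ)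
    (h : ∀ e ∈ EB B, ω e = ω' e) (hb : ∀ x ∈ B, b x = b' x) :
    cn {x | b x = true ∧ t ≤ hs B ω x} B = cn {x | b' x = true ∧ t ≤ hs B ω' x} B := by
  rw [Rob_hs_congr h]
  refine Rob_cn_congr fun x hx => ?_
  simp only [Set.mem_ofPred_eq, hb x hx]

/-- The good seeds. -/
def RobG (M m lam r0 : ℕ) (b1 η1 η2 ηr C4 Ch : ℝ) (ω : Cfg d) (X X' : Set (V d))
    (b : V d → Bool) : Prop :=
  ∃ F A A' : Finset (V d), F = FS (BB d M (m * lam)) ω b ∧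
    (∀ x, x ∈ A ↔ x ∈ F ∧ x ∈ X) ∧ (∀ x, x ∈ A' ↔ x ∈ F ∧ x ∈ X') ∧
    (cn {x | b x = true ∧ b1 * ((m * lam : ℕ) : ℝ) ^ 4 ≤ hs (BB d M (m * lam)) ω x}
        (BB d M (m * lam)) : ℝ) ≤ Ch * ((m * lam : ℕ) : ℝ) ^ (d - 6) ∧
      Good M m lam r0 ηr (b1 * η1 / 16) (η2 / 4) C4 F A A'

lemma Rob_Samp {M m lam r0 : ℕ} {c1 b1 η1 η2 ηr C4 Ch : ℝ} {ω : Cfg d} :
    SampOK M m lam r0 c1 b1 η1 η2 ηr C4 Ch ω ↔ ∀ X X' : Set (V d),
      RobP M m lam c1 b1 η1 η2 ω X X' → 1 / 2 ≤ (seedM d (1 / ((m * lam : ℕ) : ℝ) ^ 4)).real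
        {b | RobG M m lam r0 b1 η1 η2 ηr C4 Ch ω X X' b} := by
  classical
  have key : ∀ X X' : Set (V d), {b | RobG M m lam r0 b1 η1 η2 ηr C4 Ch ω X X' b} = {b |
      (cn {x | b x = true ∧ b1 * ((m * lam : ℕ) : ℝ) ^ 4 ≤ hs (BB d M (m * lam)) ω x}
        (BB d M (m * lam)) : ℝ) ≤ Ch * ((m * lam : ℕ) : ℝ) ^ (d - 6) ∧
      Good M m lam r0 ηr (b1 * η1 / 16) (η2 / 4) C4 (FS (BB d M (m * lam)) ω b)
        ((FS (BB d M (m * lam)) ω b).filter (fun x => x ∈ X))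
        ((FS (BB d M (m * lam)) ω b).filter (fun x => x ∈ X'))} := by
    intro X X'
    ext b
    constructor
    · rintro ⟨F, A, A', rfl, hA, hA', h1, h2⟩
      have e1 : A = (FS (BB d M (m * lam)) ω b).filter (fun x => x ∈ X) := by
        ext x
        rw [hA, Finset.mem_filter]
      have e2 : A' = (FS (BB d M (m * lam)) ω b).filter (fun x => x ∈ X') := by
        ext x
        rw [hA', Finset.mem_filter]
      rw [e1, e2] at h2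
      exact ⟨h1, h2⟩
    · rintro ⟨h1, h2⟩
      exact ⟨_, _, _, rfl, fun x => Finset.mem_filter, fun x => Finset.mem_filter, h1, h2⟩
  constructor
  · intro h X X' hP
    rw [key]
    obtain ⟨h1, h2, h3, h4, h5, h6⟩ := hP
    convert h X X' h1 h2 h3 h4 h5 h6
  · intro h X X' h1 h2 h3 h4 h5 h6
    have h7 := h X X' ⟨h1, h2, h3, h4, h5, h6⟩
    rw [key] at h7
    convert h7

lemma Rob_G {M m lam r0 : ℕ} {b1 η1 η2 ηr C4 Ch : ℝ} {ω ω' : Cfg d}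
    (h : ∀ e ∈ EB (BB d M (m * lam)), ω e = ω' e) {X X' : Set (V d)} {b : V d → Bool}
    (hG : RobG M m lam r0 b1 η1 η2 ηr C4 Ch ω X X' b) :
    RobG M m lam r0 b1 η1 η2 ηr C4 Ch ω' X X' b := by
  obtain ⟨F, A, A', hF, hA, hA', h1, h2⟩ := hG
  refine ⟨F, A, A', ?_, hA, hA', ?_, h2⟩
  · rw [hF]
    exact Rob_FS h fun _ _ => rfl
  · rw [← Rob_cnb _ h fun _ _ => rfl]
    exact h1

lemma Rob_SampOK {M m lam r0 : ℕ} {c1 b1 η1 η2 ηr C4 Ch : ℝ} {ω ω' : Cfg d}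
    (h : ∀ e ∈ EB (BB d M (m * lam)), ω e = ω' e)
    (hS : SampOK M m lam r0 c1 b1 η1 η2 ηr C4 Ch ω) :
    SampOK M m lam r0 c1 b1 η1 η2 ηr C4 Ch ω' := by
  have h' : ∀ e ∈ EB (BB d M (m * lam)), ω' e = ω e := fun e he => (h e he).symm
  rw [Rob_Samp] at hS ⊢
  intro X X' hP
  have h1 := hS X X' (Rob_P h' hP)
  have h2 : {b | RobG M m lam r0 b1 η1 η2 ηr C4 Ch ω X X' b} =
      {b | RobG M m lam r0 b1 η1 η2 ηr C4 Ch ω' X X' b} := by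
    ext b
    exact ⟨fun hb => Rob_G h hb, fun hb => Rob_G h' hb⟩
  rwa [h2] at h1

/-- A pair without connection. -/
def RobD (M m lam : ℕ) (c1 b1 η1 η2 : ℝ) (q : Cfg d × Cfg d) : Prop :=
  ∃ X X' : Set (V d), RobP M m lam c1 b1 η1 η2 q.1 X X' ∧
    ∀ x ∈ X, ∀ y ∈ X', ¬ Cn (BB d M (m * lam) : Set (V d)) (un q.1 q.2) x y

lemma Rob_un {B : Finset (V d)} {q q' : Cfg d × Cfg d}
    (h : ∀ e ∈ EB B, q.1 e = q'.1 e ∧ q.2 e = q'.2 e) :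
    ∀ e ∈ EB B, un q.1 q.2 e = un q'.1 q'.2 e := by
  intro e he
  simp only [un, (h e he).1, (h e he).2]

lemma Rob_D {M m lam : ℕ} {c1 b1 η1 η2 : ℝ} {q q' : Cfg d × Cfg d}
    (h : ∀ e ∈ EB (BB d M (m * lam)), q.1 e = q'.1 e ∧ q.2 e = q'.2 e)
    (hq : RobD M m lam c1 b1 η1 η2 q) : RobD M m lam c1 b1 η1 η2 q' := by
  obtain ⟨X, X', hP, hn⟩ := hq
  refine ⟨X, X', Rob_P (fun e he => (h e he).1) hP, ?_⟩
  rw [← Rob_Cn (Rob_un h)]
  exact hn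

lemma Rob_ok {M m lam : ℕ} {c1 b1 η1 η2 : ℝ} {r1 : ℕ} {q : Cfg d × Cfg d}
    (hq : ¬ ROBok M m lam c1 b1 η1 η2 r1 q) : ∃ Hs : Finset (Ed d), Hs.card ≤ r1 ∧
      RobD M m lam c1 b1 η1 η2 (q.1, fun e => q.2 e && !decide (e ∈ Hs)) := by
  classical
  unfold ROBok at hq
  push Not at hq
  obtain ⟨X, X', h1, h2, h3, h4, h5, h6, Hs, h7, h8⟩ := hq
  refine ⟨Hs, h7, X, X', ⟨h1, h2, h3, h4, h5, h6⟩, ?_⟩
  intro x hx y hy hc
  refine h8 x hx y hy ?_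
  convert hc

lemma Rob_ok_dep {M m lam : ℕ} {c1 b1 η1 η2 : ℝ} {r1 : ℕ} {q q' : Cfg d × Cfg d}
    (h : ∀ e ∈ EB (BB d M (m * lam)), q.1 e = q'.1 e ∧ q.2 e = q'.2 e)
    (hq : ROBok M m lam c1 b1 η1 η2 r1 q) : ROBok M m lam c1 b1 η1 η2 r1 q' := by
  classical
  intro X X' h1 h2 h3 h4 h5 h6 Hs h7
  have h' : ∀ e ∈ EB (BB d M (m * lam)), q'.1 e = q.1 e := fun e he => (h e he).1.symm
  obtain ⟨g1, g2, g3, g4, g5, g6⟩ := Rob_P h' (X := X) (X' := X') ⟨h1, h2, h3, h4, h5, h6⟩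
  obtain ⟨x, hx, y, hy, hc⟩ := hq X X' g1 g2 g3 g4 g5 g6 Hs h7
  refine ⟨x, hx, y, hy, hc.congr fun e he => ?_⟩
  have h8 := h e (mem_EB.2 he)
  simp only [un, h8.1, h8.2]

lemma Rob_bigN_hs {M L : ℕ} {c1 : ℝ} {ω : Cfg d} {x : V d} (hx : x ∈ WW d L) :
    bigN M L c1 ω x ≤ hs (BB d M L) ω x := by
  classical
  unfold bigN hs cn
  refine Finset.card_le_card fun y hy => ?_
  rw [Finset.mem_filter] at hy ⊢
  have hc : Cn (BB d M L : Set (V d)) ω x y := hy.2.2.mono (Rob_sub hx) fun _ h => h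
  exact ⟨Finset.mem_coe.1 (hc.mem (Finset.mem_coe.2 (WW_sub_BB hx))), hc⟩

lemma Rob_hs_eq {B : Finset (V d)} {ω : Cfg d} {x y : V d} (h : Cn (B : Set (V d)) ω x y) :
    hs B ω x = hs B ω y := by
  unfold hs
  rw [hub_eq (mem_hub.2 h)]

lemma Rob_hub {B : Finset (V d)} {ω : Cfg d} {b : V d → Bool} {X : Set (V d)}
    {A : Finset (V d)} (hX : HubCl B ω X) (hA : ∀ x, x ∈ A ↔ x ∈ FS B ω b ∧ x ∈ X) :
    HubCl B ω (A : Set (V d)) := by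
  classical
  constructor
  · intro x hx
    exact hX.1 ((hA x).1 (Finset.mem_coe.1 hx)).2
  · intro x hx y hc
    obtain ⟨h1, h2⟩ := (hA x).1 (Finset.mem_coe.1 hx)
    rw [Finset.mem_coe, hA]
    refine ⟨?_, hX.2 x h2 y hc⟩
    unfold FS at h1 ⊢
    rw [Finset.mem_filter] at h1 ⊢
    obtain ⟨h3, z, hz, hz1, hz2⟩ := h1
    exact ⟨Finset.mem_coe.1 (hc.mem (Finset.mem_coe.2 h3)), z, hz, hz1, hz2.trans hc⟩

lemma Rob_hs_ge {M L : ℕ} {c1 b1 : ℝ} {ω : Cfg d} {X : Set (V d)} {x : V d} (hx : x ∈ X)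
    (hX : Colr (BB d M L) ω (BG M L c1 b1 ω ∩ WW d L) X) :
    b1 * (L : ℝ) ^ 4 ≤ hs (BB d M L) ω x := by
  obtain ⟨y, hy, hc⟩ := hX x hx
  rw [Rob_hs_eq hc]
  have h1 : b1 * (L : ℝ) ^ 4 ≤ bigN M L c1 ω y := hy.1
  have h2 : (bigN M L c1 ω y : ℝ) ≤ hs (BB d M L) ω y := by
    exact_mod_cast Rob_bigN_hs (Finset.mem_coe.1 hy.2)
  exact le_trans h1 h2

lemma Rob_vio {M m lam r0 : ℕ} {c1 b1 η1 η2 ηr C4 Ch : ℝ} {ω η : Cfg d} {X X' : Set (V d)}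
    {b : V d → Bool} (hP : RobP M m lam c1 b1 η1 η2 ω X X')
    (hn : ∀ x ∈ X, ∀ y ∈ X', ¬ Cn (BB d M (m * lam) : Set (V d)) (un ω η) x y)
    (hG : RobG M m lam r0 b1 η1 η2 ηr C4 Ch ω X X' b) :
    (ω, η) ∈ Vio M m lam r0 b1 ηr (b1 * η1 / 16) (η2 / 4) C4 Ch b := by
  obtain ⟨F, A, A', hF, hA, hA', h1, h2⟩ := hG
  subst hF
  refine ⟨h1, A, A', Rob_hub hP.1 hA, Rob_hub hP.2.1 hA', ?_, ?_, h2, ?_⟩
  · intro x hx
    exact Rob_hs_ge ((hA x).1 hx).2 hP.2.2.1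
  · intro x hx
    exact Rob_hs_ge ((hA' x).1 hx).2 hP.2.2.2.1
  · intro x hx y hy
    exact hn x ((hA x).1 hx).2 y ((hA' y).1 hy).2

lemma Rob_vio_dep {M m lam r0 : ℕ} {b1 ηr η3 η4 C4 Ch : ℝ} {q q' : Cfg d × Cfg d}
    {b b' : V d → Bool}
    (h : ∀ e ∈ EB (BB d M (m * lam)), q.1 e = q'.1 e ∧ q.2 e = q'.2 e)
    (hb : ∀ x ∈ BB d M (m * lam), b x = b' x)
    (hv : q ∈ Vio M m lam r0 b1 ηr η3 η4 C4 Ch b) : q' ∈ Vio M m lam r0 b1 ηr η3 η4 C4 Ch b' := by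
  have h1 : ∀ e ∈ EB (BB d M (m * lam)), q.1 e = q'.1 e := fun e he => (h e he).1
  obtain ⟨g1, A, A', g2, g3, g4, g5, g6, g7⟩ := hv
  refine ⟨?_, A, A', ?_, ?_, ?_, ?_, ?_, ?_⟩
  · rw [← Rob_cnb _ h1 hb]
    exact g1
  · unfold HubCl at g2 ⊢
    rw [← Rob_Cn h1]
    exact g2
  · unfold HubCl at g3 ⊢
    rw [← Rob_Cn h1]
    exact g3
  · rw [← Rob_hs_congr h1]
    exact g4
  · rw [← Rob_hs_congr h1]
    exact g5
  · rw [← Rob_FS h1 hb]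
    exact g6
  · unfold NCn at g7 ⊢
    rw [Set.mem_ofPred_eq] at g7 ⊢
    rw [← Rob_Cn (Rob_un h)]
    exact g7

lemma Rob_meas3 (F : Finset (Ed d)) (K : Finset (V d)) (E : Set ((Cfg d × Cfg d) × (V d → Bool)))
    (hdep : ∀ z z' : (Cfg d × Cfg d) × (V d → Bool),
      (∀ e ∈ F, z.1.1 e = z'.1.1 e ∧ z.1.2 e = z'.1.2 e) → (∀ x ∈ K, z.2 x = z'.2 x) →
      z ∈ E → z' ∈ E) : MeasurableSet E := by
  have hm : Measurable (fun z : (Cfg d × Cfg d) × (V d → Bool) =>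
      ((fun e : F => z.1.1 e, fun e : F => z.1.2 e, fun x : K => z.2 x) :
        (F → Bool) × (F → Bool) × (K → Bool))) := by
    refine Measurable.prodMk ?_ (Measurable.prodMk ?_ ?_)
    · exact measurable_pi_iff.2 fun e : F =>
        (measurable_pi_apply _).comp (measurable_fst.comp measurable_fst)
    · exact measurable_pi_iff.2 fun e : F =>
        (measurable_pi_apply _).comp (measurable_snd.comp measurable_fst)
    · exact measurable_pi_iff.2 fun x : K => (measurable_pi_apply _).comp measurable_snd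
  have hE : E = (fun z : (Cfg d × Cfg d) × (V d → Bool) =>
      ((fun e : F => z.1.1 e, fun e : F => z.1.2 e, fun x : K => z.2 x) :
        (F → Bool) × (F → Bool) × (K → Bool))) ⁻¹'
      ((fun z : (Cfg d × Cfg d) × (V d → Bool) =>
      ((fun e : F => z.1.1 e, fun e : F => z.1.2 e, fun x : K => z.2 x) :
        (F → Bool) × (F → Bool) × (K → Bool))) '' E) := by
    refine Set.Subset.antisymm (Set.subset_preimage_image _ _) ?_
    rintro z ⟨z', hz', h⟩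
    rw [Prod.mk.injEq, Prod.mk.injEq] at h
    exact hdep z' z (fun e he => ⟨congrFun h.1 ⟨e, he⟩, congrFun h.2.1 ⟨e, he⟩⟩)
      (fun x hx => congrFun h.2.2 ⟨x, hx⟩) hz'
  rw [hE]
  exact hm (Set.toFinite _).measurableSet

/-- First step: thinning. -/
lemma Rob_thin {M m lam r0 : ℕ} {c1 b1 η1 η2 ηr C4 Ch p0 s : ℝ} (hp0 : 0 ≤ p0) (hp1 : p0 ≤ 1)
    (hs0 : 0 ≤ s) (hs1 : s ≤ 1) (r1 : ℕ) :
    PP d p0 s {q | SampOK M m lam r0 c1 b1 η1 η2 ηr C4 Ch q.1 ∧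
      ¬ ROBok M m lam c1 b1 η1 η2 r1 q} ≤ ENNReal.ofReal (2 ^ r1) *
      PP d p0 (s / 2) {q | SampOK M m lam r0 c1 b1 η1 η2 ηr C4 Ch q.1 ∧
        RobD M m lam c1 b1 η1 η2 q} := by
  have hPp := isProb_perc (d := d) p0 hp0 hp1
  have hPs := isProb_perc (d := d) s hs0 hs1
  have hPs2 := isProb_perc (d := d) (s / 2) (by linarith) (by linarith)
  set E1 : Set (Cfg d × Cfg d) := {q | SampOK M m lam r0 c1 b1 η1 η2 ηr C4 Ch q.1 ∧
      ¬ ROBok M m lam c1 b1 η1 η2 r1 q} with hE1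
  set E2 : Set (Cfg d × Cfg d) := {q | SampOK M m lam r0 c1 b1 η1 η2 ηr C4 Ch q.1 ∧
        RobD M m lam c1 b1 η1 η2 q} with hE2
  have hm1 : MeasurableSet E1 := by
    refine meas_dep2 (EB (BB d M (m * lam))) _ ?_
    rintro q q' h ⟨h1, h2⟩
    refine ⟨Rob_SampOK (fun e he => (h e he).1) h1, fun h3 => h2 ?_⟩
    exact Rob_ok_dep (fun e he => ⟨(h e he).1.symm, (h e he).2.symm⟩) h3
  have hm2 : MeasurableSet E2 := by
    refine meas_dep2 (EB (BB d M (m * lam))) _ ?_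
    rintro q q' h ⟨h1, h2⟩
    exact ⟨Rob_SampOK (fun e he => (h e he).1) h1, Rob_D h h2⟩
  unfold PP
  rw [Measure.prod_apply hm1, Measure.prod_apply hm2,
    ← lintegral_const_mul _ (measurable_measure_prodMk_left hm2)]
  refine lintegral_mono fun ω => ?_
  by_cases hω : SampOK M m lam r0 c1 b1 η1 η2 ηr C4 Ch ω
  · have hm3 : MeasurableSet (Prod.mk ω ⁻¹' E2) := measurable_prodMk_left hm2
    have hdec : ∀ η η' : Cfg d, (∀ e, η' e = true → η e = true) → η ∈ Prod.mk ω ⁻¹' E2 →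
        η' ∈ Prod.mk ω ⁻¹' E2 := by
      rintro η η' h ⟨h1, X, X', hP, hn⟩
      refine ⟨h1, X, X', hP, fun x hx y hy hc => hn x hx y hy (hc.mono (fun _ h => h) ?_)⟩
      intro e he
      rw [un_true] at he ⊢
      exact he.imp id (h e)
    have h1 := thin_rm hs0 hs1 (Prod.mk ω ⁻¹' E2) hm3 hdec r1
    have h2 : Prod.mk ω ⁻¹' E1 ⊆ {η | ∃ Hs : Finset (Ed d), Hs.card ≤ r1 ∧
        (fun e => η e && !decide (e ∈ Hs)) ∈ Prod.mk ω ⁻¹' E2} := by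
      rintro η ⟨-, h3⟩
      obtain ⟨Hs, h4, h5⟩ := Rob_ok h3
      exact ⟨Hs, h4, hω, h5⟩
    refine le_trans (measure_mono h2) ?_
    rw [← ENNReal.ofReal_toReal (measure_ne_top (perc d s) _)]
    refine le_trans (ENNReal.ofReal_le_ofReal h1) ?_
    rw [ENNReal.ofReal_mul (by positivity)]
    unfold Measure.real
    rw [ENNReal.ofReal_toReal (measure_ne_top _ _)]
  · have h1 : Prod.mk ω ⁻¹' E1 = ∅ := by
      ext η
      simp only [hE1, Set.mem_preimage, Set.mem_ofPred_eq, Set.mem_empty_iff_false, iff_false]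
      exact fun h => hω h.1
    rw [h1, measure_empty]
    exact zero_le

/-- Second step: seeds. -/
lemma Rob_seed {M m lam r0 : ℕ} {c1 b1 η1 η2 ηr C4 Ch p0 s X0 : ℝ} (hp0 : 0 ≤ p0) (hp1 : p0 ≤ 1)
    (hs0 : 0 ≤ s) (hs1 : s ≤ 1) (hL : 1 ≤ m * lam)
    (hv : ∀ b : V d → Bool, (PP d p0 s).real
      (Vio M m lam r0 b1 ηr (b1 * η1 / 16) (η2 / 4) C4 Ch b) ≤ X0) :
    PP d p0 s {q | SampOK M m lam r0 c1 b1 η1 η2 ηr C4 Ch q.1 ∧
        RobD M m lam c1 b1 η1 η2 q} ≤ ENNReal.ofReal (2 * X0) := by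
  have hL1 : (1 : ℝ) ≤ ((m * lam : ℕ) : ℝ) ^ 4 := one_le_pow₀ (by exact_mod_cast hL)
  have hρ0 : (0 : ℝ) ≤ 1 / ((m * lam : ℕ) : ℝ) ^ 4 := by positivity
  have hρ1 : 1 / ((m * lam : ℕ) : ℝ) ^ 4 ≤ 1 := by
    rw [div_le_one (by linarith)]
    exact hL1
  have hD := isProb_seed (d := d) hρ0 hρ1
  have hPP := isProb_PP (d := d) hp0 hp1 hs0 hs1
  set D := seedM d (1 / ((m * lam : ℕ) : ℝ) ^ 4) with hDdef
  set E2 : Set (Cfg d × Cfg d) := {q | SampOK M m lam r0 c1 b1 η1 η2 ηr C4 Ch q.1 ∧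
        RobD M m lam c1 b1 η1 η2 q} with hE2
  have hm2 : MeasurableSet E2 := by
    refine meas_dep2 (EB (BB d M (m * lam))) _ ?_
    rintro q q' h ⟨h1, h2⟩
    exact ⟨Rob_SampOK (fun e he => (h e he).1) h1, Rob_D h h2⟩
  set Gr : Set ((Cfg d × Cfg d) × (V d → Bool)) :=
    {z | z.1 ∈ Vio M m lam r0 b1 ηr (b1 * η1 / 16) (η2 / 4) C4 Ch z.2} with hGr
  have hmG : MeasurableSet Gr := by
    refine Rob_meas3 (EB (BB d M (m * lam))) (BB d M (m * lam)) _ ?_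
    intro z z' h1 h2 h3
    exact Rob_vio_dep h1 h2 h3
  have h1 : ENNReal.ofReal (1 / 2) * PP d p0 s E2 ≤ ((PP d p0 s).prod D) Gr := by
    rw [Measure.prod_apply hmG, ← setLIntegral_const]
    refine le_trans (setLIntegral_mono' hm2 fun q hq => ?_) (setLIntegral_le_lintegral E2 _)
    obtain ⟨hS, X, X', hP, hn⟩ := hq
    rw [Rob_Samp] at hS
    have h2 := hS X X' hP
    have h3 : {b | RobG M m lam r0 b1 η1 η2 ηr C4 Ch q.1 X X' b} ⊆ Prod.mk q ⁻¹' Gr := by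
      intro b hb
      exact Rob_vio hP hn hb
    refine le_trans ?_ (measure_mono h3)
    refine le_trans (ENNReal.ofReal_le_ofReal h2) ?_
    unfold Measure.real
    exact ENNReal.ofReal_toReal_le
  have h2 : ((PP d p0 s).prod D) Gr ≤ ENNReal.ofReal X0 := by
    rw [Measure.prod_apply_symm hmG]
    calc ∫⁻ b, PP d p0 s ((fun q => (q, b)) ⁻¹' Gr) ∂D ≤ ∫⁻ _, ENNReal.ofReal X0 ∂D := by
          refine lintegral_mono fun b => ?_
          have h3 := hv b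
          have h4 : (fun q => (q, b)) ⁻¹' Gr =
              Vio M m lam r0 b1 ηr (b1 * η1 / 16) (η2 / 4) C4 Ch b := rfl
          show PP d p0 s ((fun q => (q, b)) ⁻¹' Gr) ≤ ENNReal.ofReal X0
          rw [h4, ← ENNReal.ofReal_toReal (measure_ne_top (PP d p0 s) _)]
          exact ENNReal.ofReal_le_ofReal h3
      _ = ENNReal.ofReal X0 := by simp
  have h3 := le_trans h1 h2
  calc PP d p0 s E2 = ENNReal.ofReal 2 * (ENNReal.ofReal (1 / 2) * PP d p0 s E2) := by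
        rw [← mul_assoc, ← ENNReal.ofReal_mul (by norm_num)]
        norm_num
    _ ≤ ENNReal.ofReal 2 * ENNReal.ofReal X0 := by gcongr
    _ = ENNReal.ofReal (2 * X0) := (ENNReal.ofReal_mul (by norm_num)).symm

theorem rob {p0 A cM : ℝ} {M : ℕ} (H : Crit d p0 A cM M) : ∃ κ1 : ℝ, 0 < κ1 ∧
    ∀ (η0 c1 b1 η1 η2 κ : ℝ), 0 < η0 → 0 < c1 → 0 < b1 → b1 ≤ 1 / 2 → 0 < η1 → η1 ≤ 1 → 0 < η2 →
      η2 ≤ 1 → 0 < κ → κ ≤ κ1 → ∃ (cR : ℝ) (m0 : ℕ), 0 < cR ∧ ∀ m : ℕ, m0 ≤ m →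
        ∃ lam0 : ℕ, ∀ (lam : ℕ) (s : ℝ), lam0 ≤ lam → κ ^ 2 / 2 ≤ s * (lam : ℝ) ^ 2 →
          s * (lam : ℝ) ^ 2 ≤ κ ^ 2 → (PP d p0 s).real {q | ¬ ROBok M m lam c1 b1 η1 η2
            ⌊cR * (m : ℝ) ^ 2 * ((m * lam : ℕ) : ℝ) ^ (d - 6)⌋₊ q} ≤ η0 := by
  obtain ⟨κ1, ηr, hκ1, hηr, hηr1, hfresh⟩ := fresh H
  refine ⟨κ1, hκ1, ?_⟩
  intro η0 c1 b1 η1 η2 κ hη0 hc1 hb1 hb1' hη1 hη1' hη2 hη2' hκ hκ'
  obtain ⟨r0, C4, Ch, m0, hr0, hC4, hCh, hsamp⟩ := sampling H (η0 / 2) c1 b1 η1 η2 ηr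
    (by linarith) hc1 hb1 hb1' hη1 hη1' hη2 hη2' hηr
  obtain ⟨c', hc', hfr⟩ := hfresh r0 (b1 * η1 / 16) (η2 / 4) C4 κ hr0 (by positivity)
    (by positivity) hC4 hκ hκ'
  refine ⟨c' / 4, max m0 (⌈8 * Ch / c'⌉₊ + 1), by positivity, ?_⟩
  intro m hm
  have hm0 : m0 ≤ m := le_trans (le_max_left _ _) hm
  have hm1 : ⌈8 * Ch / c'⌉₊ + 1 ≤ m := le_trans (le_max_right _ _) hm
  have hm2 : 1 ≤ m := by omega
  have hmR : (1 : ℝ) ≤ m := by exact_mod_cast hm2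
  have hm3 : 8 * Ch ≤ c' * (m : ℝ) ^ 2 := by
    have h1 : 8 * Ch / c' ≤ (⌈8 * Ch / c'⌉₊ : ℝ) := Nat.le_ceil _
    have h2 : ((⌈8 * Ch / c'⌉₊ + 1 : ℕ) : ℝ) ≤ m := by exact_mod_cast hm1
    push_cast at h2
    have h3 : 8 * Ch / c' ≤ (m : ℝ) ^ 2 := by nlinarith
    rw [div_le_iff₀ hc'] at h3
    linarith
  obtain ⟨l1, hl1⟩ := hsamp m hm0
  obtain ⟨l2, hl2⟩ := hfr m hm2
  refine ⟨max (max l1 l2) (max (⌈κ⌉₊ + 1) (⌈8 / (c' * η0)⌉₊ + 1)), ?_⟩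
  intro lam s hlam hs1 hs2
  have hlam1 : l1 ≤ lam := le_trans (le_max_left _ _) (le_trans (le_max_left _ _) hlam)
  have hlam2 : l2 ≤ lam := le_trans (le_max_right _ _) (le_trans (le_max_left _ _) hlam)
  have hlam3 : ⌈κ⌉₊ + 1 ≤ lam := le_trans (le_max_left _ _) (le_trans (le_max_right _ _) hlam)
  have hlam4 : ⌈8 / (c' * η0)⌉₊ + 1 ≤ lam :=
    le_trans (le_max_right _ _) (le_trans (le_max_right _ _) hlam)
  have hlam5 : 1 ≤ lam := by omega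
  have hlR : (1 : ℝ) ≤ lam := by exact_mod_cast hlam5
  have hκl : κ ≤ lam := by
    have h1 : κ ≤ (⌈κ⌉₊ : ℝ) := Nat.le_ceil _
    have h2 : ((⌈κ⌉₊ + 1 : ℕ) : ℝ) ≤ lam := by exact_mod_cast hlam3
    push_cast at h2
    linarith
  have h8l : 8 / (c' * η0) ≤ lam := by
    have h1 : 8 / (c' * η0) ≤ (⌈8 / (c' * η0)⌉₊ : ℝ) := Nat.le_ceil _
    have h2 : ((⌈8 / (c' * η0)⌉₊ + 1 : ℕ) : ℝ) ≤ lam := by exact_mod_cast hlam4
    push_cast at h2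
    linarith
  have hs0 : 0 ≤ s := by
    have h1 : 0 ≤ s * (lam : ℝ) ^ 2 := le_trans (by positivity) hs1
    exact nonneg_of_mul_nonneg_left h1 (by positivity)
  have hs3 : s ≤ 1 := by
    have h1 : s * (lam : ℝ) ^ 2 ≤ 1 * (lam : ℝ) ^ 2 := by nlinarith
    exact le_of_mul_le_mul_right h1 (by positivity)
  have hL : 1 ≤ m * lam := Nat.mul_pos (by omega) (by omega)
  set n : ℝ := ((m * lam : ℕ) : ℝ) ^ (d - 6) with hn
  have hd := H.hd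
  have hn0 : (lam : ℝ) ≤ n := by
    have h1 : (1 : ℝ) ≤ ((m * lam : ℕ) : ℝ) := by exact_mod_cast hL
    have h2 : ((m * lam : ℕ) : ℝ) ≤ n := by
      rw [hn]
      exact le_self_pow₀ h1 (by omega)
    have h3 : (lam : ℝ) ≤ ((m * lam : ℕ) : ℝ) := by
      push_cast
      nlinarith
    linarith
  have hn1 : 0 < n := by linarith
  set r1 : ℕ := ⌊c' / 4 * (m : ℝ) ^ 2 * n⌋₊ with hr1
  have hp0 := H.hp0.le
  have hp1 := H.hp1.le
  have hPP := isProb_PP (d := d) hp0 hp1 hs0 hs3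
  have hPP2 := isProb_PP (d := d) (s := s / 2) hp0 hp1 (by linarith) (by linarith)
  have hPp := isProb_perc (d := d) p0 hp0 hp1
  have hPs := isProb_perc (d := d) s hs0 hs3
  -- the union bound
  have hvio : ∀ b : V d → Bool, (PP d p0 (s / 2)).real
      (Vio M m lam r0 b1 ηr (b1 * η1 / 16) (η2 / 4) C4 Ch b) ≤
      Real.exp (2 * Ch * n) * Real.exp (-(c' * (m : ℝ) ^ 2 * n)) := by
    intro b
    exact rob_union H m lam r0 b1 ηr (b1 * η1 / 16) (η2 / 4) C4 Ch (s / 2) _ (by linarith)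
      (by linarith) (Real.exp_pos _).le
      (fun F A A' α h1 h2 h3 h4 => hl2 lam s hlam2 hs1 hs2 F A A' α h1 h2 h3 h4) b
  have h1 := Rob_thin (d := d) (M := M) (m := m) (lam := lam) (r0 := r0) (c1 := c1) (b1 := b1)
    (η1 := η1) (η2 := η2) (ηr := ηr) (C4 := C4) (Ch := Ch) hp0 hp1 hs0 hs3 r1
  have h2 := Rob_seed (c1 := c1) hp0 hp1 (by linarith) (by linarith) hL hvio
  have h3 := le_trans h1 (mul_le_mul_right h2 _)
  rw [← ENNReal.ofReal_mul (by positivity)] at h3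
  set X1 : ℝ := 2 ^ r1 * (2 * (Real.exp (2 * Ch * n) * Real.exp (-(c' * (m : ℝ) ^ 2 * n)))) with hX1
  have hX0 : 0 ≤ X1 := by positivity
  have h4 : (PP d p0 s).real {q | SampOK M m lam r0 c1 b1 η1 η2 ηr C4 Ch q.1 ∧
      ¬ ROBok M m lam c1 b1 η1 η2 r1 q} ≤ X1 := ENNReal.toReal_le_of_le_ofReal hX0 h3
  have h5 : X1 ≤ η0 / 2 := by
    have h6 : (2 : ℝ) ^ r1 ≤ Real.exp (c' / 4 * (m : ℝ) ^ 2 * n) := by
      have h7 : (2 : ℝ) ≤ Real.exp 1 := by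
        have := Real.add_one_le_exp (1 : ℝ)
        linarith
      calc (2 : ℝ) ^ r1 ≤ (Real.exp 1) ^ r1 := pow_le_pow_left₀ (by norm_num) h7 _
        _ = Real.exp r1 := by rw [← Real.exp_nat_mul, mul_one]
        _ ≤ Real.exp (c' / 4 * (m : ℝ) ^ 2 * n) := by
            rw [Real.exp_le_exp]
            exact Nat.floor_le (by positivity)
    have h7 : X1 ≤ 2 * Real.exp (-(c' / 2 * n)) := by
      calc X1 ≤ Real.exp (c' / 4 * (m : ℝ) ^ 2 * n) *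
            (2 * (Real.exp (2 * Ch * n) * Real.exp (-(c' * (m : ℝ) ^ 2 * n)))) := by
            rw [hX1]
            gcongr
        _ = 2 * Real.exp (c' / 4 * (m : ℝ) ^ 2 * n + (2 * Ch * n + -(c' * (m : ℝ) ^ 2 * n))) := by
            rw [Real.exp_add, Real.exp_add]
            ring
        _ ≤ 2 * Real.exp (-(c' / 2 * n)) := by
            have h8 : 8 * Ch * n ≤ c' * (m : ℝ) ^ 2 * n := mul_le_mul_of_nonneg_right hm3 hn1.le
            have h9 : c' * n ≤ c' * (m : ℝ) ^ 2 * n := by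
              have h10 : c' * 1 ≤ c' * (m : ℝ) ^ 2 :=
                mul_le_mul_of_nonneg_left (one_le_pow₀ hmR) hc'.le
              have h11 := mul_le_mul_of_nonneg_right h10 hn1.le
              linarith
            have h12 : Real.exp (c' / 4 * (m : ℝ) ^ 2 * n + (2 * Ch * n +
                -(c' * (m : ℝ) ^ 2 * n))) ≤ Real.exp (-(c' / 2 * n)) := by
              rw [Real.exp_le_exp]
              linarith
            linarith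
    have h8 : 4 / η0 ≤ c' / 2 * n := by
      have h9 : 8 / (c' * η0) ≤ n := le_trans h8l hn0
      rw [div_le_iff₀ (by positivity)] at h9
      rw [div_le_iff₀ hη0]
      linarith
    have h9 : Real.exp (-(c' / 2 * n)) ≤ η0 / 4 := by
      have h10 : 4 / η0 ≤ Real.exp (c' / 2 * n) := by
        have := Real.add_one_le_exp (c' / 2 * n)
        linarith
      rw [Real.exp_neg]
      have h11 : (0 : ℝ) < 4 / η0 := by positivity
      calc (Real.exp (c' / 2 * n))⁻¹ ≤ (4 / η0)⁻¹ := inv_anti₀ h11 h10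
        _ = η0 / 4 := inv_div _ _
    linarith
  have h6 : (PP d p0 s).real {q : Cfg d × Cfg d |
      ¬ SampOK M m lam r0 c1 b1 η1 η2 ηr C4 Ch q.1} ≤ η0 / 2 := by
    have h7 : {q : Cfg d × Cfg d | ¬ SampOK M m lam r0 c1 b1 η1 η2 ηr C4 Ch q.1} =
        {ω : Cfg d | ¬ SampOK M m lam r0 c1 b1 η1 η2 ηr C4 Ch ω} ×ˢ (Set.univ : Set (Cfg d)) := by
      ext q
      simp
    have h8 : (PP d p0 s).real {q : Cfg d × Cfg d |
        ¬ SampOK M m lam r0 c1 b1 η1 η2 ηr C4 Ch q.1} =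
        (perc d p0).real {ω | ¬ SampOK M m lam r0 c1 b1 η1 η2 ηr C4 Ch ω} := by
      unfold PP Measure.real
      rw [h7, Measure.prod_prod, measure_univ, mul_one]
    rw [h8]
    exact hl1 lam hlam1
  have h7 : {q | ¬ ROBok M m lam c1 b1 η1 η2 r1 q} ⊆
      {q : Cfg d × Cfg d | ¬ SampOK M m lam r0 c1 b1 η1 η2 ηr C4 Ch q.1} ∪
      {q | SampOK M m lam r0 c1 b1 η1 η2 ηr C4 Ch q.1 ∧ ¬ ROBok M m lam c1 b1 η1 η2 r1 q} := by
    intro q hq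
    by_cases h8 : SampOK M m lam r0 c1 b1 η1 η2 ηr C4 Ch q.1
    · exact Or.inr ⟨h8, hq⟩
    · exact Or.inl h8
  calc (PP d p0 s).real {q | ¬ ROBok M m lam c1 b1 η1 η2 r1 q} ≤ _ := measureReal_mono h7
    _ ≤ _ := measureReal_union_le _ _
    _ ≤ η0 := by linarith

end H95LBS
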