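import Pool.Agent.H95.LBS.HubX
import Pool.Agent.H5.DF.Energy2
import Pool.Agent.H95.LBD.DecC
import Pool.Agent.H95.LBD.TreeB

/-!
PROJECT DS (MP_0d9ad5_pr), JOB DS-VarL. Variance lemma (section 2c of note 2700).
PROOF. `∫ F x F y 1{y ∉ hub x} = ∑_D ∫ F x 1{hub x = D} F y` over finite `D ⊆ S`, `y ∉ D`; on this event
`F y ω = F y (cut (hub y) ω) <= F y (cut Dᶜ ω)` (`hub y ⊆ Dᶜ`), and `F x ω 1{hub x = D}` depends on the edges
with an end in `D` (`F x ω = F x (cut D ω)`), `cut Dᶜ ω` on the other edges: independent (`indepFun` or approximate by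
simple functions; `indep_gen` gives independence of the two restrictions), and `∫ F y (cut Dᶜ ω) <= ∫ F y`.
Summing over `D`: `<= ∫ F x * ∫ F y`. Then expand the square.
-/

namespace H95LBS

open H5DF H95LBD MeasureTheory

variable {d : ℕ}

/-- Increasing functions. -/
def IncF (F : Cfg d → ℝ) : Prop := ∀ ω ω' : Cfg d, (∀ e, ω e = true → ω' e = true) → F ω ≤ F ω'

/-- Bounded measurable functions are integrable. -/
lemma VarL_int {p : ℝ} (h0 : 0 ≤ p) (h1 : p ≤ 1) {f : Cfg d → ℝ} (hf : Measurable f) (C : ℝ)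
    (hC : ∀ ω, |f ω| ≤ C) : Integrable f (perc d p) := by
  have := isProb_perc (d := d) p h0 h1
  exact Integrable.of_bound hf.aestronglyMeasurable C
    (Filter.Eventually.of_forall fun ω => by rw [Real.norm_eq_abs]; exact hC ω)

/-- Functions depending on complementary sets of edges are uncorrelated. -/
lemma VarL_indep {p : ℝ} (h0 : 0 ≤ p) (h1 : p ≤ 1) (T : Set (Ed d)) {f g : Cfg d → ℝ}
    (hf : Measurable f) (hg : Measurable g)
    (hdf : ∀ ω ω' : Cfg d, (∀ e, e ∉ T → ω e = ω' e) → f ω = f ω')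
    (hdg : ∀ ω ω' : Cfg d, (∀ e ∈ T, ω e = ω' e) → g ω = g ω') :
    ∫ ω, f ω * g ω ∂(perc d p) = (∫ ω, f ω ∂(perc d p)) * ∫ ω, g ω ∂(perc d p) := by
  have := isProb_perc (d := d) p h0 h1
  have hI : ProbabilityTheory.IndepFun f g (perc d p) := by
    rw [ProbabilityTheory.indepFun_iff_measure_inter_preimage_eq_mul]
    intro s t hs ht
    exact indep_split h0 h1 T (g ⁻¹' t) (f ⁻¹' s) (hg ht) (hf hs)
      (fun ω ω' h hω => by
        have : g ω = g ω' := hdg ω ω' h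
        rw [Set.mem_preimage] at hω ⊢
        rwa [← this])
      (fun ω ω' h hω => by
        have : f ω = f ω' := hdf ω ω' h
        rw [Set.mem_preimage] at hω ⊢
        rwa [← this])
  exact hI.integral_fun_mul_eq_mul_integral hf.aestronglyMeasurable hg.aestronglyMeasurable

lemma VarL_cut_le (S : Set (V d)) (ω : Cfg d) : ∀ e, cut S ω e = true → ω e = true :=
  fun _ h => (cut_true.1 h).1

lemma VarL_cut_mono {S S' : Set (V d)} (h : S ⊆ S') (ω : Cfg d) :
    ∀ e, cut S ω e = true → cut S' ω e = true := by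
  intro e he
  have h1 := cut_true.1 he
  exact cut_true.2 ⟨h1.1, h h1.2.1, h h1.2.2⟩

lemma VarL_cut_congr {S : Set (V d)} {ω ω' : Cfg d} (h : ∀ e ∈ ins S, ω e = ω' e) :
    cut S ω = cut S ω' := by
  funext e
  by_cases he : e ∈ ins S
  · have h1 : cut S ω e = true ↔ cut S ω' e = true := by
      rw [cut_true, cut_true, h e he]
    exact Bool.eq_iff_iff.2 h1
  · have h1 : ∀ η : Cfg d, cut S η e = false := by
      intro η
      by_contra hc
      rw [Bool.not_eq_false] at hc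
      exact he (cut_true.1 hc).2
    rw [h1, h1]

/-- The term of the hub of `x` being exactly `D`. -/
lemma VarL_term {p : ℝ} (h0 : 0 ≤ p) (h1 : p ≤ 1) (S : Set (V d)) (x y : V d)
    (Fx Fy : Cfg d → ℝ) (K : ℝ) (hx0 : ∀ ω, 0 ≤ Fx ω) (hxK : ∀ ω, Fx ω ≤ K)
    (hy0 : ∀ ω, 0 ≤ Fy ω) (hyK : ∀ ω, Fy ω ≤ K) (hmx : Measurable Fx) (hmy : Measurable Fy)
    (hIy : IncF Fy)
    (hlx : ∀ ω, Fx ω = Fx (cut (hub S ω x) ω)) (hly : ∀ ω, Fy ω = Fy (cut (hub S ω y) ω))
    (D : Set (V d)) (hyD : y ∉ D) :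
    ∫ ω, Set.indicator {ω | hub S ω x = D} Fx ω * Fy ω ∂(perc d p) ≤
      (∫ ω, Set.indicator {ω | hub S ω x = D} Fx ω ∂(perc d p)) * ∫ ω, Fy ω ∂(perc d p) := by
  have hpr := isProb_perc (d := d) p h0 h1
  have hK : 0 ≤ K := by
    have : ∃ ω : Cfg d, True := ⟨fun _ => false, trivial⟩
    obtain ⟨ω, -⟩ := this
    exact (hx0 ω).trans (hxK ω)
  set A : Set (Cfg d) := {ω | hub S ω x = D} with hA
  have hAm : MeasurableSet A := meas_hub_eq S D x
  have hind0 : ∀ ω, 0 ≤ Set.indicator A Fx ω := fun ω => Set.indicator_nonneg (fun ω _ => hx0 ω) ω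
  have hindK : ∀ ω, Set.indicator A Fx ω ≤ K := by
    intro ω
    by_cases h : ω ∈ A
    · rw [Set.indicator_of_mem h]
      exact hxK ω
    · rw [Set.indicator_of_notMem h]
      exact hK
  have hmi : Measurable (Set.indicator A Fx) := hmx.indicator hAm
  have hmg : Measurable (fun ω : Cfg d => Fy (cut Dᶜ ω)) := hmy.comp (measurable_cut _)
  have step1 : ∫ ω, Set.indicator A Fx ω * Fy ω ∂(perc d p) ≤
      ∫ ω, Set.indicator A Fx ω * Fy (cut Dᶜ ω) ∂(perc d p) := by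
    refine integral_mono ?_ ?_ ?_
    · refine VarL_int h0 h1 (hmi.mul hmy) (K * K) fun ω => ?_
      rw [abs_of_nonneg (mul_nonneg (hind0 ω) (hy0 ω))]
      exact mul_le_mul (hindK ω) (hyK ω) (hy0 ω) hK
    · refine VarL_int h0 h1 (hmi.mul hmg) (K * K) fun ω => ?_
      rw [abs_of_nonneg (mul_nonneg (hind0 ω) (hy0 _))]
      exact mul_le_mul (hindK ω) (hyK _) (hy0 _) hK
    · intro ω
      show Set.indicator A Fx ω * Fy ω ≤ Set.indicator A Fx ω * Fy (cut Dᶜ ω)
      by_cases h : ω ∈ A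
      · refine mul_le_mul_of_nonneg_left ?_ (hind0 ω)
        have hD : hub S ω x = D := h
        have hsub : hub S ω y ⊆ Dᶜ := by
          intro z hz hzD
          apply hyD
          rw [← hD] at hzD ⊢
          exact Cn.trans hzD (Cn.symm hz)
        rw [hly ω]
        exact hIy _ _ (VarL_cut_mono hsub ω)
      · rw [Set.indicator_of_notMem h, zero_mul, zero_mul]
  have step2 : ∫ ω, Set.indicator A Fx ω * Fy (cut Dᶜ ω) ∂(perc d p) =
      (∫ ω, Set.indicator A Fx ω ∂(perc d p)) * ∫ ω, Fy (cut Dᶜ ω) ∂(perc d p) := by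
    refine VarL_indep h0 h1 (ins Dᶜ) hmi hmg ?_ ?_
    · intro ω ω' h
      by_cases hω : ω ∈ A
      · have hD : hub S ω x = D := hω
        have hD' : hub S ω' x = D := hub_dep h hD
        have hω' : ω' ∈ A := hD'
        rw [Set.indicator_of_mem hω, Set.indicator_of_mem hω', hlx ω, hlx ω', hD, hD']
        refine congrArg Fx (VarL_cut_congr fun e he => h e fun hc => ?_)
        exact hc.1 he.1
      · have hω' : ω' ∉ A := fun hc => hω (hub_dep (fun e he => (h e he).symm) hc)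
        rw [Set.indicator_of_notMem hω, Set.indicator_of_notMem hω']
    · intro ω ω' h
      exact congrArg Fy (VarL_cut_congr h)
  have step3 : ∫ ω, Fy (cut Dᶜ ω) ∂(perc d p) ≤ ∫ ω, Fy ω ∂(perc d p) := by
    refine integral_mono ?_ ?_ ?_
    · exact VarL_int h0 h1 hmg K fun ω => by rw [abs_of_nonneg (hy0 _)]; exact hyK _
    · exact VarL_int h0 h1 hmy K fun ω => by rw [abs_of_nonneg (hy0 _)]; exact hyK _
    · intro ω
      exact hIy _ _ (VarL_cut_le _ ω)
  calc ∫ ω, Set.indicator A Fx ω * Fy ω ∂(perc d p)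
      ≤ ∫ ω, Set.indicator A Fx ω * Fy (cut Dᶜ ω) ∂(perc d p) := step1
    _ = (∫ ω, Set.indicator A Fx ω ∂(perc d p)) * ∫ ω, Fy (cut Dᶜ ω) ∂(perc d p) := step2
    _ ≤ _ := mul_le_mul_of_nonneg_left step3 (integral_nonneg hind0)

/-- The part of the second moment with `x`, `y` in different hubs. -/
lemma VarL_off {p : ℝ} (h0 : 0 ≤ p) (h1 : p ≤ 1) (S : Finset (V d)) (x y : V d) (hxS : x ∈ S)
    (Fx Fy : Cfg d → ℝ) (K : ℝ) (hx0 : ∀ ω, 0 ≤ Fx ω) (hxK : ∀ ω, Fx ω ≤ K)
    (hy0 : ∀ ω, 0 ≤ Fy ω) (hyK : ∀ ω, Fy ω ≤ K) (hmx : Measurable Fx) (hmy : Measurable Fy)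
    (hIy : IncF Fy)
    (hlx : ∀ ω, Fx ω = Fx (cut (hub (S : Set (V d)) ω x) ω))
    (hly : ∀ ω, Fy ω = Fy (cut (hub (S : Set (V d)) ω y) ω)) :
    ∫ ω, Fx ω * Fy ω * Set.indicator {ω | ¬ Cn (S : Set (V d)) ω x y} (fun _ => (1 : ℝ)) ω
        ∂(perc d p) ≤
      (∫ ω, Fx ω ∂(perc d p)) * ∫ ω, Fy ω ∂(perc d p) := by
  classical
  have hpr := isProb_perc (d := d) p h0 h1
  have hK : 0 ≤ K := (hx0 fun _ => false).trans (hxK _)
  let P : Finset (Finset (V d)) := S.powerset.filter (fun D => y ∉ D)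
  let A : Finset (V d) → Set (Cfg d) := fun D => {ω | hub (S : Set (V d)) ω x = (D : Set (V d))}
  have hAm : ∀ D, MeasurableSet (A D) := fun D => meas_hub_eq _ _ _
  have hmi : ∀ D, Measurable (Set.indicator (A D) Fx) := fun D => hmx.indicator (hAm D)
  have hind0 : ∀ D ω, 0 ≤ Set.indicator (A D) Fx ω :=
    fun D ω => Set.indicator_nonneg (fun ω _ => hx0 ω) ω
  have hindK : ∀ D ω, Set.indicator (A D) Fx ω ≤ K := by
    intro D ω
    by_cases h : ω ∈ A D
    · rw [Set.indicator_of_mem h]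
      exact hxK ω
    · rw [Set.indicator_of_notMem h]
      exact hK
  have hfin : ∀ ω : Cfg d, ∃ D ∈ S.powerset, ω ∈ A D := by
    intro ω
    refine ⟨S.filter (fun z => z ∈ hub (S : Set (V d)) ω x), by simp, ?_⟩
    show hub (S : Set (V d)) ω x = _
    ext z
    simp only [Finset.coe_filter, Set.mem_ofPred_eq]
    exact ⟨fun h => ⟨hub_sub (by exact_mod_cast hxS) h, h⟩, fun h => h.2⟩
  have hpt : ∀ ω, Fx ω * Fy ω *
      Set.indicator {ω | ¬ Cn (S : Set (V d)) ω x y} (fun _ => (1 : ℝ)) ω =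
      ∑ D ∈ P, Set.indicator (A D) Fx ω * Fy ω := by
    intro ω
    obtain ⟨D, hD, hωD⟩ := hfin ω
    have hDe : hub (S : Set (V d)) ω x = (D : Set (V d)) := hωD
    by_cases hc : Cn (S : Set (V d)) ω x y
    · have hyD : y ∈ D := by
        have : y ∈ hub (S : Set (V d)) ω x := hc
        rw [hDe] at this
        exact_mod_cast this
      rw [Set.indicator_of_notMem (by simpa using hc), mul_zero]
      symm
      refine Finset.sum_eq_zero fun D' hD' => ?_
      have hyD' : y ∉ D' := (Finset.mem_filter.1 hD').2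
      have hne : ω ∉ A D' := by
        intro h
        have h2 : (D : Set (V d)) = (D' : Set (V d)) := hDe.symm.trans h
        exact hyD' (by rw [← Finset.coe_inj.1 h2]; exact hyD)
      rw [Set.indicator_of_notMem hne, zero_mul]
    · have hyD : y ∉ D := by
        intro h
        apply hc
        have : y ∈ hub (S : Set (V d)) ω x := by
          rw [hDe]
          exact_mod_cast h
        exact this
      rw [Set.indicator_of_mem (by simpa using hc), mul_one]
      rw [Finset.sum_eq_single_of_mem D (Finset.mem_filter.2 ⟨hD, hyD⟩)]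
      · rw [Set.indicator_of_mem hωD]
      · intro D' _ hne
        have hne' : ω ∉ A D' := by
          intro h
          have h2 : (D : Set (V d)) = (D' : Set (V d)) := hDe.symm.trans h
          exact hne (Finset.coe_inj.1 h2).symm
        rw [Set.indicator_of_notMem hne', zero_mul]
  have hintD : ∀ D, Integrable (fun ω => Set.indicator (A D) Fx ω * Fy ω) (perc d p) := by
    intro D
    refine VarL_int h0 h1 ((hmi D).mul hmy) (K * K) fun ω => ?_
    rw [abs_of_nonneg (mul_nonneg (hind0 D ω) (hy0 ω))]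
    exact mul_le_mul (hindK D ω) (hyK ω) (hy0 ω) hK
  have hintX : ∀ D, Integrable (Set.indicator (A D) Fx) (perc d p) := by
    intro D
    refine VarL_int h0 h1 (hmi D) K fun ω => ?_
    rw [abs_of_nonneg (hind0 D ω)]
    exact hindK D ω
  calc ∫ ω, Fx ω * Fy ω * Set.indicator {ω | ¬ Cn (S : Set (V d)) ω x y} (fun _ => (1 : ℝ)) ω
        ∂(perc d p)
      = ∫ ω, ∑ D ∈ P, Set.indicator (A D) Fx ω * Fy ω ∂(perc d p) := by
        exact integral_congr_ae (Filter.Eventually.of_forall hpt)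
    _ = ∑ D ∈ P, ∫ ω, Set.indicator (A D) Fx ω * Fy ω ∂(perc d p) :=
        integral_finsetSum _ fun D _ => hintD D
    _ ≤ ∑ D ∈ P, (∫ ω, Set.indicator (A D) Fx ω ∂(perc d p)) * ∫ ω, Fy ω ∂(perc d p) := by
        refine Finset.sum_le_sum fun D hD => ?_
        have hyD : y ∉ D := (Finset.mem_filter.1 hD).2
        exact VarL_term h0 h1 (S : Set (V d)) x y Fx Fy K hx0 hxK hy0 hyK hmx hmy hIy hlx hly
          (D : Set (V d)) (by exact_mod_cast hyD)
    _ = (∫ ω, ∑ D ∈ P, Set.indicator (A D) Fx ω ∂(perc d p)) * ∫ ω, Fy ω ∂(perc d p) := by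
        rw [← Finset.sum_mul, integral_finsetSum _ fun D _ => hintX D]
    _ ≤ (∫ ω, Fx ω ∂(perc d p)) * ∫ ω, Fy ω ∂(perc d p) := by
        refine mul_le_mul_of_nonneg_right ?_ (integral_nonneg hy0)
        refine integral_mono (integrable_finsetSum _ fun D _ => hintX D) ?_ ?_
        · exact VarL_int h0 h1 hmx K fun ω => by rw [abs_of_nonneg (hx0 _)]; exact hxK _
        · intro ω
          show ∑ D ∈ P, Set.indicator (A D) Fx ω ≤ Fx ω
          obtain ⟨D, hD, hωD⟩ := hfin ω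
          have hDe : hub (S : Set (V d)) ω x = (D : Set (V d)) := hωD
          by_cases hyD : y ∈ D
          · rw [Finset.sum_eq_zero fun D' hD' => ?_]
            · exact hx0 ω
            · have hyD' : y ∉ D' := (Finset.mem_filter.1 hD').2
              have hne : ω ∉ A D' := by
                intro h
                have h2 : (D : Set (V d)) = (D' : Set (V d)) := hDe.symm.trans h
                exact hyD' (by rw [← Finset.coe_inj.1 h2]; exact hyD)
              rw [Set.indicator_of_notMem hne]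
          · rw [Finset.sum_eq_single_of_mem D (Finset.mem_filter.2 ⟨hD, hyD⟩)]
            · rw [Set.indicator_of_mem hωD]
            · intro D' _ hne
              have hne' : ω ∉ A D' := by
                intro h
                have h2 : (D : Set (V d)) = (D' : Set (V d)) := hDe.symm.trans h
                exact hne (Finset.coe_inj.1 h2).symm
              rw [Set.indicator_of_notMem hne']

theorem var_hub {p : ℝ} (h0 : 0 ≤ p) (h1 : p ≤ 1) (S R : Finset (V d)) (hRS : R ⊆ S)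
    (F : V d → Cfg d → ℝ) (K : ℝ) (hF0 : ∀ x ω, 0 ≤ F x ω) (hFK : ∀ x ω, F x ω ≤ K)
    (hm : ∀ x, Measurable (F x)) (hI : ∀ x, IncF (F x))
    (hloc : ∀ x ∈ R, ∀ ω, F x ω = F x (cut (hub (S : Set (V d)) ω x) ω)) :
    ∫ ω, (∑ x ∈ R, F x ω) ^ 2 ∂(perc d p) ≤ (∑ x ∈ R, ∫ ω, F x ω ∂(perc d p)) ^ 2 +
      ∑ x ∈ R, ∑ y ∈ R, ∫ ω, F x ω * F y ω *
        Set.indicator {ω | Cn (S : Set (V d)) ω x y} (fun _ => (1 : ℝ)) ω ∂(perc d p) := by
  classical
  have hpr := isProb_perc (d := d) p h0 h1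
  have hK : ∀ x : V d, 0 ≤ K := fun x => (hF0 x fun _ => false).trans (hFK x _)
  have hprod : ∀ x y, Integrable (fun ω => F x ω * F y ω) (perc d p) := by
    intro x y
    refine VarL_int h0 h1 ((hm x).mul (hm y)) (K * K) fun ω => ?_
    rw [abs_of_nonneg (mul_nonneg (hF0 x ω) (hF0 y ω))]
    exact mul_le_mul (hFK x ω) (hFK y ω) (hF0 y ω) (hK x)
  have hprodI : ∀ x y (E : Set (Cfg d)), MeasurableSet E →
      Integrable (fun ω => F x ω * F y ω * Set.indicator E (fun _ => (1 : ℝ)) ω) (perc d p) := by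
    intro x y E hE
    refine VarL_int h0 h1 (((hm x).mul (hm y)).mul (measurable_const.indicator hE))
      (K * K) fun ω => ?_
    have hi0 : 0 ≤ Set.indicator E (fun _ => (1 : ℝ)) ω :=
      Set.indicator_nonneg (fun _ _ => zero_le_one) ω
    have hi1 : Set.indicator E (fun _ => (1 : ℝ)) ω ≤ 1 :=
      Set.indicator_le_self' (fun _ _ => zero_le_one) ω
    rw [abs_of_nonneg (mul_nonneg (mul_nonneg (hF0 x ω) (hF0 y ω)) hi0)]
    calc F x ω * F y ω * Set.indicator E (fun _ => (1 : ℝ)) ω ≤ F x ω * F y ω * 1 :=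
          mul_le_mul_of_nonneg_left hi1 (mul_nonneg (hF0 x ω) (hF0 y ω))
      _ ≤ K * K := by
          rw [mul_one]
          exact mul_le_mul (hFK x ω) (hFK y ω) (hF0 y ω) (hK x)
  have hsq : ∀ ω, (∑ x ∈ R, F x ω) ^ 2 = ∑ x ∈ R, ∑ y ∈ R, F x ω * F y ω := by
    intro ω
    rw [sq, Finset.sum_mul_sum]
  have hmC : ∀ x y, MeasurableSet {ω : Cfg d | Cn (S : Set (V d)) ω x y} := fun x y => meas_Cn _ _ _
  have hone : ∀ x ∈ R, ∀ y ∈ R, ∫ ω, F x ω * F y ω ∂(perc d p) ≤
      (∫ ω, F x ω ∂(perc d p)) * (∫ ω, F y ω ∂(perc d p)) +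
      ∫ ω, F x ω * F y ω *
        Set.indicator {ω | Cn (S : Set (V d)) ω x y} (fun _ => (1 : ℝ)) ω ∂(perc d p) := by
    intro x hx y hy
    have hsplit : ∫ ω, F x ω * F y ω ∂(perc d p) =
        ∫ ω, F x ω * F y ω *
          Set.indicator {ω | ¬ Cn (S : Set (V d)) ω x y} (fun _ => (1 : ℝ)) ω ∂(perc d p) +
        ∫ ω, F x ω * F y ω *
          Set.indicator {ω | Cn (S : Set (V d)) ω x y} (fun _ => (1 : ℝ)) ω ∂(perc d p) := by
      have hmN : MeasurableSet {ω : Cfg d | ¬ Cn (S : Set (V d)) ω x y} := (hmC x y).compl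
      rw [← integral_add (hprodI x y _ hmN) (hprodI x y _ (hmC x y))]
      refine integral_congr_ae (Filter.Eventually.of_forall fun ω => ?_)
      show F x ω * F y ω = F x ω * F y ω *
          Set.indicator {ω | ¬ Cn (S : Set (V d)) ω x y} (fun _ => (1 : ℝ)) ω +
        F x ω * F y ω * Set.indicator {ω | Cn (S : Set (V d)) ω x y} (fun _ => (1 : ℝ)) ω
      by_cases hc : Cn (S : Set (V d)) ω x y
      · rw [Set.indicator_of_notMem (by simpa using hc), Set.indicator_of_mem (by simpa using hc)]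
        ring
      · rw [Set.indicator_of_mem (by simpa using hc), Set.indicator_of_notMem (by simpa using hc)]
        ring
    have hoff := VarL_off h0 h1 S x y (hRS hx) (F x) (F y) K (hF0 x) (hFK x) (hF0 y) (hFK y)
      (hm x) (hm y) (hI y) (hloc x hx) (hloc y hy)
    rw [hsplit]
    linarith
  calc ∫ ω, (∑ x ∈ R, F x ω) ^ 2 ∂(perc d p)
      = ∫ ω, ∑ x ∈ R, ∑ y ∈ R, F x ω * F y ω ∂(perc d p) := by simp_rw [hsq]
    _ = ∑ x ∈ R, ∑ y ∈ R, ∫ ω, F x ω * F y ω ∂(perc d p) := by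
        rw [integral_finsetSum _ fun x _ => integrable_finsetSum _ fun y _ => hprod x y]
        exact Finset.sum_congr rfl fun x _ => integral_finsetSum _ fun y _ => hprod x y
    _ ≤ ∑ x ∈ R, ∑ y ∈ R, ((∫ ω, F x ω ∂(perc d p)) * (∫ ω, F y ω ∂(perc d p)) +
          ∫ ω, F x ω * F y ω *
            Set.indicator {ω | Cn (S : Set (V d)) ω x y} (fun _ => (1 : ℝ)) ω ∂(perc d p)) :=
        Finset.sum_le_sum fun x hx => Finset.sum_le_sum fun y hy => hone x hx y hy
    _ = _ := by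
        simp_rw [Finset.sum_add_distrib]
        rw [sq, Finset.sum_mul_sum]

/-- Chebyshev. -/
theorem cheb_hub {p : ℝ} (h0 : 0 ≤ p) (h1 : p ≤ 1) (S R : Finset (V d)) (hRS : R ⊆ S)
    (F : V d → Cfg d → ℝ) (K : ℝ) (hF0 : ∀ x ω, 0 ≤ F x ω) (hFK : ∀ x ω, F x ω ≤ K)
    (hm : ∀ x, Measurable (F x)) (hI : ∀ x, IncF (F x))
    (hloc : ∀ x ∈ R, ∀ ω, F x ω = F x (cut (hub (S : Set (V d)) ω x) ω)) (δ : ℝ) (hδ : 0 < δ) :
    (perc d p).real {ω | δ ≤ |∑ x ∈ R, F x ω - ∑ x ∈ R, ∫ ω, F x ω ∂(perc d p)|} ≤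
      (∑ x ∈ R, ∑ y ∈ R, ∫ ω, F x ω * F y ω *
        Set.indicator {ω | Cn (S : Set (V d)) ω x y} (fun _ => (1 : ℝ)) ω ∂(perc d p)) / δ ^ 2 := by
  classical
  have hpr := isProb_perc (d := d) p h0 h1
  have hvar := var_hub h0 h1 S R hRS F K hF0 hFK hm hI hloc
  set m : ℝ := ∑ x ∈ R, ∫ ω, F x ω ∂(perc d p) with hmdef
  set Q : ℝ := ∑ x ∈ R, ∑ y ∈ R, ∫ ω, F x ω * F y ω *
        Set.indicator {ω | Cn (S : Set (V d)) ω x y} (fun _ => (1 : ℝ)) ω ∂(perc d p) with hQ
  have hiF : ∀ x, Integrable (F x) (perc d p) := fun x =>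
    VarL_int h0 h1 (hm x) K fun ω => by rw [abs_of_nonneg (hF0 x ω)]; exact hFK x ω
  have hmS : Measurable (fun ω : Cfg d => ∑ x ∈ R, F x ω) :=
    Finset.measurable_fun_sum _ fun x _ => hm x
  have hSK : ∀ ω : Cfg d, |∑ x ∈ R, F x ω| ≤ ∑ x ∈ R, K := by
    intro ω
    rw [abs_of_nonneg (Finset.sum_nonneg fun x _ => hF0 x ω)]
    exact Finset.sum_le_sum fun x _ => hFK x ω
  have hiS : Integrable (fun ω : Cfg d => ∑ x ∈ R, F x ω) (perc d p) :=
    integrable_finsetSum _ fun x _ => hiF x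
  have hiS2 : Integrable (fun ω : Cfg d => (∑ x ∈ R, F x ω) ^ 2) (perc d p) := by
    refine VarL_int h0 h1 (hmS.pow_const 2) ((∑ x ∈ R, K) ^ 2) fun ω => ?_
    rw [abs_pow]
    exact pow_le_pow_left₀ (abs_nonneg _) (hSK ω) 2
  have hmean : ∫ ω, ∑ x ∈ R, F x ω ∂(perc d p) = m := integral_finsetSum _ fun x _ => hiF x
  have hexp : ∫ ω, (∑ x ∈ R, F x ω - m) ^ 2 ∂(perc d p) =
      ∫ ω, (∑ x ∈ R, F x ω) ^ 2 ∂(perc d p) - m ^ 2 := by
    have h2 : ∀ ω : Cfg d, (∑ x ∈ R, F x ω - m) ^ 2 =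
        (∑ x ∈ R, F x ω) ^ 2 - ((2 * m) * (∑ x ∈ R, F x ω) - m ^ 2) := by
      intro ω
      ring
    simp_rw [h2]
    have h3 : Integrable (fun ω : Cfg d => (2 * m) * (∑ x ∈ R, F x ω)) (perc d p) :=
      hiS.const_mul (2 * m)
    have h4 : Integrable (fun ω : Cfg d => (2 * m) * (∑ x ∈ R, F x ω) - m ^ 2) (perc d p) :=
      h3.sub (integrable_const (m ^ 2))
    have h5 : ∫ ω, ((2 * m) * (∑ x ∈ R, F x ω) - m ^ 2) ∂(perc d p) = m ^ 2 := by
      rw [integral_sub h3 (integrable_const (m ^ 2)), integral_const_mul, hmean, integral_const]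
      simp only [probReal_univ, one_smul]
      ring
    rw [integral_sub hiS2 h4, h5]
  have hiD : Integrable (fun ω : Cfg d => (∑ x ∈ R, F x ω - m) ^ 2) (perc d p) := by
    refine VarL_int h0 h1 ((hmS.sub measurable_const).pow_const 2)
      ((∑ x ∈ R, K + |m|) ^ 2) fun ω => ?_
    rw [abs_pow]
    refine pow_le_pow_left₀ (abs_nonneg _) ?_ 2
    exact (abs_sub _ _).trans (add_le_add (hSK ω) le_rfl)
  have hset : {ω : Cfg d | δ ≤ |∑ x ∈ R, F x ω - m|} =
      {ω : Cfg d | δ ^ 2 ≤ (∑ x ∈ R, F x ω - m) ^ 2} := by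
    ext ω
    simp only [Set.mem_ofPred_eq]
    rw [← sq_abs (∑ x ∈ R, F x ω - m)]
    exact (pow_le_pow_iff_left₀ hδ.le (abs_nonneg _) two_ne_zero).symm
  have hmk := mul_meas_ge_le_integral_of_nonneg (μ := perc d p)
    (f := fun ω : Cfg d => (∑ x ∈ R, F x ω - m) ^ 2)
    (Filter.Eventually.of_forall fun ω => sq_nonneg _) hiD (δ ^ 2)
  rw [hset, le_div_iff₀ (by positivity), mul_comm]
  refine hmk.trans ?_
  rw [hexp]
  linarith

end H95LBS
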