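import Pool.Agent.H95.LBS.BigP
import Pool.Agent.H95.LBS.VarL

/-!
PROJECT DS (MP_0d9ad5_pr), JOB DS-ConB. Concentration of the number of big points (section 2d of note 2700).
PROOF. `cheb_hub` for `S = BB d M (m lam)`, `R = cube lam j` (`j ∈ JJ d m`, `R ⊆ WW`), `F x = indicator of
x ∈ BG` (`BG_inc`, `BG_loc`: `Bx x (10 M L) ⊆ BB` for `x ∈ WW`): the variance term is
`<= ∑_{x,y ∈ cube} tau(x-y) <= C lam^(d+2)`; the mean is between `cB vol` and `(A/c1^2) vol`
(`big_lo`, `big_hi`); deviation `min(cB, A/c1^2)/2 * vol`, `vol^2 = lam^(2d)/(m lam)^4`, so the probability is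
`<= C(m) lam^(d+2-2d+4) = C(m) lam^(6-d)`; union over the `(3m)^d` boxes.
-/

namespace H95LBS

open H5DF H95LBD MeasureTheory

variable {d : ℕ}

lemma ConB_tau {p0 A cM : ℝ} {M : ℕ} (H : Crit d p0 A cM M) (S : Set (V d)) (x y : V d) :
    (perc d p0).real {ω | Cn S ω x y} ≤ A * kr (y - x) := by
  have hprob := H.prob
  have h1 : {ω : Cfg d | Cn S ω x y} ⊆ SCn {x} Set.univ y := by
    intro ω hω
    exact ⟨x, Finset.mem_singleton_self x, hω.mono (Set.subset_univ _) (fun _ h => h)⟩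
  have h2 : (perc d p0).real {ω : Cfg d | Cn S ω x y} ≤ (perc d p0).real (SCn {x} Set.univ y) :=
    measureReal_mono h1
  refine h2.trans ?_
  unfold Measure.real
  rw [perc_conn p0 H.hp0.le H.hp1.le]
  have h3 := (H.kb (y - x)).2
  have h4 : (0 : ℝ) ≤ A * kr (y - x) := mul_nonneg (by linarith [H.hA]) (kr_pos _).le
  exact ENNReal.toReal_le_of_le_ofReal h4 h3

lemma ConB_card (n : ℕ) (j : V d) : (cube n j).card = n ^ d := by
  unfold cube
  rw [Fintype.card_piFinset]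
  simp only [Int.card_Ico]
  have h : ∀ i : Fin d, ((j i + 1) * (n : ℤ) - j i * n).toNat = n := by
    intro i
    have : (j i + 1) * (n : ℤ) - j i * n = n := by ring
    rw [this]
    simp
  simp only [h]
  simp

lemma ConB_cube_WW {m lam : ℕ} {j : V d} (hj : j ∈ JJ d m) : cube lam j ⊆ WW d (m * lam) := by
  intro x hx
  rw [mem_cube] at hx
  rw [mem_JJ] at hj
  rw [mem_WW]
  intro i
  obtain ⟨h1, h2⟩ := hx i
  obtain ⟨h3, h4⟩ := hj i
  have hl : (0 : ℤ) ≤ lam := Int.natCast_nonneg _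
  push_cast
  constructor
  · nlinarith
  · nlinarith

lemma ConB_cube_BF {n : ℕ} {j x : V d} (hx : x ∈ cube n j) : cube n j ⊆ BF x n := by
  intro y hy
  rw [mem_BF, nm_le]
  intro i
  rw [mem_cube] at hx hy
  obtain ⟨h1, h2⟩ := hx i
  obtain ⟨h3, h4⟩ := hy i
  have e : (y - x) i = y i - x i := rfl
  rw [e]
  have : (j i + 1) * (n : ℤ) = j i * n + n := by ring
  omega

lemma ConB_Bx {M L : ℕ} {x : V d} (hx : x ∈ WW d L) :
    Bx x (10 * M * L) ⊆ ((BB d M L : Finset (V d)) : Set (V d)) := by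
  intro y hy
  rw [mem_Bx] at hy
  unfold BB
  rw [Finset.mem_coe, mem_BF, sub_zero]
  have h1 : nm x ≤ 2 * L := by
    rw [nm_le]
    intro i
    have h := (mem_WW.1 hx) i
    omega
  have h2 := nm_le_add y x
  have h3 : (10 * M + 3) * L = 10 * M * L + 3 * L := by ring
  omega

lemma ConB_sum (F : V d → Prop) [DecidablePred F] (T : Finset (V d)) :
    (∑ x ∈ T, if F x then (1 : ℝ) else 0) = ((T.filter F).card : ℝ) := by
  rw [Finset.sum_boole]

/-- One box. -/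
lemma ConB_one {p0 A cM : ℝ} {M : ℕ} (H : Crit d p0 A cM M) (c1 b1 cB : ℝ) (hc1 : 0 < c1)
    (hb1 : 0 < b1) (hcB : 0 < cB) (hlo : ∀ (L : ℕ) (x : V d), 1 ≤ c1 * L →
      cB / (L : ℝ) ^ 2 ≤ (perc d p0).real {ω | x ∈ BG M L c1 b1 ω}) :
    ∃ C : ℝ, 0 < C ∧ ∀ (m lam : ℕ) (j : V d), 1 ≤ m → 1 ≤ lam → 1 ≤ c1 * ((m * lam : ℕ) : ℝ) →
      j ∈ JJ d m → (perc d p0).real {ω |
      (cn (BG M (m * lam) c1 b1 ω) (cube lam j) : ℝ) < cB / 2 * vol d m lam ∨
      2 * (A / c1 ^ 2) * vol d m lam < cn (BG M (m * lam) c1 b1 ω) (cube lam j)} ≤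
        C * (m : ℝ) ^ 4 / lam := by
  classical
  have hd5 : 5 ≤ d := by have := H.hd; omega
  obtain ⟨C, hC, hsk⟩ := sk1 (d := d) hd5
  have hA : 0 < A := by linarith [H.hA]
  set g : ℝ := min cB (A / c1 ^ 2) / 2 with hg
  have hg0 : 0 < g := by positivity
  refine ⟨4 * A * C / g ^ 2, by positivity, ?_⟩
  intro m lam j hm hlam hL hj
  set L : ℕ := m * lam with hLdef
  have hprob := H.prob
  have hlamR : (1 : ℝ) ≤ lam := by exact_mod_cast hlam
  have hmR : (1 : ℝ) ≤ m := by exact_mod_cast hm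
  have hLR : (0 : ℝ) < (L : ℝ) := by
    rw [hLdef]
    push_cast
    positivity
  have hWB : cube lam j ⊆ BB d M L := (ConB_cube_WW hj).trans WW_sub_BB
  let F : V d → Cfg d → ℝ := fun x => Set.indicator {ω | x ∈ BG M L c1 b1 ω} (fun _ => (1 : ℝ))
  have hF0 : ∀ x ω, 0 ≤ F x ω := fun x ω => Set.indicator_nonneg (fun _ _ => zero_le_one) ω
  have hF1 : ∀ x ω, F x ω ≤ 1 := fun x ω =>
    Set.indicator_apply_le' (fun _ => le_rfl) (fun _ => zero_le_one)
  have hFm : ∀ x, Measurable (F x) := fun x => measurable_const.indicator (meas_BG M L c1 b1 x)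
  have hFI : ∀ x, IncF (F x) := by
    intro x ω ω' h
    by_cases h1 : x ∈ BG M L c1 b1 ω
    · have h2 : x ∈ BG M L c1 b1 ω' := BG_inc M L c1 b1 x ω ω' h h1
      have e1 : F x ω = 1 := Set.indicator_of_mem (by exact h1) _
      have e2 : F x ω' = 1 := Set.indicator_of_mem (by exact h2) _
      rw [e1, e2]
    · have e1 : F x ω = 0 := Set.indicator_of_notMem (by exact h1) _
      rw [e1]
      exact hF0 x ω'
  have hFl : ∀ x ∈ cube lam j, ∀ ω, F x ω = F x (cut (hub ((BB d M L : Finset (V d)) : Set (V d)) ω x) ω) := by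
    intro x hx ω
    have h1 := BG_loc M L c1 b1 _ x (ConB_Bx (ConB_cube_WW hj hx)) ω
    by_cases h2 : x ∈ BG M L c1 b1 ω
    · have e1 : F x ω = 1 := Set.indicator_of_mem (by exact h2) _
      have e2 : F x (cut (hub ((BB d M L : Finset (V d)) : Set (V d)) ω x) ω) = 1 :=
        Set.indicator_of_mem (by exact h1.1 h2) _
      rw [e1, e2]
    · have e1 : F x ω = 0 := Set.indicator_of_notMem (by exact h2) _
      have e2 : F x (cut (hub ((BB d M L : Finset (V d)) : Set (V d)) ω x) ω) = 0 :=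
        Set.indicator_of_notMem (by exact fun h => h2 (h1.2 h)) _
      rw [e1, e2]
  have hint : ∀ x, ∫ ω, F x ω ∂(perc d p0) = (perc d p0).real {ω | x ∈ BG M L c1 b1 ω} := by
    intro x
    have h1 := integral_indicator_one (μ := perc d p0) (meas_BG M L c1 b1 x)
    rw [← h1]
    rfl
  have hsum : ∀ ω, ∑ x ∈ cube lam j, F x ω = cn (BG M L c1 b1 ω) (cube lam j) := by
    intro ω
    unfold cn
    rw [← Finset.sum_boole]
    refine Finset.sum_congr rfl fun x _ => ?_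
    by_cases h2 : x ∈ BG M L c1 b1 ω
    · rw [if_pos h2]
      exact Set.indicator_of_mem (by exact h2) _
    · rw [if_neg h2]
      exact Set.indicator_of_notMem (by exact h2) _
  have hcard : ((cube lam j).card : ℝ) = (lam : ℝ) ^ d := by
    rw [ConB_card]
    push_cast
    ring
  set v : ℝ := vol d m lam with hv
  have hvdef : v = (lam : ℝ) ^ d / (L : ℝ) ^ 2 := rfl
  have hv0 : 0 < v := by
    rw [hvdef]
    positivity
  have hmean_lo : cB * v ≤ ∑ x ∈ cube lam j, ∫ ω, F x ω ∂(perc d p0) := by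
    have h1 : ∀ x ∈ cube lam j, cB / (L : ℝ) ^ 2 ≤ ∫ ω, F x ω ∂(perc d p0) := by
      intro x _
      rw [hint]
      exact hlo L x hL
    have h2 := Finset.card_nsmul_le_sum _ _ _ h1
    rw [nsmul_eq_mul, hcard] at h2
    refine le_trans (le_of_eq ?_) h2
    rw [hvdef]
    ring
  have hmean_hi : ∑ x ∈ cube lam j, ∫ ω, F x ω ∂(perc d p0) ≤ A / c1 ^ 2 * v := by
    have h1 : ∀ x ∈ cube lam j, ∫ ω, F x ω ∂(perc d p0) ≤ A / (c1 * L) ^ 2 := by
      intro x _
      rw [hint]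
      exact big_hi H c1 b1 hc1 hb1 L x hL
    have h2 := Finset.sum_le_card_nsmul _ _ _ h1
    rw [nsmul_eq_mul, hcard] at h2
    refine h2.trans (le_of_eq ?_)
    rw [hvdef]
    field_simp
  have hcheb := cheb_hub H.hp0.le H.hp1.le (BB d M L) (cube lam j) hWB F 1 hF0 hF1 hFm hFI hFl
    (g * v) (by positivity)
  have hvar : (∑ x ∈ cube lam j, ∑ y ∈ cube lam j, ∫ ω, F x ω * F y ω *
        Set.indicator {ω | Cn ((BB d M L : Finset (V d)) : Set (V d)) ω x y}
          (fun _ => (1 : ℝ)) ω ∂(perc d p0)) ≤ (lam : ℝ) ^ d * (A * (C * (4 * (lam : ℝ) ^ 2))) := by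
    have h1 : ∀ x ∈ cube lam j, (∑ y ∈ cube lam j, ∫ ω, F x ω * F y ω *
        Set.indicator {ω | Cn ((BB d M L : Finset (V d)) : Set (V d)) ω x y}
          (fun _ => (1 : ℝ)) ω ∂(perc d p0)) ≤ A * (C * (4 * (lam : ℝ) ^ 2)) := by
      intro x hx
      have h2 : ∀ y ∈ cube lam j, (∫ ω, F x ω * F y ω *
        Set.indicator {ω | Cn ((BB d M L : Finset (V d)) : Set (V d)) ω x y}
          (fun _ => (1 : ℝ)) ω ∂(perc d p0)) ≤ A * kr (y - x) := by
        intro y _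
        refine le_trans ?_ (ConB_tau H ((BB d M L : Finset (V d)) : Set (V d)) x y)
        have h3 := integral_indicator_one (μ := perc d p0)
          (meas_Cn ((BB d M L : Finset (V d)) : Set (V d)) x y)
        rw [← h3]
        apply integral_mono_of_nonneg
        · refine Filter.Eventually.of_forall fun ω => ?_
          exact mul_nonneg (mul_nonneg (hF0 x ω) (hF0 y ω))
            (Set.indicator_nonneg (fun _ _ => zero_le_one) ω)
        · exact (integrable_const (1 : ℝ)).indicator (meas_Cn _ x y)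
        · refine Filter.Eventually.of_forall fun ω => ?_
          have h4 : F x ω * F y ω ≤ 1 := mul_le_one₀ (hF1 x ω) (hF0 y ω) (hF1 y ω)
          have h5 : (0 : ℝ) ≤ Set.indicator {ω | Cn ((BB d M L : Finset (V d)) : Set (V d)) ω x y}
            (fun _ => (1 : ℝ)) ω := Set.indicator_nonneg (fun _ _ => zero_le_one) ω
          have h6 := mul_le_mul_of_nonneg_right h4 h5
          rw [one_mul] at h6
          exact h6
      refine (Finset.sum_le_sum h2).trans ?_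
      rw [← Finset.mul_sum]
      apply mul_le_mul_of_nonneg_left _ hA.le
      have h3 : ∑ y ∈ cube lam j, kr (y - x) ≤ ∑ y ∈ BF x lam, kr (y - x) :=
        Finset.sum_le_sum_of_subset_of_nonneg (ConB_cube_BF hx) fun y _ _ => (kr_pos _).le
      refine h3.trans ((hsk lam x x).trans ?_)
      apply mul_le_mul_of_nonneg_left _ hC.le
      nlinarith
    have h2 := Finset.sum_le_card_nsmul _ _ _ h1
    rw [nsmul_eq_mul, hcard] at h2
    exact h2
  have hsub : {ω | (cn (BG M L c1 b1 ω) (cube lam j) : ℝ) < cB / 2 * v ∨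
      2 * (A / c1 ^ 2) * v < cn (BG M L c1 b1 ω) (cube lam j)} ⊆
      {ω | g * v ≤ |∑ x ∈ cube lam j, F x ω - ∑ x ∈ cube lam j, ∫ ω, F x ω ∂(perc d p0)|} := by
    intro ω hω
    rw [Set.mem_ofPred_eq] at hω ⊢
    rw [hsum ω]
    have g1 : g ≤ cB / 2 := by
      rw [hg]
      have := min_le_left cB (A / c1 ^ 2)
      linarith
    have g2 : g ≤ A / c1 ^ 2 := by
      rw [hg]
      have := min_le_right cB (A / c1 ^ 2)
      have h : 0 < A / c1 ^ 2 := by positivity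
      linarith
    have g1v : g * v ≤ cB / 2 * v := mul_le_mul_of_nonneg_right g1 hv0.le
    have g2v : g * v ≤ A / c1 ^ 2 * v := mul_le_mul_of_nonneg_right g2 hv0.le
    rcases hω with hω | hω
    · rw [le_abs]
      right
      linarith
    · rw [le_abs]
      left
      linarith
  refine (measureReal_mono hsub).trans (hcheb.trans ?_)
  rw [div_le_div_iff₀ (by positivity) (by positivity)]
  have hd7 := H.hd
  have e1 : (g * v) ^ 2 = g ^ 2 * ((lam : ℝ) ^ d * (lam : ℝ) ^ d / (L : ℝ) ^ 4) := by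
    rw [hvdef]
    field_simp
  have e2 : (L : ℝ) ^ 4 = (m : ℝ) ^ 4 * (lam : ℝ) ^ 4 := by
    rw [hLdef]
    push_cast
    ring
  have e3 : (lam : ℝ) ^ 7 ≤ (lam : ℝ) ^ d := pow_le_pow_right₀ hlamR hd7
  calc (∑ x ∈ cube lam j, ∑ y ∈ cube lam j, ∫ ω, F x ω * F y ω *
        Set.indicator {ω | Cn ((BB d M L : Finset (V d)) : Set (V d)) ω x y}
          (fun _ => (1 : ℝ)) ω ∂(perc d p0)) * (lam : ℝ)
      ≤ (lam : ℝ) ^ d * (A * (C * (4 * (lam : ℝ) ^ 2))) * lam :=
        mul_le_mul_of_nonneg_right hvar (by positivity)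
    _ = 4 * A * C * (lam : ℝ) ^ d * (lam : ℝ) ^ 3 := by ring
    _ ≤ 4 * A * C * (lam : ℝ) ^ d * ((lam : ℝ) ^ d / (lam : ℝ) ^ 4) := by
        apply mul_le_mul_of_nonneg_left _ (by positivity)
        rw [le_div_iff₀ (by positivity)]
        calc (lam : ℝ) ^ 3 * (lam : ℝ) ^ 4 = (lam : ℝ) ^ 7 := by ring
          _ ≤ _ := e3
    _ = 4 * A * C / g ^ 2 * (m : ℝ) ^ 4 * (g * v) ^ 2 := by
        rw [e1, e2]
        field_simp

theorem con_B {p0 A cM : ℝ} {M : ℕ} (H : Crit d p0 A cM M) (c1 b1 cB : ℝ) (hc1 : 0 < c1)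
    (hb1 : 0 < b1) (hcB : 0 < cB) (hlo : ∀ (L : ℕ) (x : V d), 1 ≤ c1 * L →
      cB / (L : ℝ) ^ 2 ≤ (perc d p0).real {ω | x ∈ BG M L c1 b1 ω}) (m : ℕ) (hm : 1 ≤ m) (δ : ℝ)
    (hδ : 0 < δ) : ∃ lam0 : ℕ, ∀ lam : ℕ, lam0 ≤ lam → (perc d p0).real {ω | ∃ j ∈ JJ d m,
      (cn (BG M (m * lam) c1 b1 ω) (cube lam j) : ℝ) < cB / 2 * vol d m lam ∨
      2 * (A / c1 ^ 2) * vol d m lam < cn (BG M (m * lam) c1 b1 ω) (cube lam j)} ≤ δ := by
  classical
  obtain ⟨C, hC, hone⟩ := ConB_one H c1 b1 cB hc1 hb1 hcB hlo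
  have hprob := H.prob
  obtain ⟨n1, hn1⟩ := exists_nat_ge (1 / c1)
  obtain ⟨n2, hn2⟩ := exists_nat_ge (((JJ d m).card : ℝ) * (C * (m : ℝ) ^ 4) / δ)
  refine ⟨max 1 (max n1 n2), fun lam hlam => ?_⟩
  have hl1 : 1 ≤ lam := (le_max_left _ _).trans hlam
  have hl2 : n1 ≤ lam := ((le_max_left _ _).trans (le_max_right _ _)).trans hlam
  have hl3 : n2 ≤ lam := ((le_max_right _ _).trans (le_max_right _ _)).trans hlam
  have hlR : (1 : ℝ) ≤ lam := by exact_mod_cast hl1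
  have hmR : (1 : ℝ) ≤ m := by exact_mod_cast hm
  have hL : 1 ≤ c1 * ((m * lam : ℕ) : ℝ) := by
    have h1 : (1 / c1 : ℝ) ≤ lam := hn1.trans (by exact_mod_cast hl2)
    rw [div_le_iff₀ hc1] at h1
    push_cast
    nlinarith [mul_pos hc1 (by linarith : (0 : ℝ) < lam)]
  have hsub : {ω : Cfg d | ∃ j ∈ JJ d m,
      (cn (BG M (m * lam) c1 b1 ω) (cube lam j) : ℝ) < cB / 2 * vol d m lam ∨
      2 * (A / c1 ^ 2) * vol d m lam < cn (BG M (m * lam) c1 b1 ω) (cube lam j)} ⊆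
      ⋃ j ∈ JJ d m, {ω : Cfg d |
      (cn (BG M (m * lam) c1 b1 ω) (cube lam j) : ℝ) < cB / 2 * vol d m lam ∨
      2 * (A / c1 ^ 2) * vol d m lam < cn (BG M (m * lam) c1 b1 ω) (cube lam j)} := by
    rintro ω ⟨j, hj, h⟩
    rw [Set.mem_iUnion₂]
    exact ⟨j, hj, h⟩
  refine (measureReal_mono hsub (measure_ne_top _ _)).trans
    ((measureReal_biUnion_finset_le _ _).trans ?_)
  have h1 := Finset.sum_le_card_nsmul (JJ d m) _ _ fun j hj => hone m lam j hm hl1 hL hj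
  refine h1.trans ?_
  rw [nsmul_eq_mul, mul_div_assoc', div_le_iff₀ (by linarith)]
  have h2 : ((JJ d m).card : ℝ) * (C * (m : ℝ) ^ 4) / δ ≤ lam := hn2.trans (by exact_mod_cast hl3)
  rw [div_le_iff₀ hδ] at h2
  linarith

end H95LBS
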