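import Pool.Agent.H95.LBS.Vol

/-!
PROJECT DS (MP_0d9ad5_pr), JOB DS-StatM. Markov bounds (section 2e of note 2700).
PROOF. Markov and linearity, `card (WW d L) = (3L)^d`, `card (BB d M L) <= C L^d`. `st_reach`: `H.arm`. `st_fat`:
`vol3` with `N = b L^4`. `st_long`: if the hub of `x` is long then some `y` in it has distance `>= ⌈ℓ/2⌉` from `x`
(triangle inequality for `dist` in a connected component), `H.intr` with `r = ⌈b3 L^2/2⌉`. `st_col`: each hub
`D` meeting big points of the window has `>= b1 L^4` points (its big point `x` has `bigN >= b1 L^4` points in its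
hub), all `z ∈ D` satisfy `hs z = card D`; so the number of such hubs is at most
`#{z ∈ BB : b1 L^4 <= hs z} / (b1 L^4)`; `vol3`, Markov.
-/

namespace H95LBS

open H5DF H95LBD MeasureTheory

variable {d : ℕ}

open Classical in
/-- Markov for the number of points with a property. -/
lemma statM_markov {Ω ι : Type*} [MeasurableSpace Ω] (μ : Measure Ω) [IsProbabilityMeasure μ]
    (T : Finset ι) (P : ι → Ω → Prop) (c p : ℝ) (hc : 0 < c)
    (h : ∑ x ∈ T, μ.real {ω | P x ω} ≤ p * c) :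
    μ.real {ω | c < ((T.filter (fun x => P x ω)).card : ℝ)} ≤ p := by
  set F : ι → Set Ω := fun x => toMeasurable μ {ω | P x ω} with hF
  have hFm : ∀ x, MeasurableSet (F x) := fun x => measurableSet_toMeasurable _ _
  have hFr : ∀ x, μ.real (F x) = μ.real {ω | P x ω} := fun x => by
    simp only [Measure.real, hF, measure_toMeasurable]
  set f : Ω → ℝ := fun ω => ∑ x ∈ T, (F x).indicator (fun _ => (1 : ℝ)) ω with hf
  have hint : ∀ x ∈ T, Integrable ((F x).indicator (fun _ => (1 : ℝ))) μ := fun x _ =>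
    (integrable_const _).indicator (hFm x)
  have hfi : Integrable f μ := integrable_finset_sum _ hint
  have hf0 : 0 ≤ᵐ[μ] f := Filter.Eventually.of_forall fun ω =>
    Finset.sum_nonneg fun x _ => Set.indicator_nonneg (fun _ _ => zero_le_one) _
  have hfint : ∫ ω, f ω ∂μ = ∑ x ∈ T, μ.real {ω | P x ω} := by
    rw [hf, integral_finset_sum _ hint]
    refine Finset.sum_congr rfl fun x _ => ?_
    rw [integral_indicator_const _ (hFm x), hFr]
    simp
  have h1 := mul_meas_ge_le_integral_of_nonneg hf0 hfi c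
  have h2 : μ.real {ω | c < ((T.filter (fun x => P x ω)).card : ℝ)} ≤ μ.real {ω | c ≤ f ω} := by
    refine measureReal_mono ?_ (measure_ne_top _ _)
    intro ω hω
    have h3 : ((T.filter (fun x => P x ω)).card : ℝ) ≤ f ω := by
      rw [Finset.card_filter]
      push_cast
      refine Finset.sum_le_sum fun x _ => ?_
      by_cases hP : P x ω
      · have : ω ∈ F x := subset_toMeasurable _ _ hP
        rw [Set.indicator_of_mem this]
        simp [hP]
      · simp only [hP, if_false]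
        exact Set.indicator_nonneg (fun _ _ => zero_le_one) _
    have h4 : c < ((T.filter (fun x => P x ω)).card : ℝ) := hω
    exact le_of_lt (lt_of_lt_of_le h4 h3)
  have h5 : c * μ.real {ω | c ≤ f ω} ≤ p * c := by
    rw [hfint] at h1
    exact h1.trans h
  have h6 : μ.real {ω | c ≤ f ω} ≤ p := by
    by_contra hcon
    push Not at hcon
    nlinarith
  exact h2.trans h6

lemma statM_card_WW (L : ℕ) : ((WW d L).card : ℝ) = (3 * (L : ℝ)) ^ d := by
  unfold WW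
  rw [Fintype.card_piFinset]
  simp only [Int.card_Ico, Finset.prod_const, Finset.card_univ, Fintype.card_fin]
  have : (2 * (L : ℤ) - -(L : ℤ)).toNat = 3 * L := by omega
  rw [this]
  push_cast
  ring

lemma statM_card_BB (M L : ℕ) (hL : 1 ≤ L) :
    ((BB d M L).card : ℝ) ≤ (3 * (10 * M + 3)) ^ d * (L : ℝ) ^ d := by
  unfold BB BF
  have h0 : (Finset.image (fun x : V d => x + 0) (Box d ((10 * M + 3) * L))).card ≤
      (Box d ((10 * M + 3) * L)).card := Finset.card_image_le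
  refine le_trans (Nat.cast_le.2 h0) ?_
  refine le_trans (card_Box_le _ (by nlinarith)) ?_
  push_cast
  rw [mul_pow, mul_pow, mul_assoc]

/-- Markov in the window. -/
lemma statM_WW {p0 A cM : ℝ} {M : ℕ} (H : Crit d p0 A cM M) (P : V d → Cfg d → Prop)
    (L : ℕ) (hL : 1 ≤ L) (K c η0 : ℝ) (hc : 0 < c)
    (hP : ∀ x, (perc d p0).real {ω | P x ω} ≤ K / (L : ℝ) ^ 2) (hK : 3 ^ d * K ≤ η0 * c) :
    (perc d p0).real {ω | c * (L : ℝ) ^ (d - 2) < cn {x | P x ω} (WW d L)} ≤ η0 := by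
  classical
  haveI := H.prob
  have hL0 : (0 : ℝ) < L := by exact_mod_cast hL
  have h1 := statM_markov (perc d p0) (WW d L) P (c * (L : ℝ) ^ (d - 2)) η0 (by positivity) ?_
  · refine le_trans (le_of_eq ?_) h1
    congr 1
  · calc ∑ x ∈ WW d L, (perc d p0).real {ω | P x ω} ≤ ∑ x ∈ WW d L, K / (L : ℝ) ^ 2 :=
        Finset.sum_le_sum fun x _ => hP x
      _ = (3 * (L : ℝ)) ^ d * (K / (L : ℝ) ^ 2) := by
        rw [Finset.sum_const, nsmul_eq_mul, statM_card_WW]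
      _ = 3 ^ d * K * (L : ℝ) ^ (d - 2) := by
        have h7 := H.hd
        have h2 : (L : ℝ) ^ d = (L : ℝ) ^ (d - 2) * (L : ℝ) ^ 2 := by
          rw [← pow_add]
          congr 1
          omega
        rw [mul_pow, h2]
        field_simp
      _ ≤ η0 * c * (L : ℝ) ^ (d - 2) := by gcongr
      _ = _ := by ring

theorem st_reach {p0 A cM : ℝ} {M : ℕ} (H : Crit d p0 A cM M) (c1 η0 : ℝ) (hc1 : 0 < c1)
    (hη : 0 < η0) : ∃ CR : ℝ, 0 < CR ∧ ∀ L : ℕ, 1 ≤ c1 * L → (perc d p0).real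
      {ω | CR * (L : ℝ) ^ (d - 2) < cn {x | ∃ z, c1 * L ≤ nm (z - x) ∧
        Cn (BB d M L : Set (V d)) ω x z} (WW d L)} ≤ η0 := by
  haveI := H.prob
  have hA : 0 < A := lt_of_lt_of_le one_pos H.hA
  refine ⟨3 ^ d * (A / c1 ^ 2) / η0, by positivity, ?_⟩
  intro L hL
  have hL1 : 1 ≤ L := by
    rcases Nat.eq_zero_or_pos L with h | h
    · subst h
      norm_num at hL
    · exact h
  have hL0 : (0 : ℝ) < L := by exact_mod_cast hL1
  refine statM_WW H (fun x ω => ∃ z, c1 * L ≤ nm (z - x) ∧ Cn (BB d M L : Set (V d)) ω x z)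
    L hL1 (A / c1 ^ 2) _ η0 (by positivity) ?_ ?_
  · intro x
    set r := ⌈c1 * L⌉₊ with hr
    have hr0 : c1 * L ≤ r := Nat.le_ceil _
    have hr1 : 1 ≤ r := by
      have : (1 : ℝ) ≤ r := hL.trans hr0
      exact_mod_cast this
    calc (perc d p0).real {ω | ∃ z, c1 * L ≤ nm (z - x) ∧ Cn (BB d M L : Set (V d)) ω x z}
        ≤ (perc d p0).real (Ar x r) := by
          refine measureReal_mono ?_ (measure_ne_top _ _)
          rintro ω ⟨z, hz, hz2⟩
          exact ⟨z, Nat.ceil_le.2 hz, hz2.cluster⟩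
      _ = (perc d p0).real (Ar 0 r) := perc_Ar p0 H.hp0.le H.hp1.le x r
      _ ≤ A / (r : ℝ) ^ 2 := H.arm r hr1
      _ ≤ A / (c1 * L) ^ 2 := by gcongr
      _ = A / c1 ^ 2 / (L : ℝ) ^ 2 := by
        rw [mul_pow]
        field_simp
  · rw [mul_div_cancel₀ _ hη.ne']

theorem st_fat {p0 A cM : ℝ} {M : ℕ} (H : Crit d p0 A cM M) (δf η0 : ℝ) (hδ : 0 < δf)
    (hη : 0 < η0) : ∃ b0 : ℝ, 1 ≤ b0 ∧ ∀ b : ℝ, b0 ≤ b → ∀ L : ℕ, 1 ≤ L → (perc d p0).real
      {ω | δf * (L : ℝ) ^ (d - 2) < cn {x | b * (L : ℝ) ^ 4 < hs (BB d M L) ω x} (WW d L)} ≤ η0 := by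
  haveI := H.prob
  obtain ⟨C, hC, hv⟩ := vol3 H
  refine ⟨max 1 ((3 ^ d * C / (η0 * δf)) ^ 2), le_max_left _ _, ?_⟩
  intro b hb L hL
  have hL0 : (1 : ℝ) ≤ L := by exact_mod_cast hL
  have hb1 : 1 ≤ b := (le_max_left _ _).trans hb
  have hb2 : (3 ^ d * C / (η0 * δf)) ^ 2 ≤ b := (le_max_right _ _).trans hb
  have hsb : 3 ^ d * C / (η0 * δf) ≤ Real.sqrt b := Real.le_sqrt_of_sq_le hb2
  have hsb0 : 0 < Real.sqrt b := Real.sqrt_pos.2 (by linarith)
  refine statM_WW H (fun x ω => b * (L : ℝ) ^ 4 < hs (BB d M L) ω x) L hL (C / Real.sqrt b) δf η0 hδ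
    ?_ ?_
  · intro x
    have hN : 1 ≤ b * (L : ℝ) ^ 4 := one_le_mul_of_one_le_of_one_le hb1 (one_le_pow₀ hL0)
    have h1 := hv (BB d M L : Set (V d)) x (BB d M L) (b * (L : ℝ) ^ 4) hN
    have h2 : Real.sqrt (b * (L : ℝ) ^ 4) = Real.sqrt b * (L : ℝ) ^ 2 := by
      rw [Real.sqrt_mul (by linarith)]
      congr 1
      rw [show (L : ℝ) ^ 4 = ((L : ℝ) ^ 2) ^ 2 by ring]
      exact Real.sqrt_sq (by positivity)
    rw [h2] at h1
    refine le_trans (measureReal_mono ?_ (measure_ne_top _ _)) (h1.trans (le_of_eq ?_))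
    · intro ω hω
      have hω' : b * (L : ℝ) ^ 4 < hs (BB d M L) ω x := hω
      exact le_of_lt hω'
    · rw [div_div]
  · rw [div_le_iff₀ (by positivity)] at hsb
    rw [← mul_div_assoc, div_le_iff₀ hsb0]
    linarith

/-- Probability that the hub of a point is long. -/
theorem prob_long {p0 A cM : ℝ} {M : ℕ} (H : Crit d p0 A cM M) (B : Finset (V d)) (ℓ : ℝ)
    (hℓ : 0 < ℓ) (x : V d) : (perc d p0).real {ω | Long B ω ℓ x} ≤ 2 * A / ℓ := by
  haveI := H.prob
  have hA : 0 < A := lt_of_lt_of_le one_pos H.hA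
  set r := ⌈ℓ / 2⌉₊ with hr
  have hr0 : ℓ / 2 ≤ r := Nat.le_ceil _
  have hr1 : 1 ≤ r := Nat.ceil_pos.2 (by linarith)
  have hsub : {ω | Long B ω ℓ x} ⊆
      {ω | ∃ y, Cn (B : Set (V d)) ω x y ∧ r ≤ (G (cut (B : Set (V d)) ω)).dist x y} := by
    rintro ω ⟨y, y', h1, h2, h3⟩
    by_cases h4 : r ≤ (G (cut (B : Set (V d)) ω)).dist x y
    · exact ⟨y, h1, h4⟩
    · refine ⟨y', h2, ?_⟩
      by_contra h5
      push Not at h4 h5
      have h6 : ((G (cut (B : Set (V d)) ω)).dist x y : ℝ) < ℓ / 2 := Nat.lt_ceil.1 h4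
      have h7 : ((G (cut (B : Set (V d)) ω)).dist x y' : ℝ) < ℓ / 2 := Nat.lt_ceil.1 h5
      have g1 : (G (cut (B : Set (V d)) ω)).Reachable x y := h1
      have g2 : (G (cut (B : Set (V d)) ω)).Reachable x y' := h2
      obtain ⟨p, hp⟩ := g1.exists_walk_length_eq_dist
      obtain ⟨p', hp'⟩ := g2.exists_walk_length_eq_dist
      have h8 : (G (cut (B : Set (V d)) ω)).dist y y' ≤
          (G (cut (B : Set (V d)) ω)).dist x y + (G (cut (B : Set (V d)) ω)).dist x y' := by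
        have h9 := SimpleGraph.dist_le (p.reverse.append p')
        rw [SimpleGraph.Walk.length_append, SimpleGraph.Walk.length_reverse, hp, hp'] at h9
        exact h9
      have h10 : ((G (cut (B : Set (V d)) ω)).dist y y' : ℝ) ≤
          (G (cut (B : Set (V d)) ω)).dist x y + (G (cut (B : Set (V d)) ω)).dist x y' := by
        exact_mod_cast h8
      linarith
  calc (perc d p0).real {ω | Long B ω ℓ x} ≤ _ := measureReal_mono hsub (measure_ne_top _ _)
    _ ≤ A / r := H.intr _ x r hr1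
    _ ≤ A / (ℓ / 2) := by gcongr
    _ = 2 * A / ℓ := by field_simp

theorem st_long {p0 A cM : ℝ} {M : ℕ} (H : Crit d p0 A cM M) (δf η0 : ℝ) (hδ : 0 < δf)
    (hη : 0 < η0) : ∃ b0 : ℝ, 1 ≤ b0 ∧ ∀ b3 : ℝ, b0 ≤ b3 → ∀ L : ℕ, 1 ≤ L → (perc d p0).real
      {ω | δf * (L : ℝ) ^ (d - 2) < cn {x | Long (BB d M L) ω (b3 * (L : ℝ) ^ 2) x} (WW d L)} ≤
        η0 := by
  have hA : 0 < A := lt_of_lt_of_le one_pos H.hA
  refine ⟨max 1 (3 ^ d * (2 * A) / (η0 * δf)), le_max_left _ _, ?_⟩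
  intro b hb L hL
  have hL0 : (1 : ℝ) ≤ L := by exact_mod_cast hL
  have hb1 : 1 ≤ b := (le_max_left _ _).trans hb
  have hb2 : 3 ^ d * (2 * A) / (η0 * δf) ≤ b := (le_max_right _ _).trans hb
  refine statM_WW H (fun x ω => Long (BB d M L) ω (b * (L : ℝ) ^ 2) x) L hL (2 * A / b) δf η0 hδ
    ?_ ?_
  · intro x
    refine (prob_long H (BB d M L) (b * (L : ℝ) ^ 2) (by positivity) x).trans (le_of_eq ?_)
    rw [div_div]
  · rw [div_le_iff₀ (by positivity)] at hb2
    rw [← mul_div_assoc, div_le_iff₀ (by linarith)]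
    linarith

/-- The hub as a filter has `hs` elements. -/
lemma statM_hs (B : Finset (V d)) (ω : Cfg d) (x : V d) : hs B ω x = (hubF B ω x).card := by
  classical
  unfold hs cn hubF
  rfl

lemma statM_hubF_eq {B : Finset (V d)} {ω : Cfg d} {x y : V d} (h : y ∈ hubF B ω x) :
    hubF B ω y = hubF B ω x := by
  ext z
  have h1 := (mem_hubF.1 h).2
  rw [mem_hubF, mem_hubF]
  exact ⟨fun h2 => ⟨h2.1, h1.trans h2.2⟩, fun h2 => ⟨h2.1, h1.symm.trans h2.2⟩⟩

lemma statM_big {M L : ℕ} {c1 b1 : ℝ} {ω : Cfg d} {x : V d} (hxW : x ∈ WW d L)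
    (hx : x ∈ BG M L c1 b1 ω) : b1 * (L : ℝ) ^ 4 ≤ (hubF (BB d M L) ω x).card := by
  classical
  refine le_trans (show b1 * (L : ℝ) ^ 4 ≤ bigN M L c1 ω x from hx) ?_
  have hsub : ((BF x (10 * L)).filter fun y => c1 * L ≤ nm (y - x) ∧
      Cn (Bx x (10 * M * L)) ω x y) ⊆ hubF (BB d M L) ω x := by
    intro y hy
    obtain ⟨-, -, hc⟩ := Finset.mem_filter.1 hy
    have hnx : nm x ≤ 2 * L := by
      rw [nm_le]
      intro i
      have := mem_WW.1 hxW i
      omega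
    have hbox : Bx x (10 * M * L) ⊆ (BB d M L : Set (V d)) := by
      intro z hz
      rw [mem_Bx] at hz
      unfold BB
      rw [Finset.mem_coe, mem_BF, sub_zero]
      have h1 := nm_le_add z x
      nlinarith
    have hc2 : Cn (BB d M L : Set (V d)) ω x y := hc.mono hbox fun _ h => h
    have hxB : x ∈ (BB d M L : Set (V d)) := Finset.mem_coe.2 (WW_sub_BB hxW)
    exact mem_hubF.2 ⟨Finset.mem_coe.1 (hc2.mem hxB), hc2⟩
  have : bigN M L c1 ω x ≤ (hubF (BB d M L) ω x).card := by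
    unfold bigN
    exact Finset.card_le_card hsub
  exact_mod_cast this

open Classical in
lemma statM_col (M L : ℕ) (c1 b1 : ℝ) (ω : Cfg d) :
    (((HF (BB d M L) ω).filter
      (fun D => ∃ x ∈ D, x ∈ WW d L ∧ x ∈ BG M L c1 b1 ω)).card : ℝ) * (b1 * (L : ℝ) ^ 4) ≤
      ((BB d M L).filter fun z => b1 * (L : ℝ) ^ 4 ≤ hs (BB d M L) ω z).card := by
  set K := (HF (BB d M L) ω).filter
      (fun D => ∃ x ∈ D, x ∈ WW d L ∧ x ∈ BG M L c1 b1 ω) with hK
  have hD : ∀ D ∈ K, ∀ z ∈ D, hubF (BB d M L) ω z = D := by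
    intro D hD z hz
    obtain ⟨w, -, rfl⟩ := Finset.mem_image.1 (Finset.mem_filter.1 hD).1
    exact statM_hubF_eq hz
  have hcard : ∀ D ∈ K, b1 * (L : ℝ) ^ 4 ≤ D.card := by
    intro D hDK
    obtain ⟨x, hxD, hxW, hxB⟩ := (Finset.mem_filter.1 hDK).2
    rw [← hD D hDK x hxD]
    exact statM_big hxW hxB
  have hdis : (K : Set (Finset (V d))).PairwiseDisjoint id := by
    intro D hDK D' hDK' hne
    rw [Function.onFun, Finset.disjoint_left]
    intro z hz hz'
    exact hne ((hD D hDK z hz).symm.trans (hD D' hDK' z hz'))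
  have hsub : K.biUnion id ⊆ (BB d M L).filter fun z => b1 * (L : ℝ) ^ 4 ≤ hs (BB d M L) ω z := by
    intro z hz
    obtain ⟨D, hDK, hzD⟩ := Finset.mem_biUnion.1 hz
    have h1 := hD D hDK z hzD
    rw [Finset.mem_filter]
    constructor
    · have h2 : z ∈ hubF (BB d M L) ω z := by
        rw [h1]
        exact hzD
      exact (mem_hubF.1 h2).1
    · rw [statM_hs, h1]
      exact hcard D hDK
  calc (K.card : ℝ) * (b1 * (L : ℝ) ^ 4) = ∑ _D ∈ K, b1 * (L : ℝ) ^ 4 := by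
        rw [Finset.sum_const, nsmul_eq_mul]
    _ ≤ ∑ D ∈ K, (D.card : ℝ) := Finset.sum_le_sum hcard
    _ = ((K.biUnion id).card : ℝ) := by
        rw [Finset.card_biUnion hdis]
        push_cast
        rfl
    _ ≤ _ := by exact_mod_cast Finset.card_le_card hsub

open Classical in
theorem st_col {p0 A cM : ℝ} {M : ℕ} (H : Crit d p0 A cM M) (c1 b1 η0 : ℝ) (hb1 : 0 < b1)
    (hη : 0 < η0) : ∃ CH : ℝ, 0 < CH ∧ ∀ L : ℕ, 1 ≤ L → 1 ≤ b1 * (L : ℝ) ^ 4 → (perc d p0).real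
      {ω | CH * (L : ℝ) ^ (d - 6) < ((HF (BB d M L) ω).filter
        (fun D => ∃ x ∈ D, x ∈ WW d L ∧ x ∈ BG M L c1 b1 ω)).card} ≤ η0 := by
  haveI := H.prob
  obtain ⟨C, hC, hv⟩ := vol3 H
  have hM : (0 : ℝ) ≤ M := Nat.cast_nonneg M
  refine ⟨(3 * (10 * M + 3)) ^ d * (C / Real.sqrt b1) / (η0 * b1), by positivity, ?_⟩
  intro L hL hbL
  have hL0 : (0 : ℝ) < L := by exact_mod_cast hL
  have hsb0 : 0 < Real.sqrt b1 := Real.sqrt_pos.2 hb1
  have h7 := H.hd
  have h1 := statM_markov (perc d p0) (BB d M L)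
    (fun z ω => b1 * (L : ℝ) ^ 4 ≤ hs (BB d M L) ω z)
    ((3 * (10 * M + 3)) ^ d * (C / Real.sqrt b1) / (η0 * b1) * (L : ℝ) ^ (d - 6) *
      (b1 * (L : ℝ) ^ 4)) η0 (by positivity) ?_
  · refine le_trans (measureReal_mono ?_ (measure_ne_top _ _)) h1
    intro ω hω
    have h2 := statM_col M L c1 b1 ω
    have h3 : (3 * (10 * M + 3)) ^ d * (C / Real.sqrt b1) / (η0 * b1) * (L : ℝ) ^ (d - 6) <
      (((HF (BB d M L) ω).filter
        (fun D => ∃ x ∈ D, x ∈ WW d L ∧ x ∈ BG M L c1 b1 ω)).card : ℝ) := hω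
    exact lt_of_lt_of_le (mul_lt_mul_of_pos_right h3 (by positivity)) h2
  · have h2 : ∀ x, (perc d p0).real {ω | b1 * (L : ℝ) ^ 4 ≤ hs (BB d M L) ω x} ≤
        C / Real.sqrt b1 / (L : ℝ) ^ 2 := by
      intro x
      have h3 := hv (BB d M L : Set (V d)) x (BB d M L) (b1 * (L : ℝ) ^ 4) hbL
      have h4 : Real.sqrt (b1 * (L : ℝ) ^ 4) = Real.sqrt b1 * (L : ℝ) ^ 2 := by
        rw [Real.sqrt_mul hb1.le]
        congr 1
        rw [show (L : ℝ) ^ 4 = ((L : ℝ) ^ 2) ^ 2 by ring]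
        exact Real.sqrt_sq (by positivity)
      rw [h4] at h3
      refine h3.trans (le_of_eq ?_)
      rw [div_div]
    calc ∑ x ∈ BB d M L, (perc d p0).real {ω | b1 * (L : ℝ) ^ 4 ≤ hs (BB d M L) ω x}
        ≤ ∑ _x ∈ BB d M L, C / Real.sqrt b1 / (L : ℝ) ^ 2 := Finset.sum_le_sum fun x _ => h2 x
      _ = ((BB d M L).card : ℝ) * (C / Real.sqrt b1 / (L : ℝ) ^ 2) := by
        rw [Finset.sum_const, nsmul_eq_mul]
      _ ≤ ((3 * (10 * M + 3)) ^ d * (L : ℝ) ^ d) * (C / Real.sqrt b1 / (L : ℝ) ^ 2) := by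
        gcongr
        exact statM_card_BB M L hL
      _ = _ := by
        have h5 : (L : ℝ) ^ d = (L : ℝ) ^ (d - 6) * (L : ℝ) ^ 6 := by
          rw [← pow_add]
          congr 1
          omega
        rw [h5]
        field_simp

end H95LBS
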