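import Pool.Agent.H95.LBS.Mix
import Pool.Agent.H95.LBS.ConB
import Pool.Agent.H95.LBS.StatM

/-!
PROJECT DS (MP_0d9ad5_pr), JOB DS-Stat. Statics: the critical configuration is typical.
PROOF. `big_lo` gives `cB`; `ca = cB/16`. Choose `c1 <= 1` with `(3 c1)^d <= cv/2` where
`cv = ca c1^2/(4A)` (`CB = A/c1^2`; possible since `d > 2`). `con_Z` gives `b', cp`. `st_reach` with `η0/4` gives `CR`;
`b1 <= min b10 (1/2)`, `2 b1 CR <= cp/4`. `δf = cp/(4 b')`, `st_fat` with `η0/4` gives `b`. Then `η1, η2 <= 1` small (k2, k3).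
For `m >= 1`: `con_B` with `η0/4`, `con_Z` with `η0/8`, `lam0` also with `c1 m lam >= 1`. On the complement
of the bad events `MixOK` holds: `lo`, `hi` from `con_B`, `mix` from `mixing`.
-/

namespace H95LBS

open H5DF H95LBD MeasureTheory

variable {d : ℕ}

/-- Union bound for four events. -/
lemma Stat_union4 (μ : Measure (Cfg d)) [IsProbabilityMeasure μ] (E E1 E2 E3 E4 : Set (Cfg d))
    (η0 : ℝ) (h : E ⊆ E1 ∪ E2 ∪ E3 ∪ E4) (h1 : μ.real E1 ≤ η0 / 4) (h2 : μ.real E2 ≤ η0 / 4)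
    (h3 : μ.real E3 ≤ η0 / 4) (h4 : μ.real E4 ≤ η0 / 4) : μ.real E ≤ η0 := by
  have k0 : μ.real E ≤ μ.real (E1 ∪ E2 ∪ E3 ∪ E4) := measureReal_mono h
  have k1 := measureReal_union_le (μ := μ) (E1 ∪ E2 ∪ E3) E4
  have k2 := measureReal_union_le (μ := μ) (E1 ∪ E2) E3
  have k3 := measureReal_union_le (μ := μ) E1 E2
  linarith

/-- Choice of `c1`. -/
lemma Stat_c1 (hd : 3 ≤ d) (A ca : ℝ) (hA : 0 < A) (hca : 0 < ca) : ∃ c1 : ℝ, 0 < c1 ∧ c1 ≤ 1 ∧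
    (3 * c1) ^ d ≤ ca / (4 * (A / c1 ^ 2)) / 2 := by
  have h3 : (0 : ℝ) < 3 ^ d := by positivity
  refine ⟨min 1 (ca / (8 * A * 3 ^ d)), lt_min one_pos (by positivity), min_le_left _ _, ?_⟩
  set c1 : ℝ := min 1 (ca / (8 * A * 3 ^ d)) with hc
  have hpos : 0 < c1 := lt_min one_pos (by positivity)
  have hle1 : c1 ≤ 1 := min_le_left _ _
  have hle2 : c1 ≤ ca / (8 * A * 3 ^ d) := min_le_right _ _
  obtain ⟨k, rfl⟩ : ∃ k, d = k + 3 := ⟨d - 3, by omega⟩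
  have h4 : ca / (4 * (A / c1 ^ 2)) / 2 = ca / (8 * A) * c1 ^ 2 := by
    field_simp
    ring
  rw [h4, mul_pow]
  have h5 : c1 ^ (k + 3) = c1 ^ 2 * (c1 ^ k * c1) := by ring
  have h6 : c1 ^ k ≤ 1 := pow_le_one₀ hpos.le hle1
  have h7 : c1 ^ k * c1 ≤ ca / (8 * A * 3 ^ (k + 3)) :=
    (mul_le_of_le_one_left hpos.le h6).trans hle2
  calc (3 : ℝ) ^ (k + 3) * c1 ^ (k + 3) = 3 ^ (k + 3) * (c1 ^ k * c1) * c1 ^ 2 := by rw [h5]; ring
    _ ≤ 3 ^ (k + 3) * (ca / (8 * A * 3 ^ (k + 3))) * c1 ^ 2 := by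
        refine mul_le_mul_of_nonneg_right ?_ (by positivity)
        exact mul_le_mul_of_nonneg_left h7 (by positivity)
    _ = ca / (8 * A) * c1 ^ 2 := by
        have : (3 : ℝ) ^ (k + 3) ≠ 0 := by positivity
        field_simp

/-- The final choice of the constants. -/
lemma Stat_eta (cB CB cp b b' : ℝ) (hcB : 0 < cB) (hCB : 0 < CB) (hcp : 0 < cp) (hb : 0 < b)
    (hb' : 0 < b') : ∃ η1 η2 : ℝ, 0 < η1 ∧ η1 ≤ 1 ∧ 0 < η2 ∧ η2 ≤ 1 ∧ η1 * η2 ≤ cB / 4 ∧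
      3 ^ d * η1 * (b + b') < cp / 2 ∧ 3 ^ d * η1 + 2 * CB * η2 ≤ cB / 16 / 2 := by
  have h3 : (0 : ℝ) < 3 ^ d := by positivity
  have hbb : 0 < b + b' := by positivity
  refine ⟨min 1 (min (cp / (4 * 3 ^ d * (b + b'))) (cB / (64 * 3 ^ d))),
    min 1 (min (cB / (128 * CB)) (cB / 4)), lt_min one_pos (lt_min (by positivity) (by positivity)),
    min_le_left _ _, lt_min one_pos (lt_min (by positivity) (by positivity)), min_le_left _ _,
    ?_, ?_, ?_⟩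
  · set η1 := min 1 (min (cp / (4 * 3 ^ d * (b + b'))) (cB / (64 * 3 ^ d)))
    set η2 := min 1 (min (cB / (128 * CB)) (cB / 4))
    have e1 : η1 ≤ 1 := min_le_left _ _
    have e2 : η2 ≤ cB / 4 := (min_le_right _ _).trans (min_le_right _ _)
    have e3 : 0 < η2 := lt_min one_pos (lt_min (by positivity) (by positivity))
    calc η1 * η2 ≤ 1 * η2 := mul_le_mul_of_nonneg_right e1 e3.le
      _ = η2 := one_mul _
      _ ≤ cB / 4 := e2
  · have e1 : min 1 (min (cp / (4 * 3 ^ d * (b + b'))) (cB / (64 * 3 ^ d))) ≤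
        cp / (4 * 3 ^ d * (b + b')) := (min_le_right _ _).trans (min_le_left _ _)
    calc 3 ^ d * min 1 (min (cp / (4 * 3 ^ d * (b + b'))) (cB / (64 * 3 ^ d))) * (b + b')
        ≤ 3 ^ d * (cp / (4 * 3 ^ d * (b + b'))) * (b + b') := by
          refine mul_le_mul_of_nonneg_right ?_ hbb.le
          exact mul_le_mul_of_nonneg_left e1 h3.le
      _ = cp / 4 := by field_simp
      _ < cp / 2 := by linarith
  · have e1 : min 1 (min (cp / (4 * 3 ^ d * (b + b'))) (cB / (64 * 3 ^ d))) ≤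
        cB / (64 * 3 ^ d) := (min_le_right _ _).trans (min_le_right _ _)
    have e2 : min 1 (min (cB / (128 * CB)) (cB / 4)) ≤ cB / (128 * CB) :=
      (min_le_right _ _).trans (min_le_left _ _)
    have e3 : 3 ^ d * min 1 (min (cp / (4 * 3 ^ d * (b + b'))) (cB / (64 * 3 ^ d))) ≤ cB / 64 := by
      calc _ ≤ 3 ^ d * (cB / (64 * 3 ^ d)) := mul_le_mul_of_nonneg_left e1 h3.le
        _ = cB / 64 := by field_simp
    have e4 : 2 * CB * min 1 (min (cB / (128 * CB)) (cB / 4)) ≤ cB / 64 := by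
      calc _ ≤ 2 * CB * (cB / (128 * CB)) := mul_le_mul_of_nonneg_left e2 (by positivity)
        _ = cB / 64 := by field_simp; norm_num
    linarith

theorem statics {p0 A cM : ℝ} {M : ℕ} (H : Crit d p0 A cM M) (η0 : ℝ) (hη : 0 < η0) :
    ∃ c1 b1 cB CB η1 η2 : ℝ, 0 < c1 ∧ c1 ≤ 1 ∧ 0 < b1 ∧ b1 ≤ 1 / 2 ∧ 0 < cB ∧ 0 < CB ∧ 0 < η1 ∧
      η1 ≤ 1 ∧ 0 < η2 ∧ η2 ≤ 1 ∧ η1 * η2 ≤ cB / 4 ∧
      ∀ m : ℕ, 1 ≤ m → ∃ lam0 : ℕ, ∀ lam : ℕ, lam0 ≤ lam →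
        (perc d p0).real {ω | ¬ MixOK M m lam c1 b1 cB CB η1 η2 ω} ≤ η0 := by
  have hpr := H.prob
  have hd3 : 3 ≤ d := le_trans (by norm_num) H.hd
  have hA : 0 < A := lt_of_lt_of_le one_pos H.hA
  have hη4 : 0 < η0 / 4 := by positivity
  obtain ⟨cB, hcB, hbig⟩ := big_lo H
  obtain ⟨c1, hc1, hc1', hc1v⟩ := Stat_c1 hd3 A (cB / 16) hA (by positivity)
  set CB : ℝ := A / c1 ^ 2 with hCBdef
  have hCB : 0 < CB := by positivity
  set cv : ℝ := cB / 16 / (4 * CB) with hcvdef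
  have hcv : 0 < cv := by positivity
  obtain ⟨b', cp, hb', hcp, hZ⟩ := con_Z H cv hcv
  obtain ⟨CR, hCR, hreach⟩ := st_reach H c1 (η0 / 4) hc1 hη4
  obtain ⟨b10, hb10, hbig2⟩ := hbig c1 hc1 hc1'
  set b1 : ℝ := min (min b10 (1 / 2)) (cp / (8 * CR)) with hb1def
  have hb1 : 0 < b1 := lt_min (lt_min hb10 (by norm_num)) (by positivity)
  have hb1a : b1 ≤ b10 := (min_le_left _ _).trans (min_le_left _ _)
  have hb1b : b1 ≤ 1 / 2 := (min_le_left _ _).trans (min_le_right _ _)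
  have hb1c : b1 ≤ cp / (8 * CR) := min_le_right _ _
  have hδf : 0 < cp / (4 * b') := by positivity
  obtain ⟨b, hb0, hfat⟩ := st_fat H (cp / (4 * b')) (η0 / 4) hδf hη4
  have hb : 0 < b := lt_of_lt_of_le one_pos hb0
  obtain ⟨η1, η2, hη1, hη1', hη2, hη2', hηη, k2, k3⟩ :=
    Stat_eta (d := d) cB CB cp b b' hcB hCB hcp hb hb'
  have k1 : 2 * b1 * CR + b' * (cp / (4 * b')) ≤ cp / 2 := by
    have e1 : 2 * b1 * CR ≤ cp / 4 := by
      calc 2 * b1 * CR = 2 * CR * b1 := by ring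
        _ ≤ 2 * CR * (cp / (8 * CR)) := mul_le_mul_of_nonneg_left hb1c (by positivity)
        _ = cp / 4 := by field_simp; norm_num
    have e2 : b' * (cp / (4 * b')) = cp / 4 := by field_simp
    linarith
  refine ⟨c1, b1, cB, CB, η1, η2, hc1, hc1', hb1, hb1b, hcB, hCB, hη1, hη1', hη2, hη2', hηη, ?_⟩
  intro m hm
  obtain ⟨l1, hl1⟩ := con_B H c1 b1 cB hc1 hb1 hcB
    (fun L x hL => hbig2 b1 hb1 hb1a L x hL) m hm (η0 / 4) hη4
  obtain ⟨l2, hl2⟩ := hZ c1 hc1 hc1v m hm (η0 / 4) hη4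
  refine ⟨max (max l1 l2) (max 1 ⌈1 / c1⌉₊), ?_⟩
  intro lam hlam
  have hg1 : l1 ≤ lam := le_trans ((le_max_left _ _).trans (le_max_left _ _)) hlam
  have hg2 : l2 ≤ lam := le_trans ((le_max_right _ _).trans (le_max_left _ _)) hlam
  have hg3 : 1 ≤ lam := le_trans ((le_max_left _ _).trans (le_max_right _ _)) hlam
  have hg4 : ⌈1 / c1⌉₊ ≤ lam := le_trans ((le_max_right _ _).trans (le_max_right _ _)) hlam
  have hL1 : 1 ≤ m * lam := Nat.mul_pos hm hg3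
  have hcL : 1 ≤ c1 * ((m * lam : ℕ) : ℝ) := by
    have e1 : 1 / c1 ≤ (lam : ℝ) := (Nat.le_ceil _).trans (by exact_mod_cast hg4)
    have e2 : (lam : ℝ) ≤ ((m * lam : ℕ) : ℝ) := by exact_mod_cast Nat.le_mul_of_pos_left lam hm
    have e3 : 1 / c1 ≤ ((m * lam : ℕ) : ℝ) := e1.trans e2
    rw [div_le_iff₀ hc1] at e3
    linarith
  refine Stat_union4 (perc d p0) _ _ _ _ _ η0 ?_ (hl1 lam hg1) (hl2 lam hg2)
    (hreach (m * lam) hcL) (hfat b le_rfl (m * lam) hL1)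
  intro ω hω
  by_contra hcon
  simp only [Set.mem_union, not_or] at hcon
  obtain ⟨⟨⟨n1, n2⟩, n3⟩, n4⟩ := hcon
  simp only [Set.mem_ofPred_eq, not_exists, not_and, not_or, not_lt] at n1 n2 n3 n4
  refine hω ⟨fun j hj => (n1 j hj).1, fun j hj => (n1 j hj).2, ?_⟩
  intro X X' hX hX' hdis hcov hv hv'
  exact mixing (L := m * lam) rfl hm hg3 H.hM hd3 ω c1 b1 CB CR cv cp b' b (cp / (4 * b')) η1 η2
    (cB / 16) hc1 hb1 hCB hCR hb' hb hη1 hη2 (fun j hj => (n1 j hj).2)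
    (fun R1 h1 R2 h2 h3 h4 => n2 R1 h1 R2 h2 h3 h4) n3 n4 k1 k2 k3 le_rfl X X' hX hX' hdis hcov
    hv hv'

end H95LBS
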