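import Pool.Agent.H95.LBS.Cnt
import Pool.Agent.H95.LBS.Rob
import Pool.Agent.H95.LBS.Stat
import Pool.Agent.H95.LBS.Med

/-!
PROJECT DS (MP_0d9ad5_pr), JOB DS-Block. Good blocks (assembly of the block estimate).
PROOF. `κ = min` of the `κ1` of `rob`, `cnt_ok`, and 1. `statics` with `η0/3` gives `c1, b1, cB, CB, η1, η2`; `rob` with `η0/3`
gives `cR, m0`; `m = max m0 (⌈16/c1⌉)`, at least 1; `cnt_ok` with `η0/3`. `E := {q | BlkOK ..}`; `MixOK`, `ROBok`, `CntOK`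
imply `BlkOK` by `giant`, `win_lo` (positivity of `cn BG (cube w)`) and `med` with `cR' = cR m^2`, `r1 = floor(cR m^2 n)` (for `lam`
large `cR m^2 n >= 2`), `C1 = medC ..`. `E` depends only on the edges inside the block box: `BG` at points of the window is
determined by the edges inside `Bx x (10 M L)`, connections `Cn BB`, and `EG` by edges inside `BB`; hence measurable
(`meas_dep2`). `s <= 1` for `lam` large.
-/

namespace H95LBS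

open H5DF H95LBD MeasureTheory

variable {d : ℕ}

/-- The block property. -/
def BlkOK (M m lam : ℕ) (c1 b1 C1 : ℝ) (q : Cfg d × Cfg d) : Prop :=
  ∃ x0 ∈ BB d M (m * lam), (∀ w : V d, nm w ≤ 1 →
    0 < cn (BG M (m * lam) c1 b1 q.1) (cube (m * lam) w) ∧
    8 * cn (BG M (m * lam) c1 b1 q.1 \ hub (BB d M (m * lam) : Set (V d)) (un q.1 q.2) x0)
      (cube (m * lam) w) ≤ cn (BG M (m * lam) c1 b1 q.1) (cube (m * lam) w)) ∧
  ∀ (h : V d → ℝ) (w w' : V d) (μ μ' : ℝ), nm w ≤ 1 → nm w' ≤ 1 → μ < μ' →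
    (cn (BG M (m * lam) c1 b1 q.1) (cube (m * lam) w) : ℝ) ≤
      4 * cn (BG M (m * lam) c1 b1 q.1 ∩ hub (BB d M (m * lam) : Set (V d)) (un q.1 q.2) x0 ∩
        {x | h x ≤ μ}) (cube (m * lam) w) →
    (cn (BG M (m * lam) c1 b1 q.1) (cube (m * lam) w') : ℝ) ≤
      4 * cn (BG M (m * lam) c1 b1 q.1 ∩ hub (BB d M (m * lam) : Set (V d)) (un q.1 q.2) x0 ∩
        {x | μ' ≤ h x}) (cube (m * lam) w') →
    (μ' - μ) ^ 2 ≤ C1 * ((m * lam : ℕ) : ℝ) ^ 2 / ((m * lam : ℕ) : ℝ) ^ (d - 6) *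
      EG (BB d M (m * lam)) q (hub (BB d M (m * lam) : Set (V d)) (un q.1 q.2) x0) h

lemma Block_cube {L : ℕ} {w x : V d} (hw : nm w ≤ 1) (hx : x ∈ cube L w) : x ∈ WW d L := by
  rw [mem_WW]
  intro i
  have h1 := mem_cube.1 hx i
  have h2 := nm_le.1 hw i
  have h3 : -1 ≤ w i ∧ w i ≤ 1 := by omega
  have h4 : (0 : ℤ) ≤ (L : ℤ) := by positivity
  constructor
  · nlinarith
  · nlinarith

lemma Block_EG {B : Finset (V d)} {q q' : Cfg d × Cfg d}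
    (h : ∀ e ∈ EB B, q.1 e = q'.1 e ∧ q.2 e = q'.2 e) (GG : Set (V d)) (f : V d → ℝ) :
    EG B q GG f = EG B q' GG f := by
  classical
  unfold EG
  refine Finset.sum_congr rfl fun x hx => Finset.sum_congr rfl fun σ _ => ?_
  by_cases h2 : x + step σ ∈ B
  · have h3 := Rob_un h (edge x σ)
      (mem_EB.2 (edge_mem_ins.2 ⟨Finset.mem_coe.2 hx, Finset.mem_coe.2 h2⟩))
    simp only [h3]
  · simp only [h2, false_and, and_false, if_false]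

theorem blk_dep {M m lam : ℕ} {c1 b1 C1 : ℝ} (hM : 1 ≤ M) (q q' : Cfg d × Cfg d)
    (h : ∀ e ∈ ins (Bx (0 : V d) ((10 * M + 3) * (m * lam))), q.1 e = q'.1 e ∧ q.2 e = q'.2 e)
    (hq : BlkOK M m lam c1 b1 C1 q) : BlkOK M m lam c1 b1 C1 q' := by
  classical
  have hE : ∀ e ∈ EB (BB d M (m * lam)), q.1 e = q'.1 e ∧ q.2 e = q'.2 e := by
    intro e he
    apply h
    have h1 := mem_EB.1 he
    rwa [BB, coe_BF] at h1
  have h1 : ∀ e ∈ EB (BB d M (m * lam)), q.1 e = q'.1 e := fun e he => (hE e he).1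
  have hC := Rob_Cn (Rob_un hE)
  have hH : ∀ x, hub (BB d M (m * lam) : Set (V d)) (un q.1 q.2) x =
      hub (BB d M (m * lam) : Set (V d)) (un q'.1 q'.2) x := by
    intro x
    unfold hub
    rw [hC]
  have hB : ∀ w : V d, nm w ≤ 1 → ∀ x ∈ cube (m * lam) w,
      (x ∈ BG M (m * lam) c1 b1 q.1 ↔ x ∈ BG M (m * lam) c1 b1 q'.1) := fun w hw x hx =>
    Rob_BG (Block_cube hw hx) h1
  have e1 : ∀ w : V d, nm w ≤ 1 → cn (BG M (m * lam) c1 b1 q.1) (cube (m * lam) w) =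
      cn (BG M (m * lam) c1 b1 q'.1) (cube (m * lam) w) := fun w hw => Rob_cn_congr (hB w hw)
  have e2 : ∀ (w : V d) (X : Set (V d)), nm w ≤ 1 →
      cn (BG M (m * lam) c1 b1 q.1 \ X) (cube (m * lam) w) =
      cn (BG M (m * lam) c1 b1 q'.1 \ X) (cube (m * lam) w) := fun w X hw =>
    Rob_cn_congr fun x hx => and_congr (hB w hw x hx) Iff.rfl
  have e3 : ∀ (w : V d) (X Y : Set (V d)), nm w ≤ 1 →
      cn (BG M (m * lam) c1 b1 q.1 ∩ X ∩ Y) (cube (m * lam) w) =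
      cn (BG M (m * lam) c1 b1 q'.1 ∩ X ∩ Y) (cube (m * lam) w) := fun w X Y hw =>
    Rob_cn_congr fun x hx => and_congr (and_congr (hB w hw x hx) Iff.rfl) Iff.rfl
  obtain ⟨x0, hx0, ha, hb⟩ := hq
  refine ⟨x0, hx0, ?_, ?_⟩
  · intro w hw
    have h2 := ha w hw
    rw [e1 w hw, e2 w _ hw, hH] at h2
    exact h2
  · intro f w w' μ μ' hw hw' hμ h3 h4
    have h2 := hb f w w' μ μ' hw hw' hμ
    rw [e1 w hw, e3 w _ _ hw, e1 w' hw', e3 w' _ _ hw', hH, Block_EG hE] at h2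
    exact h2 h3 h4

theorem block {p0 A cM : ℝ} {M : ℕ} (H : Crit d p0 A cM M) (η0 : ℝ) (hη : 0 < η0) :
    ∃ (κ c1 b1 C1 : ℝ) (m lam0 : ℕ), 0 < κ ∧ 0 < c1 ∧ 0 < b1 ∧ 0 < C1 ∧ 1 ≤ m ∧ 1 ≤ lam0 ∧
      ∀ (lam : ℕ) (s : ℝ), lam0 ≤ lam → κ ^ 2 / 2 ≤ s * (lam : ℝ) ^ 2 →
        s * (lam : ℝ) ^ 2 ≤ κ ^ 2 →
        (PP d p0 s).real {q | ¬ BlkOK M m lam c1 b1 C1 q} ≤ η0 := by
  classical
  have hη3 : 0 < η0 / 3 := by positivity
  obtain ⟨κa, hκa, hrob⟩ := rob H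
  obtain ⟨κb, hκb, hcnt⟩ := cnt_ok H
  obtain ⟨c1, b1, cB, CB, η1, η2, hc1, hc1', hb1, hb1', hcB, hCB, hη1, hη1', hη2, hη2', hηη,
    hst⟩ := statics H (η0 / 3) hη3
  obtain ⟨κ, hκ, k1, ka, kb⟩ : ∃ κ : ℝ, 0 < κ ∧ κ ≤ 1 ∧ κ ≤ κa ∧ κ ≤ κb :=
    ⟨min 1 (min κa κb), lt_min one_pos (lt_min hκa hκb), min_le_left _ _,
      (min_le_right _ _).trans (min_le_left _ _), (min_le_right _ _).trans (min_le_right _ _)⟩
  obtain ⟨cR, m0, hcR, hR⟩ := hrob (η0 / 3) c1 b1 η1 η2 κ hη3 hc1 hb1 hb1' hη1 hη1' hη2 hη2' hκ ka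
  obtain ⟨m, hm, hmm0, hmc⟩ : ∃ m : ℕ, 1 ≤ m ∧ m0 ≤ m ∧ 16 ≤ c1 * (m : ℝ) := by
    refine ⟨max 1 (max m0 ⌈16 / c1⌉₊), le_max_left _ _,
      (le_max_left _ _).trans (le_max_right _ _), ?_⟩
    have h1 : 16 / c1 ≤ ((max 1 (max m0 ⌈16 / c1⌉₊) : ℕ) : ℝ) := (Nat.le_ceil _).trans
      (Nat.cast_le.2 ((le_max_right _ _).trans (le_max_right _ _)))
    rw [div_le_iff₀ hc1] at h1
    linarith
  have hm0 : (0 : ℝ) < m := by exact_mod_cast hm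
  have hcR' : 0 < cR * (m : ℝ) ^ 2 := by positivity
  obtain ⟨C2, C3, CH, b2, b3, l2, hC2, hC3, hCH, hb2, hb3, hl2⟩ :=
    hcnt (η0 / 3) c1 b1 η1 η2 κ cR m hη3 hc1 hb1 hη1 hη2 hκ kb hcR hm
  obtain ⟨l1, hl1⟩ := hst m hm
  obtain ⟨l3, hl3⟩ := hR m hmm0
  refine ⟨κ, c1, b1, medC C2 C3 CH b2 b3 (cR * (m : ℝ) ^ 2) (η1 * η2 / 4), m,
    max 1 (max ⌈2 / (cR * (m : ℝ) ^ 2)⌉₊ (max l1 (max l2 l3))), hκ, hc1, hb1, ?_, hm,
    le_max_left _ _, ?_⟩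
  · unfold medC
    positivity
  intro lam s hlam hs1 hs2
  have hlam1 : 1 ≤ lam := (le_max_left _ _).trans hlam
  have g1 := (le_max_right _ _).trans hlam
  have g2 : ⌈2 / (cR * (m : ℝ) ^ 2)⌉₊ ≤ lam := (le_max_left _ _).trans g1
  have g3 := (le_max_right _ _).trans g1
  have g4 : l1 ≤ lam := (le_max_left _ _).trans g3
  have g5 := (le_max_right _ _).trans g3
  have g6 : l2 ≤ lam := (le_max_left _ _).trans g5
  have g7 : l3 ≤ lam := (le_max_right _ _).trans g5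
  have hl1' : (1 : ℝ) ≤ lam := by exact_mod_cast hlam1
  have hl0 : (0 : ℝ) < lam := by linarith
  have hs0 : 0 ≤ s := by
    have h8 : 0 ≤ s * (lam : ℝ) ^ 2 := le_trans (by positivity) hs1
    exact nonneg_of_mul_nonneg_left h8 (by positivity)
  have hsle : s ≤ 1 := by
    have h8 : s * 1 ≤ s * (lam : ℝ) ^ 2 := mul_le_mul_of_nonneg_left (one_le_pow₀ hl1') hs0
    have h9 : κ ^ 2 ≤ 1 := pow_le_one₀ hκ.le k1
    linarith
  have := isProb_PP (d := d) H.hp0.le H.hp1.le hs0 hsle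
  have hL1 : 1 ≤ m * lam := Nat.mul_pos hm hlam1
  have hLR : (1 : ℝ) ≤ ((m * lam : ℕ) : ℝ) := by exact_mod_cast hL1
  have hd := H.hd
  have hn1 : (lam : ℝ) ≤ ((m * lam : ℕ) : ℝ) ^ (d - 6) := by
    calc (lam : ℝ) ≤ ((m * lam : ℕ) : ℝ) := by exact_mod_cast Nat.le_mul_of_pos_left lam hm
      _ ≤ ((m * lam : ℕ) : ℝ) ^ (d - 6) := le_self_pow₀ hLR (by omega)
  have hx2 : 2 ≤ cR * (m : ℝ) ^ 2 * ((m * lam : ℕ) : ℝ) ^ (d - 6) := by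
    have h8 : 2 / (cR * (m : ℝ) ^ 2) ≤ ((m * lam : ℕ) : ℝ) ^ (d - 6) :=
      ((Nat.le_ceil _).trans (Nat.cast_le.2 g2)).trans hn1
    rw [div_le_iff₀ hcR'] at h8
    linarith
  have hr1 : cR * (m : ℝ) ^ 2 / 2 * ((m * lam : ℕ) : ℝ) ^ (d - 6) ≤
      (⌊cR * (m : ℝ) ^ 2 * ((m * lam : ℕ) : ℝ) ^ (d - 6)⌋₊ : ℝ) := by
    have h8 : cR * (m : ℝ) ^ 2 * ((m * lam : ℕ) : ℝ) ^ (d - 6) <
      (⌊cR * (m : ℝ) ^ 2 * ((m * lam : ℕ) : ℝ) ^ (d - 6)⌋₊ : ℝ) + 1 := Nat.lt_floor_add_one _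
    linarith
  have hr2 : (⌊cR * (m : ℝ) ^ 2 * ((m * lam : ℕ) : ℝ) ^ (d - 6)⌋₊ : ℝ) ≤
      cR * (m : ℝ) ^ 2 * ((m * lam : ℕ) : ℝ) ^ (d - 6) := Nat.floor_le (by linarith)
  have f1 := (Cnt_fst (d := d) (p := p0) hs0 hsle _).trans (hl1 lam g4)
  have f2 := hl2 lam s g6 hs1 hs2
  have f3 := hl3 lam s g7 hs1 hs2
  have f23 := (measureReal_union_le _ _).trans (add_le_add f2 f3)
  have f13 := (measureReal_union_le _ _).trans (add_le_add f1 f23)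
  refine (measureReal_mono ?_ (measure_ne_top _ _)).trans (f13.trans (by linarith))
  intro q hq
  by_contra hcon
  apply hq
  simp only [Set.mem_union, Set.mem_ofPred_eq, not_or, not_not] at hcon
  obtain ⟨hmix, hcn, hro⟩ := hcon
  obtain ⟨x0, hx0, hg⟩ := giant hm hlam1 H.hM (by omega) hcB hη1.le hη2.le hmix hro
  refine ⟨x0, hx0, fun w hw => ⟨?_, hg w hw⟩, ?_⟩
  · have h8 := win_lo hm hlam1 (by omega) hmix w hw
    have h9 : (0 : ℝ) < cB / 2 * ((m * lam : ℕ) : ℝ) ^ (d - 2) := by positivity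
    exact_mod_cast lt_of_lt_of_le h9 h8
  · intro f w w' μ μ' hw hw' hμ h3 h4
    exact med hm hlam1 H.hM hd hcB hb1 hη1 hη2 hηη hmc hC2 hC3 hCH hb2 hb3 hcR' hr1 hr2 hmix hro
      hcn x0 f w w' hw hw' μ μ' hμ h3 h4

end H95LBS
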