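import Pool.Agent.H95.LBS.BDef
import Pool.Agent.H95.LBS.ArmTwo
import Pool.Agent.H95.LBS.HubX
import Pool.Agent.H95.LBS.StatM

/-!
PROJECT DS (MP_0d9ad5_pr), JOB DS-LiveA. Expected number of live edges and of live edges at long hubs
(section 7 of note 2700).
PROOF. `Function.update (cut B (un q.1 q.2)) e false` does not depend on `q.2 e`, so the events
`{q.2 e}` (probability `s`) and `{.. in disj (Ar ..) (Ar ..)}` are independent (`indep_pair`); the second one is at most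
`(PP) {un q.1 q.2 in disj ..} <= (near_arm)^2` (`bk_inf`, `Ar_fw`, `disj_inc`). `card (BB) <= C L^d`. Long: for a
fixed end `x` of `e` and other end `y`: explore the hub `D` of `x` (`explore_pair` with `F = {q.2 e}`,
`E = {cut Dᶜ (un ..) in Ar y N}`), sum over the long `D` (the event `Long` is determined by the hub configuration:
work with `{hub = D} ∩ {Long}`, depending on the edges with an end in `D`): `<= P(Long) * s * P(Ar y N)`; `prob_long`.
Markov. `N = 8 lam`, `kap^2 64 <= kap0`.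
-/

namespace H95LBS

open H5DF H95LBD MeasureTheory

variable {d : ℕ}

lemma LiveA_open {s : ℝ} (hs0 : 0 ≤ s) (hs1 : s ≤ 1) (e : Ed d) :
    (perc d s).real {η : Cfg d | η e = true} = s := by
  rw [measureReal_def]
  have h2 := bern_coord (ι := Ed d) hs0 hs1 e true
  rw [bern_true] at h2
  have h3 : perc d s {η : Cfg d | η e = true} = ENNReal.ofReal s := h2
  rw [h3, ENNReal.toReal_ofReal hs0]

lemma LiveA_meas_open (e : Ed d) : MeasurableSet {η : Cfg d | η e = true} :=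
  measurable_pi_apply (X := fun _ : Ed d => Bool) e (MeasurableSet.of_discrete (s := {true}))

lemma LiveA_openP {p s : ℝ} (h0 : 0 ≤ p) (h1 : p ≤ 1) (hs0 : 0 ≤ s) (hs1 : s ≤ 1)
    (B : Set (Cfg d)) (e : Ed d) :
    (PP d p s).real (B ×ˢ {η : Cfg d | η e = true}) = (perc d p).real B * s := by
  have hPp := isProb_perc (d := d) p h0 h1
  have hPs := isProb_perc (d := d) s hs0 hs1
  unfold PP
  rw [measureReal_def, Measure.prod_prod, ENNReal.toReal_mul]
  have h := LiveA_open (d := d) hs0 hs1 e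
  rw [measureReal_def] at h
  rw [h]
  rfl

lemma LiveA_cut_false {S : Set (V d)} {e : Ed d} (h : e ∉ ins S) (ω : Cfg d) :
    cut S ω e = false := by
  rw [← Bool.not_eq_true, cut_true]
  exact fun h2 => h h2.2

/-- Two disjoint arms at a sprinkled edge. -/
lemma LiveA_two {p s : ℝ} (h0 : 0 ≤ p) (h1 : p ≤ 1) (hs0 : 0 ≤ s) (hs1 : s ≤ 1)
    (S : Finset (V d)) (e : Ed d) (N : ℕ) :
    (PP d p s).real {q | q.2 e = true ∧
      Function.update (cut (S : Set (V d)) (un q.1 q.2)) e false ∈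
        disj (Ar e.1 N) (Ar (oth e) N)} ≤
      s * ((perc d (pn p s)).real (Ar e.1 N) * (perc d (pn p s)).real (Ar (oth e) N)) := by
  classical
  have hPp := isProb_perc (d := d) p h0 h1
  have hPs := isProb_perc (d := d) s hs0 hs1
  have hPP := isProb_PP (d := d) h0 h1 hs0 hs1
  have hq0 : 0 ≤ pn p s := h0.trans (pn_ge h1 hs0)
  have hq1 : pn p s ≤ 1 := pn_le h1 hs1
  have hPn := isProb_perc (d := d) (pn p s) hq0 hq1
  set X : Set (Cfg d) := disj (Ar e.1 N) (Ar (oth e) N) with hX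
  have hXI : Inc X := disj_inc (Ar_inc _ _) (Ar_inc _ _)
  have hdepA : ∀ q q' : Cfg d × Cfg d,
      (∀ f, f ≠ e → f ∈ ins (S : Set (V d)) → q.1 f = q'.1 f ∧ q.2 f = q'.2 f) →
      Function.update (cut (S : Set (V d)) (un q.1 q.2)) e false =
        Function.update (cut (S : Set (V d)) (un q'.1 q'.2)) e false := by
    intro q q' h
    funext f
    by_cases hf : f = e
    · subst hf
      simp
    · rw [Function.update_of_ne hf, Function.update_of_ne hf]
      by_cases hi : f ∈ ins (S : Set (V d))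
      · unfold cut un
        rw [(h f hf hi).1, (h f hf hi).2]
      · rw [LiveA_cut_false hi, LiveA_cut_false hi]
  set Aq : Set (Cfg d × Cfg d) :=
    {q | Function.update (cut (S : Set (V d)) (un q.1 q.2)) e false ∈ X} with hAq
  have hmA : MeasurableSet Aq := by
    refine meas_dep2 (S ×ˢ Finset.univ) Aq ?_
    intro q q' h hq
    show Function.update (cut (S : Set (V d)) (un q'.1 q'.2)) e false ∈ X
    rw [← hdepA q q' (fun f _ hf => h f (by
      rw [Finset.mem_product]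
      exact ⟨Finset.mem_coe.1 hf.1, Finset.mem_univ _⟩))]
    exact hq
  set Oq : Set (Cfg d × Cfg d) := Set.univ ×ˢ {η : Cfg d | η e = true} with hOq
  have hmO : MeasurableSet Oq := MeasurableSet.univ.prod (LiveA_meas_open e)
  have hind := indep_pair h0 h1 hs0 hs1 {e} {e} Oq Aq hmO hmA (by
    intro q q' _ h2 hq
    refine ⟨Set.mem_univ _, ?_⟩
    show q'.2 e = true
    rw [← h2 e rfl]
    exact hq.2) (by
    intro q q' h2 h3 hq
    show Function.update (cut (S : Set (V d)) (un q'.1 q'.2)) e false ∈ X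
    rw [← hdepA q q' (fun f hf _ => ⟨h2 f hf, h3 f hf⟩)]
    exact hq)
  have hset : {q : Cfg d × Cfg d | q.2 e = true ∧
      Function.update (cut (S : Set (V d)) (un q.1 q.2)) e false ∈ X} = Oq ∩ Aq := by
    ext q
    constructor
    · rintro ⟨h2, h3⟩
      exact ⟨⟨Set.mem_univ _, h2⟩, h3⟩
    · rintro ⟨⟨_, h2⟩, h3⟩
      exact ⟨h2, h3⟩
  have hO : (PP d p s).real Oq = s := by
    rw [hOq, LiveA_openP h0 h1 hs0 hs1, probReal_univ, one_mul]
  have hA1 : (PP d p s).real Aq ≤ (perc d (pn p s)).real X := by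
    calc (PP d p s).real Aq ≤ (PP d p s).real ((fun q : Cfg d × Cfg d => un q.1 q.2) ⁻¹' X) := by
          refine measureReal_mono ?_ (measure_ne_top _ _)
          intro q hq
          refine hXI _ _ ?_ hq
          intro f hf
          by_cases hfe : f = e
          · subst hfe
            simp at hf
          · rw [Function.update_of_ne hfe, cut_true] at hf
            exact hf.1
      _ ≤ (perc d (pn p s)).real X := by
          have h := Measure.le_map_apply (μ := PP d p s)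
            (f := fun q : Cfg d × Cfg d => un q.1 q.2) measurable_un.aemeasurable X
          rw [map_un h0 h1 hs0 hs1] at h
          exact ENNReal.toReal_mono (measure_ne_top _ _) h
  rw [hset, hind, hO]
  refine mul_le_mul_of_nonneg_left (hA1.trans ?_) hs0
  exact ArmTwo_bk hq0 hq1 (Ar_inc _ _) (Ar_inc _ _) (Ar_fw _ _) (Ar_fw _ _)

lemma LiveA_walk {S D : Set (V d)} {ω ω' : Cfg d} {x : V d}
    (h : ∀ e, e ∉ ins Dᶜ → ω e = ω' e) (hD : hub S ω x = D) {y z : V d}
    (p : (G (cut S ω)).Walk y z) (hy : y ∈ D) :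
    ∃ p' : (G (cut S ω')).Walk y z, p'.length = p.length := by
  induction p with
  | nil => exact ⟨SimpleGraph.Walk.nil, rfl⟩
  | @cons a b c hab p ih =>
    obtain ⟨σ, rfl, hσ⟩ := hab
    rw [cut_edge] at hσ
    have hb : a + step σ ∈ D := by
      have h1 : a ∈ hub S ω x := by
        rw [hD]
        exact hy
      have h2 : a + step σ ∈ hub S ω x := Cn.trans h1 (Cn.one hσ.1 hσ.2.1 hσ.2.2)
      rw [hD] at h2
      exact h2
    obtain ⟨p', hp'⟩ := ih hb
    have hadj : (G (cut S ω')).Adj a (a + step σ) := ⟨σ, rfl, by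
      rw [cut_edge, ← h (edge a σ) (by
        rw [edge_mem_ins]
        exact fun h4 => h4.1 hy)]
      exact hσ⟩
    exact ⟨SimpleGraph.Walk.cons hadj p', by
      rw [SimpleGraph.Walk.length_cons, SimpleGraph.Walk.length_cons, hp']⟩

lemma LiveA_long {B : Finset (V d)} {D : Set (V d)} {ω ω' : Cfg d} {x : V d} {ℓ : ℝ}
    (h : ∀ e, e ∉ ins Dᶜ → ω e = ω' e) (hD : hub (B : Set (V d)) ω x = D)
    (hL : Long B ω ℓ x) : Long B ω' ℓ x := by
  have hD' : hub (B : Set (V d)) ω' x = D := hub_dep h hD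
  obtain ⟨y, y', h1, h2, h3⟩ := hL
  have hy : y ∈ D := by
    rw [← hD]
    exact h1
  have hy' : y' ∈ D := by
    rw [← hD]
    exact h2
  have g1 : Cn (B : Set (V d)) ω' x y := by
    rw [← hD'] at hy
    exact hy
  have g2 : Cn (B : Set (V d)) ω' x y' := by
    rw [← hD'] at hy'
    exact hy'
  refine ⟨y, y', g1, g2, lt_of_lt_of_le h3 ?_⟩
  have g3 : (G (cut (B : Set (V d)) ω')).Reachable y y' := (Cn.symm g1).trans g2
  obtain ⟨p, hp⟩ := g3.exists_walk_length_eq_dist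
  obtain ⟨p', hp'⟩ := LiveA_walk (fun e he => (h e he).symm) hD' p hy
  have h4 := SimpleGraph.dist_le p'
  rw [hp', hp] at h4
  exact_mod_cast h4

/-- A long hub of `x`, a sprinkled edge at `x` and an arm of `y` outside the hub. -/
lemma LiveA_hub {p s : ℝ} (h0 : 0 ≤ p) (h1 : p ≤ 1) (hs0 : 0 ≤ s) (hs1 : s ≤ 1)
    (S : Finset (V d)) (x y : V d) (hx : x ∈ S) (e : Ed d)
    (he : ∀ D : Set (V d), x ∈ D → e ∉ ins Dᶜ) (N : ℕ) (ℓ : ℝ) :
    (PP d p s).real {q | Long S q.1 ℓ x ∧ q.2 e = true ∧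
      cut (hub (S : Set (V d)) q.1 x)ᶜ (cut (S : Set (V d)) (un q.1 q.2)) ∈ Ar y N} ≤
      (perc d p).real {ω | Long S ω ℓ x} * (s * (perc d (pn p s)).real (Ar y N)) := by
  classical
  have hPp := isProb_perc (d := d) p h0 h1
  have hPs := isProb_perc (d := d) s hs0 hs1
  have hPP := isProb_PP (d := d) h0 h1 hs0 hs1
  set Q : Finset (Finset (V d)) := S.powerset.filter (fun D => x ∈ D) with hQ
  set F : Set (Cfg d) := {η | η e = true} with hF
  let LD : Finset (V d) → Set (Cfg d) := fun D =>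
    {ω | hub (S : Set (V d)) ω x = (D : Set (V d)) ∧ Long S ω ℓ x}
  let E : Finset (V d) → Set (Cfg d × Cfg d) := fun D =>
    {q | cut ((D : Set (V d)))ᶜ (cut (S : Set (V d)) (un q.1 q.2)) ∈ Ar y N}
  have hEm : ∀ D, MeasurableSet (E D) := fun D =>
    ((measurable_cut _).comp ((measurable_cut _).comp measurable_un)) (meas_Ar y N)
  have hLm : ∀ D, MeasurableSet (LD D) := by
    intro D
    refine meas_dep1 (S ×ˢ Finset.univ) _ ?_
    intro ω ω' h hω
    have hcut : cut (S : Set (V d)) ω = cut (S : Set (V d)) ω' := by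
      funext f
      by_cases hi : f ∈ ins (S : Set (V d))
      · unfold cut
        rw [h f (by
          rw [Finset.mem_product]
          exact ⟨Finset.mem_coe.1 hi.1, Finset.mem_univ _⟩)]
      · rw [LiveA_cut_false hi, LiveA_cut_false hi]
    obtain ⟨g1, y1, y2, g2, g3, g4⟩ := hω
    refine ⟨?_, y1, y2, ?_, ?_, ?_⟩
    · have : hub (S : Set (V d)) ω' x = hub (S : Set (V d)) ω x := by
        ext z
        show z ∈ cluster (cut (S : Set (V d)) ω') x ↔ z ∈ cluster (cut (S : Set (V d)) ω) x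
        rw [hcut]
      rw [this]
      exact g1
    · show y1 ∈ cluster (cut (S : Set (V d)) ω') x
      rw [← hcut]
      exact g2
    · show y2 ∈ cluster (cut (S : Set (V d)) ω') x
      rw [← hcut]
      exact g3
    · rw [← hcut]
      exact g4
  have hsub : {q : Cfg d × Cfg d | Long S q.1 ℓ x ∧ q.2 e = true ∧
      cut (hub (S : Set (V d)) q.1 x)ᶜ (cut (S : Set (V d)) (un q.1 q.2)) ∈ Ar y N} ⊆
      ⋃ D ∈ Q, ((LD D ×ˢ F) ∩ E D) := by
    rintro q ⟨h2, h3, h4⟩
    have hfin : (hub (S : Set (V d)) q.1 x) ⊆ (S : Set (V d)) := hub_sub (Finset.mem_coe.2 hx)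
    have h6 : ((S.filter fun y => y ∈ hub (S : Set (V d)) q.1 x : Finset (V d)) : Set (V d)) =
        hub (S : Set (V d)) q.1 x := by
      ext y
      simp only [Finset.coe_filter, Set.mem_ofPred_eq]
      exact ⟨fun h => h.2, fun h => ⟨hfin h, h⟩⟩
    rw [Set.mem_iUnion₂]
    refine ⟨S.filter fun y => y ∈ hub (S : Set (V d)) q.1 x, ?_, ⟨⟨h6.symm, h2⟩, h3⟩, ?_⟩
    · rw [hQ, Finset.mem_filter, Finset.mem_powerset]
      refine ⟨Finset.filter_subset _ _, ?_⟩
      rw [Finset.mem_filter]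
      exact ⟨hx, mem_hub_self _ _ _⟩
    · show cut ((_ : Set (V d)))ᶜ (cut (S : Set (V d)) (un q.1 q.2)) ∈ Ar y N
      rw [h6]
      exact h4
  have hstep : ∀ D ∈ Q, (PP d p s).real ((LD D ×ˢ F) ∩ E D) ≤
      (perc d p).real (LD D) * (s * (perc d (pn p s)).real (Ar y N)) := by
    intro D hD
    rw [hQ, Finset.mem_filter, Finset.mem_powerset] at hD
    have hxD : x ∈ (D : Set (V d)) := Finset.mem_coe.2 hD.2
    rw [indep_pair h0 h1 hs0 hs1 (ins ((D : Set (V d)))ᶜ)ᶜ (ins ((D : Set (V d)))ᶜ)ᶜ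
      (LD D ×ˢ F) (E D) ((hLm D).prod (LiveA_meas_open e)) (hEm D) (by
      rintro q q' h2 h3 ⟨⟨h4, h5⟩, h6⟩
      refine ⟨⟨hub_dep h2 h4, LiveA_long h2 h4 h5⟩, ?_⟩
      show q'.2 e = true
      rw [← h3 e (he _ hxD)]
      exact h6) (by
      intro q q' h2 h3 h4
      have h5 : cut ((D : Set (V d)))ᶜ (cut (S : Set (V d)) (un q.1 q.2)) =
          cut ((D : Set (V d)))ᶜ (cut (S : Set (V d)) (un q'.1 q'.2)) := by
        funext f
        by_cases hf : f ∈ ins ((D : Set (V d)))ᶜ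
        · have hf' : f ∉ (ins ((D : Set (V d)))ᶜ)ᶜ := fun h6 => h6 hf
          unfold cut un
          rw [h2 f hf', h3 f hf']
        · rw [LiveA_cut_false hf, LiveA_cut_false hf]
      show cut ((D : Set (V d)))ᶜ (cut (S : Set (V d)) (un q'.1 q'.2)) ∈ Ar y N
      rw [← h5]
      exact h4), LiveA_openP h0 h1 hs0 hs1, mul_assoc]
    refine mul_le_mul_of_nonneg_left ?_ measureReal_nonneg
    refine mul_le_mul_of_nonneg_left ?_ hs0
    calc (PP d p s).real (E D) ≤ (PP d p s).real {q | un q.1 q.2 ∈ Ar y N} := by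
          refine measureReal_mono ?_ (measure_ne_top _ _)
          intro q hq
          refine Ar_inc y N _ _ ?_ hq
          intro f hf
          rw [cut_true, cut_true] at hf
          exact hf.1.1
      _ = (perc d (pn p s)).real (Ar y N) := by
          rw [← map_un h0 h1 hs0 hs1, map_measureReal_apply measurable_un (meas_Ar y N)]
          rfl
  have hsum : ∑ D ∈ Q, (perc d p).real (LD D) ≤ (perc d p).real {ω | Long S ω ℓ x} := by
    rw [← measureReal_biUnion_finset (f := LD) ?_ ?_]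
    · refine measureReal_mono ?_ (measure_ne_top _ _)
      intro ω hω
      rw [Set.mem_iUnion₂] at hω
      obtain ⟨D, _, h2⟩ := hω
      exact h2.2
    · intro D _ D' _ hne
      show Disjoint _ _
      rw [Set.disjoint_left]
      intro ω h2 h3
      apply hne
      have h4 : (D : Set (V d)) = (D' : Set (V d)) := h2.1.symm.trans h3.1
      exact_mod_cast h4
    · intro D _
      exact hLm D
  have hnn : 0 ≤ s * (perc d (pn p s)).real (Ar y N) := mul_nonneg hs0 measureReal_nonneg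
  calc (PP d p s).real {q | Long S q.1 ℓ x ∧ q.2 e = true ∧
      cut (hub (S : Set (V d)) q.1 x)ᶜ (cut (S : Set (V d)) (un q.1 q.2)) ∈ Ar y N}
      ≤ (PP d p s).real (⋃ D ∈ Q, ((LD D ×ˢ F) ∩ E D)) :=
        measureReal_mono hsub (measure_ne_top _ _)
    _ ≤ ∑ D ∈ Q, (PP d p s).real ((LD D ×ˢ F) ∩ E D) := measureReal_biUnion_finset_le _ _
    _ ≤ ∑ D ∈ Q, (perc d p).real (LD D) * (s * (perc d (pn p s)).real (Ar y N)) :=
        Finset.sum_le_sum hstep
    _ = (∑ D ∈ Q, (perc d p).real (LD D)) * (s * (perc d (pn p s)).real (Ar y N)) := by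
        rw [Finset.sum_mul]
    _ ≤ _ := mul_le_mul_of_nonneg_right hsum hnn

/-- The range of `κ`. -/
lemma LiveA_kap {κ κ0 s : ℝ} {lam : ℕ} (hκ : 0 < κ) (h1 : κ ≤ min 1 (κ0 / 64))
    (h : s * (lam : ℝ) ^ 2 ≤ κ ^ 2) : s * ((8 * lam : ℕ) : ℝ) ^ 2 ≤ κ0 := by
  have h2 : κ ≤ 1 := h1.trans (min_le_left _ _)
  have h3 : κ ≤ κ0 / 64 := h1.trans (min_le_right _ _)
  push_cast
  nlinarith

theorem live_cnt {p0 A cM : ℝ} {M : ℕ} (H : Crit d p0 A cM M) : ∃ κ1 : ℝ, 0 < κ1 ∧
    ∀ κ : ℝ, 0 < κ → κ ≤ κ1 → ∀ m : ℕ, 1 ≤ m → ∀ η0 : ℝ, 0 < η0 → ∃ C2 : ℝ, 0 < C2 ∧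
      ∀ (lam : ℕ) (s : ℝ), 1 ≤ lam → 0 ≤ s → s ≤ 1 → s * (lam : ℝ) ^ 2 ≤ κ ^ 2 →
        (PP d p0 s).real {q | C2 * ((m * lam : ℕ) : ℝ) ^ (d - 6) <
          (LS (BB d M (m * lam)) (8 * lam) q).card} ≤ η0 := by
  classical
  obtain ⟨κ0, C1, hκ0, hC1, harm⟩ := near_arm H
  refine ⟨min 1 (κ0 / 64), lt_min one_pos (by positivity), ?_⟩
  intro κ hκ hκ1 m hm η0 hη
  set K : ℝ := (3 * (10 * (M : ℝ) + 3)) ^ d with hK
  have hK0 : 0 < K := by positivity
  have hd7 := H.hd
  have hd0 : (0 : ℝ) < d := by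
    have : 0 < d := by omega
    exact_mod_cast this
  have hm0 : (0 : ℝ) < m := by exact_mod_cast hm
  refine ⟨(d * K * κ ^ 2 * C1 ^ 2 * (m : ℝ) ^ 6 / 4096) / η0, by positivity, ?_⟩
  intro lam s hlam hs0 hs1 hs
  have hp0 := H.hp0.le
  have hp1 := H.hp1.le
  have hPP := isProb_PP (d := d) hp0 hp1 hs0 hs1
  have hlam0 : (0 : ℝ) < lam := by exact_mod_cast hlam
  have hL1 : 1 ≤ m * lam := Nat.mul_pos hm hlam
  have hL0 : (0 : ℝ) < ((m * lam : ℕ) : ℝ) := by exact_mod_cast hL1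
  have hN1 : 1 ≤ 8 * lam := by omega
  have hsN : s * ((8 * lam : ℕ) : ℝ) ^ 2 ≤ κ0 := LiveA_kap hκ hκ1 hs
  have ha : ∀ x : V d, (perc d (pn p0 s)).real (Ar x (8 * lam)) ≤
      C1 / ((8 * lam : ℕ) : ℝ) ^ 2 := fun x => harm s (8 * lam) x hs0 hs1 hN1 hsN
  have h1 := statM_markov (PP d p0 s) ((BB d M (m * lam)) ×ˢ (Finset.univ : Finset (Fin d)))
    (fun e q => Lv (BB d M (m * lam)) (8 * lam) q e)
    ((d * K * κ ^ 2 * C1 ^ 2 * (m : ℝ) ^ 6 / 4096) / η0 * ((m * lam : ℕ) : ℝ) ^ (d - 6)) η0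
    (by positivity) ?_
  · exact h1
  · have hterm : ∀ e : Ed d, (PP d p0 s).real {q | Lv (BB d M (m * lam)) (8 * lam) q e} ≤
        s * (C1 / ((8 * lam : ℕ) : ℝ) ^ 2) ^ 2 := by
      intro e
      calc (PP d p0 s).real {q | Lv (BB d M (m * lam)) (8 * lam) q e} ≤
            (PP d p0 s).real {q | q.2 e = true ∧
            Function.update (cut (BB d M (m * lam) : Set (V d)) (un q.1 q.2)) e false ∈
              disj (Ar e.1 (8 * lam)) (Ar (oth e) (8 * lam))} := by
            refine measureReal_mono ?_ (measure_ne_top _ _)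
            intro q hq
            exact ⟨hq.1, hq.2.2.2.1⟩
        _ ≤ s * ((perc d (pn p0 s)).real (Ar e.1 (8 * lam)) *
              (perc d (pn p0 s)).real (Ar (oth e) (8 * lam))) :=
            LiveA_two hp0 hp1 hs0 hs1 _ e _
        _ ≤ s * (C1 / ((8 * lam : ℕ) : ℝ) ^ 2) ^ 2 := by
            refine mul_le_mul_of_nonneg_left ?_ hs0
            rw [sq (C1 / ((8 * lam : ℕ) : ℝ) ^ 2)]
            exact mul_le_mul (ha _) (ha _) measureReal_nonneg (by positivity)
    calc ∑ e ∈ (BB d M (m * lam)) ×ˢ (Finset.univ : Finset (Fin d)),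
          (PP d p0 s).real {q | Lv (BB d M (m * lam)) (8 * lam) q e}
        ≤ ∑ _e ∈ (BB d M (m * lam)) ×ˢ (Finset.univ : Finset (Fin d)),
          s * (C1 / ((8 * lam : ℕ) : ℝ) ^ 2) ^ 2 := Finset.sum_le_sum fun e _ => hterm e
      _ = (((BB d M (m * lam)).card : ℝ) * d) * (s * (C1 / ((8 * lam : ℕ) : ℝ) ^ 2) ^ 2) := by
          rw [Finset.sum_const, nsmul_eq_mul, Finset.card_product, Finset.card_univ,
            Fintype.card_fin]
          push_cast
          ring
      _ ≤ ((K * ((m * lam : ℕ) : ℝ) ^ d) * d) *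
            (κ ^ 2 / (lam : ℝ) ^ 2 * (C1 / ((8 * lam : ℕ) : ℝ) ^ 2) ^ 2) := by
          have hs' : s ≤ κ ^ 2 / (lam : ℝ) ^ 2 := by
            rw [le_div_iff₀ (by positivity)]
            exact hs
          have hc := statM_card_BB (d := d) M (m * lam) hL1
          refine mul_le_mul (mul_le_mul_of_nonneg_right hc hd0.le)
            (mul_le_mul_of_nonneg_right hs' (by positivity)) (by positivity) (by positivity)
      _ = η0 * ((d * K * κ ^ 2 * C1 ^ 2 * (m : ℝ) ^ 6 / 4096) / η0 *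
            ((m * lam : ℕ) : ℝ) ^ (d - 6)) := by
          have h5 : ((m * lam : ℕ) : ℝ) ^ d = ((m * lam : ℕ) : ℝ) ^ (d - 6) *
              ((m : ℝ) * lam) ^ 6 := by
            rw [show ((m : ℝ) * lam) = ((m * lam : ℕ) : ℝ) by push_cast; ring, ← pow_add]
            congr 1
            omega
          rw [h5]
          generalize ((m * lam : ℕ) : ℝ) ^ (d - 6) = Z
          push_cast
          field_simp
          ring

open Classical in
theorem live_long {p0 A cM : ℝ} {M : ℕ} (H : Crit d p0 A cM M) : ∃ κ1 : ℝ, 0 < κ1 ∧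
    ∀ κ : ℝ, 0 < κ → κ ≤ κ1 → ∀ m : ℕ, 1 ≤ m → ∀ δ η0 : ℝ, 0 < δ → 0 < η0 → ∃ b0 : ℝ, 1 ≤ b0 ∧
      ∀ (b3 : ℝ), b0 ≤ b3 → ∀ (lam : ℕ) (s : ℝ), 1 ≤ lam → 0 ≤ s → s ≤ 1 →
        s * (lam : ℝ) ^ 2 ≤ κ ^ 2 →
        (PP d p0 s).real {q | δ * ((m * lam : ℕ) : ℝ) ^ (d - 6) <
          ((LS (BB d M (m * lam)) (8 * lam) q).filter (fun e =>
            Long (BB d M (m * lam)) q.1 (b3 * ((m * lam : ℕ) : ℝ) ^ 2) e.1 ∨
            Long (BB d M (m * lam)) q.1 (b3 * ((m * lam : ℕ) : ℝ) ^ 2) (oth e))).card} ≤ η0 := by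
  obtain ⟨κ0, C1, hκ0, hC1, harm⟩ := near_arm H
  refine ⟨min 1 (κ0 / 64), lt_min one_pos (by positivity), ?_⟩
  intro κ hκ hκ1 m hm δ η0 hδ hη
  set K : ℝ := (3 * (10 * (M : ℝ) + 3)) ^ d with hK
  have hK0 : 0 < K := by positivity
  have hd7 := H.hd
  have hd0 : (0 : ℝ) < d := by
    have : 0 < d := by omega
    exact_mod_cast this
  have hm0 : (0 : ℝ) < m := by exact_mod_cast hm
  have hA0 : 0 < A := lt_of_lt_of_le one_pos H.hA
  refine ⟨max 1 ((d * K * A * C1 * κ ^ 2 * (m : ℝ) ^ 4 / 16) / (η0 * δ)), le_max_left _ _, ?_⟩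
  intro b3 hb3 lam s hlam hs0 hs1 hs
  have hb1 : 1 ≤ b3 := (le_max_left _ _).trans hb3
  have hb2 : (d * K * A * C1 * κ ^ 2 * (m : ℝ) ^ 4 / 16) / (η0 * δ) ≤ b3 :=
    (le_max_right _ _).trans hb3
  rw [div_le_iff₀ (by positivity)] at hb2
  have hb0 : 0 < b3 := by linarith
  have hp0 := H.hp0.le
  have hp1 := H.hp1.le
  have hPP := isProb_PP (d := d) hp0 hp1 hs0 hs1
  have hlam0 : (0 : ℝ) < lam := by exact_mod_cast hlam
  have hL1 : 1 ≤ m * lam := Nat.mul_pos hm hlam
  have hL0 : (0 : ℝ) < ((m * lam : ℕ) : ℝ) := by exact_mod_cast hL1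
  have hN1 : 1 ≤ 8 * lam := by omega
  have hsN : s * ((8 * lam : ℕ) : ℝ) ^ 2 ≤ κ0 := LiveA_kap hκ hκ1 hs
  have ha : ∀ x : V d, (perc d (pn p0 s)).real (Ar x (8 * lam)) ≤
      C1 / ((8 * lam : ℕ) : ℝ) ^ 2 := fun x => harm s (8 * lam) x hs0 hs1 hN1 hsN
  set ℓ : ℝ := b3 * ((m * lam : ℕ) : ℝ) ^ 2 with hℓ
  have hℓ0 : 0 < ℓ := by positivity
  have h1 := statM_markov (PP d p0 s) ((BB d M (m * lam)) ×ˢ (Finset.univ : Finset (Fin d)))
    (fun e q => Lv (BB d M (m * lam)) (8 * lam) q e ∧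
      (Long (BB d M (m * lam)) q.1 ℓ e.1 ∨ Long (BB d M (m * lam)) q.1 ℓ (oth e)))
    (δ * ((m * lam : ℕ) : ℝ) ^ (d - 6)) η0 (by positivity) ?_
  · refine le_trans (le_of_eq ?_) h1
    congr 1
    ext q
    simp only [Set.mem_ofPred_eq]
    unfold LS
    rw [Finset.filter_filter]
    constructor <;> intro h <;> convert h
  · have hterm : ∀ e : Ed d, (PP d p0 s).real {q | Lv (BB d M (m * lam)) (8 * lam) q e ∧
        (Long (BB d M (m * lam)) q.1 ℓ e.1 ∨ Long (BB d M (m * lam)) q.1 ℓ (oth e))} ≤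
        2 * (2 * A / ℓ * (s * (C1 / ((8 * lam : ℕ) : ℝ) ^ 2))) := by
      intro e
      by_cases hei : e ∈ ins (BB d M (m * lam) : Set (V d))
      · have hx : e.1 ∈ BB d M (m * lam) := Finset.mem_coe.1 hei.1
        have hy : oth e ∈ BB d M (m * lam) := Finset.mem_coe.1 hei.2
        have g1 := LiveA_hub hp0 hp1 hs0 hs1 (BB d M (m * lam)) e.1 (oth e) hx e
          (fun D hD h2 => h2.1 hD) (8 * lam) ℓ
        have g2 := LiveA_hub hp0 hp1 hs0 hs1 (BB d M (m * lam)) (oth e) e.1 hy e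
          (fun D hD h2 => h2.2 hD) (8 * lam) ℓ
        have hb : ∀ x y : V d, (perc d p0).real {ω | Long (BB d M (m * lam)) ω ℓ x} *
            (s * (perc d (pn p0 s)).real (Ar y (8 * lam))) ≤
            2 * A / ℓ * (s * (C1 / ((8 * lam : ℕ) : ℝ) ^ 2)) := by
          intro x y
          refine mul_le_mul (prob_long H _ ℓ hℓ0 x) (mul_le_mul_of_nonneg_left (ha y) hs0)
            (mul_nonneg hs0 measureReal_nonneg) (by positivity)
        have hsub : {q : Cfg d × Cfg d | Lv (BB d M (m * lam)) (8 * lam) q e ∧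
            (Long (BB d M (m * lam)) q.1 ℓ e.1 ∨ Long (BB d M (m * lam)) q.1 ℓ (oth e))} ⊆
            {q | Long (BB d M (m * lam)) q.1 ℓ e.1 ∧ q.2 e = true ∧
              cut (hub (BB d M (m * lam) : Set (V d)) q.1 e.1)ᶜ
                (cut (BB d M (m * lam) : Set (V d)) (un q.1 q.2)) ∈ Ar (oth e) (8 * lam)} ∪
            {q | Long (BB d M (m * lam)) q.1 ℓ (oth e) ∧ q.2 e = true ∧
              cut (hub (BB d M (m * lam) : Set (V d)) q.1 (oth e))ᶜ
                (cut (BB d M (m * lam) : Set (V d)) (un q.1 q.2)) ∈ Ar e.1 (8 * lam)} := by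
          rintro q ⟨hq, h2 | h2⟩
          · exact Or.inl ⟨h2, hq.1, hq.2.2.2.2.1⟩
          · exact Or.inr ⟨h2, hq.1, hq.2.2.2.2.2⟩
        have h3 := (measureReal_mono hsub (measure_ne_top _ _)).trans
          (measureReal_union_le (μ := PP d p0 s) _ _)
        have h4 := hb e.1 (oth e)
        have h5 := hb (oth e) e.1
        linarith
      · have hempty : {q : Cfg d × Cfg d | Lv (BB d M (m * lam)) (8 * lam) q e ∧
            (Long (BB d M (m * lam)) q.1 ℓ e.1 ∨ Long (BB d M (m * lam)) q.1 ℓ (oth e))} = ∅ := by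
          rw [Set.eq_empty_iff_forall_notMem]
          rintro q ⟨hq, -⟩
          exact hei hq.2.1
        rw [hempty, measureReal_empty]
        positivity
    calc ∑ e ∈ (BB d M (m * lam)) ×ˢ (Finset.univ : Finset (Fin d)),
          (PP d p0 s).real {q | Lv (BB d M (m * lam)) (8 * lam) q e ∧
            (Long (BB d M (m * lam)) q.1 ℓ e.1 ∨ Long (BB d M (m * lam)) q.1 ℓ (oth e))}
        ≤ ∑ _e ∈ (BB d M (m * lam)) ×ˢ (Finset.univ : Finset (Fin d)),
          2 * (2 * A / ℓ * (s * (C1 / ((8 * lam : ℕ) : ℝ) ^ 2))) :=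
          Finset.sum_le_sum fun e _ => hterm e
      _ = (((BB d M (m * lam)).card : ℝ) * d) *
            (2 * (2 * A / ℓ * (s * (C1 / ((8 * lam : ℕ) : ℝ) ^ 2)))) := by
          rw [Finset.sum_const, nsmul_eq_mul, Finset.card_product, Finset.card_univ,
            Fintype.card_fin]
          push_cast
          ring
      _ ≤ ((K * ((m * lam : ℕ) : ℝ) ^ d) * d) *
            (2 * (2 * A / ℓ * (κ ^ 2 / (lam : ℝ) ^ 2 * (C1 / ((8 * lam : ℕ) : ℝ) ^ 2)))) := by
          have hs' : s ≤ κ ^ 2 / (lam : ℝ) ^ 2 := by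
            rw [le_div_iff₀ (by positivity)]
            exact hs
          have hc := statM_card_BB (d := d) M (m * lam) hL1
          refine mul_le_mul (mul_le_mul_of_nonneg_right hc hd0.le) ?_ (by positivity)
            (by positivity)
          refine mul_le_mul_of_nonneg_left ?_ (by norm_num)
          refine mul_le_mul_of_nonneg_left ?_ (by positivity)
          exact mul_le_mul_of_nonneg_right hs' (by positivity)
      _ = (d * K * A * C1 * κ ^ 2 * (m : ℝ) ^ 4 / 16) / b3 *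
            ((m * lam : ℕ) : ℝ) ^ (d - 6) := by
          have h5 : ((m * lam : ℕ) : ℝ) ^ d = ((m * lam : ℕ) : ℝ) ^ (d - 6) *
              ((m : ℝ) * lam) ^ 6 := by
            rw [show ((m : ℝ) * lam) = ((m * lam : ℕ) : ℝ) by push_cast; ring, ← pow_add]
            congr 1
            omega
          rw [h5, hℓ]
          generalize ((m * lam : ℕ) : ℝ) ^ (d - 6) = Z
          push_cast
          field_simp
          ring
      _ ≤ (η0 * δ) * ((m * lam : ℕ) : ℝ) ^ (d - 6) := by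
          refine mul_le_mul_of_nonneg_right ?_ (by positivity)
          rw [div_le_iff₀ hb0]
          linarith
      _ = η0 * (δ * ((m * lam : ℕ) : ℝ) ^ (d - 6)) := by ring

end H95LBS
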