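import Pool.Agent.H95.LBS.Def
import Pool.Agent.H5.DF.Energy2
import Pool.Agent.H95.LBD.DecC
import Pool.Agent.H95.LBD.TreeB

/-!
PROJECT DS (MP_0d9ad5_pr), JOB DS-TreeS. Tree graph inequalities inside a set.
PROOF. `tree_dec` (LBD/DecA) applied to `cut S ω`: `Cn S ω u w` iff `w` is in the cluster of `u` in
`cut S ω`, and `cut S ω && c = cut S (ω && c)`; then `bk_inf` twice as in `tree_bound` (LBD/TreeB).
`through`: a connection from `u` to `w` inside `S` through `v` (that is: connected inside `S` but not inside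
`S \ F`) contains a point `v` of `F` with disjoint connections; BK.
-/

namespace H95LBS

open H5DF H95LBD MeasureTheory

variable {d : ℕ}

lemma TreeS_and (S : Set (V d)) (ω c : Cfg d) :
    cut S (fun e => ω e && c e) = fun e => cut S ω e && c e := by
  funext e
  unfold cut
  exact Bool.and_right_comm _ _ _

lemma TreeS_mem {S : Set (V d)} {ω : Cfg d} {x y : V d} : ω ∈ SCn {x} S y ↔ Cn S ω x y := by
  constructor
  · rintro ⟨u, hu, h⟩
    rw [Finset.mem_singleton] at hu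
    subst hu
    exact h
  · intro h
    exact ⟨x, Finset.mem_singleton_self x, h⟩

lemma TreeS_set (S : Set (V d)) (x y : V d) : {ω : Cfg d | Cn S ω x y} = SCn {x} S y := by
  ext ω
  exact TreeS_mem.symm

lemma TreeS_univ {S : Set (V d)} {ω ω' : Cfg d} (hω : cut S ω = ω') {x y : V d}
    (h : ω' ∈ SCn {x} Set.univ y) : ω ∈ SCn {x} S y := by
  rw [TreeS_mem, Cn_univ] at h
  rw [TreeS_mem, Cn, hω]
  exact h

/-- Tree decomposition inside a set. -/
lemma TreeS_dec (S : Set (V d)) (u u' w : V d) (hw : w ∈ S) (ω : Cfg d) (h1 : Cn S ω u w)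
    (h2 : Cn S ω u' w) :
    ∃ v ∈ S, ω ∈ disj (SCn {u} S v) (disj (SCn {u'} S v) (SCn {v} S w)) := by
  have h3 : cut S ω ∈ SCn {u} Set.univ w ∩ SCn {u'} Set.univ w := by
    refine ⟨?_, ?_⟩
    · rw [TreeS_mem, Cn_univ]
      exact h1
    · rw [TreeS_mem, Cn_univ]
      exact h2
  obtain ⟨v, c, k1, c', k2, k3⟩ := Set.mem_iUnion.1 (tree_dec u u' w h3)
  have e1 := TreeS_and S ω c
  have e2 := TreeS_and S ω (fun e => !c e)
  have e3 := TreeS_and S (fun e => ω e && !c e) c'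
  have e4 := TreeS_and S (fun e => ω e && !c e) (fun e => !c' e)
  rw [e2] at e3 e4
  have m1 := TreeS_univ e1 k1
  have m2 := TreeS_univ e3 k2
  have m3 := TreeS_univ e4 k3
  exact ⟨v, Cn.mem (Cn.symm (TreeS_mem.1 m3)) hw, c, m1, c', m2, m3⟩

lemma TreeS_walk (S F : Set (V d)) (ω : Cfg d) {x y : V d} (P : (G (cut S ω)).Walk x y)
    (h : ∀ z ∈ P.support, z ∉ F) : Cn (S \ F) ω x y := by
  induction P with
  | nil => exact Cn.refl _ _ _
  | @cons a b c hab p ih =>
    obtain ⟨⟨s, rfl, hs⟩, haS, hbS⟩ := G_cut_adj.1 hab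
    refine Cn.trans (Cn.one hs ⟨haS, h a (by simp)⟩ ⟨hbS, h _ (by simp)⟩) (ih ?_)
    intro z hz
    exact h z (by simp [hz])

/-- Decomposition of a connection through a set. -/
lemma TreeS_thr (S F : Set (V d)) (u w : V d) (hw : w ∈ S) (ω : Cfg d) (h : Cn S ω u w) :
    Cn (S \ F) ω u w ∨ ∃ v ∈ F ∩ S, ω ∈ disj (SCn {u} S v) (SCn {v} S w) := by
  classical
  obtain ⟨P, hP⟩ := (show (G (cut S ω)).Reachable u w from h).exists_isPath
  by_cases hF : ∀ z ∈ P.support, z ∉ F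
  · exact Or.inl (TreeS_walk S F ω P hF)
  · push Not at hF
    obtain ⟨v, hv, hvF⟩ := hF
    right
    have hspec := P.take_spec hv
    have hnd : ((P.takeUntil v hv).edges ++ (P.dropUntil v hv).edges).Nodup := by
      rw [← SimpleGraph.Walk.edges_append, hspec]
      exact hP.isTrail.edges_nodup
    have hdis : ∀ e ∈ (P.dropUntil v hv).edges, e ∉ (P.takeUntil v hv).edges := by
      intro e he he'
      exact (List.disjoint_of_nodup_append hnd) he' he
    let c : Cfg d := fun e => decide (decA_sym e ∈ (P.takeUntil v hv).edges)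
    have e1 := TreeS_and S ω c
    have e2 := TreeS_and S ω (fun e => !c e)
    have m1 : (fun e => ω e && c e) ∈ SCn {u} S v := by
      refine TreeS_univ e1 ?_
      rw [TreeS_mem, Cn_univ]
      refine decA_tr (P.takeUntil v hv) ?_
      intro e h1 h2
      simp [c, h1, h2]
    have m2 : (fun e => ω e && !c e) ∈ SCn {v} S w := by
      refine TreeS_univ e2 ?_
      rw [TreeS_mem, Cn_univ]
      refine decA_tr (P.dropUntil v hv) ?_
      intro e h1 h2
      simp [c, h1, hdis _ h2]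
    exact ⟨v, ⟨hvF, Cn.mem (Cn.symm (TreeS_mem.1 m2)) hw⟩, c, m1, m2⟩

lemma TreeS_bk (p : ℝ) (h0 : 0 ≤ p) (h1 : p ≤ 1) (A B : Set (Cfg d)) (hA : Inc A) (hB : Inc B)
    (fA : Fw A) (fB : Fw B) :
    (perc d p).real (disj A B) ≤ (perc d p).real A * (perc d p).real B := by
  have := isProb_perc (d := d) p h0 h1
  rw [Measure.real, Measure.real, Measure.real, ← ENNReal.toReal_mul]
  exact ENNReal.toReal_mono (ENNReal.mul_ne_top (measure_ne_top _ _) (measure_ne_top _ _))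
    (bk_inf p h0 h1 A B hA hB fA fB)

theorem tree_S (p : ℝ) (h0 : 0 ≤ p) (h1 : p ≤ 1) (S : Finset (V d)) (u u' w : V d) (hw : w ∈ S) :
    (perc d p).real {ω | Cn S ω u w ∧ Cn S ω u' w} ≤
      ∑ v ∈ S, (perc d p).real {ω | Cn S ω u v} * (perc d p).real {ω | Cn S ω u' v} *
        (perc d p).real {ω | Cn S ω v w} := by
  have := isProb_perc (d := d) p h0 h1
  have hsub : {ω : Cfg d | Cn S ω u w ∧ Cn S ω u' w} ⊆ ⋃ v ∈ S,
      disj (SCn {u} (S : Set (V d)) v) (disj (SCn {u'} (S : Set (V d)) v)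
        (SCn {v} (S : Set (V d)) w)) := by
    rintro ω ⟨k1, k2⟩
    obtain ⟨v, hv, hd⟩ := TreeS_dec (S : Set (V d)) u u' w (Finset.mem_coe.2 hw) ω k1 k2
    exact Set.mem_iUnion₂.2 ⟨v, Finset.mem_coe.1 hv, hd⟩
  refine (measureReal_mono hsub (measure_ne_top _ _)).trans ((measureReal_biUnion_finset_le _ _).trans ?_)
  refine Finset.sum_le_sum fun v _ => ?_
  rw [TreeS_set, TreeS_set, TreeS_set, mul_assoc]
  refine (TreeS_bk p h0 h1 _ _ (SCn_inc _ _ _) (disj_inc (SCn_inc _ _ _) (SCn_inc _ _ _))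
    (SCn_fw _ _ _) (disj_fw (SCn_inc _ _ _) (SCn_inc _ _ _) (SCn_fw _ _ _)
      (SCn_fw _ _ _))).trans ?_
  exact mul_le_mul_of_nonneg_left (TreeS_bk p h0 h1 _ _ (SCn_inc _ _ _) (SCn_inc _ _ _)
    (SCn_fw _ _ _) (SCn_fw _ _ _)) measureReal_nonneg

theorem through (p : ℝ) (h0 : 0 ≤ p) (h1 : p ≤ 1) (S F : Finset (V d)) (u w : V d) (hu : u ∈ S)
    (hw : w ∈ S) :
    (perc d p).real {ω | Cn S ω u w} ≤ (perc d p).real {ω | Cn ((S : Set (V d)) \ F) ω u w} +
      ∑ v ∈ F ∩ S, (perc d p).real {ω | Cn S ω u v} * (perc d p).real {ω | Cn S ω v w} := by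
  have _ := hu
  have := isProb_perc (d := d) p h0 h1
  have hsub : {ω : Cfg d | Cn S ω u w} ⊆ {ω | Cn ((S : Set (V d)) \ F) ω u w} ∪ ⋃ v ∈ F ∩ S,
      disj (SCn {u} (S : Set (V d)) v) (SCn {v} (S : Set (V d)) w) := by
    intro ω k1
    rcases TreeS_thr (S : Set (V d)) (F : Set (V d)) u w (Finset.mem_coe.2 hw) ω k1 with
      k2 | ⟨v, hv, k2⟩
    · exact Or.inl k2
    · refine Or.inr (Set.mem_iUnion₂.2 ⟨v, ?_, k2⟩)
      rw [Finset.mem_inter]
      exact ⟨Finset.mem_coe.1 hv.1, Finset.mem_coe.1 hv.2⟩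
  refine (measureReal_mono hsub (measure_ne_top _ _)).trans ((measureReal_union_le _ _).trans ?_)
  gcongr
  refine (measureReal_biUnion_finset_le _ _).trans ?_
  refine Finset.sum_le_sum fun v _ => ?_
  rw [TreeS_set, TreeS_set]
  exact TreeS_bk p h0 h1 _ _ (SCn_inc _ _ _) (SCn_inc _ _ _) (SCn_fw _ _ _) (SCn_fw _ _ _)

end H95LBS
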