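import Pool.Agent.H95.LBS.BDef
import Pool.Agent.H95.LBS.SumK
import Pool.Agent.H95.LBS.TreeS
import Pool.Agent.H95.LBS.Near1

/-!
PROJECT DS (MP_0d9ad5_pr), JOB DS-Vol. Volume moments (section 2a of note 2700).
PROOF. `Cn S ω x y` implies `y ∈ cluster ω x`, probability `tau (y-x) <= A kr (y-x)` (`H.kb`, `perc_conn` of
LBD/BkA). `vol1`: `sk1`. `vol2`: `tree_bound` (LBD/TreeB), `E N^2 <= ∑_{y,y'} ∑_v A^3 kr kr kr`, split the sum over
`v`: sum first over `y' ∈ BF x r` (`<= C r^2` for every `v`, `sk1`), then `∑_v kr (v-x) kr (v-y) <= C /(1+|x-y|)^(d-4)`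
(`conv2`), then `sk5`-type sum `C r^4`. `vol3`: `r = floor (N^(1/4))`: either an arm of length `r+1` (`H.arm`,
`perc_Ar`), or the hub is inside `BF x r` and Markov with `vol1`.
-/

namespace H95LBS

open H5DF H95LBD MeasureTheory

variable {d : ℕ}

open Classical in
lemma Vol_cn (X : Set (V d)) (T : Finset (V d)) :
    (cn X T : ℝ) = ∑ y ∈ T, if y ∈ X then (1 : ℝ) else 0 := by
  unfold cn
  rw [Finset.card_filter]
  push_cast
  rfl

lemma Vol_int {μ : Measure (Cfg d)} [IsProbabilityMeasure μ] {E : Set (Cfg d)}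
    (hE : MeasurableSet E) :
    ∫ ω, E.indicator (fun _ => (1 : ℝ)) ω ∂μ = μ.real E ∧
      Integrable (fun ω => E.indicator (fun _ => (1 : ℝ)) ω) μ := by
  constructor
  · rw [integral_indicator hE, setIntegral_const, smul_eq_mul, mul_one]
  · exact (integrable_const _).indicator hE

lemma Vol_sub (S : Set (V d)) (x y : V d) :
    {ω : Cfg d | Cn S ω x y} ⊆ SCn {x} Set.univ y := by
  intro ω h
  exact ⟨x, Finset.mem_singleton_self x, h.mono (fun _ _ => Set.mem_univ _) fun _ h => h⟩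

lemma Vol_conn {p0 A cM : ℝ} {M : ℕ} (H : Crit d p0 A cM M) (S : Set (V d)) (x y : V d) :
    (perc d p0).real {ω | Cn S ω x y} ≤ A * kr (y - x) := by
  have hP := H.prob
  have hk : 0 ≤ A * kr (y - x) := mul_nonneg (zero_le_one.trans H.hA) (kr_pos _).le
  have h1 : perc d p0 {ω | Cn S ω x y} ≤ ENNReal.ofReal (A * kr (y - x)) := by
    refine (measure_mono (Vol_sub S x y)).trans ?_
    rw [perc_conn p0 H.hp0.le H.hp1.le]
    exact (H.kb (y - x)).2
  have h2 := ENNReal.toReal_mono ENNReal.ofReal_ne_top h1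
  rwa [ENNReal.toReal_ofReal hk] at h2

lemma Vol_mean {p0 A cM : ℝ} {M : ℕ} (H : Crit d p0 A cM M) (S : Set (V d)) (x : V d)
    (T : Finset (V d)) :
    ∫ ω, (cn (hub S ω x) T : ℝ) ∂(perc d p0) = ∑ y ∈ T, (perc d p0).real {ω | Cn S ω x y} ∧
      Integrable (fun ω => (cn (hub S ω x) T : ℝ)) (perc d p0) := by
  classical
  have hP := H.prob
  have e : (fun ω : Cfg d => (cn (hub S ω x) T : ℝ)) =
      fun ω => ∑ y ∈ T, {ω : Cfg d | Cn S ω x y}.indicator (fun _ => (1 : ℝ)) ω := by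
    funext ω
    rw [Vol_cn]
    refine Finset.sum_congr rfl fun y _ => ?_
    by_cases a1 : Cn S ω x y <;> simp [mem_hub, a1]
  rw [e]
  constructor
  · rw [integral_finsetSum _ fun y _ => (Vol_int (meas_Cn S x y)).2]
    exact Finset.sum_congr rfl fun y _ => (Vol_int (meas_Cn S x y)).1
  · exact integrable_finsetSum _ fun y _ => (Vol_int (meas_Cn S x y)).2

lemma Vol_r {r : ℕ} (hr : 1 ≤ r) : (1 + (r : ℝ)) ≤ 2 * r := by
  have : (1 : ℝ) ≤ r := by exact_mod_cast hr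
  linarith

theorem vol1 {p0 A cM : ℝ} {M : ℕ} (H : Crit d p0 A cM M) : ∃ C : ℝ, 0 < C ∧
    ∀ (S : Set (V d)) (x : V d) (r : ℕ), 1 ≤ r →
      ∫ ω, (cn (hub S ω x) (BF x r) : ℝ) ∂(perc d p0) ≤ C * (r : ℝ) ^ 2 := by
  obtain ⟨C, hC, h⟩ := sk1 (d := d) (by have := H.hd; omega)
  have hA : 0 < A := lt_of_lt_of_le zero_lt_one H.hA
  refine ⟨A * (C * 4), by positivity, fun S x r hr => ?_⟩
  rw [(Vol_mean H S x _).1]
  calc ∑ y ∈ BF x r, (perc d p0).real {ω | Cn S ω x y}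
      ≤ ∑ y ∈ BF x r, A * kr (y - x) := Finset.sum_le_sum fun y _ => Vol_conn H S x y
    _ = A * ∑ y ∈ BF x r, kr (y - x) := by rw [Finset.mul_sum]
    _ ≤ A * (C * (1 + (r : ℝ)) ^ 2) := by
        gcongr
        exact h r x x
    _ ≤ A * (C * (2 * (r : ℝ)) ^ 2) := by
        have := Vol_r hr
        gcongr
    _ = A * (C * 4) * (r : ℝ) ^ 2 := by ring

lemma Vol_pair {p0 A cM : ℝ} {M : ℕ} (H : Crit d p0 A cM M) (S : Set (V d)) (x y y' : V d) :
    perc d p0 {ω | Cn S ω x y ∧ Cn S ω x y'} ≤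
      ∑' v : V d, ENNReal.ofReal (A ^ 3) *
        (ENNReal.ofReal (kr (v - y) * kr (v - x)) * ENNReal.ofReal (kr (y' - v))) := by
  have hA : 0 ≤ A := zero_le_one.trans H.hA
  have hsub : {ω : Cfg d | Cn S ω x y ∧ Cn S ω x y'} ⊆
      SCn {y} Set.univ x ∩ SCn {y'} Set.univ x := by
    rintro ω ⟨h1, h2⟩
    exact ⟨Vol_sub S y x h1.symm, Vol_sub S y' x h2.symm⟩
  refine (measure_mono hsub).trans ((tree_bound p0 H.hp0.le H.hp1.le y y' x).trans ?_)
  refine ENNReal.tsum_le_tsum fun v => ?_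
  have e1 := (H.kb (v - y)).2
  have e2 := (H.kb (v - y')).2
  have e3 := (H.kb (x - v)).2
  have k1 := (kr_pos (v - y)).le
  have k2 := (kr_pos (v - y')).le
  have k3 := (kr_pos (x - v)).le
  calc tau d p0 (v - y) * (tau d p0 (v - y') * tau d p0 (x - v))
      ≤ ENNReal.ofReal (A * kr (v - y)) *
        (ENNReal.ofReal (A * kr (v - y')) * ENNReal.ofReal (A * kr (x - v))) := by
        gcongr
    _ = ENNReal.ofReal (A ^ 3) *
        (ENNReal.ofReal (kr (v - y) * kr (v - x)) * ENNReal.ofReal (kr (y' - v))) := by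
        rw [kr_sub_comm v x, kr_sub_comm y' v,
          ← ENNReal.ofReal_mul (mul_nonneg hA k2), ← ENNReal.ofReal_mul (mul_nonneg hA k1),
          ← ENNReal.ofReal_mul (mul_nonneg k1 k3), ← ENNReal.ofReal_mul (by positivity)]
        congr 1
        ring

theorem vol2 {p0 A cM : ℝ} {M : ℕ} (H : Crit d p0 A cM M) : ∃ C : ℝ, 0 < C ∧
    ∀ (S : Set (V d)) (x : V d) (r : ℕ), 1 ≤ r →
      ∫ ω, (cn (hub S ω x) (BF x r) : ℝ) ^ 2 ∂(perc d p0) ≤ C * (r : ℝ) ^ 6 := by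
  classical
  have hd5 : 5 ≤ d := by have := H.hd; omega
  obtain ⟨C1, hC1, h1⟩ := sk1 (d := d) hd5
  obtain ⟨C2, hC2, h2⟩ := conv2 (d := d) hd5
  obtain ⟨C5, hC5, h5⟩ := sk5 (d := d) hd5
  have hA : 0 < A := lt_of_lt_of_le zero_lt_one H.hA
  have hP := H.prob
  refine ⟨A ^ 3 * (C1 * C2 * C5 * 64), by positivity, fun S x r hr => ?_⟩
  set B := BF x r with hB
  have hm : ∀ y y' : V d, MeasurableSet {ω : Cfg d | Cn S ω x y ∧ Cn S ω x y'} :=
    fun y y' => (meas_Cn S x y).inter (meas_Cn S x y')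
  have e : (fun ω : Cfg d => (cn (hub S ω x) B : ℝ) ^ 2) =
      fun ω => ∑ y ∈ B, ∑ y' ∈ B,
        {ω : Cfg d | Cn S ω x y ∧ Cn S ω x y'}.indicator (fun _ => (1 : ℝ)) ω := by
    funext ω
    rw [Vol_cn, sq, Finset.sum_mul_sum]
    refine Finset.sum_congr rfl fun y _ => Finset.sum_congr rfl fun y' _ => ?_
    by_cases a1 : Cn S ω x y <;> by_cases a2 : Cn S ω x y' <;> simp [mem_hub, a1, a2]
  have e2 : ∫ ω, (cn (hub S ω x) B : ℝ) ^ 2 ∂(perc d p0) =
      ∑ y ∈ B, ∑ y' ∈ B, (perc d p0).real {ω | Cn S ω x y ∧ Cn S ω x y'} := by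
    rw [e, integral_finsetSum _ fun y _ =>
      integrable_finsetSum _ fun y' _ => (Vol_int (hm y y')).2]
    refine Finset.sum_congr rfl fun y _ => ?_
    rw [integral_finsetSum _ fun y' _ => (Vol_int (hm y y')).2]
    exact Finset.sum_congr rfl fun y' _ => (Vol_int (hm y y')).1
  have s1 : ∀ y, ∑ y' ∈ B, perc d p0 {ω | Cn S ω x y ∧ Cn S ω x y'} ≤
      ENNReal.ofReal (A ^ 3 * (C2 / (1 + (nm (y - x) : ℝ)) ^ (d - 4) *
        (C1 * (1 + (r : ℝ)) ^ 2))) := by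
    intro y
    calc ∑ y' ∈ B, perc d p0 {ω | Cn S ω x y ∧ Cn S ω x y'}
        ≤ ∑ y' ∈ B, ∑' v : V d, ENNReal.ofReal (A ^ 3) *
            (ENNReal.ofReal (kr (v - y) * kr (v - x)) * ENNReal.ofReal (kr (y' - v))) :=
          Finset.sum_le_sum fun y' _ => Vol_pair H S x y y'
      _ = ∑' v : V d, ∑ y' ∈ B, ENNReal.ofReal (A ^ 3) *
            (ENNReal.ofReal (kr (v - y) * kr (v - x)) * ENNReal.ofReal (kr (y' - v))) :=
          (Summable.tsum_finsetSum fun _ _ => ENNReal.summable).symm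
      _ ≤ ∑' v : V d, ENNReal.ofReal (A ^ 3) *
            (ENNReal.ofReal (kr (v - y) * kr (v - x)) *
              ENNReal.ofReal (C1 * (1 + (r : ℝ)) ^ 2)) := by
          refine ENNReal.tsum_le_tsum fun v => ?_
          rw [← Finset.mul_sum, ← Finset.mul_sum,
            ← ENNReal.ofReal_sum_of_nonneg fun y' _ => (kr_pos _).le]
          gcongr
          exact h1 r x v
      _ = ENNReal.ofReal (A ^ 3) *
            ((∑' v : V d, ENNReal.ofReal (kr (v - y) * kr (v - x))) *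
              ENNReal.ofReal (C1 * (1 + (r : ℝ)) ^ 2)) := by
          rw [ENNReal.tsum_mul_left, ENNReal.tsum_mul_right]
      _ ≤ ENNReal.ofReal (A ^ 3) *
            (ENNReal.ofReal (C2 / (1 + (nm (y - x) : ℝ)) ^ (d - 4)) *
              ENNReal.ofReal (C1 * (1 + (r : ℝ)) ^ 2)) := by
          gcongr
          exact h2 y x
      _ = _ := by
          rw [← ENNReal.ofReal_mul (by positivity), ← ENNReal.ofReal_mul (by positivity)]
  have s2 : ∀ y, ∑ y' ∈ B, (perc d p0).real {ω | Cn S ω x y ∧ Cn S ω x y'} ≤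
      A ^ 3 * (C2 / (1 + (nm (y - x) : ℝ)) ^ (d - 4) * (C1 * (1 + (r : ℝ)) ^ 2)) := by
    intro y
    have a1 := ENNReal.toReal_mono ENNReal.ofReal_ne_top (s1 y)
    rw [ENNReal.toReal_ofReal (by positivity),
      ENNReal.toReal_sum fun y' _ => measure_ne_top _ _] at a1
    exact a1
  rw [e2]
  have s3 : ∑ y ∈ B, 1 / (1 + (nm (y - x) : ℝ)) ^ (d - 4) ≤ C5 * (1 + (r : ℝ)) ^ 4 := by
    have a1 : ∑ y ∈ B, 1 / (1 + (nm (y - x) : ℝ)) ^ (d - 4) =
        ∑ h ∈ Box d r, 1 / (1 + (nm h : ℝ)) ^ (d - 4) := by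
      rw [hB]
      unfold BF
      rw [Finset.sum_image fun a _ b _ hab => add_left_injective x hab]
      refine Finset.sum_congr rfl fun h _ => ?_
      rw [add_sub_cancel_right]
    rw [a1]
    exact h5 r
  calc ∑ y ∈ B, ∑ y' ∈ B, (perc d p0).real {ω | Cn S ω x y ∧ Cn S ω x y'}
      ≤ ∑ y ∈ B, A ^ 3 * (C2 / (1 + (nm (y - x) : ℝ)) ^ (d - 4) * (C1 * (1 + (r : ℝ)) ^ 2)) :=
        Finset.sum_le_sum fun y _ => s2 y
    _ = A ^ 3 * C2 * (C1 * (1 + (r : ℝ)) ^ 2) *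
          ∑ y ∈ B, 1 / (1 + (nm (y - x) : ℝ)) ^ (d - 4) := by
        rw [Finset.mul_sum]
        refine Finset.sum_congr rfl fun y _ => ?_
        ring
    _ ≤ A ^ 3 * C2 * (C1 * (1 + (r : ℝ)) ^ 2) * (C5 * (1 + (r : ℝ)) ^ 4) := by
        gcongr
    _ ≤ A ^ 3 * C2 * (C1 * (2 * (r : ℝ)) ^ 2) * (C5 * (2 * (r : ℝ)) ^ 4) := by
        have := Vol_r hr
        gcongr
    _ = A ^ 3 * (C1 * C2 * C5 * 64) * (r : ℝ) ^ 6 := by ring

theorem vol3 {p0 A cM : ℝ} {M : ℕ} (H : Crit d p0 A cM M) : ∃ C : ℝ, 0 < C ∧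
    ∀ (S : Set (V d)) (x : V d) (T : Finset (V d)) (N : ℝ), 1 ≤ N →
      (perc d p0).real {ω | N ≤ (cn (hub S ω x) T : ℝ)} ≤ C / Real.sqrt N := by
  classical
  obtain ⟨C, hC, h1⟩ := vol1 H
  have hA : 0 < A := lt_of_lt_of_le zero_lt_one H.hA
  have hP := H.prob
  refine ⟨A + C, by positivity, fun S x T N hN => ?_⟩
  have hN0 : 0 < N := lt_of_lt_of_le zero_lt_one hN
  set q := Real.sqrt (Real.sqrt N) with hq
  have hs0 : 0 < Real.sqrt N := Real.sqrt_pos.2 hN0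
  have hq0 : 0 < q := Real.sqrt_pos.2 hs0
  have hq2 : q ^ 2 = Real.sqrt N := Real.sq_sqrt hs0.le
  have hs1 : 1 ≤ Real.sqrt N := by
    rw [← Real.sqrt_one]
    exact Real.sqrt_le_sqrt hN
  have hq1 : 1 ≤ q := by
    rw [hq, ← Real.sqrt_one]
    exact Real.sqrt_le_sqrt hs1
  set r := ⌊q⌋₊ with hr
  have hr1 : 1 ≤ r := Nat.le_floor (by exact_mod_cast hq1)
  have hrq : (r : ℝ) ≤ q := Nat.floor_le hq0.le
  have hqr : q < r + 1 := Nat.lt_floor_add_one q
  have hsub : {ω : Cfg d | N ≤ (cn (hub S ω x) T : ℝ)} ⊆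
      Ar x (r + 1) ∪ {ω : Cfg d | N ≤ (cn (hub S ω x) (BF x r) : ℝ)} := by
    intro ω hω
    by_cases ha : ω ∈ Ar x (r + 1)
    · exact Or.inl ha
    · refine Or.inr ?_
      have hω' : N ≤ (cn (hub S ω x) T : ℝ) := hω
      refine hω'.trans ?_
      have : cn (hub S ω x) T ≤ cn (hub S ω x) (BF x r) := by
        unfold cn
        apply Finset.card_le_card
        intro y hy
        rw [Finset.mem_filter] at hy ⊢
        refine ⟨?_, hy.2⟩
        rw [mem_BF]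
        by_contra hc
        apply ha
        refine ⟨y, by omega, ?_⟩
        exact Cn_univ.1 (Cn.mono (hy.2 : Cn S ω x y) (fun _ _ => Set.mem_univ _) fun _ h => h)
      exact_mod_cast this
  have hb1 : (perc d p0).real (Ar x (r + 1)) ≤ A / Real.sqrt N := by
    rw [perc_Ar p0 H.hp0.le H.hp1.le]
    refine (H.arm (r + 1) (by omega)).trans ?_
    push_cast
    have : Real.sqrt N ≤ ((r : ℝ) + 1) ^ 2 := by
      rw [← hq2]
      exact pow_le_pow_left₀ hq0.le hqr.le 2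
    gcongr
  have hb2 : (perc d p0).real {ω : Cfg d | N ≤ (cn (hub S ω x) (BF x r) : ℝ)} ≤
      C / Real.sqrt N := by
    have hmk := mul_meas_ge_le_integral_of_nonneg (μ := perc d p0)
      (f := fun ω => (cn (hub S ω x) (BF x r) : ℝ))
      (Filter.Eventually.of_forall fun ω => Nat.cast_nonneg _) (Vol_mean H S x (BF x r)).2 N
    have h3 := h1 S x r hr1
    have h4 : (r : ℝ) ^ 2 ≤ Real.sqrt N := by
      rw [← hq2]
      exact pow_le_pow_left₀ (Nat.cast_nonneg _) hrq 2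
    have h5 : N * (perc d p0).real {ω : Cfg d | N ≤ (cn (hub S ω x) (BF x r) : ℝ)} ≤
        C * Real.sqrt N := by
      refine (hmk.trans h3).trans ?_
      gcongr
    have h6 : Real.sqrt N * Real.sqrt N = N := Real.mul_self_sqrt hN0.le
    rw [le_div_iff₀ hs0]
    have h7 : Real.sqrt N * ((perc d p0).real {ω : Cfg d | N ≤ (cn (hub S ω x) (BF x r) : ℝ)} *
        Real.sqrt N) ≤ Real.sqrt N * C := by
      calc Real.sqrt N * ((perc d p0).real {ω : Cfg d | N ≤ (cn (hub S ω x) (BF x r) : ℝ)} *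
            Real.sqrt N)
          = (Real.sqrt N * Real.sqrt N) *
            (perc d p0).real {ω : Cfg d | N ≤ (cn (hub S ω x) (BF x r) : ℝ)} := by ring
        _ ≤ C * Real.sqrt N := by rw [h6]; exact h5
        _ = Real.sqrt N * C := mul_comm _ _
    exact le_of_mul_le_mul_left h7 hs0
  calc (perc d p0).real {ω | N ≤ (cn (hub S ω x) T : ℝ)}
      ≤ (perc d p0).real (Ar x (r + 1) ∪ {ω : Cfg d | N ≤ (cn (hub S ω x) (BF x r) : ℝ)}) :=
        measureReal_mono hsub (measure_ne_top _ _)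
    _ ≤ (perc d p0).real (Ar x (r + 1)) +
        (perc d p0).real {ω : Cfg d | N ≤ (cn (hub S ω x) (BF x r) : ℝ)} :=
        measureReal_union_le _ _
    _ ≤ A / Real.sqrt N + C / Real.sqrt N := add_le_add hb1 hb2
    _ = (A + C) / Real.sqrt N := by ring

end H95LBS
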