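import Pool.Agent.H95.LBS.BDef
import Pool.Agent.H95.LBS.ArmTwo
import Pool.Agent.H95.LBS.HubX
import Pool.Agent.H95.LBS.SumK
import Pool.Agent.H95.LBS.Vol
import Pool.Agent.H95.LBS.LiveA

/-!
PROJECT DS (MP_0d9ad5_pr), JOB DS-LiveB. Second moment of the number of live edges per hub
(section 7 of note 2700).
PROOF. `∑_D el(D)^2 <= 4 card LS + #{(e1,x1,e2,x2) : e1 ≠ e2 live, x_i an end of e_i, x2 in the hub of x1}`.
For fixed `e1 ≠ e2`, ends `x1, x2`, other ends `y1, y2`: both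
edges touch the hub `D` of `x1`, and `cut Dᶜ (cut B (un ..)) in Ar y1 N ∩ Ar y2 N` (the definition of `Lv`;
`hub x2 = hub x1`). `explore_pair` with `F = {q.2 e1 ∧ q.2 e2}` (probability `s^2`):
`<= P(x1 <-> x2) s^2 P(Ar y1 N ∩ Ar y2 N) <= A kr(x1-x2) s^2 [C/N^2/(1+nm(y1-y2))^(d-4) + C/N^4]` (`arm_two`).
Sum over the ends: first part `sk4` (`nm (y1-y2) + 2 >= nm (x1-x2)`), second part `sk1`. `live_cnt` for
the diagonal. Markov.
-/

namespace H95LBS

open H5DF H95LBD MeasureTheory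

variable {d : ℕ}

/-- The end of an edge. -/
def LiveB_en (e : Ed d) (σ : Bool) : V d := if σ = true then oth e else e.1

/-- The other end of an edge. -/
def LiveB_oe (e : Ed d) (σ : Bool) : V d := if σ = true then e.1 else oth e

/-- The edges with a choice of an end. -/
noncomputable def LiveB_T (B : Finset (V d)) : Finset (Ed d × Bool) :=
  (B ×ˢ (Finset.univ : Finset (Fin d))) ×ˢ (Finset.univ : Finset Bool)

/-- Ends of two distinct live edges in one hub. -/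
def LiveB_P (B : Finset (V d)) (N : ℕ) (t : (Ed d × Bool) × (Ed d × Bool))
    (q : Cfg d × Cfg d) : Prop :=
  t.1.1 ≠ t.2.1 ∧ Lv B N q t.1.1 ∧ Lv B N q t.2.1 ∧
    Cn (B : Set (V d)) q.1 (LiveB_en t.1.1 t.1.2) (LiveB_en t.2.1 t.2.2)

lemma LiveB_hubF_eq {B : Finset (V d)} {ω : Cfg d} {x y : V d} (h : y ∈ hubF B ω x) :
    hubF B ω x = hubF B ω y := by
  rw [mem_hubF] at h
  ext z
  rw [mem_hubF, mem_hubF]
  exact ⟨fun h2 => ⟨h2.1, (Cn.symm h.2).trans h2.2⟩, fun h2 => ⟨h2.1, h.2.trans h2.2⟩⟩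

open Classical in
/-- The combinatorial bound. -/
lemma LiveB_det (B : Finset (V d)) (N : ℕ) (q : Cfg d × Cfg d) :
    ∑ D ∈ HF B q.1, (el B N q D : ℝ) ^ 2 ≤ 4 * ((LS B N q).card : ℝ) +
      (((LiveB_T B ×ˢ LiveB_T B).filter (fun t => LiveB_P B N t q)).card : ℝ) := by
  set U : Finset (Ed d × Bool) := (LS B N q) ×ˢ (Finset.univ : Finset Bool) with hU
  set F : Finset (V d) → Finset (Ed d × Bool) := fun D =>
    U.filter (fun t => LiveB_en t.1 t.2 ∈ D) with hF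
  have h1 : ∀ D, el B N q D ≤ (F D).card := by
    intro D
    unfold el
    refine Finset.card_le_card_of_injOn (fun e => (e, if e.1 ∈ D then false else true)) ?_ ?_
    · intro e he
      rw [Finset.mem_coe, Finset.mem_filter] at he
      rw [Finset.mem_coe, hF, Finset.mem_filter, hU, Finset.mem_product]
      refine ⟨⟨he.1, Finset.mem_univ _⟩, ?_⟩
      by_cases h : e.1 ∈ D
      · simp only [h, if_true, LiveB_en, Bool.false_eq_true, if_false]
      · simp only [h, if_false, LiveB_en, if_true]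
        exact he.2.resolve_left h
    · intro e _ e' _ h
      exact (Prod.ext_iff.1 h).1
  set G : Finset ((Ed d × Bool) × (Ed d × Bool)) := (U ×ˢ U).filter
    (fun t => Cn (B : Set (V d)) q.1 (LiveB_en t.1.1 t.1.2) (LiveB_en t.2.1 t.2.2)) with hG
  have h2 : ∑ D ∈ HF B q.1, (F D ×ˢ F D).card ≤ G.card := by
    rw [← Finset.card_sigma]
    refine Finset.card_le_card_of_injOn (fun z => z.2) ?_ ?_
    · rintro ⟨D, t⟩ hz
      rw [Finset.mem_coe, Finset.mem_sigma, Finset.mem_product] at hz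
      obtain ⟨hD, ht1, ht2⟩ := hz
      rw [hF, Finset.mem_filter] at ht1 ht2
      rw [Finset.mem_coe, hG, Finset.mem_filter, Finset.mem_product]
      refine ⟨⟨ht1.1, ht2.1⟩, ?_⟩
      obtain ⟨x, hx, rfl⟩ := Finset.mem_image.1 hD
      have g1 := (mem_hubF.1 ht1.2).2
      have g2 := (mem_hubF.1 ht2.2).2
      exact (Cn.symm g1).trans g2
    · rintro ⟨D, t⟩ hz ⟨D', t'⟩ hz' h
      have htt : t = t' := h
      subst htt
      rw [Finset.mem_coe, Finset.mem_sigma, Finset.mem_product] at hz hz'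
      obtain ⟨hD, ht1, -⟩ := hz
      obtain ⟨hD', ht1', -⟩ := hz'
      rw [hF, Finset.mem_filter] at ht1 ht1'
      obtain ⟨x, hx, rfl⟩ := Finset.mem_image.1 hD
      obtain ⟨x', hx', rfl⟩ := Finset.mem_image.1 hD'
      have g : hubF B q.1 x = hubF B q.1 x' := by
        rw [LiveB_hubF_eq ht1.2, LiveB_hubF_eq ht1'.2]
      simp only [g]
  have h3 : G.card ≤ (G.filter (fun t => t.1.1 = t.2.1)).card +
      (G.filter (fun t => ¬ t.1.1 = t.2.1)).card := by
    rw [Finset.card_filter_add_card_filter_not]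
  have h4 : (G.filter (fun t => t.1.1 = t.2.1)).card ≤ 4 * (LS B N q).card := by
    have h5 : (G.filter (fun t => t.1.1 = t.2.1)).card ≤
        ((LS B N q) ×ˢ ((Finset.univ : Finset Bool) ×ˢ (Finset.univ : Finset Bool))).card := by
      refine Finset.card_le_card_of_injOn (fun t => (t.1.1, (t.1.2, t.2.2))) ?_ ?_
      · intro t ht
        rw [Finset.mem_coe, Finset.mem_filter, hG, Finset.mem_filter, Finset.mem_product, hU,
          Finset.mem_product] at ht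
        rw [Finset.mem_coe, Finset.mem_product]
        exact ⟨ht.1.1.1.1, Finset.mem_product.2 ⟨Finset.mem_univ _, Finset.mem_univ _⟩⟩
      · intro t ht t' ht' h
        rw [Finset.mem_coe, Finset.mem_filter] at ht ht'
        have g1 : t.1.1 = t'.1.1 := (Prod.ext_iff.1 h).1
        have g2 : t.1.2 = t'.1.2 := (Prod.ext_iff.1 (Prod.ext_iff.1 h).2).1
        have g3 : t.2.2 = t'.2.2 := (Prod.ext_iff.1 (Prod.ext_iff.1 h).2).2
        have g4 : t.2.1 = t'.2.1 := by rw [← ht.2, ← ht'.2, g1]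
        exact Prod.ext (Prod.ext g1 g2) (Prod.ext g4 g3)
    rw [Finset.card_product, Finset.card_product, Finset.card_univ, Fintype.card_bool] at h5
    omega
  have h6 : (G.filter (fun t => ¬ t.1.1 = t.2.1)).card ≤
      ((LiveB_T B ×ˢ LiveB_T B).filter (fun t => LiveB_P B N t q)).card := by
    refine Finset.card_le_card ?_
    intro t ht
    rw [Finset.mem_filter, hG, Finset.mem_filter, Finset.mem_product, hU,
      Finset.mem_product, Finset.mem_product] at ht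
    obtain ⟨⟨⟨⟨a1, -⟩, ⟨a2, -⟩⟩, a3⟩, a4⟩ := ht
    unfold LS at a1 a2
    rw [Finset.mem_filter] at a1 a2
    have m1 : t.1 ∈ LiveB_T B := by
      unfold LiveB_T
      exact Finset.mem_product.2 ⟨a1.1, Finset.mem_univ _⟩
    have m2 : t.2 ∈ LiveB_T B := by
      unfold LiveB_T
      exact Finset.mem_product.2 ⟨a2.1, Finset.mem_univ _⟩
    rw [Finset.mem_filter]
    exact ⟨Finset.mem_product.2 ⟨m1, m2⟩, a4, a1.2, a2.2, a3⟩
  have h7 : ∑ D ∈ HF B q.1, (el B N q D : ℝ) ^ 2 ≤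
      ((∑ D ∈ HF B q.1, (F D ×ˢ F D).card : ℕ) : ℝ) := by
    rw [Nat.cast_sum]
    refine Finset.sum_le_sum fun D _ => ?_
    rw [Finset.card_product, Nat.cast_mul, sq]
    have := h1 D
    have h8 : (el B N q D : ℝ) ≤ ((F D).card : ℝ) := by exact_mod_cast this
    exact mul_le_mul h8 h8 (Nat.cast_nonneg _) (Nat.cast_nonneg _)
  refine h7.trans ?_
  have h9 : ∑ D ∈ HF B q.1, (F D ×ˢ F D).card ≤ 4 * (LS B N q).card +
      ((LiveB_T B ×ˢ LiveB_T B).filter (fun t => LiveB_P B N t q)).card := by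
    omega
  exact_mod_cast h9

lemma LiveB_open2 {s : ℝ} (hs0 : 0 ≤ s) (hs1 : s ≤ 1) {e1 e2 : Ed d} (h : e1 ≠ e2) :
    (perc d s).real {η : Cfg d | η e1 = true ∧ η e2 = true} = s * s := by
  have hi := indep_split (ι := Ed d) hs0 hs1 {e2} {η : Cfg d | η e2 = true}
    {η : Cfg d | η e1 = true} (LiveA_meas_open e2) (LiveA_meas_open e1) (by
      intro ω ω' h2 h3
      show ω' e2 = true
      rw [← h2 e2 rfl]
      exact h3) (by
      intro ω ω' h2 h3
      show ω' e1 = true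
      rw [← h2 e1 (fun h4 => h h4)]
      exact h3)
  have h3 := LiveA_open (d := d) hs0 hs1 e1
  have h4 := LiveA_open (d := d) hs0 hs1 e2
  rw [measureReal_def] at h3 h4 ⊢
  have h5 : perc d s {η : Cfg d | η e1 = true ∧ η e2 = true} =
      perc d s {η : Cfg d | η e1 = true} * perc d s {η : Cfg d | η e2 = true} := hi
  rw [h5, ENNReal.toReal_mul, h3, h4]

/-- Two sprinkled edges at the hub of `x1` and two arms outside of the hub. -/
lemma LiveB_hub {p s : ℝ} (h0 : 0 ≤ p) (h1 : p ≤ 1) (hs0 : 0 ≤ s) (hs1 : s ≤ 1)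
    (S : Finset (V d)) (x1 x2 y1 y2 : V d) (hx : x1 ∈ S) (e1 e2 : Ed d) (hne : e1 ≠ e2)
    (he1 : ∀ D : Set (V d), x1 ∈ D → e1 ∉ ins Dᶜ) (he2 : ∀ D : Set (V d), x2 ∈ D → e2 ∉ ins Dᶜ)
    (N : ℕ) :
    (PP d p s).real {q | Cn (S : Set (V d)) q.1 x1 x2 ∧ q.2 e1 = true ∧ q.2 e2 = true ∧
      cut (hub (S : Set (V d)) q.1 x1)ᶜ (cut (S : Set (V d)) (un q.1 q.2)) ∈
        Ar y1 N ∩ Ar y2 N} ≤
      (perc d p).real {ω | Cn (S : Set (V d)) ω x1 x2} *
        (s * s * (perc d (pn p s)).real (Ar y1 N ∩ Ar y2 N)) := by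
  classical
  have hPp := isProb_perc (d := d) p h0 h1
  have hPs := isProb_perc (d := d) s hs0 hs1
  have hPP := isProb_PP (d := d) h0 h1 hs0 hs1
  set Q : Finset (Finset (V d)) := S.powerset.filter (fun D => x1 ∈ D ∧ x2 ∈ D) with hQ
  set F : Set (Cfg d) := {η | η e1 = true ∧ η e2 = true} with hF
  have hFm : MeasurableSet F := (LiveA_meas_open e1).inter (LiveA_meas_open e2)
  have hAm : MeasurableSet (Ar y1 N ∩ Ar y2 N) := (meas_Ar y1 N).inter (meas_Ar y2 N)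
  let E : Finset (V d) → Set (Cfg d × Cfg d) := fun D =>
    {q | cut ((D : Set (V d)))ᶜ (cut (S : Set (V d)) (un q.1 q.2)) ∈ Ar y1 N ∩ Ar y2 N}
  have hEm : ∀ D, MeasurableSet (E D) := fun D =>
    ((measurable_cut _).comp ((measurable_cut _).comp measurable_un)) hAm
  have hsub : {q : Cfg d × Cfg d | Cn (S : Set (V d)) q.1 x1 x2 ∧ q.2 e1 = true ∧
      q.2 e2 = true ∧ cut (hub (S : Set (V d)) q.1 x1)ᶜ (cut (S : Set (V d)) (un q.1 q.2)) ∈
        Ar y1 N ∩ Ar y2 N} ⊆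
      ⋃ D ∈ Q, {q | hub (S : Set (V d)) q.1 x1 = (D : Set (V d)) ∧ q.2 ∈ F ∧ q ∈ E D} := by
    rintro q ⟨h2, h3, h4, h5⟩
    have hfin : (hub (S : Set (V d)) q.1 x1) ⊆ (S : Set (V d)) := hub_sub (Finset.mem_coe.2 hx)
    have h6 : ((S.filter fun y => y ∈ hub (S : Set (V d)) q.1 x1 : Finset (V d)) : Set (V d)) =
        hub (S : Set (V d)) q.1 x1 := by
      ext y
      simp only [Finset.coe_filter, Set.mem_ofPred_eq]
      exact ⟨fun h => h.2, fun h => ⟨hfin h, h⟩⟩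
    rw [Set.mem_iUnion₂]
    refine ⟨S.filter fun y => y ∈ hub (S : Set (V d)) q.1 x1, ?_, h6.symm, ⟨h3, h4⟩, ?_⟩
    · rw [hQ, Finset.mem_filter, Finset.mem_powerset]
      refine ⟨Finset.filter_subset _ _, ?_, ?_⟩
      · rw [Finset.mem_filter]
        exact ⟨hx, mem_hub_self _ _ _⟩
      · rw [Finset.mem_filter]
        exact ⟨h2.mem hx, h2⟩
    · show cut ((_ : Set (V d)))ᶜ (cut (S : Set (V d)) (un q.1 q.2)) ∈ Ar y1 N ∩ Ar y2 N
      rw [h6]
      exact h5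
  have hstep : ∀ D ∈ Q, (PP d p s).real {q | hub (S : Set (V d)) q.1 x1 = (D : Set (V d)) ∧
      q.2 ∈ F ∧ q ∈ E D} ≤ (perc d p).real {ω | hub (S : Set (V d)) ω x1 = (D : Set (V d))} *
        (s * s * (perc d (pn p s)).real (Ar y1 N ∩ Ar y2 N)) := by
    intro D hD
    rw [hQ, Finset.mem_filter, Finset.mem_powerset] at hD
    have hxD1 : x1 ∈ (D : Set (V d)) := Finset.mem_coe.2 hD.2.1
    have hxD2 : x2 ∈ (D : Set (V d)) := Finset.mem_coe.2 hD.2.2
    rw [explore_pair h0 h1 hs0 hs1 S x1 D F (E D) hFm (hEm D) (by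
      rintro η η' h ⟨h2, h3⟩
      refine ⟨?_, ?_⟩
      · show η' e1 = true
        rw [← h e1 (he1 _ hxD1)]
        exact h2
      · show η' e2 = true
        rw [← h e2 (he2 _ hxD2)]
        exact h3) (by
      intro q q' h h4
      have h5 : cut ((D : Set (V d)))ᶜ (cut (S : Set (V d)) (un q.1 q.2)) =
          cut ((D : Set (V d)))ᶜ (cut (S : Set (V d)) (un q'.1 q'.2)) := by
        funext f
        by_cases hf : f ∈ ins ((D : Set (V d)))ᶜ
        · unfold cut un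
          rw [(h f hf).1, (h f hf).2]
        · rw [LiveA_cut_false hf, LiveA_cut_false hf]
      show cut ((D : Set (V d)))ᶜ (cut (S : Set (V d)) (un q'.1 q'.2)) ∈ Ar y1 N ∩ Ar y2 N
      rw [← h5]
      exact h4), LiveB_open2 hs0 hs1 hne, mul_assoc]
    refine mul_le_mul_of_nonneg_left ?_ measureReal_nonneg
    refine mul_le_mul_of_nonneg_left ?_ (mul_nonneg hs0 hs0)
    calc (PP d p s).real (E D) ≤ (PP d p s).real {q | un q.1 q.2 ∈ Ar y1 N ∩ Ar y2 N} := by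
          refine measureReal_mono ?_ (measure_ne_top _ _)
          intro q hq
          have hle : ∀ f, cut ((D : Set (V d)))ᶜ (cut (S : Set (V d)) (un q.1 q.2)) f = true →
              un q.1 q.2 f = true := by
            intro f hf
            rw [cut_true, cut_true] at hf
            exact hf.1.1
          exact ⟨Ar_inc y1 N _ _ hle hq.1, Ar_inc y2 N _ _ hle hq.2⟩
      _ = (perc d (pn p s)).real (Ar y1 N ∩ Ar y2 N) := by
          rw [← map_un h0 h1 hs0 hs1, map_measureReal_apply measurable_un hAm]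
          rfl
  have hsum : ∑ D ∈ Q, (perc d p).real {ω | hub (S : Set (V d)) ω x1 = (D : Set (V d))} ≤
      (perc d p).real {ω | Cn (S : Set (V d)) ω x1 x2} := by
    rw [← measureReal_biUnion_finset (f := fun D : Finset (V d) =>
      {ω : Cfg d | hub (S : Set (V d)) ω x1 = (D : Set (V d))}) ?_ ?_]
    · refine measureReal_mono ?_ (measure_ne_top _ _)
      intro ω hω
      rw [Set.mem_iUnion₂] at hω
      obtain ⟨D, hD, h2⟩ := hω
      rw [hQ, Finset.mem_filter] at hD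
      have h3 : hub (S : Set (V d)) ω x1 = (D : Set (V d)) := h2
      have h4 : x2 ∈ hub (S : Set (V d)) ω x1 := by
        rw [h3]
        exact Finset.mem_coe.2 hD.2.2
      exact h4
    · intro D _ D' _ hne'
      show Disjoint _ _
      rw [Set.disjoint_left]
      intro ω h2 h3
      apply hne'
      have h2' : hub (S : Set (V d)) ω x1 = (D : Set (V d)) := h2
      have h3' : hub (S : Set (V d)) ω x1 = (D' : Set (V d)) := h3
      have h4 : (D : Set (V d)) = (D' : Set (V d)) := h2'.symm.trans h3'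
      exact_mod_cast h4
    · intro D _
      exact meas_hub_eq _ _ _
  have hnn : 0 ≤ s * s * (perc d (pn p s)).real (Ar y1 N ∩ Ar y2 N) :=
    mul_nonneg (mul_nonneg hs0 hs0) measureReal_nonneg
  calc (PP d p s).real {q | Cn (S : Set (V d)) q.1 x1 x2 ∧ q.2 e1 = true ∧ q.2 e2 = true ∧
      cut (hub (S : Set (V d)) q.1 x1)ᶜ (cut (S : Set (V d)) (un q.1 q.2)) ∈
        Ar y1 N ∩ Ar y2 N}
      ≤ (PP d p s).real (⋃ D ∈ Q, {q | hub (S : Set (V d)) q.1 x1 = (D : Set (V d)) ∧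
          q.2 ∈ F ∧ q ∈ E D}) :=
        measureReal_mono hsub (measure_ne_top _ _)
    _ ≤ ∑ D ∈ Q, (PP d p s).real {q | hub (S : Set (V d)) q.1 x1 = (D : Set (V d)) ∧
          q.2 ∈ F ∧ q ∈ E D} := measureReal_biUnion_finset_le _ _
    _ ≤ ∑ D ∈ Q, (perc d p).real {ω | hub (S : Set (V d)) ω x1 = (D : Set (V d))} *
        (s * s * (perc d (pn p s)).real (Ar y1 N ∩ Ar y2 N)) :=
        Finset.sum_le_sum hstep
    _ = (∑ D ∈ Q, (perc d p).real {ω | hub (S : Set (V d)) ω x1 = (D : Set (V d))}) *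
        (s * s * (perc d (pn p s)).real (Ar y1 N ∩ Ar y2 N)) := by
        rw [Finset.sum_mul]
    _ ≤ _ := mul_le_mul_of_nonneg_right hsum hnn

lemma LiveB_nm (e : Ed d) (σ : Bool) : nm (LiveB_en e σ - LiveB_oe e σ) ≤ 1 := by
  have h : nm (Pi.single e.2 1 : V d) = 1 := by
    have := nm_step (d := d) (e.2, true)
    simpa [step] using this
  cases σ
  · have h2 : LiveB_en e false - LiveB_oe e false = -(Pi.single e.2 1 : V d) := by
      simp [LiveB_en, LiveB_oe, oth]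
    rw [h2, nm_neg, h]
  · have h2 : LiveB_en e true - LiveB_oe e true = (Pi.single e.2 1 : V d) := by
      simp [LiveB_en, LiveB_oe, oth]
    rw [h2, h]

lemma LiveB_mem (e : Ed d) (σ : Bool) {S : Set (V d)} (h : e ∈ ins S) : LiveB_en e σ ∈ S := by
  cases σ
  · simpa [LiveB_en] using h.1
  · simpa [LiveB_en, oth] using h.2

lemma LiveB_off (e : Ed d) (σ : Bool) (D : Set (V d)) (h : LiveB_en e σ ∈ D) : e ∉ ins Dᶜ :=
  fun h2 => LiveB_mem e σ h2 h

lemma LiveB_arm {B : Finset (V d)} {N : ℕ} {q : Cfg d × Cfg d} {e : Ed d} (σ : Bool)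
    (h : Lv B N q e) :
    cut (hub (B : Set (V d)) q.1 (LiveB_en e σ))ᶜ (cut (B : Set (V d)) (un q.1 q.2)) ∈
      Ar (LiveB_oe e σ) N := by
  cases σ
  · simpa [LiveB_en, LiveB_oe] using h.2.2.2.2.1
  · simpa [LiveB_en, LiveB_oe] using h.2.2.2.2.2

/-- The geometry of the two arms. -/
lemma LiveB_geo (e1 e2 : Ed d) (σ1 σ2 : Bool) :
    1 / (1 + (nm (LiveB_oe e1 σ1 - LiveB_oe e2 σ2) : ℝ)) ^ (d - 4) ≤
      3 ^ (d - 4) / (1 + (nm (LiveB_en e2 σ2 - LiveB_en e1 σ1) : ℝ)) ^ (d - 4) := by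
  have h1 := nm_tri (LiveB_en e2 σ2) (LiveB_oe e2 σ2) (LiveB_en e1 σ1)
  have h2 := nm_tri (LiveB_oe e2 σ2) (LiveB_oe e1 σ1) (LiveB_en e1 σ1)
  have h3 := LiveB_nm e1 σ1
  have h4 := LiveB_nm e2 σ2
  rw [nm_sub_comm] at h3
  have h5 : nm (LiveB_oe e2 σ2 - LiveB_oe e1 σ1) = nm (LiveB_oe e1 σ1 - LiveB_oe e2 σ2) :=
    nm_sub_comm _ _
  have h6 : 1 + nm (LiveB_en e2 σ2 - LiveB_en e1 σ1) ≤
      3 * (1 + nm (LiveB_oe e1 σ1 - LiveB_oe e2 σ2)) := by omega
  have h7 : 1 + (nm (LiveB_en e2 σ2 - LiveB_en e1 σ1) : ℝ) ≤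
      3 * (1 + (nm (LiveB_oe e1 σ1 - LiveB_oe e2 σ2) : ℝ)) := by exact_mod_cast h6
  rw [div_le_div_iff₀ (by positivity) (by positivity), one_mul, ← mul_pow]
  exact pow_le_pow_left₀ (by positivity) h7 _

lemma LiveB_kr4 {C : ℝ} (h : ∀ n : ℕ, ∑ v ∈ Box d n, kr v / (1 + (nm v : ℝ)) ^ (d - 4) ≤ C)
    (R : ℕ) (w : V d) :
    ∑ a ∈ BF 0 R, kr (a - w) / (1 + (nm (a - w) : ℝ)) ^ (d - 4) ≤ C := by
  classical
  have h1 : ∑ a ∈ BF 0 R, kr (a - w) / (1 + (nm (a - w) : ℝ)) ^ (d - 4) =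
      ∑ v ∈ (BF 0 R).image (fun a : V d => a - w), kr v / (1 + (nm v : ℝ)) ^ (d - 4) := by
    rw [Finset.sum_image]
    intro x _ y _ hxy
    exact sub_left_injective hxy
  rw [h1]
  refine (Finset.sum_le_sum_of_subset_of_nonneg ?_ ?_).trans (h (R + nm w))
  · intro v hv
    obtain ⟨a, ha, rfl⟩ := Finset.mem_image.1 hv
    rw [mem_BF, sub_zero] at ha
    rw [mem_Box']
    have := nm_sub a w
    omega
  · intro v _ _
    have := (kr_pos v).le
    positivity

lemma LiveB_sumT (B : Finset (V d)) (f : V d → ℝ) (K : ℝ)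
    (h : ∀ w : V d, ∑ a ∈ B, f (a - w) ≤ K) (x : V d) :
    ∑ t ∈ LiveB_T B, f (LiveB_en t.1 t.2 - x) ≤ 2 * d * K := by
  unfold LiveB_T
  rw [Finset.sum_product, Finset.sum_product, Finset.sum_comm]
  have h1 : ∀ i ∈ (Finset.univ : Finset (Fin d)), ∑ a ∈ B, ∑ σ ∈ (Finset.univ : Finset Bool),
      f (LiveB_en (a, i) σ - x) ≤ 2 * K := by
    intro i _
    rw [Finset.sum_comm, Fintype.sum_bool]
    have g1 : ∑ a ∈ B, f (LiveB_en (a, i) true - x) ≤ K := by
      refine le_trans (le_of_eq ?_) (h (x - Pi.single i 1))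
      refine Finset.sum_congr rfl fun a _ => ?_
      congr 1
      simp only [LiveB_en, if_true, oth]
      abel
    have g2 : ∑ a ∈ B, f (LiveB_en (a, i) false - x) ≤ K := by
      refine le_trans (le_of_eq ?_) (h x)
      refine Finset.sum_congr rfl fun a _ => ?_
      simp only [LiveB_en, Bool.false_eq_true, if_false]
    linarith
  refine (Finset.sum_le_sum h1).trans ?_
  rw [Finset.sum_const, nsmul_eq_mul, Finset.card_univ, Fintype.card_fin]
  linarith

theorem live_sq {p0 A cM : ℝ} {M : ℕ} (H : Crit d p0 A cM M) : ∃ κ1 : ℝ, 0 < κ1 ∧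
    ∀ κ : ℝ, 0 < κ → κ ≤ κ1 → ∀ m : ℕ, 1 ≤ m → ∀ η0 : ℝ, 0 < η0 → ∃ C3 : ℝ, 0 < C3 ∧
      ∀ (lam : ℕ) (s : ℝ), 1 ≤ lam → 0 ≤ s → s ≤ 1 → s * (lam : ℝ) ^ 2 ≤ κ ^ 2 →
        (PP d p0 s).real {q | C3 * ((m * lam : ℕ) : ℝ) ^ (d - 6) <
          ∑ D ∈ HF (BB d M (m * lam)) q.1, (el (BB d M (m * lam)) (8 * lam) q D : ℝ) ^ 2} ≤ η0 := by
  classical
  obtain ⟨κ0, C, hκ0, hC, harm⟩ := arm_two H
  obtain ⟨κc, hκc, hcnt⟩ := live_cnt H
  obtain ⟨C1, hC1, hs1k⟩ := sk1 (d := d) (by have := H.hd; omega)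
  obtain ⟨C4, hC4, hs4k⟩ := sk4 (d := d) H.hd
  refine ⟨min (min 1 (κ0 / 64)) κc, lt_min (lt_min one_pos (by positivity)) hκc, ?_⟩
  intro κ hκ hκ1 m hm η0 hη
  obtain ⟨C2, hC2, hcnt2⟩ := hcnt κ hκ (hκ1.trans (min_le_right _ _)) m hm (η0 / 2) (by positivity)
  set K : ℝ := (3 * (10 * (M : ℝ) + 3)) ^ d with hK
  have hK0 : 0 < K := by positivity
  have hd7 := H.hd
  have hd0 : (0 : ℝ) < d := by
    have : 0 < d := by omega
    exact_mod_cast this
  have hm0 : (0 : ℝ) < m := by exact_mod_cast hm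
  have hA0 : 0 < A := lt_of_lt_of_le one_pos H.hA
  have hC0 : 0 < C := lt_of_lt_of_le one_pos hC
  set W : ℝ := K * (4 * d ^ 2) * A * κ ^ 4 * (m : ℝ) ^ 6 *
    (C * 3 ^ (d - 4) * C4 / 64 + C * C1 * (10 * (M : ℝ) + 3) ^ 2 * (m : ℝ) ^ 2 / 1024) with hW
  have hW0 : 0 < W := by positivity
  refine ⟨4 * C2 + W / (η0 / 2), by positivity, ?_⟩
  intro lam s hlam hs0 hs1 hs
  have hp0 := H.hp0.le
  have hp1 := H.hp1.le
  have hPP := isProb_PP (d := d) hp0 hp1 hs0 hs1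
  have hPp := isProb_perc (d := d) p0 hp0 hp1
  have hlam0 : (0 : ℝ) < lam := by exact_mod_cast hlam
  have hL1 : 1 ≤ m * lam := Nat.mul_pos hm hlam
  have hL0 : (0 : ℝ) < ((m * lam : ℕ) : ℝ) := by exact_mod_cast hL1
  have hN1 : 1 ≤ 8 * lam := by omega
  have hN0 : (0 : ℝ) < ((8 * lam : ℕ) : ℝ) := by exact_mod_cast hN1
  have hsN : s * ((8 * lam : ℕ) : ℝ) ^ 2 ≤ κ0 := LiveA_kap hκ (hκ1.trans (min_le_left _ _)) hs
  set B : Finset (V d) := BB d M (m * lam) with hB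
  set f : V d → ℝ := fun v => A * (s * s) *
    (C / ((8 * lam : ℕ) : ℝ) ^ 2 * 3 ^ (d - 4) * (kr v / (1 + (nm v : ℝ)) ^ (d - 4)) +
      C / ((8 * lam : ℕ) : ℝ) ^ 4 * kr v) with hf
  have hf0 : ∀ v, 0 ≤ f v := by
    intro v
    have := (kr_pos v).le
    positivity
  -- one pair
  have hterm : ∀ t : (Ed d × Bool) × (Ed d × Bool),
      (PP d p0 s).real {q | LiveB_P B (8 * lam) t q} ≤
        f (LiveB_en t.2.1 t.2.2 - LiveB_en t.1.1 t.1.2) := by
    rintro ⟨⟨e1, σ1⟩, ⟨e2, σ2⟩⟩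
    by_cases hok : e1 ≠ e2 ∧ e1 ∈ ins (B : Set (V d))
    · obtain ⟨hne, hei⟩ := hok
      have hx : LiveB_en e1 σ1 ∈ B := Finset.mem_coe.1 (LiveB_mem e1 σ1 hei)
      have g1 := LiveB_hub hp0 hp1 hs0 hs1 B (LiveB_en e1 σ1) (LiveB_en e2 σ2)
        (LiveB_oe e1 σ1) (LiveB_oe e2 σ2) hx e1 e2 hne (LiveB_off e1 σ1) (LiveB_off e2 σ2)
        (8 * lam)
      have g2 : (PP d p0 s).real {q | LiveB_P B (8 * lam) ((e1, σ1), (e2, σ2)) q} ≤
          (PP d p0 s).real {q | Cn (B : Set (V d)) q.1 (LiveB_en e1 σ1) (LiveB_en e2 σ2) ∧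
            q.2 e1 = true ∧ q.2 e2 = true ∧
            cut (hub (B : Set (V d)) q.1 (LiveB_en e1 σ1))ᶜ
              (cut (B : Set (V d)) (un q.1 q.2)) ∈
                Ar (LiveB_oe e1 σ1) (8 * lam) ∩ Ar (LiveB_oe e2 σ2) (8 * lam)} := by
        refine measureReal_mono ?_ (measure_ne_top _ _)
        rintro q ⟨-, h1, h2, h3⟩
        refine ⟨h3, h1.1, h2.1, LiveB_arm σ1 h1, ?_⟩
        have h4 := LiveB_arm σ2 h2
        have h5 : hub (B : Set (V d)) q.1 (LiveB_en e2 σ2) =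
            hub (B : Set (V d)) q.1 (LiveB_en e1 σ1) := hub_eq h3
        rw [h5] at h4
        exact h4
      refine g2.trans (g1.trans ?_)
      have g3 := Vol_conn H (B : Set (V d)) (LiveB_en e1 σ1) (LiveB_en e2 σ2)
      have g4 := harm s (8 * lam) (LiveB_oe e1 σ1) (LiveB_oe e2 σ2) hs0 hs1 hN1 hsN
      have g5 := LiveB_geo e1 e2 σ1 σ2
      have hk := (kr_pos (LiveB_en e2 σ2 - LiveB_en e1 σ1)).le
      have g6 : (perc d (pn p0 s)).real
          (Ar (LiveB_oe e1 σ1) (8 * lam) ∩ Ar (LiveB_oe e2 σ2) (8 * lam)) ≤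
          C / ((8 * lam : ℕ) : ℝ) ^ 2 *
            (3 ^ (d - 4) / (1 + (nm (LiveB_en e2 σ2 - LiveB_en e1 σ1) : ℝ)) ^ (d - 4)) +
          C / ((8 * lam : ℕ) : ℝ) ^ 4 := by
        refine g4.trans (add_le_add ?_ le_rfl)
        rw [div_eq_mul_one_div (C / ((8 * lam : ℕ) : ℝ) ^ 2)]
        exact mul_le_mul_of_nonneg_left g5 (by positivity)
      calc (perc d p0).real {ω | Cn (B : Set (V d)) ω (LiveB_en e1 σ1) (LiveB_en e2 σ2)} *
            (s * s * (perc d (pn p0 s)).real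
              (Ar (LiveB_oe e1 σ1) (8 * lam) ∩ Ar (LiveB_oe e2 σ2) (8 * lam)))
          ≤ (A * kr (LiveB_en e2 σ2 - LiveB_en e1 σ1)) * (s * s *
            (C / ((8 * lam : ℕ) : ℝ) ^ 2 *
              (3 ^ (d - 4) / (1 + (nm (LiveB_en e2 σ2 - LiveB_en e1 σ1) : ℝ)) ^ (d - 4)) +
            C / ((8 * lam : ℕ) : ℝ) ^ 4)) := by
            refine mul_le_mul g3 (mul_le_mul_of_nonneg_left g6 (mul_nonneg hs0 hs0))
              (mul_nonneg (mul_nonneg hs0 hs0) measureReal_nonneg) (by positivity)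
        _ = f (LiveB_en e2 σ2 - LiveB_en e1 σ1) := by
            rw [hf]
            ring
    · have hempty : {q : Cfg d × Cfg d | LiveB_P B (8 * lam) ((e1, σ1), (e2, σ2)) q} = ∅ := by
        rw [Set.eq_empty_iff_forall_notMem]
        rintro q ⟨h1, h2, -⟩
        exact hok ⟨h1, h2.2.1⟩
      rw [hempty, measureReal_empty]
      exact hf0 _
  -- the sums
  set R : ℕ := (10 * M + 3) * (m * lam) with hR
  have hR1 : 1 ≤ R := Nat.mul_pos (by omega) hL1
  set K2 : ℝ := A * (s * s) * (C / ((8 * lam : ℕ) : ℝ) ^ 2 * 3 ^ (d - 4) * C4 +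
      C / ((8 * lam : ℕ) : ℝ) ^ 4 * (C1 * (1 + (R : ℝ)) ^ 2)) with hK2
  have hfs : ∀ w : V d, ∑ a ∈ B, f (a - w) ≤ K2 := by
    intro w
    rw [hf]
    simp only
    rw [← Finset.mul_sum, Finset.sum_add_distrib, ← Finset.mul_sum, ← Finset.mul_sum]
    refine mul_le_mul_of_nonneg_left (add_le_add ?_ ?_) (mul_nonneg hA0.le (mul_nonneg hs0 hs0))
    · exact mul_le_mul_of_nonneg_left (LiveB_kr4 hs4k R w) (by positivity)
    · exact mul_le_mul_of_nonneg_left (hs1k R 0 w) (by positivity)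
  have hTcard : ((LiveB_T B).card : ℝ) = (B.card : ℝ) * (2 * d) := by
    unfold LiveB_T
    rw [Finset.card_product, Finset.card_product, Finset.card_univ, Finset.card_univ,
      Fintype.card_fin, Fintype.card_bool]
    push_cast
    ring
  have hsum : ∑ t ∈ LiveB_T B ×ˢ LiveB_T B, (PP d p0 s).real {q | LiveB_P B (8 * lam) t q} ≤
      (η0 / 2) * (W / (η0 / 2) * ((m * lam : ℕ) : ℝ) ^ (d - 6)) := by
    calc ∑ t ∈ LiveB_T B ×ˢ LiveB_T B, (PP d p0 s).real {q | LiveB_P B (8 * lam) t q}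
        ≤ ∑ t ∈ LiveB_T B ×ˢ LiveB_T B, f (LiveB_en t.2.1 t.2.2 - LiveB_en t.1.1 t.1.2) :=
          Finset.sum_le_sum fun t _ => hterm t
      _ = ∑ t1 ∈ LiveB_T B, ∑ t2 ∈ LiveB_T B,
            f (LiveB_en t2.1 t2.2 - LiveB_en t1.1 t1.2) := by
          rw [Finset.sum_product]
      _ ≤ ∑ _t1 ∈ LiveB_T B, 2 * d * K2 :=
          Finset.sum_le_sum fun t1 _ => LiveB_sumT B f K2 hfs _
      _ = (B.card : ℝ) * (2 * d) * (2 * d * K2) := by
          rw [Finset.sum_const, nsmul_eq_mul, hTcard]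
      _ ≤ (K * ((m * lam : ℕ) : ℝ) ^ d) * (2 * d) * (2 * d *
            (A * (κ ^ 2 / (lam : ℝ) ^ 2 * (κ ^ 2 / (lam : ℝ) ^ 2)) *
              (C / ((8 * lam : ℕ) : ℝ) ^ 2 * 3 ^ (d - 4) * C4 +
                C / ((8 * lam : ℕ) : ℝ) ^ 4 *
                  (C1 * (2 * ((10 * (M : ℝ) + 3) * ((m * lam : ℕ) : ℝ))) ^ 2)))) := by
          have hs' : s ≤ κ ^ 2 / (lam : ℝ) ^ 2 := by
            rw [le_div_iff₀ (by positivity)]
            exact hs
          have hc := statM_card_BB (d := d) M (m * lam) hL1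
          have hR2 : 1 + (R : ℝ) ≤ 2 * ((10 * (M : ℝ) + 3) * ((m * lam : ℕ) : ℝ)) := by
            have h5 : (R : ℝ) = (10 * (M : ℝ) + 3) * ((m * lam : ℕ) : ℝ) := by
              rw [hR]
              push_cast
              ring
            have h6 : (1 : ℝ) ≤ R := by exact_mod_cast hR1
            rw [← h5]
            linarith
          have hK2' : K2 ≤ A * (κ ^ 2 / (lam : ℝ) ^ 2 * (κ ^ 2 / (lam : ℝ) ^ 2)) *
              (C / ((8 * lam : ℕ) : ℝ) ^ 2 * 3 ^ (d - 4) * C4 +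
                C / ((8 * lam : ℕ) : ℝ) ^ 4 *
                  (C1 * (2 * ((10 * (M : ℝ) + 3) * ((m * lam : ℕ) : ℝ))) ^ 2)) := by
            rw [hK2]
            refine mul_le_mul ?_ ?_ (by positivity) (by positivity)
            · exact mul_le_mul_of_nonneg_left (mul_le_mul hs' hs' hs0 (by positivity)) hA0.le
            · refine add_le_add le_rfl ?_
              refine mul_le_mul_of_nonneg_left ?_ (by positivity)
              refine mul_le_mul_of_nonneg_left ?_ hC1.le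
              exact pow_le_pow_left₀ (by positivity) hR2 2
          have hK20 : 0 ≤ K2 := by
            rw [hK2]
            positivity
          refine mul_le_mul (mul_le_mul_of_nonneg_right hc (by positivity))
            (mul_le_mul_of_nonneg_left hK2' (by positivity)) (by positivity) (by positivity)
      _ = (η0 / 2) * (W / (η0 / 2) * ((m * lam : ℕ) : ℝ) ^ (d - 6)) := by
          have h5 : ((m * lam : ℕ) : ℝ) ^ d = ((m * lam : ℕ) : ℝ) ^ (d - 6) *
              ((m : ℝ) * lam) ^ 6 := by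
            rw [show ((m : ℝ) * lam) = ((m * lam : ℕ) : ℝ) by push_cast; ring, ← pow_add]
            congr 1
            omega
          rw [h5, hW]
          generalize ((m * lam : ℕ) : ℝ) ^ (d - 6) = Z
          generalize (3 : ℝ) ^ (d - 4) = Y
          push_cast
          field_simp
          ring
  have hmk := statM_markov (PP d p0 s) (LiveB_T B ×ˢ LiveB_T B)
    (fun t q => LiveB_P B (8 * lam) t q)
    (W / (η0 / 2) * ((m * lam : ℕ) : ℝ) ^ (d - 6)) (η0 / 2) (by positivity) hsum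
  have hcn := hcnt2 lam s hlam hs0 hs1 hs
  have hsub : {q : Cfg d × Cfg d | (4 * C2 + W / (η0 / 2)) * ((m * lam : ℕ) : ℝ) ^ (d - 6) <
      ∑ D ∈ HF B q.1, (el B (8 * lam) q D : ℝ) ^ 2} ⊆
      {q | C2 * ((m * lam : ℕ) : ℝ) ^ (d - 6) < (LS B (8 * lam) q).card} ∪
      {q | W / (η0 / 2) * ((m * lam : ℕ) : ℝ) ^ (d - 6) <
        (((LiveB_T B ×ˢ LiveB_T B).filter (fun t => LiveB_P B (8 * lam) t q)).card : ℝ)} := by
    intro q hq
    have hq' : (4 * C2 + W / (η0 / 2)) * ((m * lam : ℕ) : ℝ) ^ (d - 6) <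
      ∑ D ∈ HF B q.1, (el B (8 * lam) q D : ℝ) ^ 2 := hq
    have hdet := LiveB_det B (8 * lam) q
    by_contra hcon
    rw [Set.mem_union, not_or] at hcon
    have g1 : ((LS B (8 * lam) q).card : ℝ) ≤ C2 * ((m * lam : ℕ) : ℝ) ^ (d - 6) :=
      not_lt.1 hcon.1
    have g2 : (((LiveB_T B ×ˢ LiveB_T B).filter (fun t => LiveB_P B (8 * lam) t q)).card : ℝ) ≤
        W / (η0 / 2) * ((m * lam : ℕ) : ℝ) ^ (d - 6) := not_lt.1 hcon.2
    linarith
  have h10 := (measureReal_mono hsub (measure_ne_top _ _)).trans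
    (measureReal_union_le (μ := PP d p0 s) _ _)
  linarith

end H95LBS
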