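import Pool.Agent.H95.LBS.LiveA
import Pool.Agent.H95.LBS.LiveB
import Pool.Agent.H95.LBS.StatM
import Pool.Agent.H95.LBS.Med

/-!
PROJECT DS (MP_0d9ad5_pr), JOB DS-Cnt. The conditions `CntOK` hold with high probability.
PROOF. Union bound with `η0/6` each: `live_cnt` (C2), `live_sq` (C3), `st_fat` with `δf = η1 η2/16` (b2), `st_col` (CH),
`live_long` with `δ = cR m^2/8` and `st_long` (b3 = the maximum); `r1 = floor(cR m^2 n) >= cR m^2 n/2` for `lam` large, so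
`δ n <= r1/4`. The static events are events of `q.1` (law `perc d p0`: first marginal of `PP`). `κ1` = the minimum.
-/

namespace H95LBS

open H5DF H95LBD MeasureTheory

variable {d : ℕ}

lemma Cnt_fst {p s : ℝ} (hs0 : 0 ≤ s) (hs1 : s ≤ 1) (E : Set (Cfg d)) :
    (PP d p s).real {q | q.1 ∈ E} ≤ (perc d p).real E := by
  have := isProb_perc (d := d) s hs0 hs1
  have h1 : {q : Cfg d × Cfg d | q.1 ∈ E} = E ×ˢ Set.univ := by
    ext q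
    simp
  rw [h1, PP, Measure.real, Measure.prod_prod, measure_univ, mul_one, Measure.real]

theorem cnt_ok {p0 A cM : ℝ} {M : ℕ} (H : Crit d p0 A cM M) : ∃ κ1 : ℝ, 0 < κ1 ∧
    ∀ (η0 c1 b1 η1 η2 κ cR : ℝ) (m : ℕ), 0 < η0 → 0 < c1 → 0 < b1 → 0 < η1 → 0 < η2 → 0 < κ →
      κ ≤ κ1 → 0 < cR → 1 ≤ m → ∃ (C2 C3 CH b2 b3 : ℝ) (lam0 : ℕ), 0 < C2 ∧ 0 < C3 ∧ 0 < CH ∧
        0 < b2 ∧ 0 < b3 ∧ ∀ (lam : ℕ) (s : ℝ), lam0 ≤ lam → κ ^ 2 / 2 ≤ s * (lam : ℝ) ^ 2 →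
          s * (lam : ℝ) ^ 2 ≤ κ ^ 2 → (PP d p0 s).real {q | ¬ CntOK M m lam c1 b1 η1 η2 C2 C3 CH b2 b3
            ⌊cR * (m : ℝ) ^ 2 * ((m * lam : ℕ) : ℝ) ^ (d - 6)⌋₊ q} ≤ η0 := by
  classical
  obtain ⟨κa, hκa, ha⟩ := live_cnt H
  obtain ⟨κb, hκb, hb⟩ := live_sq H
  obtain ⟨κc, hκc, hc⟩ := live_long H
  refine ⟨min 1 (min κa (min κb κc)), by positivity, ?_⟩
  intro η0 c1 b1 η1 η2 κ cR m h0 hc1 hb1 hη1 hη2 hκ hκ1 hcR hm
  have hm0 : (0 : ℝ) < m := by exact_mod_cast hm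
  have k1 : κ ≤ 1 := hκ1.trans (min_le_left _ _)
  have k2 : κ ≤ min κa (min κb κc) := hκ1.trans (min_le_right _ _)
  have ka : κ ≤ κa := k2.trans (min_le_left _ _)
  have k3 : κ ≤ min κb κc := k2.trans (min_le_right _ _)
  have kb : κ ≤ κb := k3.trans (min_le_left _ _)
  have kc : κ ≤ κc := k3.trans (min_le_right _ _)
  obtain ⟨C2, hC2, h2⟩ := ha κ hκ ka m hm (η0 / 6) (by positivity)
  obtain ⟨C3, hC3, h3⟩ := hb κ hκ kb m hm (η0 / 6) (by positivity)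
  obtain ⟨b30, hb30, h4⟩ := hc κ hκ kc m hm (cR * (m : ℝ) ^ 2 / 8) (η0 / 6) (by positivity)
    (by positivity)
  obtain ⟨b20, hb20, h5⟩ := st_fat H (η1 * η2 / 16) (η0 / 6) (by positivity) (by positivity)
  obtain ⟨b31, hb31, h6⟩ := st_long H (η1 * η2 / 16) (η0 / 6) (by positivity) (by positivity)
  obtain ⟨CH, hCH, h7⟩ := st_col H c1 b1 (η0 / 6) hb1 (by positivity)
  refine ⟨C2, C3, CH, b20, max b30 b31, max 1 (max ⌈1 / b1⌉₊ ⌈2 / (cR * (m : ℝ) ^ 2)⌉₊), hC2, hC3,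
    hCH, by linarith, lt_of_lt_of_le (by linarith) (le_max_left _ _), ?_⟩
  intro lam s hlam hs1 hs2
  have hlam1 : 1 ≤ lam := (le_max_left _ _).trans hlam
  have hlam2 : max ⌈1 / b1⌉₊ ⌈2 / (cR * (m : ℝ) ^ 2)⌉₊ ≤ lam := (le_max_right _ _).trans hlam
  have hlam3 : 1 / b1 ≤ (lam : ℝ) := (Nat.le_ceil _).trans
    (by exact_mod_cast (le_max_left _ _).trans hlam2)
  have hlam4 : 2 / (cR * (m : ℝ) ^ 2) ≤ (lam : ℝ) := (Nat.le_ceil _).trans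
    (by exact_mod_cast (le_max_right _ _).trans hlam2)
  have hl1 : (1 : ℝ) ≤ lam := by exact_mod_cast hlam1
  have hl0 : (0 : ℝ) < lam := by linarith
  have hs0 : 0 ≤ s := by
    have h8 : 0 ≤ s * (lam : ℝ) ^ 2 := le_trans (by positivity) hs1
    exact nonneg_of_mul_nonneg_left h8 (by positivity)
  have hsle : s ≤ 1 := by
    have h8 : s * 1 ≤ s * (lam : ℝ) ^ 2 := mul_le_mul_of_nonneg_left (one_le_pow₀ hl1) hs0
    have h9 : κ ^ 2 ≤ 1 := pow_le_one₀ hκ.le k1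
    linarith
  have := isProb_PP (d := d) H.hp0.le H.hp1.le hs0 hsle
  have hL1 : 1 ≤ m * lam := Nat.mul_pos hm hlam1
  have hLl : (lam : ℝ) ≤ ((m * lam : ℕ) : ℝ) := by
    push_cast
    have : (1 : ℝ) ≤ m := by exact_mod_cast hm
    nlinarith
  have hLR : (1 : ℝ) ≤ ((m * lam : ℕ) : ℝ) := hl1.trans hLl
  have hn1 : (lam : ℝ) ≤ ((m * lam : ℕ) : ℝ) ^ (d - 6) := by
    have h7' := H.hd
    calc (lam : ℝ) ≤ ((m * lam : ℕ) : ℝ) := hLl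
      _ ≤ ((m * lam : ℕ) : ℝ) ^ (d - 6) := le_self_pow₀ hLR (by omega)
  have hr : cR * (m : ℝ) ^ 2 / 8 * ((m * lam : ℕ) : ℝ) ^ (d - 6) ≤
      (⌊cR * (m : ℝ) ^ 2 * ((m * lam : ℕ) : ℝ) ^ (d - 6)⌋₊ : ℝ) / 4 := by
    have h8 : cR * (m : ℝ) ^ 2 * ((m * lam : ℕ) : ℝ) ^ (d - 6) <
      (⌊cR * (m : ℝ) ^ 2 * ((m * lam : ℕ) : ℝ) ^ (d - 6)⌋₊ : ℝ) + 1 := Nat.lt_floor_add_one _
    have h9 : 2 ≤ cR * (m : ℝ) ^ 2 * ((m * lam : ℕ) : ℝ) ^ (d - 6) := by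
      rw [div_le_iff₀ (by positivity)] at hlam4
      have : (lam : ℝ) * (cR * (m : ℝ) ^ 2) ≤
        ((m * lam : ℕ) : ℝ) ^ (d - 6) * (cR * (m : ℝ) ^ 2) :=
        mul_le_mul_of_nonneg_right hn1 (by positivity)
      linarith
    generalize (⌊cR * (m : ℝ) ^ 2 * ((m * lam : ℕ) : ℝ) ^ (d - 6)⌋₊ : ℝ) = R at h8
    linarith
  have hbL : 1 ≤ b1 * ((m * lam : ℕ) : ℝ) ^ 4 := by
    rw [div_le_iff₀ hb1] at hlam3
    have h8 : ((m * lam : ℕ) : ℝ) ≤ ((m * lam : ℕ) : ℝ) ^ 4 := le_self_pow₀ hLR (by norm_num)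
    nlinarith
  have e2 := h2 lam s hlam1 hs0 hsle hs2
  have e3 := h3 lam s hlam1 hs0 hsle hs2
  have e4 := h4 (max b30 b31) (le_max_left _ _) lam s hlam1 hs0 hsle hs2
  have e5 := (Cnt_fst (d := d) hs0 hsle _).trans (h5 b20 le_rfl (m * lam) hL1)
  have e6 := (Cnt_fst (d := d) hs0 hsle _).trans
    (h6 (max b30 b31) (le_max_right _ _) (m * lam) hL1)
  have e7 := (Cnt_fst (d := d) hs0 hsle _).trans (h7 (m * lam) hL1 hbL)
  have e67 := (measureReal_union_le _ _).trans (add_le_add e6 e7)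
  have e57 := (measureReal_union_le _ _).trans (add_le_add e5 e67)
  have e47 := (measureReal_union_le _ _).trans (add_le_add e4 e57)
  have e37 := (measureReal_union_le _ _).trans (add_le_add e3 e47)
  have e27 := (measureReal_union_le _ _).trans (add_le_add e2 e37)
  refine (measureReal_mono ?_ (measure_ne_top _ _)).trans (e27.trans ?_)
  · intro q hq
    by_contra hcon
    apply hq
    simp only [Set.mem_union, Set.mem_ofPred_eq, not_or, not_lt] at hcon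
    obtain ⟨f2, f3, f4, f5, f6, f7⟩ := hcon
    refine ⟨f2, f3, f4.trans ?_, f5, f6, f7⟩
    exact hr
  · linarith

end H95LBS
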