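import Pool.Agent.H95.LBS.Vol
import Pool.Agent.H95.LBS.VarL

/-!
PROJECT DS (MP_0d9ad5_pr), JOB DS-ConZ. Concentration of pair counts (section 2d of note 2700).
PROOF. `L = m lam`, `S = BF 0 (2 M L)` (contains `WW`), `F x = min (N_x) (b' L^4)` increasing, determined by the
edges inside the hub of `x` in `S`. `E N_x >= (card (reg R2) - (3 c1 L)^d) * cM/(2L)^(d-2)` (`H.rest` with
`n = 2 L`: points of `WW` have norm `<= 2L`; at most `(2 c1 L + 1)^d <= (3 c1 L)^d` points at distance `< c1 L`, for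
`c1 L >= 1`) `>= (cv/2) cM 2^(2-d) L^2`; `min a K >= a - a^2/K`, `E N_x^2 <= C L^6` (`vol2`, `N_x <= cn hub (BF x (3L))`);
`b' = 2^(d+1) C/(cv cM)`; so `E ∑ F >= 2 cp L^(d+2)`. Variance term (`cheb_hub`):
`∑_{x,y} E F_x F_y 1{x<->y} <= b' L^4 ∑_x E [N_x * cn hub] <= C b' L^(d+10)`; `/(cp L^(d+2))^2 -> 0` as `lam -> ∞`.
Union over the finitely many `R1, R2 ⊆ JJ d m`.
-/

namespace H95LBS

open H5DF H95LBD MeasureTheory

variable {d : ℕ}

/-- The region of a set of small boxes. -/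
noncomputable def reg (lam : ℕ) (R : Finset (V d)) : Finset (V d) := R.biUnion (cube lam)

/-- Number of far points of `reg R2` connected to `x`. -/
noncomputable def NZ (M L lam : ℕ) (c1 : ℝ) (R2 : Finset (V d)) (ω : Cfg d) (x : V d) : ℕ :=
  cn {y | c1 * L ≤ nm (y - x) ∧ Cn (Bx 0 (2 * M * L)) ω x y} (reg lam R2)

/-- The truncated number of far pairs. -/
noncomputable def ZZ (M L lam : ℕ) (c1 b' : ℝ) (R1 R2 : Finset (V d)) (ω : Cfg d) : ℝ :=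
  ∑ x ∈ reg lam R1, min (NZ M L lam c1 R2 ω x : ℝ) (b' * (L : ℝ) ^ 4)

lemma ConZ_cut_le (D : Set (V d)) (ω : Cfg d) : ∀ e, cut D ω e = true → ω e = true :=
  fun _ h => (cut_true.1 h).1

lemma ConZ_local (S : Set (V d)) (ω : Cfg d) (x y : V d) :
    Cn S (cut (hub S ω x) ω) x y ↔ Cn S ω x y := by
  constructor
  · intro h
    exact h.mono (fun _ h => h) (ConZ_cut_le _ _)
  · intro h
    refine Cn.ind (fun y => Cn S (cut (hub S ω x) ω) x y) (Cn.refl _ _ _) ?_ h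
    intro y s hxy ih hy hs ho
    refine ih.trans (Cn.one ?_ hy hs)
    rw [cut_edge]
    exact ⟨ho, hxy, hxy.trans (Cn.one ho hy hs)⟩

lemma ConZ_cn (X : Cfg d → Set (V d)) (T : Finset (V d)) (ω : Cfg d) :
    (cn (X ω) T : ℝ) = ∑ y ∈ T, Set.indicator {ω | y ∈ X ω} (fun _ => (1 : ℝ)) ω := by
  classical
  have h : ∀ y, Set.indicator {ω | y ∈ X ω} (fun _ => (1 : ℝ)) ω =
      if y ∈ X ω then (1 : ℝ) else 0 := by
    intro y
    by_cases hy : y ∈ X ω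
    · rw [Set.indicator_of_mem (by exact hy), if_pos hy]
    · rw [Set.indicator_of_notMem (by exact hy), if_neg hy]
  simp_rw [h]
  rw [Finset.sum_boole]
  unfold cn
  rfl

lemma ConZ_meas (X : Cfg d → Set (V d)) (T : Finset (V d))
    (hX : ∀ y, MeasurableSet {ω | y ∈ X ω}) : Measurable fun ω => (cn (X ω) T : ℝ) := by
  have h : (fun ω => (cn (X ω) T : ℝ)) =
      fun ω => ∑ y ∈ T, Set.indicator {ω | y ∈ X ω} (fun _ => (1 : ℝ)) ω := by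
    funext ω
    exact ConZ_cn X T ω
  rw [h]
  exact Finset.measurable_fun_sum _ fun y _ => measurable_const.indicator (hX y)

lemma ConZ_int {p : ℝ} (h0 : 0 ≤ p) (h1 : p ≤ 1) (X : Cfg d → Set (V d)) (T : Finset (V d))
    (hX : ∀ y, MeasurableSet {ω | y ∈ X ω}) :
    ∫ ω, (cn (X ω) T : ℝ) ∂(perc d p) = ∑ y ∈ T, (perc d p).real {ω | y ∈ X ω} := by
  have := isProb_perc (d := d) p h0 h1
  simp_rw [ConZ_cn X T]
  rw [integral_finsetSum]
  · refine Finset.sum_congr rfl fun y _ => ?_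
    rw [integral_indicator_const _ (hX y)]
    simp
  · intro y _
    exact (integrable_const (1 : ℝ)).indicator (hX y)

lemma ConZ_min (a K : ℝ) (ha : 0 ≤ a) (hK : 0 < K) : a - a ^ 2 / K ≤ min a K := by
  rw [le_min_iff]
  constructor
  · have : 0 ≤ a ^ 2 / K := by positivity
    linarith
  · rw [sub_le_iff_le_add, ← sub_le_iff_le_add', le_div_iff₀ hK]
    nlinarith [sq_nonneg (a - K), sq_nonneg a, sq_nonneg K]

lemma ConZ_card_BF (z : V d) (k : ℕ) (hk : 1 ≤ k) :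
    ((BF z k).card : ℝ) ≤ 3 ^ d * (k : ℝ) ^ d := by
  refine le_trans ?_ (card_Box_le k hk)
  unfold BF
  exact_mod_cast Finset.card_image_le

lemma ConZ_card_cube (n : ℕ) (j : V d) : (cube n j).card = n ^ d := by
  unfold cube
  rw [Fintype.card_piFinset]
  have : ∀ i : Fin d, (Finset.Ico (j i * (n : ℤ)) ((j i + 1) * n)).card = n := by
    intro i
    rw [Int.card_Ico]
    have e : (j i + 1) * (n : ℤ) - j i * n = n := by ring
    rw [e, Int.toNat_natCast]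
  simp [this]

lemma ConZ_card_JJ (m : ℕ) : (JJ d m).card = (3 * m) ^ d := by
  unfold JJ
  rw [Fintype.card_piFinset]
  have : ∀ _i : Fin d, (Finset.Ico (-(m : ℤ)) (2 * m)).card = 3 * m := by
    intro i
    rw [Int.card_Ico]
    have e : 2 * (m : ℤ) - -(m : ℤ) = ((3 * m : ℕ) : ℤ) := by
      push_cast
      ring
    rw [e, Int.toNat_natCast]
  rw [Finset.prod_congr rfl (fun i _ => this i), Finset.prod_const, Finset.card_univ,
    Fintype.card_fin]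

lemma ConZ_cube_disj (n : ℕ) (j j' : V d) (h : j ≠ j') : Disjoint (cube n j) (cube n j') := by
  rw [Finset.disjoint_left]
  intro x h1 h2
  apply h
  funext i
  obtain ⟨a1, a2⟩ := mem_cube.1 h1 i
  obtain ⟨b1, b2⟩ := mem_cube.1 h2 i
  have hn : (0 : ℤ) ≤ n := Int.natCast_nonneg n
  have c1 : j i < j' i + 1 := lt_of_mul_lt_mul_right (a1.trans_lt b2) hn
  have c2 : j' i < j i + 1 := lt_of_mul_lt_mul_right (b1.trans_lt a2) hn
  omega

lemma ConZ_card_reg (lam : ℕ) (R : Finset (V d)) : (reg lam R).card = R.card * lam ^ d := by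
  unfold reg
  rw [Finset.card_biUnion fun j _ j' _ h => ConZ_cube_disj lam j j' h]
  simp [ConZ_card_cube]

lemma ConZ_nm_reg {m lam : ℕ} {R : Finset (V d)} (hR : R ⊆ JJ d m) {x : V d}
    (hx : x ∈ reg lam R) : nm x ≤ 2 * (m * lam) := by
  obtain ⟨j, hj, hx⟩ := Finset.mem_biUnion.1 hx
  have hj' := mem_JJ.1 (hR hj)
  rw [nm_le]
  intro i
  obtain ⟨a1, a2⟩ := mem_cube.1 hx i
  obtain ⟨b1, b2⟩ := hj' i
  have hn : (0 : ℤ) ≤ lam := Int.natCast_nonneg lam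
  have hm : (0 : ℤ) ≤ m := Int.natCast_nonneg m
  have c1 : -(m : ℤ) * lam ≤ j i * lam := mul_le_mul_of_nonneg_right b1 hn
  have c2 : (j i + 1) * (lam : ℤ) ≤ 2 * m * lam :=
    mul_le_mul_of_nonneg_right (by omega) hn
  have c3 : 0 ≤ (m : ℤ) * lam := mul_nonneg hm hn
  have h1 : |x i| ≤ 2 * ((m : ℤ) * lam) := by
    rw [abs_le]
    constructor <;> linarith
  rw [Int.abs_eq_natAbs] at h1
  exact_mod_cast h1

lemma ConZ_incF (M L lam : ℕ) (c1 b' : ℝ) (R2 : Finset (V d)) (x : V d) :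
    IncF fun ω => min (NZ M L lam c1 R2 ω x : ℝ) (b' * (L : ℝ) ^ 4) := by
  intro ω ω' h
  refine min_le_min_right _ ?_
  have : NZ M L lam c1 R2 ω x ≤ NZ M L lam c1 R2 ω' x := by
    refine cn_mono ?_ _
    rintro y ⟨h1, h2⟩
    exact ⟨h1, h2.mono (fun _ h => h) h⟩
  exact_mod_cast this

lemma ConZ_measX (M L : ℕ) (c1 : ℝ) (x y : V d) :
    MeasurableSet {ω : Cfg d | y ∈ {y | c1 * L ≤ nm (y - x) ∧ Cn (Bx 0 (2 * M * L)) ω x y}} := by
  have : {ω : Cfg d | y ∈ {y | c1 * L ≤ nm (y - x) ∧ Cn (Bx 0 (2 * M * L)) ω x y}} =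
      {_ω : Cfg d | c1 * L ≤ nm (y - x)} ∩ {ω | Cn (Bx 0 (2 * M * L)) ω x y} := by
    ext ω
    rfl
  rw [this]
  exact (MeasurableSet.const _).inter (meas_Cn _ _ _)

lemma ConZ_measF (M L lam : ℕ) (c1 b' : ℝ) (R2 : Finset (V d)) (x : V d) :
    Measurable fun ω => min (NZ M L lam c1 R2 ω x : ℝ) (b' * (L : ℝ) ^ 4) :=
  (ConZ_meas _ _ (ConZ_measX M L c1 x)).min measurable_const

lemma ConZ_locF (M L lam : ℕ) (c1 b' : ℝ) (R2 : Finset (V d)) (x : V d) (ω : Cfg d) :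
    min (NZ M L lam c1 R2 ω x : ℝ) (b' * (L : ℝ) ^ 4) =
      min (NZ M L lam c1 R2 (cut (hub (Bx 0 (2 * M * L)) ω x) ω) x : ℝ) (b' * (L : ℝ) ^ 4) := by
  have : NZ M L lam c1 R2 (cut (hub (Bx 0 (2 * M * L)) ω x) ω) x = NZ M L lam c1 R2 ω x := by
    unfold NZ
    congr 1
    ext y
    exact and_congr_right fun _ => ConZ_local _ ω x y
  rw [this]

/-- The number of points of the hub of `x` near `x`. -/
noncomputable def ConZ_N (M L : ℕ) (ω : Cfg d) (x : V d) : ℝ :=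
  (cn (hub (Bx 0 (2 * M * L)) ω x) (BF x (4 * L)) : ℝ)

lemma ConZ_N_nn (M L : ℕ) (ω : Cfg d) (x : V d) : 0 ≤ ConZ_N M L ω x := Nat.cast_nonneg _

lemma ConZ_N_meas (M L : ℕ) (x : V d) : Measurable fun ω => ConZ_N M L ω x :=
  ConZ_meas (fun ω => hub (Bx 0 (2 * M * L)) ω x) _ (fun y => meas_Cn _ _ _)

lemma ConZ_N_le (M L : ℕ) (ω : Cfg d) (x : V d) : ConZ_N M L ω x ≤ (BF x (4 * L)).card := by
  unfold ConZ_N
  exact_mod_cast cn_le _ _

lemma ConZ_cn_sub {X Y : Set (V d)} {T T' : Finset (V d)}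
    (h : ∀ y ∈ T, y ∈ X → y ∈ T' ∧ y ∈ Y) : cn X T ≤ cn Y T' := by
  classical
  unfold cn
  apply Finset.card_le_card
  intro x hx
  rw [Finset.mem_filter] at hx ⊢
  exact h x hx.1 hx.2

lemma ConZ_NZ_le {M m lam : ℕ} (c1 : ℝ) {R R2 : Finset (V d)} (hR : R ⊆ JJ d m)
    (hR2 : R2 ⊆ JJ d m) {x : V d} (hx : x ∈ reg lam R) (ω : Cfg d) :
    (NZ M (m * lam) lam c1 R2 ω x : ℝ) ≤ ConZ_N M (m * lam) ω x := by
  classical
  unfold ConZ_N
  have : NZ M (m * lam) lam c1 R2 ω x ≤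
      cn (hub (Bx 0 (2 * M * (m * lam))) ω x) (BF x (4 * (m * lam))) := by
    refine ConZ_cn_sub fun y hy1 hy2 => ⟨?_, hy2.2⟩
    rw [mem_BF]
    have h1 := nm_sub y x
    have h2 := ConZ_nm_reg hR hx
    have h3 := ConZ_nm_reg hR2 hy1
    omega
  exact_mod_cast this

/-- Second moment of the near part of the hub. -/
lemma ConZ_sq {p0 A cM : ℝ} {M : ℕ} (H : Crit d p0 A cM M) {C : ℝ}
    (hC : ∀ (S : Set (V d)) (x : V d) (r : ℕ), 1 ≤ r →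
      ∫ ω, (cn (hub S ω x) (BF x r) : ℝ) ^ 2 ∂(perc d p0) ≤ C * (r : ℝ) ^ 6)
    (L : ℕ) (hL : 1 ≤ L) (x : V d) :
    ∫ ω, ConZ_N M L ω x ^ 2 ∂(perc d p0) ≤ 4096 * C * (L : ℝ) ^ 6 := by
  have := H.prob
  refine (hC (Bx 0 (2 * M * L)) x (4 * L) (by omega)).trans (le_of_eq ?_)
  push_cast
  ring

/-- The mean of one truncated count. -/
lemma ConZ_mean {p0 A cM : ℝ} {M : ℕ} (H : Crit d p0 A cM M) {cv : ℝ} (hcv : 0 < cv) {C : ℝ}
    (hC0 : 0 < C) (hC : ∀ (S : Set (V d)) (x : V d) (r : ℕ), 1 ≤ r →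
      ∫ ω, (cn (hub S ω x) (BF x r) : ℝ) ^ 2 ∂(perc d p0) ≤ C * (r : ℝ) ^ 6)
    {c1 : ℝ} (hc : (3 * c1) ^ d ≤ cv / 2) (m lam : ℕ)
    (hL : 1 ≤ c1 * ((m * lam : ℕ) : ℝ)) {R R2 : Finset (V d)} (hR : R ⊆ JJ d m)
    (hR2 : R2 ⊆ JJ d m) (h2 : cv * (m : ℝ) ^ d ≤ R2.card) {x : V d} (hx : x ∈ reg lam R) :
    cv * cM / 2 ^ d * ((m * lam : ℕ) : ℝ) ^ 2 ≤
      ∫ ω, min (NZ M (m * lam) lam c1 R2 ω x : ℝ)
        (4096 * 2 ^ d * C / (cv * cM) * ((m * lam : ℕ) : ℝ) ^ 4) ∂(perc d p0) := by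
  classical
  have hpr := H.prob
  have h0 := H.hp0.le
  have h1 := H.hp1.le
  have hcM := H.hc
  set L : ℕ := m * lam with hLdef
  have hLpos : 1 ≤ L := by
    rcases Nat.eq_zero_or_pos L with h | h
    · rw [h] at hL
      simp only [Nat.cast_zero, mul_zero] at hL
      linarith
    · exact h
  have hLr : (1 : ℝ) ≤ L := by exact_mod_cast hLpos
  set T := reg lam R2 with hT
  set b' : ℝ := 4096 * 2 ^ d * C / (cv * cM) with hb'
  have hb'0 : 0 < b' := by positivity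
  have hK : 0 < b' * (L : ℝ) ^ 4 := by positivity
  -- mean of the count
  have hmean : ∫ ω, (NZ M L lam c1 R2 ω x : ℝ) ∂(perc d p0) =
      ∑ y ∈ T, (perc d p0).real
        {ω : Cfg d | y ∈ {y | c1 * L ≤ nm (y - x) ∧ Cn (Bx 0 (2 * M * L)) ω x y}} :=
    ConZ_int h0 h1 (fun ω => {y | c1 * L ≤ nm (y - x) ∧ Cn (Bx 0 (2 * M * L)) ω x y}) T
      (ConZ_measX M L c1 x)
  set far := T.filter fun y => c1 * (L : ℝ) ≤ nm (y - x) with hfar
  have hxn : nm x ≤ 2 * L := ConZ_nm_reg hR hx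
  have hlow : (far.card : ℝ) * (cM / ((2 * L : ℕ) : ℝ) ^ (d - 2)) ≤
      ∫ ω, (NZ M L lam c1 R2 ω x : ℝ) ∂(perc d p0) := by
    rw [hmean, ← nsmul_eq_mul, ← Finset.sum_const]
    refine (Finset.sum_le_sum ?_).trans (Finset.sum_le_sum_of_subset_of_nonneg
      (Finset.filter_subset _ _) fun y _ _ => measureReal_nonneg)
    intro y hy
    rw [hfar, Finset.mem_filter] at hy
    have hyn : nm y ≤ 2 * L := ConZ_nm_reg hR2 hy.1
    have hr := H.rest (2 * L) x y (by omega) hxn hyn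
    have e : {ω : Cfg d | y ∈ {y | c1 * L ≤ nm (y - x) ∧ Cn (Bx 0 (2 * M * L)) ω x y}} =
        {ω : Cfg d | Cn (Bx 0 (M * (2 * L))) ω x y} := by
      ext ω
      have e2 : 2 * M * L = M * (2 * L) := by ring
      rw [← e2]
      exact ⟨fun h => h.2, fun h => ⟨hy.2, h⟩⟩
    rw [e]
    exact hr
  -- number of far points
  have hfarc : cv / 2 * (L : ℝ) ^ d ≤ far.card := by
    have hk : 1 ≤ ⌊c1 * (L : ℝ)⌋₊ := Nat.one_le_floor_iff _ |>.2 hL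
    have hTc : cv * (L : ℝ) ^ d ≤ T.card := by
      rw [hT, ConZ_card_reg, hLdef]
      push_cast
      rw [mul_pow, ← mul_assoc]
      exact mul_le_mul_of_nonneg_right h2 (by positivity)
    have hsub : T ⊆ far ∪ BF x ⌊c1 * (L : ℝ)⌋₊ := by
      intro y hy
      rw [Finset.mem_union]
      by_cases h : c1 * (L : ℝ) ≤ nm (y - x)
      · left
        rw [hfar, Finset.mem_filter]
        exact ⟨hy, h⟩
      · right
        rw [mem_BF]
        exact Nat.le_floor (not_le.1 h).le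
    have h3 : (T.card : ℝ) ≤ far.card + (BF x ⌊c1 * (L : ℝ)⌋₊).card := by
      exact_mod_cast (Finset.card_le_card hsub).trans (Finset.card_union_le _ _)
    have h4 : ((BF x ⌊c1 * (L : ℝ)⌋₊).card : ℝ) ≤ cv / 2 * (L : ℝ) ^ d := by
      have hc1L : 0 ≤ c1 * (L : ℝ) := by linarith
      calc ((BF x ⌊c1 * (L : ℝ)⌋₊).card : ℝ) ≤ 3 ^ d * ((⌊c1 * (L : ℝ)⌋₊ : ℕ) : ℝ) ^ d :=
            ConZ_card_BF _ _ hk
        _ ≤ 3 ^ d * (c1 * (L : ℝ)) ^ d := by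
            gcongr
            exact Nat.floor_le hc1L
        _ = (3 * c1) ^ d * (L : ℝ) ^ d := by
            rw [mul_pow, mul_pow]
            ring
        _ ≤ cv / 2 * (L : ℝ) ^ d := by gcongr
    linarith
  -- lower bound of the mean
  have hd : 7 ≤ d := H.hd
  have hm1 : cv * cM / 2 ^ d * 2 * (L : ℝ) ^ 2 ≤ ∫ ω, (NZ M L lam c1 R2 ω x : ℝ) ∂(perc d p0) := by
    refine le_trans ?_ hlow
    have h5 : cv / 2 * (L : ℝ) ^ d * (cM / ((2 * L : ℕ) : ℝ) ^ (d - 2)) ≤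
        (far.card : ℝ) * (cM / ((2 * L : ℕ) : ℝ) ^ (d - 2)) := by gcongr
    refine le_trans (le_of_eq ?_) h5
    obtain ⟨k, hk⟩ : ∃ k, d = k + 2 := ⟨d - 2, by omega⟩
    have hk2 : d - 2 = k := by omega
    rw [hk2, hk]
    push_cast
    rw [mul_pow 2 (L : ℝ) k]
    have hLk : (L : ℝ) ^ k ≠ 0 := by positivity
    have h2k : (2 : ℝ) ^ k ≠ 0 := by positivity
    rw [pow_add, pow_add]
    field_simp
  -- truncation
  have hNm : Measurable fun ω : Cfg d => (NZ M L lam c1 R2 ω x : ℝ) :=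
    ConZ_meas _ _ (ConZ_measX M L c1 x)
  have hNb : ∀ ω : Cfg d, (NZ M L lam c1 R2 ω x : ℝ) ≤ T.card := by
    intro ω
    exact_mod_cast cn_le _ _
  have hNi : Integrable (fun ω : Cfg d => (NZ M L lam c1 R2 ω x : ℝ)) (perc d p0) :=
    VarL_int h0 h1 hNm T.card fun ω => by
      rw [abs_of_nonneg (Nat.cast_nonneg _)]
      exact hNb ω
  have hN2i : Integrable (fun ω : Cfg d => (NZ M L lam c1 R2 ω x : ℝ) ^ 2) (perc d p0) :=
    VarL_int h0 h1 (hNm.pow_const 2) ((T.card : ℝ) ^ 2) fun ω => by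
      rw [abs_of_nonneg (by positivity)]
      exact pow_le_pow_left₀ (Nat.cast_nonneg _) (hNb ω) 2
  have hNNi : Integrable (fun ω : Cfg d => ConZ_N M L ω x ^ 2) (perc d p0) :=
    VarL_int h0 h1 ((ConZ_N_meas M L x).pow_const 2) (((BF x (4 * L)).card : ℝ) ^ 2) fun ω => by
      rw [abs_of_nonneg (by positivity)]
      exact pow_le_pow_left₀ (ConZ_N_nn M L ω x) (ConZ_N_le M L ω x) 2
  have hsq : ∫ ω, (NZ M L lam c1 R2 ω x : ℝ) ^ 2 ∂(perc d p0) ≤ 4096 * C * (L : ℝ) ^ 6 := by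
    refine le_trans (integral_mono hN2i hNNi ?_) (ConZ_sq H hC L hLpos x)
    intro ω
    exact pow_le_pow_left₀ (Nat.cast_nonneg _) (ConZ_NZ_le c1 hR hR2 hx ω) 2
  have hmini : Integrable (fun ω : Cfg d => min (NZ M L lam c1 R2 ω x : ℝ) (b' * (L : ℝ) ^ 4))
      (perc d p0) :=
    VarL_int h0 h1 (ConZ_measF M L lam c1 b' R2 x) T.card fun ω => by
      rw [abs_of_nonneg (le_min (Nat.cast_nonneg _) hK.le)]
      exact (min_le_left _ _).trans (hNb ω)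
  have hfin : ∫ ω, ((NZ M L lam c1 R2 ω x : ℝ) - (NZ M L lam c1 R2 ω x : ℝ) ^ 2 /
      (b' * (L : ℝ) ^ 4)) ∂(perc d p0) ≤
      ∫ ω, min (NZ M L lam c1 R2 ω x : ℝ) (b' * (L : ℝ) ^ 4) ∂(perc d p0) := by
    refine integral_mono (hNi.sub (hN2i.div_const _)) hmini fun ω => ?_
    exact ConZ_min _ _ (Nat.cast_nonneg _) hK
  rw [integral_sub hNi (hN2i.div_const _), integral_div] at hfin
  refine le_trans ?_ hfin
  have h6 : (∫ ω, (NZ M L lam c1 R2 ω x : ℝ) ^ 2 ∂(perc d p0)) / (b' * (L : ℝ) ^ 4) ≤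
      cv * cM / 2 ^ d * (L : ℝ) ^ 2 := by
    rw [div_le_iff₀ hK]
    refine hsq.trans (le_of_eq ?_)
    rw [hb']
    field_simp
  linarith

/-- The correlation term. -/
lemma ConZ_var {p0 A cM : ℝ} {M : ℕ} (H : Crit d p0 A cM M) {C : ℝ}
    (hC : ∀ (S : Set (V d)) (x : V d) (r : ℕ), 1 ≤ r →
      ∫ ω, (cn (hub S ω x) (BF x r) : ℝ) ^ 2 ∂(perc d p0) ≤ C * (r : ℝ) ^ 6)
    (c1 b' : ℝ) (hb' : 0 < b') (m lam : ℕ) (hL : 1 ≤ m * lam) {R R2 : Finset (V d)}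
    (hR : R ⊆ JJ d m) (hR2 : R2 ⊆ JJ d m) {x : V d} (hx : x ∈ reg lam R) :
    ∑ y ∈ reg lam R, ∫ ω, min (NZ M (m * lam) lam c1 R2 ω x : ℝ)
        (b' * ((m * lam : ℕ) : ℝ) ^ 4) *
      min (NZ M (m * lam) lam c1 R2 ω y : ℝ) (b' * ((m * lam : ℕ) : ℝ) ^ 4) *
      Set.indicator {ω | Cn (Bx 0 (2 * M * (m * lam))) ω x y} (fun _ => (1 : ℝ)) ω ∂(perc d p0)
      ≤ b' * ((m * lam : ℕ) : ℝ) ^ 4 * (4096 * C * ((m * lam : ℕ) : ℝ) ^ 6) := by
  classical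
  have hpr := H.prob
  have h0 := H.hp0.le
  have h1 := H.hp1.le
  set L : ℕ := m * lam with hLdef
  have hLr : (1 : ℝ) ≤ L := by exact_mod_cast hL
  have hK : 0 < b' * (L : ℝ) ^ 4 := by positivity
  set K : ℝ := b' * (L : ℝ) ^ 4 with hKdef
  have hF0 : ∀ z (ω : Cfg d), 0 ≤ min (NZ M L lam c1 R2 ω z : ℝ) K := fun z ω =>
    le_min (Nat.cast_nonneg _) hK.le
  have hFK : ∀ z (ω : Cfg d), min (NZ M L lam c1 R2 ω z : ℝ) K ≤ K := fun z ω => min_le_right _ _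
  have hI0 : ∀ z (ω : Cfg d), 0 ≤
      Set.indicator {ω | Cn (Bx 0 (2 * M * L)) ω x z} (fun _ => (1 : ℝ)) ω := fun z ω =>
    Set.indicator_nonneg (fun _ _ => zero_le_one) ω
  have hI1 : ∀ z (ω : Cfg d),
      Set.indicator {ω | Cn (Bx 0 (2 * M * L)) ω x z} (fun _ => (1 : ℝ)) ω ≤ 1 := fun z ω =>
    Set.indicator_le_self' (fun _ _ => zero_le_one) ω
  have hint : ∀ y, Integrable (fun ω : Cfg d => min (NZ M L lam c1 R2 ω x : ℝ) K *
      min (NZ M L lam c1 R2 ω y : ℝ) K *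
      Set.indicator {ω | Cn (Bx 0 (2 * M * L)) ω x y} (fun _ => (1 : ℝ)) ω) (perc d p0) := by
    intro y
    refine VarL_int h0 h1 (((ConZ_measF M L lam c1 b' R2 x).mul
      (ConZ_measF M L lam c1 b' R2 y)).mul (measurable_const.indicator (meas_Cn _ _ _)))
      (K * K) fun ω => ?_
    rw [abs_of_nonneg (mul_nonneg (mul_nonneg (hF0 x ω) (hF0 y ω)) (hI0 y ω))]
    calc min (NZ M L lam c1 R2 ω x : ℝ) K * min (NZ M L lam c1 R2 ω y : ℝ) K *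
          Set.indicator {ω | Cn (Bx 0 (2 * M * L)) ω x y} (fun _ => (1 : ℝ)) ω
        ≤ min (NZ M L lam c1 R2 ω x : ℝ) K * min (NZ M L lam c1 R2 ω y : ℝ) K * 1 :=
          mul_le_mul_of_nonneg_left (hI1 y ω) (mul_nonneg (hF0 x ω) (hF0 y ω))
      _ ≤ K * K := by
          rw [mul_one]
          exact mul_le_mul (hFK x ω) (hFK y ω) (hF0 y ω) hK.le
  have hNNi : Integrable (fun ω : Cfg d => K * ConZ_N M L ω x ^ 2) (perc d p0) :=
    (VarL_int h0 h1 ((ConZ_N_meas M L x).pow_const 2) (((BF x (4 * L)).card : ℝ) ^ 2) fun ω => by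
      rw [abs_of_nonneg (by positivity)]
      exact pow_le_pow_left₀ (ConZ_N_nn M L ω x) (ConZ_N_le M L ω x) 2).const_mul K
  rw [← integral_finsetSum _ fun y _ => hint y]
  calc ∫ ω, ∑ y ∈ reg lam R, min (NZ M L lam c1 R2 ω x : ℝ) K *
          min (NZ M L lam c1 R2 ω y : ℝ) K *
          Set.indicator {ω | Cn (Bx 0 (2 * M * L)) ω x y} (fun _ => (1 : ℝ)) ω ∂(perc d p0)
      ≤ ∫ ω, K * ConZ_N M L ω x ^ 2 ∂(perc d p0) := by
        refine integral_mono (integrable_finsetSum _ fun y _ => hint y) hNNi fun ω => ?_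
        have hs : ∑ y ∈ reg lam R,
            Set.indicator {ω | Cn (Bx 0 (2 * M * L)) ω x y} (fun _ => (1 : ℝ)) ω ≤
            ConZ_N M L ω x := by
          unfold ConZ_N
          rw [ConZ_cn (fun ω => hub (Bx 0 (2 * M * L)) ω x)]
          refine Finset.sum_le_sum_of_subset_of_nonneg ?_ fun y _ _ => hI0 y ω
          intro y hy
          rw [mem_BF]
          have h1 := nm_sub y x
          have h2 := ConZ_nm_reg hR hx
          have h3 := ConZ_nm_reg hR hy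
          omega
        calc ∑ y ∈ reg lam R, min (NZ M L lam c1 R2 ω x : ℝ) K *
              min (NZ M L lam c1 R2 ω y : ℝ) K *
              Set.indicator {ω | Cn (Bx 0 (2 * M * L)) ω x y} (fun _ => (1 : ℝ)) ω
            ≤ ∑ y ∈ reg lam R, ConZ_N M L ω x * K *
              Set.indicator {ω | Cn (Bx 0 (2 * M * L)) ω x y} (fun _ => (1 : ℝ)) ω := by
              refine Finset.sum_le_sum fun y _ => mul_le_mul_of_nonneg_right ?_ (hI0 y ω)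
              exact mul_le_mul ((min_le_left _ _).trans (ConZ_NZ_le c1 hR hR2 hx ω)) (hFK y ω)
                (hF0 y ω) (ConZ_N_nn M L ω x)
          _ = ConZ_N M L ω x * K * ∑ y ∈ reg lam R,
              Set.indicator {ω | Cn (Bx 0 (2 * M * L)) ω x y} (fun _ => (1 : ℝ)) ω := by
              rw [Finset.mul_sum]
          _ ≤ ConZ_N M L ω x * K * ConZ_N M L ω x :=
              mul_le_mul_of_nonneg_left hs (mul_nonneg (ConZ_N_nn M L ω x) hK.le)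
          _ = K * ConZ_N M L ω x ^ 2 := by ring
    _ = K * ∫ ω, ConZ_N M L ω x ^ 2 ∂(perc d p0) := integral_const_mul _ _
    _ ≤ K * (4096 * C * (L : ℝ) ^ 6) :=
        mul_le_mul_of_nonneg_left (ConZ_sq H hC L hL x) hK.le

/-- One pair of regions. -/
lemma ConZ_fix {p0 A cM : ℝ} {M : ℕ} (H : Crit d p0 A cM M) {cv : ℝ} (hcv : 0 < cv) {C : ℝ}
    (hC0 : 0 < C) (hC : ∀ (S : Set (V d)) (x : V d) (r : ℕ), 1 ≤ r →
      ∫ ω, (cn (hub S ω x) (BF x r) : ℝ) ^ 2 ∂(perc d p0) ≤ C * (r : ℝ) ^ 6)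
    {c1 : ℝ} (hc : (3 * c1) ^ d ≤ cv / 2) (m lam : ℕ)
    (hL : 1 ≤ c1 * ((m * lam : ℕ) : ℝ)) {R1 R2 : Finset (V d)} (hR1 : R1 ⊆ JJ d m)
    (hR2 : R2 ⊆ JJ d m) (h1 : cv * (m : ℝ) ^ d ≤ R1.card) (h2 : cv * (m : ℝ) ^ d ≤ R2.card)
    (b' cp : ℝ) (hb' : b' = 4096 * 2 ^ d * C / (cv * cM)) (hcp : cp = cv ^ 2 * cM / 2 ^ (d + 1)) :
    (perc d p0).real {ω | ZZ M (m * lam) lam c1 b' R1 R2 ω <
      cp * ((m * lam : ℕ) : ℝ) ^ (d + 2)} ≤
      (3 ^ d * b' * 4096 * C / cp ^ 2) / ((m * lam : ℕ) : ℝ) := by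
  classical
  have hpr := H.prob
  have h0' := H.hp0.le
  have h1' := H.hp1.le
  have hcM := H.hc
  have hd : 7 ≤ d := H.hd
  have hb0 : 0 < b' := by rw [hb']; positivity
  have hcp0 : 0 < cp := by rw [hcp]; positivity
  have hmean := fun x hx => ConZ_mean (M := M) H hcv hC0 hC hc m lam hL hR1 hR2 h2 (x := x) hx
  rw [← hb'] at hmean
  have hLpos : 1 ≤ m * lam := by
    rcases Nat.eq_zero_or_pos (m * lam) with h | h
    · rw [h] at hL
      simp only [Nat.cast_zero, mul_zero] at hL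
      linarith
    · exact h
  have hvar := fun x hx => ConZ_var (M := M) H hC c1 b' hb0 m lam hLpos hR1 hR2 (x := x) hx
  have hcard : ((reg lam R1).card : ℝ) ≤ 3 ^ d * ((m * lam : ℕ) : ℝ) ^ d := by
    rw [ConZ_card_reg]
    have h3 : R1.card ≤ (3 * m) ^ d := by
      rw [← ConZ_card_JJ]
      exact Finset.card_le_card hR1
    have h4 : (R1.card : ℝ) ≤ (3 * m) ^ d := by exact_mod_cast h3
    push_cast
    calc (R1.card : ℝ) * (lam : ℝ) ^ d ≤ (3 * m) ^ d * (lam : ℝ) ^ d := by gcongr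
      _ = 3 ^ d * (m * lam : ℝ) ^ d := by rw [← mul_pow, ← mul_pow, mul_assoc]
  have hcard2 : cv * ((m * lam : ℕ) : ℝ) ^ d ≤ (reg lam R1).card := by
    rw [ConZ_card_reg]
    push_cast
    rw [mul_pow, ← mul_assoc]
    exact mul_le_mul_of_nonneg_right h1 (by positivity)
  set L : ℕ := m * lam with hLdef
  have hLr : (1 : ℝ) ≤ L := by exact_mod_cast hLpos
  have hK : 0 < b' * (L : ℝ) ^ 4 := by positivity
  have hsub : reg lam R1 ⊆ BF 0 (2 * M * L) := by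
    intro x hx
    rw [mem_BF, sub_zero]
    refine (ConZ_nm_reg hR1 hx).trans ?_
    rw [← hLdef]
    have := H.hM
    nlinarith
  have hch := cheb_hub h0' h1' (BF 0 (2 * M * L)) (reg lam R1) hsub
    (fun x ω => min (NZ M L lam c1 R2 ω x : ℝ) (b' * (L : ℝ) ^ 4)) (b' * (L : ℝ) ^ 4)
    (fun x ω => le_min (Nat.cast_nonneg _) hK.le) (fun x ω => min_le_right _ _)
    (fun x => ConZ_measF M L lam c1 b' R2 x) (fun x => ConZ_incF M L lam c1 b' R2 x)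
    (fun x _ ω => by
      rw [coe_BF]
      exact ConZ_locF M L lam c1 b' R2 x ω) (cp * (L : ℝ) ^ (d + 2)) (by positivity)
  rw [coe_BF] at hch
  have hE : 2 * (cp * (L : ℝ) ^ (d + 2)) ≤ ∑ x ∈ reg lam R1,
      ∫ ω, min (NZ M L lam c1 R2 ω x : ℝ) (b' * (L : ℝ) ^ 4) ∂(perc d p0) := by
    have h5 := Finset.card_nsmul_le_sum (reg lam R1)
      (fun x => ∫ ω, min (NZ M L lam c1 R2 ω x : ℝ) (b' * (L : ℝ) ^ 4) ∂(perc d p0))
      (cv * cM / 2 ^ d * (L : ℝ) ^ 2) hmean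
    refine le_trans ?_ h5
    rw [nsmul_eq_mul]
    have h6 : cv * (L : ℝ) ^ d * (cv * cM / 2 ^ d * (L : ℝ) ^ 2) ≤
        ((reg lam R1).card : ℝ) * (cv * cM / 2 ^ d * (L : ℝ) ^ 2) := by gcongr
    refine le_trans (le_of_eq ?_) h6
    rw [hcp, pow_succ (2 : ℝ) d, pow_add (L : ℝ) d 2]
    field_simp
  have hV : ∑ x ∈ reg lam R1, ∑ y ∈ reg lam R1, ∫ ω, min (NZ M L lam c1 R2 ω x : ℝ)
        (b' * (L : ℝ) ^ 4) * min (NZ M L lam c1 R2 ω y : ℝ) (b' * (L : ℝ) ^ 4) *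
      Set.indicator {ω | Cn (Bx 0 (2 * M * L)) ω x y} (fun _ => (1 : ℝ)) ω ∂(perc d p0) ≤
      3 ^ d * (L : ℝ) ^ d * (b' * (L : ℝ) ^ 4 * (4096 * C * (L : ℝ) ^ 6)) := by
    refine (Finset.sum_le_card_nsmul _ _ _ hvar).trans ?_
    rw [nsmul_eq_mul]
    gcongr
  have hsub2 : {ω : Cfg d | ZZ M L lam c1 b' R1 R2 ω < cp * (L : ℝ) ^ (d + 2)} ⊆
      {ω | cp * (L : ℝ) ^ (d + 2) ≤ |∑ x ∈ reg lam R1, min (NZ M L lam c1 R2 ω x : ℝ)
        (b' * (L : ℝ) ^ 4) - ∑ x ∈ reg lam R1,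
          ∫ ω, min (NZ M L lam c1 R2 ω x : ℝ) (b' * (L : ℝ) ^ 4) ∂(perc d p0)|} := by
    intro ω hω
    have h7 : ∑ x ∈ reg lam R1, min (NZ M L lam c1 R2 ω x : ℝ) (b' * (L : ℝ) ^ 4) <
        cp * (L : ℝ) ^ (d + 2) := hω
    show cp * (L : ℝ) ^ (d + 2) ≤ _
    rw [abs_sub_comm]
    refine le_trans ?_ (le_abs_self _)
    linarith
  refine (measureReal_mono hsub2 (measure_ne_top _ _)).trans (hch.trans ?_)
  rw [div_le_div_iff₀ (by positivity) (by positivity)]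
  calc (∑ x ∈ reg lam R1, ∑ y ∈ reg lam R1, ∫ ω, min (NZ M L lam c1 R2 ω x : ℝ)
        (b' * (L : ℝ) ^ 4) * min (NZ M L lam c1 R2 ω y : ℝ) (b' * (L : ℝ) ^ 4) *
      Set.indicator {ω | Cn (Bx 0 (2 * M * L)) ω x y} (fun _ => (1 : ℝ)) ω ∂(perc d p0)) *
        (L : ℝ)
      ≤ 3 ^ d * (L : ℝ) ^ d * (b' * (L : ℝ) ^ 4 * (4096 * C * (L : ℝ) ^ 6)) * (L : ℝ) := by
        gcongr
    _ = 3 ^ d * b' * 4096 * C * (L : ℝ) ^ (d + 11) := by ring
    _ ≤ 3 ^ d * b' * 4096 * C * (L : ℝ) ^ (2 * (d + 2)) := by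
        gcongr
        omega
    _ = 3 ^ d * b' * 4096 * C / cp ^ 2 * (cp * (L : ℝ) ^ (d + 2)) ^ 2 := by
        rw [mul_pow, ← pow_mul, mul_comm (d + 2) 2]
        field_simp

theorem con_Z {p0 A cM : ℝ} {M : ℕ} (H : Crit d p0 A cM M) (cv : ℝ) (hcv : 0 < cv) :
    ∃ b' cp : ℝ, 0 < b' ∧ 0 < cp ∧ ∀ c1 : ℝ, 0 < c1 → (3 * c1) ^ d ≤ cv / 2 →
      ∀ m : ℕ, 1 ≤ m → ∀ δ : ℝ, 0 < δ → ∃ lam0 : ℕ, ∀ lam : ℕ, lam0 ≤ lam →
        (perc d p0).real {ω | ∃ R1 ⊆ JJ d m, ∃ R2 ⊆ JJ d m, cv * (m : ℝ) ^ d ≤ R1.card ∧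
          cv * (m : ℝ) ^ d ≤ R2.card ∧
          ZZ M (m * lam) lam c1 b' R1 R2 ω < cp * ((m * lam : ℕ) : ℝ) ^ (d + 2)} ≤ δ := by
  classical
  obtain ⟨C, hC0, hC⟩ := vol2 H
  have hcM := H.hc
  have hpr := H.prob
  obtain ⟨b', hb'⟩ : ∃ b' : ℝ, b' = 4096 * 2 ^ d * C / (cv * cM) := ⟨_, rfl⟩
  obtain ⟨cp, hcp⟩ : ∃ cp : ℝ, cp = cv ^ 2 * cM / 2 ^ (d + 1) := ⟨_, rfl⟩
  have hb0 : 0 < b' := by rw [hb']; positivity
  have hcp0 : 0 < cp := by rw [hcp]; positivity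
  refine ⟨b', cp, hb0, hcp0, ?_⟩
  intro c1 hc1 hc m hm δ hδ
  set K0 : ℝ := 3 ^ d * b' * 4096 * C / cp ^ 2 with hK0
  have hK0p : 0 < K0 := by positivity
  set P : Finset (Finset (V d) × Finset (V d)) := (JJ d m).powerset ×ˢ (JJ d m).powerset with hP
  obtain ⟨n1, hn1⟩ := exists_nat_ge (1 / c1)
  obtain ⟨n2, hn2⟩ := exists_nat_ge ((P.card : ℝ) * K0 / δ)
  refine ⟨n1 + n2 + 1, fun lam hlam => ?_⟩
  have hlamr : (n1 : ℝ) + n2 + 1 ≤ lam := by exact_mod_cast hlam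
  have hmlam : (lam : ℝ) ≤ ((m * lam : ℕ) : ℝ) := by
    exact_mod_cast Nat.le_mul_of_pos_left lam hm
  have hn1' : (0 : ℝ) ≤ n1 := Nat.cast_nonneg _
  have hn2' : (0 : ℝ) ≤ n2 := Nat.cast_nonneg _
  have hL : 1 ≤ c1 * ((m * lam : ℕ) : ℝ) := by
    have h3 : 1 / c1 ≤ ((m * lam : ℕ) : ℝ) := by linarith
    rw [div_le_iff₀ hc1] at h3
    linarith
  have hLpos : (0 : ℝ) < ((m * lam : ℕ) : ℝ) := by linarith
  have hsub : {ω : Cfg d | ∃ R1 ⊆ JJ d m, ∃ R2 ⊆ JJ d m, cv * (m : ℝ) ^ d ≤ R1.card ∧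
          cv * (m : ℝ) ^ d ≤ R2.card ∧
          ZZ M (m * lam) lam c1 b' R1 R2 ω < cp * ((m * lam : ℕ) : ℝ) ^ (d + 2)} ⊆
      ⋃ q ∈ P, {ω : Cfg d | cv * (m : ℝ) ^ d ≤ q.1.card ∧ cv * (m : ℝ) ^ d ≤ q.2.card ∧
        ZZ M (m * lam) lam c1 b' q.1 q.2 ω < cp * ((m * lam : ℕ) : ℝ) ^ (d + 2)} := by
    rintro ω ⟨R1, hR1, R2, hR2, h⟩
    refine Set.mem_iUnion₂.2 ⟨(R1, R2), ?_, h⟩
    rw [hP, Finset.mem_product]
    exact ⟨Finset.mem_powerset.2 hR1, Finset.mem_powerset.2 hR2⟩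
  refine (measureReal_mono hsub (measure_ne_top _ _)).trans
    ((measureReal_biUnion_finset_le _ _).trans ?_)
  have hone : ∀ q ∈ P, (perc d p0).real {ω : Cfg d | cv * (m : ℝ) ^ d ≤ q.1.card ∧
      cv * (m : ℝ) ^ d ≤ q.2.card ∧
        ZZ M (m * lam) lam c1 b' q.1 q.2 ω < cp * ((m * lam : ℕ) : ℝ) ^ (d + 2)} ≤
      K0 / ((m * lam : ℕ) : ℝ) := by
    intro q hq
    rw [hP, Finset.mem_product, Finset.mem_powerset, Finset.mem_powerset] at hq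
    by_cases h1 : cv * (m : ℝ) ^ d ≤ q.1.card
    · by_cases h2 : cv * (m : ℝ) ^ d ≤ q.2.card
      · refine le_trans (measureReal_mono ?_ (measure_ne_top _ _))
          (ConZ_fix H hcv hC0 hC hc m lam hL hq.1 hq.2 h1 h2 b' cp hb' hcp)
        rintro ω ⟨-, -, h⟩
        exact h
      · have : {ω : Cfg d | cv * (m : ℝ) ^ d ≤ q.1.card ∧ cv * (m : ℝ) ^ d ≤ q.2.card ∧
            ZZ M (m * lam) lam c1 b' q.1 q.2 ω < cp * ((m * lam : ℕ) : ℝ) ^ (d + 2)} = ∅ := by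
          ext ω
          simp [h2]
        rw [this, measureReal_empty]
        positivity
    · have : {ω : Cfg d | cv * (m : ℝ) ^ d ≤ q.1.card ∧ cv * (m : ℝ) ^ d ≤ q.2.card ∧
          ZZ M (m * lam) lam c1 b' q.1 q.2 ω < cp * ((m * lam : ℕ) : ℝ) ^ (d + 2)} = ∅ := by
        ext ω
        simp [h1]
      rw [this, measureReal_empty]
      positivity
  refine (Finset.sum_le_card_nsmul _ _ _ hone).trans ?_
  rw [nsmul_eq_mul, ← mul_div_assoc, div_le_iff₀ hLpos]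
  rw [div_le_iff₀ hδ] at hn2
  have h4 : (n2 : ℝ) * δ ≤ δ * ((m * lam : ℕ) : ℝ) := by
    rw [mul_comm]
    refine mul_le_mul_of_nonneg_left ?_ hδ.le
    linarith
  linarith

end H95LBS
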