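import Pool.Agent.H95.LBS.BDef

/-!
PROJECT DS (MP_0d9ad5_pr), JOB DS-LiveConn. Connections use live edges only (deterministic, section 7(i) of
note 2700).
PROOF. `Lev Y k` = the points of `B` connected to `Y` with at most `k` edges outside `q.1` (inside `B`, in `q.2`, not in
`Hs`). Let `n` be the least number with `Lev X n` meeting `X'`. Then `Lev X i` and `Lev X' j` are disjoint for
`i + j < n`. By induction on `k ≤ n` some point of `Lev X k` and `Lev X' (n - k)` is connected to `X` by live edges: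
the next edge joins `A = Lev X k` to `L = Lev X' (n - k - 1)`, these sets are disjoint unions of hubs, the end in `A`
has an arm inside `A` and the end in `L` has an arm inside `L` (witness `c f := both ends in A`). So it is live.
-/

namespace H95LBS

open H5DF H95LBD MeasureTheory

variable {d : ℕ}

/-- An edge between two disjoint unions of hubs with arms is live. -/
lemma LiveConn_live {B : Finset (V d)} {N : ℕ} {q : Cfg d × Cfg d} {A L : Set (V d)}
    (hA : A ⊆ (B : Set (V d))) (hL : L ⊆ (B : Set (V d)))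
    (hAc : ∀ x ∈ A, ∀ y, Cn (B : Set (V d)) q.1 x y → y ∈ A)
    (hLc : ∀ x ∈ L, ∀ y, Cn (B : Set (V d)) q.1 x y → y ∈ L)
    (hdis : ∀ x, x ∈ A → x ∈ L → False) {e : Ed d} (he1 : e.1 ∈ A) (he2 : oth e ∈ L)
    (he : q.2 e = true) (harm1 : ∃ v, Cn A (un q.1 q.2) e.1 v ∧ N ≤ nm (v - e.1))
    (harm2 : ∃ v, Cn L (un q.1 q.2) (oth e) v ∧ N ≤ nm (v - oth e)) : Lv B N q e := by
  classical
  have a1 : cut A (un q.1 q.2) ∈ Ar e.1 N := by
    obtain ⟨v, h1, h2⟩ := harm1
    exact ⟨v, h2, h1⟩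
  have a2 : cut L (un q.1 q.2) ∈ Ar (oth e) N := by
    obtain ⟨v, h1, h2⟩ := harm2
    exact ⟨v, h2, h1⟩
  have insA : ∀ f : Ed d, f ∈ ins A → f ∈ ins (B : Set (V d)) := fun f hf => ⟨hA hf.1, hA hf.2⟩
  have insL : ∀ f : Ed d, f ∈ ins L → f ∈ ins (B : Set (V d)) := fun f hf => ⟨hL hf.1, hL hf.2⟩
  have neA : ∀ f : Ed d, f ∈ ins A → f ≠ e := by
    rintro f hf rfl
    exact hdis _ hf.2 he2
  have neL : ∀ f : Ed d, f ∈ ins L → f ≠ e := by
    rintro f hf rfl
    exact hdis _ he1 hf.1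
  refine ⟨he, ⟨hA he1, hL he2⟩, fun h => hdis _ (hAc _ he1 _ h) he2, ?_, ?_, ?_⟩
  · refine ⟨fun f => decide (f ∈ ins A), ?_, ?_⟩
    · refine Ar_inc _ _ (cut A (un q.1 q.2)) _ ?_ a1
      intro f hf
      rw [cut_true] at hf
      simp only [Bool.and_eq_true, decide_eq_true_eq]
      rw [Function.update_of_ne (neA f hf.2), cut_true]
      exact ⟨⟨hf.1, insA f hf.2⟩, hf.2⟩
    · refine Ar_inc _ _ (cut L (un q.1 q.2)) _ ?_ a2
      intro f hf
      rw [cut_true] at hf
      simp only [Bool.and_eq_true, Bool.not_eq_true', decide_eq_false_iff_not]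
      rw [Function.update_of_ne (neL f hf.2), cut_true]
      exact ⟨⟨hf.1, insL f hf.2⟩, fun h => hdis _ h.1 hf.2.1⟩
  · refine Ar_inc _ _ (cut L (un q.1 q.2)) _ ?_ a2
    intro f hf
    rw [cut_true] at hf
    rw [cut_true, cut_true]
    refine ⟨⟨hf.1, insL f hf.2⟩, ?_, ?_⟩
    · exact fun h => hdis _ (hAc _ he1 _ h) hf.2.1
    · exact fun h => hdis _ (hAc _ he1 _ h) hf.2.2
  · refine Ar_inc _ _ (cut A (un q.1 q.2)) _ ?_ a1
    intro f hf
    rw [cut_true] at hf
    rw [cut_true, cut_true]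
    refine ⟨⟨hf.1, insA f hf.2⟩, ?_, ?_⟩
    · exact fun h => hdis _ hf.2.1 (hLc _ he2 _ h)
    · exact fun h => hdis _ hf.2.2 (hLc _ he2 _ h)

/-- The points connected to `Y` with at most `k` sprinkled edges. -/
def LiveConn_Lev (B : Finset (V d)) (q : Cfg d × Cfg d) (Hs : Finset (Ed d)) (Y : Set (V d)) :
    ℕ → Set (V d)
  | 0 => Y
  | k + 1 => {z | z ∈ LiveConn_Lev B q Hs Y k ∨ ∃ (y : V d) (s : Dir d),
      Cn (B : Set (V d)) q.1 z y ∧ y ∈ B ∧ y + step s ∈ B ∧ q.2 (edge y s) = true ∧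
        edge y s ∉ Hs ∧ y + step s ∈ LiveConn_Lev B q Hs Y k}

section Lev

variable {B : Finset (V d)} {q : Cfg d × Cfg d} {Hs : Finset (Ed d)} {Y : Set (V d)}

lemma LiveConn_mono {i j : ℕ} (h : i ≤ j) : LiveConn_Lev B q Hs Y i ⊆ LiveConn_Lev B q Hs Y j := by
  induction h with
  | refl => exact fun _ h => h
  | step _ ih => exact fun x hx => Or.inl (ih hx)

lemma LiveConn_cl (hY : HubCl B q.1 Y) (k : ℕ) :
    ∀ x ∈ LiveConn_Lev B q Hs Y k, ∀ y, Cn (B : Set (V d)) q.1 x y →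
      y ∈ LiveConn_Lev B q Hs Y k := by
  induction k with
  | zero => exact hY.2
  | succ k ih =>
    rintro x (hx | ⟨y, s, h1, h2⟩) z hz
    · exact Or.inl (ih x hx z hz)
    · exact Or.inr ⟨y, s, hz.symm.trans h1, h2⟩

lemma LiveConn_sub (hY : HubCl B q.1 Y) (k : ℕ) :
    LiveConn_Lev B q Hs Y k ⊆ (B : Set (V d)) := by
  induction k with
  | zero => exact hY.1
  | succ k ih =>
    rintro x (hx | ⟨y, s, h1, h2, -⟩)
    · exact ih hx
    · exact h1.symm.mem h2

lemma LiveConn_next (hY : HubCl B q.1 Y) {k : ℕ} {x : V d} {s : Dir d}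
    (hx : x ∈ LiveConn_Lev B q Hs Y k) (hs : x + step s ∈ B) (h1 : q.2 (edge x s) = true)
    (h2 : edge x s ∉ Hs) : x + step s ∈ LiveConn_Lev B q Hs Y (k + 1) := by
  have hxB : x ∈ B := LiveConn_sub hY k hx
  have e1 : x + step s + step (opp s) = x := by
    rw [step_opp, add_neg_cancel_right]
  refine Or.inr ⟨x + step s, opp s, Cn.refl _ _ _, hs, ?_, ?_, ?_, ?_⟩
  · rw [e1]
    exact hxB
  · rw [edge_opp]
    exact h1
  · rw [edge_opp]
    exact h2
  · rw [e1]
    exact hx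

lemma LiveConn_arm (hY : HubCl B q.1 Y) {N : ℕ}
    (hd : ∀ x ∈ Y, ∀ z : V d, ∃ y, Cn (B : Set (V d)) q.1 x y ∧ N ≤ nm (y - z)) (k : ℕ) :
    ∀ x ∈ LiveConn_Lev B q Hs Y k, ∀ z : V d, ∃ y,
      Cn (LiveConn_Lev B q Hs Y k) (un q.1 q.2) x y ∧ N ≤ nm (y - z) := by
  have hin : ∀ k, ∀ x ∈ LiveConn_Lev B q Hs Y k, ∀ y, Cn (B : Set (V d)) q.1 x y →
      Cn (LiveConn_Lev B q Hs Y k) (un q.1 q.2) x y := by
    intro k x hx y hy
    have h3 : y ∈ LiveConn_Lev B q Hs Y k ∧
        Cn (LiveConn_Lev B q Hs Y k) (un q.1 q.2) x y := by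
      refine Cn.ind (fun y => y ∈ LiveConn_Lev B q Hs Y k ∧
        Cn (LiveConn_Lev B q Hs Y k) (un q.1 q.2) x y) ⟨hx, Cn.refl _ _ _⟩ ?_ hy
      rintro y s - ⟨h1, h2⟩ hyB hsB ho
      have h4 : y + step s ∈ LiveConn_Lev B q Hs Y k :=
        LiveConn_cl hY k y h1 _ (Cn.one ho hyB hsB)
      exact ⟨h4, h2.trans (Cn.one (un_left _ ho) h1 h4)⟩
    exact h3.2
  induction k with
  | zero =>
    intro x hx z
    obtain ⟨y, h1, h2⟩ := hd x hx z
    exact ⟨y, hin 0 x hx y h1, h2⟩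
  | succ k ih =>
    intro x hx z
    have hm : LiveConn_Lev B q Hs Y k ⊆ LiveConn_Lev B q Hs Y (k + 1) :=
      LiveConn_mono (Nat.le_succ k)
    rcases hx with hx | ⟨y, s, h1, h2, h3, h4, h5, h6⟩
    · obtain ⟨y, h1, h2⟩ := ih x hx z
      exact ⟨y, h1.mono hm fun _ h => h, h2⟩
    · obtain ⟨v, h7, h8⟩ := ih _ h6 z
      have hx' : x ∈ LiveConn_Lev B q Hs Y (k + 1) := Or.inr ⟨y, s, h1, h2, h3, h4, h5, h6⟩
      have hy' : y ∈ LiveConn_Lev B q Hs Y (k + 1) := LiveConn_cl hY (k + 1) x hx' y h1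
      refine ⟨v, ?_, h8⟩
      exact ((hin (k + 1) x hx' y h1).trans (Cn.one (un_right _ h4) hy' (hm h6))).trans
        (h7.mono hm fun _ h => h)

end Lev

lemma LiveConn_swap {B : Finset (V d)} {q : Cfg d × Cfg d} {Hs : Finset (Ed d)}
    {X X' : Set (V d)} (hX : HubCl B q.1 X) {i j : ℕ} {z : V d}
    (h1 : z ∈ LiveConn_Lev B q Hs X i) (h2 : z ∈ LiveConn_Lev B q Hs X' j) :
    ∃ w, w ∈ LiveConn_Lev B q Hs X (i + j) ∧ w ∈ LiveConn_Lev B q Hs X' 0 := by
  induction j generalizing i z with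
  | zero => exact ⟨z, h1, h2⟩
  | succ j ih =>
    rcases h2 with h2 | ⟨y, s, k1, k2, k3, k4, k5, k6⟩
    · have := ih (LiveConn_mono (Nat.le_succ i) h1) h2
      rwa [Nat.succ_add, ← Nat.add_succ] at this
    · have hy : y ∈ LiveConn_Lev B q Hs X i := LiveConn_cl hX i z h1 y k1
      have := ih (LiveConn_next hX hy k3 k4 k5) k6
      rwa [Nat.succ_add, ← Nat.add_succ] at this

theorem live_conn (B : Finset (V d)) (N : ℕ) (q : Cfg d × Cfg d) (Hs : Finset (Ed d))
    (X X' : Set (V d)) (hX : HubCl B q.1 X) (hX' : HubCl B q.1 X')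
    (hd1 : ∀ x ∈ X, ∀ z : V d, ∃ y, Cn (B : Set (V d)) q.1 x y ∧ N ≤ nm (y - z))
    (hd2 : ∀ x ∈ X', ∀ z : V d, ∃ y, Cn (B : Set (V d)) q.1 x y ∧ N ≤ nm (y - z))
    (h : ∃ x ∈ X, ∃ y ∈ X',
      Cn (B : Set (V d)) (un q.1 (fun e => q.2 e && !decide (e ∈ Hs))) x y) :
    ∃ x ∈ X, ∃ y ∈ X', Cn (B : Set (V d))
      (un q.1 (fun e => decide (e ∈ LS B N q) && !decide (e ∈ Hs))) x y := by
  classical
  obtain ⟨x0, hx0, y0, hy0, hc⟩ := h
  -- the distance is finite
  have hex : ∃ n, ∃ z, z ∈ LiveConn_Lev B q Hs X n ∧ z ∈ LiveConn_Lev B q Hs X' 0 := by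
    have h1 : ∃ k, y0 ∈ LiveConn_Lev B q Hs X k := by
      refine Cn.ind (fun y => ∃ k, y ∈ LiveConn_Lev B q Hs X k) ⟨0, hx0⟩ ?_ hc
      rintro y s - ⟨k, hk⟩ hyB hsB ho
      rw [un_true] at ho
      rcases ho with ho | ho
      · exact ⟨k, LiveConn_cl hX k y hk _ (Cn.one ho hyB hsB)⟩
      · simp only [Bool.and_eq_true, Bool.not_eq_true', decide_eq_false_iff_not] at ho
        exact ⟨k + 1, LiveConn_next hX hk hsB ho.1 ho.2⟩
    obtain ⟨k, hk⟩ := h1
    exact ⟨k, y0, hk, hy0⟩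
  set n := Nat.find hex with hn
  obtain ⟨z0, hz0, hz0'⟩ := Nat.find_spec hex
  have hmin : ∀ i j, i + j < n → ∀ z, z ∈ LiveConn_Lev B q Hs X i →
      z ∈ LiveConn_Lev B q Hs X' j → False := by
    intro i j hij z h1 h2
    obtain ⟨w, hw⟩ := LiveConn_swap hX h1 h2
    exact Nat.find_min hex hij ⟨w, hw⟩
  -- the start
  obtain ⟨z1, hz1, hz1'⟩ := LiveConn_swap hX' hz0' hz0
  rw [Nat.zero_add] at hz1
  have key : ∀ k, k ≤ n → ∃ x ∈ X, ∃ z, z ∈ LiveConn_Lev B q Hs X k ∧
      z ∈ LiveConn_Lev B q Hs X' (n - k) ∧ Cn (B : Set (V d))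
      (un q.1 (fun e => decide (e ∈ LS B N q) && !decide (e ∈ Hs))) x z := by
    intro k
    induction k with
    | zero =>
      intro _
      exact ⟨z1, hz1', z1, hz1', hz1, Cn.refl _ _ _⟩
    | succ k ih =>
      intro hk
      obtain ⟨x, hx, z, h1, h2, h3⟩ := ih (by omega)
      set m := n - (k + 1) with hm
      have hkm : n - k = m + 1 := by omega
      rw [hkm] at h2
      rcases h2 with h2 | ⟨y, s, k1, k2, k3, k4, k5, k6⟩
      · exact (hmin k m (by omega) z h1 h2).elim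
      have hy : y ∈ LiveConn_Lev B q Hs X k := LiveConn_cl hX k z h1 y k1
      have hw : y + step s ∈ LiveConn_Lev B q Hs X (k + 1) := LiveConn_next hX hy k3 k4 k5
      refine ⟨x, hx, y + step s, hw, k6, ?_⟩
      have c1 : Cn (B : Set (V d))
          (un q.1 (fun e => decide (e ∈ LS B N q) && !decide (e ∈ Hs))) z y :=
        k1.mono (fun _ h => h) un_left
      refine (h3.trans c1).trans (Cn.one ?_ k2 k3)
      refine un_right _ ?_
      simp only [Bool.and_eq_true, Bool.not_eq_true', decide_eq_false_iff_not, decide_eq_true_eq]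
      refine ⟨?_, k5⟩
      have hdis : ∀ x, x ∈ LiveConn_Lev B q Hs X k → x ∈ LiveConn_Lev B q Hs X' m → False :=
        fun x h1 h2 => hmin k m (by omega) x h1 h2
      have armA := LiveConn_arm (Hs := Hs) hX hd1 k
      have armL := LiveConn_arm (Hs := Hs) hX' hd2 m
      have clA := LiveConn_cl (Hs := Hs) hX k
      have clL := LiveConn_cl (Hs := Hs) hX' m
      have sA := LiveConn_sub (Hs := Hs) hX k
      have sL := LiveConn_sub (Hs := Hs) hX' m
      have hlive : Lv B N q (edge y s) := by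
        obtain ⟨i, b⟩ := s
        cases b
        · have e1 : (edge y (i, false)).1 = y + step (i, false) := by simp [edge]
          have e2 : oth (edge y (i, false)) = y := by
            simp [oth, edge, step, Pi.single_neg]
          refine LiveConn_live sL sA clL clA (fun x h1 h2 => hdis x h2 h1) ?_ ?_ k4 ?_ ?_
          · rw [e1]
            exact k6
          · rw [e2]
            exact hy
          · rw [e1]
            exact armL _ k6 _
          · rw [e2]
            exact armA _ hy _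
        · have e1 : (edge y (i, true)).1 = y := by simp [edge]
          have e2 : oth (edge y (i, true)) = y + step (i, true) := by
            simp [oth, edge, step]
          refine LiveConn_live sA sL clA clL hdis ?_ ?_ k4 ?_ ?_
          · rw [e1]
            exact hy
          · rw [e2]
            exact k6
          · rw [e1]
            exact armA _ hy _
          · rw [e2]
            exact armL _ k6 _
      unfold LS
      rw [Finset.mem_filter]
      exact ⟨Finset.mem_product.2 ⟨hlive.2.1.1, Finset.mem_univ _⟩, hlive⟩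
  obtain ⟨x, hx, z, -, h2, h3⟩ := key n le_rfl
  rw [Nat.sub_self] at h2
  exact ⟨x, hx, z, h2, h3⟩

end H95LBS
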