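import Pool.Agent.H95.LBS.CutDef
import Pool.Agent.H95.LBS.LiveConn
import Pool.Agent.H95.LBS.Giant

/-!
PROJECT DS (MP_0d9ad5_pr), JOB DS-CutA. The cut at a level (deterministic, section 7(iii) of note 2700).
PROOF. `GG = hub B (un q.1 q.2) x0`. (1) `cut_no`: let a path in `un q.1 (live edges not in HaS)` go from `x ∈ X` to
`y ∈ X'`, `X' ⊆ HiS`, `X` disjoint from `HiS` and `CrS`. The path is in `GG` (`y ∈ GG` and live edges are open). Property
`Lo u`: all points of the hub of `u` have `h <= a`. It holds for `x` (`x ∈ GG`, not in `HiS`, not in `CrS`), is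
preserved by steps inside a hub and by a live edge `{u,v}` not in `HaS` (`v ∉ CrS`; if `v ∈ HiS` then
`h u <= a < h v`). At `y` it contradicts `HiS`. (2) `cut_low`: `X` := points of `B` in neither `HiS` nor `CrS`,
`X'` := `HiS`; both hub-closed. `MixOK.mix` for `(X ∪ CrS, HiS)`: volumes: `h x <= μ <= a` excludes `HiS`, so
`cn ((X ∪ CrS) ∩ BG) WW >= cn BG (cube w) / 4 >= cB/8 L^(d-2)` (`win_lo` of Giant, or directly); `x ∈ GG`, `a < μ' <= h x`
implies `x ∈ HiS ∪ CrS`, so `cn (HiS ∩ BG) WW >= cB/8 L^(d-2) - η1 η2/4 L^(d-2) >= cB/16 L^(d-2)`. Hence `Bich η1 η2`.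
Boxes with `cn (CrS ∩ BG) (cube) > η1/2 vol` are at most `(η2/2) m^d`: `Bich (η1/2) (η2/2) X X'`, also for the
unions `Xc`, `Xc'` of their hubs meeting `BG ∩ WW`. If `card HaS <= r1`: `ROBok` with `Hs = HaS`, `live_conn` (a hub with a
big point `y` contains a point at distance `>= c1 L >= 16 lam` from `y`, so for each `z` a point at distance `>= 8 lam`),
contradiction with (1).
-/

namespace H95LBS

open H5DF H95LBD MeasureTheory

variable {d : ℕ}

lemma CutA_edge (u : V d) (s : Dir d) : ((edge u s).1 = u ∧ oth (edge u s) = u + step s) ∨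
    ((edge u s).1 = u + step s ∧ oth (edge u s) = u) := by
  obtain ⟨i, b⟩ := s
  cases b
  · right
    have h1 : (step (i, false) : V d) = - Pi.single i 1 := by
      simp [step, Pi.single_neg]
    constructor
    · simp [edge]
    · show (edge u (i, false)).1 + Pi.single (edge u (i, false)).2 1 = u
      simp only [edge, Bool.false_eq_true, if_false]
      rw [h1]
      abel
  · left
    constructor
    · simp [edge]
    · show (edge u (i, true)).1 + Pi.single (edge u (i, true)).2 1 = u + step (i, true)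
      simp [edge, step]

theorem cut_no (B : Finset (V d)) (N : ℕ) (q : Cfg d × Cfg d) (ℓ : ℝ) (x0 : V d) (h : V d → ℝ)
    (a : ℝ) (X X' : Set (V d)) (hXB : X ⊆ (B : Set (V d)))
    (hX1 : ∀ x ∈ X, x ∉ HiS B q.1 (hub (B : Set (V d)) (un q.1 q.2) x0) h a)
    (hX2 : ∀ x ∈ X, x ∉ CrS B q.1 (hub (B : Set (V d)) (un q.1 q.2) x0) h a)
    (hX' : X' ⊆ HiS B q.1 (hub (B : Set (V d)) (un q.1 q.2) x0) h a) :
    ¬ ∃ x ∈ X, ∃ y ∈ X', Cn (B : Set (V d)) (un q.1 (fun e => decide (e ∈ LS B N q) &&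
      !decide (e ∈ HaS B N q ℓ (hub (B : Set (V d)) (un q.1 q.2) x0) h a))) x y := by
  classical
  rintro ⟨x, hx, y, hy, hxy⟩
  set S : Set (V d) := (B : Set (V d)) with hS
  set GG : Set (V d) := hub S (un q.1 q.2) x0 with hGG
  have hmono : ∀ e, un q.1 (fun e => decide (e ∈ LS B N q) && !decide (e ∈ HaS B N q ℓ GG h a)) e = true →
      un q.1 q.2 e = true := by
    intro e he
    rw [un_true] at he ⊢
    rcases he with he | he
    · exact Or.inl he
    · right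
      simp only [Bool.and_eq_true, decide_eq_true_eq] at he
      have h1 := he.1
      unfold LS at h1
      rw [Finset.mem_filter] at h1
      exact h1.2.1
  have hyH := hX' hy
  obtain ⟨hyB, hyG, hyh⟩ := hyH
  have hxG : x ∈ GG := by
    have h1 : Cn S (un q.1 q.2) x y := hxy.mono (fun _ h => h) hmono
    exact Cn.trans hyG h1.symm
  have hlow : ∀ v, v ∈ B → v ∈ GG → v ∉ CrS B q.1 GG h a → (∃ z, Cn S q.1 v z ∧ h z ≤ a) →
      ∀ z, Cn S q.1 v z → h z ≤ a := by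
    intro v hvB hvG hvC hz z hvz
    by_contra hc
    exact hvC ⟨hvB, hvG, hz, z, hvz, not_le.1 hc⟩
  have key : y ∈ S ∧ y ∈ GG ∧ ∀ z, Cn S q.1 y z → h z ≤ a := by
    refine Cn.ind (fun u => u ∈ S ∧ u ∈ GG ∧ ∀ z, Cn S q.1 u z → h z ≤ a) ?_ ?_ hxy
    · refine ⟨hXB hx, hxG, ?_⟩
      refine hlow x (hXB hx) hxG (hX2 x hx) ?_
      by_contra hc
      push Not at hc
      exact hX1 x hx ⟨hXB hx, hxG, hc⟩
    · rintro u s - ⟨huS, huG, huh⟩ - hvS ho
      have hoG : Cn S (un q.1 q.2) u (u + step s) := Cn.one (hmono _ ho) huS hvS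
      have hvG : u + step s ∈ GG := Cn.trans huG hoG
      refine ⟨hvS, hvG, ?_⟩
      rw [un_true] at ho
      rcases ho with ho | ho
      · intro z hz
        exact huh z ((Cn.one ho huS hvS).trans hz)
      · simp only [Bool.and_eq_true, decide_eq_true_eq, Bool.not_eq_true', decide_eq_false_iff_not] at ho
        obtain ⟨ho1, ho2⟩ := ho
        have hvC : u + step s ∉ CrS B q.1 GG h a := by
          intro hc
          apply ho2
          unfold HaS
          rw [Finset.mem_filter]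
          refine ⟨ho1, Or.inr ?_⟩
          rcases CutA_edge u s with h1 | h1
          · right
            left
            rw [h1.2]
            exact hc
          · left
            rw [h1.1]
            exact hc
        refine hlow _ hvS hvG hvC ⟨u + step s, Cn.refl _ _ _, ?_⟩
        by_contra hc
        rw [not_le] at hc
        have hu : h u ≤ a := huh u (Cn.refl _ _ _)
        apply ho2
        unfold HaS
        rw [Finset.mem_filter]
        refine ⟨ho1, Or.inl ?_⟩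
        rcases CutA_edge u s with h1 | h1
        · rw [h1.1, h1.2]
          exact ⟨huG, Or.inl ⟨hu, hc⟩⟩
        · rw [h1.1, h1.2]
          exact ⟨hvG, Or.inr ⟨hu, hc⟩⟩
  exact absurd (key.2.2 y (Cn.refl _ _ _)) (not_le.2 (hyh y (Cn.refl _ _ _)))

lemma CutA_cl_hi (B : Finset (V d)) (q : Cfg d × Cfg d) (x0 : V d) (h : V d → ℝ) (a : ℝ) :
    HubCl B q.1 (HiS B q.1 (hub (B : Set (V d)) (un q.1 q.2) x0) h a) := by
  refine ⟨fun x hx => hx.1, ?_⟩
  rintro x ⟨hxB, hxG, hxh⟩ y hxy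
  refine ⟨hxy.mem hxB, Cn.trans hxG (hxy.mono (fun _ h => h) un_left), ?_⟩
  intro z hz
  exact hxh z (hxy.trans hz)

lemma CutA_cl_cr (B : Finset (V d)) (q : Cfg d × Cfg d) (x0 : V d) (h : V d → ℝ) (a : ℝ) :
    HubCl B q.1 (CrS B q.1 (hub (B : Set (V d)) (un q.1 q.2) x0) h a) := by
  refine ⟨fun x hx => hx.1, ?_⟩
  rintro x ⟨hxB, hxG, ⟨z1, hz1, hz1'⟩, ⟨z2, hz2, hz2'⟩⟩ y hxy
  exact ⟨hxy.mem hxB, Cn.trans hxG (hxy.mono (fun _ h => h) un_left),
    ⟨z1, hxy.symm.trans hz1, hz1'⟩, ⟨z2, hxy.symm.trans hz2, hz2'⟩⟩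

lemma CutA_cl_compl {B : Finset (V d)} {ω : Cfg d} {Z : Set (V d)} (hZ : HubCl B ω Z) :
    HubCl B ω {x | x ∈ B ∧ x ∉ Z} := by
  refine ⟨fun x hx => hx.1, ?_⟩
  rintro x ⟨hxB, hxZ⟩ y hxy
  refine ⟨hxy.mem hxB, fun hy => hxZ (hZ.2 y hy x hxy.symm)⟩

lemma CutA_cl_inter {B : Finset (V d)} {ω : Cfg d} {X Z : Set (V d)} (hX : HubCl B ω X)
    (hZ : HubCl B ω Z) : HubCl B ω (X ∩ Z) :=
  ⟨fun _ hx => hX.1 hx.1, fun x hx y hxy => ⟨hX.2 x hx.1 y hxy, hZ.2 x hx.2 y hxy⟩⟩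

lemma CutA_cl_col {B : Finset (V d)} {ω : Cfg d} {X : Set (V d)} (Y : Set (V d))
    (hX : HubCl B ω X) : HubCl B ω {x | x ∈ X ∧ ∃ y ∈ Y, Cn (B : Set (V d)) ω x y} := by
  refine ⟨fun x hx => hX.1 hx.1, ?_⟩
  rintro x ⟨hx, z, hz, hxz⟩ y hxy
  exact ⟨hX.2 x hx y hxy, z, hz, hxy.symm.trans hxz⟩

lemma CutA_cn_T (X : Set (V d)) {T T' : Finset (V d)} (h : T ⊆ T') : cn X T ≤ cn X T' := by
  classical
  unfold cn
  apply Finset.card_le_card
  exact Finset.filter_subset_filter _ h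

lemma CutA_cn_sub {X Z : Set (V d)} {T T' : Finset (V d)} (h : ∀ x ∈ T, x ∈ X → x ∈ T' ∧ x ∈ Z) :
    cn X T ≤ cn Z T' := by
  classical
  unfold cn
  apply Finset.card_le_card
  intro x hx
  rw [Finset.mem_filter] at hx ⊢
  exact h x hx.1 hx.2

lemma CutA_cn_union {X Z Z' : Set (V d)} {T T' : Finset (V d)}
    (h : ∀ x ∈ T, x ∈ X → x ∈ T' ∧ (x ∈ Z ∨ x ∈ Z')) : cn X T ≤ cn Z T' + cn Z' T' := by
  classical
  unfold cn
  refine (Finset.card_le_card ?_).trans (Finset.card_union_le _ _)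
  intro x hx
  rw [Finset.mem_filter] at hx
  rw [Finset.mem_union, Finset.mem_filter, Finset.mem_filter]
  obtain ⟨h1, h2⟩ := h x hx.1 hx.2
  rcases h2 with h2 | h2
  · exact Or.inl ⟨h1, h2⟩
  · exact Or.inr ⟨h1, h2⟩

lemma CutA_cube_WW {L : ℕ} {w : V d} (hw : nm w ≤ 1) : cube L w ⊆ WW d L := by
  intro x hx
  rw [mem_cube] at hx
  rw [mem_WW]
  intro i
  have h1 := hx i
  have h2 := nm_le.1 hw i
  have h3 : -1 ≤ w i ∧ w i ≤ 1 := by omega
  constructor
  · nlinarith [h1.1, h3.1, (Nat.cast_nonneg L : (0 : ℤ) ≤ L)]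
  · nlinarith [h1.2, h3.2, (Nat.cast_nonneg L : (0 : ℤ) ≤ L)]

lemma CutA_box_WW {m lam : ℕ} {j : V d} (hj : j ∈ JJ d m) : cube lam j ⊆ WW d (m * lam) := by
  intro x hx
  rw [mem_cube] at hx
  rw [mem_JJ] at hj
  rw [mem_WW]
  intro i
  have h1 := hx i
  have h2 := hj i
  have h0 : (0 : ℤ) ≤ lam := Nat.cast_nonneg lam
  push_cast
  constructor
  · nlinarith [h1.1, mul_le_mul_of_nonneg_right h2.1 h0]
  · have h3 : j i + 1 ≤ 2 * m := by omega
    nlinarith [h1.2, mul_le_mul_of_nonneg_right h3 h0]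

lemma CutA_cube_disj {lam : ℕ} {j j' : V d} {x : V d} (hx : x ∈ cube lam j)
    (hx' : x ∈ cube lam j') : j = j' := by
  rw [mem_cube] at hx hx'
  funext i
  have h1 := hx i
  have h2 := hx' i
  have h0 : (0 : ℤ) ≤ lam := Nat.cast_nonneg lam
  have hpos : (0 : ℤ) < lam := by
    by_contra hc
    have : (lam : ℤ) = 0 := le_antisymm (not_lt.1 hc) h0
    rw [this] at h1
    omega
  have h3 : j i < j' i + 1 := by
    by_contra hc
    rw [not_lt] at hc
    have := mul_le_mul_of_nonneg_right hc h0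
    omega
  have h4 : j' i < j i + 1 := by
    by_contra hc
    rw [not_lt] at hc
    have := mul_le_mul_of_nonneg_right hc h0
    omega
  omega

lemma CutA_sum_cn {m lam : ℕ} (Z : Set (V d)) (J : Finset (V d)) (hJ : J ⊆ JJ d m) :
    ∑ j ∈ J, cn Z (cube lam j) ≤ cn Z (WW d (m * lam)) := by
  classical
  have h1 : ∑ j ∈ J, cn Z (cube lam j) = (J.biUnion fun j => (cube lam j).filter (fun x => x ∈ Z)).card := by
    rw [Finset.card_biUnion]
    · rfl
    · intro j _ j' _ hne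
      show Disjoint _ _
      rw [Finset.disjoint_left]
      intro x hx hx'
      rw [Finset.mem_filter] at hx hx'
      exact hne (CutA_cube_disj hx.1 hx'.1)
  rw [h1]
  unfold cn
  apply Finset.card_le_card
  intro x hx
  rw [Finset.mem_biUnion] at hx
  obtain ⟨j, hj, hx⟩ := hx
  rw [Finset.mem_filter] at hx ⊢
  exact ⟨CutA_box_WW (hJ hj) hx.1, hx.2⟩

lemma CutA_vol {m lam : ℕ} (hm : 1 ≤ m) (hlam : 1 ≤ lam) (hd : 3 ≤ d) :
    (m : ℝ) ^ d * vol d m lam = ((m * lam : ℕ) : ℝ) ^ (d - 2) := by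
  have h1 : (0 : ℝ) < m := by exact_mod_cast hm
  have h2 : (0 : ℝ) < lam := by exact_mod_cast hlam
  have h3 : ((m * lam : ℕ) : ℝ) = (m : ℝ) * lam := by push_cast; ring
  unfold vol
  rw [h3]
  have h4 : ((m : ℝ) * lam) ^ d = ((m : ℝ) * lam) ^ (d - 2) * ((m : ℝ) * lam) ^ 2 := by
    rw [← pow_add]
    congr 1
    omega
  have h5 : ((m : ℝ) * lam) ^ 2 ≠ 0 := by positivity
  rw [← mul_div_assoc, div_eq_iff h5, ← h4, mul_pow]

lemma CutA_far {M m lam : ℕ} {c1 b1 : ℝ} {ω : Cfg d} (hm : 1 ≤ m) (hlam : 1 ≤ lam)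
    (hb1 : 0 < b1) (hc1 : 16 ≤ c1 * m) {x y : V d} (hy : y ∈ BG M (m * lam) c1 b1 ω)
    (hyW : y ∈ WW d (m * lam)) (hxy : Cn (BB d M (m * lam) : Set (V d)) ω x y) (z : V d) :
    ∃ u, Cn (BB d M (m * lam) : Set (V d)) ω x u ∧ 8 * lam ≤ nm (u - z) := by
  classical
  have hL : (0 : ℝ) < ((m * lam : ℕ) : ℝ) := by exact_mod_cast Nat.mul_pos hm hlam
  have h1 : b1 * ((m * lam : ℕ) : ℝ) ^ 4 ≤ bigN M (m * lam) c1 ω y := hy
  have h2 : 0 < bigN M (m * lam) c1 ω y := by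
    have h3 : (0 : ℝ) < bigN M (m * lam) c1 ω y := lt_of_lt_of_le (by positivity) h1
    exact_mod_cast h3
  unfold bigN at h2
  rw [Finset.card_pos] at h2
  obtain ⟨u, hu⟩ := h2
  rw [Finset.mem_filter] at hu
  obtain ⟨-, hu1, hu2⟩ := hu
  have hsub : Bx y (10 * M * (m * lam)) ⊆ (BB d M (m * lam) : Set (V d)) := by
    intro v hv
    rw [mem_Bx] at hv
    unfold BB
    rw [Finset.mem_coe, mem_BF, sub_zero]
    have h3 := nm_le_add v y
    have h4 : nm y ≤ 2 * (m * lam) := by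
      rw [nm_le]
      intro i
      have := (mem_WW.1 hyW) i
      omega
    calc nm v ≤ nm (v - y) + nm y := h3
      _ ≤ 10 * M * (m * lam) + 2 * (m * lam) := add_le_add hv h4
      _ ≤ (10 * M + 3) * (m * lam) := by nlinarith
  have hu3 : Cn (BB d M (m * lam) : Set (V d)) ω y u := hu2.mono hsub fun _ h => h
  have hu4 : (16 : ℝ) * lam ≤ nm (u - y) := by
    refine le_trans ?_ hu1
    push_cast
    have hl : (0 : ℝ) ≤ lam := Nat.cast_nonneg lam
    nlinarith [mul_le_mul_of_nonneg_right hc1 hl]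
  have hu5 : 16 * lam ≤ nm (u - y) := by exact_mod_cast hu4
  have h6 := nm_tri u z y
  by_cases h7 : 8 * lam ≤ nm (u - z)
  · exact ⟨u, hxy.trans hu3, h7⟩
  · refine ⟨y, hxy, ?_⟩
    rw [nm_sub_comm] at h6 ⊢
    rw [nm_sub_comm] at h6
    have h8 := nm_sub_comm z y
    omega

theorem cut_low {M m lam : ℕ} {c1 b1 cB CB η1 η2 : ℝ} {r1 : ℕ} {q : Cfg d × Cfg d} (hm : 1 ≤ m)
    (hlam : 1 ≤ lam) (hM : 1 ≤ M) (hd : 3 ≤ d) (hcB : 0 < cB) (hb1 : 0 < b1) (hη1 : 0 < η1)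
    (hη2 : 0 < η2) (hη : η1 * η2 ≤ cB / 4) (hc1 : 16 ≤ c1 * m)
    (hmix : MixOK M m lam c1 b1 cB CB η1 η2 q.1) (hr : ROBok M m lam c1 b1 η1 η2 r1 q)
    (ℓ : ℝ) (x0 : V d) (h : V d → ℝ) (w w' : V d) (hw : nm w ≤ 1) (hw' : nm w' ≤ 1) (μ μ' a : ℝ)
    (ha : μ ≤ a) (ha' : a < μ')
    (h1 : (cn (BG M (m * lam) c1 b1 q.1) (cube (m * lam) w) : ℝ) ≤
      4 * cn (BG M (m * lam) c1 b1 q.1 ∩ hub (BB d M (m * lam) : Set (V d)) (un q.1 q.2) x0 ∩
        {x | h x ≤ μ}) (cube (m * lam) w))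
    (h2 : (cn (BG M (m * lam) c1 b1 q.1) (cube (m * lam) w') : ℝ) ≤
      4 * cn (BG M (m * lam) c1 b1 q.1 ∩ hub (BB d M (m * lam) : Set (V d)) (un q.1 q.2) x0 ∩
        {x | μ' ≤ h x}) (cube (m * lam) w')) :
    η1 * η2 / 4 * ((m * lam : ℕ) : ℝ) ^ (d - 2) <
      cn (CrS (BB d M (m * lam)) q.1 (hub (BB d M (m * lam) : Set (V d)) (un q.1 q.2) x0) h a ∩
        BG M (m * lam) c1 b1 q.1) (WW d (m * lam)) ∨
    r1 < (HaS (BB d M (m * lam)) (8 * lam) q ℓ
      (hub (BB d M (m * lam) : Set (V d)) (un q.1 q.2) x0) h a).card := by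
  classical
  by_contra hcon
  rw [not_or, not_lt, not_lt] at hcon
  obtain ⟨hcr, hha⟩ := hcon
  set B : Finset (V d) := BB d M (m * lam) with hB
  set GG : Set (V d) := hub (B : Set (V d)) (un q.1 q.2) x0 with hGG
  set Y : Set (V d) := BG M (m * lam) c1 b1 q.1 with hY
  set W : Finset (V d) := WW d (m * lam) with hW
  set L : ℕ := m * lam with hL
  set Hi : Set (V d) := HiS B q.1 GG h a with hHi
  set Cr : Set (V d) := CrS B q.1 GG h a with hCr
  have hWB : W ⊆ B := WW_sub_BB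
  have hLp : (0 : ℝ) < (L : ℝ) ^ (d - 2) := by
    have : (0 : ℝ) < (L : ℝ) := by exact_mod_cast Nat.mul_pos hm hlam
    positivity
  have cHi : HubCl B q.1 Hi := CutA_cl_hi B q x0 h a
  have cCr : HubCl B q.1 Cr := CutA_cl_cr B q x0 h a
  set Xu : Set (V d) := {x | x ∈ B ∧ x ∉ Hi} with hXu
  have cXu : HubCl B q.1 Xu := CutA_cl_compl cHi
  set X : Set (V d) := Xu ∩ {x | x ∈ B ∧ x ∉ Cr} with hX
  have cX : HubCl B q.1 X := CutA_cl_inter cXu (CutA_cl_compl cCr)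
  -- volumes
  have hwin := win_lo hm hlam hd hmix w hw
  have hwin' := win_lo hm hlam hd hmix w' hw'
  have v1 : cB / 16 * (L : ℝ) ^ (d - 2) ≤ cn (Xu ∩ Y) W := by
    have h3 : cn (Y ∩ GG ∩ {x | h x ≤ μ}) (cube L w) ≤ cn (Xu ∩ Y) W := by
      refine CutA_cn_sub ?_
      rintro x hx ⟨⟨hxY, hxG⟩, hxh⟩
      have hxW := CutA_cube_WW hw hx
      refine ⟨hxW, ⟨hWB hxW, ?_⟩, hxY⟩
      rintro ⟨-, -, h4⟩
      have h5 := h4 x (Cn.refl _ _ _)
      have h6 : h x ≤ μ := hxh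
      linarith
    have h4 : (cn (Y ∩ GG ∩ {x | h x ≤ μ}) (cube L w) : ℝ) ≤ cn (Xu ∩ Y) W := by exact_mod_cast h3
    nlinarith
  have v2 : cB / 16 * (L : ℝ) ^ (d - 2) ≤ cn (Hi ∩ Y) W := by
    have h3 : cn (Y ∩ GG ∩ {x | μ' ≤ h x}) (cube L w') ≤ cn (Hi ∩ Y) W + cn (Cr ∩ Y) W := by
      refine CutA_cn_union ?_
      rintro x hx ⟨⟨hxY, hxG⟩, hxh⟩
      have hxW := CutA_cube_WW hw' hx
      have hxh' : μ' ≤ h x := hxh
      refine ⟨hxW, ?_⟩
      by_cases h4 : ∃ y, Cn (B : Set (V d)) q.1 x y ∧ h y ≤ a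
      · right
        exact ⟨⟨hWB hxW, hxG, h4, x, Cn.refl _ _ _, lt_of_lt_of_le ha' hxh'⟩, hxY⟩
      · left
        push Not at h4
        exact ⟨⟨hWB hxW, hxG, h4⟩, hxY⟩
    have h4 : (cn (Y ∩ GG ∩ {x | μ' ≤ h x}) (cube L w') : ℝ) ≤ cn (Hi ∩ Y) W + cn (Cr ∩ Y) W := by
      exact_mod_cast h3
    have h5 : η1 * η2 / 4 * (L : ℝ) ^ (d - 2) ≤ cB / 16 * (L : ℝ) ^ (d - 2) :=
      mul_le_mul_of_nonneg_right (by linarith) hLp.le
    nlinarith
  have hdis : Disjoint Xu Hi := by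
    rw [Set.disjoint_left]
    intro x hx
    exact hx.2
  have hbich := hmix.mix Xu Hi cXu cHi hdis (by
    intro x hxW _
    by_cases hxH : x ∈ Hi
    · exact Or.inr hxH
    · exact Or.inl ⟨hWB hxW, hxH⟩) v1 v2
  -- coloured parts
  set Xc : Set (V d) := {x | x ∈ X ∧ ∃ y ∈ Y ∩ W, Cn (B : Set (V d)) q.1 x y} with hXc
  set Xd : Set (V d) := {x | x ∈ Hi ∧ ∃ y ∈ Y ∩ W, Cn (B : Set (V d)) q.1 x y} with hXd
  have cXc : HubCl B q.1 Xc := CutA_cl_col _ cX
  have cXd : HubCl B q.1 Xd := CutA_cl_col _ cHi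
  have hdis2 : Disjoint Xc Xd := by
    rw [Set.disjoint_left]
    intro x hx hx'
    exact hx.1.1.2 hx'.1
  have vp : 0 < vol d m lam := by
    have h1 : (0 : ℝ) < m := by exact_mod_cast hm
    have h2 : (0 : ℝ) < lam := by exact_mod_cast hlam
    unfold vol
    push_cast
    positivity
  have hbich2 : Bich m lam Y (η1 / 2) (η2 / 2) Xc Xd := by
    unfold Bich at hbich ⊢
    set Jg : Finset (V d) := (JJ d m).filter fun j => η1 * vol d m lam ≤ cn (Xu ∩ Y) (cube lam j) ∧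
      η1 * vol d m lam ≤ cn (Hi ∩ Y) (cube lam j) with hJg
    set Jb : Finset (V d) := (JJ d m).filter fun j => η1 / 2 * vol d m lam < cn (Cr ∩ Y) (cube lam j)
      with hJb
    set Jn : Finset (V d) := (JJ d m).filter fun j => η1 / 2 * vol d m lam ≤ cn (Xc ∩ Y) (cube lam j) ∧
      η1 / 2 * vol d m lam ≤ cn (Xd ∩ Y) (cube lam j) with hJn
    have hb : (Jb.card : ℝ) ≤ η2 / 2 * (m : ℝ) ^ d := by
      have h1 : (Jb.card : ℝ) * (η1 / 2 * vol d m lam) ≤ ((∑ j ∈ Jb, cn (Cr ∩ Y) (cube lam j) : ℕ) : ℝ) := by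
        push_cast
        rw [← nsmul_eq_mul]
        refine Finset.card_nsmul_le_sum _ _ _ ?_
        intro j hj
        rw [hJb, Finset.mem_filter] at hj
        exact hj.2.le
      have h2 : ((∑ j ∈ Jb, cn (Cr ∩ Y) (cube lam j) : ℕ) : ℝ) ≤ cn (Cr ∩ Y) W := by
        exact_mod_cast CutA_sum_cn (m := m) (lam := lam) (Cr ∩ Y) Jb (Finset.filter_subset _ _)
      have h3 : (Jb.card : ℝ) * (η1 / 2 * vol d m lam) ≤
          (η2 / 2 * (m : ℝ) ^ d) * (η1 / 2 * vol d m lam) := by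
        refine h1.trans (h2.trans (hcr.trans (le_of_eq ?_)))
        rw [← CutA_vol hm hlam hd]
        ring
      exact le_of_mul_le_mul_right h3 (by positivity)
    have hsub : Jg ⊆ Jn ∪ Jb := by
      intro j hj
      rw [hJg, Finset.mem_filter] at hj
      obtain ⟨hjJ, hj1, hj2⟩ := hj
      rw [Finset.mem_union]
      by_cases hjb : j ∈ Jb
      · exact Or.inr hjb
      · left
        rw [hJb, Finset.mem_filter] at hjb
        have hjb2 : (cn (Cr ∩ Y) (cube lam j) : ℝ) ≤ η1 / 2 * vol d m lam := by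
          by_contra hc
          exact hjb ⟨hjJ, not_le.1 hc⟩
        rw [hJn, Finset.mem_filter]
        refine ⟨hjJ, ?_, ?_⟩
        · have h1 : cn (Xu ∩ Y) (cube lam j) ≤ cn (Xc ∩ Y) (cube lam j) + cn (Cr ∩ Y) (cube lam j) := by
            refine CutA_cn_union ?_
            rintro x hx ⟨hxX, hxY⟩
            have hxW := CutA_box_WW hjJ hx
            refine ⟨hx, ?_⟩
            by_cases hxC : x ∈ Cr
            · exact Or.inr ⟨hxC, hxY⟩
            · left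
              exact ⟨⟨⟨hxX, hxX.1, hxC⟩, x, ⟨hxY, hxW⟩, Cn.refl _ _ _⟩, hxY⟩
          have h2 : (cn (Xu ∩ Y) (cube lam j) : ℝ) ≤
              cn (Xc ∩ Y) (cube lam j) + cn (Cr ∩ Y) (cube lam j) := by exact_mod_cast h1
          linarith
        · have h1 : cn (Hi ∩ Y) (cube lam j) ≤ cn (Xd ∩ Y) (cube lam j) := by
            refine CutA_cn_sub ?_
            rintro x hx ⟨hxX, hxY⟩
            have hxW := CutA_box_WW hjJ hx
            exact ⟨hx, ⟨hxX, x, ⟨hxY, hxW⟩, Cn.refl _ _ _⟩, hxY⟩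
          have h2 : (cn (Hi ∩ Y) (cube lam j) : ℝ) ≤ cn (Xd ∩ Y) (cube lam j) := by exact_mod_cast h1
          have h3 : 0 < η1 * vol d m lam := by positivity
          linarith
    have hc1' : Jg.card ≤ Jn.card + Jb.card := (Finset.card_le_card hsub).trans (Finset.card_union_le _ _)
    have hc2 : (Jg.card : ℝ) ≤ Jn.card + Jb.card := by exact_mod_cast hc1'
    have hc3 : η2 * (m : ℝ) ^ d ≤ Jg.card := hbich
    linarith
  have hconn := hr Xc Xd cXc cXd (fun x hx => hx.2) (fun x hx => hx.2) hdis2 hbich2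
    (HaS B (8 * lam) q ℓ GG h a) hha
  have hconn2 := live_conn B (8 * lam) q (HaS B (8 * lam) q ℓ GG h a) Xc Xd cXc cXd
    (by
      rintro x ⟨-, y, hy, hxy⟩ z
      exact CutA_far hm hlam hb1 hc1 hy.1 hy.2 hxy z)
    (by
      rintro x ⟨-, y, hy, hxy⟩ z
      exact CutA_far hm hlam hb1 hc1 hy.1 hy.2 hxy z)
    (by
      obtain ⟨x, hx, y, hy, hxy⟩ := hconn
      refine ⟨x, hx, y, hy, ?_⟩
      convert hxy)
  exact cut_no B (8 * lam) q ℓ x0 h a Xc Xd (fun x hx => cX.1 hx.1) (fun x hx => hx.1.1.2)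
    (fun x hx => hx.1.2.2) (fun x hx => hx.1) hconn2

end H95LBS
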