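import Pool.Agent.H95.LBS.BDef

/-!
PROJECT DS (MP_0d9ad5_pr). Level sets in the giant component: definitions (section 7(iii) of note 2700).
-/

namespace H95LBS

open H5DF H95LBD MeasureTheory

variable {d : ℕ}

/-- Points of `GG` whose hub is above the level `a`. -/
def HiS (B : Finset (V d)) (ω : Cfg d) (GG : Set (V d)) (h : V d → ℝ) (a : ℝ) : Set (V d) :=
  {x | x ∈ B ∧ x ∈ GG ∧ ∀ y, Cn (B : Set (V d)) ω x y → a < h y}

/-- Points of `GG` whose hub crosses the level `a`. -/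
def CrS (B : Finset (V d)) (ω : Cfg d) (GG : Set (V d)) (h : V d → ℝ) (a : ℝ) : Set (V d) :=
  {x | x ∈ B ∧ x ∈ GG ∧ (∃ y, Cn (B : Set (V d)) ω x y ∧ h y ≤ a) ∧
    ∃ y, Cn (B : Set (V d)) ω x y ∧ a < h y}

open Classical in
/-- The cut at level `a`. -/
noncomputable def HaS (B : Finset (V d)) (N : ℕ) (q : Cfg d × Cfg d) (ℓ : ℝ) (GG : Set (V d))
    (h : V d → ℝ) (a : ℝ) : Finset (Ed d) :=
  (LS B N q).filter fun e =>
    (e.1 ∈ GG ∧ ((h e.1 ≤ a ∧ a < h (oth e)) ∨ (h (oth e) ≤ a ∧ a < h e.1))) ∨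
    e.1 ∈ CrS B q.1 GG h a ∨ oth e ∈ CrS B q.1 GG h a ∨ Long B q.1 ℓ e.1 ∨ Long B q.1 ℓ (oth e)

open Classical in
/-- The energy of `h` on the part of `GG` in `B`. -/
noncomputable def EG (B : Finset (V d)) (q : Cfg d × Cfg d) (GG : Set (V d)) (h : V d → ℝ) : ℝ :=
  ∑ x ∈ B, ∑ σ : Dir d, if x ∈ GG ∧ x + step σ ∈ B ∧ un q.1 q.2 (edge x σ) = true then
    (h (x + step σ) - h x) ^ 2 else 0

/-- The oscillation of `h` on `D`. -/
noncomputable def osc (h : V d → ℝ) (D : Finset (V d)) : ℝ :=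
  ((D ×ˢ D).sup fun p => (h p.1 - h p.2).toNNReal : NNReal)

/-- Colourable hubs. -/
def Colb (W : Finset (V d)) (Y : Set (V d)) (D : Finset (V d)) : Prop := ∃ x ∈ D, x ∈ W ∧ x ∈ Y

/-- Hubs inside `GG` that are not long. -/
def Nrm (B : Finset (V d)) (ω : Cfg d) (ℓ : ℝ) (GG : Set (V d)) (D : Finset (V d)) : Prop :=
  (∀ x ∈ D, x ∈ GG) ∧ ∀ x ∈ D, ¬ Long B ω ℓ x

/-- The hub crosses the level `a`. -/
def Crs (h : V d → ℝ) (a : ℝ) (D : Finset (V d)) : Prop := (∃ x ∈ D, h x ≤ a) ∧ ∃ x ∈ D, a < h x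

end H95LBS
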