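import Pool.Agent.H95.LBS.BDef
import Pool.Agent.H95.LBS.SumK

/-!
PROJECT DS (MP_0d9ad5_pr), JOB DS-FGeo. Exits from the explored set (section 5c of note 2700).
PROOF. `f_geo`: take a lattice path from `u` to `v0` changing coordinates one after another (length
`∑ |v0_i - u_i| <= d r0`, inside `Bx u r0`); `a` = its last point in `F` (exists, `u ∈ F`; `≠ v0`), `a ∈ A` by `hF`; next
point `a + step σ ∉ F`; `J` = the edges of the rest of the path. `f_avg`: for each `w`:
`∑_{v0 ∈ BF u r0} kr (v0 - w) <= C r0^d / (r0 + nm (w-u))^(d-2)` (if `nm (w-u) >= 2 r0` then `nm (v0-w) >= nm (w-u)/2`; otherwise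
`sum_ball`); average over the `(2 r0+1)^d` points. `open_many`: `{ω with J opened ∈ E}` does not depend on `J` and contains `E`.
-/

namespace H95LBS

open H5DF H95LBD MeasureTheory

variable {d : ℕ}

lemma FGeo_ind (r0 : ℕ) (F : Finset (V d)) (u : V d) (hu : u ∈ F) :
    ∀ (n : ℕ) (v : V d), nm (v - u) ≤ r0 → v ∉ F → ∑ i, ((v - u) i).natAbs = n →
    ∃ (a : V d) (σ : Dir d) (J : Finset (Ed d)), a ∈ F ∧ nm (a - u) ≤ r0 ∧ a + step σ ∉ F ∧
      nm (a + step σ - u) ≤ r0 ∧ J.card ≤ n ∧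
      (∀ e ∈ J, e ∈ ins (Bx u r0 \ (F : Set (V d)))) ∧
      ∀ ω : Cfg d, (∀ e ∈ J, ω e = true) → Cn (Bx u r0 \ (F : Set (V d))) ω (a + step σ) v := by
  classical
  intro n
  induction n with
  | zero =>
    intro v hv hvF hs
    exfalso
    apply hvF
    have h0 : v = u := by
      funext i
      have h := Finset.sum_eq_zero_iff.1 hs i (Finset.mem_univ i)
      rw [Pi.sub_apply] at h
      omega
    rw [h0]
    exact hu
  | succ n ih =>
    intro v hv hvF hs
    obtain ⟨i, hi⟩ : ∃ i, (v - u) i ≠ 0 := by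
      by_contra hcon
      push Not at hcon
      have h0 : ∑ i, ((v - u) i).natAbs = 0 := by
        apply Finset.sum_eq_zero
        intro i _
        rw [hcon i]
        rfl
      omega
    obtain ⟨s, hs1, hs2⟩ : ∃ s : Dir d, ((v + step s - u) i).natAbs + 1 = ((v - u) i).natAbs ∧
        ∀ j, j ≠ i → (v + step s - u) j = (v - u) j := by
      rw [Pi.sub_apply] at hi
      by_cases hlt : v i < u i
      · refine ⟨(i, true), ?_, ?_⟩
        · simp only [Pi.sub_apply, Pi.add_apply, step, if_true, Pi.single_eq_same]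
          omega
        · intro j hj
          simp [step, hj]
      · refine ⟨(i, false), ?_, ?_⟩
        · simp only [Pi.sub_apply, Pi.add_apply, step, Pi.single_eq_same, Bool.false_eq_true,
            if_false]
          omega
        · intro j hj
          simp [step, hj]
    have hv' : nm (v + step s - u) ≤ r0 := by
      rw [nm_le]
      intro j
      have h1 := natAbs_le_nm (v - u) j
      by_cases hj : j = i
      · subst hj
        omega
      · rw [hs2 j hj]
        omega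
    have hsum : ∑ j, ((v + step s - u) j).natAbs = n := by
      rw [← Finset.add_sum_erase _ _ (Finset.mem_univ i)] at hs ⊢
      have h2 : ∑ j ∈ Finset.univ.erase i, ((v + step s - u) j).natAbs =
          ∑ j ∈ Finset.univ.erase i, ((v - u) j).natAbs := by
        apply Finset.sum_congr rfl
        intro j hj
        rw [hs2 j (Finset.ne_of_mem_erase hj)]
      rw [h2]
      omega
    have hback : v + step s + step (opp s) = v := by
      rw [step_opp]
      abel
    by_cases hF : v + step s ∈ F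
    · refine ⟨v + step s, opp s, ∅, hF, hv', ?_, ?_, by simp, by simp, ?_⟩
      · rw [hback]
        exact hvF
      · rw [hback]
        exact hv
      · intro ω _
        rw [hback]
        exact Cn.refl _ _ _
    · obtain ⟨a, σ, J, h1, h2, h3, h4, h5, h6, h7⟩ := ih (v + step s) hv' hF hsum
      have hvS : v ∈ Bx u r0 \ (F : Set (V d)) := ⟨hv, by simpa using hvF⟩
      have hvS' : v + step s ∈ Bx u r0 \ (F : Set (V d)) := ⟨hv', by simpa using hF⟩
      refine ⟨a, σ, insert (edge v s) J, h1, h2, h3, h4, ?_, ?_, ?_⟩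
      · exact (Finset.card_insert_le _ _).trans (by omega)
      · intro e he
        rw [Finset.mem_insert] at he
        rcases he with rfl | he
        · exact edge_mem_ins.2 ⟨hvS, hvS'⟩
        · exact h6 e he
      · intro ω hω
        have h8 := h7 ω fun e he => hω e (Finset.mem_insert_of_mem he)
        have h9 : Cn (Bx u r0 \ (F : Set (V d))) ω v (v + step s) :=
          Cn.one (hω _ (Finset.mem_insert_self _ _)) hvS hvS'
        exact h8.trans h9.symm

theorem f_geo (r0 : ℕ) (F A : Finset (V d)) (u v0 : V d) (hu : u ∈ A) (hAF : A ⊆ F)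
    (hv0 : nm (v0 - u) ≤ r0) (hv0F : v0 ∉ F) (hF : ∀ w ∈ F, nm (w - u) ≤ 2 * r0 → w ∈ A) :
    ∃ (a : V d) (σ : Dir d) (J : Finset (Ed d)), a ∈ A ∧ nm (a - u) ≤ r0 ∧ a + step σ ∉ F ∧
      nm (a + step σ - u) ≤ r0 ∧ J.card ≤ d * r0 ∧
      (∀ e ∈ J, e ∈ ins (Bx u r0 \ (F : Set (V d)))) ∧
      ∀ ω : Cfg d, (∀ e ∈ J, ω e = true) → Cn (Bx u r0 \ (F : Set (V d))) ω (a + step σ) v0 := by
  obtain ⟨a, σ, J, h1, h2, h3, h4, h5, h6, h7⟩ :=
    FGeo_ind r0 F u (hAF hu) _ v0 hv0 hv0F rfl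
  refine ⟨a, σ, J, hF a h1 (by omega), h2, h3, h4, h5.trans ?_, h6, h7⟩
  have h8 : ∀ i ∈ (Finset.univ : Finset (Fin d)), ((v0 - u) i).natAbs ≤ r0 := by
    intro i _
    exact (natAbs_le_nm _ i).trans hv0
  have h9 := Finset.sum_le_card_nsmul _ _ _ h8
  simpa using h9

lemma FGeo_kr (hd : 5 ≤ d) : ∃ C : ℝ, 1 ≤ C ∧ ∀ (r0 : ℕ) (u w : V d), 1 ≤ r0 →
    ∑ v ∈ BF u r0, kr (v - w) ≤
      C * (r0 : ℝ) ^ d * (1 / ((r0 : ℝ) + nm (w - u)) ^ (d - 2)) := by
  classical
  obtain ⟨C1, hC1, h1⟩ := sk1 (d := d) hd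
  refine ⟨1 + 9 ^ d + 4 * C1 * 3 ^ d, by
    have : (0 : ℝ) < 9 ^ d := by positivity
    have : (0 : ℝ) < 4 * C1 * 3 ^ d := by positivity
    linarith, fun r0 u w hr => ?_⟩
  have hr' : (1 : ℝ) ≤ r0 := by exact_mod_cast hr
  have hnm : (0 : ℝ) ≤ nm (w - u) := Nat.cast_nonneg _
  have hpos : (0 : ℝ) < (r0 : ℝ) + nm (w - u) := by linarith
  have hC9 : (0 : ℝ) < 9 ^ d := by positivity
  have hC4 : (0 : ℝ) < 4 * C1 * 3 ^ d := by positivity
  have e1 : (r0 : ℝ) ^ d = (r0 : ℝ) ^ (d - 2) * (r0 : ℝ) ^ 2 := by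
    rw [← pow_add]
    congr 1
    omega
  have h3 : (3 : ℝ) ^ (d - 2) ≤ 3 ^ d := pow_le_pow_right₀ (by norm_num) (by omega)
  by_cases hc : 2 * r0 ≤ nm (w - u)
  · have hc' : 2 * (r0 : ℝ) ≤ nm (w - u) := by exact_mod_cast hc
    have h2 : ∀ v ∈ BF u r0, kr (v - w) ≤ 3 ^ (d - 2) * (1 / ((r0 : ℝ) + nm (w - u)) ^ (d - 2)) := by
      intro v hv
      rw [mem_BF] at hv
      have h4 := nm_tri w v u
      have h5 := nm_sub_comm w v
      have h6 : nm (w - u) ≤ nm (v - w) + r0 := by omega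
      have h7 : (nm (w - u) : ℝ) ≤ nm (v - w) + r0 := by exact_mod_cast h6
      have h8 : ((r0 : ℝ) + nm (w - u)) / 3 ≤ 1 + nm (v - w) := by linarith
      have h9 : 1 / (1 + (nm (v - w) : ℝ)) ^ (d - 2) ≤
          1 / (((r0 : ℝ) + nm (w - u)) / 3) ^ (d - 2) := by
        apply one_div_le_one_div_of_le (by positivity)
        exact pow_le_pow_left₀ (by positivity) h8 _
      unfold kr
      refine h9.trans (le_of_eq ?_)
      rw [div_pow]
      field_simp
    have h10 : ((BF u r0).card : ℝ) ≤ 3 ^ d * (r0 : ℝ) ^ d := by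
      have h11 : (BF u r0).card ≤ (Box d r0).card := Finset.card_image_le
      exact (by exact_mod_cast h11 : ((BF u r0).card : ℝ) ≤ (Box d r0).card).trans
        (card_Box_le r0 hr)
    refine (Finset.sum_le_sum h2).trans ?_
    rw [Finset.sum_const, nsmul_eq_mul]
    have hq : (0 : ℝ) < 1 / ((r0 : ℝ) + nm (w - u)) ^ (d - 2) := by positivity
    calc ((BF u r0).card : ℝ) * (3 ^ (d - 2) * (1 / ((r0 : ℝ) + nm (w - u)) ^ (d - 2)))
        ≤ (3 ^ d * (r0 : ℝ) ^ d) * (3 ^ d * (1 / ((r0 : ℝ) + nm (w - u)) ^ (d - 2))) := by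
          apply mul_le_mul h10 _ (by positivity) (by positivity)
          exact mul_le_mul_of_nonneg_right h3 hq.le
      _ = 9 ^ d * (r0 : ℝ) ^ d * (1 / ((r0 : ℝ) + nm (w - u)) ^ (d - 2)) := by
          have e9 : (9 : ℝ) ^ d = 3 ^ d * 3 ^ d := by
            rw [← mul_pow]
            norm_num
          rw [e9]
          ring
      _ ≤ (1 + 9 ^ d + 4 * C1 * 3 ^ d) * (r0 : ℝ) ^ d *
            (1 / ((r0 : ℝ) + nm (w - u)) ^ (d - 2)) := by
          apply mul_le_mul_of_nonneg_right _ hq.le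
          apply mul_le_mul_of_nonneg_right _ (by positivity)
          linarith
  · push Not at hc
    have hc' : (nm (w - u) : ℝ) ≤ 2 * r0 := by exact_mod_cast hc.le
    refine (h1 r0 u w).trans ?_
    have hq : (0 : ℝ) < 1 / ((r0 : ℝ) + nm (w - u)) ^ (d - 2) := by positivity
    have h4 : 1 ≤ 3 ^ (d - 2) * (r0 : ℝ) ^ (d - 2) * (1 / ((r0 : ℝ) + nm (w - u)) ^ (d - 2)) := by
      rw [mul_one_div, ← mul_pow, ← div_pow]
      apply one_le_pow₀
      rw [le_div_iff₀ hpos]
      linarith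
    have h5 : (1 + (r0 : ℝ)) ^ 2 ≤ 4 * (r0 : ℝ) ^ 2 := by nlinarith
    calc C1 * (1 + (r0 : ℝ)) ^ 2 ≤ C1 * (4 * (r0 : ℝ) ^ 2) :=
          mul_le_mul_of_nonneg_left h5 hC1.le
      _ ≤ C1 * (4 * (r0 : ℝ) ^ 2) *
          (3 ^ (d - 2) * (r0 : ℝ) ^ (d - 2) * (1 / ((r0 : ℝ) + nm (w - u)) ^ (d - 2))) :=
          le_mul_of_one_le_right (by positivity) h4
      _ = (4 * C1 * 3 ^ (d - 2)) * (r0 : ℝ) ^ d *
          (1 / ((r0 : ℝ) + nm (w - u)) ^ (d - 2)) := by
          rw [e1]
          ring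
      _ ≤ (1 + 9 ^ d + 4 * C1 * 3 ^ d) * (r0 : ℝ) ^ d *
            (1 / ((r0 : ℝ) + nm (w - u)) ^ (d - 2)) := by
          apply mul_le_mul_of_nonneg_right _ hq.le
          apply mul_le_mul_of_nonneg_right _ (by positivity)
          have h6 : 4 * C1 * 3 ^ (d - 2) ≤ 4 * C1 * 3 ^ d :=
            mul_le_mul_of_nonneg_left h3 (by positivity)
          linarith

theorem f_avg (hd : 5 ≤ d) : ∃ C : ℝ, 1 ≤ C ∧ ∀ (r0 N1 : ℕ) (F : Finset (V d)) (u : V d) (η : ℝ),
    1 ≤ r0 → ∑ w ∈ F.filter (fun w => nm (w - u) ≤ N1), 1 / ((r0 : ℝ) + nm (w - u)) ^ (d - 2) ≤ η →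
    ∃ v0 : V d, nm (v0 - u) ≤ r0 ∧
      ∑ w ∈ F.filter (fun w => nm (w - u) ≤ N1), kr (v0 - w) ≤ C * η := by
  classical
  obtain ⟨C, hC, h⟩ := FGeo_kr (d := d) hd
  refine ⟨C, hC, fun r0 N1 F u η hr hη => ?_⟩
  have hr' : (1 : ℝ) ≤ r0 := by exact_mod_cast hr
  by_contra hcon
  push Not at hcon
  have hη0 : 0 ≤ η := le_trans (Finset.sum_nonneg fun w _ => by positivity) hη
  have h1 : ∀ v ∈ BF u r0, C * η <
      ∑ w ∈ F.filter (fun w => nm (w - u) ≤ N1), kr (v - w) := fun v hv =>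
    hcon v (mem_BF.1 hv)
  have hne : (BF u r0).Nonempty := ⟨u, by rw [mem_BF, sub_self, nm_zero]; omega⟩
  have h2 : ((BF u r0).card : ℝ) * (C * η) <
      ∑ v ∈ BF u r0, ∑ w ∈ F.filter (fun w => nm (w - u) ≤ N1), kr (v - w) := by
    have h3 := Finset.sum_lt_sum_of_nonempty hne h1
    rwa [Finset.sum_const, nsmul_eq_mul] at h3
  rw [Finset.sum_comm] at h2
  have h4 : ∑ w ∈ F.filter (fun w => nm (w - u) ≤ N1), ∑ v ∈ BF u r0, kr (v - w) ≤
      C * (r0 : ℝ) ^ d * η := by
    calc ∑ w ∈ F.filter (fun w => nm (w - u) ≤ N1), ∑ v ∈ BF u r0, kr (v - w)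
        ≤ ∑ w ∈ F.filter (fun w => nm (w - u) ≤ N1),
          C * (r0 : ℝ) ^ d * (1 / ((r0 : ℝ) + nm (w - u)) ^ (d - 2)) :=
          Finset.sum_le_sum fun w _ => h r0 u w hr
      _ = C * (r0 : ℝ) ^ d * ∑ w ∈ F.filter (fun w => nm (w - u) ≤ N1),
          1 / ((r0 : ℝ) + nm (w - u)) ^ (d - 2) := by rw [Finset.mul_sum]
      _ ≤ C * (r0 : ℝ) ^ d * η := mul_le_mul_of_nonneg_left hη (by positivity)
  have hcard : (r0 : ℝ) ^ d ≤ (BF u r0).card := by
    have h5 : (BF u r0).card = (Box d r0).card :=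
      Finset.card_image_of_injective _ (add_left_injective u)
    rw [h5, card_Box]
    push_cast
    exact pow_le_pow_left₀ (by positivity) (by linarith) _
  have h6 : (r0 : ℝ) ^ d * (C * η) ≤ ((BF u r0).card : ℝ) * (C * η) :=
    mul_le_mul_of_nonneg_right hcard (mul_nonneg (by linarith) hη0)
  have h7 : C * (r0 : ℝ) ^ d * η = (r0 : ℝ) ^ d * (C * η) := by ring
  linarith

lemma FGeo_one {p : ℝ} (h0 : 0 ≤ p) (h1 : p ≤ 1) (e : Ed d) (E : Set (Cfg d))
    (hE : MeasurableSet E) (hI : Inc E) :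
    p * (perc d p).real E ≤ (perc d p).real (E ∩ {ω | ω e = true}) := by
  classical
  have := isProb_bern h0 h1
  have hP : IsProbabilityMeasure (perc d p) := by
    unfold perc
    infer_instance
  have hE1 : MeasurableSet {ω : Cfg d | Function.update ω e true ∈ E} :=
    measurable_upd e true hE
  have h2 : E ∩ {ω | ω e = true} =
      {ω : Cfg d | Function.update ω e true ∈ E} ∩ {ω | ω e = true} := by
    ext ω
    simp only [Set.mem_inter_iff, Set.mem_setOf_eq]
    constructor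
    · rintro ⟨h3, h4⟩
      refine ⟨?_, h4⟩
      rw [← h4, Function.update_eq_self]
      exact h3
    · rintro ⟨h3, h4⟩
      refine ⟨?_, h4⟩
      rw [← h4, Function.update_eq_self] at h3
      exact h3
  have h3 : perc d p ({ω : Cfg d | Function.update ω e true ∈ E} ∩ {ω | ω e = true}) =
      perc d p {ω : Cfg d | Function.update ω e true ∈ E} * perc d p {ω | ω e = true} := by
    refine indep_split h0 h1 {e} {ω | ω e = true} {ω : Cfg d | Function.update ω e true ∈ E}
      (meas_open e) hE1 ?_ ?_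
    · intro ω ω' h
      have h4 := h e rfl
      intro h5
      simp only [Set.mem_setOf_eq] at h5 ⊢
      rw [← h4]
      exact h5
    · intro ω ω' h
      have h4 : Function.update ω e true = Function.update ω' e true := by
        funext e'
        by_cases he : e' = e
        · subst he
          simp
        · rw [Function.update_of_ne he, Function.update_of_ne he]
          exact h e' he
      intro h5
      simp only [Set.mem_setOf_eq] at h5 ⊢
      rw [← h4]
      exact h5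
  have h4 : perc d p {ω | ω e = true} = ENNReal.ofReal p := by
    have h5 := bern_coord h0 h1 e true
    rw [bern_true] at h5
    exact h5
  have h5 : (perc d p).real (E ∩ {ω | ω e = true}) =
      (perc d p).real {ω : Cfg d | Function.update ω e true ∈ E} * p := by
    rw [h2, Measure.real, h3, h4, ENNReal.toReal_mul, ENNReal.toReal_ofReal h0, Measure.real]
  rw [h5, mul_comm]
  apply mul_le_mul_of_nonneg_right _ h0
  apply measureReal_mono _ (measure_ne_top _ _)
  intro ω hω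
  refine hI ω _ (fun e' he' => ?_) hω
  by_cases he : e' = e
  · subst he
    simp
  · rw [Function.update_of_ne he]
    exact he'

theorem open_many {p : ℝ} (h0 : 0 ≤ p) (h1 : p ≤ 1) (J : Finset (Ed d)) (E E' : Set (Cfg d))
    (hE : MeasurableSet E) (hE' : MeasurableSet E') (hI : Inc E)
    (h : ∀ ω ∈ E, (∀ e ∈ J, ω e = true) → ω ∈ E') :
    p ^ J.card * (perc d p).real E ≤ (perc d p).real E' := by
  classical
  have := isProb_bern h0 h1
  have hP : IsProbabilityMeasure (perc d p) := by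
    unfold perc
    infer_instance
  have key : ∀ J : Finset (Ed d), MeasurableSet (E ∩ {ω : Cfg d | ∀ e ∈ J, ω e = true}) ∧
      Inc (E ∩ {ω : Cfg d | ∀ e ∈ J, ω e = true}) ∧
      p ^ J.card * (perc d p).real E ≤
        (perc d p).real (E ∩ {ω : Cfg d | ∀ e ∈ J, ω e = true}) := by
    intro J
    induction J using Finset.induction_on with
    | empty =>
      have h2 : E ∩ {ω : Cfg d | ∀ e ∈ (∅ : Finset (Ed d)), ω e = true} = E := by
        ext ω
        simp
      rw [h2]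
      exact ⟨hE, hI, by simp⟩
    | insert e J he ih =>
      obtain ⟨i1, i2, i3⟩ := ih
      have h2 : E ∩ {ω : Cfg d | ∀ e' ∈ insert e J, ω e' = true} =
          (E ∩ {ω : Cfg d | ∀ e ∈ J, ω e = true}) ∩ {ω | ω e = true} := by
        ext ω
        simp only [Set.mem_inter_iff, Set.mem_setOf_eq, Finset.mem_insert, forall_eq_or_imp]
        tauto
      rw [h2]
      refine ⟨i1.inter (meas_open e), ?_, ?_⟩
      · intro ω ω' h3 h4
        exact ⟨i2 ω ω' h3 h4.1, h3 e h4.2⟩
      · rw [Finset.card_insert_of_notMem he, pow_succ]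
        calc p ^ J.card * p * (perc d p).real E = p * (p ^ J.card * (perc d p).real E) := by ring
          _ ≤ p * (perc d p).real (E ∩ {ω : Cfg d | ∀ e ∈ J, ω e = true}) :=
            mul_le_mul_of_nonneg_left i3 h0
          _ ≤ _ := FGeo_one h0 h1 e _ i1 i2
  refine (key J).2.2.trans ?_
  apply measureReal_mono _ (measure_ne_top _ _)
  rintro ω ⟨h2, h3⟩
  exact h ω h2 h3

end H95LBS
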