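import Pool.Agent.H95.LBS.FGeo
import Pool.Agent.H95.LBS.TreeS
import Pool.Agent.H95.LBD.BoxConn
import Pool.Agent.H95.LBD.SumC

/-!
PROJECT DS (MP_0d9ad5_pr), JOB DS-FTwo. Two-point lower bound off the explored set (section 5c of note 2700).
PROOF. `j = nm (v0 - v0')`. If `j = 0` the probability of `v0 <-> v0'` is 1. Else `H.rest` with `n = j` (translated to `v0'`):
`P(Cn (Bx v0' (M j)) v0 v0') >= cM/j^(d-2)`; `through` with `S = BF v0' (M j)`:
`P(Cn (S \ F) v0 v0') >= cM/j^(d-2) - ∑_{w ∈ F ∩ S} A^2 kr(v0-w) kr(w-v0')`, and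
`kr(v0-w) kr(w-v0') <= 2^(d-2) kr(v0-v0') (kr(v0-w) + kr(w-v0'))` (one of the two distances is `>= j/2`), `M j <= 2 M lam`:
the sum is `<= A^2 2^(d-1) ηa /j^(d-2) <= (cM/2)/j^(d-2)`. Then open `J` and `J'` (`open_many`), domains are contained in
`Bx v' N2 \ F`. `c6 = p0^(2 d r0) cM/2^(d-1)`.
-/

namespace H95LBS

open H5DF H95LBD MeasureTheory

variable {d : ℕ}

lemma FTwo_conn {p0 A cM : ℝ} {M : ℕ} (H : Crit d p0 A cM M) (S : Set (V d)) (x y : V d) :
    (perc d p0).real {ω | Cn S ω x y} ≤ A * kr (x - y) := by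
  rw [kr_sub_comm]
  have h1 : perc d p0 {ω | Cn S ω x y} ≤ ENNReal.ofReal (A * kr (y - x)) := by
    have e1 : perc d p0 {ω | Cn S ω x y} ≤ tau d p0 (y - x) := by
      rw [← prob_cluster_mem p0 H.hp0.le H.hp1.le x y]
      exact measure_mono fun ω h => Cn.cluster h
    exact e1.trans (H.kb (y - x)).2
  have h2 := ENNReal.toReal_mono ENNReal.ofReal_ne_top h1
  have h3 : 0 ≤ A * kr (y - x) := mul_nonneg (by linarith [H.hA]) (kr_pos _).le
  rwa [ENNReal.toReal_ofReal h3] at h2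

/-- Product of two kernels. -/
lemma FTwo_kr (a b : V d) : kr a * kr b ≤ 2 ^ (d - 2) * kr (a + b) * (kr a + kr b) := by
  have ha := kr_pos a
  have hb := kr_pos b
  have hab := kr_pos (a + b)
  have h2 : (0 : ℝ) < 2 ^ (d - 2) := by positivity
  have hn := nm_add a b
  by_cases h : nm b ≤ nm a
  · have h1 : kr a ≤ 2 ^ (d - 2) * kr (a + b) := SumC_kr_half (by omega)
    calc kr a * kr b ≤ (2 ^ (d - 2) * kr (a + b)) * kr b := mul_le_mul_of_nonneg_right h1 hb.le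
      _ ≤ 2 ^ (d - 2) * kr (a + b) * (kr a + kr b) := by
        apply mul_le_mul_of_nonneg_left _ (by positivity)
        linarith
  · push Not at h
    have h1 : kr b ≤ 2 ^ (d - 2) * kr (a + b) := SumC_kr_half (by omega)
    calc kr a * kr b ≤ kr a * (2 ^ (d - 2) * kr (a + b)) := mul_le_mul_of_nonneg_left h1 ha.le
      _ = (2 ^ (d - 2) * kr (a + b)) * kr a := by ring
      _ ≤ 2 ^ (d - 2) * kr (a + b) * (kr a + kr b) := by
        apply mul_le_mul_of_nonneg_left _ (by positivity)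
        linarith

/-- The connection off `F`. -/
lemma FTwo_off {p0 A cM : ℝ} {M : ℕ} (H : Crit d p0 A cM M) {ηa : ℝ}
    (hη : ηa * (A ^ 2 * 2 ^ d) ≤ cM) (lam : ℕ) (F : Finset (V d)) (v0 v0' : V d)
    (hj1 : 1 ≤ nm (v0 - v0')) (hj : nm (v0 - v0') ≤ 2 * lam)
    (h1 : ∑ w ∈ F.filter (fun w => nm (w - v0') ≤ 2 * M * lam), kr (v0 - w) ≤ ηa)
    (h2 : ∑ w ∈ F.filter (fun w => nm (w - v0') ≤ 2 * M * lam), kr (v0' - w) ≤ ηa) :
    cM / (2 * (nm (v0 - v0') : ℝ) ^ (d - 2)) ≤ (perc d p0).real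
      {ω | Cn ((BF v0' (M * nm (v0 - v0')) : Set (V d)) \ F) ω v0 v0'} := by
  have hd := H.hd
  have hM := H.hM
  have hA := H.hA
  obtain ⟨j, hjd⟩ : ∃ j, nm (v0 - v0') = j := ⟨_, rfl⟩
  rw [hjd] at hj1 hj ⊢
  have hjr : (1 : ℝ) ≤ j := by exact_mod_cast hj1
  have hMj : j ≤ M * j := Nat.le_mul_of_pos_left _ (by omega)
  have hr := H.rest j (v0 - v0') (v0' - v0') hj1 (by rw [hjd]) (by rw [sub_self, nm_zero]; omega)
  rw [← BoxConn_shift p0 H.hp0.le H.hp1.le (M * j) v0' v0 v0', ← coe_BF] at hr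
  have ht := through p0 H.hp0.le H.hp1.le (BF v0' (M * j)) F v0 v0'
    (by rw [mem_BF, hjd]; exact hMj) (by rw [mem_BF, sub_self, nm_zero]; omega)
  have hsum : ∑ v ∈ F ∩ BF v0' (M * j), (perc d p0).real {ω | Cn (BF v0' (M * j) : Set (V d)) ω v0 v} *
      (perc d p0).real {ω | Cn (BF v0' (M * j) : Set (V d)) ω v v0'} ≤
      cM / (2 * (j : ℝ) ^ (d - 2)) := by
    have hk : kr (v0 - v0') ≤ 1 / (j : ℝ) ^ (d - 2) := by
      unfold kr
      rw [hjd]
      apply one_div_le_one_div_of_le (by positivity)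
      exact pow_le_pow_left₀ (by positivity) (by linarith) _
    have hterm : ∀ v ∈ F ∩ BF v0' (M * j),
        (perc d p0).real {ω | Cn (BF v0' (M * j) : Set (V d)) ω v0 v} *
        (perc d p0).real {ω | Cn (BF v0' (M * j) : Set (V d)) ω v v0'} ≤
        A ^ 2 * 2 ^ (d - 2) * (1 / (j : ℝ) ^ (d - 2)) * (kr (v0 - v) + kr (v0' - v)) := by
      intro v _
      have e1 := FTwo_conn H (BF v0' (M * j) : Set (V d)) v0 v
      have e2 := FTwo_conn H (BF v0' (M * j) : Set (V d)) v v0'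
      have e3 := FTwo_kr (v0 - v) (v - v0')
      rw [sub_add_sub_cancel] at e3
      have p1 := kr_pos (v0 - v)
      have p2 := kr_pos (v - v0')
      calc (perc d p0).real {ω | Cn (BF v0' (M * j) : Set (V d)) ω v0 v} *
            (perc d p0).real {ω | Cn (BF v0' (M * j) : Set (V d)) ω v v0'}
          ≤ (A * kr (v0 - v)) * (A * kr (v - v0')) :=
            mul_le_mul e1 e2 measureReal_nonneg (by positivity)
        _ = A ^ 2 * (kr (v0 - v) * kr (v - v0')) := by ring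
        _ ≤ A ^ 2 * (2 ^ (d - 2) * kr (v0 - v0') * (kr (v0 - v) + kr (v - v0'))) :=
            mul_le_mul_of_nonneg_left e3 (by positivity)
        _ ≤ A ^ 2 * (2 ^ (d - 2) * (1 / (j : ℝ) ^ (d - 2)) * (kr (v0 - v) + kr (v - v0'))) := by
            apply mul_le_mul_of_nonneg_left _ (by positivity)
            apply mul_le_mul_of_nonneg_right _ (by positivity)
            exact mul_le_mul_of_nonneg_left hk (by positivity)
        _ = A ^ 2 * 2 ^ (d - 2) * (1 / (j : ℝ) ^ (d - 2)) * (kr (v0 - v) + kr (v0' - v)) := by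
            rw [kr_sub_comm v v0']
            ring
    have hsub : F ∩ BF v0' (M * j) ⊆ F.filter (fun w => nm (w - v0') ≤ 2 * M * lam) := by
      intro w hw
      rw [Finset.mem_inter, mem_BF] at hw
      rw [Finset.mem_filter]
      refine ⟨hw.1, hw.2.trans ?_⟩
      calc M * j ≤ M * (2 * lam) := Nat.mul_le_mul_left _ hj
        _ = 2 * M * lam := by ring
    have hs : ∑ v ∈ F ∩ BF v0' (M * j), (kr (v0 - v) + kr (v0' - v)) ≤ 2 * ηa := by
      rw [Finset.sum_add_distrib]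
      have s1 := (Finset.sum_le_sum_of_subset_of_nonneg hsub
        (f := fun w => kr (v0 - w)) fun w _ _ => (kr_pos _).le).trans h1
      have s2 := (Finset.sum_le_sum_of_subset_of_nonneg hsub
        (f := fun w => kr (v0' - w)) fun w _ _ => (kr_pos _).le).trans h2
      linarith
    have e22 : (2 : ℝ) ^ d = 2 ^ (d - 2) * 4 := by
      have : d = d - 2 + 2 := by omega
      conv_lhs => rw [this]
      rw [pow_add]
      norm_num
    refine (Finset.sum_le_sum hterm).trans ?_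
    rw [← Finset.mul_sum]
    have hpos : 0 ≤ A ^ 2 * 2 ^ (d - 2) * (1 / (j : ℝ) ^ (d - 2)) := by positivity
    refine (mul_le_mul_of_nonneg_left hs hpos).trans ?_
    have hjp : (0 : ℝ) < (j : ℝ) ^ (d - 2) := by positivity
    have hr2 : cM / (2 * (j : ℝ) ^ (d - 2)) = cM / 2 * (1 / (j : ℝ) ^ (d - 2)) := by
      field_simp
    rw [hr2]
    have hq : (0 : ℝ) < 1 / (j : ℝ) ^ (d - 2) := by positivity
    have e5 : A ^ 2 * 2 ^ (d - 2) * (2 * ηa) ≤ cM / 2 := by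
      rw [e22] at hη
      linarith
    calc A ^ 2 * 2 ^ (d - 2) * (1 / (j : ℝ) ^ (d - 2)) * (2 * ηa)
        = A ^ 2 * 2 ^ (d - 2) * (2 * ηa) * (1 / (j : ℝ) ^ (d - 2)) := by ring
      _ ≤ cM / 2 * (1 / (j : ℝ) ^ (d - 2)) := mul_le_mul_of_nonneg_right e5 hq.le
  have e6 : cM / (j : ℝ) ^ (d - 2) = cM / (2 * (j : ℝ) ^ (d - 2)) + cM / (2 * (j : ℝ) ^ (d - 2)) := by
    field_simp
    ring
  linarith [hr, ht, hsum]

theorem f_two {p0 A cM : ℝ} {M : ℕ} (H : Crit d p0 A cM M) : ∃ ηa : ℝ, 0 < ηa ∧ ηa < 1 ∧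
    ∀ r0 : ℕ, 1 ≤ r0 → ∃ c6 : ℝ, 0 < c6 ∧ ∀ (lam N2 : ℕ) (F : Finset (V d))
      (v0 v0' a' v' : V d) (J J' : Finset (Ed d)), 1 ≤ lam → nm (v0 - v0') ≤ 2 * lam →
      v0 ∉ F → v0' ∉ F →
      ∑ w ∈ F.filter (fun w => nm (w - v0') ≤ 2 * M * lam), kr (v0 - w) ≤ ηa →
      ∑ w ∈ F.filter (fun w => nm (w - v0') ≤ 2 * M * lam), kr (v0' - w) ≤ ηa →
      nm (v0' - v') ≤ 2 * r0 → 2 * M * lam + 2 * r0 ≤ N2 →
      J.card ≤ d * r0 → J'.card ≤ d * r0 →
      (∀ ω : Cfg d, (∀ e ∈ J, ω e = true) → Cn (Bx v' N2 \ (F : Set (V d))) ω a' v0) →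
      (∀ ω : Cfg d, (∀ e ∈ J', ω e = true) → Cn (Bx v' N2 \ (F : Set (V d))) ω v' v0') →
      c6 / (lam : ℝ) ^ (d - 2) ≤
        (perc d p0).real {ω | Cn (Bx v' N2 \ (F : Set (V d))) ω a' v'} := by
  classical
  have hd := H.hd
  have hM := H.hM
  have hA := H.hA
  have hc := H.hc
  have hprob := H.prob
  have hcM1 : cM ≤ 1 := by
    have h1 := H.rest 1 0 0 le_rfl (by rw [nm_zero]; omega) (by rw [nm_zero]; omega)
    rw [Nat.cast_one, one_pow, div_one] at h1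
    exact h1.trans measureReal_le_one
  have h2d : (1 : ℝ) < 2 ^ d := one_lt_pow₀ (by norm_num) (by omega)
  have hA2 : 1 ≤ A ^ 2 := one_le_pow₀ hA
  have hD : 1 < A ^ 2 * 2 ^ d := by nlinarith
  have hD0 : 0 < A ^ 2 * 2 ^ d := by linarith
  refine ⟨cM / (A ^ 2 * 2 ^ d), by positivity, ?_, ?_⟩
  · rw [div_lt_one hD0]
    linarith
  intro r0 _
  refine ⟨p0 ^ (2 * (d * r0)) * (cM / (2 * 2 ^ (d - 2))), by have := H.hp0; positivity, ?_⟩
  intro lam N2 F v0 v0' a' v' J J' hlam hj hv0 hv0' h1 h2 hr hN hJ hJ' hcJ hcJ'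
  have hlr : (1 : ℝ) ≤ lam := by exact_mod_cast hlam
  have hkey : cM / (2 * 2 ^ (d - 2)) / (lam : ℝ) ^ (d - 2) ≤
      (perc d p0).real {ω | Cn (Bx v' N2 \ (F : Set (V d))) ω v0 v0'} := by
    by_cases hj0 : nm (v0 - v0') = 0
    · have e0 : v0 = v0' := sub_eq_zero.1 (nm_eq_zero.1 hj0)
      have e1 : {ω : Cfg d | Cn (Bx v' N2 \ (F : Set (V d))) ω v0 v0'} = Set.univ := by
        rw [e0]
        exact Set.eq_univ_of_forall fun ω => Cn.refl _ _ _
      rw [e1, probReal_univ]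
      have e2 : (1 : ℝ) ≤ 2 ^ (d - 2) := one_le_pow₀ (by norm_num)
      have e3 : (1 : ℝ) ≤ (lam : ℝ) ^ (d - 2) := one_le_pow₀ hlr
      rw [div_div, div_le_one (by positivity)]
      nlinarith
    · have hoff := FTwo_off H (ηa := cM / (A ^ 2 * 2 ^ d)) (by rw [div_mul_cancel₀ _ hD0.ne'])
        lam F v0 v0' (by omega) hj h1 h2
      have hjr : (nm (v0 - v0') : ℝ) ≤ 2 * lam := by exact_mod_cast hj
      have hjp : (1 : ℝ) ≤ nm (v0 - v0') := by exact_mod_cast (by omega : 1 ≤ nm (v0 - v0'))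
      have e4 : cM / (2 * 2 ^ (d - 2)) / (lam : ℝ) ^ (d - 2) ≤
          cM / (2 * (nm (v0 - v0') : ℝ) ^ (d - 2)) := by
        rw [div_div]
        apply div_le_div_of_nonneg_left hc.le (by positivity)
        have e5 : (nm (v0 - v0') : ℝ) ^ (d - 2) ≤ (2 * (lam : ℝ)) ^ (d - 2) :=
          pow_le_pow_left₀ (by positivity) hjr _
        rw [mul_pow] at e5
        nlinarith
      refine e4.trans (hoff.trans ?_)
      apply measureReal_mono _ (measure_ne_top _ _)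
      intro ω hω
      refine Cn.mono hω ?_ (fun e he => he)
      intro w hw
      refine ⟨?_, hw.2⟩
      have hw1 := hw.1
      rw [Finset.mem_coe, mem_BF] at hw1
      rw [mem_Bx]
      have h3 := nm_tri w v0' v'
      have h4 : M * nm (v0 - v0') ≤ 2 * M * lam :=
        (Nat.mul_le_mul_left _ hj).trans (le_of_eq (by ring))
      omega
  have hop := open_many H.hp0.le H.hp1.le (J ∪ J')
    {ω | Cn (Bx v' N2 \ (F : Set (V d))) ω v0 v0'} {ω | Cn (Bx v' N2 \ (F : Set (V d))) ω a' v'}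
    (meas_Cn _ _ _) (meas_Cn _ _ _)
    (by rw [← BoxConn_SCn]; exact SCn_inc _ _ _)
    (fun ω hω hJJ => ((hcJ ω fun e he => hJJ e (Finset.mem_union_left _ he)).trans hω).trans
      (hcJ' ω fun e he => hJJ e (Finset.mem_union_right _ he)).symm)
  refine le_trans ?_ hop
  have hcard : (J ∪ J').card ≤ 2 * (d * r0) := (Finset.card_union_le _ _).trans (by omega)
  have hp : p0 ^ (2 * (d * r0)) ≤ p0 ^ (J ∪ J').card :=
    pow_le_pow_of_le_one H.hp0.le H.hp1.le hcard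
  rw [mul_div_assoc]
  have hq : (0 : ℝ) < cM / (2 * 2 ^ (d - 2)) / (lam : ℝ) ^ (d - 2) := by positivity
  exact mul_le_mul hp hkey hq.le (by have := H.hp0; positivity)

end H95LBS
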