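import Pool.Agent.H95.LBS.BDef
import Pool.Agent.H95.LBS.SumK

/-!
PROJECT DS (MP_0d9ad5_pr), JOB DS-GBd. The kernel sum over test points (section 5d of note 2700).
PROOF. If no `v ∈ T` has `nm (v - y) <= N2` the sum is 0. Otherwise let `v1 ∈ T` minimise `nm (v - y)`: for the other
ones `nm (v - v1) <= 2 nm (v - y) <= 2 N2`, so `kr (v - y) <= 2^(d-2) kr (v - v1)`. With `u = base v`, `u1 = base v1`
(`u1` regular, `u ∈ RegA ⊆ A' ⊆ F`): `nm (u - u1) <= 2 N2 + 2 r0 <= N1` and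
`r0 + nm (u-u1) <= (3 r0 + 1)(1 + nm (v - v1))`, so `kr (v - v1) <= (3r0+1)^(d-2)/(r0 + nm (u-u1))^(d-2)`; at most
`(2 r0+1)^d` points `v` have the same base; the sum over `u ∈ F` is `<= ηr <= 1`. `G1 = 2^(d-2) (3r0+1)^(d-2) (2r0+1)^d`.
-/

namespace H95LBS

open H5DF H95LBD MeasureTheory

variable {d : ℕ}

/-- one term: the kernel at `v - y` is at most a constant times the kernel of the base points. -/
lemma GBd_term {r0 : ℕ} (hr0 : 1 ≤ r0) (v v1 y u u1 : V d) (hmin : nm (v1 - y) ≤ nm (v - y))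
    (h1 : nm (v - u) ≤ r0) (h2 : nm (v1 - u1) ≤ r0) :
    kr (v - y) ≤ (2 * (3 * (r0 : ℝ) + 1)) ^ (d - 2) * (1 / ((r0 : ℝ) + nm (u - u1)) ^ (d - 2)) := by
  have e1 : nm (u - u1) ≤ r0 + (2 * nm (v - y)) + r0 := by
    have g1 := nm_tri u v u1
    have g2 := nm_tri v v1 u1
    have g3 := nm_tri v y v1
    rw [nm_sub_comm y v1] at g3
    rw [nm_sub_comm u v] at g1
    omega
  have e2 : ((r0 : ℝ) + nm (u - u1)) ≤ 2 * (3 * (r0 : ℝ) + 1) * (1 + nm (v - y)) := by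
    have g1 : (nm (u - u1) : ℝ) ≤ r0 + (2 * nm (v - y)) + r0 := by exact_mod_cast e1
    have g2 : (0 : ℝ) ≤ nm (v - y) := Nat.cast_nonneg _
    have g3 : (1 : ℝ) ≤ r0 := by exact_mod_cast hr0
    nlinarith
  have g3 : (1 : ℝ) ≤ r0 := by exact_mod_cast hr0
  have p1 : (0 : ℝ) < (r0 : ℝ) + nm (u - u1) := by
    have g2 : (0 : ℝ) ≤ nm (u - u1) := Nat.cast_nonneg _
    linarith
  have p2 : (0 : ℝ) < 1 + (nm (v - y) : ℝ) := by
    have g2 : (0 : ℝ) ≤ nm (v - y) := Nat.cast_nonneg _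
    linarith
  unfold kr
  rw [mul_one_div, div_le_div_iff₀ (by positivity) (by positivity), one_mul, ← mul_pow]
  exact pow_le_pow_left₀ p1.le e2 _

theorem g_bd (r0 : ℕ) (hr0 : 1 ≤ r0) : ∃ G1 : ℝ, 0 < G1 ∧ ∀ (N1 N2 : ℕ) (ηr : ℝ)
    (F A' T : Finset (V d)) (base : V d → V d), ηr ≤ 1 → A' ⊆ F →
    (∀ v ∈ T, base v ∈ RegA r0 N1 ηr F A' ∧ nm (v - base v) ≤ r0) → 2 * N2 + 2 * r0 ≤ N1 →
    ∀ y : V d, ∑ v ∈ T.filter (fun v => nm (v - y) ≤ N2), kr (v - y) ≤ G1 := by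
  classical
  refine ⟨(2 * (3 * (r0 : ℝ) + 1)) ^ (d - 2) * (2 ^ d * (1 + (r0 : ℝ)) ^ d), by positivity,
    fun N1 N2 ηr F A' T base hη hAF hT hN y => ?_⟩
  set Ty := T.filter (fun v => nm (v - y) ≤ N2) with hTy
  rcases Ty.eq_empty_or_nonempty with h0 | hne
  · rw [h0, Finset.sum_empty]
    positivity
  obtain ⟨v1, hv1, hmin⟩ := Finset.exists_min_image Ty (fun v => nm (v - y)) hne
  have hv1' := Finset.mem_filter.1 hv1
  have hb1 := hT v1 hv1'.1
  set f : V d → ℝ := fun u => 1 / ((r0 : ℝ) + nm (u - base v1)) ^ (d - 2) with hf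
  have hf0 : ∀ u, 0 ≤ f u := fun u => by rw [hf]; positivity
  have h1 : ∑ v ∈ Ty, kr (v - y) ≤ (2 * (3 * (r0 : ℝ) + 1)) ^ (d - 2) * ∑ v ∈ Ty, f (base v) := by
    rw [Finset.mul_sum]
    refine Finset.sum_le_sum fun v hv => ?_
    have hv' := Finset.mem_filter.1 hv
    exact GBd_term hr0 v v1 y (base v) (base v1) (hmin v hv) (hT v hv'.1).2 hb1.2
  have hreg := Finset.mem_filter.1 hb1.1
  set Fy := F.filter (fun w => nm (w - base v1) ≤ N1) with hFy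
  have hmaps : ∀ v ∈ Ty, base v ∈ Fy := by
    intro v hv
    have hv' := Finset.mem_filter.1 hv
    have hb := hT v hv'.1
    rw [hFy, Finset.mem_filter]
    refine ⟨hAF (Finset.mem_filter.1 hb.1).1, ?_⟩
    have g1 := nm_tri (base v) v (base v1)
    have g2 := nm_tri v v1 (base v1)
    have g3 := nm_tri v y v1
    rw [nm_sub_comm y v1] at g3
    rw [nm_sub_comm (base v) v] at g1
    have g4 := hb.2
    have g5 := hb1.2
    have g6 := hv'.2
    have g7 := hv1'.2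
    omega
  have h2 : ∑ v ∈ Ty, f (base v) ≤ ∑ u ∈ Fy, (2 ^ d * (1 + (r0 : ℝ)) ^ d) * f u := by
    rw [← Finset.sum_fiberwise_of_maps_to hmaps]
    refine Finset.sum_le_sum fun u _ => ?_
    have e1 : ∑ v ∈ Ty.filter (fun v => base v = u), f (base v) =
        ((Ty.filter (fun v => base v = u)).card : ℝ) * f u := by
      rw [← nsmul_eq_mul, ← Finset.sum_const]
      refine Finset.sum_congr rfl fun v hv => ?_
      rw [(Finset.mem_filter.1 hv).2]
    rw [e1]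
    refine mul_le_mul_of_nonneg_right ?_ (hf0 u)
    refine le_trans ?_ (SumK_card u r0)
    exact_mod_cast Finset.card_le_card (fun v hv => by
      rw [mem_BF]
      have g1 := Finset.mem_filter.1 hv
      have g2 := (hT v (Finset.mem_filter.1 g1.1).1).2
      rwa [g1.2] at g2)
  have h3 : ∑ u ∈ Fy, f u ≤ 1 := le_trans hreg.2.2 hη
  have hc : (0 : ℝ) ≤ 2 ^ d * (1 + (r0 : ℝ)) ^ d := by positivity
  calc ∑ v ∈ Ty, kr (v - y)
      ≤ (2 * (3 * (r0 : ℝ) + 1)) ^ (d - 2) * ∑ v ∈ Ty, f (base v) := h1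
    _ ≤ (2 * (3 * (r0 : ℝ) + 1)) ^ (d - 2) * ((2 ^ d * (1 + (r0 : ℝ)) ^ d) * 1) := by
        refine mul_le_mul_of_nonneg_left ?_ (by positivity)
        refine h2.trans ?_
        rw [← Finset.mul_sum]
        exact mul_le_mul_of_nonneg_left h3 hc
    _ = _ := by rw [mul_one]

end H95LBS
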