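import Pool.Agent.H95.LBS.PenLaw
import Pool.Agent.H95.LBD.Russo
import Pool.Agent.H95.LBD.RussoP

/-!
PROJECT DS (MP_0d9ad5_pr), JOB DS-RussoG. Russo's formula for the inhomogeneous environment.
PROOF. The event depends on finitely many edges `F`: its probability is a finite sum over `F → Bool` of
`∏ e, g (a e) (q e)` with `q e = 1 - (1 - α e)(1 - t)`; as in `russo_fin` (LBD/Russo) and `russo_perc`
(LBD/RussoP), with `d/dt q e = 1 - α e`. `nc_deriv`: for `NCn B A A'` (decreasing, depends on `EB B`):
`{update e true in NCn} ⊆ {update e false in NCn}`, the difference is the event `e pivotal`, independent of the state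
of `e`, and `P(e closed) = (1 - α e)(1 - t) <= 1 - α e`.
-/

namespace H95LBS

open H5DF H95LBD MeasureTheory

variable {d : ℕ}

section Fin

variable {ι : Type*} [Fintype ι] [DecidableEq ι]

/-- The weight of a configuration of a finite inhomogeneous product. -/
def RussoG_wt (x : ι → ℝ) (ω : ι → Bool) : ℝ := ∏ i, (if ω i then x i else 1 - x i)

/-- The probability of an event in a finite inhomogeneous product. -/
noncomputable def RussoG_pr (x : ι → ℝ) (S : (ι → Bool) → Prop) : ℝ :=
  ∑ ω : ι → Bool, RussoG_wt x ω * ind (S ω)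

/-- The weight without the coordinate `i`. -/
def RussoG_W (x : ι → ℝ) (i : ι) (ω : ι → Bool) : ℝ :=
  ∏ j ∈ Finset.univ.erase i, (if ω j then x j else 1 - x j)

lemma RussoG_W_flip (x : ι → ℝ) (i : ι) (ω : ι → Bool) :
    RussoG_W x i (russoFlip i ω) = RussoG_W x i ω := by
  unfold RussoG_W russoFlip
  refine Finset.prod_congr rfl fun j hj => ?_
  rw [Function.update_of_ne (Finset.ne_of_mem_erase hj)]

lemma RussoG_wt_eq (x : ι → ℝ) (i : ι) (ω : ι → Bool) :
    RussoG_wt x ω = (if ω i then x i else 1 - x i) * RussoG_W x i ω := by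
  unfold RussoG_wt RussoG_W
  exact (Finset.mul_prod_erase Finset.univ (fun j => if ω j then x j else 1 - x j)
    (Finset.mem_univ i)).symm

lemma RussoG_wt_nonneg {x : ι → ℝ} (hx : ∀ i, 0 ≤ x i ∧ x i ≤ 1) (ω : ι → Bool) :
    0 ≤ RussoG_wt x ω := by
  unfold RussoG_wt
  refine Finset.prod_nonneg fun i _ => ?_
  have h := hx i
  split_ifs
  · exact h.1
  · linarith [h.2]

lemma RussoG_wt_deriv (x : ℝ → ι → ℝ) (c : ι → ℝ) (t : ℝ)
    (hx : ∀ i, HasDerivAt (fun q => x q i) (c i) t) (ω : ι → Bool) :
    HasDerivAt (fun q => RussoG_wt (x q) ω)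
      (∑ i, RussoG_W (x t) i ω * (if ω i then c i else -c i)) t := by
  have h := HasDerivAt.fun_finsetProd (u := Finset.univ)
    (f := fun (j : ι) (q : ℝ) => if ω j then x q j else 1 - x q j)
    (f' := fun j => if ω j then c j else -c j) (x := t) (fun j _ => by
      rcases hj : ω j with _ | _
      · simpa using (hx j).const_sub 1
      · simpa using hx j)
  unfold RussoG_wt RussoG_W
  simpa [smul_eq_mul] using h

lemma RussoG_term (x c : ι → ℝ) (i : ι) (f : (ι → Bool) → ℝ) :
    ∑ ω, RussoG_W x i ω * (if ω i then c i else -c i) * f ω =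
      ∑ ω, RussoG_wt x ω *
        (c i * (f (Function.update ω i true) - f (Function.update ω i false))) := by
  refine russo_pair i _ _ fun ω => ?_
  rw [RussoG_wt_eq x i ω, RussoG_wt_eq x i (russoFlip i ω), RussoG_W_flip]
  have hu : ∀ b, Function.update (russoFlip i ω) i b = Function.update ω i b := fun b => by
    unfold russoFlip
    simp
  rw [hu, hu]
  have hfi : russoFlip i ω i = !ω i := by
    unfold russoFlip
    simp
  rw [hfi]
  rcases hj : ω i with _ | _
  · have h1 : Function.update ω i false = ω := by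
      rw [← hj]; exact Function.update_eq_self i ω
    have h2 : russoFlip i ω = Function.update ω i true := by
      unfold russoFlip; rw [hj]; rfl
    rw [h1, h2]
    simp only [Bool.not_false, if_true]
    norm_num
    ring
  · have h1 : Function.update ω i true = ω := by
      rw [← hj]; exact Function.update_eq_self i ω
    have h2 : russoFlip i ω = Function.update ω i false := by
      unfold russoFlip; rw [hj]; rfl
    rw [h1, h2]
    simp only [Bool.not_true, if_true]
    norm_num
    ring

theorem RussoG_fin (S : (ι → Bool) → Prop) (x : ℝ → ι → ℝ) (c : ι → ℝ) (t : ℝ)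
    (hx : ∀ i, HasDerivAt (fun q => x q i) (c i) t) :
    HasDerivAt (fun q => RussoG_pr (x q) S)
      (∑ i, c i * (RussoG_pr (x t) (fun ω => S (Function.update ω i true)) -
        RussoG_pr (x t) (fun ω => S (Function.update ω i false)))) t := by
  have h : HasDerivAt (fun q => RussoG_pr (x q) S)
      (∑ ω, (∑ i, RussoG_W (x t) i ω * (if ω i then c i else -c i)) * ind (S ω)) t := by
    unfold RussoG_pr
    exact HasDerivAt.fun_sum fun ω _ => (RussoG_wt_deriv x c t hx ω).mul_const _
  have e : (∑ ω, (∑ i, RussoG_W (x t) i ω * (if ω i then c i else -c i)) * ind (S ω)) =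
      ∑ i, c i * (RussoG_pr (x t) (fun ω => S (Function.update ω i true)) -
        RussoG_pr (x t) (fun ω => S (Function.update ω i false))) := by
    simp only [Finset.sum_mul]
    rw [Finset.sum_comm]
    refine Finset.sum_congr rfl fun i _ => ?_
    rw [RussoG_term (x t) c i (fun ω => ind (S ω))]
    unfold RussoG_pr
    rw [← Finset.sum_sub_distrib, Finset.mul_sum]
    exact Finset.sum_congr rfl fun ω _ => by ring
  rw [← e]
  exact h

lemma RussoG_pi_eq {x : ι → ℝ} (hx : ∀ i, 0 ≤ x i ∧ x i ≤ 1) (S : Set (ι → Bool)) :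
    (Measure.infinitePi fun i : ι => bern (x i)) S =
      ENNReal.ofReal (RussoG_pr x (fun ω => ω ∈ S)) := by
  classical
  have := fun i => isProb_bern (hx i).1 (hx i).2
  rw [Measure.infinitePi_eq_pi]
  have hS : S = ((Finset.univ.filter (fun ω => ω ∈ S) : Finset (ι → Bool)) : Set (ι → Bool)) := by
    ext ω; simp
  conv_lhs => rw [hS]
  rw [← sum_measure_singleton, Finset.sum_filter]
  unfold RussoG_pr
  rw [ENNReal.ofReal_sum_of_nonneg]
  · refine Finset.sum_congr rfl fun ω _ => ?_
    by_cases hω : ω ∈ S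
    · simp only [hω, if_true]
      rw [Measure.pi_singleton, ind_t trivial, mul_one]
      unfold RussoG_wt
      rw [ENNReal.ofReal_prod_of_nonneg]
      · refine Finset.prod_congr rfl fun i _ => ?_
        cases h : ω i <;> simp [bern]
      · intro i _
        split_ifs
        · exact (hx i).1
        · linarith [(hx i).2]
    · simp only [hω, if_false]
      rw [ind_f not_false]; simp
  · intro ω _
    exact mul_nonneg (RussoG_wt_nonneg hx ω) (ind_nonneg _)

end Fin

lemma RussoG_dens {a q : ℝ} (ha : 0 ≤ a ∧ a ≤ 1) (h0 : 0 ≤ q) (h1 : q ≤ 1) :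
    0 ≤ 1 - (1 - a) * (1 - q) ∧ 1 - (1 - a) * (1 - q) ≤ 1 := by
  have h2 : 0 ≤ 1 - a := by linarith [ha.2]
  have h3 : 0 ≤ 1 - q := by linarith
  have h4 : (1 - a) * (1 - q) ≤ 1 := by nlinarith [ha.1]
  have h5 : 0 ≤ (1 - a) * (1 - q) := mul_nonneg h2 h3
  exact ⟨by linarith, by linarith⟩

lemma RussoG_real (F : Finset (Ed d)) (A : Set (Cfg d))
    (hdep : ∀ ω ω' : Cfg d, (∀ e ∈ F, ω e = ω' e) → (ω ∈ A → ω' ∈ A)) (α : Ed d → ℝ)
    (hα : In01 α) (q : ℝ) (h0 : 0 ≤ q) (h1 : q ≤ 1) :
    (pen α q).real A = RussoG_pr (fun e : F => 1 - (1 - α e.1) * (1 - q))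
      (fun a : F → Bool => RussoP_ext F a ∈ A) := by
  classical
  have hx : ∀ e, 0 ≤ 1 - (1 - α e) * (1 - q) ∧ 1 - (1 - α e) * (1 - q) ≤ 1 :=
    fun e => RussoG_dens (hα e) h0 h1
  have hbp := fun e => isProb_bern (hx e).1 (hx e).2
  have hmap := Measure.infinitePi_map_restrict (μ := fun e : Ed d => bern (1 - (1 - α e) * (1 - q)))
    (I := F)
  rw [← Measure.infinitePi_eq_pi] at hmap
  have hmeas : ∀ S : Set (F → Bool), MeasurableSet S := fun S => S.toFinite.measurableSet
  have hrm : Measurable (F.restrict : Cfg d → (F → Bool)) := Set.measurable_restrict _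
  have hpre : A = F.restrict ⁻¹' {a : F → Bool | RussoP_ext F a ∈ A} := by
    ext ω
    constructor
    · intro h
      exact hdep _ _ (fun e he => (RussoP_ext_restrict F ω e he).symm) h
    · intro h
      exact hdep _ _ (fun e he => RussoP_ext_restrict F ω e he) h
  have h2 : pen α q A = ENNReal.ofReal (RussoG_pr (fun e : F => 1 - (1 - α e.1) * (1 - q))
      (fun a : F → Bool => RussoP_ext F a ∈ A)) := by
    have h3 : pen α q A = (Measure.infinitePi fun e : F => bern (1 - (1 - α e.1) * (1 - q)))
        {a : F → Bool | RussoP_ext F a ∈ A} := by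
      conv_lhs => rw [hpre]
      rw [← hmap, Measure.map_apply hrm (hmeas _)]
      rfl
    rw [h3, RussoG_pi_eq (fun e : F => hx e.1)]
    rfl
  have hnn : 0 ≤ RussoG_pr (fun e : F => 1 - (1 - α e.1) * (1 - q))
      (fun a : F → Bool => RussoP_ext F a ∈ A) := by
    unfold RussoG_pr
    exact Finset.sum_nonneg fun ω _ =>
      mul_nonneg (RussoG_wt_nonneg (fun e : F => hx e.1) ω) (ind_nonneg _)
  rw [Measure.real, h2, ENNReal.toReal_ofReal hnn]

lemma RussoG_dep_update {F : Finset (Ed d)} {A : Set (Cfg d)}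
    (hdep : ∀ ω ω' : Cfg d, (∀ e ∈ F, ω e = ω' e) → (ω ∈ A → ω' ∈ A)) (i : Ed d) (b : Bool) :
    ∀ ω ω' : Cfg d, (∀ e ∈ F, ω e = ω' e) →
      (Function.update ω i b ∈ A → Function.update ω' i b ∈ A) := by
  intro ω ω' h hω
  refine hdep _ _ ?_ hω
  intro e he
  by_cases h' : e = i
  · subst h'
    simp
  · rw [Function.update_of_ne h', Function.update_of_ne h']
    exact h e he

theorem russo_pen (F : Finset (Ed d)) (A : Set (Cfg d))
    (hdep : ∀ ω ω' : Cfg d, (∀ e ∈ F, ω e = ω' e) → (ω ∈ A → ω' ∈ A)) (α : Ed d → ℝ)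
    (hα : In01 α) (t : ℝ) (h0 : 0 < t) (h1 : t < 1) :
    HasDerivAt (fun q => (pen α q).real A)
      (∑ e ∈ F, (1 - α e) * ((pen α t).real {ω | Function.update ω e true ∈ A} -
        (pen α t).real {ω | Function.update ω e false ∈ A})) t := by
  classical
  have hev : (fun q => (pen α q).real A) =ᶠ[nhds t]
      fun q => RussoG_pr (fun e : F => 1 - (1 - α e.1) * (1 - q))
        (fun a : F → Bool => RussoP_ext F a ∈ A) := by
    filter_upwards [Ioo_mem_nhds h0 h1] with q hq
    exact RussoG_real F A hdep α hα q hq.1.le hq.2.le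
  have hr := RussoG_fin (fun a : F → Bool => RussoP_ext F a ∈ A)
    (fun q (e : F) => 1 - (1 - α e.1) * (1 - q)) (fun e : F => 1 - α e.1) t (by
      intro e
      have h2 : HasDerivAt (fun q : ℝ => 1 - (1 - α e.1) * (1 - q))
          (-((1 - α e.1) * (-1))) t :=
        (((hasDerivAt_id' t).const_sub 1).const_mul (1 - α e.1)).const_sub 1
      have h3 : -((1 - α e.1) * (-1 : ℝ)) = 1 - α e.1 := by ring
      rwa [h3] at h2)
  have hsum : (∑ i : F, (1 - α i.1) *
        (RussoG_pr (fun e : F => 1 - (1 - α e.1) * (1 - t))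
          (fun ω => RussoP_ext F (Function.update ω i true) ∈ A) -
        RussoG_pr (fun e : F => 1 - (1 - α e.1) * (1 - t))
          (fun ω => RussoP_ext F (Function.update ω i false) ∈ A))) =
      ∑ e ∈ F, (1 - α e) * ((pen α t).real {ω | Function.update ω e true ∈ A} -
        (pen α t).real {ω | Function.update ω e false ∈ A}) := by
    rw [← Finset.sum_coe_sort F]
    refine Finset.sum_congr rfl fun i _ => ?_
    have hb : ∀ b : Bool, (pen α t).real {ω : Cfg d | Function.update ω i.1 b ∈ A} =
        RussoG_pr (fun e : F => 1 - (1 - α e.1) * (1 - t))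
          (fun ω => RussoP_ext F (Function.update ω i b) ∈ A) := by
      intro b
      rw [RussoG_real F {ω : Cfg d | Function.update ω i.1 b ∈ A} (RussoG_dep_update hdep i.1 b)
        α hα t h0.le h1.le]
      refine congrArg (RussoG_pr _) ?_
      funext a
      rw [← RussoP_ext_update F a i b]
      rfl
    rw [hb true, hb false]
  rw [← hsum]
  exact hr.congr_of_eventuallyEq hev

lemma RussoG_NCn_dep (B A A' : Finset (V d)) (ω ω' : Cfg d)
    (h : ∀ e ∈ EB B, ω e = ω' e) (hω : ω ∈ NCn B A A') : ω' ∈ NCn B A A' := by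
  intro x hx y hy hc
  exact hω x hx y hy (hc.congr fun e he => (h e (mem_EB.2 he)).symm)

lemma RussoG_NCn_dec {B A A' : Finset (V d)} {ω ω' : Cfg d}
    (h : ∀ e, ω e = true → ω' e = true) (hω : ω' ∈ NCn B A A') : ω ∈ NCn B A A' := by
  intro x hx y hy hc
  exact hω x hx y hy (hc.mono (fun _ h => h) h)

theorem nc_deriv (B A A' : Finset (V d)) (α : Ed d → ℝ) (hα : In01 α) (t : ℝ) (h0 : 0 < t)
    (h1 : t < 1) : ∃ f' : ℝ, HasDerivAt (fun q => (pen α q).real (NCn B A A')) f' t ∧
      f' ≤ -∑ e ∈ EB B, (pen α t).real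
        {ω | ω ∈ NCn B A A' ∧ ω e = false ∧ Function.update ω e true ∉ NCn B A A'} := by
  classical
  have hdep := RussoG_NCn_dep B A A'
  refine ⟨_, russo_pen (EB B) (NCn B A A') hdep α hα t h0 h1, ?_⟩
  have hpr := isProb_pen (d := d) hα h0.le h1.le
  rw [← Finset.sum_neg_distrib]
  refine Finset.sum_le_sum fun e _ => ?_
  -- the pivotal event
  set P : Set (Cfg d) := {ω | Function.update ω e false ∈ NCn B A A' ∧
    Function.update ω e true ∉ NCn B A A'} with hP
  have hm1 : MeasurableSet {ω : Cfg d | Function.update ω e true ∈ NCn B A A'} :=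
    meas_dep1 (EB B) _ (RussoG_dep_update hdep e true)
  have hm0 : MeasurableSet {ω : Cfg d | Function.update ω e false ∈ NCn B A A'} :=
    meas_dep1 (EB B) _ (RussoG_dep_update hdep e false)
  have hPm : MeasurableSet P := hm0.inter hm1.compl
  have hsub : {ω : Cfg d | Function.update ω e true ∈ NCn B A A'} ⊆
      {ω | Function.update ω e false ∈ NCn B A A'} := by
    intro ω hω
    refine RussoG_NCn_dec (fun e' he' => ?_) hω
    by_cases h : e' = e
    · subst h
      simp
    · rw [Function.update_of_ne h] at he' ⊢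
      exact he'
  have hdiff : (pen α t).real {ω : Cfg d | Function.update ω e false ∈ NCn B A A'} -
      (pen α t).real {ω | Function.update ω e true ∈ NCn B A A'} = (pen α t).real P := by
    have h2 : P = {ω : Cfg d | Function.update ω e false ∈ NCn B A A'} \
        {ω | Function.update ω e true ∈ NCn B A A'} := rfl
    rw [h2, measureReal_diff hsub hm1]
  have hset : {ω : Cfg d | ω ∈ NCn B A A' ∧ ω e = false ∧
      Function.update ω e true ∉ NCn B A A'} = {ω | ω e = false} ∩ P := by
    ext ω
    simp only [Set.mem_ofPred_eq, Set.mem_inter_iff, hP]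
    constructor
    · rintro ⟨a, b, c⟩
      refine ⟨b, ?_, c⟩
      rw [← b, Function.update_eq_self]
      exact a
    · rintro ⟨b, a, c⟩
      rw [← b, Function.update_eq_self] at a
      exact ⟨a, b, c⟩
  have hcl : MeasurableSet {ω : Cfg d | ω e = false} :=
    measurableSet_eq_fun (measurable_pi_apply e) measurable_const
  have hind : (pen α t).real ({ω : Cfg d | ω e = false} ∩ P) =
      (pen α t).real {ω : Cfg d | ω e = false} * (pen α t).real P := by
    refine indep_pen hα h0.le h1.le {e} _ P hcl hPm ?_ ?_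
    · intro ω ω' h hω
      have h2 : ω e = ω' e := h e rfl
      simpa [h2] using hω
    · intro ω ω' h hω
      have h2 : ∀ b : Bool, Function.update ω e b = Function.update ω' e b := by
        intro b
        funext e'
        by_cases h' : e' = e
        · subst h'
          simp
        · rw [Function.update_of_ne h', Function.update_of_ne h']
          exact h e' h'
      simp only [hP, Set.mem_ofPred_eq] at hω ⊢
      rw [← h2, ← h2]
      exact hω
  have hclosed : (pen α t).real {ω : Cfg d | ω e = false} = (1 - α e) * (1 - t) := by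
    have h2 : {ω : Cfg d | ω e = false} = {ω : Cfg d | ω e = true}ᶜ := by
      ext ω
      simp
    have h3 : MeasurableSet {ω : Cfg d | ω e = true} :=
      measurableSet_eq_fun (measurable_pi_apply e) measurable_const
    rw [h2, probReal_compl_eq_one_sub h3, pen_edge hα h0.le h1.le]
    ring
  rw [hset, hind, hclosed]
  have hPn : 0 ≤ (pen α t).real P := measureReal_nonneg
  have hα1 : 0 ≤ 1 - α e := by linarith [(hα e).2]
  have h4 : (1 - α e) * ((pen α t).real {ω | Function.update ω e true ∈ NCn B A A'} -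
      (pen α t).real {ω | Function.update ω e false ∈ NCn B A A'}) =
      -((1 - α e) * (pen α t).real P) := by
    rw [← hdiff]
    ring
  rw [h4]
  have h5 : (1 - α e) * (1 - t) * (pen α t).real P ≤ (1 - α e) * (pen α t).real P := by
    refine mul_le_mul_of_nonneg_right ?_ hPn
    nlinarith
  linarith

end H95LBS
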