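import Pool.Agent.H95.LBS.PenHub
import Pool.Agent.H95.LBS.RussoG

/-!
PROJECT DS (MP_0d9ad5_pr), JOB DS-PenExp. Exponential bound for no connection.
PROOF. `f q := (pen α q).real (NCn B A A')`: by `nc_deriv` and `pen_hub`, `f' <= -φ f` on `[t1,t2]` (both inside
`(0,1)`); `q ↦ f q * exp (φ q)` is antitone (`antitoneOn_of_deriv_nonpos`), `f t1 <= 1`.
-/

namespace H95LBS

open H5DF H95LBD MeasureTheory

variable {d : ℕ}

theorem pen_exp (B A A' : Finset (V d)) (hA : A ⊆ B) (hA' : A' ⊆ B) (α : Ed d → ℝ)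
    (hα : In01 α) (t1 t2 φ : ℝ) (h0 : 0 < t1) (h12 : t1 ≤ t2) (h1 : t2 < 1)
    (hφ : ∀ t ∈ Set.Icc t1 t2, ∀ S : Finset (V d), A ⊆ S → S ⊆ B → Disjoint S A' →
      φ ≤ ∑ b ∈ bdI B S, (pen α t).real (SCn A (S : Set (V d)) b.1)) :
    (pen α t2).real (NCn B A A') ≤ Real.exp (-(φ * (t2 - t1))) := by
  have key : ∀ t ∈ Set.Icc t1 t2, ∃ f' : ℝ,
      HasDerivAt (fun q => (pen α q).real (NCn B A A')) f' t ∧
        f' ≤ -(φ * (pen α t).real (NCn B A A')) := by
    intro t ht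
    obtain ⟨f', hd, hle⟩ := nc_deriv B A A' α hα t (lt_of_lt_of_le h0 ht.1)
      (lt_of_le_of_lt ht.2 h1)
    refine ⟨f', hd, hle.trans ?_⟩
    have h2 := pen_hub B A A' hA hA' α hα t φ (h0.le.trans ht.1) (ht.2.trans h1.le) (hφ t ht)
    linarith
  set f : ℝ → ℝ := fun q => (pen α q).real (NCn B A A') with hf
  have hg : ∀ t ∈ Set.Icc t1 t2, ∃ g' : ℝ,
      HasDerivAt (fun q => f q * Real.exp (φ * (q - t1))) g' t ∧ g' ≤ 0 := by
    intro t ht
    obtain ⟨f', hd, hle⟩ := key t ht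
    have h2 : HasDerivAt (fun q : ℝ => Real.exp (φ * (q - t1)))
        (Real.exp (φ * (t - t1)) * (φ * 1)) t :=
      (((hasDerivAt_id t).sub_const t1).const_mul φ).exp
    refine ⟨_, hd.mul h2, ?_⟩
    have hpos := Real.exp_pos (φ * (t - t1))
    have h3 : f' * Real.exp (φ * (t - t1)) + f t * (Real.exp (φ * (t - t1)) * (φ * 1)) =
        (f' + φ * f t) * Real.exp (φ * (t - t1)) := by ring
    have h4 : f' + φ * f t ≤ 0 := by
      have : f' ≤ -(φ * f t) := hle
      linarith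
    calc _ = (f' + φ * f t) * Real.exp (φ * (t - t1)) := h3
      _ ≤ 0 := mul_nonpos_of_nonpos_of_nonneg h4 hpos.le
  have hanti : AntitoneOn (fun q => f q * Real.exp (φ * (q - t1))) (Set.Icc t1 t2) := by
    refine antitoneOn_of_deriv_nonpos (convex_Icc t1 t2) ?_ ?_ ?_
    · intro t ht
      obtain ⟨g', hd, -⟩ := hg t ht
      exact hd.continuousAt.continuousWithinAt
    · intro t ht
      obtain ⟨g', hd, -⟩ := hg t (interior_subset ht)
      exact hd.differentiableAt.differentiableWithinAt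
    · intro t ht
      obtain ⟨g', hd, hle⟩ := hg t (interior_subset ht)
      rw [hd.deriv]
      exact hle
  have h5 := hanti (Set.left_mem_Icc.2 h12) (Set.right_mem_Icc.2 h12) h12
  simp only [sub_self, mul_zero, Real.exp_zero, mul_one] at h5
  have h6 : f t1 ≤ 1 := by
    have := isProb_pen (d := d) hα h0.le (h12.trans h1.le)
    exact measureReal_le_one
  have h7 : f t2 * Real.exp (φ * (t2 - t1)) ≤ 1 := h5.trans h6
  have h8 := Real.exp_pos (-(φ * (t2 - t1)))
  have h9 : Real.exp (φ * (t2 - t1)) * Real.exp (-(φ * (t2 - t1))) = 1 := by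
    rw [← Real.exp_add]
    simp
  calc f t2 = f t2 * Real.exp (φ * (t2 - t1)) * Real.exp (-(φ * (t2 - t1))) := by
        rw [mul_assoc, h9, mul_one]
    _ ≤ 1 * Real.exp (-(φ * (t2 - t1))) := mul_le_mul_of_nonneg_right h7 h8.le
    _ = Real.exp (-(φ * (t2 - t1))) := one_mul _

end H95LBS
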