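import Pool.Agent.H95.LBS.PenLaw

/-!
PROJECT DS (MP_0d9ad5_pr), JOB DS-PenHub. Exploration of the cluster of `A'` (section 5a of note 2700).
PROOF. For `ω ∈ NCn B A A'` let `S*(ω)` be the set of points of `B` not connected to `A'` inside `B`: it
contains `A` and misses `A'`, and all edges of `bdI B S*` are closed. If `b ∈ bdI B S*` and `A <-> b.1` inside
`S*` then the edge `edge b.1 b.2` is closed and pivotal; `b ↦ edge b.1 b.2` is injective on `bdI`. The event
`{S* = S}` depends on the edges with an end in `B \ S`, the event `SCn A S b.1` on the edges inside `S`: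
independent (`indep_pen`). Sum over the finitely many `S`.
-/

namespace H95LBS

open H5DF H95LBD MeasureTheory

variable {d : ℕ}

/-- The points of `B` not connected to `A'` inside `B`. -/
def PenHub_far (B A' : Finset (V d)) (ω : Cfg d) : Set (V d) :=
  {x | x ∈ B ∧ ∀ y ∈ A', ¬ Cn (B : Set (V d)) ω x y}

lemma PenHub_meas_far (B A' : Finset (V d)) (S : Set (V d)) :
    MeasurableSet {ω : Cfg d | PenHub_far B A' ω = S} := by
  have h1 : ∀ x : V d, MeasurableSet {ω : Cfg d | x ∈ PenHub_far B A' ω} := by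
    intro x
    have h : {ω : Cfg d | x ∈ PenHub_far B A' ω} = {_ω : Cfg d | x ∈ B} ∩ ⋂ y : V d,
        ⋂ _ : y ∈ A', {ω : Cfg d | Cn (B : Set (V d)) ω x y}ᶜ := by
      ext ω
      simp only [PenHub_far, Set.mem_iInter, Set.mem_compl_iff, Set.mem_ofPred_eq,
        Set.mem_inter_iff]
    rw [h]
    exact (MeasurableSet.const _).inter (MeasurableSet.iInter fun y =>
      MeasurableSet.iInter fun _ => (meas_Cn _ x y).compl)
  have h2 : {ω : Cfg d | PenHub_far B A' ω = S} = ⋂ x : V d,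
      ({ω : Cfg d | x ∈ PenHub_far B A' ω} ∩ {_ω : Cfg d | x ∈ S}) ∪
        ({ω : Cfg d | x ∈ PenHub_far B A' ω}ᶜ ∩ {_ω : Cfg d | x ∉ S}) := by
    ext ω
    simp only [Set.mem_iInter, Set.mem_union, Set.mem_inter_iff, Set.mem_compl_iff,
      Set.mem_ofPred_eq]
    constructor
    · intro h x
      rw [h]
      tauto
    · intro h
      ext x
      have := h x
      tauto
  rw [h2]
  exact MeasurableSet.iInter fun x => ((h1 x).inter (MeasurableSet.const _)).union
    ((h1 x).compl.inter (MeasurableSet.const _))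

lemma PenHub_meas_NCn (B A A' : Finset (V d)) : MeasurableSet (NCn B A A' : Set (Cfg d)) := by
  have h : (NCn B A A' : Set (Cfg d)) = ⋂ x : V d, ⋂ _ : x ∈ A, ⋂ y : V d, ⋂ _ : y ∈ A',
      {ω : Cfg d | Cn (B : Set (V d)) ω x y}ᶜ := by
    ext ω
    simp only [NCn, Set.mem_iInter, Set.mem_compl_iff, Set.mem_ofPred_eq]
  rw [h]
  exact MeasurableSet.iInter fun x => MeasurableSet.iInter fun _ => MeasurableSet.iInter fun y =>
    MeasurableSet.iInter fun _ => (meas_Cn _ x y).compl

/-- An open edge of `B` starting in `far` ends in `far`. -/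
lemma PenHub_step (B A' : Finset (V d)) (ω : Cfg d) (x : V d) (s : Dir d)
    (hx : x ∈ PenHub_far B A' ω) (hs : x + step s ∈ B) (ho : ω (edge x s) = true) :
    x + step s ∈ PenHub_far B A' ω := by
  refine ⟨hs, fun y hy hc => ?_⟩
  refine hx.2 y hy (Cn.trans (Cn.one ho ?_ ?_) hc)
  · exact_mod_cast hx.1
  · exact_mod_cast hs

/-- `{far = S}` does not depend on the edges inside `S`. -/
lemma PenHub_far_dep (B A' : Finset (V d)) (S : Set (V d)) (ω ω' : Cfg d)
    (h : ∀ e, e ∉ ins S → ω e = ω' e) (hω : PenHub_far B A' ω = S) :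
    PenHub_far B A' ω' = S := by
  -- the points of `S` are connected to points of `S` only, in `ω'`
  have hcl' : ∀ x ∈ S, ∀ y, Cn (B : Set (V d)) ω' x y → y ∈ S := by
    intro x hx y hy
    refine Cn.ind (fun y => y ∈ S) hx ?_ hy
    intro y s _ hyS hyB hsB ho
    by_contra hc
    have ho' : ω (edge y s) = true := by
      rw [h _ (fun he => hc (edge_mem_ins.1 he).2)]
      exact ho
    apply hc
    rw [← hω] at hyS ⊢
    exact PenHub_step B A' ω y s hyS (by exact_mod_cast hsB) ho'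
  ext x
  constructor
  · intro hx
    by_contra hxS
    have hx1 : x ∉ PenHub_far B A' ω := by
      rw [hω]
      exact hxS
    have hx2 : ∃ y ∈ A', Cn (B : Set (V d)) ω x y := by
      by_contra hc
      push Not at hc
      exact hx1 ⟨hx.1, hc⟩
    obtain ⟨y, hy, hyx⟩ := hx2
    refine hx.2 y hy ?_
    have hoff : ∀ z, Cn (B : Set (V d)) ω x z → z ∉ S := by
      intro z hz hzS
      rw [← hω] at hzS
      exact hzS.2 y hy (Cn.trans (Cn.symm hz) hyx)
    refine Cn.ind (fun y => Cn (B : Set (V d)) ω' x y) (Cn.refl _ _ _) ?_ hyx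
    intro z s hz hz' hzB hsB ho
    refine hz'.trans (Cn.one ?_ hzB hsB)
    rw [← h _ (fun he => hoff z hz (edge_mem_ins.1 he).1)]
    exact ho
  · intro hx
    have hx' : x ∈ PenHub_far B A' ω := by
      rw [hω]
      exact hx
    refine ⟨hx'.1, ?_⟩
    intro y hy hyx
    have h2 := hcl' x hx y hyx
    rw [← hω] at h2
    exact h2.2 y hy (Cn.refl _ _ _)

lemma PenHub_upd {ω : Cfg d} (e0 : Ed d) :
    ∀ e, ω e = true → Function.update ω e0 true e = true := by
  intro e he
  by_cases h : e = e0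
  · rw [h, Function.update_self]
  · rw [Function.update_of_ne h]
    exact he

/-- On `{far = S}`, a boundary edge of `S` reached from `A` inside `S` is closed and pivotal. -/
lemma PenHub_piv (B A A' S : Finset (V d)) (hS : A ⊆ S) (hSB : S ⊆ B) (ω : Cfg d)
    (hω : PenHub_far B A' ω = (S : Set (V d))) (b : V d × Dir d) (hb : b ∈ bdI B S)
    (hc : ω ∈ SCn A (S : Set (V d)) b.1) :
    ω ∈ (NCn B A A' : Set (Cfg d)) ∧ ω (edge b.1 b.2) = false ∧
      Function.update ω (edge b.1 b.2) true ∉ (NCn B A A' : Set (Cfg d)) := by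
  rw [mem_bdI] at hb
  obtain ⟨hb1, hb2, hb3⟩ := hb
  have hb1' : b.1 ∈ PenHub_far B A' ω := by
    rw [hω]
    exact_mod_cast hb1
  have hb3' : b.1 + step b.2 ∉ PenHub_far B A' ω := by
    rw [hω]
    exact_mod_cast hb3
  refine ⟨?_, ?_, ?_⟩
  · intro u hu
    have hu' : u ∈ PenHub_far B A' ω := by
      rw [hω]
      exact_mod_cast hS hu
    exact hu'.2
  · rw [← Bool.not_eq_true]
    intro ho
    exact hb3' (PenHub_step B A' ω _ _ hb1' hb2 ho)
  · intro hH
    obtain ⟨u, hu, hc⟩ := hc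
    have h3 : ∃ y ∈ A', Cn (B : Set (V d)) ω (b.1 + step b.2) y := by
      by_contra hc
      push Not at hc
      exact hb3' ⟨hb2, hc⟩
    obtain ⟨y, hy, hyx⟩ := h3
    refine hH u hu y hy ?_
    have h1 : Cn (B : Set (V d)) (Function.update ω (edge b.1 b.2) true) u b.1 :=
      hc.mono (by exact_mod_cast hSB) (PenHub_upd _)
    have h2 : Cn (B : Set (V d)) (Function.update ω (edge b.1 b.2) true) b.1
        (b.1 + step b.2) :=
      Cn.one (Function.update_self _ _ _) (by exact_mod_cast hb1'.1) (by exact_mod_cast hb2)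
    exact h1.trans (h2.trans (hyx.mono (Set.Subset.refl _) (PenHub_upd _)))

lemma PenHub_inj (B S : Finset (V d)) (b : V d × Dir d) (hb : b ∈ bdI B S) (b' : V d × Dir d)
    (hb' : b' ∈ bdI B S) (h : edge b.1 b.2 = edge b'.1 b'.2) : b = b' := by
  obtain ⟨x, i, v⟩ := b
  obtain ⟨x', i', v'⟩ := b'
  rw [mem_bdI] at hb hb'
  simp only at hb hb'
  cases v <;> cases v' <;>
    simp only [edge, Bool.false_eq_true, if_false, if_true, Prod.mk.injEq] at h
  · obtain ⟨h1, h2⟩ := h
    subst h2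
    rw [add_right_cancel h1]
  · obtain ⟨h1, h2⟩ := h
    subst h2
    exact absurd (h1 ▸ hb'.1) hb.2.2
  · obtain ⟨h1, h2⟩ := h
    subst h2
    exact absurd (h1 ▸ hb.1) hb'.2.2
  · obtain ⟨h1, h2⟩ := h
    subst h1
    subst h2
    rfl

lemma PenHub_indep {α : Ed d → ℝ} (hα : In01 α) {t : ℝ} (h0 : 0 ≤ t) (h1 : t ≤ 1)
    (B A A' S : Finset (V d)) (x : V d) :
    (pen α t).real {ω | PenHub_far B A' ω = (S : Set (V d))} *
        (pen α t).real (SCn A (S : Set (V d)) x) =
      (pen α t).real ({ω | PenHub_far B A' ω = (S : Set (V d))} ∩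
        SCn A (S : Set (V d)) x) := by
  have h := indep_pen hα h0 h1 (ins (S : Set (V d)))
    (SCn A (S : Set (V d)) x) {ω | PenHub_far B A' ω = (S : Set (V d))}
    (meas_SCn _ _ _) (PenHub_meas_far B A' _)
    (by
      rintro ω ω' hω ⟨u, hu, hc⟩
      exact ⟨u, hu, hc.congr hω⟩)
    (fun ω ω' hω hA => PenHub_far_dep B A' _ ω ω' hω hA)
  rw [Set.inter_comm, h, mul_comm]

theorem pen_hub (B A A' : Finset (V d)) (hA : A ⊆ B) (hA' : A' ⊆ B) (α : Ed d → ℝ)
    (hα : In01 α) (t φ : ℝ) (h0 : 0 ≤ t) (h1 : t ≤ 1)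
    (hφ : ∀ S : Finset (V d), A ⊆ S → S ⊆ B → Disjoint S A' →
      φ ≤ ∑ b ∈ bdI B S, (pen α t).real (SCn A (S : Set (V d)) b.1)) :
    φ * (pen α t).real (NCn B A A') ≤ ∑ e ∈ EB B, (pen α t).real
      {ω | ω ∈ NCn B A A' ∧ ω e = false ∧ Function.update ω e true ∉ NCn B A A'} := by
  classical
  have hP : IsProbabilityMeasure (pen α t) := isProb_pen hα h0 h1
  set μ := pen α t with hμ
  let Z : Finset (V d) → Set (Cfg d) := fun S => {ω | PenHub_far B A' ω = (S : Set (V d))}
  let Pv : Ed d → Set (Cfg d) := fun e =>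
    {ω | ω ∈ (NCn B A A' : Set (Cfg d)) ∧ ω e = false ∧
      Function.update ω e true ∉ (NCn B A A' : Set (Cfg d))}
  let F : Finset (Finset (V d)) := B.powerset.filter fun S => A ⊆ S ∧ Disjoint S A'
  have hAm : ∀ S, MeasurableSet (Z S) := fun S => PenHub_meas_far B A' _
  have hPm : ∀ e, MeasurableSet (Pv e) := by
    intro e
    have m0 : Measurable (fun ω : Cfg d => ω e) := measurable_pi_apply e
    have m1 : MeasurableSet {ω : Cfg d | ω e = false} := m0 (measurableSet_singleton false)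
    have m2 : Measurable (fun ω : Cfg d => Function.update ω e true) := measurable_update_left
    have m3 : MeasurableSet {ω : Cfg d | Function.update ω e true ∉ (NCn B A A' : Set (Cfg d))} :=
      (m2 (PenHub_meas_NCn B A A')).compl
    exact (PenHub_meas_NCn B A A').inter (m1.inter m3)
  have hmemF : ∀ S ∈ F, A ⊆ S ∧ S ⊆ B ∧ Disjoint S A' := by
    intro S hS
    have h := Finset.mem_filter.1 hS
    exact ⟨h.2.1, Finset.mem_powerset.1 h.1, h.2.2⟩
  have hcov : ∀ ω ∈ (NCn B A A' : Set (Cfg d)), ∃ S ∈ F, ω ∈ Z S := by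
    intro ω hω
    have hsub : PenHub_far B A' ω ⊆ (B : Set (V d)) := by
      intro x hx
      exact_mod_cast hx.1
    have hfin : (PenHub_far B A' ω).Finite := B.finite_toSet.subset hsub
    refine ⟨hfin.toFinset, ?_, ?_⟩
    · refine Finset.mem_filter.2 ⟨Finset.mem_powerset.2 ?_, ?_, ?_⟩
      · intro x hx
        exact_mod_cast hsub (hfin.mem_toFinset.1 hx)
      · intro x hx
        exact hfin.mem_toFinset.2 ⟨hA hx, hω x hx⟩
      · rw [Finset.disjoint_left]
        intro x hx hxA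
        exact (hfin.mem_toFinset.1 hx).2 x hxA (Cn.refl _ _ _)
    · show PenHub_far B A' ω = _
      rw [Set.Finite.coe_toFinset]
  have hdisj : ∀ S ∈ F, ∀ S' ∈ F, S ≠ S' → Disjoint (Z S) (Z S') := by
    intro S _ S' _ hne
    rw [Set.disjoint_left]
    intro ω h h'
    apply hne
    have : (S : Set (V d)) = (S' : Set (V d)) := h.symm.trans h'
    exact_mod_cast this
  have hdec : ∀ C : Set (Cfg d), MeasurableSet C → C ⊆ (NCn B A A' : Set (Cfg d)) →
      μ.real C = ∑ S ∈ F, μ.real (Z S ∩ C) := by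
    intro C hC hCH
    have hC' : C = ⋃ S ∈ F, (Z S ∩ C) := by
      ext ω
      simp only [Set.mem_iUnion, Set.mem_inter_iff, exists_prop]
      constructor
      · intro h
        obtain ⟨S, hS, hA⟩ := hcov ω (hCH h)
        exact ⟨S, hS, hA, h⟩
      · rintro ⟨S, _, _, h⟩
        exact h
    conv_lhs => rw [hC']
    exact measureReal_biUnion_finset (fun S hS S' hS' hne =>
      (hdisj S hS S' hS' hne).mono Set.inter_subset_left Set.inter_subset_left)
      (fun S _ => (hAm S).inter hC)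
  have hAH : ∀ S ∈ F, Z S ⊆ (NCn B A A' : Set (Cfg d)) := by
    intro S hS ω hω u hu
    have hu' : u ∈ PenHub_far B A' ω := by
      rw [show PenHub_far B A' ω = (S : Set (V d)) from hω]
      exact_mod_cast (hmemF S hS).1 hu
    exact hu'.2
  have hH : μ.real (NCn B A A') = ∑ S ∈ F, μ.real (Z S) := by
    rw [hdec _ (PenHub_meas_NCn B A A') (Set.Subset.refl _)]
    refine Finset.sum_congr rfl fun S hS => ?_
    rw [Set.inter_eq_left.2 (hAH S hS)]
  have hone : ∀ S ∈ F, φ * μ.real (Z S) ≤ ∑ e ∈ EB B, μ.real (Z S ∩ Pv e) := by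
    intro S hS
    obtain ⟨hS1, hS2, hS3⟩ := hmemF S hS
    have h2 : φ * μ.real (Z S) ≤
        (∑ b ∈ bdI B S, μ.real (SCn A (S : Set (V d)) b.1)) * μ.real (Z S) :=
      mul_le_mul_of_nonneg_right (hφ S hS1 hS2 hS3) measureReal_nonneg
    have h3 : (∑ b ∈ bdI B S, μ.real (SCn A (S : Set (V d)) b.1)) * μ.real (Z S) =
        ∑ b ∈ bdI B S, μ.real (Z S ∩ SCn A (S : Set (V d)) b.1) := by
      rw [Finset.sum_mul]
      refine Finset.sum_congr rfl fun b _ => ?_
      rw [mul_comm]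
      exact PenHub_indep hα h0 h1 B A A' S b.1
    have h4 : ∑ b ∈ bdI B S, μ.real (Z S ∩ SCn A (S : Set (V d)) b.1) ≤
        ∑ b ∈ bdI B S, μ.real (Z S ∩ Pv (edge b.1 b.2)) := by
      refine Finset.sum_le_sum fun b hb => ?_
      refine measureReal_mono ?_ (measure_ne_top _ _)
      rintro ω ⟨hZ, hc⟩
      exact ⟨hZ, PenHub_piv B A A' S hS1 hS2 ω hZ b hb hc⟩
    have h5 : ∑ b ∈ bdI B S, μ.real (Z S ∩ Pv (edge b.1 b.2)) =
        ∑ e ∈ (bdI B S).image (fun b => edge b.1 b.2), μ.real (Z S ∩ Pv e) := by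
      rw [Finset.sum_image]
      intro b hb b' hb' h
      exact PenHub_inj B S b hb b' hb' h
    have h6 : (bdI B S).image (fun b => edge b.1 b.2) ⊆ EB B := by
      intro e he
      obtain ⟨b, hb, rfl⟩ := Finset.mem_image.1 he
      rw [mem_bdI] at hb
      refine mem_EB.2 (edge_mem_ins.2 ⟨?_, ?_⟩)
      · exact_mod_cast hS2 hb.1
      · exact_mod_cast hb.2.1
    calc φ * μ.real (Z S) ≤ (∑ b ∈ bdI B S, μ.real (SCn A (S : Set (V d)) b.1)) * μ.real (Z S) := h2
      _ = _ := h3
      _ ≤ _ := h4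
      _ = _ := h5
      _ ≤ _ := Finset.sum_le_sum_of_subset_of_nonneg h6 fun _ _ _ => measureReal_nonneg
  rw [hH, Finset.mul_sum]
  calc ∑ S ∈ F, φ * μ.real (Z S) ≤ ∑ S ∈ F, ∑ e ∈ EB B, μ.real (Z S ∩ Pv e) :=
        Finset.sum_le_sum hone
    _ = ∑ e ∈ EB B, ∑ S ∈ F, μ.real (Z S ∩ Pv e) := Finset.sum_comm
    _ = ∑ e ∈ EB B, μ.real (Pv e) := by
        refine Finset.sum_congr rfl fun e _ => ?_
        exact (hdec (Pv e) (hPm e) (fun ω h => h.1)).symm

end H95LBS
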