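import Pool.Agent.H95.LBS.PenLaw
import Pool.Agent.H95.LBS.Near2
import Pool.Agent.H95.LBS.TreeS
import Pool.Agent.H95.LBS.SumK
import Pool.Agent.H95.LBS.PenHub
import Pool.Agent.H95.LBD.SecMom

/-!
PROJECT DS (MP_0d9ad5_pr), JOB DS-Sec. Second moment (section 5e of note 2700).
PROOF. For `v ∈ T`, `Dv = Bx v N2 \ F` (edges inside it are in `ins (B \ F)`, there `pen α t` is `perc (pn p0 t)`,
`pen_eq`). `N_v = #{b ∈ U : edge b open, Cn Dv (b.1 + step b.2) v}`; `N_v >= 1` implies `SCn A (A ∪ Dv) v`. The edges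
`edge b.1 b.2`, `b ∈ U`, are different (one end in `F`, the other not), open with probability `t` independently of each other
and of the edges inside `B \ F` (`indep_pen`). `E N_v >= t |U| c7` (`perc_mono`). `E N_v^2 <= E N_v +
t^2 ∑_{b ≠ b'} P(Cn Dv a1 v ∧ Cn Dv a2 v)`; `<= ∑_{w ∈ BF v N2} P P P` (`tree_S` with `S = BF v N2` at density `pn p0 t`),
`near_two`: `C kr kr kr(w - v)`. Sum over `v ∈ T` with `w ∈ BF v N2`: `<= G` by `hG` (`y = w`), then `sk2`: `C/(1+nm(a1-a2))^(d-4)`.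
So `∑_v E N_v^2 <= Y + C t^2 G E`, `Y = ∑ E N_v >= X := t |U| |T| c7`. `P(N_v >= 1) E N_v^2 >= (E N_v)^2` and Cauchy-Schwarz:
`Y^2 <= (Y + K) ∑_v P(N_v >= 1)`, `K = C t^2 G E`; `x^2/(x+K)` is increasing.
-/

namespace H95LBS

open H5DF H95LBD MeasureTheory

variable {d : ℕ}

/-- The region of the connections to `v`. -/
def Sec_D (F : Finset (V d)) (v : V d) (N2 : ℕ) : Set (V d) := Bx v N2 \ (F : Set (V d))

/-- The event that the edge `b` is open and its end is connected to `v`. -/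
def Sec_ev (F : Finset (V d)) (v : V d) (N2 : ℕ) (b : V d × Dir d) : Set (Cfg d) :=
  {ω | Cn (Sec_D F v N2) ω (b.1 + step b.2) v} ∩ {ω | ω (edge b.1 b.2) = true}

lemma Sec_meas_edge (e : Ed d) : MeasurableSet {ω : Cfg d | ω e = true} :=
  measurableSet_eq_fun (measurable_pi_apply e) measurable_const

lemma Sec_meas_ev (F : Finset (V d)) (v : V d) (N2 : ℕ) (b : V d × Dir d) :
    MeasurableSet (Sec_ev F v N2 b) :=
  (meas_Cn _ _ _).inter (Sec_meas_edge _)

lemma Sec_edge_out {F : Finset (V d)} {v : V d} {N2 : ℕ} {b : V d × Dir d} (hb : b.1 ∈ F) :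
    edge b.1 b.2 ∉ ins (Sec_D F v N2) := by
  intro h
  exact (edge_mem_ins.1 h).1.2 (Finset.mem_coe.2 hb)

/-- Final inequality. -/
lemma Sec_alg {X Y K S : ℝ} (hX : 0 ≤ X) (hXY : X ≤ Y) (hK : 0 ≤ K) (hS : 0 ≤ S)
    (h : ∀ l : ℝ, 2 * l * Y - l ^ 2 * (Y + K) ≤ S) : X ^ 2 ≤ (X + K) * S := by
  rcases (add_nonneg (hX.trans hXY) hK).eq_or_lt with h0 | h0
  · have hY : Y = 0 := by linarith [hX.trans hXY]
    have hX0 : X = 0 := le_antisymm (hXY.trans hY.le) hX
    rw [hX0]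
    have : 0 ≤ (0 + K) * S := mul_nonneg (by linarith) hS
    linarith
  · have h1 := h (Y / (Y + K))
    have e : 2 * (Y / (Y + K)) * Y - (Y / (Y + K)) ^ 2 * (Y + K) = Y ^ 2 / (Y + K) := by
      have := h0.ne'
      field_simp
      ring
    rw [e, div_le_iff₀ h0] at h1
    have h2 : X ^ 2 * (Y + K) ≤ Y ^ 2 * (X + K) := by
      have h3 : 0 ≤ X * Y * (Y - X) := by
        have := hX.trans hXY
        have := sub_nonneg.2 hXY
        positivity
      have h4 : X ^ 2 ≤ Y ^ 2 := pow_le_pow_left₀ hX hXY 2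
      have h5 := mul_le_mul_of_nonneg_right h4 hK
      nlinarith
    have h6 : X ^ 2 * (Y + K) ≤ ((X + K) * S) * (Y + K) := by
      have h7 := mul_le_mul_of_nonneg_right h1 (add_nonneg hX hK)
      nlinarith
    exact le_of_mul_le_mul_right h6 h0

theorem sec {p0 A cM : ℝ} {M : ℕ} (H : Crit d p0 A cM M) : ∃ κ0 C : ℝ, 0 < κ0 ∧ 0 < C ∧
    ∀ (α : Ed d → ℝ) (t : ℝ) (N2 : ℕ) (B F A T : Finset (V d)) (U : Finset (V d × Dir d))
      (c7 G E : ℝ), In01 α → 0 ≤ t → t ≤ 1 → t * (N2 : ℝ) ^ 2 ≤ κ0 → 0 ≤ c7 → 0 ≤ G → 0 ≤ E →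
      A ⊆ F → F ⊆ B → (∀ v ∈ T, v ∉ F ∧ BF v N2 ⊆ B) →
      (∀ e ∈ ins ((B : Set (V d)) \ F), α e = p0) →
      (∀ b ∈ U, b.1 ∈ A ∧ b.1 + step b.2 ∉ F ∧ b.1 + step b.2 ∈ B ∧ α (edge b.1 b.2) = 0) →
      (∀ b ∈ U, ∀ v ∈ T, c7 ≤ (perc d p0).real
        {ω | Cn (Bx v N2 \ (F : Set (V d))) ω (b.1 + step b.2) v}) →
      (∀ y : V d, ∑ v ∈ T.filter (fun v => nm (v - y) ≤ N2), kr (v - y) ≤ G) →
      ∑ b ∈ U, ∑ b' ∈ U, 1 / (1 + (nm (b.1 + step b.2 - (b'.1 + step b'.2)) : ℝ)) ^ (d - 4) ≤ E →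
      (t * U.card * T.card * c7) ^ 2 ≤ (t * U.card * T.card * c7 + C * t ^ 2 * G * E) *
        ∑ v ∈ T, (pen α t).real (SCn A ((A : Set (V d)) ∪ (Bx v N2 \ (F : Set (V d)))) v) := by
  classical
  obtain ⟨κ0, C, hκ, hC, hnear⟩ := near_two H
  obtain ⟨C2, hC2, h2⟩ := sk2 (d := d) (by have := H.hd; omega)
  refine ⟨κ0, C ^ 3 * C2, hκ, by positivity, ?_⟩
  intro α t N2 B F A T U c7 G E hα h0 h1 htN hc7 hG0 hE0 hAF hFB hT hα0 hU hc hG hE
  have hP := isProb_pen hα h0 h1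
  have hpn0 : 0 ≤ pn p0 t := H.hp0.le.trans (pn_ge H.hp1.le h0)
  have hpn1 : pn p0 t ≤ 1 := pn_le H.hp1.le h1
  have hPn := isProb_perc (d := d) (pn p0 t) hpn0 hpn1
  have hC0 : 0 ≤ C := by linarith
  -- inside the fresh region the environment is percolation
  have hDB : ∀ v ∈ T, ∀ e ∈ ins (Sec_D F v N2), α e = p0 := by
    intro v hv e he
    refine hα0 e ?_
    have hs : Sec_D F v N2 ⊆ (B : Set (V d)) \ F := by
      rintro x ⟨hx, hxF⟩
      refine ⟨?_, hxF⟩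
      have : x ∈ BF v N2 := mem_BF.2 hx
      exact Finset.mem_coe.2 ((hT v hv).2 this)
    exact ⟨hs he.1, hs he.2⟩
  -- one event
  have hone : ∀ v ∈ T, ∀ b ∈ U, t * c7 ≤ (pen α t).real (Sec_ev F v N2 b) := by
    intro v hv b hb
    obtain ⟨hb1, hb2, hb3, hb4⟩ := hU b hb
    have e1 : (pen α t).real (Sec_ev F v N2 b) =
        (pen α t).real {ω | Cn (Sec_D F v N2) ω (b.1 + step b.2) v} *
          (pen α t).real {ω | ω (edge b.1 b.2) = true} := by
      refine indep_pen hα h0 h1 (ins (Sec_D F v N2)) _ _ (meas_Cn _ _ _) (Sec_meas_edge _)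
        (fun ω ω' hω h => Cn.congr h hω) ?_
      intro ω ω' hω h
      have h3 : ω (edge b.1 b.2) = true := h
      rw [hω _ (Sec_edge_out (hAF hb1))] at h3
      exact h3
    have e2 : (pen α t).real {ω | Cn (Sec_D F v N2) ω (b.1 + step b.2) v} =
        (perc d (pn p0 t)).real {ω | Cn (Sec_D F v N2) ω (b.1 + step b.2) v} :=
      pen_eq hα H.hp0.le H.hp1.le h0 h1 _ (hDB v hv) _ (meas_Cn _ _ _)
        (fun ω ω' hω h => Cn.congr h hω)
    have e3 : c7 ≤ (perc d (pn p0 t)).real {ω | Cn (Sec_D F v N2) ω (b.1 + step b.2) v} := by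
      refine (hc b hb v hv).trans ?_
      refine perc_mono H.hp0.le (pn_ge H.hp1.le h0) hpn1 ?_ (meas_Cn _ _ _)
      intro ω ω' h h3
      exact Cn.mono h3 (fun _ h => h) h
    rw [e1, e2, pen_edge hα h0 h1, hb4]
    have e4 : (1 : ℝ) - (1 - 0) * (1 - t) = t := by ring
    rw [e4, mul_comm]
    exact mul_le_mul_of_nonneg_right e3 h0
  -- two events
  have htwo : ∀ v ∈ T, ∀ b ∈ U, ∀ b' ∈ U, b ≠ b' →
      (pen α t).real (Sec_ev F v N2 b ∩ Sec_ev F v N2 b') ≤
        t ^ 2 * ∑ w ∈ BF v N2, C ^ 3 * (kr (w - (b.1 + step b.2)) * kr (w - (b'.1 + step b'.2)) *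
          kr (v - w)) := by
    intro v hv b hb b' hb' hne
    obtain ⟨hb1, hb2, hb3, hb4⟩ := hU b hb
    obtain ⟨hb1', hb2', hb3', hb4'⟩ := hU b' hb'
    have hee : edge b.1 b.2 ≠ edge b'.1 b'.2 := by
      intro h
      exact hne (PenHub_inj B F b (mem_bdI.2 ⟨hAF hb1, hb3, hb2⟩) b'
        (mem_bdI.2 ⟨hAF hb1', hb3', hb2'⟩) h)
    have e0 : Sec_ev F v N2 b ∩ Sec_ev F v N2 b' =
        {ω | Cn (Sec_D F v N2) ω (b.1 + step b.2) v ∧ Cn (Sec_D F v N2) ω (b'.1 + step b'.2) v} ∩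
          ({ω | ω (edge b.1 b.2) = true} ∩ {ω | ω (edge b'.1 b'.2) = true}) := by
      ext ω
      simp only [Sec_ev, Set.mem_inter_iff, Set.mem_ofPred_eq]
      tauto
    have hm : MeasurableSet {ω : Cfg d | Cn (Sec_D F v N2) ω (b.1 + step b.2) v ∧
        Cn (Sec_D F v N2) ω (b'.1 + step b'.2) v} := (meas_Cn _ _ _).inter (meas_Cn _ _ _)
    have e1 : (pen α t).real (Sec_ev F v N2 b ∩ Sec_ev F v N2 b') =
        (pen α t).real {ω | Cn (Sec_D F v N2) ω (b.1 + step b.2) v ∧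
          Cn (Sec_D F v N2) ω (b'.1 + step b'.2) v} *
          (pen α t).real ({ω | ω (edge b.1 b.2) = true} ∩ {ω | ω (edge b'.1 b'.2) = true}) := by
      rw [e0]
      refine indep_pen hα h0 h1 (ins (Sec_D F v N2)) _ _ hm
        ((Sec_meas_edge _).inter (Sec_meas_edge _))
        (fun ω ω' hω h => ⟨Cn.congr h.1 hω, Cn.congr h.2 hω⟩) ?_
      rintro ω ω' hω ⟨h3, h4⟩
      have h3' : ω (edge b.1 b.2) = true := h3
      have h4' : ω (edge b'.1 b'.2) = true := h4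
      rw [hω _ (Sec_edge_out (hAF hb1))] at h3'
      rw [hω _ (Sec_edge_out (hAF hb1'))] at h4'
      exact ⟨h3', h4'⟩
    have e2 : (pen α t).real ({ω | ω (edge b.1 b.2) = true} ∩ {ω | ω (edge b'.1 b'.2) = true}) =
        t ^ 2 := by
      rw [indep_pen hα h0 h1 {edge b.1 b.2} _ _ (Sec_meas_edge _) (Sec_meas_edge _)
        (fun ω ω' hω h => by
          have h3 : ω (edge b.1 b.2) = true := h
          rw [hω _ rfl] at h3
          exact h3)
        (fun ω ω' hω h => by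
          have h3 : ω (edge b'.1 b'.2) = true := h
          rw [hω _ (fun h => hee h.symm)] at h3
          exact h3), pen_edge hα h0 h1, pen_edge hα h0 h1, hb4, hb4']
      ring
    have e3 : (pen α t).real {ω | Cn (Sec_D F v N2) ω (b.1 + step b.2) v ∧
        Cn (Sec_D F v N2) ω (b'.1 + step b'.2) v} =
        (perc d (pn p0 t)).real {ω | Cn (Sec_D F v N2) ω (b.1 + step b.2) v ∧
          Cn (Sec_D F v N2) ω (b'.1 + step b'.2) v} :=
      pen_eq hα H.hp0.le H.hp1.le h0 h1 _ (hDB v hv) _ hm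
        (fun ω ω' hω h => ⟨Cn.congr h.1 hω, Cn.congr h.2 hω⟩)
    have hvB : v ∈ BF v N2 := by
      rw [mem_BF, sub_self, nm_zero]
      exact Nat.zero_le _
    have hsub : Sec_D F v N2 ⊆ ((BF v N2 : Finset (V d)) : Set (V d)) := by
      rw [coe_BF]
      exact Set.sdiff_subset
    have e4 : (perc d (pn p0 t)).real {ω | Cn (Sec_D F v N2) ω (b.1 + step b.2) v ∧
        Cn (Sec_D F v N2) ω (b'.1 + step b'.2) v} ≤
        ∑ w ∈ BF v N2, C ^ 3 * (kr (w - (b.1 + step b.2)) * kr (w - (b'.1 + step b'.2)) *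
          kr (v - w)) := by
      have h3 : (perc d (pn p0 t)).real {ω | Cn (Sec_D F v N2) ω (b.1 + step b.2) v ∧
          Cn (Sec_D F v N2) ω (b'.1 + step b'.2) v} ≤
          (perc d (pn p0 t)).real {ω | Cn ((BF v N2 : Finset (V d)) : Set (V d)) ω (b.1 + step b.2) v ∧
            Cn ((BF v N2 : Finset (V d)) : Set (V d)) ω (b'.1 + step b'.2) v} := by
        refine measureReal_mono ?_ (measure_ne_top _ _)
        rintro ω ⟨h4, h5⟩
        exact ⟨Cn.mono h4 hsub fun _ h => h, Cn.mono h5 hsub fun _ h => h⟩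
      refine h3.trans ((tree_S (pn p0 t) hpn0 hpn1 (BF v N2) _ _ v hvB).trans ?_)
      refine Finset.sum_le_sum fun w _ => ?_
      rw [coe_BF]
      have k1 := hnear t N2 v (b.1 + step b.2) w h0 h1 htN
      have k2 := hnear t N2 v (b'.1 + step b'.2) w h0 h1 htN
      have k3 := hnear t N2 v w v h0 h1 htN
      rw [kr_sub_comm] at k1 k2 k3
      have p1 := kr_pos (w - (b.1 + step b.2))
      have p2 := kr_pos (w - (b'.1 + step b'.2))
      have p3 := kr_pos (v - w)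
      calc _ ≤ (C * kr (w - (b.1 + step b.2))) * (C * kr (w - (b'.1 + step b'.2))) *
            (C * kr (v - w)) := by
            refine mul_le_mul (mul_le_mul k1 k2 measureReal_nonneg (by positivity)) k3
              measureReal_nonneg (by positivity)
        _ = _ := by ring
    rw [e1, e2, e3, mul_comm]
    exact mul_le_mul_of_nonneg_left e4 (by positivity)
  -- the union
  have hun : ∀ v ∈ T, (pen α t).real (⋃ b ∈ U, Sec_ev F v N2 b) ≤
      (pen α t).real (SCn A ((A : Set (V d)) ∪ (Bx v N2 \ (F : Set (V d)))) v) := by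
    intro v hv
    refine measureReal_mono ?_ (measure_ne_top _ _)
    intro ω hω
    obtain ⟨b, hb, h3, h4⟩ := Set.mem_iUnion₂.1 hω
    obtain ⟨hb1, hb2, hb3, hb4⟩ := hU b hb
    have h3' : Cn (Sec_D F v N2) ω (b.1 + step b.2) v := h3
    have hvD : v ∈ Sec_D F v N2 := by
      refine ⟨?_, fun h => (hT v hv).1 (Finset.mem_coe.1 h)⟩
      rw [mem_Bx, sub_self, nm_zero]
      exact Nat.zero_le _
    have haD : b.1 + step b.2 ∈ Sec_D F v N2 := Cn.mem (Cn.symm h3') hvD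
    refine ⟨b.1, hb1, ?_⟩
    refine Cn.trans (Cn.one h4 (Or.inl (Finset.mem_coe.2 hb1)) (Or.inr haD)) ?_
    exact Cn.mono h3' (fun _ h => Or.inr h) fun _ h => h
  -- the sum of the off-diagonal terms
  set Y : ℝ := ∑ v ∈ T, ∑ b ∈ U, (pen α t).real (Sec_ev F v N2 b) with hYdef
  set K : ℝ := C ^ 3 * C2 * t ^ 2 * G * E with hKdef
  have hK0 : 0 ≤ K := by positivity
  have hXY : t * U.card * T.card * c7 ≤ Y := by
    calc t * U.card * T.card * c7 = ∑ v ∈ T, ∑ b ∈ U, t * c7 := by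
          rw [Finset.sum_const, Finset.sum_const, nsmul_eq_mul, nsmul_eq_mul]
          ring
      _ ≤ Y := Finset.sum_le_sum fun v hv => Finset.sum_le_sum fun b hb => hone v hv b hb
  have hcol : ∀ a a' : V d, ∑ v ∈ T, ∑ w ∈ BF v N2, C ^ 3 * (kr (w - a) * kr (w - a') *
      kr (v - w)) ≤ C ^ 3 * C2 * G * (1 / (1 + (nm (a - a') : ℝ)) ^ (d - 4)) := by
    intro a a'
    set W : Finset (V d) := T.biUnion fun v => BF v N2 with hW
    have e1 : ∀ v ∈ T, ∑ w ∈ BF v N2, C ^ 3 * (kr (w - a) * kr (w - a') * kr (v - w)) =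
        ∑ w ∈ W, if nm (v - w) ≤ N2 then C ^ 3 * (kr (w - a) * kr (w - a') * kr (v - w))
          else 0 := by
      intro v hv
      rw [← Finset.sum_filter]
      refine Finset.sum_congr ?_ fun _ _ => rfl
      ext w
      rw [Finset.mem_filter, mem_BF, hW, Finset.mem_biUnion, nm_sub_comm v w]
      constructor
      · intro h
        exact ⟨⟨v, hv, mem_BF.2 h⟩, h⟩
      · exact fun h => h.2
    rw [Finset.sum_congr rfl e1, Finset.sum_comm]
    have e2 : ∀ w ∈ W, (∑ v ∈ T, if nm (v - w) ≤ N2 then C ^ 3 * (kr (w - a) * kr (w - a') *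
        kr (v - w)) else 0) ≤ C ^ 3 * G * (kr (w - a) * kr (w - a')) := by
      intro w _
      have e3 : (∑ v ∈ T, if nm (v - w) ≤ N2 then C ^ 3 * (kr (w - a) * kr (w - a') *
          kr (v - w)) else 0) = C ^ 3 * (kr (w - a) * kr (w - a')) *
          ∑ v ∈ T.filter (fun v => nm (v - w) ≤ N2), kr (v - w) := by
        rw [← Finset.sum_filter, Finset.mul_sum]
        refine Finset.sum_congr rfl fun v _ => ?_
        ring
      rw [e3]
      have p1 := kr_pos (w - a)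
      have p2 := kr_pos (w - a')
      calc _ ≤ C ^ 3 * (kr (w - a) * kr (w - a')) * G :=
            mul_le_mul_of_nonneg_left (hG w) (by positivity)
        _ = _ := by ring
    refine (Finset.sum_le_sum e2).trans ?_
    rw [← Finset.mul_sum]
    calc _ ≤ C ^ 3 * G * (C2 / (1 + (nm (a - a') : ℝ)) ^ (d - 4)) :=
          mul_le_mul_of_nonneg_left (h2 W a a') (by positivity)
      _ = _ := by ring
  have hoff : ∑ v ∈ T, ∑ b ∈ U, ∑ b' ∈ U,
      (pen α t).real (Sec_ev F v N2 b ∩ Sec_ev F v N2 b') ≤ Y + K := by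
    have e1 : ∀ v ∈ T, ∀ b ∈ U, ∑ b' ∈ U,
        (pen α t).real (Sec_ev F v N2 b ∩ Sec_ev F v N2 b') ≤
        (pen α t).real (Sec_ev F v N2 b) + ∑ b' ∈ U, t ^ 2 * ∑ w ∈ BF v N2,
          C ^ 3 * (kr (w - (b.1 + step b.2)) * kr (w - (b'.1 + step b'.2)) * kr (v - w)) := by
      intro v hv b hb
      have e2 : (pen α t).real (Sec_ev F v N2 b) = ∑ b' ∈ U,
          if b = b' then (pen α t).real (Sec_ev F v N2 b) else 0 := by
        rw [Finset.sum_ite_eq, if_pos hb]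
      rw [e2, ← Finset.sum_add_distrib]
      refine Finset.sum_le_sum fun b' hb' => ?_
      have hnn : 0 ≤ t ^ 2 * ∑ w ∈ BF v N2,
          C ^ 3 * (kr (w - (b.1 + step b.2)) * kr (w - (b'.1 + step b'.2)) * kr (v - w)) := by
        refine mul_nonneg (by positivity) (Finset.sum_nonneg fun w _ => ?_)
        have p1 := kr_pos (w - (b.1 + step b.2))
        have p2 := kr_pos (w - (b'.1 + step b'.2))
        have p3 := kr_pos (v - w)
        positivity
      by_cases h : b = b'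
      · rw [if_pos h, ← h, Set.inter_self]
        rw [← h] at hnn
        linarith
      · rw [if_neg h, zero_add]
        exact htwo v hv b hb b' hb' h
    have e3 : ∑ v ∈ T, ∑ b ∈ U, ∑ b' ∈ U,
        (pen α t).real (Sec_ev F v N2 b ∩ Sec_ev F v N2 b') ≤ Y + ∑ v ∈ T, ∑ b ∈ U, ∑ b' ∈ U,
        t ^ 2 * ∑ w ∈ BF v N2,
          C ^ 3 * (kr (w - (b.1 + step b.2)) * kr (w - (b'.1 + step b'.2)) * kr (v - w)) := by
      rw [hYdef, ← Finset.sum_add_distrib]
      refine Finset.sum_le_sum fun v hv => ?_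
      rw [← Finset.sum_add_distrib]
      exact Finset.sum_le_sum fun b hb => e1 v hv b hb
    refine e3.trans (add_le_add le_rfl ?_)
    have e4 : ∑ v ∈ T, ∑ b ∈ U, ∑ b' ∈ U, t ^ 2 * ∑ w ∈ BF v N2,
          C ^ 3 * (kr (w - (b.1 + step b.2)) * kr (w - (b'.1 + step b'.2)) * kr (v - w)) =
        ∑ b ∈ U, ∑ b' ∈ U, t ^ 2 * ∑ v ∈ T, ∑ w ∈ BF v N2,
          C ^ 3 * (kr (w - (b.1 + step b.2)) * kr (w - (b'.1 + step b'.2)) * kr (v - w)) := by
      rw [Finset.sum_comm]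
      refine Finset.sum_congr rfl fun b _ => ?_
      rw [Finset.sum_comm]
      refine Finset.sum_congr rfl fun b' _ => ?_
      rw [Finset.mul_sum]
    rw [e4]
    calc _ ≤ ∑ b ∈ U, ∑ b' ∈ U, t ^ 2 * (C ^ 3 * C2 * G *
            (1 / (1 + (nm (b.1 + step b.2 - (b'.1 + step b'.2)) : ℝ)) ^ (d - 4))) := by
          refine Finset.sum_le_sum fun b _ => Finset.sum_le_sum fun b' _ => ?_
          exact mul_le_mul_of_nonneg_left (hcol _ _) (by positivity)
      _ = C ^ 3 * C2 * t ^ 2 * G * ∑ b ∈ U, ∑ b' ∈ U,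
            1 / (1 + (nm (b.1 + step b.2 - (b'.1 + step b'.2)) : ℝ)) ^ (d - 4) := by
          rw [Finset.mul_sum]
          refine Finset.sum_congr rfl fun b _ => ?_
          rw [Finset.mul_sum]
          refine Finset.sum_congr rfl fun b' _ => ?_
          ring
      _ ≤ K := mul_le_mul_of_nonneg_left hE (by positivity)
  refine Sec_alg (by positivity) hXY hK0 (Finset.sum_nonneg fun _ _ => measureReal_nonneg) ?_
  intro l
  have h5 : ∀ v ∈ T, 2 * l * ∑ b ∈ U, (pen α t).real (Sec_ev F v N2 b) - l ^ 2 * ∑ b ∈ U,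
      ∑ b' ∈ U, (pen α t).real (Sec_ev F v N2 b ∩ Sec_ev F v N2 b') ≤
      (pen α t).real (SCn A ((A : Set (V d)) ∪ (Bx v N2 \ (F : Set (V d)))) v) := fun v hv =>
    (secMom_fin (pen α t) U (fun b => Sec_ev F v N2 b) (fun b => Sec_meas_ev F v N2 b) l).trans
      (hun v hv)
  have h6 := Finset.sum_le_sum h5
  rw [Finset.sum_sub_distrib, ← Finset.mul_sum, ← Finset.mul_sum] at h6
  refine le_trans ?_ h6
  have h7 := mul_le_mul_of_nonneg_left hoff (sq_nonneg l)
  linarith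

end H95LBS
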