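import Pool.Agent.H95.LBS.PenLaw

/-!
PROJECT DS (MP_0d9ad5_pr), JOB DS-TestPt. Test points (section 5b of note 2700).
PROOF. Let `H(ω)` = points connected to `A` inside `S`. If `ω ∈ SCn A (A ∪ Dm v) v`: either `v ∈ H` (then
`v ∈ S` and `(v,σ) ∈ bdI B S` with `v + step σ ∈ A'`), or on a path from `A` to `v` in `A ∪ Dm v` take the last
point `x ∈ H` and the next point `y = x + step σ`: `y ∉ S` (otherwise `y ∈ H`), so `(x,σ) ∈ bdI B S`, and the rest
of the path goes from `y` to `v` inside `Dm v \ H` (`A ⊆ H`). For fixed `h`: `{H = h}` depends on the edges with an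
end in `h` (inside `S`), `{Cn (Dm v \ h) ω y v}` on edges with no end in `h`: independent (`indep_pen`), and
`P(Cn (Dm v \ h) y v) <= P(Cn (Dm v) y v)`. Sum over `h`, over `v`, and use `hG` for `y = b.1 + step b.2`.
-/

namespace H95LBS

open H5DF H95LBD MeasureTheory

variable {d : ℕ}

open Classical in
/-- The points of `S` connected to `A` inside `S`. -/
noncomputable def testPt_H (A S : Finset (V d)) (ω : Cfg d) : Finset (V d) :=
  S.filter fun x => ω ∈ SCn A (S : Set (V d)) x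

lemma testPt_mem {A S : Finset (V d)} {ω : Cfg d} {x : V d} :
    x ∈ testPt_H A S ω ↔ x ∈ S ∧ ω ∈ SCn A (S : Set (V d)) x := by
  simp [testPt_H]

lemma testPt_sub (A S : Finset (V d)) (ω : Cfg d) : testPt_H A S ω ⊆ S :=
  fun _ hx => (testPt_mem.1 hx).1

lemma testPt_of {A S : Finset (V d)} (hAS : A ⊆ S) {ω : Cfg d} {x : V d}
    (h : ω ∈ SCn A (S : Set (V d)) x) : x ∈ testPt_H A S ω := by
  obtain ⟨u, hu, hx⟩ := h
  exact testPt_mem.2 ⟨Finset.mem_coe.1 (hx.mem (Finset.mem_coe.2 (hAS hu))), u, hu, hx⟩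

lemma testPt_dec (B A S : Finset (V d)) (hAS : A ⊆ S) (Dv : Set (V d))
    (hD1 : Dv ⊆ (B : Set (V d))) (v : V d) (ω : Cfg d)
    (h : ω ∈ SCn A ((A : Set (V d)) ∪ Dv) v) :
    v ∈ testPt_H A S ω ∨ ∃ b ∈ bdI B S, b.1 ∈ testPt_H A S ω ∧
      Cn (Dv \ (testPt_H A S ω : Set (V d))) ω (b.1 + step b.2) v := by
  obtain ⟨u, hu, hc⟩ := h
  have key : v ∈ testPt_H A S ω ∨ ∃ b ∈ bdI B S, b.1 ∈ testPt_H A S ω ∧
      b.1 + step b.2 ∈ Dv \ (testPt_H A S ω : Set (V d)) ∧
      Cn (Dv \ (testPt_H A S ω : Set (V d))) ω (b.1 + step b.2) v := by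
    refine Cn.ind (fun y => y ∈ testPt_H A S ω ∨ ∃ b ∈ bdI B S, b.1 ∈ testPt_H A S ω ∧
      b.1 + step b.2 ∈ Dv \ (testPt_H A S ω : Set (V d)) ∧
      Cn (Dv \ (testPt_H A S ω : Set (V d))) ω (b.1 + step b.2) y) ?_ ?_ hc
    · exact Or.inl (testPt_of hAS ⟨u, hu, Cn.refl _ _ _⟩)
    · rintro y s - hP hy hys ho
      by_cases hH : y + step s ∈ testPt_H A S ω
      · exact Or.inl hH
      · have hA : y + step s ∉ (A : Set (V d)) := fun hm =>
          hH (testPt_of hAS ⟨_, Finset.mem_coe.1 hm, Cn.refl _ _ _⟩)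
        have hD : y + step s ∈ Dv := hys.resolve_left hA
        right
        rcases hP with hP | ⟨b, hb, hb1, hb2, hb3⟩
        · obtain ⟨hyS, w, hw, hwy⟩ := testPt_mem.1 hP
          refine ⟨(y, s), mem_bdI.2 ⟨hyS, hD1 hD, ?_⟩, hP, ⟨hD, hH⟩, Cn.refl _ _ _⟩
          intro hS
          exact hH (testPt_of hAS ⟨w, hw, hwy.trans (Cn.one ho (Finset.mem_coe.2 hyS)
            (Finset.mem_coe.2 hS))⟩)
        · exact ⟨b, hb, hb1, hb2, hb3.trans (Cn.one ho (hb3.mem hb2) ⟨hD, hH⟩)⟩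
  rcases key with h1 | ⟨b, hb, hb1, -, hb3⟩
  · exact Or.inl h1
  · exact Or.inr ⟨b, hb, hb1, hb3⟩

lemma testPt_dep (A S : Finset (V d)) (hAS : A ⊆ S) (h : Finset (V d)) (ω ω' : Cfg d)
    (he : ∀ e ∈ (ins ((h : Set (V d))ᶜ))ᶜ, ω e = ω' e) (hω : testPt_H A S ω = h) :
    testPt_H A S ω' = h := by
  have hes : ∀ (y : V d) (s : Dir d), y ∈ h → ω (edge y s) = ω' (edge y s) := by
    intro y s hy
    refine he _ ?_
    intro hm
    exact (edge_mem_ins.1 hm).1 (Finset.mem_coe.2 hy)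
  have h1 : ∀ u ∈ A, ∀ x, Cn (S : Set (V d)) ω u x → Cn (S : Set (V d)) ω' u x := by
    intro u hu x hx
    refine Cn.ind (fun y => Cn (S : Set (V d)) ω' u y) (Cn.refl _ _ _) ?_ hx
    intro y s hy hP hyS hysS ho
    have : y ∈ h := by
      rw [← hω]
      exact testPt_of hAS ⟨u, hu, hy⟩
    refine hP.trans (Cn.one ?_ hyS hysS)
    rw [← hes y s this]
    exact ho
  have h2 : ∀ u ∈ A, ∀ x, Cn (S : Set (V d)) ω' u x → Cn (S : Set (V d)) ω u x := by
    intro u hu x hx
    refine Cn.ind (fun y => Cn (S : Set (V d)) ω u y) (Cn.refl _ _ _) ?_ hx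
    intro y s hy hP hyS hysS ho
    have : y ∈ h := by
      rw [← hω]
      exact testPt_of hAS ⟨u, hu, hP⟩
    refine hP.trans (Cn.one ?_ hyS hysS)
    rw [hes y s this]
    exact ho
  rw [← hω]
  ext x
  rw [testPt_mem, testPt_mem]
  constructor
  · rintro ⟨hx, u, hu, hc⟩
    exact ⟨hx, u, hu, h2 u hu x hc⟩
  · rintro ⟨hx, u, hu, hc⟩
    exact ⟨hx, u, hu, h1 u hu x hc⟩

lemma testPt_meas (A S h : Finset (V d)) : MeasurableSet {ω : Cfg d | testPt_H A S ω = h} := by
  classical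
  by_cases hS : h ⊆ S
  · have : {ω : Cfg d | testPt_H A S ω = h} =
      ⋂ x ∈ S, (if x ∈ h then SCn A (S : Set (V d)) x else (SCn A (S : Set (V d)) x)ᶜ) := by
      ext ω
      simp only [Set.mem_setOf_eq, Set.mem_iInter]
      constructor
      · rintro rfl x hx
        split_ifs with h1
        · exact (testPt_mem.1 h1).2
        · intro h2
          exact h1 (testPt_mem.2 ⟨hx, h2⟩)
      · intro h1
        ext x
        rw [testPt_mem]
        constructor
        · rintro ⟨hx, h2⟩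
          by_contra h3
          have h4 := h1 x hx
          rw [if_neg h3] at h4
          exact h4 h2
        · intro hx
          have h4 := h1 x (hS hx)
          rw [if_pos hx] at h4
          exact ⟨hS hx, h4⟩
    rw [this]
    refine Finset.measurableSet_biInter _ fun x _ => ?_
    split_ifs
    · exact meas_SCn _ _ _
    · exact (meas_SCn _ _ _).compl
  · have : {ω : Cfg d | testPt_H A S ω = h} = ∅ := by
      ext ω
      simp only [Set.mem_setOf_eq, Set.mem_empty_iff_false, iff_false]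
      rintro rfl
      exact hS (testPt_sub _ _ _)
    rw [this]
    exact MeasurableSet.empty

lemma testPt_one (A S : Finset (V d)) (hAS : A ⊆ S) (Dv : Set (V d)) (x y v : V d)
    (α : Ed d → ℝ) (hα : In01 α) (t : ℝ) (h0 : 0 ≤ t) (h1 : t ≤ 1) :
    (pen α t).real {ω | x ∈ testPt_H A S ω ∧ Cn (Dv \ (testPt_H A S ω : Set (V d))) ω y v} ≤
      (pen α t).real (SCn A (S : Set (V d)) x) * (pen α t).real {ω | Cn Dv ω y v} := by
  classical
  haveI := isProb_pen hα h0 h1
  let K : Finset (Finset (V d)) := S.powerset.filter fun h => x ∈ h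
  have hsub : {ω : Cfg d | x ∈ testPt_H A S ω ∧
      Cn (Dv \ (testPt_H A S ω : Set (V d))) ω y v} ⊆
      ⋃ h ∈ K, ({ω : Cfg d | testPt_H A S ω = h} ∩
        {ω : Cfg d | Cn (Dv \ (h : Set (V d))) ω y v}) := by
    rintro ω ⟨h2, h3⟩
    simp only [Set.mem_iUnion]
    exact ⟨testPt_H A S ω, Finset.mem_filter.2
      ⟨Finset.mem_powerset.2 (testPt_sub A S ω), h2⟩, rfl, h3⟩
  have hind : ∀ h : Finset (V d), (pen α t).real ({ω : Cfg d | testPt_H A S ω = h} ∩
      {ω : Cfg d | Cn (Dv \ (h : Set (V d))) ω y v}) =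
      (pen α t).real {ω : Cfg d | testPt_H A S ω = h} *
        (pen α t).real {ω : Cfg d | Cn (Dv \ (h : Set (V d))) ω y v} := by
    intro h
    refine indep_pen hα h0 h1 ((ins ((h : Set (V d))ᶜ))ᶜ) _ _ (testPt_meas A S h)
      (meas_Cn _ _ _) (testPt_dep A S hAS h) ?_
    intro ω ω' he hc
    refine Cn.congr hc fun e hm => he e ?_
    rw [Set.mem_compl_iff, not_not]
    exact ⟨hm.1.2, hm.2.2⟩
  calc (pen α t).real {ω | x ∈ testPt_H A S ω ∧
        Cn (Dv \ (testPt_H A S ω : Set (V d))) ω y v}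
      ≤ (pen α t).real (⋃ h ∈ K, ({ω : Cfg d | testPt_H A S ω = h} ∩
        {ω : Cfg d | Cn (Dv \ (h : Set (V d))) ω y v})) :=
        measureReal_mono hsub (measure_ne_top _ _)
    _ ≤ ∑ h ∈ K, (pen α t).real ({ω : Cfg d | testPt_H A S ω = h} ∩
        {ω : Cfg d | Cn (Dv \ (h : Set (V d))) ω y v}) := measureReal_biUnion_finset_le _ _
    _ = ∑ h ∈ K, (pen α t).real {ω : Cfg d | testPt_H A S ω = h} *
        (pen α t).real {ω : Cfg d | Cn (Dv \ (h : Set (V d))) ω y v} :=
        Finset.sum_congr rfl fun h _ => hind h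
    _ ≤ ∑ h ∈ K, (pen α t).real {ω : Cfg d | testPt_H A S ω = h} *
        (pen α t).real {ω : Cfg d | Cn Dv ω y v} := by
        refine Finset.sum_le_sum fun h _ => mul_le_mul_of_nonneg_left ?_ measureReal_nonneg
        refine measureReal_mono ?_ (measure_ne_top _ _)
        intro ω hc
        exact Cn.mono hc Set.diff_subset fun _ h => h
    _ = (∑ h ∈ K, (pen α t).real {ω : Cfg d | testPt_H A S ω = h}) *
        (pen α t).real {ω : Cfg d | Cn Dv ω y v} := by rw [Finset.sum_mul]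
    _ = (pen α t).real (⋃ h ∈ K, {ω : Cfg d | testPt_H A S ω = h}) *
        (pen α t).real {ω : Cfg d | Cn Dv ω y v} := by
        rw [measureReal_biUnion_finset]
        · intro h _ h' _ hne
          rw [Function.onFun, Set.disjoint_left]
          intro ω h2 h3
          exact hne (Eq.trans (Eq.symm h2) h3)
        · intro h _
          exact testPt_meas A S h
    _ ≤ _ := by
        refine mul_le_mul_of_nonneg_right ?_ measureReal_nonneg
        refine measureReal_mono ?_ (measure_ne_top _ _)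
        intro ω hω
        simp only [Set.mem_iUnion] at hω
        obtain ⟨h, hK, hh⟩ := hω
        have h3 : testPt_H A S ω = h := hh
        have h2 := (Finset.mem_filter.1 hK).2
        rw [← h3] at h2
        exact (testPt_mem.1 h2).2

theorem test_pt (B A A' S T : Finset (V d)) (hAS : A ⊆ S) (hSB : S ⊆ B) (hSA : Disjoint S A')
    (hA' : A' ⊆ B) (hT : ∀ v ∈ T, ∃ σ : Dir d, v + step σ ∈ A') (Dm : V d → Set (V d))
    (hD1 : ∀ v ∈ T, Dm v ⊆ (B : Set (V d))) (hD2 : ∀ v ∈ T, ∀ a ∈ A, a ∉ Dm v)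
    (α : Ed d → ℝ) (hα : In01 α) (t G : ℝ) (h0 : 0 ≤ t) (h1 : t ≤ 1)
    (hG : ∀ y : V d, ∑ v ∈ T, (pen α t).real {ω | Cn (Dm v) ω y v} ≤ G) :
    ∑ v ∈ T, (pen α t).real (SCn A ((A : Set (V d)) ∪ Dm v) v) ≤
      (1 + G) * ∑ b ∈ bdI B S, (pen α t).real (SCn A (S : Set (V d)) b.1) := by
  classical
  haveI := isProb_pen hα h0 h1
  have hv : ∀ v ∈ T, (pen α t).real (SCn A ((A : Set (V d)) ∪ Dm v) v) ≤
      (pen α t).real {ω : Cfg d | v ∈ testPt_H A S ω} +
      ∑ b ∈ bdI B S, (pen α t).real (SCn A (S : Set (V d)) b.1) *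
        (pen α t).real {ω | Cn (Dm v) ω (b.1 + step b.2) v} := by
    intro v hvT
    have hsub : SCn A ((A : Set (V d)) ∪ Dm v) v ⊆ {ω : Cfg d | v ∈ testPt_H A S ω} ∪
        ⋃ b ∈ bdI B S, {ω : Cfg d | b.1 ∈ testPt_H A S ω ∧
          Cn (Dm v \ (testPt_H A S ω : Set (V d))) ω (b.1 + step b.2) v} := by
      intro ω hω
      rcases testPt_dec B A S hAS (Dm v) (hD1 v hvT) v ω hω with h2 | ⟨b, hb, hb1, hb2⟩
      · exact Or.inl h2
      · right
        simp only [Set.mem_iUnion]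
        exact ⟨b, hb, hb1, hb2⟩
    refine (measureReal_mono hsub (measure_ne_top _ _)).trans ?_
    refine (measureReal_union_le _ _).trans ?_
    refine add_le_add le_rfl ?_
    refine (measureReal_biUnion_finset_le _ _).trans ?_
    exact Finset.sum_le_sum fun b _ => testPt_one A S hAS (Dm v) b.1 _ v α hα t h0 h1
  have hfirst : ∑ v ∈ T, (pen α t).real {ω : Cfg d | v ∈ testPt_H A S ω} ≤
      ∑ b ∈ bdI B S, (pen α t).real (SCn A (S : Set (V d)) b.1) := by
    choose f hf using hT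
    have hz : ∀ v ∈ T.attach, (pen α t).real {ω : Cfg d | v.1 ∈ testPt_H A S ω} ≠ 0 →
        v.1 ∈ S := by
      intro v _ hne
      by_contra hvS
      apply hne
      have : {ω : Cfg d | v.1 ∈ testPt_H A S ω} = ∅ := by
        ext ω
        simp only [Set.mem_setOf_eq, Set.mem_empty_iff_false, iff_false]
        exact fun h => hvS (testPt_sub A S ω h)
      rw [this, measureReal_empty]
    have hle : ∀ v : V d, (pen α t).real {ω : Cfg d | v ∈ testPt_H A S ω} ≤
        (pen α t).real (SCn A (S : Set (V d)) v) := fun v =>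
      measureReal_mono (fun ω h => (testPt_mem.1 h).2) (measure_ne_top _ _)
    have hinj : Set.InjOn (fun v : T => (v.1, f v.1 v.2))
        ((T.attach.filter fun v => v.1 ∈ S : Finset T) : Set T) := by
      intro v _ w _ h
      exact Subtype.ext (Prod.mk.inj h).1
    have himg : (T.attach.filter fun v => v.1 ∈ S).image (fun v : T => (v.1, f v.1 v.2)) ⊆
        bdI B S := by
      intro b hb
      obtain ⟨v, hv2, rfl⟩ := Finset.mem_image.1 hb
      have hvS := (Finset.mem_filter.1 hv2).2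
      have h2 := hf v.1 v.2
      exact mem_bdI.2 ⟨hvS, hA' h2, fun h3 => Finset.disjoint_left.1 hSA h3 h2⟩
    rw [← Finset.sum_attach, ← Finset.sum_filter_of_ne hz]
    refine (Finset.sum_le_sum fun v _ => hle v.1).trans ?_
    have h4 := Finset.sum_image (f := fun b : V d × Dir d =>
      (pen α t).real (SCn A (S : Set (V d)) b.1)) hinj
    refine le_trans (le_of_eq (Eq.symm h4)) ?_
    exact Finset.sum_le_sum_of_subset_of_nonneg himg fun _ _ _ => measureReal_nonneg
  calc ∑ v ∈ T, (pen α t).real (SCn A ((A : Set (V d)) ∪ Dm v) v)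
      ≤ ∑ v ∈ T, ((pen α t).real {ω : Cfg d | v ∈ testPt_H A S ω} +
        ∑ b ∈ bdI B S, (pen α t).real (SCn A (S : Set (V d)) b.1) *
          (pen α t).real {ω | Cn (Dm v) ω (b.1 + step b.2) v}) := Finset.sum_le_sum hv
    _ = ∑ v ∈ T, (pen α t).real {ω : Cfg d | v ∈ testPt_H A S ω} +
        ∑ b ∈ bdI B S, (pen α t).real (SCn A (S : Set (V d)) b.1) *
          ∑ v ∈ T, (pen α t).real {ω | Cn (Dm v) ω (b.1 + step b.2) v} := by
        rw [Finset.sum_add_distrib, Finset.sum_comm]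
        simp_rw [Finset.mul_sum]
    _ ≤ ∑ b ∈ bdI B S, (pen α t).real (SCn A (S : Set (V d)) b.1) +
        ∑ b ∈ bdI B S, (pen α t).real (SCn A (S : Set (V d)) b.1) * G := by
        refine add_le_add hfirst (Finset.sum_le_sum fun b _ => ?_)
        exact mul_le_mul_of_nonneg_left (hG _) measureReal_nonneg
    _ = _ := by
        rw [← Finset.sum_mul]
        ring

end H95LBS
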