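import Pool.Agent.H95.LBS.FTwo
import Pool.Agent.H95.LBS.GBd
import Pool.Agent.H95.LBS.Sec
import Pool.Agent.H95.LBS.PenExp
import Pool.Agent.H95.LBS.TestPt

/-!
PROJECT DS (MP_0d9ad5_pr), JOB DS-Fresh. Exponential bound in the fresh environment (section 5f of note 2700).
PROOF. `B = BB`, `L = m lam`, `N2 = (2M+1) lam`, `N1 = (4M+4) lam`, `ηr = ηa/C` with `C` of `f_avg` (and `<= 1`); `lam` large
compared to `r0`. For `j ∈ Jg` and each regular `u ∈ RegA F A ∩ cube j`: `f_avg` gives `v0`, `∑ kr(v0-w) <= ηa < 1` so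
`v0 ∉ F`; `f_geo` gives `(a,σ)` and `J`. `U_j` = the set of these `(a,σ)`, at least `card/(2r0+1)^d` elements. In the same way for
`A'`: `v' = a + step σ ∉ F` adjacent to `A'`, `base v' = u'`; `T_j` = the set of these `v'`. `f_two` (`nm (v0-v0') <= lam + 2 r0`,
sums over `nm (w - v0') <= 2 M lam` are over subsets of `nm (w-u) <= N1`) gives `c7 = c6/lam^(d-2)`. `T = ∪ T_j`, `g_bd` gives `G1`
(`2 N2 + 2 r0 <= N1`). Energy of `U_j`: points `b.1 + step b.2` are within `r0` of their regular point in `cube j ∩ F`, multiplicity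
`<= (2r0+1)^d`: `E_j <= C(r0) enr F (cube j) <= C(r0) C4 lam^(d+4)/L^4`. `sec` with `t ∈ [s/4, s/2]`:
`x = t |U_j||T_j| c7 >= c t lam^(d+2)/L^4`, `t^2 G E_j <= C κ^2 t lam^(d+2)/L^4`, so `∑_{v ∈ T_j} >= c t lam^(d+2)/L^4`. Each `v` is in at most
`3^d` of the `T_j`; at least `η4 m^d` boxes: `∑_{v ∈ T} P(SCn A (A ∪ Dv) v) >= c t lam^2 L^(d-4)`. `test_pt` with `Dm v = Bx v N2 \ F`,
`G = C G1` (`near_two`, `pen_eq`): `φ >= c (s/4) lam^2 L^(d-4)`. `pen_exp` on `[s/4, s/2]`: exponent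
`>= c s^2 lam^2 L^(d-4) >= c κ^4 m^2 L^(d-6)`; `c` does not depend on `m`. `κ1` from `(2M+1)^2 κ1^2 <= κ0` of `sec`, `near_two`.
-/

namespace H95LBS

open H5DF H95LBD MeasureTheory

variable {d : ℕ}

/-- Data chosen at a regular point. -/
def Fresh_Ex (r0 N1 : ℕ) (ηa : ℝ) (F A : Finset (V d)) (u v0 a : V d) (σ : Dir d)
    (J : Finset (Ed d)) : Prop :=
  v0 ∉ F ∧ nm (v0 - u) ≤ r0 ∧ ∑ w ∈ F.filter (fun w => nm (w - u) ≤ N1), kr (v0 - w) ≤ ηa ∧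
  a ∈ A ∧ nm (a - u) ≤ r0 ∧ a + step σ ∉ F ∧ nm (a + step σ - u) ≤ r0 ∧ J.card ≤ d * r0 ∧
  ∀ ω : Cfg d, (∀ e ∈ J, ω e = true) → Cn (Bx u r0 \ (F : Set (V d))) ω (a + step σ) v0

lemma Fresh_mem {r0 N1 : ℕ} {ηr : ℝ} {F A : Finset (V d)} {u : V d} :
    u ∈ RegA r0 N1 ηr F A ↔ u ∈ A ∧ (∀ w ∈ F, nm (w - u) ≤ 2 * r0 → w ∈ A) ∧
      ∑ w ∈ F.filter (fun w => nm (w - u) ≤ N1), 1 / ((r0 : ℝ) + nm (w - u)) ^ (d - 2) ≤ ηr := by
  classical
  unfold RegA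
  rw [Finset.mem_filter]

lemma Fresh_sel {C ηa ηr : ℝ} {r0 N1 : ℕ} {F A : Finset (V d)}
    (hC : ∀ (r0 N1 : ℕ) (F : Finset (V d)) (u : V d) (η : ℝ), 1 ≤ r0 →
      ∑ w ∈ F.filter (fun w => nm (w - u) ≤ N1), 1 / ((r0 : ℝ) + nm (w - u)) ^ (d - 2) ≤ η →
      ∃ v0 : V d, nm (v0 - u) ≤ r0 ∧
        ∑ w ∈ F.filter (fun w => nm (w - u) ≤ N1), kr (v0 - w) ≤ C * η)
    (hCη : C * ηr ≤ ηa) (hηa : ηa < 1) (hr0 : 1 ≤ r0) (hN1 : r0 ≤ N1) (hAF : A ⊆ F) {u : V d}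
    (hu : u ∈ RegA r0 N1 ηr F A) : ∃ v0 a σ J, Fresh_Ex r0 N1 ηa F A u v0 a σ J := by
  obtain ⟨huA, hloc, hsum⟩ := Fresh_mem.1 hu
  obtain ⟨v0, hv0, hv0s⟩ := hC r0 N1 F u ηr hr0 hsum
  have hv0F : v0 ∉ F := by
    intro hF
    have h1 : kr (v0 - v0) ≤ ∑ w ∈ F.filter (fun w => nm (w - u) ≤ N1), kr (v0 - w) := by
      refine Finset.single_le_sum (f := fun w => kr (v0 - w)) (fun w _ => (kr_pos _).le) ?_
      rw [Finset.mem_filter]
      exact ⟨hF, hv0.trans hN1⟩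
    have h2 : kr (v0 - v0) = 1 := by simp [kr, nm_zero]
    linarith
  obtain ⟨a, σ, J, h1, h2, h3, h4, h5, -, h6⟩ := f_geo r0 F A u v0 huA hAF hv0 hv0F hloc
  exact ⟨v0, a, σ, J, hv0F, hv0, hv0s.trans hCη, h1, h2, h3, h4, h5, h6⟩

lemma Fresh_two {p0 c6 ηa : ℝ} {M r0 lam : ℕ} {F A A' : Finset (V d)} {u v0 a : V d} {σ : Dir d}
    {J : Finset (Ed d)} {u' v0' a' : V d} {σ' : Dir d} {J' : Finset (Ed d)}
    (h6 : ∀ (lam N2 : ℕ) (F : Finset (V d))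
      (v0 v0' a' v' : V d) (J J' : Finset (Ed d)), 1 ≤ lam → nm (v0 - v0') ≤ 2 * lam →
      v0 ∉ F → v0' ∉ F →
      ∑ w ∈ F.filter (fun w => nm (w - v0') ≤ 2 * M * lam), kr (v0 - w) ≤ ηa →
      ∑ w ∈ F.filter (fun w => nm (w - v0') ≤ 2 * M * lam), kr (v0' - w) ≤ ηa →
      nm (v0' - v') ≤ 2 * r0 → 2 * M * lam + 2 * r0 ≤ N2 →
      J.card ≤ d * r0 → J'.card ≤ d * r0 →
      (∀ ω : Cfg d, (∀ e ∈ J, ω e = true) → Cn (Bx v' N2 \ (F : Set (V d))) ω a' v0) →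
      (∀ ω : Cfg d, (∀ e ∈ J', ω e = true) → Cn (Bx v' N2 \ (F : Set (V d))) ω v' v0') →
      c6 / (lam : ℝ) ^ (d - 2) ≤
        (perc d p0).real {ω | Cn (Bx v' N2 \ (F : Set (V d))) ω a' v'})
    (hM : 1 ≤ M) (hlam : 1 ≤ lam) (hr : 2 * r0 ≤ lam) (huu : nm (u - u') ≤ lam)
    (hE : Fresh_Ex r0 ((4 * M + 4) * lam) ηa F A u v0 a σ J)
    (hE' : Fresh_Ex r0 ((4 * M + 4) * lam) ηa F A' u' v0' a' σ' J') :
    c6 / (lam : ℝ) ^ (d - 2) ≤ (perc d p0).real {ω | Cn (Bx (a' + step σ') ((2 * M + 1) * lam) \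
      (F : Set (V d))) ω (a + step σ) (a' + step σ')} := by
  obtain ⟨h1, h2, h3, h4, h5, h6a, h7, h8, h9⟩ := hE
  obtain ⟨g1, g2, g3, g4, g5, g6, g7, g8, g9⟩ := hE'
  have e1 : nm (u' - u) ≤ lam := by rw [nm_sub_comm]; exact huu
  have e2 : nm (u' - v0') ≤ r0 := by rw [nm_sub_comm]; exact g2
  have e3 : nm (u' - (a' + step σ')) ≤ r0 := by rw [nm_sub_comm]; exact g7
  have x1 : 2 * M * lam + r0 + lam ≤ (4 * M + 4) * lam := by nlinarith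
  have x2 : lam + 2 * r0 ≤ (2 * M + 1) * lam + lam := by nlinarith
  refine h6 lam ((2 * M + 1) * lam) F v0 v0' (a + step σ) (a' + step σ') J J' hlam ?_ h1 g1 ?_ ?_
    ?_ ?_ h8 g8 ?_ ?_
  · have t1 := nm_tri v0 u v0'
    have t2 := nm_tri u u' v0'
    omega
  · refine le_trans (Finset.sum_le_sum_of_subset_of_nonneg ?_ fun w _ _ => (kr_pos _).le) h3
    intro w hw
    rw [Finset.mem_filter] at hw ⊢
    have t1 := nm_tri w v0' u
    have t2 := nm_tri v0' u' u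
    exact ⟨hw.1, by have := hw.2; omega⟩
  · refine le_trans (Finset.sum_le_sum_of_subset_of_nonneg ?_ fun w _ _ => (kr_pos _).le) g3
    intro w hw
    rw [Finset.mem_filter] at hw ⊢
    have t1 := nm_tri w v0' u'
    exact ⟨hw.1, by have := hw.2; omega⟩
  · have t1 := nm_tri v0' u' (a' + step σ')
    omega
  · nlinarith
  · intro ω hω
    refine (h9 ω hω).mono ?_ (fun _ h => h)
    rintro x ⟨hx, hxF⟩
    refine ⟨?_, hxF⟩
    rw [mem_Bx] at hx ⊢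
    have t1 := nm_tri x u (a' + step σ')
    have t2 := nm_tri u u' (a' + step σ')
    have x4 : 2 * lam ≤ (2 * M + 1) * lam := by nlinarith
    omega
  · intro ω hω
    refine (g9 ω hω).mono ?_ (fun _ h => h)
    rintro x ⟨hx, hxF⟩
    refine ⟨?_, hxF⟩
    rw [mem_Bx] at hx ⊢
    have t1 := nm_tri x u' (a' + step σ')
    have x4 : lam ≤ (2 * M + 1) * lam := by nlinarith
    omega


lemma Fresh_cardBF (z : V d) (n : ℕ) : (BF z n).card ≤ (2 * n + 1) ^ d := by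
  unfold BF
  refine Finset.card_image_le.trans ?_
  rw [card_Box]

/-- The image has at least a proportion `(2 r0 + 1)^(-d)` of the points. -/
lemma Fresh_card {β : Type*} [DecidableEq β] (S : Finset (V d)) (f : V d → β) (g : β → V d) (r0 : ℕ)
    (h : ∀ u ∈ S, nm (g (f u) - u) ≤ r0) :
    S.card ≤ (2 * r0 + 1) ^ d * (S.image f).card := by
  refine Finset.card_le_mul_card_image S _ ?_
  intro b _
  refine le_trans (Finset.card_le_card ?_) (Fresh_cardBF (g b) r0)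
  intro u hu
  rw [Finset.mem_filter] at hu
  rw [mem_BF, nm_sub_comm]
  have := h u hu.1
  rwa [hu.2] at this

/-- Energy of the images. -/
lemma Fresh_energy {β : Type*} [DecidableEq β] (R E : Finset (V d)) (hRE : R ⊆ E) (f : V d → β) (g : β → V d)
    (r0 k : ℕ) (h : ∀ u ∈ R, nm (g (f u) - u) ≤ r0) :
    ∑ b ∈ R.image f, ∑ b' ∈ R.image f, 1 / (1 + (nm (g b - g b') : ℝ)) ^ k ≤
      (1 + 2 * (r0 : ℝ)) ^ k * ∑ u ∈ E, ∑ u' ∈ E, 1 / (1 + (nm (u - u') : ℝ)) ^ k := by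
  -- a section
  have hsec : ∀ b ∈ R.image f, ∃ u ∈ R, f u = b := fun b hb => Finset.mem_image.1 hb
  choose! sc hsc1 hsc2 using hsec
  have hinj : Set.InjOn sc (R.image f : Set β) := by
    intro b hb b' hb' hbb
    rw [← hsc2 b hb, ← hsc2 b' hb', hbb]
  have himg : (R.image f).image sc ⊆ E := by
    intro u hu
    obtain ⟨b, hb, rfl⟩ := Finset.mem_image.1 hu
    exact hRE (hsc1 b hb)
  have hterm : ∀ b ∈ R.image f, ∀ b' ∈ R.image f, 1 / (1 + (nm (g b - g b') : ℝ)) ^ k ≤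
      (1 + 2 * (r0 : ℝ)) ^ k * (1 / (1 + (nm (sc b - sc b') : ℝ)) ^ k) := by
    intro b hb b' hb'
    have h1 : nm (g b - sc b) ≤ r0 := by
      have := h (sc b) (hsc1 b hb)
      rwa [hsc2 b hb] at this
    have h2 : nm (g b' - sc b') ≤ r0 := by
      have := h (sc b') (hsc1 b' hb')
      rwa [hsc2 b' hb'] at this
    have h3 : nm (sc b - sc b') ≤ nm (g b - g b') + 2 * r0 := by
      have t1 := nm_tri (sc b) (g b) (sc b')
      have t2 := nm_tri (g b) (g b') (sc b')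
      rw [nm_sub_comm (sc b) (g b)] at t1
      omega
    have h4 : (nm (sc b - sc b') : ℝ) ≤ nm (g b - g b') + 2 * r0 := by exact_mod_cast h3
    have h5 : (0 : ℝ) ≤ nm (g b - g b') := Nat.cast_nonneg _
    have h6 : (0 : ℝ) ≤ (r0 : ℝ) := Nat.cast_nonneg _
    have h7 : 1 + (nm (sc b - sc b') : ℝ) ≤ (1 + 2 * (r0 : ℝ)) * (1 + (nm (g b - g b') : ℝ)) := by
      nlinarith
    rw [mul_one_div, div_le_div_iff₀ (by positivity) (by positivity), one_mul, ← mul_pow]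
    exact pow_le_pow_left₀ (by positivity) h7 k
  calc ∑ b ∈ R.image f, ∑ b' ∈ R.image f, 1 / (1 + (nm (g b - g b') : ℝ)) ^ k
      ≤ ∑ b ∈ R.image f, ∑ b' ∈ R.image f,
        (1 + 2 * (r0 : ℝ)) ^ k * (1 / (1 + (nm (sc b - sc b') : ℝ)) ^ k) :=
        Finset.sum_le_sum fun b hb => Finset.sum_le_sum fun b' hb' => hterm b hb b' hb'
    _ = (1 + 2 * (r0 : ℝ)) ^ k * ∑ b ∈ R.image f, ∑ b' ∈ R.image f,
        1 / (1 + (nm (sc b - sc b') : ℝ)) ^ k := by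
        rw [Finset.mul_sum]
        refine Finset.sum_congr rfl fun b _ => ?_
        rw [Finset.mul_sum]
    _ = (1 + 2 * (r0 : ℝ)) ^ k * ∑ u ∈ (R.image f).image sc, ∑ u' ∈ (R.image f).image sc,
        1 / (1 + (nm (u - u') : ℝ)) ^ k := by
        rw [Finset.sum_image hinj]
        congr 1
        refine Finset.sum_congr rfl fun b _ => ?_
        rw [Finset.sum_image hinj]
    _ ≤ (1 + 2 * (r0 : ℝ)) ^ k * ∑ u ∈ E, ∑ u' ∈ E, 1 / (1 + (nm (u - u') : ℝ)) ^ k := by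
        refine mul_le_mul_of_nonneg_left ?_ (by positivity)
        refine (Finset.sum_le_sum_of_subset_of_nonneg himg fun u _ _ =>
          Finset.sum_nonneg fun u' _ => by positivity).trans ?_
        refine Finset.sum_le_sum fun u _ => ?_
        exact Finset.sum_le_sum_of_subset_of_nonneg himg fun u' _ _ => by positivity

lemma Fresh_alg {X K P Y ca ck : ℝ} (hY : 0 < Y) (hca : 0 < ca) (hck : 0 ≤ ck) (hP : 0 ≤ P)
    (hX : ca * Y ≤ X) (hK : K ≤ ck * Y) (h : X ^ 2 ≤ (X + K) * P) :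
    ca ^ 2 / (ca + ck) * Y ≤ P := by
  have hX0 : 0 < X := lt_of_lt_of_le (by positivity) hX
  have h1 : ca * K ≤ ck * X := by nlinarith
  -- X * ca <= (ca + ck) P
  have h2 : X * ca ≤ (ca + ck) * P := by
    have h3 : X * (X * ca) ≤ X * ((ca + ck) * P) := by
      calc X * (X * ca) = ca * X ^ 2 := by ring
        _ ≤ ca * ((X + K) * P) := mul_le_mul_of_nonneg_left h hca.le
        _ = (ca * X + ca * K) * P := by ring
        _ ≤ (ca * X + ck * X) * P := mul_le_mul_of_nonneg_right (by linarith) hP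
        _ = X * ((ca + ck) * P) := by ring
    exact le_of_mul_le_mul_left h3 hX0
  have h4 : ca ^ 2 * Y ≤ (ca + ck) * P := by nlinarith
  rw [div_mul_eq_mul_div, div_le_iff₀ (by positivity)]
  linarith

/-- The small boxes which come close to a point. -/
lemma Fresh_near {lam : ℕ} (hlam : 1 ≤ lam) {j u v : V d} (hu : u ∈ cube lam j)
    (huv : nm (v - u) ≤ lam) :
    j ∈ Fintype.piFinset fun i => Finset.Icc (v i / (lam : ℤ) - 1) (v i / (lam : ℤ) + 1) := by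
  rw [Fintype.mem_piFinset]
  intro i
  rw [Finset.mem_Icc]
  obtain ⟨h1, h2⟩ := mem_cube.1 hu i
  have h3 : ((v - u) i).natAbs ≤ lam := nm_le.1 huv i
  have h4 : ((v - u) i) = v i - u i := rfl
  rw [h4] at h3
  have hl : (0 : ℤ) < lam := by exact_mod_cast hlam
  constructor
  · have : v i / (lam : ℤ) < j i + 2 := by
      apply Int.ediv_lt_of_lt_mul hl
      have : (j i + 2) * (lam : ℤ) = (j i + 1) * lam + lam := by ring
      omega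
    omega
  · have : j i - 1 ≤ v i / (lam : ℤ) := by
      apply Int.le_ediv_of_mul_le hl
      have : (j i - 1) * (lam : ℤ) = j i * lam - lam := by ring
      omega
    omega

open Classical in
lemma Fresh_mult (lam : ℕ) (hlam : 1 ≤ lam) (Jg : Finset (V d)) (T : V d → Finset (V d))
    (hT : ∀ j ∈ Jg, ∀ v ∈ T j, ∃ u ∈ cube lam j, nm (v - u) ≤ lam) (g : V d → ℝ)
    (hg : ∀ v, 0 ≤ g v) :
    ∑ j ∈ Jg, ∑ v ∈ T j, g v ≤ 3 ^ d * ∑ v ∈ Jg.biUnion T, g v := by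
  have h1 : ∑ j ∈ Jg, ∑ v ∈ T j, g v =
      ∑ v ∈ Jg.biUnion T, ((Jg.filter fun j => v ∈ T j).card : ℝ) * g v := by
    have h2 : ∀ j ∈ Jg, ∑ v ∈ T j, g v = ∑ v ∈ Jg.biUnion T, if v ∈ T j then g v else 0 := by
      intro j hj
      rw [← Finset.sum_filter]
      congr 1
      ext v
      rw [Finset.mem_filter, Finset.mem_biUnion]
      exact ⟨fun h => ⟨⟨j, hj, h⟩, h⟩, fun h => h.2⟩
    rw [Finset.sum_congr rfl h2, Finset.sum_comm]
    refine Finset.sum_congr rfl fun v _ => ?_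
    rw [← Finset.sum_filter, Finset.sum_const, nsmul_eq_mul]
  rw [h1, Finset.mul_sum]
  refine Finset.sum_le_sum fun v _ => ?_
  refine mul_le_mul_of_nonneg_right ?_ (hg v)
  have h3 : (Jg.filter fun j => v ∈ T j).card ≤ 3 ^ d := by
    refine le_trans (Finset.card_le_card (t := Fintype.piFinset fun i =>
      Finset.Icc (v i / (lam : ℤ) - 1) (v i / (lam : ℤ) + 1)) ?_) ?_
    · intro j hj
      rw [Finset.mem_filter] at hj
      obtain ⟨u, hu, huv⟩ := hT j hj.1 v hj.2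
      exact Fresh_near hlam hu huv
    · rw [Fintype.card_piFinset]
      have : ∀ i : Fin d, (Finset.Icc (v i / (lam : ℤ) - 1) (v i / (lam : ℤ) + 1)).card = 3 := by
        intro i
        rw [Int.card_Icc]
        omega
      simp [this]
  exact_mod_cast h3

/-- The sets `U_j`, `T_j` of one small box. -/
lemma Fresh_box {p0 c6 ηa C ηr η3 C4 : ℝ} {M m lam r0 : ℕ} {F A A' : Finset (V d)} {j : V d}
    (hd : 0 < d)
    (hC : ∀ (r0 N1 : ℕ) (F : Finset (V d)) (u : V d) (η : ℝ), 1 ≤ r0 →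
      ∑ w ∈ F.filter (fun w => nm (w - u) ≤ N1), 1 / ((r0 : ℝ) + nm (w - u)) ^ (d - 2) ≤ η →
      ∃ v0 : V d, nm (v0 - u) ≤ r0 ∧
        ∑ w ∈ F.filter (fun w => nm (w - u) ≤ N1), kr (v0 - w) ≤ C * η)
    (hCη : C * ηr ≤ ηa) (hηa : ηa < 1) (hr0 : 1 ≤ r0)
    (h6 : ∀ (lam N2 : ℕ) (F : Finset (V d))
      (v0 v0' a' v' : V d) (J J' : Finset (Ed d)), 1 ≤ lam → nm (v0 - v0') ≤ 2 * lam →
      v0 ∉ F → v0' ∉ F →
      ∑ w ∈ F.filter (fun w => nm (w - v0') ≤ 2 * M * lam), kr (v0 - w) ≤ ηa →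
      ∑ w ∈ F.filter (fun w => nm (w - v0') ≤ 2 * M * lam), kr (v0' - w) ≤ ηa →
      nm (v0' - v') ≤ 2 * r0 → 2 * M * lam + 2 * r0 ≤ N2 →
      J.card ≤ d * r0 → J'.card ≤ d * r0 →
      (∀ ω : Cfg d, (∀ e ∈ J, ω e = true) → Cn (Bx v' N2 \ (F : Set (V d))) ω a' v0) →
      (∀ ω : Cfg d, (∀ e ∈ J', ω e = true) → Cn (Bx v' N2 \ (F : Set (V d))) ω v' v0') →
      c6 / (lam : ℝ) ^ (d - 2) ≤
        (perc d p0).real {ω | Cn (Bx v' N2 \ (F : Set (V d))) ω a' v'})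
    (hM : 1 ≤ M) (hlam : 1 ≤ lam) (hr : 2 * r0 ≤ lam) (hm : 1 ≤ m) (hj : j ∈ JJ d m)
    (hAF : A ⊆ F) (hAF' : A' ⊆ F)
    (g1 : η3 * vol d m lam ≤ (RegA r0 ((4 * M + 4) * lam) ηr F A ∩ cube lam j).card)
    (g2 : η3 * vol d m lam ≤ (RegA r0 ((4 * M + 4) * lam) ηr F A' ∩ cube lam j).card)
    (g3 : enr F (cube lam j) ≤ C4 * (lam : ℝ) ^ (d + 4) / ((m * lam : ℕ) : ℝ) ^ 4) :
    ∃ (U : Finset (V d × Dir d)) (T : Finset (V d)),
      η3 * vol d m lam ≤ (2 * (r0 : ℝ) + 1) ^ d * U.card ∧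
      η3 * vol d m lam ≤ (2 * (r0 : ℝ) + 1) ^ d * T.card ∧
      (∀ b ∈ U, b.1 ∈ A ∧ b.1 + step b.2 ∉ F ∧ b.1 + step b.2 ∈ BB d M (m * lam)) ∧
      (∀ v ∈ T, v ∉ F ∧ BF v ((2 * M + 1) * lam) ⊆ BB d M (m * lam) ∧
        (∃ σ : Dir d, v + step σ ∈ A') ∧
        ∃ u ∈ RegA r0 ((4 * M + 4) * lam) ηr F A' ∩ cube lam j, nm (v - u) ≤ r0) ∧
      (∀ b ∈ U, ∀ v ∈ T, c6 / (lam : ℝ) ^ (d - 2) ≤ (perc d p0).real
        {ω | Cn (Bx v ((2 * M + 1) * lam) \ (F : Set (V d))) ω (b.1 + step b.2) v}) ∧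
      ∑ b ∈ U, ∑ b' ∈ U, 1 / (1 + (nm (b.1 + step b.2 - (b'.1 + step b'.2)) : ℝ)) ^ (d - 4) ≤
        (1 + 2 * (r0 : ℝ)) ^ (d - 4) *
          (C4 * (lam : ℝ) ^ (d + 4) / ((m * lam : ℕ) : ℝ) ^ 4) := by
  have : Nonempty (Fin d) := ⟨⟨0, hd⟩⟩
  have : Nonempty (Dir d) := ⟨(⟨0, hd⟩, true)⟩
  have hN1 : r0 ≤ (4 * M + 4) * lam := by nlinarith
  have hs1 : ∀ u, u ∈ RegA r0 ((4 * M + 4) * lam) ηr F A →
      ∃ (v0 a : V d) (σ : Dir d) (J : Finset (Ed d)),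
        Fresh_Ex r0 ((4 * M + 4) * lam) ηa F A u v0 a σ J :=
    fun u hu => Fresh_sel hC hCη hηa hr0 hN1 hAF hu
  have hs2 : ∀ u, u ∈ RegA r0 ((4 * M + 4) * lam) ηr F A' →
      ∃ (v0 a : V d) (σ : Dir d) (J : Finset (Ed d)),
        Fresh_Ex r0 ((4 * M + 4) * lam) ηa F A' u v0 a σ J :=
    fun u hu => Fresh_sel hC hCη hηa hr0 hN1 hAF' hu
  choose! v0 a σ J hE using hs1
  choose! v0' a' σ' J' hE' using hs2
  have hcube : ∀ u ∈ cube lam j, nm u ≤ 2 * (m * lam) := by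
    intro u hu
    rw [nm_le]
    intro i
    obtain ⟨h1, h2⟩ := mem_cube.1 hu i
    obtain ⟨h3, h4⟩ := mem_JJ.1 hj i
    have hl : (0 : ℤ) < lam := by exact_mod_cast hlam
    have h5 : -(m : ℤ) * lam ≤ j i * lam := mul_le_mul_of_nonneg_right h3 hl.le
    have h6' : (j i + 1) * lam ≤ (2 * m : ℤ) * lam := mul_le_mul_of_nonneg_right (by omega) hl.le
    have h7 : (0 : ℤ) ≤ (m : ℤ) * lam := by positivity
    have h8 : -(m : ℤ) * lam = -((m : ℤ) * lam) := by ring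
    have h9 : (2 * m : ℤ) * lam = 2 * ((m : ℤ) * lam) := by ring
    rw [h8] at h5
    rw [h9] at h6'
    have h10 : ((2 * (m * lam) : ℕ) : ℤ) = 2 * ((m : ℤ) * lam) := by push_cast; ring
    omega
  have hsame : ∀ u ∈ cube lam j, ∀ u' ∈ cube lam j, nm (u - u') ≤ lam := by
    intro u hu u' hu'
    rw [nm_le]
    intro i
    obtain ⟨h1, h2⟩ := mem_cube.1 hu i
    obtain ⟨h3, h4⟩ := mem_cube.1 hu' i
    have h5 : (u - u') i = u i - u' i := rfl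
    have h6' : (j i + 1) * (lam : ℤ) = j i * lam + lam := by ring
    rw [h5]
    omega
  have hml : lam ≤ m * lam := by nlinarith
  have hin : ∀ u ∈ cube lam j, ∀ v, nm (v - u) ≤ r0 →
      BF v ((2 * M + 1) * lam) ⊆ BB d M (m * lam) := by
    intro u hu v hv x hx
    rw [mem_BF] at hx
    unfold BB
    rw [mem_BF, sub_zero]
    have t1 := nm_tri x v 0
    have t2 := nm_tri v u 0
    rw [sub_zero, sub_zero] at t1
    rw [sub_zero, sub_zero] at t2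
    have t3 := hcube u hu
    have t4 : (2 * M + 1) * lam ≤ (2 * M + 1) * (m * lam) := Nat.mul_le_mul_left _ hml
    have t5 : (2 * M + 1) * (m * lam) + 2 * (m * lam) + (m * lam) ≤ (10 * M + 3) * (m * lam) := by
      nlinarith
    omega
  have hself : ∀ v : V d, ∀ n : ℕ, v ∈ BF v n := by
    intro v n
    rw [mem_BF, sub_self, nm_zero]
    exact Nat.zero_le _
  refine ⟨(RegA r0 ((4 * M + 4) * lam) ηr F A ∩ cube lam j).image (fun u => (a u, σ u)),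
    (RegA r0 ((4 * M + 4) * lam) ηr F A' ∩ cube lam j).image (fun u => a' u + step (σ' u)),
    ?_, ?_, ?_, ?_, ?_, ?_⟩
  · refine g1.trans ?_
    have := Fresh_card (RegA r0 ((4 * M + 4) * lam) ηr F A ∩ cube lam j)
      (fun u => (a u, σ u)) (fun b : V d × Dir d => b.1 + step b.2) r0 (by
        intro u hu
        rw [Finset.mem_inter] at hu
        exact (hE u hu.1).2.2.2.2.2.2.1)
    exact_mod_cast this
  · refine g2.trans ?_
    have := Fresh_card (RegA r0 ((4 * M + 4) * lam) ηr F A' ∩ cube lam j)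
      (fun u => a' u + step (σ' u)) (fun b : V d => b) r0 (by
        intro u hu
        rw [Finset.mem_inter] at hu
        exact (hE' u hu.1).2.2.2.2.2.2.1)
    exact_mod_cast this
  · intro b hb
    obtain ⟨u, hu, rfl⟩ := Finset.mem_image.1 hb
    rw [Finset.mem_inter] at hu
    obtain ⟨e1, e2, e3, e4, e5, e6, e7, -, -⟩ := hE u hu.1
    exact ⟨e4, e6, hin u hu.2 _ e7 (hself _ _)⟩
  · intro v hv
    obtain ⟨u, hu, rfl⟩ := Finset.mem_image.1 hv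
    have hu' := hu
    rw [Finset.mem_inter] at hu
    obtain ⟨e1, e2, e3, e4, e5, e6, e7, -, -⟩ := hE' u hu.1
    refine ⟨e6, hin u hu.2 _ e7, ⟨opp (σ' u), ?_⟩, u, hu', e7⟩
    rw [step_opp, add_neg_cancel_right]
    exact e4
  · intro b hb v hv
    obtain ⟨u, hu, rfl⟩ := Finset.mem_image.1 hb
    obtain ⟨u', hu', rfl⟩ := Finset.mem_image.1 hv
    rw [Finset.mem_inter] at hu hu'
    exact Fresh_two h6 hM hlam hr (hsame u hu.2 u' hu'.2) (hE u hu.1) (hE' u' hu'.1)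
  · refine le_trans (Fresh_energy (RegA r0 ((4 * M + 4) * lam) ηr F A ∩ cube lam j)
      (F ∩ cube lam j) ?_ (fun u => (a u, σ u)) (fun b : V d × Dir d => b.1 + step b.2) r0 (d - 4)
      ?_) ?_
    · intro u hu
      rw [Finset.mem_inter] at hu ⊢
      exact ⟨hAF (Fresh_mem.1 hu.1).1, hu.2⟩
    · intro u hu
      rw [Finset.mem_inter] at hu
      exact (hE u hu.1).2.2.2.2.2.2.1
    · exact mul_le_mul_of_nonneg_left g3 (by positivity)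

/-- The bound `G1` for a set of points with regular base points. -/
lemma Fresh_G {r0 lam M : ℕ} {G1 ηr : ℝ} {F A' T : Finset (V d)}
    (hG1 : ∀ (N1 N2 : ℕ) (ηr : ℝ)
      (F A' T : Finset (V d)) (base : V d → V d), ηr ≤ 1 → A' ⊆ F →
      (∀ v ∈ T, base v ∈ RegA r0 N1 ηr F A' ∧ nm (v - base v) ≤ r0) → 2 * N2 + 2 * r0 ≤ N1 →
      ∀ y : V d, ∑ v ∈ T.filter (fun v => nm (v - y) ≤ N2), kr (v - y) ≤ G1)
    (hη : ηr ≤ 1) (hAF' : A' ⊆ F) (hr : 2 * r0 ≤ lam)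
    (hT : ∀ v ∈ T, ∃ u ∈ RegA r0 ((4 * M + 4) * lam) ηr F A', nm (v - u) ≤ r0) (y : V d) :
    ∑ v ∈ T.filter (fun v => nm (v - y) ≤ (2 * M + 1) * lam), kr (v - y) ≤ G1 := by
  choose! base hb1 hb2 using hT
  refine hG1 ((4 * M + 4) * lam) ((2 * M + 1) * lam) ηr F A' T base hη hAF'
    (fun v hv => ⟨hb1 v hv, hb2 v hv⟩) ?_ y
  nlinarith

/-- The pioneers are few in the fresh environment. -/
lemma Fresh_hG {p0 Cn' G1 t κn : ℝ} {N2 : ℕ} {B F T : Finset (V d)} {α : Ed d → ℝ}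
    (hn : ∀ (s : ℝ) (r : ℕ) (z x y : V d), 0 ≤ s → s ≤ 1 → s * (r : ℝ) ^ 2 ≤ κn →
      (perc d (pn p0 s)).real {ω | Cn (Bx z r) ω x y} ≤ Cn' * kr (x - y))
    (hCn : 0 ≤ Cn') (hp0 : 0 ≤ p0) (hp1 : p0 ≤ 1) (h0 : 0 ≤ t) (h1 : t ≤ 1)
    (hκ : t * (N2 : ℝ) ^ 2 ≤ κn) (hα : In01 α)
    (hαp : ∀ e ∈ ins ((B : Set (V d)) \ F), α e = p0)
    (hT : ∀ v ∈ T, v ∉ F ∧ BF v N2 ⊆ B)
    (hG : ∀ y : V d, ∑ v ∈ T.filter (fun v => nm (v - y) ≤ N2), kr (v - y) ≤ G1) (y : V d) :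
    ∑ v ∈ T, (pen α t).real {ω | Cn (Bx v N2 \ (F : Set (V d))) ω y v} ≤ Cn' * G1 := by
  classical
  have hprob : IsProbabilityMeasure (perc d (pn p0 t)) :=
    isProb_perc _ (hp0.trans (pn_ge hp1 h0)) (pn_le hp1 h1)
  have hterm : ∀ v ∈ T, (pen α t).real {ω | Cn (Bx v N2 \ (F : Set (V d))) ω y v} ≤
      if nm (v - y) ≤ N2 then Cn' * kr (v - y) else 0 := by
    intro v hv
    obtain ⟨hvF, hvB⟩ := hT v hv
    have hBx : (Bx v N2 : Set (V d)) ⊆ B := by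
      intro x hx
      rw [← coe_BF] at hx
      exact hvB hx
    split_ifs with hle
    · rw [pen_eq hα hp0 hp1 h0 h1 (ins ((B : Set (V d)) \ F)) hαp _ (meas_Cn _ _ _) (by
        intro ω ω' hω h
        refine Cn.congr h fun e he => hω e ?_
        exact ⟨⟨hBx he.1.1, he.1.2⟩, ⟨hBx he.2.1, he.2.2⟩⟩)]
      refine le_trans (measureReal_mono (fun ω hω => Cn.mono hω Set.sdiff_subset fun _ h => h)
        (measure_ne_top _ _)) ?_
      rw [kr_sub_comm]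
      exact hn t N2 v y v h0 h1 hκ
    · have hem : {ω : Cfg d | Cn (Bx v N2 \ (F : Set (V d))) ω y v} = ∅ := by
        rw [Set.eq_empty_iff_forall_notMem]
        intro ω hω
        have h2 : v ∈ Bx v N2 \ (F : Set (V d)) := by
          refine ⟨?_, hvF⟩
          rw [mem_Bx, sub_self, nm_zero]
          exact Nat.zero_le _
        have h3 := (Cn.symm hω).mem h2
        have h4 := mem_Bx.1 h3.1
        rw [nm_sub_comm] at h4
        exact hle h4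
      rw [hem, measureReal_empty]
  refine (Finset.sum_le_sum hterm).trans ?_
  rw [← Finset.sum_filter, ← Finset.mul_sum]
  exact mul_le_mul_of_nonneg_left (hG y) hCn

/-- Per box: second moment. -/
lemma Fresh_per {η3 C4 c6 G1 Cs κ t uN tN W : ℝ} {lam L r0 : ℕ} (P : ℝ)
    (hd : 7 ≤ d) (ht : 0 < t) (hlam : 1 ≤ lam) (hL : 1 ≤ L) (hη3 : 0 < η3) (hC4 : 0 < C4)
    (hc6 : 0 < c6) (hG1 : 0 < G1) (hCs : 0 < Cs) (hP : 0 ≤ P)
    (hκ : t * (lam : ℝ) ^ 2 ≤ κ ^ 2 / 2) (hW : 0 < W)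
    (hu : η3 * ((lam : ℝ) ^ d / (L : ℝ) ^ 2) ≤ W * uN)
    (hT : η3 * ((lam : ℝ) ^ d / (L : ℝ) ^ 2) ≤ W * tN)
    (h : (t * uN * tN * (c6 / (lam : ℝ) ^ (d - 2))) ^ 2 ≤
      (t * uN * tN * (c6 / (lam : ℝ) ^ (d - 2)) + Cs * t ^ 2 * G1 *
        ((1 + 2 * (r0 : ℝ)) ^ (d - 4) * (C4 * (lam : ℝ) ^ (d + 4) / (L : ℝ) ^ 4))) * P) :
    (η3 ^ 2 * c6 / W ^ 2) ^ 2 / ((η3 ^ 2 * c6 / W ^ 2) +
      (Cs * G1 * (1 + 2 * (r0 : ℝ)) ^ (d - 4) * C4 * (κ ^ 2 / 2))) *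
        (t * (lam : ℝ) ^ (d + 2) / (L : ℝ) ^ 4) ≤ P := by
  have hl : (0 : ℝ) < lam := by exact_mod_cast hlam
  have hL' : (0 : ℝ) < L := by exact_mod_cast hL
  refine Fresh_alg (X := t * uN * tN * (c6 / (lam : ℝ) ^ (d - 2))) (K := Cs * t ^ 2 * G1 *
        ((1 + 2 * (r0 : ℝ)) ^ (d - 4) * (C4 * (lam : ℝ) ^ (d + 4) / (L : ℝ) ^ 4)))
    (by positivity) (by positivity) (by positivity) hP ?_ ?_ h
  · -- lower bound of X
    have h1 : η3 * ((lam : ℝ) ^ d / (L : ℝ) ^ 2) / W ≤ uN := by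
      rw [div_le_iff₀ hW, mul_comm uN]
      exact hu
    have h2 : η3 * ((lam : ℝ) ^ d / (L : ℝ) ^ 2) / W ≤ tN := by
      rw [div_le_iff₀ hW, mul_comm tN]
      exact hT
    have h3 : (0 : ℝ) ≤ η3 * ((lam : ℝ) ^ d / (L : ℝ) ^ 2) / W := by positivity
    have h4 : (η3 * ((lam : ℝ) ^ d / (L : ℝ) ^ 2) / W) * (η3 * ((lam : ℝ) ^ d / (L : ℝ) ^ 2) / W)
        ≤ uN * tN := mul_le_mul h1 h2 h3 (h3.trans h1)
    have h5 : η3 ^ 2 * c6 / W ^ 2 * (t * (lam : ℝ) ^ (d + 2) / (L : ℝ) ^ 4) =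
        t * ((η3 * ((lam : ℝ) ^ d / (L : ℝ) ^ 2) / W) *
          (η3 * ((lam : ℝ) ^ d / (L : ℝ) ^ 2) / W)) * (c6 / (lam : ℝ) ^ (d - 2)) := by
      have h6 : (lam : ℝ) ^ d = (lam : ℝ) ^ (d - 2) * (lam : ℝ) ^ 2 := by
        rw [← pow_add]
        congr 1
        omega
      have h7 : (lam : ℝ) ^ (d + 2) = (lam : ℝ) ^ (d - 2) * (lam : ℝ) ^ 4 := by
        rw [← pow_add]
        congr 1
        omega
      rw [h6, h7]
      field_simp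
    rw [h5, mul_assoc t uN tN]
    have h8 : (0 : ℝ) ≤ c6 / (lam : ℝ) ^ (d - 2) := by positivity
    exact mul_le_mul_of_nonneg_right (mul_le_mul_of_nonneg_left h4 ht.le) h8
  · have h6 : (lam : ℝ) ^ (d + 4) = (lam : ℝ) ^ (d + 2) * (lam : ℝ) ^ 2 := by
      rw [← pow_add]
    have h7 : Cs * t ^ 2 * G1 *
        ((1 + 2 * (r0 : ℝ)) ^ (d - 4) * (C4 * (lam : ℝ) ^ (d + 4) / (L : ℝ) ^ 4)) =
        (Cs * G1 * (1 + 2 * (r0 : ℝ)) ^ (d - 4) * C4 * (t * (lam : ℝ) ^ (d + 2) / (L : ℝ) ^ 4)) *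
          (t * (lam : ℝ) ^ 2) := by
      rw [h6]
      ring
    have h8 : Cs * G1 * (1 + 2 * (r0 : ℝ)) ^ (d - 4) * C4 * (κ ^ 2 / 2) *
        (t * (lam : ℝ) ^ (d + 2) / (L : ℝ) ^ 4) =
        (Cs * G1 * (1 + 2 * (r0 : ℝ)) ^ (d - 4) * C4 * (t * (lam : ℝ) ^ (d + 2) / (L : ℝ) ^ 4)) *
          (κ ^ 2 / 2) := by ring
    rw [h7, h8]
    exact mul_le_mul_of_nonneg_left hκ (by positivity)

theorem fresh {p0 A cM : ℝ} {M : ℕ} (H : Crit d p0 A cM M) : ∃ κ1 ηr : ℝ, 0 < κ1 ∧ 0 < ηr ∧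
    ηr ≤ 1 ∧ ∀ (r0 : ℕ) (η3 η4 C4 κ : ℝ), 1 ≤ r0 → 0 < η3 → 0 < η4 → 0 < C4 → 0 < κ → κ ≤ κ1 →
      ∃ c' : ℝ, 0 < c' ∧ ∀ m : ℕ, 1 ≤ m → ∃ lam0 : ℕ, ∀ (lam : ℕ) (s : ℝ), lam0 ≤ lam →
        κ ^ 2 / 2 ≤ s * (lam : ℝ) ^ 2 → s * (lam : ℝ) ^ 2 ≤ κ ^ 2 →
        ∀ (F A A' : Finset (V d)) (α : Ed d → ℝ), Good M m lam r0 ηr η3 η4 C4 F A A' → In01 α →
          (∀ e ∈ ins ((BB d M (m * lam) : Set (V d)) \ F), α e = p0) →
          (∀ a ∈ F, ∀ σ : Dir d, a + step σ ∈ BB d M (m * lam) → a + step σ ∉ F →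
            α (edge a σ) = 0) →
          (pen α (s / 2)).real (NCn (BB d M (m * lam)) A A') ≤
            Real.exp (-(c' * (m : ℝ) ^ 2 * ((m * lam : ℕ) : ℝ) ^ (d - 6))) := by
  classical
  obtain ⟨ηa, hηa0, hηa1, h6'⟩ := f_two H
  have hd := H.hd
  have hM := H.hM
  have hp0 := H.hp0
  have hp1 := H.hp1
  obtain ⟨C, hC1, hC⟩ := f_avg (d := d) (by omega)
  obtain ⟨κs, Cs, hκs, hCs, hsec⟩ := sec H
  obtain ⟨κn, Cn', hκn, hCn', hnear⟩ := near_two H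
  have hC0 : 0 < C := by linarith
  have hCn0 : 0 < Cn' := by linarith
  have hM2 : (0 : ℝ) < (2 * (M : ℝ) + 1) ^ 2 := by positivity
  have hmin : 0 < min κs κn := lt_min hκs hκn
  refine ⟨min 1 (min κs κn / (2 * (M : ℝ) + 1) ^ 2), ηa / C, lt_min one_pos (by positivity),
    by positivity, ?_, ?_⟩
  · rw [div_le_one hC0]
    linarith
  intro r0 η3 η4 C4 κ hr0 hη3 hη4 hC4 hκ hκ1
  obtain ⟨c6, hc6, h6⟩ := h6' r0 hr0
  obtain ⟨G1, hG10, hG1⟩ := g_bd (d := d) r0 hr0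
  have hκa : κ ≤ 1 := hκ1.trans (min_le_left _ _)
  have hκb : κ * (2 * (M : ℝ) + 1) ^ 2 ≤ min κs κn := by
    have := hκ1.trans (min_le_right _ _)
    rwa [le_div_iff₀ hM2] at this
  obtain ⟨cb, hcb⟩ : ∃ cb, cb = (η3 ^ 2 * c6 / ((2 * (r0 : ℝ) + 1) ^ d) ^ 2) ^ 2 /
      ((η3 ^ 2 * c6 / ((2 * (r0 : ℝ) + 1) ^ d) ^ 2) +
      (Cs * G1 * (1 + 2 * (r0 : ℝ)) ^ (d - 4) * C4 * (κ ^ 2 / 2))) := ⟨_, rfl⟩
  have hcb0 : 0 < cb := by rw [hcb]; positivity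
  refine ⟨η4 * cb / 3 ^ d * κ ^ 4 / (64 * (1 + Cn' * G1)), by positivity, ?_⟩
  intro m hm
  refine ⟨2 * r0, ?_⟩
  intro lam s hlam hs1 hs2 F A A' α hgood hα hαp hα0
  obtain ⟨hFB, hAF, hAF', hdis, Jg, hJg, hJc, hJ⟩ := hgood
  have hl1 : 1 ≤ lam := by omega
  have hl : (1 : ℝ) ≤ lam := by exact_mod_cast hl1
  have hm1 : (1 : ℝ) ≤ m := by exact_mod_cast hm
  have hl2 : (1 : ℝ) ≤ (lam : ℝ) ^ 2 := one_le_pow₀ hl
  have hκ2 : κ ^ 2 ≤ κ := by nlinarith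
  have hs0 : 0 < s := by
    by_contra hn
    have : s * (lam : ℝ) ^ 2 ≤ 0 := mul_nonpos_of_nonpos_of_nonneg (not_lt.1 hn) (by positivity)
    have h2 : 0 < κ ^ 2 / 2 := by positivity
    linarith
  have hsle : s ≤ 1 := by
    have : s * 1 ≤ s * (lam : ℝ) ^ 2 := mul_le_mul_of_nonneg_left hl2 hs0.le
    linarith
  obtain ⟨L, hL⟩ : ∃ L, L = m * lam := ⟨_, rfl⟩
  have hL1 : 1 ≤ L := by rw [hL]; nlinarith
  have hbox : ∀ j ∈ Jg, ∃ (U : Finset (V d × Dir d)) (T : Finset (V d)),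
      η3 * vol d m lam ≤ (2 * (r0 : ℝ) + 1) ^ d * U.card ∧
      η3 * vol d m lam ≤ (2 * (r0 : ℝ) + 1) ^ d * T.card ∧
      (∀ b ∈ U, b.1 ∈ A ∧ b.1 + step b.2 ∉ F ∧ b.1 + step b.2 ∈ BB d M (m * lam)) ∧
      (∀ v ∈ T, v ∉ F ∧ BF v ((2 * M + 1) * lam) ⊆ BB d M (m * lam) ∧
        (∃ σ : Dir d, v + step σ ∈ A') ∧
        ∃ u ∈ RegA r0 ((4 * M + 4) * lam) (ηa / C) F A' ∩ cube lam j, nm (v - u) ≤ r0) ∧
      (∀ b ∈ U, ∀ v ∈ T, c6 / (lam : ℝ) ^ (d - 2) ≤ (perc d p0).real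
        {ω | Cn (Bx v ((2 * M + 1) * lam) \ (F : Set (V d))) ω (b.1 + step b.2) v}) ∧
      ∑ b ∈ U, ∑ b' ∈ U, 1 / (1 + (nm (b.1 + step b.2 - (b'.1 + step b'.2)) : ℝ)) ^ (d - 4) ≤
        (1 + 2 * (r0 : ℝ)) ^ (d - 4) *
          (C4 * (lam : ℝ) ^ (d + 4) / ((m * lam : ℕ) : ℝ) ^ 4) := by
    intro j hj
    obtain ⟨g1, g2, g3⟩ := hJ j hj
    refine Fresh_box (by omega) hC ?_ hηa1 hr0 h6 hM hl1 hlam hm (hJg hj) hAF hAF' g1 g2 g3
    rw [mul_div_cancel₀ _ hC0.ne']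
  choose! U T hU1 hT1 hU2 hT2 hUT hen using hbox
  obtain ⟨N2, hN2⟩ : ∃ N2, N2 = (2 * M + 1) * lam := ⟨_, rfl⟩
  rw [← hN2] at hT2 hUT
  have hηr1 : ηa / C ≤ 1 := by
    rw [div_le_one hC0]
    linarith
  have hN2r : (N2 : ℝ) ^ 2 = (2 * (M : ℝ) + 1) ^ 2 * (lam : ℝ) ^ 2 := by
    rw [hN2]
    push_cast
    ring
  obtain ⟨TT, hTT⟩ : ∃ TT, TT = Jg.biUnion T := ⟨_, rfl⟩
  have hTTm : ∀ v ∈ TT, ∃ j ∈ Jg, v ∈ T j := fun v hv => by
    rw [hTT] at hv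
    exact Finset.mem_biUnion.1 hv
  have hGj : ∀ j ∈ Jg, ∀ y : V d,
      ∑ v ∈ (T j).filter (fun v => nm (v - y) ≤ N2), kr (v - y) ≤ G1 := by
    intro j hj y
    rw [hN2]
    refine Fresh_G hG1 hηr1 hAF' hlam ?_ y
    intro v hv
    obtain ⟨-, -, -, u, hu, huv⟩ := hT2 j hj v hv
    exact ⟨u, (Finset.mem_inter.1 hu).1, huv⟩
  have hGT : ∀ y : V d, ∑ v ∈ TT.filter (fun v => nm (v - y) ≤ N2), kr (v - y) ≤ G1 := by
    intro y
    rw [hN2]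
    refine Fresh_G hG1 hηr1 hAF' hlam ?_ y
    intro v hv
    obtain ⟨j, hj, hvj⟩ := hTTm v hv
    obtain ⟨-, -, -, u, hu, huv⟩ := hT2 j hj v hvj
    exact ⟨u, (Finset.mem_inter.1 hu).1, huv⟩
  have hTB : ∀ v ∈ TT, v ∉ F ∧ BF v N2 ⊆ BB d M (m * lam) := by
    intro v hv
    obtain ⟨j, hj, hvj⟩ := hTTm v hv
    obtain ⟨h1, h2, -, -⟩ := hT2 j hj v hvj
    exact ⟨h1, h2⟩
  -- the test sums
  have main : ∀ t ∈ Set.Icc (s / 4) (s / 2), ∀ S : Finset (V d), A ⊆ S →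
      S ⊆ BB d M (m * lam) → Disjoint S A' →
      η4 * cb / 3 ^ d * (s / 4) * (lam : ℝ) ^ 2 * (L : ℝ) ^ (d - 4) / (1 + Cn' * G1) ≤
        ∑ b ∈ bdI (BB d M (m * lam)) S, (pen α t).real (SCn A (S : Set (V d)) b.1) := by
    intro t ht S hAS hSB hSA
    obtain ⟨ht1, ht2⟩ := ht
    have ht0 : 0 < t := by linarith
    have htle : t ≤ 1 := by linarith
    have htl : t * (lam : ℝ) ^ 2 ≤ κ ^ 2 / 2 := by
      have : t * (lam : ℝ) ^ 2 ≤ s / 2 * (lam : ℝ) ^ 2 :=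
        mul_le_mul_of_nonneg_right ht2 (by positivity)
      linarith
    have htN : t * (N2 : ℝ) ^ 2 ≤ min κs κn := by
      rw [hN2r]
      calc t * ((2 * (M : ℝ) + 1) ^ 2 * (lam : ℝ) ^ 2)
          = (t * (lam : ℝ) ^ 2) * (2 * (M : ℝ) + 1) ^ 2 := by ring
        _ ≤ κ * (2 * (M : ℝ) + 1) ^ 2 := by
            refine mul_le_mul_of_nonneg_right ?_ hM2.le
            have : 0 < κ ^ 2 := by positivity
            linarith
        _ ≤ _ := hκb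
    have hj1 : ∀ j ∈ Jg, cb * (t * (lam : ℝ) ^ (d + 2) / (L : ℝ) ^ 4) ≤
        ∑ v ∈ T j, (pen α t).real
          (SCn A ((A : Set (V d)) ∪ (Bx v N2 \ (F : Set (V d)))) v) := by
      intro j hj
      rw [hcb]
      refine Fresh_per (G1 := G1) (uN := (U j).card) (tN := (T j).card)
        (W := (2 * (r0 : ℝ) + 1) ^ d) _ hd ht0 hl1 hL1 hη3 hC4 hc6 hG10 hCs
        (Finset.sum_nonneg fun _ _ => measureReal_nonneg) htl (by positivity) ?_ ?_ ?_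
      · have := hU1 j hj
        unfold vol at this
        rwa [← hL] at this
      · have := hT1 j hj
        unfold vol at this
        rwa [← hL] at this
      · refine hsec α t N2 (BB d M (m * lam)) F A (T j) (U j) (c6 / (lam : ℝ) ^ (d - 2)) G1 _ hα
          ht0.le htle (htN.trans (min_le_left _ _)) (by positivity) hG10.le (by positivity) hAF hFB
          (fun v hv => ⟨(hT2 j hj v hv).1, (hT2 j hj v hv).2.1⟩) hαp ?_ (hUT j hj) (hGj j hj) ?_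
        · intro b hb
          obtain ⟨b1, b2, b3⟩ := hU2 j hj b hb
          exact ⟨b1, b2, b3, hα0 b.1 (hAF b1) b.2 b3 b2⟩
        · have := hen j hj
          rwa [← hL] at this
    have hsumj : (Jg.card : ℝ) * (cb * (t * (lam : ℝ) ^ (d + 2) / (L : ℝ) ^ 4)) ≤
        ∑ j ∈ Jg, ∑ v ∈ T j, (pen α t).real
          (SCn A ((A : Set (V d)) ∪ (Bx v N2 \ (F : Set (V d)))) v) := by
      rw [← nsmul_eq_mul, ← Finset.sum_const]
      exact Finset.sum_le_sum hj1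
    have hmul := Fresh_mult lam hl1 Jg T (by
      intro j hj v hv
      obtain ⟨-, -, -, u, hu, huv⟩ := hT2 j hj v hv
      exact ⟨u, (Finset.mem_inter.1 hu).2, huv.trans (by omega)⟩)
      (fun v => (pen α t).real (SCn A ((A : Set (V d)) ∪ (Bx v N2 \ (F : Set (V d)))) v))
      (fun v => measureReal_nonneg)
    have htest := test_pt (BB d M (m * lam)) A A' S TT hAS hSB hSA (hAF'.trans hFB) (by
        intro v hv
        obtain ⟨j, hj, hvj⟩ := hTTm v hv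
        exact (hT2 j hj v hvj).2.2.1)
      (fun v => Bx v N2 \ (F : Set (V d))) (by
        intro v hv x hx
        refine (hTB v hv).2 ?_
        rw [mem_BF]
        exact mem_Bx.1 hx.1) (by
        intro v hv a ha hx
        exact hx.2 (hAF ha)) α hα t (Cn' * G1) ht0.le htle
      (Fresh_hG hnear hCn0.le hp0.le hp1.le ht0.le htle (htN.trans (min_le_right _ _)) hα hαp
        hTB hGT)
    rw [← hTT] at hmul
    rw [div_le_iff₀ (by positivity), mul_comm (∑ b ∈ bdI (BB d M (m * lam)) S, _)]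
    refine le_trans ?_ htest
    have h3 : (0 : ℝ) < 3 ^ d := by positivity
    have h4 : η4 * (m : ℝ) ^ d * (cb * (t * (lam : ℝ) ^ (d + 2) / (L : ℝ) ^ 4)) ≤ 3 ^ d *
        ∑ v ∈ TT, (pen α t).real
          (SCn A ((A : Set (V d)) ∪ (Bx v N2 \ (F : Set (V d)))) v) := by
      refine le_trans ?_ (hsumj.trans hmul)
      refine mul_le_mul_of_nonneg_right hJc (by positivity)
    have h5 : η4 * (m : ℝ) ^ d * (cb * (t * (lam : ℝ) ^ (d + 2) / (L : ℝ) ^ 4)) =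
        3 ^ d * (η4 * cb / 3 ^ d * t * (lam : ℝ) ^ 2 * (L : ℝ) ^ (d - 4)) := by
      have h6 : (L : ℝ) ^ (d - 4) * (L : ℝ) ^ 4 = (m : ℝ) ^ d * (lam : ℝ) ^ d := by
        rw [← pow_add, ← mul_pow]
        have : d - 4 + 4 = d := by omega
        rw [this, hL]
        push_cast
        ring
      have h7 : (lam : ℝ) ^ (d + 2) = (lam : ℝ) ^ d * (lam : ℝ) ^ 2 := pow_add _ _ _
      have hL0 : (L : ℝ) ^ 4 ≠ 0 := by
        have : (0 : ℝ) < L := by exact_mod_cast hL1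
        positivity
      rw [h7]
      field_simp
      rw [mul_comm ((L : ℝ) ^ (d - 4))] at h6
      nlinarith [h6]
    rw [h5] at h4
    have h8 := le_of_mul_le_mul_left h4 h3
    refine le_trans ?_ h8
    have h9 : 0 ≤ η4 * cb / 3 ^ d := by positivity
    have h10 : η4 * cb / 3 ^ d * (s / 4) ≤ η4 * cb / 3 ^ d * t := mul_le_mul_of_nonneg_left ht1 h9
    exact mul_le_mul_of_nonneg_right (mul_le_mul_of_nonneg_right h10 (by positivity))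
      (by positivity)
  have hexp := pen_exp (BB d M (m * lam)) A A' (hAF.trans hFB) (hAF'.trans hFB) α hα (s / 4)
    (s / 2) _ (by positivity) (by linarith) (by linarith) main
  refine hexp.trans ?_
  rw [Real.exp_le_exp, neg_le_neg_iff]
  have hL2 : (L : ℝ) ^ (d - 4) = (m : ℝ) ^ 2 * (lam : ℝ) ^ 2 * (L : ℝ) ^ (d - 6) := by
    have : d - 4 = 2 + (d - 6) := by omega
    rw [this, pow_add, hL]
    push_cast
    ring
  have hk : κ ^ 4 / 4 ≤ (s * (lam : ℝ) ^ 2) ^ 2 := by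
    have h1 : (κ ^ 2 / 2) ^ 2 ≤ (s * (lam : ℝ) ^ 2) ^ 2 :=
      pow_le_pow_left₀ (by positivity) hs1 2
    calc κ ^ 4 / 4 = (κ ^ 2 / 2) ^ 2 := by ring
      _ ≤ _ := h1
  rw [← hL, hL2]
  have hG : (0 : ℝ) < 1 + Cn' * G1 := by positivity
  have e1 : η4 * cb / 3 ^ d * κ ^ 4 / (64 * (1 + Cn' * G1)) * (m : ℝ) ^ 2 * (L : ℝ) ^ (d - 6) =
      (η4 * cb / 3 ^ d / (16 * (1 + Cn' * G1)) * (m : ℝ) ^ 2 * (L : ℝ) ^ (d - 6)) * (κ ^ 4 / 4) := by
    field_simp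
    ring
  have e2 : η4 * cb / 3 ^ d * (s / 4) * (lam : ℝ) ^ 2 *
      ((m : ℝ) ^ 2 * (lam : ℝ) ^ 2 * (L : ℝ) ^ (d - 6)) / (1 + Cn' * G1) * (s / 2 - s / 4) =
      (η4 * cb / 3 ^ d / (16 * (1 + Cn' * G1)) * (m : ℝ) ^ 2 * (L : ℝ) ^ (d - 6)) *
        (s * (lam : ℝ) ^ 2) ^ 2 := by
    field_simp
    ring
  rw [e1, e2]
  exact mul_le_mul_of_nonneg_left hk (by positivity)

end H95LBS
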