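import Pool.Agent.H95.LBS.Def

/-!
PROJECT DS (MP_0d9ad5_pr), JOB DS-LawP. Laws of pairs.
PROOF. `map_un`: as `LawA_or`/`map_hi` (file LBD/LawA): `Measure.eq_infinitePi` on check boxes, Fubini, or
transport of `map_hi` through `(Ed -> Bool x Bool) = (Ed -> Bool) x (Ed -> Bool)`. `map_shP`: `perc_shift`
twice (`Measure.map_prod_map`). `meas_dep`: the event is the preimage of a set of a finite space under the
measurable restriction map. `thin_half` is `thin_law` (H5/DF/Thin.lean) with `r = 1/2`.
-/

namespace H95LBS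

open H5DF H95LBD MeasureTheory

variable {d : ℕ}

theorem isProb_PP {p s : ℝ} (h0 : 0 ≤ p) (h1 : p ≤ 1) (hs0 : 0 ≤ s) (hs1 : s ≤ 1) :
    IsProbabilityMeasure (PP d p s) := by
  have := isProb_perc (d := d) p h0 h1
  have := isProb_perc (d := d) s hs0 hs1
  unfold PP
  infer_instance

theorem measurable_un : Measurable (fun q : Cfg d × Cfg d => un q.1 q.2) := by
  have hor : Measurable (fun q : Bool × Bool => (q.1 || q.2)) := measurable_of_countable _
  refine measurable_pi_iff.2 fun i => ?_
  have h1 : Measurable (fun x : Cfg d × Cfg d => (x.1 i, x.2 i)) :=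
    ((measurable_pi_apply i).comp measurable_fst).prodMk
      ((measurable_pi_apply i).comp measurable_snd)
  exact hor.comp h1

/-- Complement of a configuration. -/
def LawP_not (ω : Cfg d) : Cfg d := fun e => !ω e

lemma LawP_meas_not : Measurable (LawP_not : Cfg d → Cfg d) := by
  refine measurable_pi_iff.2 fun i => ?_
  exact (measurable_of_countable (fun b : Bool => !b)).comp (measurable_pi_apply i)

lemma LawP_bern_not (p : ℝ) : (bern p).map (fun b : Bool => !b) = bern (1 - p) := by
  have hm : Measurable (fun b : Bool => !b) := measurable_of_countable _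
  unfold bern
  have e1 : (Measure.dirac true).map (fun b : Bool => !b) = Measure.dirac false :=
    Measure.map_dirac' hm _
  have e2 : (Measure.dirac false).map (fun b : Bool => !b) = Measure.dirac true :=
    Measure.map_dirac' hm _
  rw [Measure.map_add _ _ hm, Measure.map_smul, Measure.map_smul, e1, e2, sub_sub_cancel, add_comm]

lemma LawP_perc_not {p : ℝ} (h0 : 0 ≤ p) (h1 : p ≤ 1) :
    (perc d p).map LawP_not = perc d (1 - p) := by
  have := isProb_bern h0 h1
  have h := Measure.infinitePi_map_pi (ι := Ed d) (X := fun _ => Bool) (Y := fun _ => Bool)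
    (μ := fun _ => bern p) (f := fun _ b => !b) (fun _ => measurable_of_countable _)
  rw [LawP_bern_not] at h
  exact h

lemma LawP_meas_and : Measurable (fun (x : Cfg d × Cfg d) (i : Ed d) => x.1 i && x.2 i) := by
  have hand : Measurable (fun q : Bool × Bool => (q.1 && q.2)) := measurable_of_countable _
  refine measurable_pi_iff.2 fun i => ?_
  have h1 : Measurable (fun x : Cfg d × Cfg d => (x.1 i, x.2 i)) :=
    ((measurable_pi_apply i).comp measurable_fst).prodMk
      ((measurable_pi_apply i).comp measurable_snd)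
  exact hand.comp h1

theorem map_un {p s : ℝ} (h0 : 0 ≤ p) (h1 : p ≤ 1) (hs0 : 0 ≤ s) (hs1 : s ≤ 1) :
    (PP d p s).map (fun q => un q.1 q.2) = perc d (pn p s) := by
  have hPp := isProb_perc (d := d) p h0 h1
  have hPs := isProb_perc (d := d) s hs0 hs1
  have e1 : ((perc d p).prod (perc d s)).map (Prod.map LawP_not LawP_not) =
      (perc d (1 - p)).prod (perc d (1 - s)) := by
    rw [← Measure.map_prod_map _ _ LawP_meas_not LawP_meas_not, LawP_perc_not h0 h1,
      LawP_perc_not hs0 hs1]
  have e2 : ((perc d (1 - p)).prod (perc d (1 - s))).map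
      (fun (x : Cfg d × Cfg d) (i : Ed d) => x.1 i && x.2 i) = perc d ((1 - p) * (1 - s)) :=
    thin_law (ι := Ed d) (1 - p) (1 - s) (by linarith) (by linarith) (by linarith) (by linarith)
  have e3 : (perc d ((1 - p) * (1 - s))).map LawP_not = perc d (pn p s) :=
    LawP_perc_not (mul_nonneg (by linarith) (by linarith))
      (mul_le_one₀ (by linarith) (by linarith) (by linarith))
  have hfun : (fun q : Cfg d × Cfg d => un q.1 q.2) =
      LawP_not ∘ (fun (x : Cfg d × Cfg d) (i : Ed d) => x.1 i && x.2 i) ∘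
        Prod.map LawP_not LawP_not := by
    funext q e
    simp only [Function.comp_apply, LawP_not, un, Prod.map_fst, Prod.map_snd]
    cases q.1 e <;> cases q.2 e <;> rfl
  unfold PP
  rw [hfun, ← Measure.map_map LawP_meas_not
    (LawP_meas_and.comp (LawP_meas_not.prodMap LawP_meas_not)),
    ← Measure.map_map LawP_meas_and (LawP_meas_not.prodMap LawP_meas_not), e1, e2, e3]

theorem map_shP {p s : ℝ} (h0 : 0 ≤ p) (h1 : p ≤ 1) (hs0 : 0 ≤ s) (hs1 : s ≤ 1) (a : V d) :
    (PP d p s).map (fun q => (shift a q.1, shift a q.2)) = PP d p s := by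
  have hPp := isProb_perc (d := d) p h0 h1
  have hPs := isProb_perc (d := d) s hs0 hs1
  have h := Measure.map_prod_map (perc d p) (perc d s) (measurable_shift a) (measurable_shift a)
  rw [perc_shift p h0 h1 a, perc_shift s hs0 hs1 a] at h
  exact h.symm

theorem meas_dep1 (F : Finset (Ed d)) (E : Set (Cfg d))
    (hdep : ∀ ω ω' : Cfg d, (∀ e ∈ F, ω e = ω' e) → ω ∈ E → ω' ∈ E) : MeasurableSet E := by
  have hm : Measurable (fun (ω : Cfg d) (e : F) => ω e) :=
    measurable_pi_iff.2 fun e => measurable_pi_apply _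
  have hE : E = (fun (ω : Cfg d) (e : F) => ω e) ⁻¹'
      ((fun (ω : Cfg d) (e : F) => ω e) '' E) := by
    refine Set.Subset.antisymm (Set.subset_preimage_image _ _) ?_
    rintro ω ⟨ω', hω', h⟩
    exact hdep ω' ω (fun e he => congrFun h ⟨e, he⟩) hω'
  rw [hE]
  exact hm (Set.toFinite _).measurableSet

theorem meas_dep2 (F : Finset (Ed d)) (E : Set (Cfg d × Cfg d))
    (hdep : ∀ q q' : Cfg d × Cfg d, (∀ e ∈ F, q.1 e = q'.1 e ∧ q.2 e = q'.2 e) → q ∈ E → q' ∈ E) :
    MeasurableSet E := by
  have hm : Measurable (fun q : Cfg d × Cfg d =>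
      ((fun e : F => q.1 e, fun e : F => q.2 e) : (F → Bool) × (F → Bool))) :=
    (measurable_pi_iff.2 fun e : F => (measurable_pi_apply _).comp measurable_fst).prodMk
      (measurable_pi_iff.2 fun e : F => (measurable_pi_apply _).comp measurable_snd)
  have hE : E = (fun q : Cfg d × Cfg d =>
      ((fun e : F => q.1 e, fun e : F => q.2 e) : (F → Bool) × (F → Bool))) ⁻¹'
      ((fun q : Cfg d × Cfg d =>
      ((fun e : F => q.1 e, fun e : F => q.2 e) : (F → Bool) × (F → Bool))) '' E) := by
    refine Set.Subset.antisymm (Set.subset_preimage_image _ _) ?_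
    rintro q ⟨q', hq', h⟩
    rw [Prod.mk.injEq] at h
    exact hdep q' q (fun e he => ⟨congrFun h.1 ⟨e, he⟩, congrFun h.2 ⟨e, he⟩⟩) hq'
  rw [hE]
  exact hm (Set.toFinite _).measurableSet

theorem thin_half {s : ℝ} (hs0 : 0 ≤ s) (hs1 : s ≤ 1) :
    ((perc d s).prod (perc d (1 / 2))).map (fun q e => q.1 e && q.2 e) = perc d (s / 2) := by
  have h := thin_law (ι := Ed d) s (1 / 2) hs0 hs1 (by norm_num) (by norm_num)
  rw [mul_one_div] at h
  exact h

end H95LBS
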