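import Pool.Agent.H95.LBS.ConZ

/-!
PROJECT DS (MP_0d9ad5_pr), JOB DS-Mix. Mixing (deterministic; section 3 of note 2700).
PROOF. `L = m lam`, `BG` the big points. Suppose not `Bich`. `R1 := {j ∈ JJ : cn (X ∩ BG) (cube j) < η1 vol}`,
`R2 := {j : cn (X' ∩ BG) (cube j) < η1 vol}`; the other boxes are bichromatic, fewer than `η2 m^d`. The window is
the disjoint union of the `(3m)^d` boxes, `m^d vol = L^(d-2)`. `ca L^(d-2) <= cn (X ∩ BG) WW <=
(3m)^d η1 vol + η2 m^d 2 CB vol + card R2 * 2 CB vol`, so `card R2 >= cv m^d` (k3, k4); same for `R1` with `X'`. By h3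
`cp L^(d+2) <= ZZ`. For `x ∈ reg R1`, `NZ x <= NZ^B x + NZ^c x` (points of `reg R2` in/not in BG).
(1) `x ∉ BG`: `NZ x <= bigN x < b1 L^4` (`Bx 0 (2ML) ⊆ Bx x (10ML)`, `WW ⊆ BF x (10L)`), and `NZ x > 0` only if `x`
is in the reach set: total `<= b1 CR L^(d+2)`. (2) `∑_x NZ^c x = ∑_{y ∈ reg R2 \ BG} #{x ∈ reg R1 far, connected}`
`<= b1 CR L^(d+2)` in the same way. (3) `x` with `hs x > b L^4`: `<= b' L^4 δf L^(d-2)`. So (min(a+c,K) <= min(a,K)+c)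
`∑_{x ∈ reg R1 ∩ BG, hs x <= bL^4} min (NZ^B x) (b' L^4) >= (cp/2) L^(d+2)` by k1. For `x ∈ X`: at most `(3m)^d η1 vol`
such points in `reg R1`: `<= b' L^4 3^d η1 L^(d-2)`. For `x ∈ X'`: the `y` counted are in `X' ∩ BG ∩ reg R2` and in
the hub of `x`, so `∑_x NZ^B x <= ∑_{y ∈ reg R2 ∩ X' ∩ BG} b L^4 <= b L^4 3^d η1 L^(d-2)`. Contradiction with k2.
-/

namespace H95LBS

open H5DF H95LBD MeasureTheory

variable {d : ℕ}

lemma Mix_sum (T : Finset (V d)) (X : Set (V d)) (f : V d → ℝ) (K : ℝ)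
    (h1 : ∀ x ∈ T, x ∈ X → f x ≤ K) (h0 : ∀ x ∈ T, x ∉ X → f x ≤ 0) :
    ∑ x ∈ T, f x ≤ K * cn X T := by
  classical
  rw [← Finset.sum_filter_add_sum_filter_not T (fun x => x ∈ X)]
  have a : ∑ x ∈ T.filter (fun x => x ∈ X), f x ≤ K * cn X T := by
    refine (Finset.sum_le_card_nsmul _ _ K ?_).trans (le_of_eq ?_)
    · intro x hx
      rw [Finset.mem_filter] at hx
      exact h1 x hx.1 hx.2
    · unfold cn
      rw [nsmul_eq_mul, mul_comm]
  have b : ∑ x ∈ T.filter (fun x => x ∉ X), f x ≤ 0 := by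
    refine Finset.sum_nonpos fun x hx => ?_
    rw [Finset.mem_filter] at hx
    exact h0 x hx.1 hx.2
  linarith

lemma Mix_cn_zero {X : Set (V d)} {T : Finset (V d)} (h : ∀ y ∈ T, y ∉ X) : cn X T = 0 := by
  classical
  unfold cn
  rw [Finset.card_eq_zero, Finset.filter_eq_empty_iff]
  intro y hy
  exact h y hy

lemma Mix_cn_union {X X1 X2 : Set (V d)} {T : Finset (V d)}
    (h : ∀ y ∈ T, y ∈ X → y ∈ X1 ∨ y ∈ X2) : cn X T ≤ cn X1 T + cn X2 T := by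
  classical
  unfold cn
  refine (Finset.card_le_card ?_).trans (Finset.card_union_le _ _)
  intro y hy
  rw [Finset.mem_filter] at hy
  rw [Finset.mem_union, Finset.mem_filter, Finset.mem_filter]
  rcases h y hy.1 hy.2 with h1 | h1
  · left
    exact ⟨hy.1, h1⟩
  · right
    exact ⟨hy.1, h1⟩

lemma Mix_bigN (M L : ℕ) (c1 : ℝ) (ω : Cfg d) (x : V d) {X : Set (V d)} {T : Finset (V d)}
    (h : ∀ y ∈ T, y ∈ X → nm (y - x) ≤ 10 * L ∧ c1 * L ≤ nm (y - x) ∧ Cn (Bx x (10 * M * L)) ω x y) :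
    cn X T ≤ bigN M L c1 ω x := by
  classical
  unfold cn bigN
  apply Finset.card_le_card
  intro y hy
  rw [Finset.mem_filter] at hy ⊢
  obtain ⟨h1, h2, h3⟩ := h y hy.1 hy.2
  exact ⟨mem_BF.2 h1, h2, h3⟩

lemma Mix_dc (T T' : Finset (V d)) (P : V d → V d → Prop) :
    ∑ x ∈ T, (cn {y | P x y} T' : ℝ) = ∑ y ∈ T', (cn {x | P x y} T : ℝ) := by
  classical
  simp_rw [Vol_cn]
  exact Finset.sum_comm

lemma Mix_cube_WW {m lam : ℕ} {j : V d} (hj : j ∈ JJ d m) : cube lam j ⊆ WW d (m * lam) := by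
  intro x hx
  rw [mem_cube] at hx
  rw [mem_JJ] at hj
  rw [mem_WW]
  intro i
  obtain ⟨h1, h2⟩ := hx i
  obtain ⟨h3, h4⟩ := hj i
  have hl : (0 : ℤ) ≤ lam := Int.natCast_nonneg _
  push_cast
  constructor
  · nlinarith
  · nlinarith

lemma Mix_reg_WW {m lam : ℕ} {R : Finset (V d)} (hR : R ⊆ JJ d m) :
    reg lam R ⊆ WW d (m * lam) := by
  intro x hx
  obtain ⟨j, hj, hx⟩ := Finset.mem_biUnion.1 hx
  exact Mix_cube_WW (hR hj) hx

lemma Mix_WW_reg {m lam : ℕ} (hlam : 1 ≤ lam) : WW d (m * lam) ⊆ reg lam (JJ d m) := by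
  intro x hx
  rw [mem_WW] at hx
  refine Finset.mem_biUnion.2 ⟨fun i => x i / lam, ?_, ?_⟩
  · rw [mem_JJ]
    intro i
    obtain ⟨h1, h2⟩ := hx i
    have hl : (0 : ℤ) < lam := by exact_mod_cast hlam
    push_cast at h1 h2
    constructor
    · rw [Int.le_ediv_iff_mul_le hl]
      linarith
    · rw [Int.ediv_lt_iff_lt_mul hl]
      linarith
  · rw [mem_cube]
    intro i
    have hl : (0 : ℤ) < lam := by exact_mod_cast hlam
    have h1 := Int.emod_add_mul_ediv (x i) lam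
    have h2 := Int.emod_nonneg (x i) hl.ne'
    have h3 := Int.emod_lt_of_pos (x i) hl
    have e : (lam : ℤ) * (x i / lam) = x i / lam * lam := mul_comm _ _
    have e2 : (x i / lam + 1) * (lam : ℤ) = x i / lam * lam + lam := by ring
    constructor
    · linarith
    · linarith

lemma Mix_cn_reg (X : Set (V d)) (lam : ℕ) (R : Finset (V d)) :
    (cn X (reg lam R) : ℝ) ≤ ∑ j ∈ R, (cn X (cube lam j) : ℝ) := by
  classical
  have : cn X (reg lam R) ≤ ∑ j ∈ R, cn X (cube lam j) := by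
    unfold cn reg
    rw [Finset.filter_biUnion]
    exact Finset.card_biUnion_le
  exact_mod_cast this

lemma Mix_cn_sub {X : Set (V d)} {T T' : Finset (V d)} (h : T ⊆ T') : cn X T ≤ cn X T' :=
  ConZ_cn_sub fun y hy hx => ⟨h hy, hx⟩

lemma Mix_vol {m lam : ℕ} (hm : 1 ≤ m) (hlam : 1 ≤ lam) (hd : 3 ≤ d) :
    0 < vol d m lam ∧ (m : ℝ) ^ d * vol d m lam = ((m * lam : ℕ) : ℝ) ^ (d - 2) := by
  have h1 : (0 : ℝ) < m := by exact_mod_cast hm
  have h2 : (0 : ℝ) < lam := by exact_mod_cast hlam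
  constructor
  · unfold vol
    positivity
  · unfold vol
    obtain ⟨k, rfl⟩ : ∃ k, d = k + 2 := ⟨d - 2, by omega⟩
    have e : k + 2 - 2 = k := by omega
    rw [e]
    push_cast
    rw [mul_pow, mul_pow, pow_add, pow_add]
    field_simp

/-- Many boxes have few points of the other colour. -/
lemma Mix_cnt {m lam : ℕ} (hm : 1 ≤ m) (hlam : 1 ≤ lam) (hd : 3 ≤ d) (Y X X' : Set (V d))
    (CB cv η1 η2 ca : ℝ) (hCB : 0 < CB) (hη1 : 0 < η1)
    (h2 : ∀ j ∈ JJ d m, (cn Y (cube lam j) : ℝ) ≤ 2 * CB * vol d m lam)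
    (k3 : 3 ^ d * η1 + 2 * CB * η2 ≤ ca / 2) (k4 : cv ≤ ca / (4 * CB))
    (hv : ca * ((m * lam : ℕ) : ℝ) ^ (d - 2) ≤ cn (X ∩ Y) (WW d (m * lam)))
    (R2 Bi : Finset (V d)) (hR2 : ∀ j ∈ JJ d m, (cn (X' ∩ Y) (cube lam j) : ℝ) < η1 * vol d m lam → j ∈ R2)
    (hBi : ∀ j ∈ JJ d m, η1 * vol d m lam ≤ (cn (X ∩ Y) (cube lam j) : ℝ) →
      η1 * vol d m lam ≤ (cn (X' ∩ Y) (cube lam j) : ℝ) → j ∈ Bi)
    (hBc : (Bi.card : ℝ) ≤ η2 * (m : ℝ) ^ d) :
    cv * (m : ℝ) ^ d ≤ R2.card := by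
  classical
  obtain ⟨hv0, hvm⟩ := Mix_vol hm hlam hd
  set v := vol d m lam with hvdef
  have hm0 : (0 : ℝ) < m := by exact_mod_cast hm
  have e1 : (cn (X ∩ Y) (WW d (m * lam)) : ℝ) ≤ ∑ j ∈ JJ d m, (cn (X ∩ Y) (cube lam j) : ℝ) := by
    refine le_trans ?_ (Mix_cn_reg _ _ _)
    exact_mod_cast Mix_cn_sub (Mix_WW_reg hlam)
  have e2 : ∑ j ∈ JJ d m, (cn (X ∩ Y) (cube lam j) : ℝ) ≤
      ∑ j ∈ JJ d m, (η1 * v + ((if j ∈ R2 then 2 * CB * v else 0) +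
        (if j ∈ Bi then 2 * CB * v else 0))) := by
    refine Finset.sum_le_sum fun j hj => ?_
    have p0 : 0 < η1 * v := by positivity
    have p1 : 0 < 2 * CB * v := by positivity
    have p2 : (0 : ℝ) ≤ (if j ∈ R2 then 2 * CB * v else 0) := by
      split_ifs
      · exact p1.le
      · exact le_rfl
    have p3 : (0 : ℝ) ≤ (if j ∈ Bi then 2 * CB * v else 0) := by
      split_ifs
      · exact p1.le
      · exact le_rfl
    have p4 : (cn (X ∩ Y) (cube lam j) : ℝ) ≤ 2 * CB * v := by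
      refine le_trans ?_ (h2 j hj)
      exact_mod_cast cn_mono Set.inter_subset_right _
    by_cases a : (cn (X ∩ Y) (cube lam j) : ℝ) < η1 * v
    · linarith
    · rw [not_lt] at a
      by_cases b : (cn (X' ∩ Y) (cube lam j) : ℝ) < η1 * v
      · rw [if_pos (hR2 j hj b)]
        linarith
      · rw [not_lt] at b
        rw [if_pos (hBi j hj a b)]
        linarith
  have e3 : ∑ j ∈ JJ d m, (if j ∈ R2 then 2 * CB * v else 0) ≤ R2.card * (2 * CB * v) := by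
    rw [← Finset.sum_filter, Finset.sum_const, nsmul_eq_mul]
    have : ((JJ d m).filter fun j => j ∈ R2).card ≤ R2.card :=
      Finset.card_le_card fun j hj => (Finset.mem_filter.1 hj).2
    have h : (((JJ d m).filter fun j => j ∈ R2).card : ℝ) ≤ R2.card := by exact_mod_cast this
    exact mul_le_mul_of_nonneg_right h (by positivity)
  have e4 : ∑ j ∈ JJ d m, (if j ∈ Bi then 2 * CB * v else 0) ≤ Bi.card * (2 * CB * v) := by
    rw [← Finset.sum_filter, Finset.sum_const, nsmul_eq_mul]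
    have : ((JJ d m).filter fun j => j ∈ Bi).card ≤ Bi.card :=
      Finset.card_le_card fun j hj => (Finset.mem_filter.1 hj).2
    have h : (((JJ d m).filter fun j => j ∈ Bi).card : ℝ) ≤ Bi.card := by exact_mod_cast this
    exact mul_le_mul_of_nonneg_right h (by positivity)
  rw [Finset.sum_add_distrib, Finset.sum_add_distrib, Finset.sum_const, nsmul_eq_mul,
    ConZ_card_JJ] at e2
  have e5 : (((3 * m) ^ d : ℕ) : ℝ) * (η1 * v) = 3 ^ d * η1 * ((m : ℝ) ^ d * v) := by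
    push_cast
    rw [mul_pow]
    ring
  rw [e5] at e2
  have e6 : (Bi.card : ℝ) * (2 * CB * v) ≤ 2 * CB * η2 * ((m : ℝ) ^ d * v) := by
    have : (Bi.card : ℝ) * (2 * CB * v) ≤ η2 * (m : ℝ) ^ d * (2 * CB * v) :=
      mul_le_mul_of_nonneg_right hBc (by positivity)
    refine this.trans (le_of_eq ?_)
    ring
  rw [← hvm] at hv
  have hmv : 0 < (m : ℝ) ^ d * v := by positivity
  have e7 : ca / 2 * ((m : ℝ) ^ d * v) ≤ R2.card * (2 * CB * v) := by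
    have := mul_le_mul_of_nonneg_right k3 hmv.le
    linarith
  have e8 : ca / (4 * CB) * (m : ℝ) ^ d ≤ R2.card := by
    have h : ca / (4 * CB) * (m : ℝ) ^ d * (2 * CB * v) ≤ R2.card * (2 * CB * v) := by
      refine le_trans (le_of_eq ?_) e7
      field_simp
      ring
    exact le_of_mul_le_mul_right h (by positivity)
  exact (mul_le_mul_of_nonneg_right k4 (by positivity)).trans e8

lemma Mix_box {M L : ℕ} (hM : 1 ≤ M) : (Bx 0 (2 * M * L) : Set (V d)) ⊆ (BB d M L : Set (V d)) := by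
  intro x hx
  unfold BB
  rw [Finset.mem_coe, mem_BF, sub_zero]
  rw [mem_Bx0] at hx
  refine hx.trans ?_
  nlinarith

lemma Mix_nm_WW {L : ℕ} {x : V d} (hx : x ∈ WW d L) : nm x ≤ 2 * L := by
  rw [nm_le]
  rw [mem_WW] at hx
  intro i
  have := hx i
  omega

lemma Mix_box2 {M L : ℕ} (hM : 1 ≤ M) {x : V d} (hx : x ∈ WW d L) :
    (Bx 0 (2 * M * L) : Set (V d)) ⊆ Bx x (10 * M * L) := by
  intro y hy
  rw [mem_Bx0] at hy
  rw [mem_Bx]
  have h1 := nm_sub y x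
  have h2 := Mix_nm_WW hx
  nlinarith [Nat.mul_le_mul_right L hM]

/-- Points which are not big have few far partners. -/
lemma Mix_far {M L : ℕ} (hM : 1 ≤ M) (c1 b1 : ℝ) (hb1 : 0 < b1) (ω : Cfg d) (T T' : Finset (V d))
    (hT : T ⊆ WW d L) (hT' : T' ⊆ WW d L) :
    ∑ x ∈ T, (cn {y | x ∉ BG M L c1 b1 ω ∧ c1 * L ≤ nm (y - x) ∧ Cn (Bx 0 (2 * M * L)) ω x y} T' : ℝ) ≤
      b1 * (L : ℝ) ^ 4 *
        cn {x | ∃ z, c1 * L ≤ nm (z - x) ∧ Cn (BB d M L : Set (V d)) ω x z} (WW d L) := by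
  classical
  set Rs : Set (V d) := {x | ∃ z, c1 * L ≤ nm (z - x) ∧ Cn (BB d M L : Set (V d)) ω x z} with hRs
  refine (Mix_sum T Rs _ (b1 * (L : ℝ) ^ 4) ?_ ?_).trans ?_
  · intro x hx _
    by_cases hG : x ∈ BG M L c1 b1 ω
    · have : cn {y | x ∉ BG M L c1 b1 ω ∧ c1 * L ≤ nm (y - x) ∧ Cn (Bx 0 (2 * M * L)) ω x y} T' = 0 := by
        refine Mix_cn_zero fun y _ h => ?_
        exact h.1 hG
      rw [this, Nat.cast_zero]
      positivity
    · have h1 : (bigN M L c1 ω x : ℝ) < b1 * (L : ℝ) ^ 4 := by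
        by_contra h
        exact hG (not_lt.1 h)
      refine le_trans ?_ h1.le
      have : cn {y | x ∉ BG M L c1 b1 ω ∧ c1 * L ≤ nm (y - x) ∧ Cn (Bx 0 (2 * M * L)) ω x y} T' ≤
          bigN M L c1 ω x := by
        refine Mix_bigN M L c1 ω x fun y hy1 hy => ?_
        obtain ⟨_, hy2, hy3⟩ := hy
        refine ⟨?_, hy2, hy3.mono (Mix_box2 hM (hT hx)) (fun _ h => h)⟩
        have h1 := nm_sub y x
        have h2 := Mix_nm_WW (hT hx)
        have h3 := Mix_nm_WW (hT' hy1)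
        omega
      exact_mod_cast this
  · intro x hx hn
    have : cn {y | x ∉ BG M L c1 b1 ω ∧ c1 * L ≤ nm (y - x) ∧ Cn (Bx 0 (2 * M * L)) ω x y} T' = 0 := by
      refine Mix_cn_zero fun y _ h => ?_
      exact hn ⟨y, h.2.1, h.2.2.mono (Mix_box hM) (fun _ h => h)⟩
    rw [this, Nat.cast_zero]
  · have : (cn Rs T : ℝ) ≤ cn Rs (WW d L) := by exact_mod_cast Mix_cn_sub hT
    exact mul_le_mul_of_nonneg_left this (by positivity)

theorem mixing {M m lam L : ℕ} (hL : L = m * lam) (hm : 1 ≤ m) (hlam : 1 ≤ lam) (hM : 1 ≤ M)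
    (hd : 3 ≤ d) (ω : Cfg d) (c1 b1 CB CR cv cp b' b δf η1 η2 ca : ℝ) (hc1 : 0 < c1) (hb1 : 0 < b1)
    (hCB : 0 < CB) (hCR : 0 < CR) (hb' : 0 < b') (hb : 0 < b) (hη1 : 0 < η1) (hη2 : 0 < η2)
    (h2 : ∀ j ∈ JJ d m, (cn (BG M L c1 b1 ω) (cube lam j) : ℝ) ≤ 2 * CB * vol d m lam)
    (h3 : ∀ R1 ⊆ JJ d m, ∀ R2 ⊆ JJ d m, cv * (m : ℝ) ^ d ≤ R1.card → cv * (m : ℝ) ^ d ≤ R2.card →
      cp * (L : ℝ) ^ (d + 2) ≤ ZZ M L lam c1 b' R1 R2 ω)
    (h4 : (cn {x | ∃ z, c1 * L ≤ nm (z - x) ∧ Cn (BB d M L : Set (V d)) ω x z} (WW d L) : ℝ) ≤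
      CR * (L : ℝ) ^ (d - 2))
    (h5 : (cn {x | b * (L : ℝ) ^ 4 < hs (BB d M L) ω x} (WW d L) : ℝ) ≤ δf * (L : ℝ) ^ (d - 2))
    (k1 : 2 * b1 * CR + b' * δf ≤ cp / 2) (k2 : 3 ^ d * η1 * (b + b') < cp / 2)
    (k3 : 3 ^ d * η1 + 2 * CB * η2 ≤ ca / 2) (k4 : cv ≤ ca / (4 * CB))
    (X X' : Set (V d)) (hX : HubCl (BB d M L) ω X) (hX' : HubCl (BB d M L) ω X')
    (hdis : Disjoint X X') (hcov : ∀ x ∈ WW d L, x ∈ BG M L c1 b1 ω → x ∈ X ∨ x ∈ X')
    (hv : ca * (L : ℝ) ^ (d - 2) ≤ cn (X ∩ BG M L c1 b1 ω) (WW d L))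
    (hv' : ca * (L : ℝ) ^ (d - 2) ≤ cn (X' ∩ BG M L c1 b1 ω) (WW d L)) :
    Bich m lam (BG M L c1 b1 ω) η1 η2 X X' := by
  classical
  by_contra hnot
  unfold Bich at hnot
  rw [not_le] at hnot
  subst hL
  obtain ⟨hv0, hvm⟩ := Mix_vol hm hlam hd
  set v := vol d m lam with hvdef
  set L : ℕ := m * lam with hLdef
  set Y : Set (V d) := BG M L c1 b1 ω with hY
  set Bi : Finset (V d) := (JJ d m).filter fun j => η1 * v ≤ cn (X ∩ Y) (cube lam j) ∧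
    η1 * v ≤ cn (X' ∩ Y) (cube lam j) with hBi
  set R1 : Finset (V d) := (JJ d m).filter fun j => (cn (X ∩ Y) (cube lam j) : ℝ) < η1 * v with hR1
  set R2 : Finset (V d) := (JJ d m).filter fun j => (cn (X' ∩ Y) (cube lam j) : ℝ) < η1 * v with hR2
  have hR1s : R1 ⊆ JJ d m := Finset.filter_subset _ _
  have hR2s : R2 ⊆ JJ d m := Finset.filter_subset _ _
  have c2 : cv * (m : ℝ) ^ d ≤ R2.card := by
    refine Mix_cnt hm hlam hd Y X X' CB cv η1 η2 ca hCB hη1 h2 k3 k4 hv R2 Bi ?_ ?_ hnot.le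
    · intro j hj h
      exact Finset.mem_filter.2 ⟨hj, h⟩
    · intro j hj h h'
      exact Finset.mem_filter.2 ⟨hj, h, h'⟩
  have c1' : cv * (m : ℝ) ^ d ≤ R1.card := by
    refine Mix_cnt hm hlam hd Y X' X CB cv η1 η2 ca hCB hη1 h2 k3 k4 hv' R1 Bi ?_ ?_ hnot.le
    · intro j hj h
      exact Finset.mem_filter.2 ⟨hj, h⟩
    · intro j hj h h'
      exact Finset.mem_filter.2 ⟨hj, h', h⟩
  have hZ := h3 R1 hR1s R2 hR2s c1' c2
  have hLr : (1 : ℝ) ≤ L := by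
    have : 1 ≤ L := Nat.mul_pos hm hlam
    exact_mod_cast this
  have hL0 : (0 : ℝ) < L := lt_of_lt_of_le zero_lt_one hLr
  set T1 := reg lam R1 with hT1
  set T2 := reg lam R2 with hT2
  have hT1W : T1 ⊆ WW d L := Mix_reg_WW hR1s
  have hT2W : T2 ⊆ WW d L := Mix_reg_WW hR2s
  set K : ℝ := b' * (L : ℝ) ^ 4 with hK
  have hK0 : 0 < K := by positivity
  have epow : (L : ℝ) ^ 4 * (L : ℝ) ^ (d - 2) = (L : ℝ) ^ (d + 2) := by
    rw [← pow_add]
    congr 1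
    omega
  -- counts of the colours in the regions
  have hX1 : (cn (X ∩ Y) T1 : ℝ) ≤ 3 ^ d * η1 * (L : ℝ) ^ (d - 2) := by
    calc (cn (X ∩ Y) T1 : ℝ) ≤ ∑ j ∈ R1, (cn (X ∩ Y) (cube lam j) : ℝ) := Mix_cn_reg _ _ _
      _ ≤ ∑ j ∈ R1, η1 * v := Finset.sum_le_sum fun j hj => (Finset.mem_filter.1 hj).2.le
      _ = R1.card * (η1 * v) := by rw [Finset.sum_const, nsmul_eq_mul]
      _ ≤ (JJ d m).card * (η1 * v) := by
          have : (R1.card : ℝ) ≤ (JJ d m).card := by exact_mod_cast Finset.card_le_card hR1s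
          exact mul_le_mul_of_nonneg_right this (by positivity)
      _ = 3 ^ d * η1 * (L : ℝ) ^ (d - 2) := by
          rw [ConZ_card_JJ, ← hvm]
          push_cast
          rw [mul_pow]
          ring
  have hX2 : (cn (X' ∩ Y) T2 : ℝ) ≤ 3 ^ d * η1 * (L : ℝ) ^ (d - 2) := by
    calc (cn (X' ∩ Y) T2 : ℝ) ≤ ∑ j ∈ R2, (cn (X' ∩ Y) (cube lam j) : ℝ) := Mix_cn_reg _ _ _
      _ ≤ ∑ j ∈ R2, η1 * v := Finset.sum_le_sum fun j hj => (Finset.mem_filter.1 hj).2.le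
      _ = R2.card * (η1 * v) := by rw [Finset.sum_const, nsmul_eq_mul]
      _ ≤ (JJ d m).card * (η1 * v) := by
          have : (R2.card : ℝ) ≤ (JJ d m).card := by exact_mod_cast Finset.card_le_card hR2s
          exact mul_le_mul_of_nonneg_right this (by positivity)
      _ = 3 ^ d * η1 * (L : ℝ) ^ (d - 2) := by
          rw [ConZ_card_JJ, ← hvm]
          push_cast
          rw [mul_pow]
          ring
  -- the five parts
  let P : V d → V d → Prop := fun x y => c1 * L ≤ nm (y - x) ∧ Cn (Bx 0 (2 * M * L)) ω x y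
  let A1 : V d → ℝ := fun x => (cn {y | x ∉ Y ∧ P x y} T2 : ℝ)
  let A2 : V d → ℝ := fun x => (cn {y | y ∉ Y ∧ P x y} T2 : ℝ)
  let A3 : V d → ℝ := fun x => if b * (L : ℝ) ^ 4 < hs (BB d M L) ω x then K else 0
  let A4 : V d → ℝ := fun x => if x ∈ X ∩ Y then K else 0
  let A5 : V d → ℝ := fun x =>
    (cn {y | (x ∈ X' ∧ (hs (BB d M L) ω x : ℝ) ≤ b * (L : ℝ) ^ 4) ∧ y ∈ Y ∧ P x y} T2 : ℝ)
  have n1 : ∀ x, 0 ≤ A1 x := fun x => Nat.cast_nonneg _
  have n2 : ∀ x, 0 ≤ A2 x := fun x => Nat.cast_nonneg _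
  have n3 : ∀ x, 0 ≤ A3 x := by
    intro x
    change 0 ≤ if b * (L : ℝ) ^ 4 < hs (BB d M L) ω x then K else 0
    split_ifs
    · exact hK0.le
    · exact le_rfl
  have n4 : ∀ x, 0 ≤ A4 x := by
    intro x
    change 0 ≤ if x ∈ X ∩ Y then K else 0
    split_ifs
    · exact hK0.le
    · exact le_rfl
  have n5 : ∀ x, 0 ≤ A5 x := fun x => Nat.cast_nonneg _
  have key : ∀ x ∈ T1, min (NZ M L lam c1 R2 ω x : ℝ) K ≤ A1 x + A2 x + A3 x + A4 x + A5 x := by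
    intro x hx
    have m1 := min_le_left (NZ M L lam c1 R2 ω x : ℝ) K
    have m2 := min_le_right (NZ M L lam c1 R2 ω x : ℝ) K
    have q1 := n1 x
    have q2 := n2 x
    have q3 := n3 x
    have q4 := n4 x
    have q5 := n5 x
    by_cases hxY : x ∈ Y
    · by_cases hh : b * (L : ℝ) ^ 4 < hs (BB d M L) ω x
      · have : A3 x = K := if_pos hh
        linarith
      · by_cases hxX : x ∈ X
        · have : A4 x = K := if_pos ⟨hxX, hxY⟩
          linarith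
        · have hxX' : x ∈ X' := (hcov x (hT1W hx) hxY).resolve_left hxX
          have : (NZ M L lam c1 R2 ω x : ℝ) ≤ A2 x + A5 x := by
            have h : NZ M L lam c1 R2 ω x ≤ cn {y | y ∉ Y ∧ P x y} T2 +
                cn {y | (x ∈ X' ∧ (hs (BB d M L) ω x : ℝ) ≤ b * (L : ℝ) ^ 4) ∧ y ∈ Y ∧ P x y} T2 := by
              unfold NZ
              refine Mix_cn_union fun y _ hy => ?_
              by_cases hyY : y ∈ Y
              · right
                exact ⟨⟨hxX', not_lt.1 hh⟩, hyY, hy⟩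
              · left
                exact ⟨hyY, hy⟩
            have h' : (NZ M L lam c1 R2 ω x : ℝ) ≤ ((cn {y | y ∉ Y ∧ P x y} T2 +
                cn {y | (x ∈ X' ∧ (hs (BB d M L) ω x : ℝ) ≤ b * (L : ℝ) ^ 4) ∧ y ∈ Y ∧ P x y} T2 : ℕ) : ℝ) := by
              exact_mod_cast h
            rw [Nat.cast_add] at h'
            exact h'
          linarith
    · have : (NZ M L lam c1 R2 ω x : ℝ) ≤ A1 x := by
        have h : NZ M L lam c1 R2 ω x ≤ cn {y | x ∉ Y ∧ P x y} T2 := by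
          unfold NZ
          refine cn_mono ?_ _
          intro y hy
          exact ⟨hxY, hy⟩
        have h' : (NZ M L lam c1 R2 ω x : ℝ) ≤ (cn {y | x ∉ Y ∧ P x y} T2 : ℝ) := by
          exact_mod_cast h
        exact h'
      linarith
  have hsum : ZZ M L lam c1 b' R1 R2 ω ≤ ∑ x ∈ T1, A1 x + ∑ x ∈ T1, A2 x + ∑ x ∈ T1, A3 x +
      ∑ x ∈ T1, A4 x + ∑ x ∈ T1, A5 x := by
    rw [← Finset.sum_add_distrib, ← Finset.sum_add_distrib, ← Finset.sum_add_distrib,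
      ← Finset.sum_add_distrib]
    exact Finset.sum_le_sum key
  have hRs0 : b1 * (L : ℝ) ^ 4 *
      cn {x | ∃ z, c1 * L ≤ nm (z - x) ∧ Cn (BB d M L : Set (V d)) ω x z} (WW d L) ≤
      b1 * CR * (L : ℝ) ^ (d + 2) := by
    refine (mul_le_mul_of_nonneg_left h4 (by positivity)).trans (le_of_eq ?_)
    rw [← epow]
    ring
  have s1 : ∑ x ∈ T1, A1 x ≤ b1 * CR * (L : ℝ) ^ (d + 2) :=
    (Mix_far hM c1 b1 hb1 ω T1 T2 hT1W hT2W).trans hRs0
  have s2 : ∑ x ∈ T1, A2 x ≤ b1 * CR * (L : ℝ) ^ (d + 2) := by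
    have h : ∑ x ∈ T1, A2 x = ∑ y ∈ T2, (cn {x | y ∉ Y ∧ P x y} T1 : ℝ) :=
      Mix_dc T1 T2 fun x y => y ∉ Y ∧ P x y
    rw [h]
    refine le_trans (le_of_eq ?_) ((Mix_far hM c1 b1 hb1 ω T2 T1 hT2W hT1W).trans hRs0)
    refine Finset.sum_congr rfl fun y _ => ?_
    have e : {x | y ∉ Y ∧ P x y} =
        {x | y ∉ BG M L c1 b1 ω ∧ c1 * L ≤ nm (x - y) ∧ Cn (Bx 0 (2 * M * L)) ω y x} := by
      ext x
      constructor
      · rintro ⟨h1, h2, h3⟩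
        refine ⟨h1, ?_, h3.symm⟩
        rw [nm_sub_comm]
        exact h2
      · rintro ⟨h1, h2, h3⟩
        refine ⟨h1, ?_, h3.symm⟩
        rw [nm_sub_comm]
        exact h2
    rw [e]
  have s3 : ∑ x ∈ T1, A3 x ≤ b' * δf * (L : ℝ) ^ (d + 2) := by
    have h := Mix_sum T1 {x | b * (L : ℝ) ^ 4 < hs (BB d M L) ω x} A3 K
      (fun x _ hx => le_of_eq (if_pos hx)) (fun x _ hx => le_of_eq (if_neg hx))
    have h6 : (cn {x | b * (L : ℝ) ^ 4 < hs (BB d M L) ω x} T1 : ℝ) ≤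
        cn {x | b * (L : ℝ) ^ 4 < hs (BB d M L) ω x} (WW d L) := by
      exact_mod_cast Mix_cn_sub hT1W
    refine h.trans ((mul_le_mul_of_nonneg_left (h6.trans h5) hK0.le).trans (le_of_eq ?_))
    rw [← epow, hK]
    ring
  have s4 : ∑ x ∈ T1, A4 x ≤ 3 ^ d * η1 * b' * (L : ℝ) ^ (d + 2) := by
    have h := Mix_sum T1 (X ∩ Y) A4 K
      (fun x _ hx => le_of_eq (if_pos hx)) (fun x _ hx => le_of_eq (if_neg hx))
    refine h.trans ((mul_le_mul_of_nonneg_left hX1 hK0.le).trans (le_of_eq ?_))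
    rw [← epow, hK]
    ring
  have s5 : ∑ x ∈ T1, A5 x ≤ 3 ^ d * η1 * b * (L : ℝ) ^ (d + 2) := by
    have h : ∑ x ∈ T1, A5 x = ∑ y ∈ T2,
        (cn {x | (x ∈ X' ∧ (hs (BB d M L) ω x : ℝ) ≤ b * (L : ℝ) ^ 4) ∧ y ∈ Y ∧ P x y} T1 : ℝ) :=
      Mix_dc T1 T2 fun x y => (x ∈ X' ∧ (hs (BB d M L) ω x : ℝ) ≤ b * (L : ℝ) ^ 4) ∧ y ∈ Y ∧ P x y
    rw [h]
    have h' := Mix_sum T2 (X' ∩ Y) (fun y =>
      (cn {x | (x ∈ X' ∧ (hs (BB d M L) ω x : ℝ) ≤ b * (L : ℝ) ^ 4) ∧ y ∈ Y ∧ P x y} T1 : ℝ))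
      (b * (L : ℝ) ^ 4) ?_ ?_
    · refine h'.trans ((mul_le_mul_of_nonneg_left hX2 (by positivity)).trans (le_of_eq ?_))
      rw [← epow]
      ring
    · intro y hy _
      by_cases hne : ∃ x, (x ∈ X' ∧ (hs (BB d M L) ω x : ℝ) ≤ b * (L : ℝ) ^ 4) ∧ y ∈ Y ∧ P x y
      · obtain ⟨x0, ⟨_, hx0⟩, _, _, hx0c⟩ := hne
        have hc0 : Cn (BB d M L : Set (V d)) ω x0 y := hx0c.mono (Mix_box hM) (fun _ h => h)
        have hse : hs (BB d M L) ω y = hs (BB d M L) ω x0 := by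
          unfold hs
          rw [hub_eq hc0]
        rw [← hse] at hx0
        refine le_trans ?_ hx0
        have : cn {x | (x ∈ X' ∧ (hs (BB d M L) ω x : ℝ) ≤ b * (L : ℝ) ^ 4) ∧ y ∈ Y ∧ P x y} T1 ≤
            hs (BB d M L) ω y := by
          unfold hs
          refine ConZ_cn_sub fun x hx1 hx2 => ⟨WW_sub_BB (hT1W hx1), ?_⟩
          have : Cn (BB d M L : Set (V d)) ω x y := hx2.2.2.2.mono (Mix_box hM) (fun _ h => h)
          exact this.symm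
        exact_mod_cast this
      · have : cn {x | (x ∈ X' ∧ (hs (BB d M L) ω x : ℝ) ≤ b * (L : ℝ) ^ 4) ∧ y ∈ Y ∧ P x y} T1 = 0 := by
          refine Mix_cn_zero fun x _ h => ?_
          exact hne ⟨x, h⟩
        rw [this, Nat.cast_zero]
        positivity
    · intro y hy hn
      have : cn {x | (x ∈ X' ∧ (hs (BB d M L) ω x : ℝ) ≤ b * (L : ℝ) ^ 4) ∧ y ∈ Y ∧ P x y} T1 = 0 := by
        refine Mix_cn_zero fun x _ h => ?_
        refine hn ⟨hX'.2 x h.1.1 y ?_, h.2.1⟩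
        exact h.2.2.2.mono (Mix_box hM) (fun _ h => h)
      rw [this, Nat.cast_zero]
  have hLp : (0 : ℝ) < (L : ℝ) ^ (d + 2) := by positivity
  have t1 : cp * (L : ℝ) ^ (d + 2) ≤
      (2 * b1 * CR + b' * δf + 3 ^ d * η1 * (b + b')) * (L : ℝ) ^ (d + 2) := by
    refine hZ.trans (hsum.trans ?_)
    refine le_trans (add_le_add (add_le_add (add_le_add (add_le_add s1 s2) s3) s4) s5) (le_of_eq ?_)
    ring
  have t2 := le_of_mul_le_mul_right t1 hLp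
  linarith

end H95LBS
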