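import Pool.Agent.H95.LBS.MsDef

/-!
PROJECT DS (MP_0d9ad5_pr), JOB DS-MsA. Skeletons are connected (deterministic; section 8 of note 2700).
PROOF. `sk_sub`: induction on `k` (`cube (K^(k+1)) j` is the union of `cube (K^k) i`, `i ∈ cube K j`).
`sk_ne`: if `¬ bad (k+1) j` then for a direction `i0` fewer than `K/4` of the `K` values `c` of the coordinate `i0` are
met by a bad sub-box, so some hyperplane is free of bad sub-boxes. `sk_conn` by induction on `k`: (0) adjacent good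
sites. (k+1): call a free hyperplane (i0,c) of box `j` a slab. Inside a slab the sub-boxes form a grid connected
by steps (`d >= 2`), all not bad: connected by induction. Two slabs of one box in different directions share a
sub-box; two parallel slabs are both met by a slab in another direction. Adjacent boxes `j' = j + step s`:
choose `i2 ≠` the direction of `s` and `c` such that the hyperplane (i2,c) is free in both boxes (fewer than `K/4`
values excluded in each): the two slabs contain adjacent sub-boxes `i`, `i + step s`, both not bad: connected by induction.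
-/

namespace H95LBS

open H5DF H95LBD MeasureTheory

variable {d : ℕ}

theorem MsA_gc_mono {g : V d → Prop} {T T' : Set (V d)} (h : T ⊆ T') {a b : V d}
    (hab : gc g T a b) : gc g T' a b := by
  unfold gc at hab ⊢
  induction hab with
  | refl => exact Relation.ReflTransGen.refl
  | tail _ hxy ih =>
    exact Relation.ReflTransGen.tail ih
      ⟨hxy.1, hxy.2.1, hxy.2.2.1, h hxy.2.2.2.1, h hxy.2.2.2.2⟩

theorem MsA_step_back (x : V d) (s : Dir d) : x = x + step s + step (opp s) := by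
  ext a
  rcases s with ⟨i, b⟩
  by_cases ha : a = i
  · subst ha
    cases b <;> simp [step, opp]
  · simp [step, opp, Pi.single_eq_of_ne ha]

theorem MsA_gc_symm {g : V d → Prop} {T : Set (V d)} {a b : V d} (hab : gc g T a b) :
    gc g T b a := by
  unfold gc at hab ⊢
  induction hab with
  | refl => exact Relation.ReflTransGen.refl
  | tail _ h ih =>
    obtain ⟨⟨s, hs⟩, h1, h2, h3, h4⟩ := h
    refine Relation.ReflTransGen.head ⟨⟨opp s, ?_⟩, h2, h1, h4, h3⟩ ih
    rw [hs]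
    exact MsA_step_back _ s

theorem MsA_gc_trans {g : V d → Prop} {T : Set (V d)} {a b c : V d} (hab : gc g T a b)
    (hbc : gc g T b c) : gc g T a c := Relation.ReflTransGen.trans hab hbc

open Classical in
theorem MsA_free (K : ℕ) (P : V d → Prop) (j j' : V d) (i0 : Fin d)
    (h : 4 * ((cube K j).filter P).card < K) (h' : 4 * ((cube K j').filter P).card < K) :
    ∃ c : ℤ, j i0 * K ≤ c ∧ c < (j i0 + 1) * K ∧ (∀ i ∈ cube K j, i i0 = c → ¬ P i) ∧
      (∀ i ∈ cube K j', i i0 = c → ¬ P i) := by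
  by_contra hcon
  have hcon2 : ∀ c : ℤ, j i0 * K ≤ c → c < (j i0 + 1) * K →
      (∃ i ∈ cube K j, i i0 = c ∧ P i) ∨ (∃ i ∈ cube K j', i i0 = c ∧ P i) := by
    intro c h1 h2
    by_contra h3
    apply hcon
    refine ⟨c, h1, h2, ?_, ?_⟩
    · intro i hi hc hP
      exact h3 (Or.inl ⟨i, hi, hc, hP⟩)
    · intro i hi hc hP
      exact h3 (Or.inr ⟨i, hi, hc, hP⟩)
  have hsub : Finset.Ico (j i0 * (K : ℤ)) ((j i0 + 1) * K) ⊆
      (((cube K j).filter P) ∪ ((cube K j').filter P)).image (fun i => i i0) := by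
    intro c hc
    rw [Finset.mem_Ico] at hc
    rw [Finset.mem_image]
    rcases hcon2 c hc.1 hc.2 with ⟨i, hi, hic, hP⟩ | ⟨i, hi, hic, hP⟩
    · exact ⟨i, Finset.mem_union_left _ (Finset.mem_filter.2 ⟨hi, hP⟩), hic⟩
    · exact ⟨i, Finset.mem_union_right _ (Finset.mem_filter.2 ⟨hi, hP⟩), hic⟩
  have hcard := Finset.card_le_card hsub
  have h2 := Finset.card_image_le (s := ((cube K j).filter P) ∪ ((cube K j').filter P))
    (f := fun i => i i0)
  have h3 := Finset.card_union_le ((cube K j).filter P) ((cube K j').filter P)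
  rw [Int.card_Ico] at hcard
  have h4 : ((j i0 + 1) * (K : ℤ) - j i0 * K).toNat = K := by
    have : (j i0 + 1) * (K : ℤ) - j i0 * K = K := by ring
    rw [this]
    simp
  rw [h4] at hcard
  omega

theorem MsA_not_bad {g : V d → Prop} {K k : ℕ} {j : V d} (h : ¬ bad g K (k + 1) j) :
    4 * (@Finset.filter _ (fun i => bad g K k i) (fun _ => Classical.propDecidable _)
      (cube K j)).card < K := by
  unfold bad at h
  exact not_le.1 h

/-- A slab of a scale-`(k+1)` box: all sub-boxes of the hyperplane `i0`, `c` are not bad. -/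
def MsA_slab (g : V d → Prop) (K k : ℕ) (j : V d) (i0 : Fin d) (c : ℤ) : Prop :=
  j i0 * K ≤ c ∧ c < (j i0 + 1) * K ∧ ∀ i ∈ cube K j, i i0 = c → ¬ bad g K k i

theorem MsA_mem_Sk {g : V d → Prop} {K k : ℕ} {j z : V d} :
    z ∈ Sk g K (k + 1) j ↔
      ∃ i0 : Fin d, ∃ i ∈ cube K j, MsA_slab g K k j i0 (i i0) ∧ z ∈ Sk g K k i := by
  show (∃ i0 : Fin d, ∃ i ∈ cube K j,
      (∀ i' ∈ cube K j, i' i0 = i i0 → ¬ bad g K k i') ∧ z ∈ Sk g K k i) ↔ _
  constructor
  · rintro ⟨i0, i, hi, h1, h2⟩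
    have h3 := mem_cube.1 hi i0
    exact ⟨i0, i, hi, ⟨h3.1, h3.2, h1⟩, h2⟩
  · rintro ⟨i0, i, hi, h1, h2⟩
    exact ⟨i0, i, hi, h1.2.2, h2⟩

theorem MsA_slab2 {g : V d → Prop} {K k : ℕ} {j j' : V d} {i0 : Fin d}
    (hjj : j' i0 = j i0) (hb : ¬ bad g K (k + 1) j) (hb' : ¬ bad g K (k + 1) j') :
    ∃ c : ℤ, MsA_slab g K k j i0 c ∧ MsA_slab g K k j' i0 c := by
  obtain ⟨c, h1, h2, h3, h4⟩ := MsA_free K (fun i => bad g K k i) j j' i0 (MsA_not_bad hb)
    (MsA_not_bad hb')
  refine ⟨c, ⟨h1, h2, h3⟩, ⟨?_, ?_, h4⟩⟩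
  · rw [hjj]
    exact h1
  · rw [hjj]
    exact h2

theorem MsA_update_mem {K : ℕ} {j i : V d} {i0 : Fin d} {c : ℤ} (hi : i ∈ cube K j)
    (h1 : j i0 * K ≤ c) (h2 : c < (j i0 + 1) * K) : Function.update i i0 c ∈ cube K j := by
  rw [mem_cube] at hi ⊢
  intro a
  by_cases ha : a = i0
  · subst ha
    rw [Function.update_self]
    exact ⟨h1, h2⟩
  · rw [Function.update_of_ne ha]
    exact hi a

theorem MsA_base_mem {K : ℕ} (hK : 1 ≤ K) (j : V d) : (fun a => j a * (K : ℤ)) ∈ cube K j := by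
  rw [mem_cube]
  intro a
  refine ⟨le_refl _, ?_⟩
  have : (1 : ℤ) ≤ K := by exact_mod_cast hK
  nlinarith

theorem MsA_other (hd : 2 ≤ d) (i0 : Fin d) : ∃ i1 : Fin d, i1 ≠ i0 := by
  have : Nontrivial (Fin d) := Fin.nontrivial_iff_two_le.2 hd
  exact exists_ne i0

theorem cube_pow (K k : ℕ) (hK : 1 ≤ K) (j : V d) (z : V d) :
    z ∈ cube (K ^ (k + 1)) j ↔ ∃ i ∈ cube K j, z ∈ cube (K ^ k) i := by
  have hKk : (0 : ℤ) < ((K ^ k : ℕ) : ℤ) := by
    have : 0 < K ^ k := Nat.pow_pos (by omega)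
    exact_mod_cast this
  constructor
  · intro h
    rw [mem_cube] at h
    refine ⟨fun a => z a / ((K ^ k : ℕ) : ℤ), ?_, ?_⟩
    · rw [mem_cube]
      intro a
      have ha := h a
      have e : ((K ^ (k + 1) : ℕ) : ℤ) = (K : ℤ) * ((K ^ k : ℕ) : ℤ) := by
        push_cast
        ring
      rw [e] at ha
      refine ⟨?_, ?_⟩
      · rw [Int.le_ediv_iff_mul_le hKk]
        calc j a * (K : ℤ) * ((K ^ k : ℕ) : ℤ) = j a * ((K : ℤ) * ((K ^ k : ℕ) : ℤ)) := by ring
          _ ≤ z a := ha.1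
      · rw [Int.ediv_lt_iff_lt_mul hKk]
        calc z a < (j a + 1) * ((K : ℤ) * ((K ^ k : ℕ) : ℤ)) := ha.2
          _ = (j a + 1) * (K : ℤ) * ((K ^ k : ℕ) : ℤ) := by ring
    · rw [mem_cube]
      intro a
      exact ⟨Int.ediv_mul_le _ (ne_of_gt hKk), Int.lt_ediv_add_one_mul_self _ hKk⟩
  · rintro ⟨i, hi, hz⟩
    rw [mem_cube] at hi hz ⊢
    intro a
    have h1 := hi a
    have h2 := hz a
    have e : ((K ^ (k + 1) : ℕ) : ℤ) = (K : ℤ) * ((K ^ k : ℕ) : ℤ) := by
      push_cast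
      ring
    rw [e]
    refine ⟨?_, ?_⟩
    · calc j a * ((K : ℤ) * ((K ^ k : ℕ) : ℤ)) = (j a * K) * ((K ^ k : ℕ) : ℤ) := by ring
        _ ≤ i a * ((K ^ k : ℕ) : ℤ) := mul_le_mul_of_nonneg_right h1.1 hKk.le
        _ ≤ z a := h2.1
    · have h3 : i a + 1 ≤ (j a + 1) * K := h1.2
      calc z a < (i a + 1) * ((K ^ k : ℕ) : ℤ) := h2.2
        _ ≤ ((j a + 1) * K) * ((K ^ k : ℕ) : ℤ) := mul_le_mul_of_nonneg_right h3 hKk.le
        _ = (j a + 1) * ((K : ℤ) * ((K ^ k : ℕ) : ℤ)) := by ring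

theorem sk_sub (g : V d → Prop) (K : ℕ) (hK : 1 ≤ K) (k : ℕ) (j : V d) (hb : ¬ bad g K k j)
    (z : V d) (hz : z ∈ Sk g K k j) : g z ∧ z ∈ cube (K ^ k) j := by
  induction k generalizing j with
  | zero =>
    have hz2 : z = j := hz
    subst hz2
    refine ⟨not_not.1 hb, ?_⟩
    rw [mem_cube]
    intro a
    simp
  | succ k ih =>
    obtain ⟨i0, i, hi, hs, hzi⟩ := MsA_mem_Sk.1 hz
    have h := ih i (hs.2.2 i hi rfl) hzi
    exact ⟨h.1, (cube_pow K k hK j z).2 ⟨i, hi, h.2⟩⟩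

theorem sk_ne (hd : 2 ≤ d) (g : V d → Prop) (K : ℕ) (hK : 4 ≤ K) (k : ℕ) (j : V d)
    (hb : ¬ bad g K k j) : (Sk g K k j).Nonempty := by
  induction k generalizing j with
  | zero => exact ⟨j, rfl⟩
  | succ k ih =>
    obtain ⟨c, hc, -⟩ := MsA_slab2 (i0 := (⟨0, by omega⟩ : Fin d)) (rfl) hb hb
    have hm : Function.update (fun a => j a * (K : ℤ)) (⟨0, by omega⟩ : Fin d) c ∈ cube K j :=
      MsA_update_mem (MsA_base_mem (by omega) j) hc.1 hc.2.1
    obtain ⟨z, hz⟩ := ih _ (hc.2.2 _ hm (by rw [Function.update_self]))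
    refine ⟨z, MsA_mem_Sk.2 ⟨⟨0, by omega⟩, _, hm, ?_, hz⟩⟩
    rw [Function.update_self]
    exact hc

theorem MsA_box_conn (lo hi : V d) (n : ℕ) : ∀ x y : V d, (∑ a, (x a - y a).natAbs) = n →
    (∀ a, lo a ≤ x a ∧ x a < hi a) → (∀ a, lo a ≤ y a ∧ y a < hi a) →
    Relation.ReflTransGen (fun u v => (∃ s : Dir d, v = u + step s) ∧
      (∀ a, lo a ≤ u a ∧ u a < hi a) ∧ (∀ a, lo a ≤ v a ∧ v a < hi a)) x y := by
  induction n using Nat.strong_induction_on with
  | _ n ih =>
    intro x y hn hx hy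
    by_cases hxy : x = y
    · subst hxy
      exact Relation.ReflTransGen.refl
    · obtain ⟨a, ha⟩ := Function.ne_iff.1 hxy
      have key : ∃ s : Dir d, (∀ b, b ≠ a → (x + step s) b = x b) ∧
          ((x a < y a ∧ (x + step s) a = x a + 1) ∨ (y a < x a ∧ (x + step s) a = x a - 1)) := by
        rcases lt_or_gt_of_ne ha with h | h
        · refine ⟨(a, true), fun b hb => ?_, Or.inl ⟨h, ?_⟩⟩
          · simp [step, Pi.single_eq_of_ne hb]
          · simp [step]
        · refine ⟨(a, false), fun b hb => ?_, Or.inr ⟨h, ?_⟩⟩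
          · simp [step, Pi.single_eq_of_ne hb]
          · simp [step]
            ring
      obtain ⟨s, hs1, hs2⟩ := key
      have hv : ∀ b, lo b ≤ (x + step s) b ∧ (x + step s) b < hi b := by
        intro b
        by_cases hb : b = a
        · subst hb
          have h1 := hx b
          have h2 := hy b
          rcases hs2 with ⟨h3, h4⟩ | ⟨h3, h4⟩ <;> rw [h4] <;> omega
        · rw [hs1 b hb]
          exact hx b
      have hlt : (∑ b, ((x + step s) b - y b).natAbs) < n := by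
        rw [← hn]
        apply Finset.sum_lt_sum
        · intro b _
          by_cases hb : b = a
          · subst hb
            rcases hs2 with ⟨h3, h4⟩ | ⟨h3, h4⟩ <;> rw [h4] <;> omega
          · rw [hs1 b hb]
        · refine ⟨a, Finset.mem_univ _, ?_⟩
          rcases hs2 with ⟨h3, h4⟩ | ⟨h3, h4⟩ <;> rw [h4] <;> omega
      exact Relation.ReflTransGen.head ⟨⟨s, rfl⟩, hx, hv⟩ (ih _ hlt (x + step s) y rfl hv hy)

/-- The induction hypothesis at scale `k`. -/
def MsA_IH (g : V d → Prop) (K k : ℕ) : Prop :=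
  ∀ (j j' : V d), (j' = j ∨ ∃ s : Dir d, j' = j + step s) → ¬ bad g K k j → ¬ bad g K k j' →
    ∀ z z' : V d, z ∈ Sk g K k j → z' ∈ Sk g K k j' →
    gc g ((cube (K ^ k) j : Set (V d)) ∪ cube (K ^ k) j') z z'

theorem MsA_transfer (hd : 2 ≤ d) {g : V d → Prop} {K k : ℕ} (hK : 4 ≤ K) (ih : MsA_IH g K k)
    (B : V d → Prop) (T : Set (V d)) (hB : ∀ u, B u → ¬ bad g K k u)
    (hT : ∀ u, B u → (cube (K ^ k) u : Set (V d)) ⊆ T) (x y : V d) (hx : B x)
    (hxy : Relation.ReflTransGen (fun u v => (∃ s : Dir d, v = u + step s) ∧ B u ∧ B v) x y)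
    (z : V d) (hz : z ∈ Sk g K k x) :
    ∀ z' : V d, z' ∈ Sk g K k y → gc g T z z' := by
  induction hxy with
  | refl =>
    intro z' hz'
    exact MsA_gc_mono (Set.union_subset (hT x hx) (hT x hx))
      (ih x x (Or.inl rfl) (hB x hx) (hB x hx) z z' hz hz')
  | @tail u v _ h ih2 =>
    intro z' hz'
    obtain ⟨hs, hu, hv⟩ := h
    obtain ⟨w, hw⟩ := sk_ne hd g K hK k u (hB u hu)
    exact MsA_gc_trans (ih2 w hw) (MsA_gc_mono (Set.union_subset (hT u hu) (hT v hv))
      (ih u v (Or.inr hs) (hB u hu) (hB v hv) w z' hw hz'))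

theorem MsA_sub_cube {K k : ℕ} (hK : 1 ≤ K) {j u : V d} (hu : u ∈ cube K j) :
    (cube (K ^ k) u : Set (V d)) ⊆ (cube (K ^ (k + 1)) j : Set (V d)) := by
  intro z hz
  have hz' : z ∈ cube (K ^ k) u := hz
  exact (cube_pow K k hK j z).2 ⟨u, hu, hz'⟩

theorem MsA_slab_conn (hd : 2 ≤ d) {g : V d → Prop} {K k : ℕ} (hK : 4 ≤ K) (ih : MsA_IH g K k)
    (j : V d) (i0 : Fin d) (c : ℤ) (hs : MsA_slab g K k j i0 c) (i i' : V d) (hi : i ∈ cube K j)
    (hi' : i' ∈ cube K j) (hc : i i0 = c) (hc' : i' i0 = c) (z z' : V d) (hz : z ∈ Sk g K k i)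
    (hz' : z' ∈ Sk g K k i') : gc g (cube (K ^ (k + 1)) j : Set (V d)) z z' := by
  have hB : ∀ u : V d, (∀ a, (if a = i0 then c else j a * (K : ℤ)) ≤ u a ∧
      u a < (if a = i0 then c + 1 else (j a + 1) * (K : ℤ))) ↔ (u ∈ cube K j ∧ u i0 = c) := by
    intro u
    rw [mem_cube]
    constructor
    · intro h
      have h0 := h i0
      rw [if_pos rfl, if_pos rfl] at h0
      have h1 : u i0 = c := by omega
      refine ⟨fun a => ?_, h1⟩
      by_cases ha : a = i0
      · subst ha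
        rw [h1]
        exact ⟨hs.1, hs.2.1⟩
      · have h2 := h a
        rw [if_neg ha, if_neg ha] at h2
        exact h2
    · rintro ⟨h1, h2⟩ a
      by_cases ha : a = i0
      · subst ha
        rw [if_pos rfl, if_pos rfl, h2]
        omega
      · rw [if_neg ha, if_neg ha]
        exact h1 a
  have hpath := MsA_box_conn (fun a => if a = i0 then c else j a * (K : ℤ))
    (fun a => if a = i0 then c + 1 else (j a + 1) * (K : ℤ)) _ i i' rfl ((hB i).2 ⟨hi, hc⟩)
    ((hB i').2 ⟨hi', hc'⟩)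
  refine MsA_transfer hd hK ih
    (fun u => ∀ a, (if a = i0 then c else j a * (K : ℤ)) ≤ u a ∧
      u a < (if a = i0 then c + 1 else (j a + 1) * (K : ℤ))) _ ?_ ?_ i i' ((hB i).2 ⟨hi, hc⟩)
    hpath z hz z' hz'
  · intro u hu
    have h := (hB u).1 hu
    exact hs.2.2 u h.1 h.2
  · intro u hu
    have h := (hB u).1 hu
    exact MsA_sub_cube (by omega) h.1

theorem MsA_cross (hd : 2 ≤ d) {g : V d → Prop} {K k : ℕ} (hK : 4 ≤ K) (ih : MsA_IH g K k)
    (j : V d) (i0 i1 : Fin d) (h01 : i0 ≠ i1) (i i' : V d) (hi : i ∈ cube K j)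
    (hi' : i' ∈ cube K j) (hs : MsA_slab g K k j i0 (i i0)) (hs' : MsA_slab g K k j i1 (i' i1))
    (z z' : V d) (hz : z ∈ Sk g K k i) (hz' : z' ∈ Sk g K k i') :
    gc g (cube (K ^ (k + 1)) j : Set (V d)) z z' := by
  have hm : Function.update i i1 (i' i1) ∈ cube K j := MsA_update_mem hi hs'.1 hs'.2.1
  have e0 : Function.update i i1 (i' i1) i0 = i i0 := Function.update_of_ne h01 _ _
  have e1 : Function.update i i1 (i' i1) i1 = i' i1 := Function.update_self _ _ _
  obtain ⟨w, hw⟩ := sk_ne hd g K hK k _ (hs.2.2 _ hm e0)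
  exact MsA_gc_trans (MsA_slab_conn hd hK ih j i0 _ hs i _ hi hm rfl e0 z w hz hw)
    (MsA_slab_conn hd hK ih j i1 _ hs' _ i' hm hi' e1 rfl w z' hw hz')

theorem MsA_whole (hd : 2 ≤ d) {g : V d → Prop} {K k : ℕ} (hK : 4 ≤ K) (ih : MsA_IH g K k)
    (j : V d) (hb : ¬ bad g K (k + 1) j) (z z' : V d) (hz : z ∈ Sk g K (k + 1) j)
    (hz' : z' ∈ Sk g K (k + 1) j) : gc g (cube (K ^ (k + 1)) j : Set (V d)) z z' := by
  obtain ⟨i0, i, hi, hs, hzi⟩ := MsA_mem_Sk.1 hz
  obtain ⟨i1, i', hi', hs', hzi'⟩ := MsA_mem_Sk.1 hz'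
  by_cases h01 : i0 = i1
  · subst h01
    obtain ⟨i2, h2⟩ := MsA_other hd i0
    obtain ⟨c, hc, -⟩ := MsA_slab2 (i0 := i2) rfl hb hb
    have hm : Function.update i i2 c ∈ cube K j := MsA_update_mem hi hc.1 hc.2.1
    have e : Function.update i i2 c i2 = c := Function.update_self _ _ _
    obtain ⟨w, hw⟩ := sk_ne hd g K hK k _ (hc.2.2 _ hm e)
    have hc2 : MsA_slab g K k j i2 (Function.update i i2 c i2) := by
      rw [e]
      exact hc
    exact MsA_gc_trans (MsA_cross hd hK ih j i0 i2 (Ne.symm h2) i _ hi hm hs hc2 z w hzi hw)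
      (MsA_cross hd hK ih j i2 i0 h2 _ i' hm hi' hc2 hs' w z' hw hzi')
  · exact MsA_cross hd hK ih j i0 i1 h01 i i' hi hi' hs hs' z z' hzi hzi'

theorem MsA_adj {K : ℕ} (hK : 1 ≤ K) (j : V d) (s : Dir d) (i2 : Fin d) (h2 : i2 ≠ s.1) (c : ℤ)
    (hc1 : j i2 * K ≤ c) (hc2 : c < (j i2 + 1) * K) :
    ∃ m ∈ cube K j, m + step s ∈ cube K (j + step s) ∧ m i2 = c ∧ (m + step s) i2 = c := by
  have hK1 : (1 : ℤ) ≤ K := by exact_mod_cast hK
  have hst : ∀ a, a ≠ s.1 → step s a = 0 := by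
    intro a ha
    simp [step, Pi.single_eq_of_ne ha]
  have hst1 : step s s.1 = if s.2 then 1 else -1 := by
    simp [step]
  refine ⟨fun a => if a = i2 then c else if a = s.1 then
    (if s.2 then (j a + 1) * (K : ℤ) - 1 else j a * K) else j a * K, ?_, ?_, ?_, ?_⟩
  · rw [mem_cube]
    intro a
    by_cases ha : a = i2
    · subst ha
      simp only [if_true]
      exact ⟨hc1, hc2⟩
    · simp only [if_neg ha]
      by_cases hb : a = s.1
      · simp only [if_pos hb]
        split_ifs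
        · constructor <;> nlinarith
        · constructor <;> nlinarith
      · simp only [if_neg hb]
        constructor <;> nlinarith
  · rw [mem_cube]
    intro a
    rw [Pi.add_apply, Pi.add_apply]
    by_cases ha : a = i2
    · subst ha
      rw [hst a h2]
      simp only [if_true, add_zero]
      exact ⟨hc1, hc2⟩
    · simp only [if_neg ha]
      by_cases hb : a = s.1
      · subst hb
        rw [hst1]
        simp only [if_true]
        split_ifs
        · constructor <;> nlinarith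
        · constructor <;> nlinarith
      · rw [hst a hb]
        simp only [if_neg hb]
        constructor <;> nlinarith
  · simp
  · rw [Pi.add_apply, hst i2 h2]
    simp

theorem sk_conn (hd : 2 ≤ d) (g : V d → Prop) (K : ℕ) (hK : 4 ≤ K) (k : ℕ) (j j' : V d)
    (hj : j' = j ∨ ∃ s : Dir d, j' = j + step s) (hb : ¬ bad g K k j) (hb' : ¬ bad g K k j')
    (z z' : V d) (hz : z ∈ Sk g K k j) (hz' : z' ∈ Sk g K k j') :
    gc g ((cube (K ^ k) j : Set (V d)) ∪ cube (K ^ k) j') z z' := by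
  have main : ∀ k, MsA_IH g K k := by
    intro k
    induction k with
    | zero =>
      intro j j' hj hb hb' z z' hz hz'
      have e : z = j := hz
      have e' : z' = j' := hz'
      subst e
      subst e'
      rcases hj with h | ⟨s, hs⟩
      · subst h
        exact Relation.ReflTransGen.refl
      · have h1 := sk_sub g K (by omega) 0 z hb z hz
        have h2 := sk_sub g K (by omega) 0 z' hb' z' hz'
        exact Relation.ReflTransGen.single ⟨⟨s, hs⟩, h1.1, h2.1, Or.inl h1.2, Or.inr h2.2⟩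
    | succ k ih =>
      intro j j' hj hb hb' z z' hz hz'
      rcases hj with h | ⟨s, hs⟩
      · subst h
        exact MsA_gc_mono Set.subset_union_left (MsA_whole hd hK ih _ hb z z' hz hz')
      · subst hs
        obtain ⟨i2, h2⟩ := MsA_other hd s.1
        have hjj : (j + step s) i2 = j i2 := by
          simp [step, Pi.single_eq_of_ne h2]
        obtain ⟨c, hc, hc'⟩ := MsA_slab2 (i0 := i2) hjj hb hb'
        obtain ⟨m, hm, hm', e, e'⟩ := MsA_adj (by omega : 1 ≤ K) j s i2 h2 c hc.1 hc.2.1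
        have hbm := hc.2.2 m hm e
        have hbm' := hc'.2.2 _ hm' e'
        obtain ⟨w, hw⟩ := sk_ne hd g K hK k _ hbm
        obtain ⟨w', hw'⟩ := sk_ne hd g K hK k _ hbm'
        have hwS : w ∈ Sk g K (k + 1) j := MsA_mem_Sk.2 ⟨i2, m, hm, by rw [e]; exact hc, hw⟩
        have hwS' : w' ∈ Sk g K (k + 1) (j + step s) :=
          MsA_mem_Sk.2 ⟨i2, m + step s, hm', by rw [e']; exact hc', hw'⟩
        have p1 := MsA_gc_mono (T' := (cube (K ^ (k + 1)) j : Set (V d)) ∪
          cube (K ^ (k + 1)) (j + step s)) Set.subset_union_left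
          (MsA_whole hd hK ih j hb z w hz hwS)
        have p3 := MsA_gc_mono (T' := (cube (K ^ (k + 1)) j : Set (V d)) ∪
          cube (K ^ (k + 1)) (j + step s)) Set.subset_union_right
          (MsA_whole hd hK ih (j + step s) hb' w' z' hwS' hz')
        have p2 := MsA_gc_mono (Set.union_subset_union (MsA_sub_cube (by omega) hm)
          (MsA_sub_cube (by omega) hm')) (ih m (m + step s) (Or.inr ⟨s, rfl⟩) hbm hbm' w w' hw hw')
        exact MsA_gc_trans p1 (MsA_gc_trans p2 p3)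
  exact main k j j' hj hb hb' z z' hz hz'

end H95LBS
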