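import Pool.Agent.H95.LBS.Def
import Pool.Agent.H5.DF.Energy2
import Pool.Agent.H95.LBD.DecC
import Pool.Agent.H95.LBD.TreeB

/-!
PROJECT DS (MP_0d9ad5_pr). Multi-scale structure of good blocks: definitions (section 8 of note 2700).
-/

namespace H95LBS

open H5DF H95LBD MeasureTheory

variable {d : ℕ}

open Classical in
/-- Bad boxes at scale `k` (side `K ^ k`, grid index `j`). -/
noncomputable def bad (g : V d → Prop) (K : ℕ) : ℕ → V d → Prop
  | 0, j => ¬ g j
  | k + 1, j => K ≤ 4 * ((cube K j).filter (fun i => bad g K k i)).card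

/-- Skeletons. -/
def Sk (g : V d → Prop) (K : ℕ) : ℕ → V d → Set (V d)
  | 0, j => {j}
  | k + 1, j => {z | ∃ i0 : Fin d, ∃ i ∈ cube K j,
      (∀ i' ∈ cube K j, i' i0 = i i0 → ¬ bad g K k i') ∧ z ∈ Sk g K k i}

/-- Connection by steps between good sites of `T`. -/
def gc (g : V d → Prop) (T : Set (V d)) (a b : V d) : Prop :=
  Relation.ReflTransGen (fun x y => (∃ s : Dir d, y = x + step s) ∧ g x ∧ g y ∧ x ∈ T ∧ y ∈ T) a b

/-- The grid index at scale `k` of the box containing `z`. -/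
def gi (K k : ℕ) (z : V d) : V d := fun i => z i / ((K ^ k : ℕ) : ℤ)

/-- All sub-boxes of the scale-`(k+1)` box of `z` are not bad. -/
def Hk (g : V d → Prop) (K k : ℕ) (z : V d) : Prop := ∀ i ∈ cube K (gi K (k + 1) z), ¬ bad g K k i

end H95LBS
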