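import Pool.Agent.H95.LBS.Def
import Pool.Agent.H5.DF.Energy2
import Pool.Agent.H95.LBD.DecC
import Pool.Agent.H95.LBD.TreeB

/-!
PROJECT DS (MP_0d9ad5_pr). The inhomogeneous environment `pen α t`: the edge `e` is open with probability
`1 - (1 - α e)(1 - t)`. Definitions.
-/

namespace H95LBS

open H5DF H95LBD MeasureTheory

variable {d : ℕ}

/-- Inhomogeneous percolation. -/
noncomputable def pen (α : Ed d → ℝ) (t : ℝ) : Measure (Cfg d) :=
  Measure.infinitePi fun e => bern (1 - (1 - α e) * (1 - t))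

/-- No connection from `A` to `A'` inside `B`. -/
def NCn (B A A' : Finset (V d)) : Set (Cfg d) := {ω | ∀ x ∈ A, ∀ y ∈ A', ¬ Cn (B : Set (V d)) ω x y}

/-- Oriented edges from `S` to `B \ S`. -/
noncomputable def bdI (B S : Finset (V d)) : Finset (V d × Dir d) :=
  (S ×ˢ (Finset.univ : Finset (Dir d))).filter fun b => b.1 + step b.2 ∈ B ∧ b.1 + step b.2 ∉ S

/-- The edges inside `B`. -/
noncomputable def EB (B : Finset (V d)) : Finset (Ed d) :=
  (B ×ˢ (Finset.univ : Finset (Fin d))).filter fun e => e.1 + Pi.single e.2 1 ∈ B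

/-- Values in `[0,1]`. -/
def In01 (α : Ed d → ℝ) : Prop := ∀ e, 0 ≤ α e ∧ α e ≤ 1

lemma mem_EB {B : Finset (V d)} {e : Ed d} : e ∈ EB B ↔ e ∈ ins (B : Set (V d)) := by
  simp [EB, ins]

lemma mem_bdI {B S : Finset (V d)} {b : V d × Dir d} :
    b ∈ bdI B S ↔ b.1 ∈ S ∧ b.1 + step b.2 ∈ B ∧ b.1 + step b.2 ∉ S := by
  simp [bdI]

end H95LBS
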