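import Pool.Agent.H95.LBS.PenDef
import Pool.Agent.H95.LBS.LawP
import Pool.Agent.H95.LBD.LawA
import Pool.Agent.H95.LBD.LawC

/-!
PROJECT DS (MP_0d9ad5_pr), JOB DS-PenLaw. Laws of `pen α t`.
PROOF. `indep_pen` as `indep_gen` (LBD/LawC) for an inhomogeneous product (`iIndepFun_infinitePi` or the
same proof with a family of measures). `pen_eq`: the events depend only on coordinates where the marginals
agree. `pen_un`: law of the union of two independent product configurations: `Measure.eq_infinitePi`, as
`LawA_or` (LBD/LawA). Here `mer F ξ ω` = `ξ` on the edges with an end in `F`, `ω` elsewhere.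
-/

namespace H95LBS

open H5DF H95LBD MeasureTheory

variable {d : ℕ}

open Classical in
/-- `ξ` on the edges with an end in `F`, `ω` on the other edges. -/
noncomputable def mer (F : Set (V d)) (ξ ω : Cfg d) : Cfg d := fun e => if e ∈ ins Fᶜ then ω e else ξ e

open Classical in
/-- The densities of the environment in which the edges with an end in `F` are revealed. -/
noncomputable def alp (p0 : ℝ) (F : Set (V d)) (ξ : Cfg d) : Ed d → ℝ :=
  fun e => if e ∈ ins Fᶜ then p0 else if ξ e then 1 else 0

lemma PenLaw_q {a t : ℝ} (ha : 0 ≤ a ∧ a ≤ 1) (h0 : 0 ≤ t) (h1 : t ≤ 1) :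
    0 ≤ 1 - (1 - a) * (1 - t) ∧ 1 - (1 - a) * (1 - t) ≤ 1 := by
  obtain ⟨h2, h3⟩ := ha
  constructor <;> nlinarith

lemma PenLaw_bern {α : Ed d → ℝ} {t : ℝ} (hα : In01 α) (h0 : 0 ≤ t) (h1 : t ≤ 1) (e : Ed d) :
    IsProbabilityMeasure (bern (1 - (1 - α e) * (1 - t))) :=
  isProb_bern (PenLaw_q (hα e) h0 h1).1 (PenLaw_q (hα e) h0 h1).2

theorem isProb_pen {α : Ed d → ℝ} {t : ℝ} (hα : In01 α) (h0 : 0 ≤ t) (h1 : t ≤ 1) :
    IsProbabilityMeasure (pen α t) := by
  have := PenLaw_bern hα h0 h1
  unfold pen
  infer_instance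

theorem alp_01 {p0 : ℝ} (h0 : 0 ≤ p0) (h1 : p0 ≤ 1) (F : Set (V d)) (ξ : Cfg d) :
    In01 (alp p0 F ξ) := by
  intro e
  unfold alp
  split_ifs
  · exact ⟨h0, h1⟩
  · exact ⟨zero_le_one, le_rfl⟩
  · exact ⟨le_rfl, zero_le_one⟩

theorem indep_pen {α : Ed d → ℝ} {t : ℝ} (hα : In01 α) (h0 : 0 ≤ t) (h1 : t ≤ 1)
    (T : Set (Ed d)) (S A : Set (Cfg d)) (hS : MeasurableSet S) (hA : MeasurableSet A)
    (hdS : ∀ ω ω' : Cfg d, (∀ e ∈ T, ω e = ω' e) → (ω ∈ S → ω' ∈ S))
    (hdA : ∀ ω ω' : Cfg d, (∀ e, e ∉ T → ω e = ω' e) → (ω ∈ A → ω' ∈ A)) :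
    (pen α t).real (S ∩ A) = (pen α t).real S * (pen α t).real A := by
  have := PenLaw_bern hα h0 h1
  have hi := ProbabilityTheory.iIndepFun_infinitePi
    (P := fun e : Ed d => bern (1 - (1 - α e) * (1 - t)))
    (X := fun _ b => b) (fun _ => measurable_id)
  have hI := ProbabilityTheory.indep_iSup_of_disjoint (S := T) (T := Tᶜ)
    (m := fun i : Ed d => MeasurableSpace.comap (fun ω : Cfg d => ω i) inferInstance)
    (fun i => (measurable_pi_apply i).comap_le) hi disjoint_compl_right
  have key : pen α t (S ∩ A) = pen α t S * pen α t A :=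
    (ProbabilityTheory.Indep_iff _ _ _).1 hI S A (lawC_meas_of_dep false T S hS hdS)
      (lawC_meas_of_dep false Tᶜ A hA hdA)
  rw [measureReal_def, measureReal_def, measureReal_def, key, ENNReal.toReal_mul]

lemma PenLaw_map_const {μ : Measure Bool} [IsProbabilityMeasure μ] (b : Bool) :
    μ.map (fun _ => b) = Measure.dirac b := by
  rw [Measure.map_const, measure_univ, one_smul]

/-- On the edges where `α = p0` the environment is percolation of density `pn p0 t`. -/
theorem pen_eq {α : Ed d → ℝ} {t p0 : ℝ} (hα : In01 α) (hp0 : 0 ≤ p0) (hp1 : p0 ≤ 1) (h0 : 0 ≤ t)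
    (h1 : t ≤ 1) (T : Set (Ed d)) (hT : ∀ e ∈ T, α e = p0) (E : Set (Cfg d))
    (hE : MeasurableSet E)
    (hdE : ∀ ω ω' : Cfg d, (∀ e ∈ T, ω e = ω' e) → (ω ∈ E → ω' ∈ E)) :
    (pen α t).real E = (perc d (pn p0 t)).real E := by
  classical
  have i1 := PenLaw_bern hα h0 h1
  have i2 : IsProbabilityMeasure (bern (pn p0 t)) :=
    isProb_bern (PenLaw_q ⟨hp0, hp1⟩ h0 h1).1 (PenLaw_q ⟨hp0, hp1⟩ h0 h1).2
  have hf : ∀ e : Ed d, Measurable (fun b : Bool => if e ∈ T then b else false) :=
    fun _ => measurable_of_countable _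
  have hρ : Measurable (fun (ω : Cfg d) (e : Ed d) => if e ∈ T then ω e else false) :=
    measurable_pi_iff.2 fun e => (hf e).comp (measurable_pi_apply e)
  have hpre : (fun (ω : Cfg d) (e : Ed d) => if e ∈ T then ω e else false) ⁻¹' E = E := by
    ext ω
    constructor
    · exact hdE _ _ fun e he => by simp [he]
    · exact hdE _ _ fun e he => by simp [he]
  have m1 := Measure.infinitePi_map_pi (μ := fun e : Ed d => bern (1 - (1 - α e) * (1 - t))) hf
  have m2 := Measure.infinitePi_map_pi (μ := fun _ : Ed d => bern (pn p0 t)) hf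
  have m3 : (fun e : Ed d => (bern (1 - (1 - α e) * (1 - t))).map
      (fun b : Bool => if e ∈ T then b else false)) =
      fun e : Ed d => (bern (pn p0 t)).map (fun b : Bool => if e ∈ T then b else false) := by
    funext e
    by_cases he : e ∈ T
    · rw [hT e he]
      rfl
    · have h2 : (fun b : Bool => if e ∈ T then b else false) = fun _ => false := by
        funext b
        simp [he]
      rw [h2, PenLaw_map_const, PenLaw_map_const]
  rw [m3, ← m2] at m1
  rw [measureReal_def, measureReal_def]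
  congr 1
  calc pen α t E
      = ((Measure.infinitePi fun e : Ed d => bern (1 - (1 - α e) * (1 - t))).map
          (fun (ω : Cfg d) (e : Ed d) => if e ∈ T then ω e else false)) E := by
        rw [Measure.map_apply hρ hE, hpre]
        rfl
    _ = ((Measure.infinitePi fun _ : Ed d => bern (pn p0 t)).map
          (fun (ω : Cfg d) (e : Ed d) => if e ∈ T then ω e else false)) E := by
        rw [m1]
    _ = perc d (pn p0 t) E := by
        rw [Measure.map_apply hρ hE, hpre]
        rfl

theorem pen_edge {α : Ed d → ℝ} {t : ℝ} (hα : In01 α) (h0 : 0 ≤ t) (h1 : t ≤ 1) (e : Ed d) :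
    (pen α t).real {ω | ω e = true} = 1 - (1 - α e) * (1 - t) := by
  have i1 := PenLaw_bern hα h0 h1
  have h := Measure.infinitePi_map_eval (fun e : Ed d => bern (1 - (1 - α e) * (1 - t))) e
  have h2 : pen α t {ω | ω e = true} = bern (1 - (1 - α e) * (1 - t)) {true} := by
    rw [← h, Measure.map_apply (measurable_pi_apply e) (measurableSet_singleton _)]
    rfl
  rw [measureReal_def, h2]
  have h3 : bern (1 - (1 - α e) * (1 - t)) {true} =
      ENNReal.ofReal (1 - (1 - α e) * (1 - t)) := by
    simp [bern]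
  rw [h3, ENNReal.toReal_ofReal (PenLaw_q (hα e) h0 h1).1]

theorem meas_mer (F : Set (V d)) (ξ : Cfg d) :
    Measurable (fun q : Cfg d × Cfg d => un (mer F ξ q.1) q.2) := by
  classical
  refine measurable_pi_iff.2 fun e => ?_
  have h1 : Measurable (fun x : Cfg d × Cfg d => (x.1 e, x.2 e)) :=
    ((measurable_pi_apply e).comp measurable_fst).prodMk
      ((measurable_pi_apply e).comp measurable_snd)
  have h2 : Measurable (fun b : Bool × Bool => (if e ∈ ins Fᶜ then b.1 else ξ e) || b.2) :=
    measurable_of_countable _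
  exact h2.comp h1

/-- Coordinatewise function of two independent product configurations. -/
lemma PenLaw_map2 {ι : Type*} (μ ν : ι → Measure Bool) [∀ i, IsProbabilityMeasure (μ i)]
    [∀ i, IsProbabilityMeasure (ν i)] (g : ι → Bool × Bool → Bool) :
    ((Measure.infinitePi μ).prod (Measure.infinitePi ν)).map
        (fun (x : (ι → Bool) × (ι → Bool)) (i : ι) => g i (x.1 i, x.2 i)) =
      Measure.infinitePi fun i => ((μ i).prod (ν i)).map (g i) := by
  have hg : ∀ i, Measurable (g i) := fun i => measurable_of_countable _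
  have i3 : ∀ i, IsProbabilityMeasure (((μ i).prod (ν i)).map (g i)) :=
    fun i => Measure.isProbabilityMeasure_map (hg i).aemeasurable
  refine Measure.eq_infinitePi _ fun s t ht => ?_
  have hm : Measurable (fun (x : (ι → Bool) × (ι → Bool)) (i : ι) => g i (x.1 i, x.2 i)) := by
    refine measurable_pi_iff.2 fun i => ?_
    have h1 : Measurable (fun x : (ι → Bool) × (ι → Bool) => (x.1 i, x.2 i)) :=
      ((measurable_pi_apply i).comp measurable_fst).prodMk
        ((measurable_pi_apply i).comp measurable_snd)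
    exact (hg i).comp h1
  have hbox : MeasurableSet ((s : Set ι).pi t) := .pi s.countable_toSet fun _ _ => ht _
  rw [Measure.map_apply hm hbox, Measure.prod_apply (hm hbox)]
  have hslice : ∀ ω : ι → Bool,
      (Measure.infinitePi ν) (Prod.mk ω ⁻¹'
        ((fun (x : (ι → Bool) × (ι → Bool)) (i : ι) => g i (x.1 i, x.2 i)) ⁻¹'
          ((s : Set ι).pi t))) =
      ∏ i ∈ s, ν i {b | g i (ω i, b) ∈ t i} := by
    intro ω
    have : (Prod.mk ω ⁻¹'
        ((fun (x : (ι → Bool) × (ι → Bool)) (i : ι) => g i (x.1 i, x.2 i)) ⁻¹'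
          ((s : Set ι).pi t))) =
        (s : Set ι).pi (fun i => {b | g i (ω i, b) ∈ t i}) := by
      ext η
      simp
    rw [this, Measure.infinitePi_pi _ (fun i _ => MeasurableSet.of_discrete)]
  simp_rw [hslice]
  have hind : ProbabilityTheory.iIndepFun
      (fun (i : ι) (ω : ι → Bool) => (fun a : Bool => ν i {b | g i (a, b) ∈ t i}) (ω i))
      (Measure.infinitePi μ) :=
    ProbabilityTheory.iIndepFun_infinitePi
      (X := fun (i : ι) (a : Bool) => ν i {b | g i (a, b) ∈ t i})
      (P := μ) (fun i => measurable_of_countable _)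
  rw [ProbabilityTheory.lintegral_prod_eq_prod_lintegral_of_indepFun s _ hind
    (fun i => (measurable_of_countable
      (fun a : Bool => ν i {b | g i (a, b) ∈ t i})).comp (measurable_pi_apply i))]
  refine Finset.prod_congr rfl fun i _ => ?_
  have hmap := lintegral_map (μ := Measure.infinitePi μ)
    (f := fun a : Bool => ν i {b | g i (a, b) ∈ t i}) (g := fun ω : ι → Bool => ω i)
    (measurable_of_countable _) (measurable_pi_apply i)
  rw [Measure.infinitePi_map_eval μ i] at hmap
  rw [Measure.map_apply (hg i) (ht i), Measure.prod_apply ((hg i) (ht i))]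
  exact hmap.symm

theorem pen_un {p0 t : ℝ} (hp0 : 0 ≤ p0) (hp1 : p0 ≤ 1) (h0 : 0 ≤ t) (h1 : t ≤ 1)
    (F : Set (V d)) (ξ : Cfg d) :
    (PP d p0 t).map (fun q => un (mer F ξ q.1) q.2) = pen (alp p0 F ξ) t := by
  classical
  have i1 := isProb_bern hp0 hp1
  have i2 := isProb_bern h0 h1
  have key := PenLaw_map2 (fun _ : Ed d => bern p0) (fun _ : Ed d => bern t)
    (fun e b => (if e ∈ ins Fᶜ then b.1 else ξ e) || b.2)
  have hfam : (fun e : Ed d => ((bern p0).prod (bern t)).map
      (fun b : Bool × Bool => (if e ∈ ins Fᶜ then b.1 else ξ e) || b.2)) =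
      fun e : Ed d => bern (1 - (1 - alp p0 F ξ e) * (1 - t)) := by
    funext e
    by_cases he : e ∈ ins Fᶜ
    · have h2 : (fun b : Bool × Bool => (if e ∈ ins Fᶜ then b.1 else ξ e) || b.2) =
          fun b : Bool × Bool => (b.1 || b.2) := by
        funext b
        simp [he]
      rw [h2, LawA_or hp0 hp1 h0 h1]
      simp [alp, he]
    · cases hx : ξ e
      · have h2 : (fun b : Bool × Bool => (if e ∈ ins Fᶜ then b.1 else false) || b.2) =
            Prod.snd := by
          funext b
          simp [he]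
        rw [h2, Measure.map_snd_prod, measure_univ, one_smul]
        simp [alp, he, hx]
      · have h2 : (fun b : Bool × Bool => (if e ∈ ins Fᶜ then b.1 else true) || b.2) =
            fun _ => true := by
          funext b
          simp [he]
        rw [h2, Measure.map_const, measure_univ, one_smul]
        simp [alp, he, hx, bern]
  rw [hfam] at key
  exact key

end H95LBS
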