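import Pool.Agent.H95.LBS.SeedL
import Pool.Agent.H95.LBS.StatM

/-!
PROJECT DS (MP_0d9ad5_pr), JOB DS-SeedE. Sampled hubs: Chebyshev for fixed configuration; pairs in a small box
(section 4 of note 2700).
PROOF. `se_cheb`: fixed `ω`. For `u ∈ T`, `u ∈ FS ω b` iff a seed is in the hub of `u` (inside `BB`), probability
`p_u = 1 - (1-ρ)^(hs u) >= 1 - exp(-b1) >= b1/2`; for `u, u'` in different hubs independent (disjoint sets of seeds),
so `Var <= #{(u,u') ∈ T^2 : same hub}`, mean `>= (b1/2) card T`, deviation `(b1/4) card T`. `se_pairs`: Markov,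
`E ∑_{u,u' ∈ cube} 1(u <-> u') <= lam^d A C lam^2`, `vol^2 = lam^(2d)/(m lam)^4`, ratio `C(m) lam^(6-d)/δ -> 0`, union over
`(3m)^d` boxes.
-/

namespace H95LBS

open H5DF H95LBD MeasureTheory

variable {d : ℕ}

/-- Probability that a finite set contains no seed. -/
lemma SeedE_zero (ρ : ℝ) (h0 : 0 ≤ ρ) (h1 : ρ ≤ 1) (S : Finset (V d)) :
    (seedM d ρ).real {b | ∀ x ∈ S, b x = false} = (1 - ρ) ^ S.card := by
  have hP : IsProbabilityMeasure (bern ρ) := isProb_bern h0 h1
  have e : {b : V d → Bool | ∀ x ∈ S, b x = false} = Set.pi (S : Set (V d)) (fun _ => {false}) := by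
    ext b
    simp [Set.pi]
  have hb : bern ρ {false} = ENNReal.ofReal (1 - ρ) := by
    simp [bern]
  rw [e, Measure.real, seedM, Measure.infinitePi_pi _ (fun _ _ => MeasurableSet.singleton _)]
  rw [Finset.prod_const, hb, ← ENNReal.ofReal_pow (by linarith),
    ENNReal.toReal_ofReal (by apply pow_nonneg; linarith)]

lemma SeedE_meas (S : Finset (V d)) : MeasurableSet {b : V d → Bool | ∀ x ∈ S, b x = false} := by
  have e : {b : V d → Bool | ∀ x ∈ S, b x = false} = ⋂ x ∈ S, {b : V d → Bool | b x = false} := by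
    ext b
    simp
  rw [e]
  refine Finset.measurableSet_biInter S fun x _ => ?_
  have h : Measurable (fun b : V d → Bool => b x) := measurable_pi_apply x
  exact h (MeasurableSet.singleton false)

open Classical in
/-- Chebyshev for a number of events, independent up to a relation. -/
lemma SeedE_var {Ω ι : Type*} [MeasurableSpace Ω] (μ : Measure Ω) [IsProbabilityMeasure μ]
    (T : Finset ι) (E : ι → Set Ω) (hE : ∀ x, MeasurableSet (E x)) (R : ι → ι → Prop) (q a : ℝ)
    (ha : 0 < a) (hT : 0 < (T.card : ℝ)) (hq : ∀ x ∈ T, μ.real (E x) ≤ 1 - q)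
    (hI : ∀ x ∈ T, ∀ y ∈ T, ¬ R x y → μ.real (E x ∩ E y) = μ.real (E x) * μ.real (E y)) :
    μ.real {ω | (1 - q + a) * T.card < ∑ x ∈ T, (E x).indicator (fun _ => (1 : ℝ)) ω} ≤
      (∑ x ∈ T, ∑ y ∈ T, if R x y then (1 : ℝ) else 0) / (a * T.card) ^ 2 := by
  set f : Ω → ℝ := fun ω => ∑ x ∈ T, ((E x).indicator (fun _ => (1 : ℝ)) ω - μ.real (E x)) with hf
  have hi1 : ∀ x, Integrable ((E x).indicator (fun _ => (1 : ℝ))) μ := fun x =>
    (integrable_const _).indicator (hE x)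
  have hv1 : ∀ x, ∫ ω, (E x).indicator (fun _ => (1 : ℝ)) ω ∂μ = μ.real (E x) := fun x => by
    rw [integral_indicator_const _ (hE x)]
    simp
  have hprod : ∀ x y, (fun ω => (E x).indicator (fun _ => (1 : ℝ)) ω *
      (E y).indicator (fun _ => (1 : ℝ)) ω) = (E x ∩ E y).indicator (fun _ => (1 : ℝ)) := by
    intro x y
    funext ω
    by_cases h1 : ω ∈ E x <;> by_cases h2 : ω ∈ E y <;> simp [h1, h2]
  have hi2 : ∀ x y, Integrable (fun ω => (E x).indicator (fun _ => (1 : ℝ)) ω *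
      (E y).indicator (fun _ => (1 : ℝ)) ω) μ := fun x y => by
    rw [hprod]
    exact (integrable_const _).indicator ((hE x).inter (hE y))
  have hv2 : ∀ x y, ∫ ω, (E x).indicator (fun _ => (1 : ℝ)) ω *
      (E y).indicator (fun _ => (1 : ℝ)) ω ∂μ = μ.real (E x ∩ E y) := fun x y => by
    rw [hprod, integral_indicator_const _ ((hE x).inter (hE y))]
    simp
  have hterm : ∀ x y, (fun ω => ((E x).indicator (fun _ => (1 : ℝ)) ω - μ.real (E x)) *
      ((E y).indicator (fun _ => (1 : ℝ)) ω - μ.real (E y))) = fun ω =>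
      ((E x).indicator (fun _ => (1 : ℝ)) ω * (E y).indicator (fun _ => (1 : ℝ)) ω -
        μ.real (E y) * (E x).indicator (fun _ => (1 : ℝ)) ω) +
      (μ.real (E x) * μ.real (E y) - μ.real (E x) * (E y).indicator (fun _ => (1 : ℝ)) ω) := by
    intro x y
    funext ω
    ring
  have hia : ∀ x y, Integrable (fun ω =>
      (E x).indicator (fun _ => (1 : ℝ)) ω * (E y).indicator (fun _ => (1 : ℝ)) ω -
        μ.real (E y) * (E x).indicator (fun _ => (1 : ℝ)) ω) μ := fun x y =>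
    (hi2 x y).sub ((hi1 x).const_mul _)
  have hib : ∀ x y, Integrable (fun ω => μ.real (E x) * μ.real (E y) -
      μ.real (E x) * (E y).indicator (fun _ => (1 : ℝ)) ω) μ := fun x y =>
    (integrable_const _).sub ((hi1 y).const_mul _)
  have hi3 : ∀ x y, Integrable (fun ω => ((E x).indicator (fun _ => (1 : ℝ)) ω - μ.real (E x)) *
      ((E y).indicator (fun _ => (1 : ℝ)) ω - μ.real (E y))) μ := fun x y => by
    rw [hterm]
    exact (hia x y).add (hib x y)
  have hv3 : ∀ x y, ∫ ω, ((E x).indicator (fun _ => (1 : ℝ)) ω - μ.real (E x)) *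
      ((E y).indicator (fun _ => (1 : ℝ)) ω - μ.real (E y)) ∂μ =
        μ.real (E x ∩ E y) - μ.real (E x) * μ.real (E y) := fun x y => by
    rw [hterm, integral_add (hia x y) (hib x y), integral_sub (hi2 x y) ((hi1 x).const_mul _),
      integral_sub (integrable_const _) ((hi1 y).const_mul _)]
    simp only [integral_const_mul, hv1, hv2, integral_const, probReal_univ, one_smul]
    ring
  have hsq : (fun ω => f ω ^ 2) = fun ω => ∑ x ∈ T, ∑ y ∈ T,
      ((E x).indicator (fun _ => (1 : ℝ)) ω - μ.real (E x)) *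
      ((E y).indicator (fun _ => (1 : ℝ)) ω - μ.real (E y)) := by
    funext ω
    rw [sq, hf]
    rw [Finset.sum_mul_sum]
  have hfi : Integrable (fun ω => f ω ^ 2) μ := by
    rw [hsq]
    exact integrable_finsetSum _ fun x _ => integrable_finsetSum _ fun y _ => hi3 x y
  have hfint : ∫ ω, f ω ^ 2 ∂μ ≤ ∑ x ∈ T, ∑ y ∈ T, if R x y then (1 : ℝ) else 0 := by
    rw [hsq, integral_finsetSum _ fun x _ => integrable_finsetSum _ fun y _ => hi3 x y]
    refine Finset.sum_le_sum fun x hx => ?_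
    rw [integral_finsetSum _ fun y _ => hi3 x y]
    refine Finset.sum_le_sum fun y hy => ?_
    rw [hv3]
    by_cases hR : R x y
    · rw [if_pos hR]
      have h1 : μ.real (E x ∩ E y) ≤ 1 := measureReal_le_one
      have h2 : 0 ≤ μ.real (E x) * μ.real (E y) := by positivity
      linarith
    · rw [if_neg hR, hI x hx y hy hR]
      linarith
  have h1 := mul_meas_ge_le_integral_of_nonneg
    (Filter.Eventually.of_forall fun ω => sq_nonneg (f ω)) hfi ((a * T.card) ^ 2)
  have hpos : 0 < (a * (T.card : ℝ)) ^ 2 := by positivity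
  rw [le_div_iff₀ hpos]
  have h2 : μ.real {ω | (1 - q + a) * T.card < ∑ x ∈ T, (E x).indicator (fun _ => (1 : ℝ)) ω} ≤
      μ.real {ω | (a * (T.card : ℝ)) ^ 2 ≤ f ω ^ 2} := by
    refine measureReal_mono ?_ (measure_ne_top _ _)
    intro ω hω
    have h3 : (1 - q + a) * T.card < ∑ x ∈ T, (E x).indicator (fun _ => (1 : ℝ)) ω := hω
    have h4 : ∑ x ∈ T, μ.real (E x) ≤ (1 - q) * T.card := by
      have := Finset.sum_le_card_nsmul T _ _ hq
      rw [nsmul_eq_mul] at this
      linarith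
    have h5 : a * T.card ≤ f ω := by
      rw [hf]
      simp only [Finset.sum_sub_distrib]
      nlinarith
    show (a * (T.card : ℝ)) ^ 2 ≤ f ω ^ 2
    exact pow_le_pow_left₀ (by positivity) h5 2
  calc _ ≤ μ.real {ω | (a * (T.card : ℝ)) ^ 2 ≤ f ω ^ 2} * (a * (T.card : ℝ)) ^ 2 := by
        exact mul_le_mul_of_nonneg_right h2 hpos.le
    _ ≤ ∫ ω, f ω ^ 2 ∂μ := by
        rw [mul_comm]
        exact h1
    _ ≤ _ := hfint

open Classical in
theorem se_cheb (M L : ℕ) (ω : Cfg d) (b1 : ℝ) (hb1 : 0 < b1) (hb1' : b1 ≤ 1) (hL : 1 ≤ L)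
    (T : Finset (V d)) (hT : T ⊆ BB d M L) (hTn : 1 ≤ T.card)
    (hh : ∀ u ∈ T, b1 * (L : ℝ) ^ 4 ≤ hs (BB d M L) ω u) :
    (seedM d (1 / (L : ℝ) ^ 4)).real {b | (cn (FS (BB d M L) ω b : Set (V d)) T : ℝ) <
      b1 / 4 * T.card} ≤ 16 * (∑ u ∈ T, ∑ u' ∈ T,
        if Cn (BB d M L : Set (V d)) ω u u' then (1 : ℝ) else 0) / (b1 * T.card) ^ 2 := by
  set B := BB d M L with hB
  have hLR : (1 : ℝ) ≤ (L : ℝ) := by exact_mod_cast hL
  have hL4 : (1 : ℝ) ≤ (L : ℝ) ^ 4 := one_le_pow₀ hLR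
  set ρ : ℝ := 1 / (L : ℝ) ^ 4 with hρ
  have hρ0 : 0 ≤ ρ := by positivity
  have hρ1 : ρ ≤ 1 := by
    rw [hρ, div_le_one (by linarith)]
    exact hL4
  have hPb : IsProbabilityMeasure (bern ρ) := isProb_bern hρ0 hρ1
  have hP : IsProbabilityMeasure (seedM d ρ) := by
    unfold seedM
    infer_instance
  have hTR : 0 < (T.card : ℝ) := by
    have : (1 : ℝ) ≤ T.card := by exact_mod_cast hTn
    linarith
  set E : V d → Set (V d → Bool) := fun u => {b | ∀ x ∈ hubF B ω u, b x = false} with hE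
  have hEm : ∀ u, MeasurableSet (E u) := fun u => SeedE_meas _
  have hEv : ∀ u, (seedM d ρ).real (E u) = (1 - ρ) ^ (hubF B ω u).card := fun u =>
    SeedE_zero ρ hρ0 hρ1 _
  have hq : ∀ u ∈ T, (seedM d ρ).real (E u) ≤ 1 - b1 / 2 := by
    intro u hu
    rw [hEv]
    have h1 := hh u hu
    rw [statM_hs] at h1
    have h2 : (1 - ρ) ≤ Real.exp (-ρ) := by
      have := Real.add_one_le_exp (-ρ)
      linarith
    have h3 : (1 - ρ) ^ (hubF B ω u).card ≤ Real.exp (-b1) := by
      calc (1 - ρ) ^ (hubF B ω u).card ≤ Real.exp (-ρ) ^ (hubF B ω u).card :=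
            pow_le_pow_left₀ (by linarith) h2 _
        _ = Real.exp (((hubF B ω u).card : ℝ) * (-ρ)) := by rw [Real.exp_nat_mul]
        _ ≤ Real.exp (-b1) := by
            apply Real.exp_le_exp.2
            have h4 : b1 = b1 * (L : ℝ) ^ 4 * ρ := by
              rw [hρ]
              field_simp
            nlinarith
    refine h3.trans ?_
    rw [Real.exp_neg]
    have h5 : b1 + 1 ≤ Real.exp b1 := Real.add_one_le_exp b1
    have h6 : (Real.exp b1)⁻¹ ≤ (b1 + 1)⁻¹ := inv_anti₀ (by linarith) h5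
    refine h6.trans ?_
    rw [inv_le_iff_one_le_mul₀ (by linarith)]
    nlinarith
  have hI : ∀ x ∈ T, ∀ y ∈ T, ¬ Cn (B : Set (V d)) ω x y →
      (seedM d ρ).real (E x ∩ E y) = (seedM d ρ).real (E x) * (seedM d ρ).real (E y) := by
    intro x _ y _ hxy
    have hd : Disjoint (hubF B ω x) (hubF B ω y) := by
      rw [Finset.disjoint_left]
      intro z hz1 hz2
      rw [mem_hubF] at hz1 hz2
      exact hxy (hz1.2.trans hz2.2.symm)
    have e : E x ∩ E y = {b | ∀ z ∈ hubF B ω x ∪ hubF B ω y, b z = false} := by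
      ext b
      simp only [hE, Set.mem_inter_iff, Set.mem_ofPred_eq, Finset.mem_union]
      constructor
      · rintro ⟨h1, h2⟩ z (hz | hz)
        · exact h1 z hz
        · exact h2 z hz
      · intro h
        exact ⟨fun z hz => h z (Or.inl hz), fun z hz => h z (Or.inr hz)⟩
    rw [e, SeedE_zero ρ hρ0 hρ1, hEv, hEv, Finset.card_union_of_disjoint hd, pow_add]
  have hmain := SeedE_var (seedM d ρ) T E hEm (fun x y => Cn (B : Set (V d)) ω x y) (b1 / 2)
    (b1 / 4) (by linarith) hTR hq hI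
  have hev : (seedM d ρ).real {b | (cn (FS B ω b : Set (V d)) T : ℝ) < b1 / 4 * T.card} ≤
      (seedM d ρ).real {b | (1 - b1 / 2 + b1 / 4) * T.card <
        ∑ x ∈ T, (E x).indicator (fun _ => (1 : ℝ)) b} := by
    refine measureReal_mono ?_ (measure_ne_top _ _)
    intro b hb
    have h1 : (cn (FS B ω b : Set (V d)) T : ℝ) < b1 / 4 * T.card := hb
    show (1 - b1 / 2 + b1 / 4) * (T.card : ℝ) < ∑ x ∈ T, (E x).indicator (fun _ => (1 : ℝ)) b
    have h2 : (cn (FS B ω b : Set (V d)) T : ℝ) + ∑ x ∈ T, (E x).indicator (fun _ => (1 : ℝ)) b =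
        T.card := by
      rw [Vol_cn, ← Finset.sum_add_distrib, Finset.cast_card]
      refine Finset.sum_congr rfl fun u hu => ?_
      by_cases h3 : u ∈ (FS B ω b : Set (V d))
      · rw [if_pos h3]
        have h4 : b ∉ E u := by
          intro h5
          rw [Finset.mem_coe, FS, Finset.mem_filter] at h3
          obtain ⟨_, x, hx, hbx, hc⟩ := h3
          have := h5 x (mem_hubF.2 ⟨hx, hc.symm⟩)
          rw [hbx] at this
          exact absurd this (by decide)
        rw [Set.indicator_of_notMem h4]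
        ring
      · rw [if_neg h3]
        have h4 : b ∈ E u := by
          intro x hx
          rw [mem_hubF] at hx
          by_contra h5
          apply h3
          rw [Finset.mem_coe, FS, Finset.mem_filter]
          refine ⟨hT hu, x, hx.1, ?_, hx.2.symm⟩
          cases h6 : b x
          · exact absurd h6 h5
          · rfl
        rw [Set.indicator_of_mem h4]
        ring
    nlinarith
  refine hev.trans (hmain.trans (le_of_eq ?_))
  field_simp
  ring

lemma SeedE_card (n : ℕ) (j : V d) : (cube n j).card = n ^ d := by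
  unfold cube
  rw [Fintype.card_piFinset]
  simp only [Int.card_Ico]
  have h : ∀ i : Fin d, ((j i + 1) * (n : ℤ) - j i * n).toNat = n := by
    intro i
    have : (j i + 1) * (n : ℤ) - j i * n = n := by ring
    rw [this]
    simp
  simp only [h]
  simp

lemma SeedE_cube_BF {n : ℕ} {j x : V d} (hx : x ∈ cube n j) : cube n j ⊆ BF x n := by
  intro y hy
  rw [mem_BF, nm_le]
  intro i
  rw [mem_cube] at hx hy
  obtain ⟨h1, h2⟩ := hx i
  obtain ⟨h3, h4⟩ := hy i
  have e : (y - x) i = y i - x i := rfl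
  rw [e]
  have : (j i + 1) * (n : ℤ) = j i * n + n := by ring
  omega

open Classical in
lemma SeedE_one {p0 A cM : ℝ} {M : ℕ} (H : Crit d p0 A cM M) : ∃ C : ℝ, 0 < C ∧
    ∀ (m lam : ℕ) (δ : ℝ) (j : V d), 1 ≤ m → 1 ≤ lam → 0 < δ → (perc d p0).real
      {ω | δ * vol d m lam ^ 2 < ∑ u ∈ cube lam j, ∑ u' ∈ cube lam j,
        if Cn (BB d M (m * lam) : Set (V d)) ω u u' then (1 : ℝ) else 0} ≤
      C * (m : ℝ) ^ 4 / (δ * lam) := by
  obtain ⟨C, hC, hs⟩ := sk1 (d := d) (by have := H.hd; omega)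
  have hA : 0 < A := lt_of_lt_of_le zero_lt_one H.hA
  have hprob := H.prob
  refine ⟨A * (C * 4), by positivity, fun m lam δ j hm hl hδ => ?_⟩
  have hlR : (1 : ℝ) ≤ lam := by exact_mod_cast hl
  have hmR : (1 : ℝ) ≤ m := by exact_mod_cast hm
  have hl0 : (0 : ℝ) < lam := by linarith
  have hm0 : (0 : ℝ) < m := by linarith
  have hv : 0 < vol d m lam := by
    unfold vol
    push_cast
    positivity
  have hmk := statM_markov (perc d p0) (cube lam j ×ˢ cube lam j)
    (fun u ω => Cn (BB d M (m * lam) : Set (V d)) ω u.1 u.2) (δ * vol d m lam ^ 2)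
    (A * (C * 4) * (m : ℝ) ^ 4 / (δ * lam)) (by positivity) ?_
  · refine le_trans (measureReal_mono ?_ (measure_ne_top _ _)) hmk
    intro ω hω
    have h1 : δ * vol d m lam ^ 2 < ∑ u ∈ cube lam j, ∑ u' ∈ cube lam j,
        if Cn (BB d M (m * lam) : Set (V d)) ω u u' then (1 : ℝ) else 0 := hω
    show δ * vol d m lam ^ 2 < _
    rw [Finset.card_filter]
    push_cast
    rw [Finset.sum_product]
    exact h1
  · rw [Finset.sum_product]
    have h1 : ∀ u ∈ cube lam j, (∑ u' ∈ cube lam j, (perc d p0).real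
        {ω | Cn (BB d M (m * lam) : Set (V d)) ω u u'}) ≤ A * (C * 4) * (lam : ℝ) ^ 2 := by
      intro u hu
      calc (∑ u' ∈ cube lam j, (perc d p0).real
            {ω | Cn (BB d M (m * lam) : Set (V d)) ω u u'})
          ≤ ∑ u' ∈ cube lam j, A * kr (u' - u) := Finset.sum_le_sum fun u' _ => Vol_conn H _ _ _
        _ ≤ ∑ u' ∈ BF u lam, A * kr (u' - u) :=
            Finset.sum_le_sum_of_subset_of_nonneg (SeedE_cube_BF hu)
              fun _ _ _ => mul_nonneg hA.le (kr_pos _).le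
        _ = A * ∑ u' ∈ BF u lam, kr (u' - u) := by rw [Finset.mul_sum]
        _ ≤ A * (C * (1 + (lam : ℝ)) ^ 2) := mul_le_mul_of_nonneg_left (hs _ _ _) hA.le
        _ ≤ A * (C * 4) * (lam : ℝ) ^ 2 := by
            have h2 : (1 + (lam : ℝ)) ^ 2 ≤ 4 * (lam : ℝ) ^ 2 := by nlinarith
            have h3 : C * (1 + (lam : ℝ)) ^ 2 ≤ C * (4 * (lam : ℝ) ^ 2) :=
              mul_le_mul_of_nonneg_left h2 hC.le
            calc A * (C * (1 + (lam : ℝ)) ^ 2) ≤ A * (C * (4 * (lam : ℝ) ^ 2)) :=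
                  mul_le_mul_of_nonneg_left h3 hA.le
              _ = _ := by ring
    have h4 := Finset.sum_le_card_nsmul _ _ _ h1
    rw [nsmul_eq_mul, SeedE_card] at h4
    refine h4.trans ?_
    have hd : 7 ≤ d := H.hd
    obtain ⟨k, rfl⟩ : ∃ k, d = k + 7 := ⟨d - 7, by omega⟩
    have h5 : (1 : ℝ) ≤ (lam : ℝ) ^ k := one_le_pow₀ hlR
    have e1 : A * (C * 4) * (m : ℝ) ^ 4 / (δ * lam) * (δ * vol (k + 7) m lam ^ 2) =
        A * (C * 4) * ((lam : ℝ) ^ k * (lam : ℝ) ^ k * (lam : ℝ) ^ 9) := by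
      unfold vol
      push_cast
      field_simp
      ring
    rw [e1]
    push_cast
    have h6 : (lam : ℝ) ^ (k + 7) * (A * (C * 4) * (lam : ℝ) ^ 2) =
        A * (C * 4) * (1 * (lam : ℝ) ^ k * (lam : ℝ) ^ 9) := by ring
    rw [h6]
    have h7 : (0 : ℝ) ≤ A * (C * 4) := by positivity
    have h8 : (0 : ℝ) ≤ (lam : ℝ) ^ k := by positivity
    have h9 : (0 : ℝ) ≤ (lam : ℝ) ^ 9 := by positivity
    exact mul_le_mul_of_nonneg_left (mul_le_mul_of_nonneg_right
      (mul_le_mul_of_nonneg_right h5 h8) h9) h7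

open Classical in
theorem se_pairs {p0 A cM : ℝ} {M : ℕ} (H : Crit d p0 A cM M) (m : ℕ) (hm : 1 ≤ m) (δ η0 : ℝ)
    (hδ : 0 < δ) (hη : 0 < η0) : ∃ lam0 : ℕ, ∀ lam : ℕ, lam0 ≤ lam → (perc d p0).real
      {ω | ∃ j ∈ JJ d m, δ * vol d m lam ^ 2 < ∑ u ∈ cube lam j, ∑ u' ∈ cube lam j,
        if Cn (BB d M (m * lam) : Set (V d)) ω u u' then (1 : ℝ) else 0} ≤ η0 := by
  obtain ⟨C, hC, hone⟩ := SeedE_one H
  have hprob := H.prob
  obtain ⟨n2, hn2⟩ := exists_nat_ge (((JJ d m).card : ℝ) * (C * (m : ℝ) ^ 4) / (δ * η0))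
  refine ⟨max 1 n2, fun lam hlam => ?_⟩
  have hl1 : 1 ≤ lam := (le_max_left _ _).trans hlam
  have hl2 : n2 ≤ lam := (le_max_right _ _).trans hlam
  have hlR : (1 : ℝ) ≤ lam := by exact_mod_cast hl1
  have hl0 : (0 : ℝ) < lam := by linarith
  have hsub : {ω : Cfg d | ∃ j ∈ JJ d m, δ * vol d m lam ^ 2 < ∑ u ∈ cube lam j,
        ∑ u' ∈ cube lam j, if Cn (BB d M (m * lam) : Set (V d)) ω u u' then (1 : ℝ) else 0} ⊆
      ⋃ j ∈ JJ d m, {ω : Cfg d | δ * vol d m lam ^ 2 < ∑ u ∈ cube lam j,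
        ∑ u' ∈ cube lam j, if Cn (BB d M (m * lam) : Set (V d)) ω u u' then (1 : ℝ) else 0} := by
    rintro ω ⟨j, hj, h⟩
    rw [Set.mem_iUnion₂]
    exact ⟨j, hj, h⟩
  refine (measureReal_mono hsub (measure_ne_top _ _)).trans
    ((measureReal_biUnion_finset_le _ _).trans ?_)
  have h1 := Finset.sum_le_card_nsmul (JJ d m) _ _ fun j _ => hone m lam δ j hm hl1 hδ
  refine h1.trans ?_
  rw [nsmul_eq_mul, mul_div_assoc', div_le_iff₀ (by positivity)]
  have h2 : ((JJ d m).card : ℝ) * (C * (m : ℝ) ^ 4) / (δ * η0) ≤ lam :=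
    hn2.trans (by exact_mod_cast hl2)
  rw [div_le_iff₀ (by positivity)] at h2
  linarith

end H95LBS
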