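import Pool.Agent.H95.LBS.SeedB
import Pool.Agent.H95.LBS.SeedE
import Pool.Agent.H95.LBS.StatM

/-!
PROJECT DS (MP_0d9ad5_pr), JOB DS-Samp. Sampling: conclusion (section 4 of note 2700).
PROOF. `n = L^(d-6)`, `η3 = b1 η1/16`, `η4 = η2/4`, `N1 = (4M+4) lam`. `Typ(ω,b)`: (i) number of seeds with
`hs >= b1 L^4` at most `Ch n` (`sb_col`, `Ch` large); (ii) `∑_{u ∈ FS ∩ WW} ψ(u) <= ηr * I L^(d-2)`, so at most `I L^(d-2)` points with
`ψ > ηr`, where `I = (η2/8)(b1 η1/16)/2` (`sb_psi`: needs `C(1/r0^(d-6) + ((4M+4)/m)^2)/(ηr I) <= η0/100`: `r0`, then `m0`);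
(iii) at most `I L^(d-2)` points of `FS ∩ WW` with a point of another sampled hub within `2 r0` (`sb_near`, `L` large);
(iv) `∑_j enr <= (η2/8) C4 m^d lam^(d+4)/L^4` (`sb_enr`, `C4` large; `L^(d-4) lam^4 = m^d lam^(d+4)/L^4 `, second term smaller for
`lam >= m^2`). `QQ(not Typ) <= η0/8`, so `P{ω : seedM(not Typ) > 1/4} <= η0/2` (Markov in `ω`, Fubini). Also
`se_pairs` with a small `δ` (probability `<= η0/2`). For the other `ω`, and `X, X'` hub-closed, `Colr`, disjoint,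
`Bich (η1/2) (η2/2)`: for each of the bichromatic boxes `j` and `T = X ∩ BG ∩ cube j` (`card >= η1/2 vol`, all its points have
`hs >= bigN >= b1 L^4`): `se_cheb` gives sampled part `>= b1/4 card T >= b1 η1/8 vol` except with probability
`16 δ vol^2/(b1 η1/2 vol)^2`; union over at most `2 (3m)^d` (box, colour) `<= 1/4` for `δ = δ(m)`. So with probability
`>= 1/2` all hold; then at most `(η2/8) m^d` boxes have more than `(b1 η1/16) vol` points violating (ii) or (iii), at most `(η2/8) m^d`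
have large energy: the remaining `>= (η2/4) m^d` boxes are good (regular for the colour: by (iii) every point of
`FS` within `2 r0` of `u` is in the hub of `u`, hence in `X`).
-/

namespace H95LBS

open H5DF H95LBD MeasureTheory

variable {d : ℕ}

open Classical in
/-- Sampling works for `ω`. -/
def SampOK (M m lam r0 : ℕ) (c1 b1 η1 η2 ηr C4 Ch : ℝ) (ω : Cfg d) : Prop :=
  ∀ X X' : Set (V d), HubCl (BB d M (m * lam)) ω X → HubCl (BB d M (m * lam)) ω X' →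
    Colr (BB d M (m * lam)) ω (BG M (m * lam) c1 b1 ω ∩ WW d (m * lam)) X →
    Colr (BB d M (m * lam)) ω (BG M (m * lam) c1 b1 ω ∩ WW d (m * lam)) X' →
    Disjoint X X' → Bich m lam (BG M (m * lam) c1 b1 ω) (η1 / 2) (η2 / 2) X X' →
    1 / 2 ≤ (seedM d (1 / ((m * lam : ℕ) : ℝ) ^ 4)).real {b |
      (cn {x | b x = true ∧ b1 * ((m * lam : ℕ) : ℝ) ^ 4 ≤ hs (BB d M (m * lam)) ω x}
        (BB d M (m * lam)) : ℝ) ≤ Ch * ((m * lam : ℕ) : ℝ) ^ (d - 6) ∧
      Good M m lam r0 ηr (b1 * η1 / 16) (η2 / 4) C4 (FS (BB d M (m * lam)) ω b)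
        ((FS (BB d M (m * lam)) ω b).filter (fun x => x ∈ X))
        ((FS (BB d M (m * lam)) ω b).filter (fun x => x ∈ X'))}

lemma samp_cube_sub {m lam : ℕ} {j : V d} (hj : j ∈ JJ d m) : cube lam j ⊆ WW d (m * lam) := by
  intro x hx
  rw [mem_cube] at hx
  rw [mem_WW]
  rw [mem_JJ] at hj
  intro i
  have h1 := hx i
  have h2 := hj i
  have hl : (0 : ℤ) ≤ (lam : ℤ) := Int.natCast_nonneg _
  push_cast
  constructor
  · nlinarith [h1.1, h2.1]
  · have h3 : j i + 1 ≤ 2 * (m : ℤ) := by omega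
    nlinarith [h1.2, mul_le_mul_of_nonneg_right h3 hl]

lemma samp_cube_disj {lam : ℕ} (hlam : 1 ≤ lam) {j j' x : V d} (h : x ∈ cube lam j)
    (h' : x ∈ cube lam j') : j = j' := by
  rw [mem_cube] at h h'
  have hl : (0 : ℤ) < (lam : ℤ) := by exact_mod_cast hlam
  funext i
  have h1 := h i
  have h2 := h' i
  have h3 : j i < j' i + 1 := by
    by_contra hc
    push Not at hc
    nlinarith [mul_le_mul_of_nonneg_right hc hl.le]
  have h4 : j' i < j i + 1 := by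
    by_contra hc
    push Not at hc
    nlinarith [mul_le_mul_of_nonneg_right hc hl.le]
  omega

lemma samp_vol_pos {m lam : ℕ} (hm : 1 ≤ m) (hlam : 1 ≤ lam) : 0 < vol d m lam := by
  unfold vol
  have h1 : (0 : ℝ) < lam := by exact_mod_cast hlam
  have h2 : (0 : ℝ) < ((m * lam : ℕ) : ℝ) := by exact_mod_cast Nat.mul_pos hm hlam
  positivity

lemma samp_vol {m lam : ℕ} (hm : 1 ≤ m) (hlam : 1 ≤ lam) (hd : 2 ≤ d) :
    ((m * lam : ℕ) : ℝ) ^ (d - 2) = (m : ℝ) ^ d * vol d m lam := by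
  have h2 : (0 : ℝ) < ((m * lam : ℕ) : ℝ) := by exact_mod_cast Nat.mul_pos hm hlam
  unfold vol
  rw [eq_comm, ← mul_div_assoc, div_eq_iff (by positivity), ← mul_pow, ← pow_add,
    Nat.sub_add_cancel hd]
  push_cast
  rfl

/-- Few indices with a large value. -/
lemma samp_few {ι : Type*} (J : Finset ι) (f : ι → ℝ) (t K : ℝ) (ht : 0 < t)
    (hf : ∀ j ∈ J, 0 ≤ f j) (P : ι → Prop) [DecidablePred P] (hP : ∀ j ∈ J, P j → t ≤ f j)
    (h : ∑ j ∈ J, f j ≤ K * t) : ((J.filter P).card : ℝ) ≤ K := by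
  have h1 : ((J.filter P).card : ℝ) * t ≤ ∑ j ∈ J, f j := by
    calc ((J.filter P).card : ℝ) * t = ∑ _j ∈ J.filter P, t := by
          rw [Finset.sum_const, nsmul_eq_mul]
      _ ≤ ∑ j ∈ J.filter P, f j := Finset.sum_le_sum fun j hj =>
          hP j (Finset.mem_filter.1 hj).1 (Finset.mem_filter.1 hj).2
      _ ≤ _ := Finset.sum_le_sum_of_subset_of_nonneg (Finset.filter_subset _ _)
          fun j hj _ => hf j hj
  have h2 := h1.trans h
  exact le_of_mul_le_mul_right h2 ht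

lemma samp_cn (X : Set (V d)) (T : Finset (V d)) [DecidablePred (· ∈ X)] :
    cn X T = (T.filter (fun x => x ∈ X)).card := by
  unfold cn
  refine congrArg Finset.card ?_
  ext x
  simp only [Finset.mem_filter]

open Classical in
/-- Regular points of one colour in a good box. -/
lemma samp_reg {M m lam r0 : ℕ} {ηr : ℝ} (ω : Cfg d) (F Irr : Finset (V d)) (X Y : Set (V d))
    (hF : F ⊆ BB d M (m * lam)) (hX : HubCl (BB d M (m * lam)) ω X)
    (hIrr : ∀ u ∈ F ∩ WW d (m * lam), u ∉ Irr →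
      (∀ w ∈ F, nm (w - u) ≤ 2 * r0 → Cn (BB d M (m * lam) : Set (V d)) ω u w) ∧
      ∑ w ∈ F.filter (fun w => nm (w - u) ≤ (4 * M + 4) * lam),
        1 / ((r0 : ℝ) + nm (w - u)) ^ (d - 2) ≤ ηr)
    (j : V d) (hj : j ∈ JJ d m) (t : ℝ)
    (h1 : 2 * t ≤ cn (F : Set (V d)) ((cube lam j).filter fun x => x ∈ X ∩ Y))
    (h2 : ((Irr ∩ cube lam j).card : ℝ) ≤ t) :
    t ≤ (RegA r0 ((4 * M + 4) * lam) ηr F (F.filter (fun x => x ∈ X)) ∩ cube lam j).card := by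
  set S := ((cube lam j).filter fun x => x ∈ X ∩ Y).filter fun x => x ∈ (F : Set (V d)) with hS
  have hSc : (S.card : ℝ) = cn (F : Set (V d)) ((cube lam j).filter fun x => x ∈ X ∩ Y) := by
    rw [samp_cn]
  have hsub : S \ (Irr ∩ cube lam j) ⊆
      RegA r0 ((4 * M + 4) * lam) ηr F (F.filter (fun x => x ∈ X)) ∩ cube lam j := by
    intro u hu
    obtain ⟨huS, huI⟩ := Finset.mem_sdiff.1 hu
    obtain ⟨hu1, huF⟩ := Finset.mem_filter.1 huS
    obtain ⟨huc, huX⟩ := Finset.mem_filter.1 hu1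
    have huF' : u ∈ F := huF
    have huW : u ∈ WW d (m * lam) := samp_cube_sub hj huc
    have huI' : u ∉ Irr := fun h => huI (Finset.mem_inter.2 ⟨h, huc⟩)
    obtain ⟨g1, g2⟩ := hIrr u (Finset.mem_inter.2 ⟨huF', huW⟩) huI'
    refine Finset.mem_inter.2 ⟨?_, huc⟩
    unfold RegA
    refine Finset.mem_filter.2 ⟨Finset.mem_filter.2 ⟨huF', huX.1⟩, ?_, g2⟩
    intro w hw hwn
    exact Finset.mem_filter.2 ⟨hw, hX.2 u huX.1 w (g1 w hw hwn)⟩
  have h3 : S.card ≤ (RegA r0 ((4 * M + 4) * lam) ηr F (F.filter (fun x => x ∈ X)) ∩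
      cube lam j).card + (Irr ∩ cube lam j).card := by
    have h4 := Finset.card_le_card hsub
    have h5 := Finset.le_card_sdiff (Irr ∩ cube lam j) S
    omega
  have h6 : (S.card : ℝ) ≤ (RegA r0 ((4 * M + 4) * lam) ηr F (F.filter (fun x => x ∈ X)) ∩
      cube lam j).card + (Irr ∩ cube lam j).card := by exact_mod_cast h3
  rw [hSc] at h6
  linarith

open Classical in
/-- The deterministic part. -/
lemma samp_good {M m lam r0 : ℕ} {c1 b1 η1 η2 ηr C4 : ℝ} (hm : 1 ≤ m) (hlam : 1 ≤ lam)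
    (hd : 2 ≤ d) (hb1 : 0 < b1) (hη1 : 0 < η1) (hη2 : 0 < η2) (hηr : 0 < ηr) (hC4 : 0 < C4)
    (ω : Cfg d) (F : Finset (V d)) (hF : F ⊆ BB d M (m * lam)) (X X' : Set (V d))
    (hX : HubCl (BB d M (m * lam)) ω X) (hX' : HubCl (BB d M (m * lam)) ω X')
    (hdis : Disjoint X X')
    (hB : Bich m lam (BG M (m * lam) c1 b1 ω) (η1 / 2) (η2 / 2) X X')
    (h2 : ∑ u ∈ F ∩ WW d (m * lam), ∑ w ∈ F.filter (fun w => nm (w - u) ≤ (4 * M + 4) * lam),
      1 / ((r0 : ℝ) + nm (w - u)) ^ (d - 2) ≤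
        ηr * (η2 * b1 * η1 / 256) * ((m * lam : ℕ) : ℝ) ^ (d - 2))
    (h3 : (((F ∩ WW d (m * lam)).filter (fun u => ∃ w ∈ F, nm (w - u) ≤ 2 * r0 ∧
      ¬ Cn (BB d M (m * lam) : Set (V d)) ω u w)).card : ℝ) ≤
        η2 * b1 * η1 / 256 * ((m * lam : ℕ) : ℝ) ^ (d - 2))
    (h4 : ∑ j ∈ JJ d m, enr F (cube lam j) ≤
      η2 / 8 * C4 * (m : ℝ) ^ d * ((lam : ℝ) ^ (d + 4) / ((m * lam : ℕ) : ℝ) ^ 4))
    (h5 : ∀ Z : Set (V d), Z = X ∨ Z = X' → ∀ j ∈ JJ d m,
      η1 / 2 * vol d m lam ≤ cn (Z ∩ BG M (m * lam) c1 b1 ω) (cube lam j) →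
      b1 / 4 * cn (Z ∩ BG M (m * lam) c1 b1 ω) (cube lam j) ≤
        cn (F : Set (V d)) ((cube lam j).filter fun x => x ∈ Z ∩ BG M (m * lam) c1 b1 ω)) :
    Good M m lam r0 ηr (b1 * η1 / 16) (η2 / 4) C4 F (F.filter (fun x => x ∈ X))
      (F.filter (fun x => x ∈ X')) := by
  have hvol := samp_vol_pos (d := d) hm hlam
  have hL : (0 : ℝ) < ((m * lam : ℕ) : ℝ) := by exact_mod_cast Nat.mul_pos hm hlam
  have hlam0 : (0 : ℝ) < (lam : ℝ) := by exact_mod_cast hlam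
  have hm0 : (0 : ℝ) < (m : ℝ) := by exact_mod_cast hm
  refine ⟨hF, Finset.filter_subset _ _, Finset.filter_subset _ _, ?_, ?_⟩
  · rw [Finset.disjoint_left]
    intro x hx hx'
    exact Set.disjoint_left.1 hdis (Finset.mem_filter.1 hx).2 (Finset.mem_filter.1 hx').2
  -- the sets of bad boxes
  set W := WW d (m * lam) with hW
  set ψ : V d → ℝ := fun u => ∑ w ∈ F.filter (fun w => nm (w - u) ≤ (4 * M + 4) * lam),
      1 / ((r0 : ℝ) + nm (w - u)) ^ (d - 2) with hψ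
  have hψ0 : ∀ u, 0 ≤ ψ u := fun u => Finset.sum_nonneg fun w _ => by positivity
  set I1 := (F ∩ W).filter (fun u => ηr < ψ u) with hI1
  set I2 := (F ∩ W).filter (fun u => ∃ w ∈ F, nm (w - u) ≤ 2 * r0 ∧
      ¬ Cn (BB d M (m * lam) : Set (V d)) ω u w) with hI2
  set Irr := I1 ∪ I2 with hIrr
  have hI1c : (I1.card : ℝ) ≤ η2 * b1 * η1 / 256 * ((m * lam : ℕ) : ℝ) ^ (d - 2) := by
    refine samp_few (F ∩ W) ψ ηr _ hηr (fun u _ => hψ0 u) (fun u => ηr < ψ u)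
      (fun u _ h => le_of_lt h) ?_
    refine h2.trans (le_of_eq ?_)
    ring
  have hIrrc : (Irr.card : ℝ) ≤ η2 / 8 * (m : ℝ) ^ d * (b1 * η1 / 16 * vol d m lam) := by
    have h6 : (Irr.card : ℝ) ≤ I1.card + I2.card := by
      exact_mod_cast Finset.card_union_le I1 I2
    have h7 := add_le_add hI1c h3
    refine h6.trans (h7.trans (le_of_eq ?_))
    rw [samp_vol hm hlam hd]
    ring
  set B1 := (JJ d m).filter fun j => η1 / 2 * vol d m lam ≤
      cn (X ∩ BG M (m * lam) c1 b1 ω) (cube lam j) ∧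
      η1 / 2 * vol d m lam ≤ cn (X' ∩ BG M (m * lam) c1 b1 ω) (cube lam j) with hB1
  have hB1c : η2 / 2 * (m : ℝ) ^ d ≤ B1.card := hB
  set BI := (JJ d m).filter fun j => b1 * η1 / 16 * vol d m lam < (Irr ∩ cube lam j).card with hBI
  set BE := (JJ d m).filter fun j => C4 * (lam : ℝ) ^ (d + 4) / ((m * lam : ℕ) : ℝ) ^ 4 <
    enr F (cube lam j) with hBE
  have hBIc : (BI.card : ℝ) ≤ η2 / 8 * (m : ℝ) ^ d := by
    refine samp_few (JJ d m) (fun j => ((Irr ∩ cube lam j).card : ℝ))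
      (b1 * η1 / 16 * vol d m lam) _ (by positivity) (fun j _ => Nat.cast_nonneg _) _
      (fun j _ h => le_of_lt h) ?_
    have h6 : ∑ j ∈ JJ d m, ((Irr ∩ cube lam j).card : ℝ) ≤ Irr.card := by
      have h7 : ((JJ d m : Finset (V d)) : Set (V d)).PairwiseDisjoint
          (fun j => Irr ∩ cube lam j) := by
        intro j _ j' _ hne
        rw [Function.onFun, Finset.disjoint_left]
        intro x hx hx'
        exact hne (samp_cube_disj hlam (Finset.mem_inter.1 hx).2 (Finset.mem_inter.1 hx').2)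
      have h8 := Finset.card_biUnion h7
      have h9 : ((JJ d m).biUnion fun j => Irr ∩ cube lam j) ⊆ Irr := by
        intro x hx
        obtain ⟨j, -, hj⟩ := Finset.mem_biUnion.1 hx
        exact (Finset.mem_inter.1 hj).1
      have h10 := Finset.card_le_card h9
      rw [h8] at h10
      exact_mod_cast h10
    exact h6.trans hIrrc
  have hBEc : (BE.card : ℝ) ≤ η2 / 8 * (m : ℝ) ^ d := by
    refine samp_few (JJ d m) (fun j => enr F (cube lam j))
      (C4 * (lam : ℝ) ^ (d + 4) / ((m * lam : ℕ) : ℝ) ^ 4) _ (by positivity) ?_ _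
      (fun j _ h => le_of_lt h) ?_
    · intro j _
      unfold enr
      exact Finset.sum_nonneg fun u _ => Finset.sum_nonneg fun w _ => by positivity
    · refine h4.trans (le_of_eq ?_)
      ring
  refine ⟨B1 \ (BI ∪ BE), (Finset.sdiff_subset).trans (Finset.filter_subset _ _), ?_, ?_⟩
  · have h6 := Finset.le_card_sdiff (BI ∪ BE) B1
    have h7 := Finset.card_union_le BI BE
    have h8 : (B1.card : ℝ) ≤ ((B1 \ (BI ∪ BE)).card : ℝ) + (BI.card + BE.card) := by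
      have : B1.card ≤ (B1 \ (BI ∪ BE)).card + (BI.card + BE.card) := by omega
      exact_mod_cast this
    linarith
  · intro j hj
    obtain ⟨hjB, hjn⟩ := Finset.mem_sdiff.1 hj
    obtain ⟨hjJ, hjX, hjX'⟩ := Finset.mem_filter.1 hjB
    rw [Finset.mem_union, not_or] at hjn
    have hnI : ((Irr ∩ cube lam j).card : ℝ) ≤ b1 * η1 / 16 * vol d m lam := by
      by_contra hc
      push Not at hc
      exact hjn.1 (Finset.mem_filter.2 ⟨hjJ, hc⟩)
    have hnE : enr F (cube lam j) ≤ C4 * (lam : ℝ) ^ (d + 4) / ((m * lam : ℕ) : ℝ) ^ 4 := by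
      by_contra hc
      push Not at hc
      exact hjn.2 (Finset.mem_filter.2 ⟨hjJ, hc⟩)
    have hreg : ∀ u ∈ F ∩ WW d (m * lam), u ∉ Irr →
      (∀ w ∈ F, nm (w - u) ≤ 2 * r0 → Cn (BB d M (m * lam) : Set (V d)) ω u w) ∧
      ∑ w ∈ F.filter (fun w => nm (w - u) ≤ (4 * M + 4) * lam),
        1 / ((r0 : ℝ) + nm (w - u)) ^ (d - 2) ≤ ηr := by
      intro u hu hni
      rw [hIrr, Finset.mem_union, not_or] at hni
      constructor
      · intro w hw hwn
        by_contra hc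
        exact hni.2 (Finset.mem_filter.2 ⟨hu, w, hw, hwn, hc⟩)
      · by_contra hc
        push Not at hc
        exact hni.1 (Finset.mem_filter.2 ⟨hu, hc⟩)
    have key : ∀ Z : Set (V d), (Z = X ∨ Z = X') →
        HubCl (BB d M (m * lam)) ω Z →
        η1 / 2 * vol d m lam ≤ cn (Z ∩ BG M (m * lam) c1 b1 ω) (cube lam j) →
        b1 * η1 / 16 * vol d m lam ≤
          (RegA r0 ((4 * M + 4) * lam) ηr F (F.filter (fun x => x ∈ Z)) ∩ cube lam j).card := by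
      intro Z hZ hZc hZv
      refine samp_reg ω F Irr Z (BG M (m * lam) c1 b1 ω) hF hZc hreg j hjJ _ ?_ hnI
      refine le_trans ?_ (h5 Z hZ j hjJ hZv)
      have h6 := mul_le_mul_of_nonneg_left hZv (show (0 : ℝ) ≤ b1 / 4 by positivity)
      refine le_trans (le_of_eq ?_) h6
      ring
    exact ⟨key X (Or.inl rfl) hX hjX, key X' (Or.inr rfl) hX' hjX', hnE⟩

/-- Markov for sections, no measurability. -/
lemma samp_fub {X Y : Type*} [MeasurableSpace X] [MeasurableSpace Y] (μ : Measure X)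
    (ν : Measure Y) [IsProbabilityMeasure μ] [IsProbabilityMeasure ν] (N : Set (X × Y)) (p a : ℝ)
    (ha : 0 < a) (h : (μ.prod ν).real N ≤ p * a) :
    μ.real {x | a < ν.real {y | (x, y) ∈ N}} ≤ p := by
  set N' := toMeasurable (μ.prod ν) N with hN'
  have hN'm : MeasurableSet N' := measurableSet_toMeasurable _ _
  have hNN : N ⊆ N' := subset_toMeasurable _ _
  have h1 : ∫⁻ x, ν (Prod.mk x ⁻¹' N') ∂μ = (μ.prod ν) N := by
    rw [← Measure.prod_apply hN'm, hN', measure_toMeasurable]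
  have h2 := mul_meas_ge_le_lintegral (μ := μ) (measurable_measure_prodMk_left (ν := ν) hN'm)
    (ENNReal.ofReal a)
  rw [h1] at h2
  have h3 : {x | a < ν.real {y | (x, y) ∈ N}} ⊆
      {x | ENNReal.ofReal a ≤ ν (Prod.mk x ⁻¹' N')} := by
    intro x hx
    have hx' : a < ν.real {y | (x, y) ∈ N} := hx
    have h4 : ENNReal.ofReal a ≤ ν {y | (x, y) ∈ N} :=
      (ENNReal.ofReal_le_iff_le_toReal (measure_ne_top _ _)).2 hx'.le
    exact h4.trans (measure_mono fun y hy => hNN hy)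
  have h5 : a * μ.real {x | a < ν.real {y | (x, y) ∈ N}} ≤ (μ.prod ν).real N := by
    have h6 : ENNReal.ofReal a * μ {x | a < ν.real {y | (x, y) ∈ N}} ≤ (μ.prod ν) N :=
      (mul_le_mul le_rfl (measure_mono h3) zero_le zero_le).trans h2
    have h7 := ENNReal.toReal_mono (measure_ne_top _ _) h6
    rw [ENNReal.toReal_mul, ENNReal.toReal_ofReal ha.le] at h7
    exact h7
  have h8 := h5.trans h
  by_contra hc
  push Not at hc
  nlinarith

open Classical in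
/-- Chebyshev for one colour in one box. -/
lemma samp_cheb {M m lam : ℕ} {c1 b1 η1 δ : ℝ} (hm : 1 ≤ m) (hlam : 1 ≤ lam) (hb1 : 0 < b1)
    (hb1' : b1 ≤ 1) (hη1 : 0 < η1) (ω : Cfg d) (Z : Set (V d)) (j : V d) (hj : j ∈ JJ d m)
    (hv : η1 / 2 * vol d m lam ≤ cn (Z ∩ BG M (m * lam) c1 b1 ω) (cube lam j))
    (hp : ∑ u ∈ cube lam j, ∑ u' ∈ cube lam j,
        (if Cn (BB d M (m * lam) : Set (V d)) ω u u' then (1 : ℝ) else 0) ≤
        δ * vol d m lam ^ 2) :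
    (seedM d (1 / ((m * lam : ℕ) : ℝ) ^ 4)).real {b |
      ¬ b1 / 4 * cn (Z ∩ BG M (m * lam) c1 b1 ω) (cube lam j) ≤
        cn (FS (BB d M (m * lam)) ω b : Set (V d))
          ((cube lam j).filter fun x => x ∈ Z ∩ BG M (m * lam) c1 b1 ω)} ≤
      64 * δ / (b1 * η1) ^ 2 := by
  have hvol := samp_vol_pos (d := d) hm hlam
  have hL1 : 1 ≤ m * lam := Nat.mul_pos hm hlam
  set T := (cube lam j).filter fun x => x ∈ Z ∩ BG M (m * lam) c1 b1 ω with hT
  have hTc : cn (Z ∩ BG M (m * lam) c1 b1 ω) (cube lam j) = T.card := samp_cn _ _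
  rw [hTc] at hv ⊢
  have hTpos : (0 : ℝ) < T.card := lt_of_lt_of_le (by positivity) hv
  have hTn : 1 ≤ T.card := by exact_mod_cast hTpos
  have hTW : T ⊆ WW d (m * lam) := (Finset.filter_subset _ _).trans (samp_cube_sub hj)
  have h1 := se_cheb M (m * lam) ω b1 hb1 hb1' hL1 T (hTW.trans WW_sub_BB) hTn ?_
  · have h2 : {b : V d → Bool | ¬ b1 / 4 * (T.card : ℝ) ≤
        cn (FS (BB d M (m * lam)) ω b : Set (V d)) T} =
        {b : V d → Bool | (cn (FS (BB d M (m * lam)) ω b : Set (V d)) T : ℝ) <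
          b1 / 4 * T.card} := by
      ext b
      simp only [Set.mem_setOf_eq, not_le]
    rw [h2]
    refine h1.trans ?_
    have h3 : (∑ u ∈ T, ∑ u' ∈ T,
        if Cn (BB d M (m * lam) : Set (V d)) ω u u' then (1 : ℝ) else 0) ≤
        δ * vol d m lam ^ 2 := by
      refine le_trans ?_ hp
      refine (Finset.sum_le_sum fun u _ => Finset.sum_le_sum_of_subset_of_nonneg
        (Finset.filter_subset _ _) fun _ _ _ => by split_ifs <;> norm_num).trans ?_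
      exact Finset.sum_le_sum_of_subset_of_nonneg (Finset.filter_subset _ _) fun _ _ _ =>
        Finset.sum_nonneg fun _ _ => by split_ifs <;> norm_num
    have hδ : 0 ≤ δ * vol d m lam ^ 2 := by
      refine le_trans ?_ h3
      exact Finset.sum_nonneg fun _ _ => Finset.sum_nonneg fun _ _ => by
        split_ifs <;> norm_num
    calc 16 * (∑ u ∈ T, ∑ u' ∈ T,
          if Cn (BB d M (m * lam) : Set (V d)) ω u u' then (1 : ℝ) else 0) /
          (b1 * T.card) ^ 2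
        ≤ 16 * (δ * vol d m lam ^ 2) / (b1 * (η1 / 2 * vol d m lam)) ^ 2 := by gcongr
      _ = 64 * δ / (b1 * η1) ^ 2 := by
        field_simp
        ring
  · intro u hu
    have hu2 := (Finset.mem_filter.1 hu).2.2
    rw [statM_hs]
    exact statM_big (hTW hu) hu2

lemma samp_card_JJ (m : ℕ) : ((JJ d m).card : ℝ) = (3 * (m : ℝ)) ^ d := by
  unfold JJ
  rw [Fintype.card_piFinset]
  simp only [Int.card_Ico, Finset.prod_const, Finset.card_univ, Fintype.card_fin]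
  have : (2 * (m : ℤ) - -(m : ℤ)).toNat = 3 * m := by omega
  rw [this]
  push_cast
  ring

open Classical in
/-- Atypical pairs (configuration, seeds). -/
noncomputable def sampN (M m lam r0 : ℕ) (b1 η1 η2 ηr C4 Ch : ℝ) :
    Set (Cfg d × (V d → Bool)) :=
  ({q | Ch * ((m * lam : ℕ) : ℝ) ^ (d - 6) < cn {x | q.2 x = true ∧
        b1 * ((m * lam : ℕ) : ℝ) ^ 4 ≤ hs (BB d M (m * lam)) q.1 x} (BB d M (m * lam))} ∪
    {q | ηr * (η2 * b1 * η1 / 256) * ((m * lam : ℕ) : ℝ) ^ (d - 2) <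
      ∑ u ∈ (FS (BB d M (m * lam)) q.1 q.2) ∩ WW d (m * lam),
        ∑ w ∈ (FS (BB d M (m * lam)) q.1 q.2).filter (fun w => nm (w - u) ≤ (4 * M + 4) * lam),
          1 / ((r0 : ℝ) + nm (w - u)) ^ (d - 2)}) ∪
  ({q | η2 * b1 * η1 / 256 * ((m * lam : ℕ) : ℝ) ^ (d - 2) <
      (((FS (BB d M (m * lam)) q.1 q.2) ∩ WW d (m * lam)).filter
        (fun u => ∃ w ∈ FS (BB d M (m * lam)) q.1 q.2, nm (w - u) ≤ 2 * r0 ∧
          ¬ Cn (BB d M (m * lam) : Set (V d)) q.1 u w)).card} ∪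
    {q | η2 / 8 * C4 * (m : ℝ) ^ d * ((lam : ℝ) ^ (d + 4) / ((m * lam : ℕ) : ℝ) ^ 4) <
      ∑ j ∈ JJ d m, enr (FS (BB d M (m * lam)) q.1 q.2) (cube lam j)})

lemma samp_FS_sub (B : Finset (V d)) (ω : Cfg d) (b : V d → Bool) : FS B ω b ⊆ B := by
  classical
  unfold FS
  exact Finset.filter_subset _ _

/-- The deterministic inclusion. -/
lemma samp_ok {M m lam r0 : ℕ} {c1 b1 η1 η2 ηr C4 Ch : ℝ} (hm : 1 ≤ m) (hlam : 1 ≤ lam)
    (hd : 2 ≤ d) (hb1 : 0 < b1) (hb1' : b1 ≤ 1) (hη1 : 0 < η1) (hη2 : 0 < η2) (hηr : 0 < ηr)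
    (hC4 : 0 < C4) (ω : Cfg d) (δ : ℝ) (hδ : δ = (b1 * η1) ^ 2 / (512 * (3 * (m : ℝ)) ^ d))
    (hN : (seedM d (1 / ((m * lam : ℕ) : ℝ) ^ 4)).real
      {b | (ω, b) ∈ sampN M m lam r0 b1 η1 η2 ηr C4 Ch} ≤ 1 / 4)
    (hp : ∀ j ∈ JJ d m, ∑ u ∈ cube lam j, ∑ u' ∈ cube lam j,
      (open Classical in if Cn (BB d M (m * lam) : Set (V d)) ω u u' then (1 : ℝ) else 0) ≤
        δ * vol d m lam ^ 2) :
    SampOK M m lam r0 c1 b1 η1 η2 ηr C4 Ch ω := by
  classical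
  intro X X' hX hX' _ _ hdis hB
  have hL1 : 1 ≤ m * lam := Nat.mul_pos hm hlam
  have hL : (1 : ℝ) ≤ ((m * lam : ℕ) : ℝ) := by exact_mod_cast hL1
  have hm0 : (0 : ℝ) < (m : ℝ) := by exact_mod_cast hm
  haveI : IsProbabilityMeasure (seedM d (1 / ((m * lam : ℕ) : ℝ) ^ 4)) := by
    apply isProb_seed (by positivity)
    rw [div_le_one (by positivity)]
    exact one_le_pow₀ hL
  set ν := seedM d (1 / ((m * lam : ℕ) : ℝ) ^ 4) with hν
  set E : Set (V d) → V d → Set (V d → Bool) := fun Z j =>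
    {b | η1 / 2 * vol d m lam ≤ cn (Z ∩ BG M (m * lam) c1 b1 ω) (cube lam j) ∧
      ¬ b1 / 4 * cn (Z ∩ BG M (m * lam) c1 b1 ω) (cube lam j) ≤
        cn (FS (BB d M (m * lam)) ω b : Set (V d))
          ((cube lam j).filter fun x => x ∈ Z ∩ BG M (m * lam) c1 b1 ω)} with hE
  have hEm : ∀ Z : Set (V d), ∀ j ∈ JJ d m, ν.real (E Z j) ≤ 1 / (8 * (3 * (m : ℝ)) ^ d) := by
    intro Z j hj
    by_cases hv : η1 / 2 * vol d m lam ≤ cn (Z ∩ BG M (m * lam) c1 b1 ω) (cube lam j)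
    · have h1 := samp_cheb hm hlam hb1 hb1' hη1 ω Z j hj hv (hp j hj)
      refine (measureReal_mono ?_ (measure_ne_top _ _)).trans (h1.trans (le_of_eq ?_))
      · intro b hb
        exact hb.2
      · rw [hδ]
        field_simp
        norm_num
    · have : E Z j = ∅ := by
        ext b
        simp only [hE, Set.mem_setOf_eq, Set.mem_empty_iff_false, iff_false, not_and]
        intro h
        exact absurd h hv
      rw [this, measureReal_empty]
      positivity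
  set Gd : Set (V d → Bool) := {b |
      (cn {x | b x = true ∧ b1 * ((m * lam : ℕ) : ℝ) ^ 4 ≤ hs (BB d M (m * lam)) ω x}
        (BB d M (m * lam)) : ℝ) ≤ Ch * ((m * lam : ℕ) : ℝ) ^ (d - 6) ∧
      Good M m lam r0 ηr (b1 * η1 / 16) (η2 / 4) C4 (FS (BB d M (m * lam)) ω b)
        ((FS (BB d M (m * lam)) ω b).filter (fun x => x ∈ X))
        ((FS (BB d M (m * lam)) ω b).filter (fun x => x ∈ X'))} with hGd
  have hcov : (Set.univ : Set (V d → Bool)) ⊆ Gd ∪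
      ({b | (ω, b) ∈ sampN M m lam r0 b1 η1 η2 ηr C4 Ch} ∪
        ⋃ j ∈ JJ d m, (E X j ∪ E X' j)) := by
    intro b _
    by_cases hb1N : (ω, b) ∈ sampN M m lam r0 b1 η1 η2 ηr C4 Ch
    · exact Or.inr (Or.inl hb1N)
    by_cases hb2 : b ∈ ⋃ j ∈ JJ d m, (E X j ∪ E X' j)
    · exact Or.inr (Or.inr hb2)
    left
    unfold sampN at hb1N
    simp only [Set.mem_union, Set.mem_setOf_eq, not_or, not_lt] at hb1N
    obtain ⟨⟨n1, n2⟩, n3, n4⟩ := hb1N
    refine ⟨n1, ?_⟩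
    refine samp_good hm hlam hd hb1 hη1 hη2 hηr hC4 ω (FS (BB d M (m * lam)) ω b)
      (samp_FS_sub _ _ _) X X' hX hX' hdis hB n2 n3 n4 ?_
    intro Z hZ j hj hv
    by_contra hc
    apply hb2
    simp only [Set.mem_iUnion]
    refine ⟨j, hj, ?_⟩
    rcases hZ with rfl | rfl
    · exact Or.inl ⟨hv, hc⟩
    · exact Or.inr ⟨hv, hc⟩
  have h1 : ν.real (⋃ j ∈ JJ d m, (E X j ∪ E X' j)) ≤ 1 / 4 := by
    refine (measureReal_biUnion_finset_le _ _).trans ?_
    refine (Finset.sum_le_sum (g := fun _ => 2 * (1 / (8 * (3 * (m : ℝ)) ^ d))) ?_).trans ?_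
    · intro j hj
      refine (measureReal_union_le _ _).trans ?_
      have g1 := hEm X j hj
      have g2 := hEm X' j hj
      linarith
    · rw [Finset.sum_const, nsmul_eq_mul, samp_card_JJ]
      apply le_of_eq
      field_simp
      norm_num
  have h2 : (1 : ℝ) ≤ ν.real Gd + (1 / 4 + 1 / 4) := by
    calc (1 : ℝ) = ν.real Set.univ := by rw [probReal_univ]
      _ ≤ ν.real (Gd ∪ ({b | (ω, b) ∈ sampN M m lam r0 b1 η1 η2 ηr C4 Ch} ∪
        ⋃ j ∈ JJ d m, (E X j ∪ E X' j))) := measureReal_mono hcov (measure_ne_top _ _)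
      _ ≤ _ := by
        refine (measureReal_union_le _ _).trans ?_
        refine add_le_add le_rfl ?_
        exact (measureReal_union_le _ _).trans (add_le_add hN h1)
  show 1 / 2 ≤ ν.real Gd
  linarith

theorem sampling {p0 A cM : ℝ} {M : ℕ} (H : Crit d p0 A cM M) (η0 c1 b1 η1 η2 ηr : ℝ)
    (hη : 0 < η0) (hc1 : 0 < c1) (hb1 : 0 < b1) (hb1' : b1 ≤ 1 / 2) (hη1 : 0 < η1) (hη1' : η1 ≤ 1)
    (hη2 : 0 < η2) (hη2' : η2 ≤ 1) (hηr : 0 < ηr) :
    ∃ (r0 : ℕ) (C4 Ch : ℝ) (m0 : ℕ), 1 ≤ r0 ∧ 0 < C4 ∧ 0 < Ch ∧ ∀ m : ℕ, m0 ≤ m →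
      ∃ lam0 : ℕ, ∀ lam : ℕ, lam0 ≤ lam →
        (perc d p0).real {ω | ¬ SampOK M m lam r0 c1 b1 η1 η2 ηr C4 Ch ω} ≤ η0 := by
  classical
  haveI := H.prob
  have h7 := H.hd
  obtain ⟨Cc, hCc, sbc⟩ := sb_col H
  obtain ⟨Cp, hCp, sbp⟩ := sb_psi H
  obtain ⟨Cr, hCr, sbn⟩ := sb_near H
  obtain ⟨Ce, hCe, sbe⟩ := sb_enr H
  set I : ℝ := η2 * b1 * η1 / 256 with hI
  have hI0 : 0 < I := by positivity
  have hsb : 0 < Real.sqrt b1 := Real.sqrt_pos.2 hb1
  have hM0 : (0 : ℝ) ≤ M := Nat.cast_nonneg M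
  set r0 : ℕ := ⌈64 * Cp / (ηr * I * η0)⌉₊ + 1 with hr0
  set C4 : ℝ := 512 * Ce / (η2 * η0) with hC4
  set Ch : ℝ := 32 * Cc / (Real.sqrt b1 * η0) with hCh
  set m0 : ℕ := ⌈64 * Cp * (4 * M + 4) ^ 2 / (ηr * I * η0)⌉₊ + 1 with hm0
  have hC4p : 0 < C4 := by positivity
  have hChp : 0 < Ch := by positivity
  have hr01 : 1 ≤ r0 := by omega
  have hr0R : 64 * Cp / (ηr * I * η0) ≤ r0 := by
    rw [hr0]
    push_cast
    linarith [Nat.le_ceil (64 * Cp / (ηr * I * η0))]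
  refine ⟨r0, C4, Ch, m0, hr01, hC4p, hChp, ?_⟩
  intro m hm
  have hm1 : 1 ≤ m := by omega
  have hmR : 64 * Cp * (4 * M + 4) ^ 2 / (ηr * I * η0) ≤ m := by
    have h1 : (m0 : ℝ) ≤ m := by exact_mod_cast hm
    rw [hm0] at h1
    push_cast at h1
    linarith [Nat.le_ceil (64 * Cp * (4 * M + 4) ^ 2 / (ηr * I * η0))]
  have hmp : (1 : ℝ) ≤ m := by exact_mod_cast hm1
  set δ : ℝ := (b1 * η1) ^ 2 / (512 * (3 * (m : ℝ)) ^ d) with hδ
  have hδ0 : 0 < δ := by positivity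
  obtain ⟨l1, sp⟩ := se_pairs H m hm1 δ (η0 / 2) hδ0 (by positivity)
  refine ⟨max l1 (max (m ^ 2) (⌈32 * Cr * (2 * r0) ^ d / (I * η0)⌉₊ + ⌈1 / b1⌉₊ + 1)), ?_⟩
  intro lam hlam
  have hl1 : l1 ≤ lam := (le_max_left _ _).trans hlam
  have hl2 : m ^ 2 ≤ lam := (le_max_left _ _).trans ((le_max_right _ _).trans hlam)
  have hl3 : ⌈32 * Cr * (2 * r0) ^ d / (I * η0)⌉₊ + ⌈1 / b1⌉₊ + 1 ≤ lam :=
    (le_max_right _ _).trans ((le_max_right _ _).trans hlam)
  have hlam1 : 1 ≤ lam := by omega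
  have hlamp : (1 : ℝ) ≤ lam := by exact_mod_cast hlam1
  have hL1 : 1 ≤ m * lam := Nat.mul_pos hm1 hlam1
  have hLp : (1 : ℝ) ≤ ((m * lam : ℕ) : ℝ) := by exact_mod_cast hL1
  have hlL : (lam : ℝ) ≤ ((m * lam : ℕ) : ℝ) := by
    push_cast
    nlinarith
  have hlr : 32 * Cr * (2 * r0) ^ d / (I * η0) ≤ lam := by
    have h1 : ((⌈32 * Cr * (2 * r0) ^ d / (I * η0)⌉₊ : ℕ) : ℝ) ≤ lam := by
      exact_mod_cast (show ⌈32 * Cr * (2 * r0) ^ d / (I * η0)⌉₊ ≤ lam by omega)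
    linarith [Nat.le_ceil (32 * Cr * (2 * r0) ^ d / (I * η0))]
  have hlb : 1 / b1 ≤ lam := by
    have h1 : ((⌈1 / b1⌉₊ : ℕ) : ℝ) ≤ lam := by
      exact_mod_cast (show ⌈1 / b1⌉₊ ≤ lam by omega)
    linarith [Nat.le_ceil (1 / b1)]
  haveI : IsProbabilityMeasure (seedM d (1 / ((m * lam : ℕ) : ℝ) ^ 4)) := by
    apply isProb_seed (by positivity)
    rw [div_le_one (by positivity)]
    exact one_le_pow₀ hLp
  set L : ℝ := ((m * lam : ℕ) : ℝ) with hL
  have hL0 : 0 < L := by linarith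
  -- the four bounds
  have hb1L : 1 ≤ b1 * L ^ 4 := by
    have h1 : 1 ≤ b1 * lam := by
      rw [div_le_iff₀ hb1] at hlb
      linarith
    have h2 : L ≤ L ^ 4 := by
      calc L = L ^ 1 := (pow_one L).symm
        _ ≤ L ^ 4 := pow_le_pow_right₀ hLp (by norm_num)
    nlinarith
  have B1 := sbc (m * lam) b1 (Ch * L ^ (d - 6)) hL1 hb1 hb1L (by positivity)
  have B2 := sbp (m * lam) r0 ((4 * M + 4) * lam) (ηr * I * L ^ (d - 2)) hL1 hr01
    (by nlinarith) (by positivity)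
  have B3 := sbn (m * lam) (2 * r0) (I * L ^ (d - 2)) hL1 (by omega) (by positivity)
  have B4 := sbe m lam (η2 / 8 * C4 * (m : ℝ) ^ d * ((lam : ℝ) ^ (d + 4) / L ^ 4)) hm1 hlam1
    (by positivity)
  have hQ : (QQ d p0 (1 / L ^ 4)).real (sampN M m lam r0 b1 η1 η2 ηr C4 Ch) ≤
      η0 / 2 * (1 / 4) := by
    have c1' : Cc * L ^ (d - 6) / (Real.sqrt b1 * (Ch * L ^ (d - 6))) ≤ η0 / 32 := by
      rw [hCh]
      apply le_of_eq
      field_simp
    have c2 : Cp * (1 / (r0 : ℝ) ^ (d - 6) + ((((4 * M + 4) * lam : ℕ) : ℝ) / L) ^ 2) *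
        L ^ (d - 2) / (ηr * I * L ^ (d - 2)) ≤ η0 / 32 := by
      have g1 : ((((4 * M + 4) * lam : ℕ) : ℝ) / L) = (4 * M + 4) / m := by
        rw [hL]
        push_cast
        field_simp
      have g2 : 1 / (r0 : ℝ) ^ (d - 6) ≤ 1 / r0 := by
        have g3 : (1 : ℝ) ≤ r0 := by exact_mod_cast hr01
        have g4 : (r0 : ℝ) ≤ (r0 : ℝ) ^ (d - 6) := by
          calc (r0 : ℝ) = (r0 : ℝ) ^ 1 := (pow_one _).symm
            _ ≤ _ := pow_le_pow_right₀ g3 (by omega)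
        exact one_div_le_one_div_of_le (by linarith) g4
      have g5 : ((4 * (M : ℝ) + 4) / m) ^ 2 ≤ (4 * M + 4) ^ 2 / m := by
        rw [div_pow]
        apply div_le_div_of_nonneg_left (by positivity) (by linarith)
        nlinarith
      have g6 : Cp * (1 / r0) / (ηr * I) ≤ η0 / 64 := by
        have g3 : (0 : ℝ) < r0 := by exact_mod_cast hr01
        rw [div_le_iff₀ (by positivity)] at hr0R
        rw [div_le_iff₀ (by positivity), mul_one_div, div_le_iff₀ g3]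
        linarith
      have g7 : Cp * ((4 * M + 4) ^ 2 / m) / (ηr * I) ≤ η0 / 64 := by
        rw [div_le_iff₀ (by positivity)] at hmR
        rw [div_le_iff₀ (by positivity), ← mul_div_assoc, div_le_iff₀ (by linarith)]
        linarith
      rw [g1]
      calc Cp * (1 / (r0 : ℝ) ^ (d - 6) + ((4 * (M : ℝ) + 4) / m) ^ 2) * L ^ (d - 2) /
            (ηr * I * L ^ (d - 2))
          = Cp * (1 / (r0 : ℝ) ^ (d - 6) + ((4 * (M : ℝ) + 4) / m) ^ 2) / (ηr * I) := by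
            rw [mul_div_mul_right _ _ (by positivity)]
        _ ≤ Cp * (1 / r0 + (4 * M + 4) ^ 2 / m) / (ηr * I) := by gcongr
        _ = Cp * (1 / r0) / (ηr * I) + Cp * ((4 * M + 4) ^ 2 / m) / (ηr * I) := by ring
        _ ≤ η0 / 32 := by linarith
    have c3 : Cr * ((2 * r0 : ℕ) : ℝ) ^ d * L ^ (d - 4) / (I * L ^ (d - 2)) ≤ η0 / 32 := by
      have g1 : L ^ (d - 2) = L ^ (d - 4) * L ^ 2 := by
        rw [← pow_add]
        congr 1
        omega
      have g2 : (lam : ℝ) ≤ L ^ 2 := by nlinarith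
      push_cast
      rw [g1, div_le_iff₀ (by positivity)]
      rw [div_le_iff₀ (by positivity)] at hlr
      have g3 : 32 * Cr * (2 * (r0 : ℝ)) ^ d ≤ L ^ 2 * (I * η0) :=
        hlr.trans (by gcongr)
      have g4 := mul_le_mul_of_nonneg_right g3 (show 0 ≤ L ^ (d - 4) by positivity)
      calc Cr * (2 * (r0 : ℝ)) ^ d * L ^ (d - 4)
          = (32 * Cr * (2 * (r0 : ℝ)) ^ d * L ^ (d - 4)) / 32 := by ring
        _ ≤ (L ^ 2 * (I * η0) * L ^ (d - 4)) / 32 := by linarith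
        _ = _ := by ring
    have c4 : Ce * (L ^ (d - 4) * (lam : ℝ) ^ 4 + L ^ (d - 2) * lam) /
        (η2 / 8 * C4 * (m : ℝ) ^ d * ((lam : ℝ) ^ (d + 4) / L ^ 4)) ≤ η0 / 32 := by
      have hLm : L = m * lam := by
        rw [hL]
        push_cast
        ring
      have g1 : (m : ℝ) ^ d * ((lam : ℝ) ^ (d + 4) / L ^ 4) = L ^ (d - 4) * (lam : ℝ) ^ 4 := by
        have g2 : L ^ d = L ^ (d - 4) * L ^ 4 := by
          rw [← pow_add]
          congr 1
          omega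
        have g3 : (m : ℝ) ^ d * (lam : ℝ) ^ (d + 4) = L ^ d * (lam : ℝ) ^ 4 := by
          rw [hLm, mul_pow, pow_add]
          ring
        rw [← mul_div_assoc, g3, g2]
        field_simp
      have g4 : L ^ (d - 2) * lam ≤ L ^ (d - 4) * (lam : ℝ) ^ 4 := by
        have g5 : L ^ (d - 2) = L ^ (d - 4) * L ^ 2 := by
          rw [← pow_add]
          congr 1
          omega
        have g6 : (m : ℝ) ^ 2 ≤ lam := by exact_mod_cast hl2
        rw [g5, mul_assoc]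
        refine mul_le_mul_of_nonneg_left ?_ (by positivity)
        rw [hLm]
        have g7 : (0 : ℝ) < (lam : ℝ) ^ 3 := by positivity
        nlinarith [mul_le_mul_of_nonneg_right g6 g7.le]
      have g8 : η2 / 8 * C4 * (m : ℝ) ^ d * ((lam : ℝ) ^ (d + 4) / L ^ 4) =
          64 * Ce / η0 * (L ^ (d - 4) * (lam : ℝ) ^ 4) := by
        rw [mul_assoc _ ((m : ℝ) ^ d), g1, hC4]
        field_simp
        norm_num
      rw [g8, div_le_iff₀ (by positivity)]
      calc Ce * (L ^ (d - 4) * (lam : ℝ) ^ 4 + L ^ (d - 2) * lam)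
          ≤ Ce * (L ^ (d - 4) * (lam : ℝ) ^ 4 + L ^ (d - 4) * (lam : ℝ) ^ 4) := by gcongr
        _ = _ := by
          field_simp
          norm_num
    unfold sampN
    refine (measureReal_union_le _ _).trans ?_
    have e1 := (measureReal_union_le (μ := QQ d p0 (1 / L ^ 4))
      {q : Cfg d × (V d → Bool) | Ch * ((m * lam : ℕ) : ℝ) ^ (d - 6) < cn {x | q.2 x = true ∧
        b1 * ((m * lam : ℕ) : ℝ) ^ 4 ≤ hs (BB d M (m * lam)) q.1 x} (BB d M (m * lam))}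
      {q | ηr * (η2 * b1 * η1 / 256) * ((m * lam : ℕ) : ℝ) ^ (d - 2) <
      ∑ u ∈ (FS (BB d M (m * lam)) q.1 q.2) ∩ WW d (m * lam),
        ∑ w ∈ (FS (BB d M (m * lam)) q.1 q.2).filter (fun w => nm (w - u) ≤ (4 * M + 4) * lam),
          1 / ((r0 : ℝ) + nm (w - u)) ^ (d - 2)})
    have e2 := (measureReal_union_le (μ := QQ d p0 (1 / L ^ 4))
      {q : Cfg d × (V d → Bool) | η2 * b1 * η1 / 256 * ((m * lam : ℕ) : ℝ) ^ (d - 2) <
      (((FS (BB d M (m * lam)) q.1 q.2) ∩ WW d (m * lam)).filter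
        (fun u => ∃ w ∈ FS (BB d M (m * lam)) q.1 q.2, nm (w - u) ≤ 2 * r0 ∧
          ¬ Cn (BB d M (m * lam) : Set (V d)) q.1 u w)).card}
      {q | η2 / 8 * C4 * (m : ℝ) ^ d * ((lam : ℝ) ^ (d + 4) / ((m * lam : ℕ) : ℝ) ^ 4) <
      ∑ j ∈ JJ d m, enr (FS (BB d M (m * lam)) q.1 q.2) (cube lam j)})
    linarith
  have hF := samp_fub (perc d p0) (seedM d (1 / L ^ 4))
    (sampN M m lam r0 b1 η1 η2 ηr C4 Ch) (η0 / 2) (1 / 4) (by norm_num) hQ
  have hsub : {ω : Cfg d | ¬ SampOK M m lam r0 c1 b1 η1 η2 ηr C4 Ch ω} ⊆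
      {ω | 1 / 4 < (seedM d (1 / L ^ 4)).real
        {b | (ω, b) ∈ sampN M m lam r0 b1 η1 η2 ηr C4 Ch}} ∪
      {ω | ∃ j ∈ JJ d m, δ * vol d m lam ^ 2 < ∑ u ∈ cube lam j, ∑ u' ∈ cube lam j,
        if Cn (BB d M (m * lam) : Set (V d)) ω u u' then (1 : ℝ) else 0} := by
    intro ω hω
    by_contra hc
    simp only [Set.mem_union, Set.mem_setOf_eq, not_or, not_lt, not_exists, not_and] at hc
    exact hω (samp_ok hm1 hlam1 (by omega) hb1 (by linarith) hη1 hη2 hηr hC4p ω δ hδ hc.1 hc.2)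
  refine (measureReal_mono hsub (measure_ne_top _ _)).trans ?_
  refine (measureReal_union_le _ _).trans ?_
  have := add_le_add hF (sp lam hl1)
  linarith

end H95LBS
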