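import Pool.Agent.H95.LBS.Fresh
import Pool.Agent.H95.LBS.Samp

/-!
PROJECT DS (MP_0d9ad5_pr), JOB DS-RobU. Union bound over colourings, for fixed seeds (section 6 of note 2700).
PROOF. Fixed `b`. Partition according to `F = FS BB ω b` (subset of `BB`) and `ξ` = `ω` on the edges of `ins BB` with an end in
`F` (finitely many values): the event `E_{F,ξ}` depends on these edges only (`FS` is a union of hubs: `hub_dep`-type argument). On
`E_{F,ξ}`: `A, A'` are hub-closed subsets of `F` whose points have `hs >= b1 L^4`; such an `A` is the union of the hubs of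
the big seeds it contains, so there are at most `2^N` of them, `N <= Ch n` the number of big seeds: at most `4^(Ch n)` pairs, and the set of pairs
(and `hs` on `F`) depends only on `(F,ξ)`. For a pair: on `E_{F,ξ}` `NC` for `un ω η` inside `BB` is the same as for
`un (mer F ξ ω) η` (extend `ξ` by `false`), independent of `E_{F,ξ}` (`indep_pair`), of law `pen (alp p0 F ξ)(s/2)` (`pen_un`);
`alp = p0` on `ins (BB \ F)`, `= 0` on edges from `F` to `BB \ F` (they are closed in `ω`). `fresh` bounds the probability.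
-/

namespace H95LBS

open H5DF H95LBD MeasureTheory

variable {d : ℕ}

/-- The violation event for fixed seeds. -/
def Vio (M m lam r0 : ℕ) (b1 ηr η3 η4 C4 Ch : ℝ) (b : V d → Bool) : Set (Cfg d × Cfg d) :=
  {q | (cn {x | b x = true ∧ b1 * ((m * lam : ℕ) : ℝ) ^ 4 ≤ hs (BB d M (m * lam)) q.1 x}
      (BB d M (m * lam)) : ℝ) ≤ Ch * ((m * lam : ℕ) : ℝ) ^ (d - 6) ∧
    ∃ A A' : Finset (V d), HubCl (BB d M (m * lam)) q.1 A ∧ HubCl (BB d M (m * lam)) q.1 A' ∧
      (∀ x ∈ A, b1 * ((m * lam : ℕ) : ℝ) ^ 4 ≤ hs (BB d M (m * lam)) q.1 x) ∧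
      (∀ x ∈ A', b1 * ((m * lam : ℕ) : ℝ) ^ 4 ≤ hs (BB d M (m * lam)) q.1 x) ∧
      Good M m lam r0 ηr η3 η4 C4 (FS (BB d M (m * lam)) q.1 b) A A' ∧
      un q.1 q.2 ∈ NCn (BB d M (m * lam)) A A'}

open Classical in
/-- The edges of `B` with an end in `F`. -/
noncomputable def RobU_E (B F : Finset (V d)) : Finset (Ed d) :=
  (EB B).filter fun e => e.1 ∈ F ∨ oth e ∈ F

lemma RobU_mem_E {B F : Finset (V d)} {e : Ed d} :
    e ∈ RobU_E B F ↔ e ∈ ins (B : Set (V d)) ∧ e ∉ ins ((F : Set (V d)))ᶜ := by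
  classical
  unfold RobU_E
  rw [Finset.mem_filter, mem_EB]
  constructor
  · rintro ⟨h1, h2 | h2⟩
    · exact ⟨h1, fun h3 => h3.1 (Finset.mem_coe.2 h2)⟩
    · exact ⟨h1, fun h3 => h3.2 (Finset.mem_coe.2 h2)⟩
  · rintro ⟨h1, h2⟩
    refine ⟨h1, ?_⟩
    by_contra h3
    push Not at h3
    exact h2 ⟨fun h4 => h3.1 (Finset.mem_coe.1 h4), fun h4 => h3.2 (Finset.mem_coe.1 h4)⟩

lemma RobU_mem_FS {B : Finset (V d)} {ω : Cfg d} {b : V d → Bool} {y : V d} :
    y ∈ FS B ω b ↔ y ∈ B ∧ ∃ x ∈ B, b x = true ∧ Cn (B : Set (V d)) ω x y := by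
  classical
  unfold FS
  rw [Finset.mem_filter]

lemma RobU_closed {B : Finset (V d)} {ω : Cfg d} {b : V d → Bool} {x y : V d}
    (hx : x ∈ FS B ω b) (h : Cn (B : Set (V d)) ω x y) : y ∈ FS B ω b := by
  rw [RobU_mem_FS] at hx ⊢
  obtain ⟨h1, z, h2, h3, h4⟩ := hx
  exact ⟨Finset.mem_coe.1 (h.mem (Finset.mem_coe.2 h1)), z, h2, h3, h4.trans h⟩

lemma RobU_cut_cut (S : Set (V d)) (ω : Cfg d) : cut S (cut S ω) = cut S ω := by
  funext e
  rw [Bool.eq_iff_iff, cut_true, cut_true]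
  tauto

lemma RobU_hub_cut (S : Set (V d)) (ω : Cfg d) (x : V d) : hub S (cut S ω) x = hub S ω x := by
  ext y
  show y ∈ cluster (cut S (cut S ω)) x ↔ y ∈ cluster (cut S ω) x
  rw [RobU_cut_cut]

lemma RobU_hub {B F : Finset (V d)} {ω ω' : Cfg d} {x : V d}
    (hx : hub (B : Set (V d)) ω x ⊆ (F : Set (V d))) (h : ∀ e ∈ RobU_E B F, ω e = ω' e) :
    hub (B : Set (V d)) ω' x = hub (B : Set (V d)) ω x := by
  have h1 := hub_dep (S := (B : Set (V d))) (D := hub (B : Set (V d)) ω x)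
    (ω := cut (B : Set (V d)) ω) (ω' := cut (B : Set (V d)) ω') (x := x) (by
      intro e he
      by_cases hi : e ∈ ins (B : Set (V d))
      · have h2 : e ∈ RobU_E B F := by
          rw [RobU_mem_E]
          refine ⟨hi, fun h3 => he ⟨fun h4 => h3.1 (hx h4), fun h4 => h3.2 (hx h4)⟩⟩
        rw [Bool.eq_iff_iff, cut_true, cut_true, h e h2]
      · rw [Bool.eq_iff_iff, cut_true, cut_true]
        exact ⟨fun h2 => absurd h2.2 hi, fun h2 => absurd h2.2 hi⟩) (RobU_hub_cut _ _ _)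
  rw [RobU_hub_cut] at h1
  exact h1

lemma RobU_FS {B : Finset (V d)} {ω ω' : Cfg d} {b : V d → Bool}
    (h : ∀ e ∈ RobU_E B (FS B ω b), ω e = ω' e) : FS B ω' b = FS B ω b := by
  have hub_sub' : ∀ x ∈ B, b x = true →
      hub (B : Set (V d)) ω x ⊆ ((FS B ω b : Finset (V d)) : Set (V d)) := by
    intro x hx hb y hy
    rw [Finset.mem_coe, RobU_mem_FS]
    exact ⟨Finset.mem_coe.1 (Cn.mem hy (Finset.mem_coe.2 hx)), x, hx, hb, hy⟩
  have key : ∀ x ∈ B, b x = true → ∀ y, Cn (B : Set (V d)) ω' x y ↔ Cn (B : Set (V d)) ω x y := by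
    intro x hx hb y
    have h1 := RobU_hub (hub_sub' x hx hb) h
    have h2 : y ∈ hub (B : Set (V d)) ω' x ↔ y ∈ hub (B : Set (V d)) ω x := by rw [h1]
    exact h2
  ext y
  rw [RobU_mem_FS, RobU_mem_FS]
  constructor
  · rintro ⟨h1, x, h2, h3, h4⟩
    exact ⟨h1, x, h2, h3, (key x h2 h3 y).1 h4⟩
  · rintro ⟨h1, x, h2, h3, h4⟩
    exact ⟨h1, x, h2, h3, (key x h2 h3 y).2 h4⟩

/-- `FS = F` and the open edges with an end in `F` are those of `O`. -/
def RobU_Ev (B : Finset (V d)) (b : V d → Bool) (F : Finset (V d)) (O : Finset (Ed d)) :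
    Set (Cfg d) :=
  {ω | FS B ω b = F ∧ ∀ e ∈ RobU_E B F, (ω e = true ↔ e ∈ O)}

lemma RobU_Ev_dep {B : Finset (V d)} {b : V d → Bool} {F : Finset (V d)} {O : Finset (Ed d)}
    {ω ω' : Cfg d} (h : ∀ e ∈ RobU_E B F, ω e = ω' e) (hω : ω ∈ RobU_Ev B b F O) :
    ω' ∈ RobU_Ev B b F O := by
  obtain ⟨h1, h2⟩ := hω
  refine ⟨?_, fun e he => ?_⟩
  · rw [← h1] at h
    rw [RobU_FS h, h1]
  · rw [← h e he]
    exact h2 e he

lemma RobU_Ev_agree {B : Finset (V d)} {b : V d → Bool} {F : Finset (V d)} {O : Finset (Ed d)}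
    {ω ω' : Cfg d} (hω : ω ∈ RobU_Ev B b F O) (hω' : ω' ∈ RobU_Ev B b F O) :
    ∀ e ∈ RobU_E B F, ω e = ω' e := by
  intro e he
  rw [Bool.eq_iff_iff, hω.2 e he, hω'.2 e he]

lemma RobU_Ev_hub {B : Finset (V d)} {b : V d → Bool} {F : Finset (V d)} {O : Finset (Ed d)}
    {ω ω' : Cfg d} (hω : ω ∈ RobU_Ev B b F O) (hω' : ω' ∈ RobU_Ev B b F O) {x : V d}
    (hx : x ∈ F) : hub (B : Set (V d)) ω' x = hub (B : Set (V d)) ω x := by
  refine RobU_hub (F := F) ?_ (RobU_Ev_agree hω hω')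
  intro y hy
  rw [← hω.1] at hx
  rw [Finset.mem_coe, ← hω.1]
  exact RobU_closed hx hy

lemma RobU_Ev_meas (B : Finset (V d)) (b : V d → Bool) (F : Finset (V d)) (O : Finset (Ed d)) :
    MeasurableSet (RobU_Ev B b F O) :=
  meas_dep1 (RobU_E B F) _ fun _ _ h hω => RobU_Ev_dep h hω

lemma RobU_NCn {B A A' : Finset (V d)} {ω ω' : Cfg d}
    (h : ∀ e ∈ ins (B : Set (V d)), ω e = ω' e) (hω : ω ∈ NCn B A A') : ω' ∈ NCn B A A' := by
  intro x hx y hy hc
  exact hω x hx y hy (hc.congr fun e he => (h e he).symm)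

/-- One pair of colours. -/
lemma RobU_pair {p0 s X : ℝ} (hp0 : 0 ≤ p0) (hp1 : p0 ≤ 1) (hs0 : 0 ≤ s) (hs1 : s ≤ 1)
    (B A A' F : Finset (V d)) (O : Finset (Ed d)) (b : V d → Bool) (ω0 : Cfg d)
    (hω0 : ω0 ∈ RobU_Ev B b F O)
    (hfr : ∀ α : Ed d → ℝ, In01 α → (∀ e ∈ ins ((B : Set (V d)) \ F), α e = p0) →
      (∀ a ∈ F, ∀ σ : Dir d, a + step σ ∈ B → a + step σ ∉ F → α (edge a σ) = 0) →
      (pen α s).real (NCn B A A') ≤ X) :
    (PP d p0 s).real {q | q.1 ∈ RobU_Ev B b F O ∧ un q.1 q.2 ∈ NCn B A A'} ≤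
      (perc d p0).real (RobU_Ev B b F O) * X := by
  classical
  have hPp := isProb_perc (d := d) p0 hp0 hp1
  have hPs := isProb_perc (d := d) s hs0 hs1
  have hPP := isProb_PP (d := d) hp0 hp1 hs0 hs1
  set ξ : Cfg d := fun e => decide (e ∈ O) with hξ
  set Ev : Set (Cfg d) := RobU_Ev B b F O with hEv
  set Nq : Set (Cfg d × Cfg d) := {q | un (mer F ξ q.1) q.2 ∈ NCn B A A'} with hNq
  have hEm : MeasurableSet Ev := RobU_Ev_meas B b F O
  have hNm : MeasurableSet Nq := by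
    have h := (meas_mer (F : Set (V d)) ξ) (PenHub_meas_NCn B A A')
    exact h
  have hmer : ∀ q : Cfg d × Cfg d, q.1 ∈ Ev → ∀ e ∈ ins (B : Set (V d)),
      un q.1 q.2 e = un (mer F ξ q.1) q.2 e := by
    intro q hq e he
    have h1 : mer F ξ q.1 e = q.1 e := by
      unfold mer
      by_cases hF : e ∈ ins ((F : Set (V d)))ᶜ
      · rw [if_pos hF]
      · rw [if_neg hF]
        have h2 := hq.2 e (RobU_mem_E.2 ⟨he, hF⟩)
        rw [hξ, Bool.eq_iff_iff, decide_eq_true_iff, h2]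
    unfold un
    rw [h1]
  have hset : {q : Cfg d × Cfg d | q.1 ∈ Ev ∧ un q.1 q.2 ∈ NCn B A A'} =
      (Ev ×ˢ Set.univ) ∩ Nq := by
    ext q
    constructor
    · rintro ⟨h1, h2⟩
      exact ⟨⟨h1, Set.mem_univ _⟩, RobU_NCn (hmer q h1) h2⟩
    · rintro ⟨⟨h1, _⟩, h2⟩
      exact ⟨h1, RobU_NCn (fun e he => (hmer q h1 e he).symm) h2⟩
  rw [hset, indep_pair hp0 hp1 hs0 hs1 (ins ((F : Set (V d)))ᶜ)ᶜ ∅ _ Nq
    (hEm.prod MeasurableSet.univ) hNm (by
      rintro q q' h1 _ ⟨h3, _⟩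
      refine ⟨RobU_Ev_dep (fun e he => h1 e ?_) h3, Set.mem_univ _⟩
      exact (RobU_mem_E.1 he).2) (by
      intro q q' h1 h2 h3
      have h4 : un (mer F ξ q.1) q.2 = un (mer F ξ q'.1) q'.2 := by
        funext e
        have h5 : mer F ξ q.1 e = mer F ξ q'.1 e := by
          unfold mer
          by_cases hF : e ∈ ins ((F : Set (V d)))ᶜ
          · rw [if_pos hF, if_pos hF, h1 e (fun h6 => h6 hF)]
          · rw [if_neg hF, if_neg hF]
        unfold un
        rw [h5, h2 e (Set.notMem_empty _)]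
      show un (mer F ξ q'.1) q'.2 ∈ NCn B A A'
      rw [← h4]
      exact h3)]
  have h1 : (PP d p0 s).real (Ev ×ˢ Set.univ) = (perc d p0).real Ev := by
    unfold PP
    rw [measureReal_def, Measure.prod_prod, measure_univ, mul_one]
    rfl
  rw [h1]
  refine mul_le_mul_of_nonneg_left ?_ measureReal_nonneg
  have h2 : (PP d p0 s).real Nq = (pen (alp p0 F ξ) s).real (NCn B A A') := by
    rw [← pen_un hp0 hp1 hs0 hs1, map_measureReal_apply (meas_mer F ξ) (PenHub_meas_NCn B A A')]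
    rfl
  rw [h2]
  refine hfr _ (alp_01 hp0 hp1 F ξ) ?_ ?_
  · intro e he
    have h3 : e ∈ ins ((F : Set (V d)))ᶜ := ⟨he.1.2, he.2.2⟩
    unfold alp
    rw [if_pos h3]
  · intro a ha σ h3 h4
    have h5 : edge a σ ∉ ins ((F : Set (V d)))ᶜ := by
      rw [edge_mem_ins]
      exact fun h6 => h6.1 (Finset.mem_coe.2 ha)
    have haB : a ∈ B := by
      rw [← hω0.1, RobU_mem_FS] at ha
      exact ha.1
    have h6 : edge a σ ∈ ins (B : Set (V d)) := by
      rw [edge_mem_ins]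
      exact ⟨Finset.mem_coe.2 haB, Finset.mem_coe.2 h3⟩
    have h7 : edge a σ ∉ O := by
      intro h8
      have h9 : ω0 (edge a σ) = true := (hω0.2 _ (RobU_mem_E.2 ⟨h6, h5⟩)).2 h8
      apply h4
      rw [← hω0.1] at ha ⊢
      exact RobU_closed ha (Cn.one h9 (Finset.mem_coe.2 haB) (Finset.mem_coe.2 h3))
    unfold alp
    rw [if_neg h5, hξ]
    simp [h7]

/-- The admissible colours. -/
def RobU_adm (B : Finset (V d)) (T : ℝ) (b : V d → Bool) (ω : Cfg d) (A : Finset (V d)) : Prop :=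
  A ⊆ FS B ω b ∧ HubCl B ω (A : Set (V d)) ∧ ∀ x ∈ A, T ≤ hs B ω x

lemma RobU_adm_dep {B : Finset (V d)} {b : V d → Bool} {F : Finset (V d)} {O : Finset (Ed d)}
    {T : ℝ} {ω ω' : Cfg d} (hω : ω ∈ RobU_Ev B b F O) (hω' : ω' ∈ RobU_Ev B b F O)
    {A : Finset (V d)} (h : RobU_adm B T b ω A) : RobU_adm B T b ω' A := by
  obtain ⟨h1, h2, h3⟩ := h
  have hF : ∀ x ∈ A, x ∈ F := fun x hx => by
    rw [← hω.1]
    exact h1 hx
  refine ⟨?_, ⟨h2.1, ?_⟩, ?_⟩
  · rw [hω'.1, ← hω.1]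
    exact h1
  · intro x hx y hy
    have h4 := RobU_Ev_hub hω hω' (hF x (Finset.mem_coe.1 hx))
    have h5 : y ∈ hub (B : Set (V d)) ω x := by
      rw [← h4]
      exact hy
    exact h2.2 x hx y h5
  · intro x hx
    have h4 := RobU_Ev_hub hω hω' (hF x hx)
    unfold hs
    rw [h4]
    exact h3 x hx

open Classical in
/-- Number of admissible colours. -/
lemma RobU_count (B : Finset (V d)) (T : ℝ) (b : V d → Bool) (ω : Cfg d)
    (P : Finset (Finset (V d))) (hP : ∀ A ∈ P, RobU_adm B T b ω A) :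
    P.card ≤ 2 ^ cn {x | b x = true ∧ T ≤ hs B ω x} B := by
  set Big : Finset (V d) := B.filter (fun x => x ∈ {x | b x = true ∧ T ≤ hs B ω x}) with hBig
  have h1 : cn {x | b x = true ∧ T ≤ hs B ω x} B = Big.card := by
    unfold cn
    rw [hBig]
    congr
  rw [h1, ← Finset.card_powerset]
  have key : ∀ A ∈ P, ∀ A' ∈ P, A ∩ Big = A' ∩ Big → A ⊆ A' := by
    intro A hA A' hA' h a ha
    obtain ⟨h2, h3, h4⟩ := hP A hA
    obtain ⟨h2', h3', h4'⟩ := hP A' hA'
    obtain ⟨haB, x, hxB, hbx, hc⟩ := RobU_mem_FS.1 (h2 ha)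
    have hxA : x ∈ A := Finset.mem_coe.1 (h3.2 a (Finset.mem_coe.2 ha) x hc.symm)
    have hxBig : x ∈ Big := by
      rw [hBig, Finset.mem_filter]
      exact ⟨hxB, hbx, h4 x hxA⟩
    have h5 : x ∈ A' ∩ Big := by
      rw [← h]
      exact Finset.mem_inter.2 ⟨hxA, hxBig⟩
    exact Finset.mem_coe.1 (h3'.2 x (Finset.mem_coe.2 (Finset.mem_inter.1 h5).1) a hc)
  refine Finset.card_le_card_of_injOn (fun A => A ∩ Big) ?_ ?_
  · intro A _
    exact Finset.mem_coe.2 (Finset.mem_powerset.2 Finset.inter_subset_right)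
  · intro A hA A' hA' h
    exact Finset.Subset.antisymm (key A (Finset.mem_coe.1 hA) A' (Finset.mem_coe.1 hA') h)
      (key A' (Finset.mem_coe.1 hA') A (Finset.mem_coe.1 hA) h.symm)

lemma RobU_exp (N : ℕ) (z : ℝ) (h : (N : ℝ) ≤ z) :
    ((2 : ℝ) ^ N) * 2 ^ N ≤ Real.exp (2 * z) := by
  have h2 : (2 : ℝ) ≤ Real.exp 1 := by
    have := Real.add_one_le_exp (1 : ℝ)
    linarith
  have h3 : (2 : ℝ) ^ N ≤ Real.exp z := by
    calc (2 : ℝ) ^ N ≤ (Real.exp 1) ^ N := pow_le_pow_left₀ (by norm_num) h2 N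
      _ = Real.exp N := by rw [← Real.exp_nat_mul, mul_one]
      _ ≤ Real.exp z := Real.exp_le_exp.2 h
  calc ((2 : ℝ) ^ N) * 2 ^ N ≤ Real.exp z * Real.exp z :=
        mul_le_mul h3 h3 (by positivity) (Real.exp_pos _).le
    _ = Real.exp (2 * z) := by
        rw [← Real.exp_add]
        congr 1
        ring

theorem rob_union {p0 A cM : ℝ} {M : ℕ} (H : Crit d p0 A cM M) (m lam r0 : ℕ)
    (b1 ηr η3 η4 C4 Ch s X : ℝ) (hs0 : 0 ≤ s) (hs1 : s ≤ 1) (hX : 0 ≤ X)
    (hfr : ∀ (F A A' : Finset (V d)) (α : Ed d → ℝ), Good M m lam r0 ηr η3 η4 C4 F A A' → In01 α →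
      (∀ e ∈ ins ((BB d M (m * lam) : Set (V d)) \ F), α e = p0) →
      (∀ a ∈ F, ∀ σ : Dir d, a + step σ ∈ BB d M (m * lam) → a + step σ ∉ F →
        α (edge a σ) = 0) → (pen α s).real (NCn (BB d M (m * lam)) A A') ≤ X)
    (b : V d → Bool) :
    (PP d p0 s).real (Vio M m lam r0 b1 ηr η3 η4 C4 Ch b) ≤
      Real.exp (2 * Ch * ((m * lam : ℕ) : ℝ) ^ (d - 6)) * X := by
  classical
  have hp0 := H.hp0.le
  have hp1 := H.hp1.le
  have hPp := isProb_perc (d := d) p0 hp0 hp1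
  have hPs := isProb_perc (d := d) s hs0 hs1
  have hPP := isProb_PP (d := d) hp0 hp1 hs0 hs1
  set B : Finset (V d) := BB d M (m * lam) with hB
  set T : ℝ := b1 * ((m * lam : ℕ) : ℝ) ^ 4 with hT
  set Y : ℝ := Real.exp (2 * Ch * ((m * lam : ℕ) : ℝ) ^ (d - 6)) with hY
  set W : Set (Cfg d × Cfg d) := Vio M m lam r0 b1 ηr η3 η4 C4 Ch b with hW
  set I : Finset (Finset (V d) × Finset (Ed d)) :=
    (B.powerset ×ˢ (EB B).powerset).filter (fun i => i.2 ⊆ RobU_E B i.1) with hI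
  -- one class
  have hone : ∀ i : Finset (V d) × Finset (Ed d),
      (PP d p0 s).real {q | q ∈ W ∧ q.1 ∈ RobU_Ev B b i.1 i.2} ≤
        (perc d p0).real (RobU_Ev B b i.1 i.2) * (Y * X) := by
    rintro ⟨F, O⟩
    by_cases hne : ∃ q, q ∈ W ∧ q.1 ∈ RobU_Ev B b F O
    · obtain ⟨q0, hq0, hq0E⟩ := hne
      set P1 : Finset (Finset (V d)) :=
        (B.powerset).filter (fun A => RobU_adm B T b q0.1 A) with hP1
      set P : Finset (Finset (V d) × Finset (V d)) :=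
        (P1 ×ˢ P1).filter (fun AA => Good M m lam r0 ηr η3 η4 C4 F AA.1 AA.2) with hP
      have hc1 : (P1.card : ℝ) ≤ 2 ^ cn {x | b x = true ∧ T ≤ hs B q0.1 x} B := by
        have := RobU_count B T b q0.1 P1 (fun A hA => (Finset.mem_filter.1 hA).2)
        exact_mod_cast this
      have hcP : (P.card : ℝ) ≤ Y := by
        calc (P.card : ℝ) ≤ ((P1 ×ˢ P1).card : ℝ) := by
              exact_mod_cast Finset.card_filter_le _ _
          _ = (P1.card : ℝ) * P1.card := by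
              rw [Finset.card_product]
              push_cast
              ring
          _ ≤ (2 ^ cn {x | b x = true ∧ T ≤ hs B q0.1 x} B) *
                2 ^ cn {x | b x = true ∧ T ≤ hs B q0.1 x} B :=
              mul_le_mul hc1 hc1 (Nat.cast_nonneg _) (by positivity)
          _ ≤ Real.exp (2 * (Ch * ((m * lam : ℕ) : ℝ) ^ (d - 6))) := RobU_exp _ _ hq0.1
          _ = Y := by
              rw [hY, mul_assoc]
      have hsub : {q : Cfg d × Cfg d | q ∈ W ∧ q.1 ∈ RobU_Ev B b F O} ⊆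
          ⋃ AA ∈ P, {q | q.1 ∈ RobU_Ev B b F O ∧ un q.1 q.2 ∈ NCn B AA.1 AA.2} := by
        rintro q ⟨hq, hqE⟩
        obtain ⟨-, A1, A2, g1, g2, g3, g4, g5, g6⟩ := hq
        have hF : FS B q.1 b = F := hqE.1
        rw [hF] at g5
        have a1 : RobU_adm B T b q.1 A1 := ⟨by rw [hF]; exact g5.2.1, g1, g3⟩
        have a2 : RobU_adm B T b q.1 A2 := ⟨by rw [hF]; exact g5.2.2.1, g2, g4⟩
        have hFB : F ⊆ B := g5.1
        rw [Set.mem_iUnion₂]
        refine ⟨(A1, A2), ?_, hqE, g6⟩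
        rw [hP, Finset.mem_filter, Finset.mem_product, hP1, Finset.mem_filter, Finset.mem_filter,
          Finset.mem_powerset, Finset.mem_powerset]
        exact ⟨⟨⟨g5.2.1.trans hFB, RobU_adm_dep hqE hq0E a1⟩,
          ⟨g5.2.2.1.trans hFB, RobU_adm_dep hqE hq0E a2⟩⟩, g5⟩
      calc (PP d p0 s).real {q | q ∈ W ∧ q.1 ∈ RobU_Ev B b F O}
          ≤ (PP d p0 s).real (⋃ AA ∈ P, {q | q.1 ∈ RobU_Ev B b F O ∧
              un q.1 q.2 ∈ NCn B AA.1 AA.2}) := measureReal_mono hsub (measure_ne_top _ _)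
        _ ≤ ∑ AA ∈ P, (PP d p0 s).real {q | q.1 ∈ RobU_Ev B b F O ∧
              un q.1 q.2 ∈ NCn B AA.1 AA.2} := measureReal_biUnion_finset_le _ _
        _ ≤ ∑ _AA ∈ P, (perc d p0).real (RobU_Ev B b F O) * X := by
            refine Finset.sum_le_sum fun AA hAA => ?_
            rw [hP, Finset.mem_filter] at hAA
            exact RobU_pair hp0 hp1 hs0 hs1 B AA.1 AA.2 F O b q0.1 hq0E
              (fun α h1 h2 h3 => hfr F AA.1 AA.2 α hAA.2 h1 h2 h3)
        _ = (P.card : ℝ) * ((perc d p0).real (RobU_Ev B b F O) * X) := by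
            rw [Finset.sum_const, nsmul_eq_mul]
        _ ≤ Y * ((perc d p0).real (RobU_Ev B b F O) * X) :=
            mul_le_mul_of_nonneg_right hcP (mul_nonneg measureReal_nonneg hX)
        _ = _ := by ring
    · have hemp : {q : Cfg d × Cfg d | q ∈ W ∧ q.1 ∈ RobU_Ev B b F O} = ∅ := by
        rw [Set.eq_empty_iff_forall_notMem]
        intro q hq
        exact hne ⟨q, hq⟩
      show (PP d p0 s).real {q | q ∈ W ∧ q.1 ∈ RobU_Ev B b F O} ≤ _
      rw [hemp, measureReal_empty]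
      exact mul_nonneg measureReal_nonneg (mul_nonneg (Real.exp_pos _).le hX)
  -- the classes cover
  have hcov : W ⊆ ⋃ i ∈ I, {q | q ∈ W ∧ q.1 ∈ RobU_Ev B b i.1 i.2} := by
    intro q hq
    rw [Set.mem_iUnion₂]
    refine ⟨(FS B q.1 b, (RobU_E B (FS B q.1 b)).filter (fun e => q.1 e = true)), ?_, hq, rfl, ?_⟩
    · rw [hI, Finset.mem_filter, Finset.mem_product, Finset.mem_powerset, Finset.mem_powerset]
      refine ⟨⟨?_, ?_⟩, Finset.filter_subset _ _⟩
      · intro y hy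
        exact (RobU_mem_FS.1 hy).1
      · intro e he
        rw [mem_EB]
        exact (RobU_mem_E.1 (Finset.mem_filter.1 he).1).1
    · intro e he
      rw [Finset.mem_filter]
      exact ⟨fun h => ⟨he, h⟩, fun h => h.2⟩
  have hdisj : ∑ i ∈ I, (perc d p0).real (RobU_Ev B b i.1 i.2) ≤ 1 := by
    have hpd : Set.PairwiseDisjoint (I : Set (Finset (V d) × Finset (Ed d)))
        (fun i => RobU_Ev B b i.1 i.2) := by
      intro i hi j hj hij
      show Disjoint (RobU_Ev B b i.1 i.2) (RobU_Ev B b j.1 j.2)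
      rw [Set.disjoint_left]
      intro ω h1 h2
      apply hij
      have hF : i.1 = j.1 := by rw [← h1.1, ← h2.1]
      refine Prod.ext hF ?_
      have hi2 := (Finset.mem_filter.1 (Finset.mem_coe.1 hi)).2
      have hj2 := (Finset.mem_filter.1 (Finset.mem_coe.1 hj)).2
      ext e
      constructor
      · intro he
        have h3 : e ∈ RobU_E B i.1 := hi2 he
        have h4 : ω e = true := (h1.2 e h3).2 he
        rw [hF] at h3
        exact (h2.2 e h3).1 h4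
      · intro he
        have h3 : e ∈ RobU_E B j.1 := hj2 he
        have h4 : ω e = true := (h2.2 e h3).2 he
        rw [← hF] at h3
        exact (h1.2 e h3).1 h4
    rw [← measureReal_biUnion_finset hpd (fun i _ => RobU_Ev_meas B b i.1 i.2)]
    exact measureReal_le_one
  calc (PP d p0 s).real W
      ≤ (PP d p0 s).real (⋃ i ∈ I, {q | q ∈ W ∧ q.1 ∈ RobU_Ev B b i.1 i.2}) :=
        measureReal_mono hcov (measure_ne_top _ _)
    _ ≤ ∑ i ∈ I, (PP d p0 s).real {q | q ∈ W ∧ q.1 ∈ RobU_Ev B b i.1 i.2} :=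
        measureReal_biUnion_finset_le _ _
    _ ≤ ∑ i ∈ I, (perc d p0).real (RobU_Ev B b i.1 i.2) * (Y * X) :=
        Finset.sum_le_sum fun i _ => hone i
    _ = (∑ i ∈ I, (perc d p0).real (RobU_Ev B b i.1 i.2)) * (Y * X) := by
        rw [Finset.sum_mul]
    _ ≤ 1 * (Y * X) :=
        mul_le_mul_of_nonneg_right hdisj (mul_nonneg (Real.exp_pos _).le hX)
    _ = Y * X := one_mul _

end H95LBS
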