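import Pool.Agent.H95.LBS.SeedL
import Pool.Agent.H95.LBS.StatM

/-!
PROJECT DS (MP_0d9ad5_pr), JOB DS-SeedB. Sampled hubs: Markov bounds (section 4 of note 2700).
PROOF. Markov for finite sums of nonnegative weights times indicators; `sd_same`, `sd_diff`, `vol3`.
`sb_col`: `card BB <= C L^d`, `ρ = 1/L^4`, `P(hs >= b1 L^4) <= C/(sqrt b1 L^2)`. `sb_psi`: same hub
`∑_h 1/(1+nm h)^(d-4) 1/(r0+nm h)^(d-2) <= C/r0^(d-6)` (`sk7`), different hubs `∑_{nm h <= N1} 1/(r0 + nm h)^(d-2) <= C (1+N1)^2`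
(`sum_ball`), `card WW = (3L)^d`. `sb_near`: `sd_diff`. `sb_enr`: `∑_h 1/(1+nm h)^(2(d-4)) <= C(1+lam)` (`sk6`) and
`∑_h 1/(1+nm h)^(d-4) <= C (1+lam)^4` (`sk5`), `nm h <= lam` for two points of a cube, `(3m)^d` cubes of volume `lam^d`.
-/

namespace H95LBS

open H5DF H95LBD MeasureTheory

variable {d : ℕ}

open Classical in
/-- Indicator of a proposition. -/
noncomputable def SeedB_ind (p : Prop) : ℝ := if p then 1 else 0

lemma SeedB_ind_pos {p : Prop} (h : p) : SeedB_ind p = 1 := by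
  unfold SeedB_ind
  rw [if_pos h]

lemma SeedB_ind_neg {p : Prop} (h : ¬ p) : SeedB_ind p = 0 := by
  unfold SeedB_ind
  rw [if_neg h]

lemma SeedB_ind_nonneg (p : Prop) : 0 ≤ SeedB_ind p := by
  by_cases h : p
  · rw [SeedB_ind_pos h]
    exact zero_le_one
  · rw [SeedB_ind_neg h]

/-- Markov for weighted sums of indicators, without measurability. -/
lemma SeedB_markov {Ω ι : Type*} [MeasurableSpace Ω] (μ : Measure Ω) [IsProbabilityMeasure μ]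
    (T : Finset ι) (P : ι → Ω → Prop) (a : ι → ℝ) (ha : ∀ i ∈ T, 0 ≤ a i) (ξ E : ℝ) (hξ : 0 < ξ)
    (h : ∑ i ∈ T, a i * μ.real {ω | P i ω} ≤ E) (g : Ω → ℝ)
    (hg : ∀ ω, g ω ≤ ∑ i ∈ T, a i * SeedB_ind (P i ω)) :
    μ.real {ω | ξ < g ω} ≤ E / ξ := by
  set F : ι → Set Ω := fun x => toMeasurable μ {ω | P x ω} with hF
  have hFm : ∀ x, MeasurableSet (F x) := fun x => measurableSet_toMeasurable _ _
  have hFr : ∀ x, μ.real (F x) = μ.real {ω | P x ω} := fun x => by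
    simp only [Measure.real, hF, measure_toMeasurable]
  set f : Ω → ℝ := fun ω => ∑ x ∈ T, a x * (F x).indicator (fun _ => (1 : ℝ)) ω with hf
  have hint : ∀ x ∈ T, Integrable (fun ω => a x * (F x).indicator (fun _ => (1 : ℝ)) ω) μ :=
    fun x _ => ((integrable_const (1 : ℝ)).indicator (hFm x)).const_mul _
  have hfi : Integrable f μ := integrable_finset_sum _ hint
  have hf0 : 0 ≤ᵐ[μ] f := Filter.Eventually.of_forall fun ω =>
    Finset.sum_nonneg fun x hx =>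
      mul_nonneg (ha x hx) (Set.indicator_nonneg (fun _ _ => zero_le_one) _)
  have hfint : ∫ ω, f ω ∂μ = ∑ x ∈ T, a x * μ.real {ω | P x ω} := by
    rw [hf, integral_finset_sum _ hint]
    refine Finset.sum_congr rfl fun x _ => ?_
    rw [integral_const_mul, integral_indicator_const _ (hFm x), hFr]
    simp
  have h1 := mul_meas_ge_le_integral_of_nonneg hf0 hfi ξ
  have h2 : μ.real {ω | ξ < g ω} ≤ μ.real {ω | ξ ≤ f ω} := by
    refine measureReal_mono ?_ (measure_ne_top _ _)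
    intro ω hω
    have h3 : g ω ≤ f ω := by
      refine (hg ω).trans (Finset.sum_le_sum fun x hx => ?_)
      refine mul_le_mul_of_nonneg_left ?_ (ha x hx)
      by_cases hP : P x ω
      · have : ω ∈ F x := subset_toMeasurable _ _ hP
        rw [Set.indicator_of_mem this, SeedB_ind_pos hP]
      · rw [SeedB_ind_neg hP]
        exact Set.indicator_nonneg (fun _ _ => zero_le_one) _
    have h4 : ξ < g ω := hω
    exact le_of_lt (lt_of_lt_of_le h4 h3)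
  have h5 : ξ * μ.real {ω | ξ ≤ f ω} ≤ E := by
    rw [hfint] at h1
    exact h1.trans h
  rw [le_div_iff₀ hξ]
  nlinarith

theorem sb_col {p0 A cM : ℝ} {M : ℕ} (H : Crit d p0 A cM M) : ∃ C : ℝ, 0 < C ∧
    ∀ (L : ℕ) (b1 ξ : ℝ), 1 ≤ L → 0 < b1 → 1 ≤ b1 * (L : ℝ) ^ 4 → 0 < ξ →
      (QQ d p0 (1 / (L : ℝ) ^ 4)).real {q | ξ < cn {x | q.2 x = true ∧
        b1 * (L : ℝ) ^ 4 ≤ hs (BB d M L) q.1 x} (BB d M L)} ≤
        C * (L : ℝ) ^ (d - 6) / (Real.sqrt b1 * ξ) := by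
  classical
  obtain ⟨C3, hC3, hv⟩ := vol3 H
  have hd := H.hd
  refine ⟨(3 * (10 * M + 3)) ^ d * C3, by positivity, fun L b1 ξ hL hb hbL hξ => ?_⟩
  obtain ⟨r0, r1⟩ := SeedL_rho hL
  have hQ := SeedL_probQ (d := d) H.hp0.le H.hp1.le r0 r1
  have hL0 : (0 : ℝ) < L := by exact_mod_cast hL
  have hsb : 0 < Real.sqrt b1 := Real.sqrt_pos.2 hb
  have hsq : Real.sqrt (b1 * (L : ℝ) ^ 4) = Real.sqrt b1 * (L : ℝ) ^ 2 := by
    rw [Real.sqrt_mul hb.le]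
    congr 1
    rw [show (L : ℝ) ^ 4 = ((L : ℝ) ^ 2) ^ 2 by ring]
    exact Real.sqrt_sq (by positivity)
  have hE : ∑ x ∈ BB d M L, (1 : ℝ) * (QQ d p0 (1 / (L : ℝ) ^ 4)).real
      {q | q.2 x = true ∧ b1 * (L : ℝ) ^ 4 ≤ hs (BB d M L) q.1 x} ≤
      (3 * (10 * M + 3)) ^ d * C3 * (L : ℝ) ^ (d - 6) / Real.sqrt b1 := by
    calc ∑ x ∈ BB d M L, (1 : ℝ) * (QQ d p0 (1 / (L : ℝ) ^ 4)).real
          {q | q.2 x = true ∧ b1 * (L : ℝ) ^ 4 ≤ hs (BB d M L) q.1 x}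
        ≤ ∑ x ∈ BB d M L, C3 / (Real.sqrt b1 * (L : ℝ) ^ 2) * (1 / (L : ℝ) ^ 4) := by
          refine Finset.sum_le_sum fun x _ => ?_
          rw [one_mul]
          have hset : {q : Cfg d × (V d → Bool) | q.2 x = true ∧
              b1 * (L : ℝ) ^ 4 ≤ hs (BB d M L) q.1 x} =
              {q | q.1 ∈ {ω : Cfg d | b1 * (L : ℝ) ^ 4 ≤
                (cn (hub (BB d M L : Set (V d)) ω x) (BB d M L) : ℝ)} ∧
                ∀ z ∈ ({x} : Finset (V d)), q.2 z = true} := by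
            ext q
            simp only [Set.mem_setOf_eq, Finset.mem_singleton, forall_eq, hs]
            exact and_comm
          rw [hset, SeedL_prod H.hp0.le H.hp1.le r0 r1, Finset.card_singleton, pow_one]
          refine mul_le_mul_of_nonneg_right ?_ r0
          rw [← hsq]
          exact hv _ _ _ _ hbL
      _ = ((BB d M L).card : ℝ) * (C3 / (Real.sqrt b1 * (L : ℝ) ^ 2) * (1 / (L : ℝ) ^ 4)) := by
          rw [Finset.sum_const, nsmul_eq_mul]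
      _ ≤ ((3 * (10 * M + 3)) ^ d * (L : ℝ) ^ d) *
          (C3 / (Real.sqrt b1 * (L : ℝ) ^ 2) * (1 / (L : ℝ) ^ 4)) := by
          refine mul_le_mul_of_nonneg_right (statM_card_BB M L hL) ?_
          positivity
      _ = (3 * (10 * M + 3)) ^ d * C3 * (L : ℝ) ^ (d - 6) / Real.sqrt b1 := by
          have h1 : (L : ℝ) ^ d = (L : ℝ) ^ (d - 6) * (L : ℝ) ^ 6 := by
            rw [← pow_add]
            congr 1
            omega
          rw [h1]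
          field_simp
  have h2 := SeedB_markov (QQ d p0 (1 / (L : ℝ) ^ 4)) (BB d M L)
    (fun x q => q.2 x = true ∧ b1 * (L : ℝ) ^ 4 ≤ hs (BB d M L) q.1 x) (fun _ => 1)
    (fun _ _ => zero_le_one) ξ _ hξ hE
    (fun q => (cn {x | q.2 x = true ∧ b1 * (L : ℝ) ^ 4 ≤ hs (BB d M L) q.1 x} (BB d M L) : ℝ))
    (fun q => by
      unfold cn
      rw [Finset.card_filter]
      push_cast
      refine le_of_eq (Finset.sum_congr rfl fun x _ => ?_)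
      rw [one_mul]
      by_cases hx : q.2 x = true ∧ b1 * (L : ℝ) ^ 4 ≤ hs (BB d M L) q.1 x
      · rw [SeedB_ind_pos hx, if_pos (by exact hx)]
      · rw [SeedB_ind_neg hx, if_neg (by exact hx)])
  refine h2.trans (le_of_eq ?_)
  rw [div_div]

/-- Two points in the sampled hubs. -/
lemma SeedB_pair {p0 A cM : ℝ} {M : ℕ} (H : Crit d p0 A cM M) : ∃ C : ℝ, 0 < C ∧
    ∀ (L : ℕ) (u h : V d), 1 ≤ L → (QQ d p0 (1 / (L : ℝ) ^ 4)).real
      {q | u ∈ FS (BB d M L) q.1 q.2 ∧ u + h ∈ FS (BB d M L) q.1 q.2} ≤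
        C / (L : ℝ) ^ 2 / (1 + (nm h : ℝ)) ^ (d - 4) + C / (L : ℝ) ^ 4 := by
  classical
  obtain ⟨C1, hC1, h1⟩ := sd_same H
  obtain ⟨C2, hC2, h2⟩ := sd_diff H
  refine ⟨C1 + C2, by positivity, fun L u h hL => ?_⟩
  obtain ⟨r0, r1⟩ := SeedL_rho hL
  have hQ := SeedL_probQ (d := d) H.hp0.le H.hp1.le r0 r1
  have hL0 : (0 : ℝ) < L := by exact_mod_cast hL
  have hn : nm (u - (u + h)) = nm h := by
    rw [sub_add_cancel_left, nm_neg]
  have e1 := h1 L u (u + h) hL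
  have e2 := h2 L u (u + h) hL
  rw [hn] at e1
  have hsub : {q : Cfg d × (V d → Bool) | u ∈ FS (BB d M L) q.1 q.2 ∧
      u + h ∈ FS (BB d M L) q.1 q.2} ⊆
      {q | u ∈ FS (BB d M L) q.1 q.2 ∧ Cn (BB d M L : Set (V d)) q.1 u (u + h)} ∪
      {q | u ∈ FS (BB d M L) q.1 q.2 ∧ u + h ∈ FS (BB d M L) q.1 q.2 ∧
        ¬ Cn (BB d M L : Set (V d)) q.1 u (u + h)} := by
    rintro q ⟨hq1, hq2⟩
    by_cases hc : Cn (BB d M L : Set (V d)) q.1 u (u + h)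
    · exact Or.inl ⟨hq1, hc⟩
    · exact Or.inr ⟨hq1, hq2, hc⟩
  refine (measureReal_mono hsub (measure_ne_top _ _)).trans
    ((measureReal_union_le _ _).trans (add_le_add (e1.trans ?_) (e2.trans ?_)))
  · gcongr
    linarith
  · gcongr
    linarith

open Classical in
/-- Change of variables in the inner sum. -/
lemma SeedB_inner (F : Finset (V d)) (n : ℕ) (a : V d → ℝ) (ha : ∀ h, 0 ≤ a h) (u : V d)
    (T : Finset (V d)) (hT : ∀ w ∈ T, w ∈ F ∧ nm (w - u) ≤ n) :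
    ∑ w ∈ T, a (w - u) ≤ ∑ h ∈ Box d n, a h * SeedB_ind (u + h ∈ F) := by
  have h1 : ∑ w ∈ T, a (w - u) = ∑ h ∈ T.image (fun w => w - u), a h := by
    rw [Finset.sum_image]
    intro x _ y _ hxy
    exact sub_left_injective hxy
  rw [h1]
  have h2 : ∑ h ∈ T.image (fun w => w - u), a h =
      ∑ h ∈ T.image (fun w => w - u), a h * SeedB_ind (u + h ∈ F) := by
    refine Finset.sum_congr rfl fun h hh => ?_
    obtain ⟨w, hw, rfl⟩ := Finset.mem_image.1 hh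
    rw [add_sub_cancel, SeedB_ind_pos (hT w hw).1, mul_one]
  rw [h2]
  refine Finset.sum_le_sum_of_subset_of_nonneg ?_ fun h _ _ => ?_
  · intro h hh
    obtain ⟨w, hw, rfl⟩ := Finset.mem_image.1 hh
    exact mem_Box'.2 (hT w hw).2
  · exact mul_nonneg (ha h) (SeedB_ind_nonneg _)

open Classical in
/-- The double sum over pairs, pointwise. -/
lemma SeedB_double (F : Finset (V d)) (n : ℕ) (a : V d → ℝ) (ha : ∀ h, 0 ≤ a h)
    (W : Finset (V d)) (T : V d → Finset (V d))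
    (hT : ∀ u, ∀ w ∈ T u, w ∈ F ∧ nm (w - u) ≤ n) :
    ∑ u ∈ F ∩ W, ∑ w ∈ T u, a (w - u) ≤
      ∑ i ∈ W ×ˢ Box d n, a i.2 * SeedB_ind (i.1 ∈ F ∧ i.1 + i.2 ∈ F) := by
  rw [Finset.sum_product, Finset.inter_comm, ← Finset.filter_mem_eq_inter, Finset.sum_filter]
  refine Finset.sum_le_sum fun u _ => ?_
  by_cases hu : u ∈ F
  · rw [if_pos hu]
    refine (SeedB_inner F n a ha u (T u) (hT u)).trans (le_of_eq ?_)
    refine Finset.sum_congr rfl fun h _ => ?_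
    simp only [hu, true_and]
  · rw [if_neg hu]
    exact Finset.sum_nonneg fun h _ => mul_nonneg (ha h) (SeedB_ind_nonneg _)

open Classical in
/-- The expected weighted number of pairs. -/
lemma SeedB_exp {p0 A cM : ℝ} {M : ℕ} (C : ℝ) (L : ℕ)
    (hp : ∀ u h : V d, (QQ d p0 (1 / (L : ℝ) ^ 4)).real
      {q | u ∈ FS (BB d M L) q.1 q.2 ∧ u + h ∈ FS (BB d M L) q.1 q.2} ≤
        C / (L : ℝ) ^ 2 / (1 + (nm h : ℝ)) ^ (d - 4) + C / (L : ℝ) ^ 4)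
    (a : V d → ℝ) (ha : ∀ h, 0 ≤ a h) (W : Finset (V d)) (n : ℕ) (S1 S2 : ℝ) (hC : 0 ≤ C)
    (h1 : ∑ h ∈ Box d n, 1 / (1 + (nm h : ℝ)) ^ (d - 4) * a h ≤ S1) (h2 : ∑ h ∈ Box d n, a h ≤ S2) :
    ∑ i ∈ W ×ˢ Box d n, a i.2 * (QQ d p0 (1 / (L : ℝ) ^ 4)).real
      {q | i.1 ∈ FS (BB d M L) q.1 q.2 ∧ i.1 + i.2 ∈ FS (BB d M L) q.1 q.2} ≤
      (W.card : ℝ) * (C / (L : ℝ) ^ 2 * S1 + C / (L : ℝ) ^ 4 * S2) := by
  rw [Finset.sum_product]
  calc ∑ u ∈ W, ∑ h ∈ Box d n, a h * (QQ d p0 (1 / (L : ℝ) ^ 4)).real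
        {q | u ∈ FS (BB d M L) q.1 q.2 ∧ u + h ∈ FS (BB d M L) q.1 q.2}
      ≤ ∑ u ∈ W, (C / (L : ℝ) ^ 2 * S1 + C / (L : ℝ) ^ 4 * S2) := by
        refine Finset.sum_le_sum fun u _ => ?_
        calc ∑ h ∈ Box d n, a h * (QQ d p0 (1 / (L : ℝ) ^ 4)).real
              {q | u ∈ FS (BB d M L) q.1 q.2 ∧ u + h ∈ FS (BB d M L) q.1 q.2}
            ≤ ∑ h ∈ Box d n, (C / (L : ℝ) ^ 2 * (1 / (1 + (nm h : ℝ)) ^ (d - 4) * a h) +
                C / (L : ℝ) ^ 4 * a h) := by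
              refine Finset.sum_le_sum fun h _ => ?_
              refine (mul_le_mul_of_nonneg_left (hp u h) (ha h)).trans (le_of_eq ?_)
              ring
          _ = C / (L : ℝ) ^ 2 * ∑ h ∈ Box d n, 1 / (1 + (nm h : ℝ)) ^ (d - 4) * a h +
                C / (L : ℝ) ^ 4 * ∑ h ∈ Box d n, a h := by
              rw [Finset.sum_add_distrib, Finset.mul_sum, Finset.mul_sum]
          _ ≤ C / (L : ℝ) ^ 2 * S1 + C / (L : ℝ) ^ 4 * S2 := by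
              have e1 : 0 ≤ C / (L : ℝ) ^ 2 := by positivity
              have e2 : 0 ≤ C / (L : ℝ) ^ 4 := by positivity
              gcongr
    _ = (W.card : ℝ) * (C / (L : ℝ) ^ 2 * S1 + C / (L : ℝ) ^ 4 * S2) := by
        rw [Finset.sum_const, nsmul_eq_mul]

open Classical in
theorem sb_psi {p0 A cM : ℝ} {M : ℕ} (H : Crit d p0 A cM M) : ∃ C : ℝ, 0 < C ∧
    ∀ (L r0 N1 : ℕ) (ξ : ℝ), 1 ≤ L → 1 ≤ r0 → 1 ≤ N1 → 0 < ξ →
      (QQ d p0 (1 / (L : ℝ) ^ 4)).real {q | ξ < ∑ u ∈ (FS (BB d M L) q.1 q.2) ∩ WW d L,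
        ∑ w ∈ (FS (BB d M L) q.1 q.2).filter (fun w => nm (w - u) ≤ N1),
          1 / ((r0 : ℝ) + nm (w - u)) ^ (d - 2)} ≤
        C * (1 / (r0 : ℝ) ^ (d - 6) + ((N1 : ℝ) / L) ^ 2) * (L : ℝ) ^ (d - 2) / ξ := by
  have hd := H.hd
  obtain ⟨C, hC, hp⟩ := SeedB_pair H
  obtain ⟨C7, hC7, h7⟩ := sk7 (d := d) hd
  obtain ⟨Cb, hCb, hb⟩ := sum_ball (d := d) (by omega)
  refine ⟨3 ^ d * C * (C7 + 4 * Cb), by positivity, fun L r0 N1 ξ hL hr hN hξ => ?_⟩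
  obtain ⟨q0, q1⟩ := SeedL_rho hL
  have hQ := SeedL_probQ (d := d) H.hp0.le H.hp1.le q0 q1
  have hL0 : (0 : ℝ) < L := by exact_mod_cast hL
  have hr1 : (1 : ℝ) ≤ r0 := by exact_mod_cast hr
  have hN1 : (1 : ℝ) ≤ N1 := by exact_mod_cast hN
  have ha : ∀ h : V d, 0 ≤ 1 / ((r0 : ℝ) + nm h) ^ (d - 2) := fun h => by positivity
  have hS2 : ∑ h ∈ Box d N1, 1 / ((r0 : ℝ) + nm h) ^ (d - 2) ≤ 4 * Cb * (N1 : ℝ) ^ 2 := by
    calc ∑ h ∈ Box d N1, 1 / ((r0 : ℝ) + nm h) ^ (d - 2)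
        ≤ ∑ h ∈ Box d N1, kr h := by
          refine Finset.sum_le_sum fun h _ => ?_
          unfold kr
          gcongr
      _ ≤ Cb * (1 + (N1 : ℝ)) ^ 2 := hb N1
      _ ≤ Cb * (2 * (N1 : ℝ)) ^ 2 := by
          gcongr
          linarith
      _ = 4 * Cb * (N1 : ℝ) ^ 2 := by ring
  have hE := SeedB_exp (A := A) (cM := cM) (M := M) (p0 := p0) C L (fun u h => hp L u h hL)
    (fun h => 1 / ((r0 : ℝ) + nm h) ^ (d - 2)) ha (WW d L) N1 _ _ hC.le (h7 N1 r0 hr) hS2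
  have h2 := SeedB_markov (QQ d p0 (1 / (L : ℝ) ^ 4)) (WW d L ×ˢ Box d N1)
    (fun i q => i.1 ∈ FS (BB d M L) q.1 q.2 ∧ i.1 + i.2 ∈ FS (BB d M L) q.1 q.2)
    (fun i => 1 / ((r0 : ℝ) + nm i.2) ^ (d - 2)) (fun i _ => ha i.2) ξ _ hξ hE
    (fun q => ∑ u ∈ (FS (BB d M L) q.1 q.2) ∩ WW d L,
        ∑ w ∈ (FS (BB d M L) q.1 q.2).filter (fun w => nm (w - u) ≤ N1),
          1 / ((r0 : ℝ) + nm (w - u)) ^ (d - 2))
    (fun q => SeedB_double (FS (BB d M L) q.1 q.2) N1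
      (fun h => 1 / ((r0 : ℝ) + nm h) ^ (d - 2)) ha (WW d L)
      (fun u => (FS (BB d M L) q.1 q.2).filter (fun w => nm (w - u) ≤ N1))
      (fun u w hw => by
        rw [Finset.mem_filter] at hw
        exact hw))
  refine h2.trans (div_le_div_of_nonneg_right ?_ hξ.le)
  rw [statM_card_WW]
  have h3 : (L : ℝ) ^ d = (L : ℝ) ^ (d - 2) * (L : ℝ) ^ 2 := by
    rw [← pow_add]
    congr 1
    omega
  have h4 : (3 * (L : ℝ)) ^ d * (C / (L : ℝ) ^ 2 * (C7 / (r0 : ℝ) ^ (d - 6)) +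
      C / (L : ℝ) ^ 4 * (4 * Cb * (N1 : ℝ) ^ 2)) =
      3 ^ d * C * (C7 * (1 / (r0 : ℝ) ^ (d - 6)) + 4 * Cb * ((N1 : ℝ) / L) ^ 2) *
        (L : ℝ) ^ (d - 2) := by
    rw [mul_pow, h3]
    field_simp
  rw [h4]
  have h5 : 0 ≤ 1 / (r0 : ℝ) ^ (d - 6) := by positivity
  have h6 : 0 ≤ ((N1 : ℝ) / L) ^ 2 := by positivity
  have h7' : C7 * (1 / (r0 : ℝ) ^ (d - 6)) + 4 * Cb * ((N1 : ℝ) / L) ^ 2 ≤
      (C7 + 4 * Cb) * (1 / (r0 : ℝ) ^ (d - 6) + ((N1 : ℝ) / L) ^ 2) := by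
    nlinarith [mul_nonneg hC7.le h6, mul_nonneg hCb.le h5]
  calc 3 ^ d * C * (C7 * (1 / (r0 : ℝ) ^ (d - 6)) + 4 * Cb * ((N1 : ℝ) / L) ^ 2) *
        (L : ℝ) ^ (d - 2)
      ≤ 3 ^ d * C * ((C7 + 4 * Cb) * (1 / (r0 : ℝ) ^ (d - 6) + ((N1 : ℝ) / L) ^ 2)) *
        (L : ℝ) ^ (d - 2) := by gcongr
    _ = 3 ^ d * C * (C7 + 4 * Cb) * (1 / (r0 : ℝ) ^ (d - 6) + ((N1 : ℝ) / L) ^ 2) *
        (L : ℝ) ^ (d - 2) := by ring

open Classical in
theorem sb_near {p0 A cM : ℝ} {M : ℕ} (H : Crit d p0 A cM M) : ∃ C : ℝ, 0 < C ∧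
    ∀ (L r : ℕ) (ξ : ℝ), 1 ≤ L → 1 ≤ r → 0 < ξ →
      (QQ d p0 (1 / (L : ℝ) ^ 4)).real {q | ξ < (((FS (BB d M L) q.1 q.2) ∩ WW d L).filter
        (fun u => ∃ w ∈ FS (BB d M L) q.1 q.2, nm (w - u) ≤ r ∧
          ¬ Cn (BB d M L : Set (V d)) q.1 u w)).card} ≤
        C * (r : ℝ) ^ d * (L : ℝ) ^ (d - 4) / ξ := by
  have hd := H.hd
  obtain ⟨C2, hC2, h2⟩ := sd_diff H
  refine ⟨3 ^ d * 3 ^ d * C2, by positivity, fun L r ξ hL hr hξ => ?_⟩
  obtain ⟨q0, q1⟩ := SeedL_rho hL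
  have hQ := SeedL_probQ (d := d) H.hp0.le H.hp1.le q0 q1
  have hL0 : (0 : ℝ) < L := by exact_mod_cast hL
  have hE : ∑ i ∈ WW d L ×ˢ Box d r, (1 : ℝ) * (QQ d p0 (1 / (L : ℝ) ^ 4)).real
      {q | i.1 ∈ FS (BB d M L) q.1 q.2 ∧ i.1 + i.2 ∈ FS (BB d M L) q.1 q.2 ∧
        ¬ Cn (BB d M L : Set (V d)) q.1 i.1 (i.1 + i.2)} ≤
      3 ^ d * 3 ^ d * C2 * (r : ℝ) ^ d * (L : ℝ) ^ (d - 4) := by
    calc ∑ i ∈ WW d L ×ˢ Box d r, (1 : ℝ) * (QQ d p0 (1 / (L : ℝ) ^ 4)).real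
          {q | i.1 ∈ FS (BB d M L) q.1 q.2 ∧ i.1 + i.2 ∈ FS (BB d M L) q.1 q.2 ∧
            ¬ Cn (BB d M L : Set (V d)) q.1 i.1 (i.1 + i.2)}
        ≤ ∑ i ∈ WW d L ×ˢ Box d r, C2 / (L : ℝ) ^ 4 := by
          refine Finset.sum_le_sum fun i _ => ?_
          rw [one_mul]
          exact h2 L i.1 (i.1 + i.2) hL
      _ = ((WW d L).card : ℝ) * ((Box d r).card : ℝ) * (C2 / (L : ℝ) ^ 4) := by
          rw [Finset.sum_const, nsmul_eq_mul, Finset.card_product]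
          push_cast
          ring
      _ ≤ ((3 * (L : ℝ)) ^ d) * (3 ^ d * (r : ℝ) ^ d) * (C2 / (L : ℝ) ^ 4) := by
          rw [statM_card_WW]
          have := card_Box_le (d := d) r hr
          gcongr
      _ = 3 ^ d * 3 ^ d * C2 * (r : ℝ) ^ d * (L : ℝ) ^ (d - 4) := by
          have h3 : (L : ℝ) ^ d = (L : ℝ) ^ (d - 4) * (L : ℝ) ^ 4 := by
            rw [← pow_add]
            congr 1
            omega
          rw [mul_pow, h3]
          field_simp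
  refine SeedB_markov (QQ d p0 (1 / (L : ℝ) ^ 4)) (WW d L ×ˢ Box d r)
    (fun i q => i.1 ∈ FS (BB d M L) q.1 q.2 ∧ i.1 + i.2 ∈ FS (BB d M L) q.1 q.2 ∧
        ¬ Cn (BB d M L : Set (V d)) q.1 i.1 (i.1 + i.2)) (fun _ => 1)
    (fun _ _ => zero_le_one) ξ _ hξ hE
    (fun q => ((((FS (BB d M L) q.1 q.2) ∩ WW d L).filter
        (fun u => ∃ w ∈ FS (BB d M L) q.1 q.2, nm (w - u) ≤ r ∧
          ¬ Cn (BB d M L : Set (V d)) q.1 u w)).card : ℝ)) ?_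
  intro q
  rw [Finset.sum_product]
  have h4 : ((FS (BB d M L) q.1 q.2) ∩ WW d L).filter
        (fun u => ∃ w ∈ FS (BB d M L) q.1 q.2, nm (w - u) ≤ r ∧
          ¬ Cn (BB d M L : Set (V d)) q.1 u w) = (WW d L).filter
        (fun u => u ∈ FS (BB d M L) q.1 q.2 ∧ ∃ w ∈ FS (BB d M L) q.1 q.2, nm (w - u) ≤ r ∧
          ¬ Cn (BB d M L : Set (V d)) q.1 u w) := by
    ext u
    simp only [Finset.mem_filter, Finset.mem_inter]
    tauto
  rw [h4, Finset.card_filter]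
  push_cast
  refine Finset.sum_le_sum fun u _ => ?_
  by_cases hu : u ∈ FS (BB d M L) q.1 q.2 ∧ ∃ w ∈ FS (BB d M L) q.1 q.2, nm (w - u) ≤ r ∧
          ¬ Cn (BB d M L : Set (V d)) q.1 u w
  · rw [if_pos hu]
    obtain ⟨hu1, w, hw, hwr, hwc⟩ := hu
    have h5 : (1 : ℝ) * SeedB_ind (u ∈ FS (BB d M L) q.1 q.2 ∧
        u + (w - u) ∈ FS (BB d M L) q.1 q.2 ∧
        ¬ Cn (BB d M L : Set (V d)) q.1 u (u + (w - u))) = 1 := by
      rw [add_sub_cancel, SeedB_ind_pos ⟨hu1, hw, hwc⟩, mul_one]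
    calc (1 : ℝ) = (1 : ℝ) * SeedB_ind (u ∈ FS (BB d M L) q.1 q.2 ∧
          u + (w - u) ∈ FS (BB d M L) q.1 q.2 ∧
          ¬ Cn (BB d M L : Set (V d)) q.1 u (u + (w - u))) := h5.symm
      _ ≤ _ := Finset.single_le_sum (f := fun h => (1 : ℝ) * SeedB_ind
          (u ∈ FS (BB d M L) q.1 q.2 ∧ u + h ∈ FS (BB d M L) q.1 q.2 ∧
          ¬ Cn (BB d M L : Set (V d)) q.1 u (u + h))) (fun h _ =>
            mul_nonneg zero_le_one (SeedB_ind_nonneg _)) (mem_Box'.2 hwr)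
  · rw [if_neg hu]
    exact Finset.sum_nonneg fun h _ => mul_nonneg zero_le_one (SeedB_ind_nonneg _)

lemma SeedB_cube {n : ℕ} {j u w : V d} (hu : u ∈ cube n j) (hw : w ∈ cube n j) :
    nm (w - u) ≤ n := by
  rw [mem_cube] at hu hw
  rw [nm_le]
  intro i
  have h1 := hu i
  have h2 := hw i
  have h3 : (j i + 1) * (n : ℤ) = j i * n + n := by ring
  rw [h3] at h1 h2
  rw [Pi.sub_apply]
  omega

lemma SeedB_card_cube (n : ℕ) (j : V d) : ((cube n j).card : ℝ) = (n : ℝ) ^ d := by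
  unfold cube
  rw [Fintype.card_piFinset]
  have h1 : ∀ i : Fin d, (Finset.Ico (j i * (n : ℤ)) ((j i + 1) * n)).card = n := by
    intro i
    rw [Int.card_Ico]
    have h3 : (j i + 1) * (n : ℤ) - j i * n = n := by ring
    rw [h3]
    simp
  simp only [h1, Finset.prod_const, Finset.card_univ, Fintype.card_fin]
  push_cast
  ring

lemma SeedB_card_JJ (m : ℕ) : ((JJ d m).card : ℝ) = (3 * (m : ℝ)) ^ d := by
  unfold JJ
  rw [Fintype.card_piFinset]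
  simp only [Int.card_Ico, Finset.prod_const, Finset.card_univ, Fintype.card_fin]
  have : (2 * (m : ℤ) - -(m : ℤ)).toNat = 3 * m := by omega
  rw [this]
  push_cast
  ring

theorem sb_enr {p0 A cM : ℝ} {M : ℕ} (H : Crit d p0 A cM M) : ∃ C : ℝ, 0 < C ∧
    ∀ (m lam : ℕ) (ξ : ℝ), 1 ≤ m → 1 ≤ lam → 0 < ξ →
      (QQ d p0 (1 / ((m * lam : ℕ) : ℝ) ^ 4)).real
        {q | ξ < ∑ j ∈ JJ d m, enr (FS (BB d M (m * lam)) q.1 q.2) (cube lam j)} ≤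
        C * (((m * lam : ℕ) : ℝ) ^ (d - 4) * (lam : ℝ) ^ 4 +
          ((m * lam : ℕ) : ℝ) ^ (d - 2) * lam) / ξ := by
  classical
  have hd := H.hd
  obtain ⟨C, hC, hp⟩ := SeedB_pair H
  obtain ⟨C5, hC5, h5⟩ := sk5 (d := d) (by omega)
  obtain ⟨C6, hC6, h6⟩ := sk6 (d := d) hd
  refine ⟨3 ^ d * C * (16 * C5 + 2 * C6), by positivity, fun m lam ξ hm hlam hξ => ?_⟩
  set L : ℕ := m * lam with hLdef
  have hL : 1 ≤ L := Nat.mul_pos hm hlam
  obtain ⟨q0, q1⟩ := SeedL_rho hL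
  have hQ := SeedL_probQ (d := d) H.hp0.le H.hp1.le q0 q1
  have hL0 : (0 : ℝ) < L := by exact_mod_cast hL
  have hl1 : (1 : ℝ) ≤ lam := by exact_mod_cast hlam
  have ha : ∀ h : V d, 0 ≤ 1 / (1 + (nm h : ℝ)) ^ (d - 4) := fun h => by positivity
  have hS1 : ∑ h ∈ Box d lam, 1 / (1 + (nm h : ℝ)) ^ (d - 4) * (1 / (1 + (nm h : ℝ)) ^ (d - 4)) ≤
      2 * C6 * lam := by
    calc ∑ h ∈ Box d lam, 1 / (1 + (nm h : ℝ)) ^ (d - 4) * (1 / (1 + (nm h : ℝ)) ^ (d - 4))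
        = ∑ h ∈ Box d lam, 1 / (1 + (nm h : ℝ)) ^ (2 * (d - 4)) := by
          refine Finset.sum_congr rfl fun h _ => ?_
          rw [div_mul_div_comm, one_mul, two_mul, pow_add]
      _ ≤ C6 * (1 + (lam : ℝ)) := h6 lam
      _ ≤ C6 * (2 * (lam : ℝ)) := by
          gcongr
          linarith
      _ = 2 * C6 * lam := by ring
  have hS2 : ∑ h ∈ Box d lam, 1 / (1 + (nm h : ℝ)) ^ (d - 4) ≤ 16 * C5 * (lam : ℝ) ^ 4 := by
    calc ∑ h ∈ Box d lam, 1 / (1 + (nm h : ℝ)) ^ (d - 4) ≤ C5 * (1 + (lam : ℝ)) ^ 4 := h5 lam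
      _ ≤ C5 * (2 * (lam : ℝ)) ^ 4 := by
          gcongr
          linarith
      _ = 16 * C5 * (lam : ℝ) ^ 4 := by ring
  have hEj : ∀ j : V d, ∑ i ∈ cube lam j ×ˢ Box d lam, 1 / (1 + (nm i.2 : ℝ)) ^ (d - 4) *
      (QQ d p0 (1 / (L : ℝ) ^ 4)).real
      {q | i.1 ∈ FS (BB d M L) q.1 q.2 ∧ i.1 + i.2 ∈ FS (BB d M L) q.1 q.2} ≤
      (lam : ℝ) ^ d * (C / (L : ℝ) ^ 2 * (2 * C6 * lam) + C / (L : ℝ) ^ 4 *
        (16 * C5 * (lam : ℝ) ^ 4)) := by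
    intro j
    have := SeedB_exp (A := A) (cM := cM) (M := M) (p0 := p0) C L (fun u h => hp L u h hL)
      (fun h => 1 / (1 + (nm h : ℝ)) ^ (d - 4)) ha (cube lam j) lam _ _ hC.le hS1 hS2
    rwa [SeedB_card_cube] at this
  have hE : ∑ i ∈ JJ d m ×ˢ (BB d M L ×ˢ Box d lam), (if i.2.1 ∈ cube lam i.1 then
      1 / (1 + (nm i.2.2 : ℝ)) ^ (d - 4) else 0) *
      (QQ d p0 (1 / (L : ℝ) ^ 4)).real
      {q | i.2.1 ∈ FS (BB d M L) q.1 q.2 ∧ i.2.1 + i.2.2 ∈ FS (BB d M L) q.1 q.2} ≤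
      3 ^ d * C * (16 * C5 + 2 * C6) * ((L : ℝ) ^ (d - 4) * (lam : ℝ) ^ 4 +
          (L : ℝ) ^ (d - 2) * lam) := by
    rw [Finset.sum_product]
    calc ∑ j ∈ JJ d m, ∑ i ∈ BB d M L ×ˢ Box d lam, (if i.1 ∈ cube lam j then
          1 / (1 + (nm i.2 : ℝ)) ^ (d - 4) else 0) *
          (QQ d p0 (1 / (L : ℝ) ^ 4)).real
          {q | i.1 ∈ FS (BB d M L) q.1 q.2 ∧ i.1 + i.2 ∈ FS (BB d M L) q.1 q.2}
        ≤ ∑ j ∈ JJ d m, (lam : ℝ) ^ d * (C / (L : ℝ) ^ 2 * (2 * C6 * lam) + C / (L : ℝ) ^ 4 *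
          (16 * C5 * (lam : ℝ) ^ 4)) := by
          refine Finset.sum_le_sum fun j _ => (le_trans ?_ (hEj j))
          rw [Finset.sum_product, Finset.sum_product]
          have h8 : ∀ u : V d, ∑ h ∈ Box d lam, (if u ∈ cube lam j then
              1 / (1 + (nm h : ℝ)) ^ (d - 4) else 0) *
              (QQ d p0 (1 / (L : ℝ) ^ 4)).real
              {q | u ∈ FS (BB d M L) q.1 q.2 ∧ u + h ∈ FS (BB d M L) q.1 q.2} =
              if u ∈ cube lam j then ∑ h ∈ Box d lam, 1 / (1 + (nm h : ℝ)) ^ (d - 4) *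
              (QQ d p0 (1 / (L : ℝ) ^ 4)).real
              {q | u ∈ FS (BB d M L) q.1 q.2 ∧ u + h ∈ FS (BB d M L) q.1 q.2} else 0 := by
            intro u
            split_ifs
            · rfl
            · simp
          simp only [h8]
          rw [← Finset.sum_filter]
          refine Finset.sum_le_sum_of_subset_of_nonneg ?_ fun u _ _ => ?_
          · intro u hu
            exact (Finset.mem_filter.1 hu).2
          · refine Finset.sum_nonneg fun h _ => mul_nonneg (ha h) measureReal_nonneg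
      _ = (3 * (m : ℝ)) ^ d * ((lam : ℝ) ^ d * (C / (L : ℝ) ^ 2 * (2 * C6 * lam) +
          C / (L : ℝ) ^ 4 * (16 * C5 * (lam : ℝ) ^ 4))) := by
          rw [Finset.sum_const, nsmul_eq_mul, SeedB_card_JJ]
      _ = 3 ^ d * C * (16 * C5 * ((L : ℝ) ^ (d - 4) * (lam : ℝ) ^ 4) +
          2 * C6 * ((L : ℝ) ^ (d - 2) * lam)) := by
          have e0 : (3 * (m : ℝ)) ^ d * (lam : ℝ) ^ d = 3 ^ d * (L : ℝ) ^ d := by
            rw [hLdef, Nat.cast_mul, mul_pow, mul_pow, mul_assoc]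
          have e2 : (L : ℝ) ^ d / (L : ℝ) ^ 2 = (L : ℝ) ^ (d - 2) := by
            rw [div_eq_iff (by positivity), ← pow_add]
            congr 1
            omega
          have e4 : (L : ℝ) ^ d / (L : ℝ) ^ 4 = (L : ℝ) ^ (d - 4) := by
            rw [div_eq_iff (by positivity), ← pow_add]
            congr 1
            omega
          rw [← mul_assoc, e0, ← e2, ← e4]
          ring
      _ ≤ _ := by
          have e2 : 0 ≤ (L : ℝ) ^ (d - 2) * lam := by positivity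
          have e4 : 0 ≤ (L : ℝ) ^ (d - 4) * (lam : ℝ) ^ 4 := by positivity
          rw [mul_assoc (3 ^ d * C) (16 * C5 + 2 * C6)]
          have : 0 ≤ 3 ^ d * C := by positivity
          refine mul_le_mul_of_nonneg_left ?_ this
          nlinarith [mul_nonneg hC5.le e2, mul_nonneg hC6.le e4]
  refine SeedB_markov (QQ d p0 (1 / (L : ℝ) ^ 4)) (JJ d m ×ˢ (BB d M L ×ˢ Box d lam))
    (fun i q => i.2.1 ∈ FS (BB d M L) q.1 q.2 ∧ i.2.1 + i.2.2 ∈ FS (BB d M L) q.1 q.2)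
    (fun i => if i.2.1 ∈ cube lam i.1 then 1 / (1 + (nm i.2.2 : ℝ)) ^ (d - 4) else 0)
    (fun i _ => by
      split_ifs
      · exact ha _
      · exact le_rfl) ξ _ hξ hE
    (fun q => ∑ j ∈ JJ d m, enr (FS (BB d M L) q.1 q.2) (cube lam j)) ?_
  intro q
  rw [Finset.sum_product]
  refine Finset.sum_le_sum fun j _ => ?_
  unfold enr
  set F : Finset (V d) := FS (BB d M L) q.1 q.2 with hF
  have hFB : F ⊆ BB d M L := fun x hx => (SeedL_mem.1 hx).1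
  have h9 : ∑ u ∈ F ∩ cube lam j, ∑ u' ∈ F ∩ cube lam j, 1 / (1 + (nm (u - u') : ℝ)) ^ (d - 4) ≤
      ∑ i ∈ (F ∩ cube lam j) ×ˢ Box d lam, 1 / (1 + (nm i.2 : ℝ)) ^ (d - 4) *
        SeedB_ind (i.1 ∈ F ∧ i.1 + i.2 ∈ F) := by
    rw [Finset.sum_product]
    refine Finset.sum_le_sum fun u hu => ?_
    obtain ⟨hu1, hu2⟩ := Finset.mem_inter.1 hu
    have h10 := SeedB_inner F lam (fun h => 1 / (1 + (nm h : ℝ)) ^ (d - 4)) ha u (F ∩ cube lam j)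
      (fun w hw => ⟨(Finset.mem_inter.1 hw).1, SeedB_cube hu2 (Finset.mem_inter.1 hw).2⟩)
    calc ∑ u' ∈ F ∩ cube lam j, 1 / (1 + (nm (u - u') : ℝ)) ^ (d - 4)
        = ∑ u' ∈ F ∩ cube lam j, 1 / (1 + (nm (u' - u) : ℝ)) ^ (d - 4) := by
          refine Finset.sum_congr rfl fun w _ => ?_
          rw [nm_sub_comm]
      _ ≤ ∑ h ∈ Box d lam, 1 / (1 + (nm h : ℝ)) ^ (d - 4) * SeedB_ind (u + h ∈ F) :=
          h10
      _ = _ := by
          refine Finset.sum_congr rfl fun h _ => ?_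
          simp only [hu1, true_and]
  refine h9.trans ?_
  rw [Finset.sum_product, Finset.sum_product]
  have h11 : ∀ u ∈ F ∩ cube lam j, ∑ h ∈ Box d lam, 1 / (1 + (nm h : ℝ)) ^ (d - 4) *
        SeedB_ind (u ∈ F ∧ u + h ∈ F) = ∑ h ∈ Box d lam,
        (if u ∈ cube lam j then 1 / (1 + (nm h : ℝ)) ^ (d - 4) else 0) *
        SeedB_ind (u ∈ F ∧ u + h ∈ F) := by
    intro u hu
    refine Finset.sum_congr rfl fun h _ => ?_
    rw [if_pos (Finset.mem_inter.1 hu).2]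
  rw [Finset.sum_congr rfl h11]
  refine Finset.sum_le_sum_of_subset_of_nonneg (fun u hu => hFB (Finset.mem_inter.1 hu).1)
    fun u _ _ => Finset.sum_nonneg fun h _ => ?_
  refine mul_nonneg ?_ (SeedB_ind_nonneg _)
  split_ifs
  · exact ha _
  · exact le_rfl

end H95LBS
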