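import Pool.Agent.H95.LBS.BDef
import Pool.Agent.H95.LBS.TreeS
import Pool.Agent.H95.LBS.SumK
import Pool.Agent.H95.LBS.Vol

/-!
PROJECT DS (MP_0d9ad5_pr), JOB DS-SeedL. Sampled hubs: two-point estimates (section 4 of note 2700).
PROOF. `ρ = 1/L^4`; `u ∈ FS` iff some seed `x ∈ BB` is connected to `u`. `sd_one`: union over `x`:
`ρ ∑_x A kr (x-u) <= ρ C L^2` (`sk1`, radius `(10M+3)L`). `sd_same`: `ρ ∑_x P(x <-> u, x <-> w) <=
ρ ∑_x ∑_{v ∈ BB} A^3 kr(v-u) kr(v-w) kr(v-x)` (`tree_S`), sum first over `x`, then `sk2`. `sd_diff`: seeds `x ≠ x'` with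
`x <-> u`, `x' <-> w` in different hubs: disjoint occurrence (witness: edges inside the hub of `u`), `bk_inf`, independent seeds:
`ρ^2 ∑_{x,x'} A^2 kr kr <= C L^4/L^8`. Measurability: finite unions/intersections, or use outer-measure bounds
(see `statM_markov` in StatM for counting without measurability).
-/

namespace H95LBS

open H5DF H95LBD MeasureTheory

variable {d : ℕ}

/-- The joint law of the critical configuration and the seeds. -/
noncomputable def QQ (d : ℕ) (p ρ : ℝ) : Measure (Cfg d × (V d → Bool)) := (perc d p).prod (seedM d ρ)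

theorem isProb_seed {ρ : ℝ} (h0 : 0 ≤ ρ) (h1 : ρ ≤ 1) : IsProbabilityMeasure (seedM d ρ) := by
  have := isProb_bern h0 h1
  unfold seedM
  infer_instance

lemma SeedL_bern {ρ : ℝ} (h0 : 0 ≤ ρ) (h1 : ρ ≤ 1) (F : Finset (V d)) :
    (seedM d ρ).real {b : V d → Bool | ∀ x ∈ F, b x = true} = ρ ^ F.card := by
  have hP := isProb_bern h0 h1
  have hb : bern ρ {true} = ENNReal.ofReal ρ := by simp [bern]
  have hset : {b : V d → Bool | ∀ x ∈ F, b x = true} =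
      ((F : Set (V d)).pi fun _ => ({true} : Set Bool)) := by
    ext b
    simp
  unfold seedM
  rw [measureReal_def, hset, Measure.infinitePi_pi _ (fun i _ => MeasurableSet.of_discrete)]
  simp only [hb]
  rw [Finset.prod_const, ENNReal.toReal_pow, ENNReal.toReal_ofReal h0]

lemma SeedL_prod {p ρ : ℝ} (hp0 : 0 ≤ p) (hp1 : p ≤ 1) (h0 : 0 ≤ ρ) (h1 : ρ ≤ 1) (F : Finset (V d))
    (E : Set (Cfg d)) :
    (QQ d p ρ).real {q | q.1 ∈ E ∧ ∀ x ∈ F, q.2 x = true} = (perc d p).real E * ρ ^ F.card := by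
  have hP := isProb_perc (d := d) p hp0 hp1
  have hS := isProb_seed (d := d) h0 h1
  have hset : {q : Cfg d × (V d → Bool) | q.1 ∈ E ∧ ∀ x ∈ F, q.2 x = true} =
      E ×ˢ {b : V d → Bool | ∀ x ∈ F, b x = true} := by
    ext q
    simp [Set.mem_prod]
  unfold QQ
  rw [hset, measureReal_def, Measure.prod_prod, ENNReal.toReal_mul, ← SeedL_bern h0 h1 F]
  rfl

lemma SeedL_probQ {p ρ : ℝ} (hp0 : 0 ≤ p) (hp1 : p ≤ 1) (h0 : 0 ≤ ρ) (h1 : ρ ≤ 1) :
    IsProbabilityMeasure (QQ d p ρ) := by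
  have hP := isProb_perc (d := d) p hp0 hp1
  have hS := isProb_seed (d := d) h0 h1
  unfold QQ
  infer_instance

lemma SeedL_rho {L : ℕ} (hL : 1 ≤ L) : 0 ≤ 1 / (L : ℝ) ^ 4 ∧ 1 / (L : ℝ) ^ 4 ≤ 1 := by
  have h1 : (1 : ℝ) ≤ L := by exact_mod_cast hL
  constructor
  · positivity
  · rw [div_le_one (by positivity)]
    exact one_le_pow₀ h1

lemma SeedL_mem {B : Finset (V d)} {ω : Cfg d} {b : V d → Bool} {u : V d} :
    u ∈ FS B ω b ↔ u ∈ B ∧ ∃ x ∈ B, b x = true ∧ Cn (B : Set (V d)) ω x u := by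
  classical
  unfold FS
  rw [Finset.mem_filter]

/-- The kernel sum over the block box. -/
lemma SeedL_sum {A : ℝ} (hA : 0 < A) (hd : 5 ≤ d) (M : ℕ) : ∃ C : ℝ, 0 < C ∧
    ∀ (L : ℕ) (u : V d), 1 ≤ L → ∑ x ∈ BB d M L, A * kr (x - u) ≤ C * (L : ℝ) ^ 2 := by
  obtain ⟨C, hC, h⟩ := sk1 (d := d) hd
  refine ⟨A * (C * (10 * M + 4) ^ 2), by positivity, fun L u hL => ?_⟩
  have hL1 : (1 : ℝ) ≤ L := by exact_mod_cast hL
  rw [← Finset.mul_sum]
  unfold BB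
  have h1 := h ((10 * M + 3) * L) 0 u
  have h2 : (1 + (((10 * M + 3) * L : ℕ) : ℝ)) ^ 2 ≤ ((10 * M + 4) * (L : ℝ)) ^ 2 := by
    refine pow_le_pow_left₀ (by positivity) ?_ 2
    push_cast
    nlinarith
  calc A * ∑ x ∈ BF (0 : V d) ((10 * M + 3) * L), kr (x - u)
      ≤ A * (C * (1 + (((10 * M + 3) * L : ℕ) : ℝ)) ^ 2) := by gcongr
    _ ≤ A * (C * ((10 * M + 4) * (L : ℝ)) ^ 2) := by gcongr
    _ = A * (C * (10 * M + 4) ^ 2) * (L : ℝ) ^ 2 := by ring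

theorem sd_one {p0 A cM : ℝ} {M : ℕ} (H : Crit d p0 A cM M) : ∃ C : ℝ, 0 < C ∧
    ∀ (L : ℕ) (u : V d), 1 ≤ L → (QQ d p0 (1 / (L : ℝ) ^ 4)).real
      {q | u ∈ FS (BB d M L) q.1 q.2} ≤ C / (L : ℝ) ^ 2 := by
  classical
  have hA : 0 < A := lt_of_lt_of_le zero_lt_one H.hA
  obtain ⟨C, hC, hs⟩ := SeedL_sum (d := d) hA (by have := H.hd; omega) M
  refine ⟨C, hC, fun L u hL => ?_⟩
  obtain ⟨r0, r1⟩ := SeedL_rho hL
  have hQ := SeedL_probQ (d := d) H.hp0.le H.hp1.le r0 r1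
  have hL1 : (1 : ℝ) ≤ L := by exact_mod_cast hL
  have hsub : {q : Cfg d × (V d → Bool) | u ∈ FS (BB d M L) q.1 q.2} ⊆
      ⋃ x ∈ BB d M L, {q | q.1 ∈ {ω : Cfg d | Cn (BB d M L : Set (V d)) ω u x} ∧
        ∀ z ∈ ({x} : Finset (V d)), q.2 z = true} := by
    intro q hq
    obtain ⟨-, x, hx, hb, hc⟩ := SeedL_mem.1 hq
    refine Set.mem_iUnion₂.2 ⟨x, hx, hc.symm, ?_⟩
    intro z hz
    rw [Finset.mem_singleton.1 hz]
    exact hb
  calc (QQ d p0 (1 / (L : ℝ) ^ 4)).real {q | u ∈ FS (BB d M L) q.1 q.2}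
      ≤ ∑ x ∈ BB d M L, (QQ d p0 (1 / (L : ℝ) ^ 4)).real
        {q | q.1 ∈ {ω : Cfg d | Cn (BB d M L : Set (V d)) ω u x} ∧
        ∀ z ∈ ({x} : Finset (V d)), q.2 z = true} :=
        (measureReal_mono hsub (measure_ne_top _ _)).trans (measureReal_biUnion_finset_le _ _)
    _ ≤ ∑ x ∈ BB d M L, A * kr (x - u) * (1 / (L : ℝ) ^ 4) := by
        refine Finset.sum_le_sum fun x _ => ?_
        rw [SeedL_prod H.hp0.le H.hp1.le r0 r1, Finset.card_singleton, pow_one]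
        exact mul_le_mul_of_nonneg_right (Vol_conn H _ u x) r0
    _ = (∑ x ∈ BB d M L, A * kr (x - u)) * (1 / (L : ℝ) ^ 4) := by rw [Finset.sum_mul]
    _ ≤ (C * (L : ℝ) ^ 2) * (1 / (L : ℝ) ^ 4) := mul_le_mul_of_nonneg_right (hs L u hL) r0
    _ = C / (L : ℝ) ^ 2 := by
        field_simp

theorem sd_same {p0 A cM : ℝ} {M : ℕ} (H : Crit d p0 A cM M) : ∃ C : ℝ, 0 < C ∧
    ∀ (L : ℕ) (u w : V d), 1 ≤ L → (QQ d p0 (1 / (L : ℝ) ^ 4)).real
      {q | u ∈ FS (BB d M L) q.1 q.2 ∧ Cn (BB d M L : Set (V d)) q.1 u w} ≤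
        C / (L : ℝ) ^ 2 / (1 + (nm (u - w) : ℝ)) ^ (d - 4) := by
  classical
  have hA : 0 < A := lt_of_lt_of_le zero_lt_one H.hA
  have hd5 : 5 ≤ d := by have := H.hd; omega
  obtain ⟨C, hC, hs⟩ := SeedL_sum (d := d) hA hd5 M
  obtain ⟨C2, hC2, hs2⟩ := sk2 (d := d) hd5
  refine ⟨C * (A ^ 2 * C2), by positivity, fun L u w hL => ?_⟩
  obtain ⟨r0, r1⟩ := SeedL_rho hL
  have hP := H.prob
  have hQ := SeedL_probQ (d := d) H.hp0.le H.hp1.le r0 r1
  have hL1 : (1 : ℝ) ≤ L := by exact_mod_cast hL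
  set B : Finset (V d) := BB d M L with hB
  have hsub : {q : Cfg d × (V d → Bool) | u ∈ FS B q.1 q.2 ∧ Cn (B : Set (V d)) q.1 u w} ⊆
      ⋃ x ∈ B, {q | q.1 ∈ {ω : Cfg d | Cn (B : Set (V d)) ω u x ∧ Cn (B : Set (V d)) ω w x} ∧
        ∀ z ∈ ({x} : Finset (V d)), q.2 z = true} := by
    rintro q ⟨hq, hq2⟩
    obtain ⟨-, x, hx, hb, hc⟩ := SeedL_mem.1 hq
    refine Set.mem_iUnion₂.2 ⟨x, hx, ⟨hc.symm, hq2.symm.trans hc.symm⟩, ?_⟩
    intro z hz
    rw [Finset.mem_singleton.1 hz]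
    exact hb
  have hx : ∀ x ∈ B, (perc d p0).real {ω : Cfg d | Cn (B : Set (V d)) ω u x ∧
      Cn (B : Set (V d)) ω w x} ≤ ∑ v ∈ B, (A * kr (v - u)) * (A * kr (v - w)) * (A * kr (x - v)) := by
    intro x hx
    refine (tree_S p0 H.hp0.le H.hp1.le B u w x hx).trans ?_
    refine Finset.sum_le_sum fun v _ => ?_
    have k1 := (kr_pos (v - u)).le
    have k2 := (kr_pos (v - w)).le
    have k3 := (kr_pos (x - v)).le
    have e1 := Vol_conn H (B : Set (V d)) u v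
    have e2 := Vol_conn H (B : Set (V d)) w v
    have e3 := Vol_conn H (B : Set (V d)) v x
    gcongr
  have hx2 : ∑ x ∈ B, ∑ v ∈ B, (A * kr (v - u)) * (A * kr (v - w)) * (A * kr (x - v)) ≤
      (C * (L : ℝ) ^ 2) * (A ^ 2 * (C2 / (1 + (nm (u - w) : ℝ)) ^ (d - 4))) := by
    rw [Finset.sum_comm]
    calc ∑ v ∈ B, ∑ x ∈ B, (A * kr (v - u)) * (A * kr (v - w)) * (A * kr (x - v))
        = ∑ v ∈ B, (A * kr (v - u)) * (A * kr (v - w)) * ∑ x ∈ B, A * kr (x - v) := by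
          refine Finset.sum_congr rfl fun v _ => ?_
          rw [Finset.mul_sum]
      _ ≤ ∑ v ∈ B, (A * kr (v - u)) * (A * kr (v - w)) * (C * (L : ℝ) ^ 2) := by
          refine Finset.sum_le_sum fun v _ => ?_
          have k1 := (kr_pos (v - u)).le
          have k2 := (kr_pos (v - w)).le
          exact mul_le_mul_of_nonneg_left (hs L v hL) (by positivity)
      _ = (C * (L : ℝ) ^ 2) * (A ^ 2 * ∑ v ∈ B, kr (v - u) * kr (v - w)) := by
          rw [Finset.mul_sum, Finset.mul_sum]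
          refine Finset.sum_congr rfl fun v _ => ?_
          ring
      _ ≤ (C * (L : ℝ) ^ 2) * (A ^ 2 * (C2 / (1 + (nm (u - w) : ℝ)) ^ (d - 4))) := by
          have := hs2 B u w
          gcongr
  calc (QQ d p0 (1 / (L : ℝ) ^ 4)).real
        {q | u ∈ FS B q.1 q.2 ∧ Cn (B : Set (V d)) q.1 u w}
      ≤ ∑ x ∈ B, (QQ d p0 (1 / (L : ℝ) ^ 4)).real
        {q | q.1 ∈ {ω : Cfg d | Cn (B : Set (V d)) ω u x ∧ Cn (B : Set (V d)) ω w x} ∧
        ∀ z ∈ ({x} : Finset (V d)), q.2 z = true} :=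
        (measureReal_mono hsub (measure_ne_top _ _)).trans (measureReal_biUnion_finset_le _ _)
    _ ≤ ∑ x ∈ B, (∑ v ∈ B, (A * kr (v - u)) * (A * kr (v - w)) * (A * kr (x - v))) *
          (1 / (L : ℝ) ^ 4) := by
        refine Finset.sum_le_sum fun x hxB => ?_
        rw [SeedL_prod H.hp0.le H.hp1.le r0 r1, Finset.card_singleton, pow_one]
        exact mul_le_mul_of_nonneg_right (hx x hxB) r0
    _ = (∑ x ∈ B, ∑ v ∈ B, (A * kr (v - u)) * (A * kr (v - w)) * (A * kr (x - v))) *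
          (1 / (L : ℝ) ^ 4) := by rw [Finset.sum_mul]
    _ ≤ ((C * (L : ℝ) ^ 2) * (A ^ 2 * (C2 / (1 + (nm (u - w) : ℝ)) ^ (d - 4)))) *
          (1 / (L : ℝ) ^ 4) := mul_le_mul_of_nonneg_right hx2 r0
    _ = C * (A ^ 2 * C2) / (L : ℝ) ^ 2 / (1 + (nm (u - w) : ℝ)) ^ (d - 4) := by
        have h1 : (0 : ℝ) < (1 + (nm (u - w) : ℝ)) ^ (d - 4) := by positivity
        field_simp

/-- Connections in different hubs occur disjointly. -/
lemma SeedL_disj {S : Set (V d)} {ω : Cfg d} {x x' u w : V d} (h1 : Cn S ω x u) (h2 : Cn S ω x' w)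
    (h3 : ¬ Cn S ω u w) : ω ∈ disj (SCn {x} S u) (SCn {x'} S w) := by
  classical
  have hed : ∀ (y : V d) (s : Dir d), (edge y s).1 = y ∨ (edge y s).1 = y + step s := by
    intro y s
    obtain ⟨i, b⟩ := s
    cases b
    · right
      simp [edge]
    · left
      simp [edge]
  refine ⟨fun e => decide (Cn S ω x e.1), ?_, ?_⟩
  · rw [TreeS_mem]
    refine Cn.ind (fun y => Cn S (fun e => ω e && decide (Cn S ω x e.1)) x y) (Cn.refl _ _ _) ?_ h1
    intro y s hy ih hyS hsS ho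
    refine ih.trans (Cn.one ?_ hyS hsS)
    have h4 : Cn S ω x (edge y s).1 := by
      rcases hed y s with h5 | h5
      · rw [h5]
        exact hy
      · rw [h5]
        exact hy.trans (Cn.one ho hyS hsS)
    simp only [ho, h4, decide_true, Bool.and_true]
  · rw [TreeS_mem]
    refine Cn.ind (fun y => Cn S (fun e => ω e && !decide (Cn S ω x e.1)) x' y) (Cn.refl _ _ _) ?_ h2
    intro y s hy ih hyS hsS ho
    refine ih.trans (Cn.one ?_ hyS hsS)
    have hxx : ¬ Cn S ω x x' := fun h5 => h3 (h1.symm.trans (h5.trans h2))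
    have h4 : ¬ Cn S ω x (edge y s).1 := by
      rcases hed y s with h5 | h5
      · rw [h5]
        exact fun h6 => hxx (h6.trans hy.symm)
      · rw [h5]
        exact fun h6 => hxx (h6.trans (hy.trans (Cn.one ho hyS hsS)).symm)
    simp only [ho, h4, decide_false, Bool.not_false, Bool.and_true]

theorem sd_diff {p0 A cM : ℝ} {M : ℕ} (H : Crit d p0 A cM M) : ∃ C : ℝ, 0 < C ∧
    ∀ (L : ℕ) (u w : V d), 1 ≤ L → (QQ d p0 (1 / (L : ℝ) ^ 4)).real
      {q | u ∈ FS (BB d M L) q.1 q.2 ∧ w ∈ FS (BB d M L) q.1 q.2 ∧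
        ¬ Cn (BB d M L : Set (V d)) q.1 u w} ≤ C / (L : ℝ) ^ 4 := by
  classical
  have hA : 0 < A := lt_of_lt_of_le zero_lt_one H.hA
  have hd5 : 5 ≤ d := by have := H.hd; omega
  obtain ⟨C, hC, hs⟩ := SeedL_sum (d := d) hA hd5 M
  refine ⟨C * C, by positivity, fun L u w hL => ?_⟩
  obtain ⟨r0, r1⟩ := SeedL_rho hL
  have hP := H.prob
  have hQ := SeedL_probQ (d := d) H.hp0.le H.hp1.le r0 r1
  have hL1 : (1 : ℝ) ≤ L := by exact_mod_cast hL
  set B : Finset (V d) := BB d M L with hB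
  have hsub : {q : Cfg d × (V d → Bool) | u ∈ FS B q.1 q.2 ∧ w ∈ FS B q.1 q.2 ∧
      ¬ Cn (B : Set (V d)) q.1 u w} ⊆
      ⋃ z ∈ (B ×ˢ B).filter (fun z => z.1 ≠ z.2), {q | q.1 ∈ disj (SCn {z.1} (B : Set (V d)) u)
        (SCn {z.2} (B : Set (V d)) w) ∧ ∀ y ∈ ({z.1, z.2} : Finset (V d)), q.2 y = true} := by
    rintro q ⟨hq, hq2, hq3⟩
    obtain ⟨-, x, hx, hb, hc⟩ := SeedL_mem.1 hq
    obtain ⟨-, x', hx', hb', hc'⟩ := SeedL_mem.1 hq2
    refine Set.mem_iUnion₂.2 ⟨(x, x'), ?_, SeedL_disj hc hc' hq3, ?_⟩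
    · rw [Finset.mem_filter, Finset.mem_product]
      refine ⟨⟨hx, hx'⟩, ?_⟩
      intro h
      have h' : x = x' := h
      subst h'
      exact hq3 (hc.symm.trans hc')
    · intro y hy
      rw [Finset.mem_insert, Finset.mem_singleton] at hy
      rcases hy with hy | hy
      · rw [hy]
        exact hb
      · rw [hy]
        exact hb'
  calc (QQ d p0 (1 / (L : ℝ) ^ 4)).real {q | u ∈ FS B q.1 q.2 ∧ w ∈ FS B q.1 q.2 ∧
        ¬ Cn (B : Set (V d)) q.1 u w}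
      ≤ ∑ z ∈ (B ×ˢ B).filter (fun z => z.1 ≠ z.2), (QQ d p0 (1 / (L : ℝ) ^ 4)).real
        {q | q.1 ∈ disj (SCn {z.1} (B : Set (V d)) u)
        (SCn {z.2} (B : Set (V d)) w) ∧ ∀ y ∈ ({z.1, z.2} : Finset (V d)), q.2 y = true} :=
        (measureReal_mono hsub (measure_ne_top _ _)).trans (measureReal_biUnion_finset_le _ _)
    _ ≤ ∑ z ∈ (B ×ˢ B).filter (fun z => z.1 ≠ z.2), (A * kr (z.1 - u)) * (A * kr (z.2 - w)) *
          (1 / (L : ℝ) ^ 4) ^ 2 := by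
        refine Finset.sum_le_sum fun z hz => ?_
        rw [Finset.mem_filter] at hz
        rw [SeedL_prod H.hp0.le H.hp1.le r0 r1, Finset.card_pair hz.2]
        refine mul_le_mul_of_nonneg_right ?_ (by positivity)
        refine (TreeS_bk p0 H.hp0.le H.hp1.le _ _ (SCn_inc _ _ _) (SCn_inc _ _ _)
          (SCn_fw _ _ _) (SCn_fw _ _ _)).trans ?_
        rw [← TreeS_set, ← TreeS_set]
        have e1 := Vol_conn H (B : Set (V d)) z.1 u
        have e2 := Vol_conn H (B : Set (V d)) z.2 w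
        rw [kr_sub_comm] at e1 e2
        have k1 := (kr_pos (z.1 - u)).le
        have k2 := (kr_pos (z.2 - w)).le
        gcongr
    _ ≤ ∑ z ∈ B ×ˢ B, (A * kr (z.1 - u)) * (A * kr (z.2 - w)) * (1 / (L : ℝ) ^ 4) ^ 2 := by
        refine Finset.sum_le_sum_of_subset_of_nonneg (Finset.filter_subset _ _) fun z _ _ => ?_
        have k1 := (kr_pos (z.1 - u)).le
        have k2 := (kr_pos (z.2 - w)).le
        positivity
    _ = (∑ x ∈ B, A * kr (x - u)) * (∑ x ∈ B, A * kr (x - w)) * (1 / (L : ℝ) ^ 4) ^ 2 := by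
        rw [Finset.sum_product, Finset.sum_mul_sum, Finset.sum_mul]
        refine Finset.sum_congr rfl fun x _ => ?_
        rw [Finset.sum_mul]
    _ ≤ (C * (L : ℝ) ^ 2) * (C * (L : ℝ) ^ 2) * (1 / (L : ℝ) ^ 4) ^ 2 := by
        have e1 := hs L u hL
        have e2 := hs L w hL
        have n2 : 0 ≤ ∑ x ∈ B, A * kr (x - w) :=
          Finset.sum_nonneg fun x _ => mul_nonneg hA.le (kr_pos _).le
        gcongr
    _ = C * C / (L : ℝ) ^ 4 := by
        field_simp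

end H95LBS
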