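import Pool.Agent.H95.LBS.AsmF
import Pool.Agent.H95.LBS.Dual

/-!
PROJECT DS (MP_0d9ad5_pr), JOB DS-Sharp. The sharp lower bound and the linear upper bound for theta.
PROOF. `s = ε/(1-p0)`, `pn p0 s = p0 + ε`. `theta_up`: `near_arm` with `r = floor (sqrt(κ0/s))`, `theta <= P(Ar 0 r) <= C/r^2 <= C' s` (an
infinite cluster is not contained in a box). `sharp_low`: `lam = floor(κ/sqrt s)` satisfies
`κ^2/2 <= s lam^2 <= κ^2` for small `s`; `asm_final`, `dual_walk` with `c3 = c4/lam^6 >= c4 s^3/κ^6` (`i0 = 0`):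
`D * 2 d theta >= c3`, `theta <= C' s`, so `D >= c s^2 >= c ε^2`.
-/

namespace H95LBS

open H5DF H95LBD MeasureTheory

variable {d : ℕ}

lemma Sharp_pn {p0 ε : ℝ} (hp1 : p0 < 1) : pn p0 (ε / (1 - p0)) = p0 + ε := by
  have h : (1 - p0) ≠ 0 := by linarith
  unfold pn
  field_simp
  ring

lemma Sharp_inf (r : ℕ) : {ω : Cfg d | (cluster ω 0).Infinite} ⊆ Ar 0 r := by
  intro ω h
  have h1 : (cluster ω (0 : V d)).Infinite := h
  by_contra h2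
  apply h1
  refine Set.Finite.subset (Finset.finite_toSet (BF (0 : V d) r)) ?_
  intro z hz
  rw [Finset.mem_coe, mem_BF]
  by_contra h3
  exact h2 ⟨z, by omega, hz⟩

lemma Sharp_floor {x : ℝ} (hx : 1 ≤ x) : x / 2 ≤ (⌊x⌋₊ : ℝ) := by
  have h1 : x < (⌊x⌋₊ : ℝ) + 1 := Nat.lt_floor_add_one x
  have h2 : (1 : ℝ) ≤ (⌊x⌋₊ : ℝ) := by
    exact_mod_cast (Nat.one_le_floor_iff x).2 hx
  linarith

lemma Sharp_floor4 {x : ℝ} (hx : 4 ≤ x) : 3 / 4 * x ≤ (⌊x⌋₊ : ℝ) := by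
  have h1 : x < (⌊x⌋₊ : ℝ) + 1 := Nat.lt_floor_add_one x
  linarith

theorem theta_up {p0 A cM : ℝ} {M : ℕ} (H : Crit d p0 A cM M) : ∃ C δ : ℝ, 0 < C ∧ 0 < δ ∧
    ∀ ε : ℝ, 0 < ε → ε < δ → theta d (p0 + ε) ≤ C * ε := by
  obtain ⟨κ0, C, hκ, hC, hN⟩ := near_arm H
  have hp1 := H.hp1
  have hp0 := H.hp0
  have hq : 0 < 1 - p0 := by linarith
  refine ⟨4 * C / (κ0 * (1 - p0)), (1 - p0) * min 1 κ0, by positivity,
    mul_pos hq (lt_min one_pos hκ), ?_⟩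
  intro ε hε hεδ
  set s : ℝ := ε / (1 - p0) with hs
  have hs0 : 0 < s := div_pos hε hq
  have hsm : s < min 1 κ0 := by
    rw [hs, div_lt_iff₀ hq]
    linarith [mul_comm (1 - p0) (min 1 κ0)]
  have hs1 : s < 1 := lt_of_lt_of_le hsm (min_le_left _ _)
  have hsk : s < κ0 := lt_of_lt_of_le hsm (min_le_right _ _)
  have hpn : pn p0 s = p0 + ε := Sharp_pn hp1
  set x : ℝ := Real.sqrt (κ0 / s) with hx
  have hx2 : x ^ 2 = κ0 / s := Real.sq_sqrt (by positivity)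
  have hx1 : 1 ≤ x := by
    rw [hx, Real.one_le_sqrt, one_le_div hs0]
    exact hsk.le
  set r : ℕ := ⌊x⌋₊ with hr
  have hr1 : 1 ≤ r := (Nat.one_le_floor_iff x).2 hx1
  have hrx : (r : ℝ) ≤ x := Nat.floor_le (by linarith)
  have hr2 : x / 2 ≤ (r : ℝ) := Sharp_floor hx1
  have hrpos : (0 : ℝ) < r := by exact_mod_cast hr1
  have hsr : s * (r : ℝ) ^ 2 ≤ κ0 := by
    have h1 : (r : ℝ) ^ 2 ≤ x ^ 2 := by
      have : 0 ≤ (r : ℝ) := hrpos.le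
      nlinarith
    calc s * (r : ℝ) ^ 2 ≤ s * x ^ 2 := mul_le_mul_of_nonneg_left h1 hs0.le
      _ = κ0 := by
        rw [hx2]
        field_simp
  have h1 := hN s r 0 hs0.le hs1.le hr1 hsr
  rw [hpn] at h1
  have hpr : IsProbabilityMeasure (perc d (p0 + ε)) := by
    rw [← hpn]
    exact isProb_perc _ (hp0.le.trans (pn_ge hp1.le hs0.le)) (pn_le hp1.le hs1.le)
  have h2 : theta d (p0 + ε) ≤ (perc d (p0 + ε)).real (Ar 0 r) := by
    unfold theta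
    exact measureReal_mono (Sharp_inf r)
  have h3 : κ0 / s / 4 ≤ (r : ℝ) ^ 2 := by
    have : (x / 2) ^ 2 ≤ (r : ℝ) ^ 2 := by
      have h0 : 0 ≤ x / 2 := by linarith
      nlinarith
    have h4 : (x / 2) ^ 2 = κ0 / s / 4 := by
      rw [← hx2]
      ring
    linarith
  have hk4 : 0 < κ0 / s / 4 := by positivity
  calc theta d (p0 + ε) ≤ C / (r : ℝ) ^ 2 := h2.trans h1
    _ ≤ C / (κ0 / s / 4) := by
      apply div_le_div_of_nonneg_left (by linarith) hk4 h3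
    _ = 4 * C / (κ0 * (1 - p0)) * ε := by
      rw [hs]
      field_simp

theorem sharp_low {p0 A cM : ℝ} {M : ℕ} (H : Crit d p0 A cM M) : ∃ c δ : ℝ, 0 < c ∧ 0 < δ ∧
    ∀ ε : ℝ, 0 < ε → ε < δ → ∀ D : NNReal, HasDiffusivity d (p0 + ε) D → c * ε ^ 2 ≤ D := by
  have hd := H.hd
  obtain ⟨C', δ1, hC', hδ1, hth⟩ := theta_up H
  obtain ⟨κ, c4, lam0, hκ, hc4, hasm⟩ := asm_final H (⟨0, by omega⟩ : Fin d)
  have hp1 := H.hp1
  have hp0 := H.hp0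
  have hq : 0 < 1 - p0 := by linarith
  have hdp : (0 : ℝ) < d := by
    have : 0 < d := by omega
    exact_mod_cast this
  set m : ℝ := κ ^ 2 / ((lam0 : ℝ) + 4) ^ 2 with hm
  have hmp : 0 < m := by positivity
  refine ⟨c4 / (κ ^ 6 * (2 * d * C')), min δ1 ((1 - p0) * min 1 m), by positivity,
    lt_min hδ1 (mul_pos hq (lt_min one_pos hmp)), ?_⟩
  intro ε hε hεδ D hD
  have hε1 : ε < δ1 := lt_of_lt_of_le hεδ (min_le_left _ _)
  have hε2 : ε < (1 - p0) * min 1 m := lt_of_lt_of_le hεδ (min_le_right _ _)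
  set s : ℝ := ε / (1 - p0) with hs
  have hs0 : 0 < s := div_pos hε hq
  have hsm : s < min 1 m := by
    rw [hs, div_lt_iff₀ hq]
    linarith [mul_comm (1 - p0) (min 1 m)]
  have hs1 : s < 1 := lt_of_lt_of_le hsm (min_le_left _ _)
  have hsk : s < m := lt_of_lt_of_le hsm (min_le_right _ _)
  have hpn : pn p0 s = p0 + ε := Sharp_pn hp1
  have hεs : ε ≤ s := by
    rw [hs, le_div_iff₀ hq]
    nlinarith
  set x : ℝ := κ / Real.sqrt s with hx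
  have hsq : 0 < Real.sqrt s := Real.sqrt_pos.2 hs0
  have hsq2 : Real.sqrt s ^ 2 = s := Real.sq_sqrt hs0.le
  have hx0 : 0 < x := div_pos hκ hsq
  have hx2 : s * x ^ 2 = κ ^ 2 := by
    rw [hx, div_pow, hsq2]
    field_simp
  have hxl : (lam0 : ℝ) + 4 ≤ x := by
    have h0 : (0 : ℝ) < (lam0 : ℝ) + 4 := by positivity
    by_contra hcon
    push Not at hcon
    have h1 : x ^ 2 < ((lam0 : ℝ) + 4) ^ 2 := by nlinarith
    have h2 : s * x ^ 2 < s * ((lam0 : ℝ) + 4) ^ 2 := mul_lt_mul_of_pos_left h1 hs0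
    have h3 : s * ((lam0 : ℝ) + 4) ^ 2 < m * ((lam0 : ℝ) + 4) ^ 2 :=
      mul_lt_mul_of_pos_right hsk (by positivity)
    have h4 : m * ((lam0 : ℝ) + 4) ^ 2 = κ ^ 2 := by
      rw [hm]
      field_simp
    linarith
  have hl0 : (0 : ℝ) ≤ (lam0 : ℝ) := Nat.cast_nonneg _
  have hx4 : 4 ≤ x := by linarith
  set lam : ℕ := ⌊x⌋₊ with hlam
  have hlx : (lam : ℝ) ≤ x := Nat.floor_le hx0.le
  have hll : lam0 ≤ lam := by
    apply Nat.le_floor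
    linarith
  have hl34 : 3 / 4 * x ≤ (lam : ℝ) := Sharp_floor4 hx4
  have hlpos : (0 : ℝ) < lam := by linarith
  have hup : s * (lam : ℝ) ^ 2 ≤ κ ^ 2 := by
    rw [← hx2]
    apply mul_le_mul_of_nonneg_left _ hs0.le
    nlinarith
  have hlo : κ ^ 2 / 2 ≤ s * (lam : ℝ) ^ 2 := by
    have h1 : 9 / 16 * x ^ 2 ≤ (lam : ℝ) ^ 2 := by nlinarith
    have h2 : s * (9 / 16 * x ^ 2) ≤ s * (lam : ℝ) ^ 2 := mul_le_mul_of_nonneg_left h1 hs0.le
    have h3 : 0 ≤ κ ^ 2 := sq_nonneg κ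
    nlinarith
  have hq0 : 0 ≤ pn p0 s := hp0.le.trans (pn_ge hp1.le hs0.le)
  have hq1 : pn p0 s ≤ 1 := pn_le hp1.le hs1.le
  have key := dual_walk (⟨0, by omega⟩ : Fin d) (pn p0 s) hq0 hq1 D (by rw [hpn]; exact hD)
    (c4 / (lam : ℝ) ^ 6) (fun g hg hK => hasm lam s hll hlo hup g hg hK)
  rw [hpn] at key
  have hth1 := hth ε hε hε1
  have hD0 : (0 : ℝ) ≤ D := D.2
  have h5 : c4 / (lam : ℝ) ^ 6 ≤ D * (2 * d * (C' * ε)) := by
    refine key.trans ?_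
    apply mul_le_mul_of_nonneg_left _ hD0
    apply mul_le_mul_of_nonneg_left hth1 (by positivity)
  have h6 : c4 * s ^ 3 / κ ^ 6 ≤ c4 / (lam : ℝ) ^ 6 := by
    rw [div_le_div_iff₀ (by positivity) (by positivity)]
    have h7 : (s * (lam : ℝ) ^ 2) ^ 3 ≤ (κ ^ 2) ^ 3 := by
      apply pow_le_pow_left₀ (by positivity) hup
    have h8 : c4 * (s * (lam : ℝ) ^ 2) ^ 3 ≤ c4 * (κ ^ 2) ^ 3 :=
      mul_le_mul_of_nonneg_left h7 hc4.le
    calc c4 * s ^ 3 * (lam : ℝ) ^ 6 = c4 * (s * (lam : ℝ) ^ 2) ^ 3 := by ring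
      _ ≤ c4 * (κ ^ 2) ^ 3 := h8
      _ = c4 * κ ^ 6 := by ring
  have h9 : c4 * ε ^ 3 / κ ^ 6 ≤ c4 * s ^ 3 / κ ^ 6 := by
    apply div_le_div_of_nonneg_right _ (by positivity)
    apply mul_le_mul_of_nonneg_left _ hc4.le
    exact pow_le_pow_left₀ hε.le hεs 3
  have h10 : c4 * ε ^ 3 / κ ^ 6 ≤ D * (2 * d * (C' * ε)) := h9.trans (h6.trans h5)
  have h11 : c4 / (κ ^ 6 * (2 * d * C')) * ε ^ 2 = (c4 * ε ^ 3 / κ ^ 6) / (2 * d * (C' * ε)) := by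
    field_simp
  rw [h11, div_le_iff₀ (by positivity)]
  exact h10

end H95LBS
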