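import Pool.Agent.H95.LBS.Sharp
import Pool.Agent.H5.DG.BFinal
import Pool.Agent.H95.LBD.TauK

/-!
PROJECT DS (MP_0d9ad5_pr). The two-sided theorem: assembly with the sharp upper bound of H5/DG.
-/

namespace H95LBS

open H5DF H95LBD MeasureTheory

variable {d : ℕ}

/-- The open edges with both ends in `S`. -/
def GIn (S : Set (V d)) (ω : Cfg d) : SimpleGraph (V d) where
  Adj x y := (G ω).Adj x y ∧ x ∈ S ∧ y ∈ S
  symm := ⟨fun _ _ h => ⟨h.1.symm, h.2.2, h.2.1⟩⟩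
  loopless := ⟨fun _ h => h.1.ne rfl⟩

lemma GIn_eq (S : Set (V d)) (ω : Cfg d) : GIn S ω = G (cut S ω) := by
  ext x y
  rw [G_cut_adj]
  exact Iff.rfl

theorem crit_of (hd : 7 ≤ d) (pc a A : ℝ) (M : ℕ) (h0 : 0 < pc) (h1 : pc < 1) (ha : 0 < a)
    (hM : 1 ≤ M) (two : TwoPt d pc a A)
    (arm : ∀ r : ℕ, 1 ≤ r → (perc d pc).real {ω | ∃ z ∈ cluster ω 0, (r : ℝ) ≤ ‖z‖} ≤
      A / (r : ℝ) ^ 2)
    (intr : ∀ (S : Set (V d)) (x : V d) (r : ℕ), 1 ≤ r → (perc d pc).real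
      {ω | ∃ y, (GIn S ω).Reachable x y ∧ r ≤ (GIn S ω).dist x y} ≤ A / r)
    (rest : ∀ (n : ℕ) (x y : V d), 1 ≤ n → ‖x‖ ≤ n → ‖y‖ ≤ n → a / (n : ℝ) ^ (d - 2) ≤
      (perc d pc).real {ω | (GIn {z : V d | ‖z‖ ≤ M * n} ω).Reachable x y}) :
    ∃ A' cM : ℝ, Crit d pc A' cM M := by
  obtain ⟨b, B, hb, hB, hKB⟩ := kb_of_twoPt pc a A h0.le h1.le ha two
  have hprob : IsProbabilityMeasure (perc d pc) := isProb_perc pc h0.le h1.le
  refine ⟨max 1 (max A B), min a b, ?_⟩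
  have hA : A ≤ max 1 (max A B) := (le_max_left _ _).trans (le_max_right _ _)
  have hB' : B ≤ max 1 (max A B) := (le_max_right _ _).trans (le_max_right _ _)
  refine ⟨hd, h0, h1, lt_min ha hb, le_max_left _ _, hM, ?_, ?_, ?_, ?_⟩
  · intro x
    obtain ⟨h2, h3⟩ := hKB x
    exact ⟨(ENNReal.ofReal_le_ofReal (mul_le_mul_of_nonneg_right (min_le_right _ _)
      (kr_pos x).le)).trans h2, h3.trans (ENNReal.ofReal_le_ofReal
        (mul_le_mul_of_nonneg_right hB' (kr_pos x).le))⟩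
  · intro r hr
    have h2 : Ar (0 : V d) r = {ω : Cfg d | ∃ z ∈ cluster ω 0, (r : ℝ) ≤ ‖z‖} := by
      ext ω
      simp only [Ar, sub_zero, Set.mem_ofPred_eq]
      constructor
      · rintro ⟨z, hz, h⟩
        exact ⟨z, h, by rw [norm_eq_nm]; exact_mod_cast hz⟩
      · rintro ⟨z, h, hz⟩
        refine ⟨z, ?_, h⟩
        rw [norm_eq_nm] at hz
        exact_mod_cast hz
    rw [h2]
    refine (arm r hr).trans ?_
    gcongr
  · intro S x r hr
    have h2 : {ω : Cfg d | ∃ y, Cn S ω x y ∧ r ≤ (G (cut S ω)).dist x y} =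
        {ω | ∃ y, (GIn S ω).Reachable x y ∧ r ≤ (GIn S ω).dist x y} := by
      ext ω
      simp only [Set.mem_ofPred_eq]
      rw [GIn_eq]
      exact Iff.rfl
    rw [h2]
    refine (intr S x r hr).trans ?_
    gcongr
  · intro n x y hn hx hy
    have h2 : {ω : Cfg d | Cn (Bx 0 (M * n)) ω x y} =
        {ω | (GIn {z : V d | ‖z‖ ≤ M * n} ω).Reachable x y} := by
      ext ω
      simp only [Set.mem_ofPred_eq]
      rw [GIn_eq]
      have h3 : {z : V d | ‖z‖ ≤ M * n} = Bx 0 (M * n) := by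
        ext z
        simp only [Set.mem_ofPred_eq, mem_Bx0]
        rw [norm_eq_nm]
        exact_mod_cast Iff.rfl
      rw [h3]
      exact Iff.rfl
    rw [h2]
    refine le_trans ?_ (rest n x y hn (by rw [norm_eq_nm]; exact_mod_cast hx)
      (by rw [norm_eq_nm]; exact_mod_cast hy))
    gcongr
    exact min_le_left _ _

/-- The percolation probability is positive if every diffusivity is bounded below. -/
theorem theta_pos {p c : ℝ} (h0 : 0 ≤ p) (h1 : p ≤ 1) (hc : 0 < c)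
    (h : ∀ D : NNReal, HasDiffusivity d p D → c ≤ D) : 0 < theta d p := by
  have hprob : IsProbabilityMeasure (perc d p) := isProb_perc p h0 h1
  by_contra hθ
  have hθ0 : theta d p = 0 := le_antisymm (not_lt.1 hθ) measureReal_nonneg
  have hnull : perc d p {ω | (cluster ω 0).Infinite} = 0 := by
    unfold theta at hθ0
    exact (measureReal_eq_zero_iff).1 hθ0
  have hD : HasDiffusivity d p 0 := by
    have h3 : ∀ᵐ ω ∂(perc d p), ω ∉ {ω : Cfg d | (cluster ω 0).Infinite} :=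
      measure_eq_zero_iff_ae_notMem.1 hnull
    filter_upwards [h3] with ω hω hinf
    exact absurd hinf hω
  have h4 := h 0 hD
  rw [NNReal.coe_zero] at h4
  linarith

theorem two_sided (hd : 7 ≤ d) (pc a A δ₀ : ℝ) (M : ℕ) (h0 : 0 < pc) (h1 : pc < 1) (ha : 0 < a)
    (hA : 0 < A) (hδ₀ : 0 < δ₀) (hM : 1 ≤ M) (two : TwoPt d pc a A)
    (arm : ∀ r : ℕ, 1 ≤ r → (perc d pc).real {ω | ∃ z ∈ cluster ω 0, (r : ℝ) ≤ ‖z‖} ≤
      A / (r : ℝ) ^ 2)
    (intr : ∀ (S : Set (V d)) (x : V d) (r : ℕ), 1 ≤ r → (perc d pc).real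
      {ω | ∃ y, (GIn S ω).Reachable x y ∧ r ≤ (GIn S ω).dist x y} ≤ A / r)
    (rest : ∀ (n : ℕ) (x y : V d), 1 ≤ n → ‖x‖ ≤ n → ‖y‖ ≤ n → a / (n : ℝ) ^ (d - 2) ≤
      (perc d pc).real {ω | (GIn {z : V d | ‖z‖ ≤ M * n} ω).Reachable x y})
    (sus : ∀ ε : ℝ, 0 < ε → ε < δ₀ →
      ∑' x : V d, ENNReal.ofReal (1 + ‖x‖ ^ 2) * tau d (pc - ε) x ≤ ENNReal.ofReal (A / ε ^ 2)) :
    ∃ c C δ : ℝ, 0 < c ∧ 0 < C ∧ 0 < δ ∧ ∀ ε : ℝ, 0 < ε → ε < δ → 0 < theta d (pc + ε) ∧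
      ∀ D : NNReal, HasDiffusivity d (pc + ε) D → c * ε ^ 2 ≤ D ∧ (D : ℝ) ≤ C * ε ^ 2 := by
  obtain ⟨A', cM, H⟩ := crit_of hd pc a A M h0 h1 ha hM two arm intr rest
  obtain ⟨C1, δ1, hC1, hδ1, hθ⟩ := theta_up H
  obtain ⟨c, δ2, hc, hδ2, hlow⟩ := sharp_low H
  have hpos : ∀ ε : ℝ, 0 < ε → ε < min δ2 (1 - pc) → 0 < theta d (pc + ε) := by
    intro ε hε hεδ
    have h2 : ε < 1 - pc := hεδ.trans_le (min_le_right _ _)
    exact theta_pos (by linarith) (by linarith) (by positivity : 0 < c * ε ^ 2)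
      (hlow ε hε (hεδ.trans_le (min_le_left _ _)))
  set A2 : ℝ := max A C1 with hA2
  set δ3 : ℝ := min (min δ₀ δ1) (min δ2 (1 - pc)) with hδ3
  have hδ3p : 0 < δ3 := lt_min (lt_min hδ₀ hδ1) (lt_min hδ2 (by linarith))
  obtain ⟨C, δ4, hC, hδ4, hup⟩ := sharp_mean_field d (by omega) pc A2 δ3 h0 h1
    (lt_max_of_lt_left hA) hδ3p
    (fun ε hε hεδ => ⟨hpos ε hε (hεδ.trans_le (min_le_right _ _)),
      (hθ ε hε (hεδ.trans_le ((min_le_left _ _).trans (min_le_right _ _)))).trans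
        (mul_le_mul_of_nonneg_right (le_max_right _ _) hε.le)⟩)
    (fun ε hε hεδ => (sus ε hε (hεδ.trans_le ((min_le_left _ _).trans (min_le_left _ _)))).trans
      (ENNReal.ofReal_le_ofReal (by
        have : A ≤ A2 := le_max_left _ _
        gcongr)))
  refine ⟨c, C, min (min δ2 (1 - pc)) δ4, hc, hC, lt_min (lt_min hδ2 (by linarith)) hδ4,
    fun ε hε hεδ => ⟨hpos ε hε (hεδ.trans_le (min_le_left _ _)), fun D hD => ⟨?_, ?_⟩⟩⟩
  · exact hlow ε hε (hεδ.trans_le ((min_le_left _ _).trans (min_le_left _ _))) D hD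
  · exact hup ε hε (hεδ.trans_le (min_le_right _ _)) D hD

end H95LBS
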